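import Pool.Agent.Lib_helper39.RSE.Defs

/-!
# Selberg's theorem for real characters: more definitions
-/

namespace Pool.Agent.RSE

open Complex MeasureTheory Filter Topology

/-- Moments of the kernel. -/
noncomputable def Mg (g : ℝ → ℝ) (L t : ℝ) : ℂ :=
  ∫ z : ℝ, (g z : ℂ) * cexp ((1 / (2 * L) + t * I) * z)

/-- The two mollifier polynomials. -/
noncomputable def ph1 (Θ : ℝ → ℝ) (L : ℝ) (R : ℕ) (S T : Finset ℕ) (t : ℝ) : ℂ :=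
  ∑ k ∈ KL L, (be Θ L R k * xS S T k : ℂ) * (k : ℂ) ^ (-(1 / 2 + 1 / (2 * L) + t * I) : ℂ)

noncomputable def ph2 (Θ : ℝ → ℝ) (L : ℝ) (R : ℕ) (S T : Finset ℕ) (t : ℝ) : ℂ :=
  ∑ k ∈ KL L, (be Θ L R k * xS S T k : ℂ) * (k : ℂ) ^ (-(1 / 2 - 1 / (2 * L) - t * I) : ℂ)

/-- The Euler product. -/
noncomputable def LT (L : ℝ) (S T : Finset ℕ) (t : ℝ) : ℂ :=
  ∑' n : ℕ, (xS S T n : ℂ) * (n : ℂ) ^ (-(1 / 2 + 1 / (2 * L) + t * I) : ℂ)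

end Pool.Agent.RSE
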