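import Pool.Agent.Lib_helper39.RSE.Defs
import Pool.Agent.Lib_helper39.RSA.DefsB
/-!
# Block SMO1: smoothness of the Dirichlet series densities
-/

namespace Pool.Agent.RSE

open Complex MeasureTheory Filter Topology
open Pool.Agent.RC (cc psi rv f0 IsRC Good gm pr DD)
open scoped ContDiff

theorem rse_smo1_rv_le (j : Fin 4) (c n : ℕ) : |((rv j c n : ℤ) : ℝ)| ≤ 1 := by
  unfold rv
  push_cast
  rw [abs_mul]
  have h1 : |((jacobiSym (n : ℤ) c : ℤ) : ℝ)| ≤ 1 := by
    rcases jacobiSym.trichotomy (n : ℤ) c with h | h | h <;> rw [h] <;> simp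
  have h2 : |((psi j n : ℤ) : ℝ)| ≤ 1 := by
    unfold psi
    fin_cases j
    · simp
    · rcases ZMod.isQuadratic_χ₄ (n : ZMod 4) with h | h | h <;> simp [h]
    · rcases ZMod.isQuadratic_χ₈ (n : ZMod 8) with h | h | h <;> simp [h]
    · rcases ZMod.isQuadratic_χ₈' (n : ZMod 8) with h | h | h <;> simp [h]
  calc _ ≤ (1 : ℝ) * 1 := mul_le_mul h2 h1 (abs_nonneg _) zero_le_one
    _ = 1 := one_mul 1

theorem rse_smo1_fast0 {g : ℝ → ℝ} (hg : Kern g) : Fast g := by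
  have := hg.fast 0
  rwa [iteratedDeriv_zero] at this

theorem rse_smo1_fast1 {g : ℝ → ℝ} (hg : Kern g) : Fast (deriv g) := by
  have := hg.fast 1
  rwa [iteratedDeriv_one] at this

/-- The termwise bound. -/
theorem rse_smo1_term {h : ℝ → ℝ} {C : ℝ} (hC : ∀ z : ℝ, |h z| ≤ C * Real.exp (-2 * z))
    {b : ℝ} (hb : 1 ≤ b) {w : ℕ → ℝ} (hw : ∀ n, |w n| ≤ 1) (hw0 : w 0 = 0) (x y : ℝ)
    (hy : x - 1 ≤ y) (n : ℕ) :
    ‖w n * h (b * Real.log n + y)‖ ≤ |C| * Real.exp (-2 * (x - 1)) * (1 / (n : ℝ) ^ 2) := by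
  rcases Nat.eq_zero_or_pos n with rfl | hn
  · rw [hw0]; simp
  · have hn' : (0 : ℝ) < n := Nat.cast_pos.mpr hn
    have hn1 : (1 : ℝ) ≤ n := by exact_mod_cast hn
    have hl : 0 ≤ Real.log n := Real.log_nonneg hn1
    rw [norm_mul, Real.norm_eq_abs, Real.norm_eq_abs]
    have h1 : |h (b * Real.log n + y)| ≤ |C| * (Real.exp (-2 * (x - 1)) * (1 / (n : ℝ) ^ 2)) := by
      calc |h (b * Real.log n + y)| ≤ C * Real.exp (-2 * (b * Real.log n + y)) := hC _
        _ ≤ |C| * Real.exp (-2 * (b * Real.log n + y)) :=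
            mul_le_mul_of_nonneg_right (le_abs_self C) (Real.exp_pos _).le
        _ ≤ |C| * Real.exp (-2 * (x - 1) + -(2 * Real.log n)) := by
            apply mul_le_mul_of_nonneg_left _ (abs_nonneg C)
            apply Real.exp_le_exp.mpr
            nlinarith
        _ = |C| * (Real.exp (-2 * (x - 1)) * (1 / (n : ℝ) ^ 2)) := by
            rw [Real.exp_add, Real.exp_neg, two_mul (Real.log n), Real.exp_add,
              Real.exp_log hn', one_div, sq]
    calc |w n| * |h (b * Real.log n + y)|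
        ≤ 1 * (|C| * (Real.exp (-2 * (x - 1)) * (1 / (n : ℝ) ^ 2))) :=
          mul_le_mul (hw n) h1 (abs_nonneg _) zero_le_one
      _ = _ := by ring

theorem rse_smo1_summable {g : ℝ → ℝ} (hg : Fast g) {b : ℝ} (hb : 1 ≤ b) (w : ℕ → ℝ)
    (hw : ∀ n, |w n| ≤ 1) (hw0 : w 0 = 0) (x : ℝ) :
    Summable (fun n : ℕ => w n * g (b * Real.log n + x)) := by
  obtain ⟨C, hC⟩ := hg 2 (by norm_num)
  apply Summable.of_norm_bounded (g := fun n : ℕ => |C| * Real.exp (-2 * (x - 1)) *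
    (1 / (n : ℝ) ^ 2))
  · exact (Real.summable_one_div_nat_pow.mpr (by norm_num)).mul_left _
  · intro n
    exact rse_smo1_term hC hb hw hw0 x x (by linarith) n

/-- The general statement: termwise differentiation. -/
theorem rse_smo1_gen {g : ℝ → ℝ} (hg : Kern g) {b : ℝ} (hb : 1 ≤ b) (w : ℕ → ℝ)
    (hw : ∀ n, |w n| ≤ 1) (hw0 : w 0 = 0) (x : ℝ) :
    HasDerivAt (fun x => ∑' n : ℕ, w n * g (b * Real.log n + x))
      (∑' n : ℕ, w n * deriv g (b * Real.log n + x)) x := by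
  obtain ⟨C1, hC1⟩ := rse_smo1_fast1 hg 2 (by norm_num)
  have hd : Differentiable ℝ g := hg.smooth.differentiable (by simp)
  refine hasDerivAt_tsum_of_isPreconnected (u := fun n : ℕ => |C1| * Real.exp (-2 * (x - 1)) *
    (1 / (n : ℝ) ^ 2)) (t := Set.Ioo (x - 1) (x + 1)) (y₀ := x)
    (g := fun n x => w n * g (b * Real.log n + x))
    (g' := fun n x => w n * deriv g (b * Real.log n + x)) ?_ isOpen_Ioo isPreconnected_Ioo ?_ ?_
    (by constructor <;> linarith) ?_ (by constructor <;> linarith)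
  · exact (Real.summable_one_div_nat_pow.mpr (by norm_num)).mul_left _
  · intro n y _
    have h1 : HasDerivAt (fun y => g (b * Real.log n + y)) (deriv g (b * Real.log n + y)) y :=
      ((hd _).hasDerivAt).comp_const_add (b * Real.log n) y
    exact h1.const_mul (w n)
  · intro n y hy
    exact rse_smo1_term hC1 hb hw hw0 x y hy.1.le n
  · exact rse_smo1_summable (rse_smo1_fast0 hg) hb w hw hw0 x

/-- The weights of `DO`. -/
noncomputable def rse_smo1_wo (j : Fin 4) (m n : ℕ) : ℝ :=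
  if Odd n then (rv j m n : ℝ) / √(n : ℝ) else 0

/-- The weights of `DF`. -/
noncomputable def rse_smo1_wf (j : Fin 4) (m n : ℕ) : ℝ :=
  if 0 < n then (rv j m n : ℝ) / √(n : ℝ) else 0

theorem rse_smo1_div_le (j : Fin 4) (m n : ℕ) (hn : 0 < n) : |(rv j m n : ℝ) / √(n : ℝ)| ≤ 1 := by
  have hn1 : (1 : ℝ) ≤ n := by exact_mod_cast hn
  have h1 : 1 ≤ √(n : ℝ) := by
    rw [Real.one_le_sqrt]; exact hn1
  rw [abs_div, abs_of_nonneg (Real.sqrt_nonneg _), div_le_one (by linarith)]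
  exact le_trans (rse_smo1_rv_le j m n) h1

theorem rse_smo1_wo_le (j : Fin 4) (m n : ℕ) : |rse_smo1_wo j m n| ≤ 1 := by
  unfold rse_smo1_wo
  split_ifs with h
  · exact rse_smo1_div_le j m n h.pos
  · simp

theorem rse_smo1_wf_le (j : Fin 4) (m n : ℕ) : |rse_smo1_wf j m n| ≤ 1 := by
  unfold rse_smo1_wf
  split_ifs with h
  · exact rse_smo1_div_le j m n h
  · simp

theorem rse_smo1_wo_zero (j : Fin 4) (m : ℕ) : rse_smo1_wo j m 0 = 0 := by
  unfold rse_smo1_wo
  simp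

theorem rse_smo1_wf_zero (j : Fin 4) (m : ℕ) : rse_smo1_wf j m 0 = 0 := by
  unfold rse_smo1_wf
  simp

theorem rse_smo1_do_eq (g : ℝ → ℝ) (j : Fin 4) (m : ℕ) :
    DO g j m = fun u => ∑' n : ℕ, rse_smo1_wo j m n * g (1 * Real.log n + u) := by
  funext u
  unfold DO
  apply tsum_congr
  intro n
  unfold rse_smo1_wo
  split_ifs with h
  · rw [one_mul]
  · rw [zero_mul]

theorem rse_smo1_df_eq (g : ℝ → ℝ) (j : Fin 4) (m : ℕ) :
    DF g j m = fun u => ∑' n : ℕ, rse_smo1_wf j m n * g (1 * Real.log n + u) := by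
  funext u
  unfold DF
  apply tsum_congr
  intro n
  unfold rse_smo1_wf
  split_ifs with h
  · rw [one_mul]
  · rw [zero_mul]

/-- SMO (cites SUMG). -/
theorem do_deriv_pr {g : ℝ → ℝ} (hg : Kern g) (j : Fin 4) (m : ℕ) (u : ℝ) :
    HasDerivAt (DO g j m) (DO (deriv g) j m u) u := by
  rw [rse_smo1_do_eq g, rse_smo1_do_eq (deriv g)]
  exact rse_smo1_gen hg le_rfl _ (rse_smo1_wo_le j m) (rse_smo1_wo_zero j m) u

theorem df_deriv_pr {g : ℝ → ℝ} (hg : Kern g) (j : Fin 4) (m : ℕ) (u : ℝ) :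
    HasDerivAt (DF g j m) (DF (deriv g) j m u) u := by
  rw [rse_smo1_df_eq g, rse_smo1_df_eq (deriv g)]
  exact rse_smo1_gen hg le_rfl _ (rse_smo1_wf_le j m) (rse_smo1_wf_zero j m) u

end Pool.Agent.RSE

namespace Pool.Agent.RSE

alias do_deriv := do_deriv_pr

alias df_deriv := df_deriv_pr

end Pool.Agent.RSE
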