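import Pool.Agent.Lib_helper39.RSE.Defs
import Pool.Agent.Lib_helper39.RSA.DefsB
import Pool.Agent.Lib_helper39.RSA.SMO1
/-!
# Block AMB2: smoothness of `AA`
-/

namespace Pool.Agent.RSE

open Complex MeasureTheory Filter Topology
open Pool.Agent.RC (cc psi rv f0 IsRC Good gm pr DD)
open scoped ContDiff

/-- The weights of `AA`. -/
noncomputable def rse_amb2_w (m a : ℕ) : ℝ := if Odd a ∧ a.Coprime m then 1 / (a : ℝ) else 0

theorem rse_amb2_w_le (m a : ℕ) : |rse_amb2_w m a| ≤ 1 := by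
  unfold rse_amb2_w
  split_ifs with h
  · have h1 : (1 : ℝ) ≤ a := by exact_mod_cast h.1.pos
    rw [abs_of_nonneg (by positivity), div_le_one (by linarith)]
    exact h1
  · simp

theorem rse_amb2_w_zero (m : ℕ) : rse_amb2_w m 0 = 0 := by
  unfold rse_amb2_w
  simp

theorem rse_amb2_eq (g : ℝ → ℝ) (m : ℕ) :
    AA g m = fun x => ∑' a : ℕ, rse_amb2_w m a * g (2 * Real.log a + x) := by
  funext x
  unfold AA
  apply tsum_congr
  intro a
  unfold rse_amb2_w
  split_ifs with h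
  · ring
  · rw [zero_mul]

theorem aa_deriv_pr {g : ℝ → ℝ} (hg : Kern g) (m : ℕ) (x : ℝ) :
    HasDerivAt (AA g m) (AA (deriv g) m x) x := by
  rw [rse_amb2_eq g, rse_amb2_eq (deriv g)]
  exact rse_smo1_gen hg (by norm_num) _ (rse_amb2_w_le m) (rse_amb2_w_zero m) x

end Pool.Agent.RSE

namespace Pool.Agent.RSE

alias aa_deriv := aa_deriv_pr

end Pool.Agent.RSE
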