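import Pool.Agent.Lib_helper39.RSE.Defs
import Pool.Agent.Lib_helper39.RSA.DefsB
/-!
# RSE block EM: summation of a periodic function against a smooth function of `log n`
-/

namespace Pool.Agent.RSE

open Complex MeasureTheory Filter Topology
open scoped ContDiff

/-! ### the periodic part -/

lemma rse_em_shift (Q : ℕ) (χ : ℕ → ℝ) (hper : ∀ n, χ (n + Q) = χ n) (a : ℕ) :
    ∑ k ∈ Finset.range Q, χ (a + k) = ∑ k ∈ Finset.range Q, χ k := by
  induction a with
  | zero => simp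
  | succ a ih =>
    rw [← ih]
    have h1 : ∑ k ∈ Finset.range (Q + 1), χ (a + k) =
        ∑ k ∈ Finset.range Q, χ (a + k) + χ a := by
      rw [Finset.sum_range_succ, hper a]
    have h2 : ∑ k ∈ Finset.range (Q + 1), χ (a + k) =
        ∑ k ∈ Finset.range Q, χ (a + 1 + k) + χ a := by
      rw [Finset.sum_range_succ']
      simp only [add_zero, add_left_inj]
      refine Finset.sum_congr rfl fun k _ => ?_
      congr 1
      omega
    linarith

/-- the discrepancy -/
noncomputable def rse_em_E (Q : ℕ) (χ : ℕ → ℝ) (n : ℕ) : ℝ :=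
  ∑ k ∈ Finset.range n, χ (k + 1) - (∑ x ∈ Finset.range Q, χ x) / Q * n

lemma rse_em_E_zero (Q : ℕ) (χ : ℕ → ℝ) : rse_em_E Q χ 0 = 0 := by simp [rse_em_E]

lemma rse_em_E_succ (Q : ℕ) (χ : ℕ → ℝ) (n : ℕ) :
    χ (n + 1) = rse_em_E Q χ (n + 1) - rse_em_E Q χ n + (∑ x ∈ Finset.range Q, χ x) / Q := by
  unfold rse_em_E
  rw [Finset.sum_range_succ]
  push_cast
  ring

lemma rse_em_E_per (Q : ℕ) (hQ : 0 < Q) (χ : ℕ → ℝ) (hper : ∀ n, χ (n + Q) = χ n) (n : ℕ) :
    rse_em_E Q χ (n + Q) = rse_em_E Q χ n := by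
  unfold rse_em_E
  rw [Finset.sum_range_add]
  have : ∑ x ∈ Finset.range Q, χ (n + x + 1) = ∑ x ∈ Finset.range Q, χ x := by
    rw [← rse_em_shift Q χ hper (n + 1)]
    refine Finset.sum_congr rfl fun k _ => ?_
    congr 1
    omega
  rw [this]
  have hQ' : (Q : ℝ) ≠ 0 := by positivity
  push_cast
  field_simp
  ring

lemma rse_em_mean (Q : ℕ) (hQ : 0 < Q) (χ : ℕ → ℝ) (hb : ∀ n, |χ n| ≤ 1) :
    |(∑ x ∈ Finset.range Q, χ x) / Q| ≤ 1 := by
  have hQ' : (0 : ℝ) < Q := by positivity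
  rw [abs_div, abs_of_pos hQ', div_le_one hQ']
  calc |∑ x ∈ Finset.range Q, χ x| ≤ ∑ x ∈ Finset.range Q, |χ x| := Finset.abs_sum_le_sum_abs _ _
    _ ≤ ∑ x ∈ Finset.range Q, (1 : ℝ) := Finset.sum_le_sum fun x _ => hb x
    _ = Q := by simp

lemma rse_em_E_le (Q : ℕ) (hQ : 0 < Q) (χ : ℕ → ℝ) (hper : ∀ n, χ (n + Q) = χ n)
    (hb : ∀ n, |χ n| ≤ 1) (n : ℕ) : |rse_em_E Q χ n| ≤ 2 * ((Q : ℝ) - 1) := by
  have h1 : ∀ k r : ℕ, rse_em_E Q χ (r + Q * k) = rse_em_E Q χ r := by
    intro k r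
    induction k with
    | zero => simp
    | succ k ih =>
      rw [Nat.mul_succ, ← Nat.add_assoc, rse_em_E_per Q hQ χ hper, ih]
  have h2 := h1 (n / Q) (n % Q)
  rw [Nat.mod_add_div] at h2
  rw [h2]
  have h3 : n % Q + 1 ≤ Q := Nat.mod_lt n hQ
  have h3' : ((n % Q : ℕ) : ℝ) + 1 ≤ Q := by exact_mod_cast h3
  have h4 : |∑ k ∈ Finset.range (n % Q), χ (k + 1)| ≤ ((n % Q : ℕ) : ℝ) := by
    calc _ ≤ ∑ k ∈ Finset.range (n % Q), |χ (k + 1)| := Finset.abs_sum_le_sum_abs _ _
      _ ≤ ∑ k ∈ Finset.range (n % Q), (1 : ℝ) := Finset.sum_le_sum fun x _ => hb _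
      _ = _ := by simp
  have h5 : |(∑ x ∈ Finset.range Q, χ x) / Q * ((n % Q : ℕ) : ℝ)| ≤ ((n % Q : ℕ) : ℝ) := by
    rw [abs_mul, Nat.abs_cast]
    exact mul_le_of_le_one_left (Nat.cast_nonneg _) (rse_em_mean Q hQ χ hb)
  unfold rse_em_E
  have := abs_sub (∑ k ∈ Finset.range (n % Q), χ (k + 1))
    ((∑ x ∈ Finset.range Q, χ x) / Q * ((n % Q : ℕ) : ℝ))
  linarith

lemma rse_em_parts (e : ℕ → ℂ) (g : ℕ → ℂ) (h0 : e 0 = 0) (N : ℕ) :
    ∑ n ∈ Finset.range N, (e (n + 1) - e n) * g n =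
      e N * g N - ∑ n ∈ Finset.range N, e (n + 1) * (g (n + 1) - g n) := by
  induction N with
  | zero => simp [h0]
  | succ N ih =>
    rw [Finset.sum_range_succ, Finset.sum_range_succ, ih]
    ring

/-! ### the smooth part -/

section smooth

variable (F : ℝ → ℂ)

/-- `e^{-y} F(y)` -/
noncomputable def rse_em_H (y : ℝ) : ℂ := (Real.exp (-y) : ℂ) * F y

/-- its derivative -/
noncomputable def rse_em_H' (y : ℝ) : ℂ := (Real.exp (-y) : ℂ) * (deriv F y - F y)

variable {F}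

lemma rse_em_hasDeriv (hF : ContDiff ℝ 1 F) (y : ℝ) :
    HasDerivAt (rse_em_H F) (rse_em_H' F y) y := by
  have h1 : HasDerivAt (fun y : ℝ => ((Real.exp (-y) : ℝ) : ℂ)) (((-Real.exp (-y) : ℝ)) : ℂ) y := by
    have := ((Real.hasDerivAt_exp (-y)).comp y (hasDerivAt_neg y)).ofReal_comp
    simpa using this
  have h2 : HasDerivAt F (deriv F y) y :=
    ((hF.differentiable (by norm_num)) y).hasDerivAt
  have h3 : HasDerivAt (rse_em_H F) _ y := h1.mul h2
  refine h3.congr_deriv ?_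
  unfold rse_em_H'
  push_cast
  ring

lemma rse_em_contH (hF : ContDiff ℝ 1 F) : Continuous (rse_em_H F) := by
  unfold rse_em_H
  have := hF.continuous
  fun_prop

lemma rse_em_contH' (hF : ContDiff ℝ 1 F) : Continuous (rse_em_H' F) := by
  unfold rse_em_H'
  have h1 := hF.continuous
  have h2 := hF.continuous_deriv (le_refl _)
  fun_prop

lemma rse_em_diff (hF : ContDiff ℝ 1 F) {a b c : ℝ} (hab : a ≤ b) (hbc : b ≤ c) :
    ‖rse_em_H F b - rse_em_H F a‖ ≤ ∫ y in a..c, ‖rse_em_H' F y‖ := by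
  have hc := rse_em_contH' hF
  have h1 : ∫ y in a..b, rse_em_H' F y = rse_em_H F b - rse_em_H F a :=
    intervalIntegral.integral_eq_sub_of_hasDerivAt (fun y _ => rse_em_hasDeriv hF y)
      (hc.intervalIntegrable a b)
  rw [← h1]
  calc ‖∫ y in a..b, rse_em_H' F y‖ ≤ ∫ y in a..b, ‖rse_em_H' F y‖ :=
        intervalIntegral.norm_integral_le_integral_norm hab
    _ ≤ ∫ y in a..c, ‖rse_em_H' F y‖ := by
        have h2 := intervalIntegral.integral_add_adjacent_intervals
          (hc.norm.intervalIntegrable (μ := volume) a b)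
          (hc.norm.intervalIntegrable (μ := volume) b c)
        have h3 : 0 ≤ ∫ y in b..c, ‖rse_em_H' F y‖ :=
          intervalIntegral.integral_nonneg hbc fun _ _ => norm_nonneg _
        linarith

lemma rse_em_cell (hF : ContDiff ℝ 1 F) {n : ℕ} :
    ‖rse_em_H F (Real.log (n + 1)) - ∫ y in (Real.log (n + 1))..(Real.log (n + 2)), F y‖ ≤
      ∫ y in (Real.log (n + 1))..(Real.log (n + 2)), ‖rse_em_H' F y‖ := by
  set a := Real.log (n + 1) with ha
  set b := Real.log (n + 2) with hb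
  have hn1 : (0 : ℝ) < (n : ℝ) + 1 := by positivity
  have hn2 : (0 : ℝ) < (n : ℝ) + 2 := by positivity
  have hab : a ≤ b := Real.log_le_log hn1 (by linarith)
  have hexp : ∫ y in a..b, Real.exp y = 1 := by
    rw [integral_exp, ha, hb, Real.exp_log hn1, Real.exp_log hn2]
    ring
  set A := ∫ y in a..b, ‖rse_em_H' F y‖ with hA
  have hcF := hF.continuous
  have hcH := rse_em_contH hF
  have e1 : ∫ y in a..b, ((Real.exp y : ℝ) : ℂ) * (rse_em_H F a - rse_em_H F y) =
      rse_em_H F a - ∫ y in a..b, F y := by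
    have e2 : ∀ y : ℝ, ((Real.exp y : ℝ) : ℂ) * (rse_em_H F a - rse_em_H F y) =
        ((Real.exp y : ℝ) : ℂ) * rse_em_H F a - F y := by
      intro y
      rw [mul_sub]
      congr 1
      unfold rse_em_H
      rw [← mul_assoc, ← Complex.ofReal_mul, ← Real.exp_add, add_neg_cancel, Real.exp_zero]
      simp
    simp only [e2]
    rw [intervalIntegral.integral_sub]
    · congr 1
      rw [intervalIntegral.integral_mul_const, intervalIntegral.integral_ofReal, hexp]
      simp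
    · exact (by fun_prop : Continuous fun y : ℝ =>
        ((Real.exp y : ℝ) : ℂ) * rse_em_H F a).intervalIntegrable a b
    · exact hcF.intervalIntegrable a b
  rw [← e1]
  calc ‖∫ y in a..b, ((Real.exp y : ℝ) : ℂ) * (rse_em_H F a - rse_em_H F y)‖
      ≤ ∫ y in a..b, ‖((Real.exp y : ℝ) : ℂ) * (rse_em_H F a - rse_em_H F y)‖ :=
        intervalIntegral.norm_integral_le_integral_norm hab
    _ ≤ ∫ y in a..b, Real.exp y * A := by
        refine intervalIntegral.integral_mono_on hab ?_ ?_ fun y hy => ?_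
        · exact (by fun_prop : Continuous fun y : ℝ =>
            ‖((Real.exp y : ℝ) : ℂ) * (rse_em_H F a - rse_em_H F y)‖).intervalIntegrable a b
        · exact (by fun_prop : Continuous fun y : ℝ => Real.exp y * A).intervalIntegrable a b
        · rw [norm_mul, Complex.norm_real, Real.norm_of_nonneg (Real.exp_pos y).le, norm_sub_rev]
          exact mul_le_mul_of_nonneg_left (rse_em_diff hF hy.1 hy.2) (Real.exp_pos y).le
    _ = A := by
        rw [intervalIntegral.integral_mul_const, hexp, one_mul]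

end smooth

theorem em_sum_pr (Q : ℕ) (hQ : 0 < Q) (χ : ℕ → ℝ) (hper : ∀ n, χ (n + Q) = χ n)
    (hb : ∀ n, |χ n| ≤ 1) (F : ℝ → ℂ) (hF : ContDiff ℝ 1 F) (h1 : Integrable F)
    (h2 : Integrable (deriv F)) :
    Summable (fun n : ℕ => if 0 < n then (χ n : ℂ) / n * F (Real.log n) else 0) ∧
    ‖(∑' n : ℕ, if 0 < n then (χ n : ℂ) / n * F (Real.log n) else 0) -
      (((∑ x ∈ Finset.range Q, χ x) / Q : ℝ) : ℂ) * ∫ y : ℝ, F y‖ ≤
        2 * Q * ∫ y : ℝ, min 1 (Real.exp (-y)) * (‖F y‖ + ‖deriv F y‖) := by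
  set μ : ℝ := (∑ x ∈ Finset.range Q, χ x) / Q with hμ
  have hμ1 : |μ| ≤ 1 := rse_em_mean Q hQ χ hb
  have hcF := hF.continuous
  have hcF' : Continuous (deriv F) := hF.continuous_deriv (le_refl _)
  -- the weight
  set w : ℝ → ℝ := fun y => min 1 (Real.exp (-y)) * (‖F y‖ + ‖deriv F y‖) with hw
  have hw0 : ∀ y, 0 ≤ w y := fun y => by
    have : 0 ≤ min 1 (Real.exp (-y)) := le_min zero_le_one (Real.exp_pos _).le
    positivity
  have hwc : Continuous w := by
    have h3 : Continuous fun y : ℝ => min 1 (Real.exp (-y)) := by fun_prop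
    exact h3.mul (hcF.norm.add hcF'.norm)
  have hwi : Integrable w := by
    refine Integrable.mono' (h1.norm.add h2.norm) hwc.aestronglyMeasurable
      (Filter.Eventually.of_forall fun y => ?_)
    rw [Real.norm_of_nonneg (hw0 y)]
    exact mul_le_of_le_one_left (by positivity) (min_le_left _ _)
  have hH'w : ∀ y, 0 ≤ y → ‖rse_em_H' F y‖ ≤ w y := by
    intro y hy
    have h3 : min 1 (Real.exp (-y)) = Real.exp (-y) := min_eq_right (by
      rw [Real.exp_le_one_iff]; linarith)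
    simp only [hw, h3]
    unfold rse_em_H'
    rw [norm_mul, Complex.norm_real, Real.norm_of_nonneg (Real.exp_pos _).le]
    refine mul_le_mul_of_nonneg_left ?_ (Real.exp_pos _).le
    rw [add_comm]
    exact norm_sub_le _ _
  -- the cells
  set A : ℕ → ℝ := fun n => ∫ y in (Real.log (n + 1))..(Real.log (n + 2)), ‖rse_em_H' F y‖ with hA
  set g : ℕ → ℂ := fun n => rse_em_H F (Real.log (n + 1)) with hg
  have hlog : ∀ n : ℕ, Real.log (n + 1) ≤ Real.log (n + 2) := fun n =>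
    Real.log_le_log (by positivity) (by linarith)
  have hlog0 : ∀ n : ℕ, 0 ≤ Real.log (n + 1) := fun n => Real.log_nonneg (by
    have : (0 : ℝ) ≤ n := Nat.cast_nonneg n
    linarith)
  have hA0 : ∀ n, 0 ≤ A n := fun n =>
    intervalIntegral.integral_nonneg (hlog n) fun _ _ => norm_nonneg _
  have hcast : ∀ n : ℕ, Real.log (((n + 1 : ℕ) : ℝ) + 1) = Real.log ((n : ℝ) + 2) := fun n => by
    congr 1; push_cast; ring
  have htele : ∀ (f : ℝ → ℝ), Continuous f → ∀ N : ℕ,
      ∑ n ∈ Finset.range N, ∫ y in (Real.log ((n : ℝ) + 1))..(Real.log ((n : ℝ) + 2)), f y =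
        ∫ y in (0 : ℝ)..(Real.log ((N : ℝ) + 1)), f y := by
    intro f hf N
    induction N with
    | zero => simp
    | succ N ih =>
      rw [Finset.sum_range_succ, ih, hcast, intervalIntegral.integral_add_adjacent_intervals
        (hf.intervalIntegrable _ _) (hf.intervalIntegrable _ _)]
  have hteleC : ∀ N : ℕ,
      ∑ n ∈ Finset.range N, ∫ y in (Real.log ((n : ℝ) + 1))..(Real.log ((n : ℝ) + 2)), F y =
        ∫ y in (0 : ℝ)..(Real.log ((N : ℝ) + 1)), F y := by
    intro N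
    induction N with
    | zero => simp
    | succ N ih =>
      rw [Finset.sum_range_succ, ih, hcast, intervalIntegral.integral_add_adjacent_intervals
        (hcF.intervalIntegrable _ _) (hcF.intervalIntegrable _ _)]
  set W : ℝ := ∫ y in Set.Ioi (0 : ℝ), w y with hW
  set V : ℝ := ∫ y in Set.Iic (0 : ℝ), w y with hV
  have hVW : ∫ y : ℝ, w y = V + W := by
    rw [hV, hW, ← MeasureTheory.setIntegral_union (Set.Iic_disjoint_Ioi le_rfl) measurableSet_Ioi
      hwi.integrableOn hwi.integrableOn, Set.Iic_union_Ioi, MeasureTheory.setIntegral_univ]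
  have hW0 : 0 ≤ W := setIntegral_nonneg measurableSet_Ioi fun y _ => hw0 y
  have hV0 : 0 ≤ V := setIntegral_nonneg measurableSet_Iic fun y _ => hw0 y
  have hAsum : ∀ N : ℕ, ∑ n ∈ Finset.range N, A n ≤ W := by
    intro N
    rw [hA, htele _ (rse_em_contH' hF).norm N]
    calc ∫ y in (0 : ℝ)..(Real.log ((N : ℝ) + 1)), ‖rse_em_H' F y‖
        ≤ ∫ y in (0 : ℝ)..(Real.log ((N : ℝ) + 1)), w y := by
          refine intervalIntegral.integral_mono_on (hlog0 N)
            ((rse_em_contH' hF).norm.intervalIntegrable _ _) (hwc.intervalIntegrable _ _)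
            fun y hy => hH'w y hy.1
      _ ≤ W := by
          rw [intervalIntegral.integral_of_le (hlog0 N), hW]
          exact setIntegral_mono_set hwi.integrableOn
            (Filter.Eventually.of_forall fun y => hw0 y)
            (Set.Ioc_subset_Ioi_self).eventuallyLE
  -- summability of `g`
  have hgn : ∀ n, ‖g n‖ ≤
      (∫ y in (Real.log ((n : ℝ) + 1))..(Real.log ((n : ℝ) + 2)), ‖F y‖) + A n := by
    intro n
    have h3 := rse_em_cell hF (n := n)
    have h4 : ‖∫ y in (Real.log ((n : ℝ) + 1))..(Real.log ((n : ℝ) + 2)), F y‖ ≤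
        ∫ y in (Real.log ((n : ℝ) + 1))..(Real.log ((n : ℝ) + 2)), ‖F y‖ :=
      intervalIntegral.norm_integral_le_integral_norm (hlog n)
    have h5 : g n = (rse_em_H F (Real.log (n + 1)) -
      ∫ y in (Real.log (n + 1))..(Real.log (n + 2)), F y) +
      ∫ y in (Real.log (n + 1))..(Real.log (n + 2)), F y := by
      simp [hg]
    rw [h5]
    refine (norm_add_le _ _).trans ?_
    rw [add_comm]
    exact add_le_add h4 h3
  have hgs : Summable fun n => ‖g n‖ := by
    refine summable_of_sum_range_le (c := (∫ y : ℝ, ‖F y‖) + W) (fun n => norm_nonneg _) fun N => ?_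
    calc ∑ n ∈ Finset.range N, ‖g n‖
        ≤ ∑ n ∈ Finset.range N,
          ((∫ y in (Real.log ((n : ℝ) + 1))..(Real.log ((n : ℝ) + 2)), ‖F y‖) + A n) :=
          Finset.sum_le_sum fun n _ => hgn n
      _ = (∫ y in (0 : ℝ)..(Real.log ((N : ℝ) + 1)), ‖F y‖) + ∑ n ∈ Finset.range N, A n := by
          rw [Finset.sum_add_distrib, htele _ hcF.norm]
      _ ≤ (∫ y : ℝ, ‖F y‖) + W := by
          refine add_le_add ?_ (hAsum N)
          rw [intervalIntegral.integral_of_le (hlog0 N)]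
          exact setIntegral_le_integral h1.norm (Filter.Eventually.of_forall fun y => norm_nonneg _)
  -- the summands
  have hterm : ∀ n : ℕ, (χ (n + 1) : ℂ) / ((n + 1 : ℕ) : ℂ) * F (Real.log ((n + 1 : ℕ) : ℝ)) =
      (χ (n + 1) : ℂ) * g n := by
    intro n
    simp only [hg]
    unfold rse_em_H
    rw [Real.exp_neg, Real.exp_log (by positivity)]
    push_cast
    ring
  have hs1 : Summable fun n : ℕ => (χ (n + 1) : ℂ) * g n := by
    refine Summable.of_norm_bounded hgs fun n => ?_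
    rw [norm_mul, Complex.norm_real, Real.norm_eq_abs]
    exact mul_le_of_le_one_left (norm_nonneg _) (hb _)
  set f : ℕ → ℂ := fun n : ℕ => if 0 < n then (χ n : ℂ) / n * F (Real.log n) else 0 with hf
  have hf1 : ∀ n, f (n + 1) = (χ (n + 1) : ℂ) * g n := by
    intro n
    simp only [hf]
    rw [if_pos (Nat.succ_pos n)]
    exact hterm n
  have hfs : Summable f := by
    rw [← summable_nat_add_iff 1]
    simp only [hf1]
    exact hs1
  refine ⟨hfs, ?_⟩
  have hft : ∑' n, f n = ∑' n, (χ (n + 1) : ℂ) * g n := by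
    rw [hfs.tsum_eq_zero_add]
    simp only [hf1]
    have : f 0 = 0 := by simp [hf]
    rw [this, zero_add]
  rw [hft]
  -- main inequality for partial sums
  have hpart : ∀ N : ℕ, ‖∑ n ∈ Finset.range N, (χ (n + 1) : ℂ) * g n -
      (μ : ℂ) * ∫ y in (0 : ℝ)..(Real.log ((N : ℝ) + 1)), F y‖ ≤
      2 * ((Q : ℝ) - 1) * (‖g N‖ + W) + W := by
    intro N
    have e1 : ∑ n ∈ Finset.range N, (χ (n + 1) : ℂ) * g n =
        ∑ n ∈ Finset.range N, ((rse_em_E Q χ (n + 1) : ℂ) - (rse_em_E Q χ n : ℂ)) * g n +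
        (μ : ℂ) * ∑ n ∈ Finset.range N, g n := by
      rw [Finset.mul_sum, ← Finset.sum_add_distrib]
      refine Finset.sum_congr rfl fun n _ => ?_
      rw [rse_em_E_succ Q χ n, ← hμ]
      push_cast
      ring
    have e2 := rse_em_parts (fun n => (rse_em_E Q χ n : ℂ)) g (by simp [rse_em_E_zero]) N
    rw [← hteleC, e1]
    have e3 : ∑ n ∈ Finset.range N, ((rse_em_E Q χ (n + 1) : ℂ) - (rse_em_E Q χ n : ℂ)) * g n +
        (μ : ℂ) * ∑ n ∈ Finset.range N, g n - (μ : ℂ) * ∑ n ∈ Finset.range N,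
          ∫ y in (Real.log ((n : ℝ) + 1))..(Real.log ((n : ℝ) + 2)), F y =
        ((rse_em_E Q χ N : ℂ) * g N - ∑ n ∈ Finset.range N,
          (rse_em_E Q χ (n + 1) : ℂ) * (g (n + 1) - g n)) +
        (μ : ℂ) * ∑ n ∈ Finset.range N, (g n -
          ∫ y in (Real.log ((n : ℝ) + 1))..(Real.log ((n : ℝ) + 2)), F y) := by
      rw [e2, Finset.sum_sub_distrib]
      ring
    rw [e3]
    have hQ1 : (0 : ℝ) ≤ 2 * ((Q : ℝ) - 1) := by
      have : (1 : ℝ) ≤ Q := by exact_mod_cast hQ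
      linarith
    have hE : ∀ n, ‖(rse_em_E Q χ n : ℂ)‖ ≤ 2 * ((Q : ℝ) - 1) := fun n => by
      rw [Complex.norm_real, Real.norm_eq_abs]
      exact rse_em_E_le Q hQ χ hper hb n
    have t1 : ‖(rse_em_E Q χ N : ℂ) * g N‖ ≤ 2 * ((Q : ℝ) - 1) * ‖g N‖ := by
      rw [norm_mul]
      exact mul_le_mul_of_nonneg_right (hE N) (norm_nonneg _)
    have t2 : ‖∑ n ∈ Finset.range N, (rse_em_E Q χ (n + 1) : ℂ) * (g (n + 1) - g n)‖ ≤
        2 * ((Q : ℝ) - 1) * W := by
      calc _ ≤ ∑ n ∈ Finset.range N, ‖(rse_em_E Q χ (n + 1) : ℂ) * (g (n + 1) - g n)‖ :=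
            norm_sum_le _ _
        _ ≤ ∑ n ∈ Finset.range N, 2 * ((Q : ℝ) - 1) * A n := by
            refine Finset.sum_le_sum fun n _ => ?_
            rw [norm_mul]
            refine mul_le_mul (hE _) ?_ (norm_nonneg _) hQ1
            simp only [hg, hA]
            rw [hcast]
            exact rse_em_diff hF (hlog n) le_rfl
        _ = 2 * ((Q : ℝ) - 1) * ∑ n ∈ Finset.range N, A n := by rw [Finset.mul_sum]
        _ ≤ _ := mul_le_mul_of_nonneg_left (hAsum N) hQ1
    have t3 : ‖(μ : ℂ) * ∑ n ∈ Finset.range N, (g n -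
          ∫ y in (Real.log ((n : ℝ) + 1))..(Real.log ((n : ℝ) + 2)), F y)‖ ≤ W := by
      rw [norm_mul, Complex.norm_real, Real.norm_eq_abs]
      refine (mul_le_of_le_one_left (norm_nonneg _) hμ1).trans ?_
      refine (norm_sum_le _ _).trans ?_
      exact (Finset.sum_le_sum fun n _ => rse_em_cell hF (n := n)).trans (hAsum N)
    refine (norm_add_le _ _).trans ?_
    have t4 := norm_sub_le ((rse_em_E Q χ N : ℂ) * g N)
      (∑ n ∈ Finset.range N, (rse_em_E Q χ (n + 1) : ℂ) * (g (n + 1) - g n))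
    linarith
  -- pass to the limit
  have hlim1 : Tendsto (fun N : ℕ => ∑ n ∈ Finset.range N, (χ (n + 1) : ℂ) * g n) atTop
      (𝓝 (∑' n, (χ (n + 1) : ℂ) * g n)) := hs1.hasSum.tendsto_sum_nat
  have hlogt : Tendsto (fun N : ℕ => Real.log ((N : ℝ) + 1)) atTop atTop :=
    Real.tendsto_log_atTop.comp
      (tendsto_atTop_add_const_right _ _ tendsto_natCast_atTop_atTop)
  have hlim2 : Tendsto (fun N : ℕ => ∫ y in (0 : ℝ)..(Real.log ((N : ℝ) + 1)), F y) atTop
      (𝓝 (∫ y in Set.Ioi (0 : ℝ), F y)) :=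
    intervalIntegral_tendsto_integral_Ioi 0 h1.integrableOn hlogt
  have hlim3 : Tendsto (fun N : ℕ => 2 * ((Q : ℝ) - 1) * (‖g N‖ + W) + W) atTop
      (𝓝 (2 * ((Q : ℝ) - 1) * (0 + W) + W)) :=
    ((hgs.tendsto_atTop_zero.add_const W).const_mul _).add_const W
  have hmain : ‖∑' n, (χ (n + 1) : ℂ) * g n - (μ : ℂ) * ∫ y in Set.Ioi (0 : ℝ), F y‖ ≤
      2 * ((Q : ℝ) - 1) * (0 + W) + W :=
    le_of_tendsto_of_tendsto (hlim1.sub (hlim2.const_mul _)).norm hlim3
      (Filter.Eventually.of_forall hpart)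
  have hsplit : ∫ y : ℝ, F y = (∫ y in Set.Iic (0 : ℝ), F y) + ∫ y in Set.Ioi (0 : ℝ), F y := by
    rw [← MeasureTheory.setIntegral_union (Set.Iic_disjoint_Ioi le_rfl) measurableSet_Ioi
      h1.integrableOn h1.integrableOn, Set.Iic_union_Ioi, MeasureTheory.setIntegral_univ]
  have hIic : ‖(μ : ℂ) * ∫ y in Set.Iic (0 : ℝ), F y‖ ≤ V := by
    rw [norm_mul, Complex.norm_real, Real.norm_eq_abs]
    refine (mul_le_of_le_one_left (norm_nonneg _) hμ1).trans ?_
    refine (norm_integral_le_integral_norm _).trans ?_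
    refine setIntegral_mono_on h1.norm.integrableOn hwi.integrableOn measurableSet_Iic
      fun y hy => ?_
    have h3 : min 1 (Real.exp (-y)) = 1 := min_eq_left (by
      rw [Real.one_le_exp_iff]
      have : y ≤ 0 := hy
      linarith)
    simp only [hw, h3, one_mul]
    linarith [norm_nonneg (deriv F y)]
  rw [hVW, hsplit, mul_add]
  have e4 : ∑' n, (χ (n + 1) : ℂ) * g n -
      ((μ : ℂ) * (∫ y in Set.Iic (0 : ℝ), F y) + (μ : ℂ) * ∫ y in Set.Ioi (0 : ℝ), F y) =
      (∑' n, (χ (n + 1) : ℂ) * g n - (μ : ℂ) * ∫ y in Set.Ioi (0 : ℝ), F y) -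
      (μ : ℂ) * (∫ y in Set.Iic (0 : ℝ), F y) := by ring
  rw [e4]
  refine (norm_sub_le _ _).trans ?_
  have hQ1 : (1 : ℝ) ≤ Q := by exact_mod_cast hQ
  nlinarith [mul_nonneg (sub_nonneg.2 hQ1) hV0]

end Pool.Agent.RSE

namespace Pool.Agent.RSE

alias em_sum := em_sum_pr

end Pool.Agent.RSE
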