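import Pool.Agent.Lib_helper39.RSE.Defs
import Pool.Agent.Lib_helper39.RSA.DefsB
/-! # RSE, block SUMG -/

namespace Pool.Agent.RSE

open Complex MeasureTheory Filter Topology
open Pool.Agent.RC (cc psi rv f0 IsRC Good gm pr DD)
open scoped ContDiff

theorem rse_SUMG_pt {a : ℝ} (ha : 0 ≤ a) {t : ℝ} (ht : 0 < t) :
    min t (t ^ (-(a + 1))) ≤ 2 ^ (a + 2) * (t / (1 + t) ^ (a + 2)) := by
  have h1 : 0 < 1 + t := by linarith
  have h1' : (0 : ℝ) < (1 + t) ^ (a + 2) := Real.rpow_pos_of_pos h1 _
  rcases le_total t 1 with h | h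
  · refine (min_le_left _ _).trans ?_
    rw [← mul_div_assoc, le_div_iff₀ h1', mul_comm]
    apply mul_le_mul_of_nonneg_right _ ht.le
    exact Real.rpow_le_rpow h1.le (by linarith) (by linarith)
  · refine (min_le_right _ _).trans ?_
    rw [← mul_div_assoc, le_div_iff₀ h1']
    have h2 : (1 + t) ^ (a + 2) ≤ (2 * t) ^ (a + 2) :=
      Real.rpow_le_rpow h1.le (by linarith) (by linarith)
    calc t ^ (-(a + 1)) * (1 + t) ^ (a + 2) ≤ t ^ (-(a + 1)) * (2 * t) ^ (a + 2) :=
          mul_le_mul_of_nonneg_left h2 (Real.rpow_nonneg ht.le _)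
      _ = 2 ^ (a + 2) * t := by
          rw [Real.mul_rpow (by norm_num) ht.le]
          have : t ^ (-(a + 1)) * (2 ^ (a + 2) * t ^ (a + 2)) =
              2 ^ (a + 2) * (t ^ (-(a + 1)) * t ^ (a + 2)) := by ring
          rw [this, ← Real.rpow_add ht]
          have e : -(a + 1) + (a + 2) = 1 := by ring
          rw [e, Real.rpow_one]

theorem rse_SUMG_tel {x : ℝ} (hx : 0 < x) (n : ℕ) :
    ∑ i ∈ Finset.range (n + 1), (if 0 < i then x / (1 + i * x) ^ 2 else 0) ≤
      1 - 1 / (1 + n * x) := by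
  induction n with
  | zero => simp
  | succ n ih =>
    rw [Finset.sum_range_succ]
    have h1 : (0 : ℝ) < 1 + n * x := by positivity
    have h2 : (0 : ℝ) < 1 + (n + 1 : ℕ) * x := by positivity
    rw [if_pos (Nat.succ_pos n)]
    have h3 : x / (1 + (n + 1 : ℕ) * x) ^ 2 ≤ 1 / (1 + n * x) - 1 / (1 + (n + 1 : ℕ) * x) := by
      rw [div_sub_div _ _ h1.ne' h2.ne', div_le_div_iff₀ (by positivity) (by positivity)]
      push_cast
      have h4 : (1 + (n : ℝ) * x) ≤ 1 + (n + 1) * x := by nlinarith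
      have h5 : (0 : ℝ) < 1 + (n + 1) * x := by positivity
      calc x * ((1 + (n : ℝ) * x) * (1 + (n + 1) * x))
          ≤ x * ((1 + (n + 1) * x) * (1 + (n + 1) * x)) := by
            apply mul_le_mul_of_nonneg_left _ hx.le
            exact mul_le_mul_of_nonneg_right h4 h5.le
        _ = (1 * (1 + (n + 1) * x) - (1 + n * x) * 1) * (1 + (n + 1) * x) ^ 2 := by ring
    linarith

theorem rse_SUMG_bd {h : ℝ → ℝ} (hh : Fast h) {a : ℝ} (ha : 0 ≤ a) : ∃ C : ℝ, 0 < C ∧
    ∀ (u : ℝ) (n : ℕ), (if 0 < n then (n : ℝ) ^ (a - 1) * |h (Real.log n + u)| else 0) ≤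
      C * Real.exp (-a * u) *
        (if 0 < n then Real.exp u / (1 + n * Real.exp u) ^ 2 else 0) := by
  obtain ⟨C1, hC1⟩ := hh (-1) le_rfl
  obtain ⟨C2, hC2⟩ := hh (a + 1) (by linarith)
  set C0 := max 1 (max C1 C2) with hC0
  have C0pos : 0 < C0 := lt_of_lt_of_le one_pos (le_max_left _ _)
  refine ⟨C0 * 2 ^ (a + 2), by positivity, ?_⟩
  intro u n
  by_cases hn : 0 < n
  · rw [if_pos hn, if_pos hn]
    set x := Real.exp u with hx
    have xpos : 0 < x := Real.exp_pos u
    have npos : (0 : ℝ) < n := by exact_mod_cast hn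
    have htpos : 0 < (n : ℝ) * x := by positivity
    have hez : Real.exp (Real.log n + u) = n * x := by
      rw [Real.exp_add, Real.exp_log npos]
    have hb1 : |h (Real.log n + u)| ≤ C0 * (n * x) := by
      have := hC1 (Real.log n + u)
      rw [show (-(-1 : ℝ) * (Real.log n + u)) = Real.log n + u by ring, hez] at this
      refine this.trans ?_
      exact mul_le_mul_of_nonneg_right ((le_max_left _ _).trans (le_max_right _ _)) htpos.le
    have hb2 : |h (Real.log n + u)| ≤ C0 * (n * x) ^ (-(a + 1)) := by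
      have := hC2 (Real.log n + u)
      have e : Real.exp (-(a + 1) * (Real.log n + u)) = (n * x) ^ (-(a + 1)) := by
        rw [Real.rpow_def_of_pos htpos, ← hez, Real.log_exp]
        ring_nf
      rw [e] at this
      refine this.trans ?_
      exact mul_le_mul_of_nonneg_right ((le_max_right _ _).trans (le_max_right _ _))
        (Real.rpow_nonneg htpos.le _)
    have hb3 : |h (Real.log n + u)| ≤ C0 * (2 ^ (a + 2) * (n * x / (1 + n * x) ^ (a + 2))) := by
      have h4 : |h (Real.log n + u)| ≤ C0 * min (n * x) ((n * x) ^ (-(a + 1))) := by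
        rw [mul_min_of_nonneg _ _ C0pos.le]
        exact le_min hb1 hb2
      exact h4.trans (mul_le_mul_of_nonneg_left (rse_SUMG_pt ha htpos) C0pos.le)
    have h1t : 0 < 1 + (n : ℝ) * x := by positivity
    have key : (n : ℝ) ^ (a - 1) * (n * x / (1 + n * x) ^ (a + 2)) ≤
        Real.exp (-a * u) * (x / (1 + n * x) ^ 2) := by
      have e1 : (n : ℝ) ^ (a - 1) * (n * x / (1 + n * x) ^ (a + 2)) =
          x ^ (-a) * ((n * x) ^ a * (x / (1 + n * x) ^ (a + 2))) := by
        rw [Real.mul_rpow npos.le xpos.le]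
        have e2 : x ^ (-a) * x ^ a = 1 := by
          rw [← Real.rpow_add xpos]
          simp
        have e3 : (n : ℝ) ^ (a - 1) * n = n ^ a := by
          rw [← Real.rpow_add_one npos.ne']
          congr 1
          ring
        calc (n : ℝ) ^ (a - 1) * (n * x / (1 + n * x) ^ (a + 2))
            = ((n : ℝ) ^ (a - 1) * n) * (x / (1 + n * x) ^ (a + 2)) := by ring
          _ = (x ^ (-a) * x ^ a) * ((n : ℝ) ^ (a - 1) * n) * (x / (1 + n * x) ^ (a + 2)) := by
              rw [e2, one_mul]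
          _ = x ^ (-a) * ((n : ℝ) ^ a * x ^ a * (x / (1 + n * x) ^ (a + 2))) := by
              rw [e3]
              ring
      rw [e1]
      have e4 : x ^ (-a) = Real.exp (-a * u) := by
        rw [Real.rpow_def_of_pos xpos, hx, Real.log_exp, mul_comm]
      rw [e4]
      apply mul_le_mul_of_nonneg_left _ (Real.exp_nonneg _)
      have e5 : (1 + (n : ℝ) * x) ^ (a + 2) = (1 + n * x) ^ a * (1 + n * x) ^ 2 := by
        rw [Real.rpow_add h1t]
        norm_num
      rw [e5]
      have e6 : ((n : ℝ) * x) ^ a ≤ (1 + n * x) ^ a :=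
        Real.rpow_le_rpow htpos.le (by linarith) ha
      have e7 : 0 < (1 + (n : ℝ) * x) ^ a := Real.rpow_pos_of_pos h1t _
      calc ((n : ℝ) * x) ^ a * (x / ((1 + n * x) ^ a * (1 + n * x) ^ 2))
          = (((n : ℝ) * x) ^ a / (1 + n * x) ^ a) * (x / (1 + n * x) ^ 2) := by
            field_simp
        _ ≤ 1 * (x / (1 + n * x) ^ 2) := by
            apply mul_le_mul_of_nonneg_right _ (by positivity)
            rw [div_le_one e7]
            exact e6
        _ = x / (1 + n * x) ^ 2 := one_mul _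
    calc (n : ℝ) ^ (a - 1) * |h (Real.log n + u)|
        ≤ (n : ℝ) ^ (a - 1) * (C0 * (2 ^ (a + 2) * (n * x / (1 + n * x) ^ (a + 2)))) :=
          mul_le_mul_of_nonneg_left hb3 (Real.rpow_nonneg npos.le _)
      _ = C0 * 2 ^ (a + 2) * ((n : ℝ) ^ (a - 1) * (n * x / (1 + n * x) ^ (a + 2))) := by ring
      _ ≤ C0 * 2 ^ (a + 2) * (Real.exp (-a * u) * (x / (1 + n * x) ^ 2)) :=
          mul_le_mul_of_nonneg_left key (by positivity)
      _ = C0 * 2 ^ (a + 2) * Real.exp (-a * u) * (x / (1 + n * x) ^ 2) := by ring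
  · rw [if_neg hn, if_neg hn, mul_zero]

theorem fast_sum_pr {h : ℝ → ℝ} (hh : Fast h) {a : ℝ} (ha : 0 ≤ a) : ∃ C : ℝ, 0 < C ∧ ∀ u : ℝ,
    Summable (fun n : ℕ => if 0 < n then (n : ℝ) ^ (a - 1) * |h (Real.log n + u)| else 0) ∧
    ∑' n : ℕ, (if 0 < n then (n : ℝ) ^ (a - 1) * |h (Real.log n + u)| else 0) ≤
      C * Real.exp (-a * u) := by
  obtain ⟨C, hC, hb⟩ := rse_SUMG_bd hh ha
  refine ⟨C, hC, ?_⟩
  intro u
  have h0 : ∀ n : ℕ, 0 ≤ (if 0 < n then (n : ℝ) ^ (a - 1) * |h (Real.log n + u)| else 0) := by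
    intro n
    split_ifs
    · positivity
    · exact le_rfl
  have h1 : ∀ n, ∑ i ∈ Finset.range n,
      (if 0 < i then (i : ℝ) ^ (a - 1) * |h (Real.log i + u)| else 0) ≤
        C * Real.exp (-a * u) := by
    intro n
    rcases n with _ | n
    · simp only [Finset.range_zero, Finset.sum_empty]
      positivity
    · calc ∑ i ∈ Finset.range (n + 1),
            (if 0 < i then (i : ℝ) ^ (a - 1) * |h (Real.log i + u)| else 0)
          ≤ ∑ i ∈ Finset.range (n + 1), C * Real.exp (-a * u) *
            (if 0 < i then Real.exp u / (1 + i * Real.exp u) ^ 2 else 0) :=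
            Finset.sum_le_sum fun i _ => hb u i
        _ = C * Real.exp (-a * u) * ∑ i ∈ Finset.range (n + 1),
            (if 0 < i then Real.exp u / (1 + i * Real.exp u) ^ 2 else 0) := by
            rw [Finset.mul_sum]
        _ ≤ C * Real.exp (-a * u) * (1 - 1 / (1 + n * Real.exp u)) :=
            mul_le_mul_of_nonneg_left (rse_SUMG_tel (Real.exp_pos u) n) (by positivity)
        _ ≤ C * Real.exp (-a * u) * 1 := by
            apply mul_le_mul_of_nonneg_left _ (by positivity)
            have : 0 ≤ 1 / (1 + (n : ℝ) * Real.exp u) := by positivity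
            linarith
        _ = C * Real.exp (-a * u) := mul_one _
  exact ⟨summable_of_sum_range_le h0 h1, Real.tsum_le_of_sum_range_le h0 h1⟩

theorem fast_int_pr {h : ℝ → ℝ} (hh : Fast h) (hc : Continuous h) {a : ℝ} (ha : -1 < a) :
    Integrable (fun y : ℝ => Real.exp (a * y) * |h y|) := by
  obtain ⟨C1, hC1⟩ := hh (-1) le_rfl
  obtain ⟨C2, hC2⟩ := hh (a + 1) (by linarith)
  have hcont : Continuous fun y : ℝ => Real.exp (a * y) * |h y| := by fun_prop
  rw [← integrableOn_univ, ← Set.Iic_union_Ioi (a := (0 : ℝ))]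
  apply IntegrableOn.union
  · apply Integrable.mono' ((integrableOn_exp_mul_Iic (a := a + 1) (by linarith) 0).const_mul C1)
      hcont.aestronglyMeasurable
    filter_upwards with y
    rw [Real.norm_of_nonneg (by positivity)]
    have := hC1 y
    calc Real.exp (a * y) * |h y| ≤ Real.exp (a * y) * (C1 * Real.exp (-(-1) * y)) :=
          mul_le_mul_of_nonneg_left this (Real.exp_nonneg _)
      _ = C1 * Real.exp ((a + 1) * y) := by
          rw [mul_left_comm, ← Real.exp_add]
          congr 2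
          ring
  · apply Integrable.mono' ((integrableOn_exp_mul_Ioi (a := -1) (by norm_num) 0).const_mul C2)
      hcont.aestronglyMeasurable
    filter_upwards with y
    rw [Real.norm_of_nonneg (by positivity)]
    have := hC2 y
    calc Real.exp (a * y) * |h y| ≤ Real.exp (a * y) * (C2 * Real.exp (-(a + 1) * y)) :=
          mul_le_mul_of_nonneg_left this (Real.exp_nonneg _)
      _ = C2 * Real.exp (-1 * y) := by
          rw [mul_left_comm, ← Real.exp_add]
          congr 2
          ring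

end Pool.Agent.RSE

namespace Pool.Agent.RSE

alias fast_sum := fast_sum_pr

alias fast_int := fast_int_pr

end Pool.Agent.RSE
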