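import Pool.Agent.Lib_helper39.RSE.Defs
import Pool.Agent.Lib_helper39.RSA.DefsB
import Pool.Agent.Lib_helper39.RSA.AMB2
import Pool.Agent.Lib_helper39.RSA.EM
import Pool.Agent.Lib_helper39.RSA.SUMG
/-!
# Block AMB1: the bound for `AA`
-/

namespace Pool.Agent.RSE

open Complex MeasureTheory Filter Topology
open Pool.Agent.RC (cc psi rv f0 IsRC Good gm pr DD)
open scoped ContDiff

theorem rse_amb1_dvd (T : Finset ℕ) (hT : ∀ p ∈ T, p.Prime) (a : ℕ) :
    (∏ p ∈ T, p) ∣ a ↔ ∀ p ∈ T, p ∣ a := by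
  constructor
  · intro h p hp
    exact dvd_trans (Finset.dvd_prod_of_mem _ hp) h
  · intro h
    exact Finset.prod_primes_dvd a (fun p hp => (hT p hp).prime) h

theorem rse_amb1_ind (P : Finset ℕ) (hP : ∀ p ∈ P, p.Prime) (a : ℕ) :
    ((∀ p ∈ P, ¬ p ∣ a) → ∑ T ∈ P.powerset, (-1 : ℝ) ^ T.card *
      (if (∏ p ∈ T, p) ∣ a then 1 else 0) = 1) ∧
    ((¬ ∀ p ∈ P, ¬ p ∣ a) → ∑ T ∈ P.powerset, (-1 : ℝ) ^ T.card *
      (if (∏ p ∈ T, p) ∣ a then 1 else 0) = 0) := by
  have h2 : ∑ T ∈ P.powerset, (-1 : ℝ) ^ T.card * (if (∏ p ∈ T, p) ∣ a then 1 else 0) =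
      ∏ p ∈ P, (1 + -(if p ∣ a then (1 : ℝ) else 0)) := by
    rw [Finset.prod_one_add]
    apply Finset.sum_congr rfl
    intro T hT
    rw [Finset.mem_powerset] at hT
    rw [Finset.prod_neg]
    congr 1
    rw [Finset.prod_ite_zero]
    simp only [Finset.prod_const_one]
    by_cases h : ∀ p ∈ T, p ∣ a
    · rw [if_pos h, if_pos ((rse_amb1_dvd T (fun p hp => hP p (hT hp)) a).mpr h)]
    · rw [if_neg h, if_neg (fun h' => h ((rse_amb1_dvd T (fun p hp => hP p (hT hp)) a).mp h'))]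
  rw [h2]
  constructor
  · intro h
    apply Finset.prod_eq_one
    intro p hp
    rw [if_neg (h p hp)]; norm_num
  · intro h
    push Not at h
    obtain ⟨p, hp, hpa⟩ := h
    apply Finset.prod_eq_zero hp
    rw [if_pos hpa]; norm_num

theorem rse_amb1_cop (m a : ℕ) (hm : 0 < m) :
    (Odd a ∧ a.Coprime m) ↔ ∀ p ∈ (2 * m).primeFactors, ¬ p ∣ a := by
  rw [← Nat.coprime_two_right, ← Nat.coprime_mul_iff_right]
  constructor
  · intro h p hp hpa
    have hp' := Nat.prime_of_mem_primeFactors hp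
    have : p ∣ a.gcd (2 * m) := Nat.dvd_gcd hpa (Nat.dvd_of_mem_primeFactors hp)
    rw [h] at this
    exact hp'.one_lt.ne' (Nat.dvd_one.mp this)
  · intro h
    by_contra hc
    obtain ⟨p, hp, hpa, hpm⟩ := Nat.Prime.not_coprime_iff_dvd.mp hc
    exact h p (Nat.mem_primeFactors.mpr ⟨hp, hpm, by omega⟩) hpa

/-- One square class. -/
noncomputable def rse_amb1_in (g : ℝ → ℝ) (c : ℝ) : ℝ :=
  ∑' k : ℕ, if 0 < k then 1 / (k : ℝ) * g (2 * Real.log k + c) else 0

theorem rse_amb1_sum (g : ℝ → ℝ) (d : ℕ) (hd : 0 < d) (x : ℝ) :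
    ∑' a : ℕ, (if d ∣ a then 1 / (a : ℝ) else 0) * g (2 * Real.log a + x) =
      1 / (d : ℝ) * rse_amb1_in g (2 * Real.log d + x) := by
  have hinj : Function.Injective (fun k : ℕ => d * k) := fun a b h => Nat.eq_of_mul_eq_mul_left hd h
  have h1 : ∑' a : ℕ, (if d ∣ a then 1 / (a : ℝ) else 0) * g (2 * Real.log a + x) =
      ∑' k : ℕ, (if d ∣ d * k then 1 / ((d * k : ℕ) : ℝ) else 0) *
        g (2 * Real.log ((d * k : ℕ) : ℝ) + x) := by
    symm
    apply hinj.tsum_eq (f := fun a : ℕ => (if d ∣ a then 1 / (a : ℝ) else 0) *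
      g (2 * Real.log a + x))
    intro a ha
    rw [Function.mem_support] at ha
    by_cases hda : d ∣ a
    · obtain ⟨k, rfl⟩ := hda
      exact ⟨k, rfl⟩
    · rw [if_neg hda, zero_mul] at ha
      exact absurd rfl ha
  rw [h1]
  unfold rse_amb1_in
  rw [← tsum_mul_left]
  apply tsum_congr
  intro k
  rw [if_pos (dvd_mul_right d k)]
  rcases Nat.eq_zero_or_pos k with rfl | hk
  · simp
  · rw [if_pos hk]
    have hk' : (k : ℝ) ≠ 0 := by exact_mod_cast hk.ne'
    have hd' : (d : ℝ) ≠ 0 := by exact_mod_cast hd.ne'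
    push_cast
    rw [Real.log_mul hd' hk', show 2 * (Real.log d + Real.log k) + x =
      2 * Real.log k + (2 * Real.log d + x) by ring]
    field_simp

theorem rse_amb1_integrable {g : ℝ → ℝ} (hf : Fast g) (hc : Continuous g) : Integrable g := by
  have h := fast_int hf hc (a := 0) (by norm_num)
  rw [← integrable_norm_iff hc.aestronglyMeasurable]
  refine h.congr (Eventually.of_forall fun y => ?_)
  simp

/-- The majorant. -/
noncomputable def rse_amb1_H (g : ℝ → ℝ) (z : ℝ) : ℝ :=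
  Real.exp (-(1 / 4) * z) * |g z| + 2 * (Real.exp (-(1 / 4) * z) * |deriv g z|)

theorem rse_amb1_H_int {g : ℝ → ℝ} (hg : Kern g) : Integrable (rse_amb1_H g) := by
  have hc0 : Continuous g := hg.smooth.continuous
  have hc1 : Continuous (deriv g) := hg.smooth.continuous_deriv (by simp)
  exact (fast_int (rse_smo1_fast0 hg) hc0 (a := -(1 / 4)) (by norm_num)).add
    ((fast_int (rse_smo1_fast1 hg) hc1 (a := -(1 / 4)) (by norm_num)).const_mul 2)

theorem rse_amb1_int2 (h : ℝ → ℝ) (c : ℝ) : ∫ y : ℝ, h (2 * y + c) = 1 / 2 * ∫ z : ℝ, h z := by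
  have h1 := MeasureTheory.Measure.integral_comp_mul_left (fun z => h (z + c)) (2 : ℝ)
  rw [h1, integral_add_right_eq_self (f := h) c, smul_eq_mul, abs_of_pos (by norm_num)]
  norm_num

theorem rse_amb1_integrable2 {h : ℝ → ℝ} (hh : Integrable h) (c : ℝ) :
    Integrable (fun y : ℝ => h (2 * y + c)) := by
  have h1 : Integrable (fun z => h (z + c)) := hh.comp_add_right c
  exact h1.comp_mul_left' (by norm_num : (2 : ℝ) ≠ 0)

theorem rse_amb1_in_bound {g : ℝ → ℝ} (hg : Kern g) (c : ℝ) :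
    |rse_amb1_in g c| ≤ Real.exp (c / 4) * ∫ z : ℝ, rse_amb1_H g z := by
  have hc0 : Continuous g := hg.smooth.continuous
  have hc1 : Continuous (deriv g) := hg.smooth.continuous_deriv (by simp)
  have hdf : Differentiable ℝ g := hg.smooth.differentiable (by simp)
  have hD : ∀ y : ℝ, HasDerivAt (fun y : ℝ => ((g (2 * y + c) : ℝ) : ℂ))
      ((2 * deriv g (2 * y + c) : ℝ) : ℂ) y := by
    intro y
    have h1 : HasDerivAt (fun y : ℝ => 2 * y + c) 2 y := by
      simpa using ((hasDerivAt_id y).const_mul 2).add_const c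
    have h2 : HasDerivAt (fun y : ℝ => g (2 * y + c)) (deriv g (2 * y + c) * 2) y :=
      (hdf (2 * y + c)).hasDerivAt.comp y h1
    rw [mul_comm] at h2
    exact h2.ofReal_comp
  have hD' : deriv (fun y : ℝ => ((g (2 * y + c) : ℝ) : ℂ)) =
      fun y => ((2 * deriv g (2 * y + c) : ℝ) : ℂ) := funext fun y => (hD y).deriv
  have hF : ContDiff ℝ 1 (fun y : ℝ => ((g (2 * y + c) : ℝ) : ℂ)) := by
    rw [contDiff_one_iff_deriv]
    refine ⟨fun y => (hD y).differentiableAt, ?_⟩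
    rw [hD']
    exact Complex.continuous_ofReal.comp (by fun_prop)
  have hi0 : Integrable (fun y : ℝ => ((g (2 * y + c) : ℝ) : ℂ)) :=
    (rse_amb1_integrable2 (rse_amb1_integrable (rse_smo1_fast0 hg) hc0) c).ofReal
  have hi1 : Integrable (deriv (fun y : ℝ => ((g (2 * y + c) : ℝ) : ℂ))) := by
    rw [hD']
    exact ((rse_amb1_integrable2 (rse_amb1_integrable (rse_smo1_fast1 hg) hc1) c).const_mul 2).ofReal
  obtain ⟨-, hb⟩ := em_sum 1 one_pos (fun _ => 1) (fun _ => rfl) (fun _ => by simp) _ hF hi0 hi1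
  have hz : ∫ y : ℝ, ((g (2 * y + c) : ℝ) : ℂ) = 0 := by
    rw [show (∫ y : ℝ, ((g (2 * y + c) : ℝ) : ℂ)) = ((∫ y : ℝ, g (2 * y + c) : ℝ) : ℂ) from
      integral_ofReal, rse_amb1_int2, hg.int0]
    simp
  rw [hz, mul_zero, sub_zero] at hb
  have hs : (∑' n : ℕ, if 0 < n then (((1 : ℝ) : ℂ)) / n * ((g (2 * Real.log n + c) : ℝ) : ℂ)
      else 0) = ((rse_amb1_in g c : ℝ) : ℂ) := by
    unfold rse_amb1_in
    rw [Complex.ofReal_tsum]
    apply tsum_congr
    intro n
    split_ifs with h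
    · push_cast; ring
    · simp
  rw [hs, Complex.norm_real, Real.norm_eq_abs] at hb
  refine le_trans hb ?_
  have hm : ∫ y : ℝ, min 1 (Real.exp (-y)) * (‖((g (2 * y + c) : ℝ) : ℂ)‖ +
      ‖deriv (fun y : ℝ => ((g (2 * y + c) : ℝ) : ℂ)) y‖) ≤
      ∫ y : ℝ, Real.exp (c / 4) * rse_amb1_H g (2 * y + c) := by
    apply integral_mono_of_nonneg
    · exact Eventually.of_forall fun y => by positivity
    · exact (rse_amb1_integrable2 (rse_amb1_H_int hg) c).const_mul _
    · refine Eventually.of_forall fun y => ?_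
      have e1 : min 1 (Real.exp (-y)) ≤ Real.exp (-(y / 2)) := by
        rcases le_total 0 y with h | h
        · exact le_trans (min_le_right _ _) (Real.exp_le_exp.mpr (by linarith))
        · refine le_trans (min_le_left _ _) ?_
          rw [← Real.exp_zero]
          exact Real.exp_le_exp.mpr (by linarith)
      have e2 : Real.exp (c / 4) * rse_amb1_H g (2 * y + c) =
          Real.exp (-(y / 2)) * (|g (2 * y + c)| + |2 * deriv g (2 * y + c)|) := by
        unfold rse_amb1_H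
        rw [abs_mul, abs_of_pos (by norm_num : (0 : ℝ) < 2),
          show Real.exp (-(y / 2)) = Real.exp (c / 4) * Real.exp (-(1 / 4) * (2 * y + c)) by
            rw [← Real.exp_add]; congr 1; ring]
        ring
      show min 1 (Real.exp (-y)) * (‖((g (2 * y + c) : ℝ) : ℂ)‖ +
        ‖deriv (fun y : ℝ => ((g (2 * y + c) : ℝ) : ℂ)) y‖) ≤
        Real.exp (c / 4) * rse_amb1_H g (2 * y + c)
      rw [e2, hD', Complex.norm_real, Complex.norm_real, Real.norm_eq_abs, Real.norm_eq_abs]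
      exact mul_le_mul_of_nonneg_right e1 (by positivity)
  rw [integral_const_mul, rse_amb1_int2] at hm
  calc _ ≤ 2 * ((1 : ℕ) : ℝ) * (Real.exp (c / 4) * (1 / 2 * ∫ z : ℝ, rse_amb1_H g z)) := by
        apply mul_le_mul_of_nonneg_left hm (by norm_num)
    _ = _ := by push_cast; ring

theorem rse_amb1_E1_pos (n : ℕ) : 1 ≤ E1 n := by
  unfold E1
  calc (1 : ℝ) = ∏ p ∈ n.primeFactors, 1 := by simp
    _ ≤ _ := Finset.prod_le_prod (fun _ _ => by norm_num) (fun p _ => by
      have : 0 ≤ 1 / √(p : ℝ) := by positivity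
      linarith)

theorem rse_amb1_E1_two (m : ℕ) (hm : 0 < m) :
    ∏ p ∈ (2 * m).primeFactors, (1 + 1 / √(p : ℝ)) ≤ 2 * E1 m := by
  rw [Nat.primeFactors_mul (by norm_num) (by omega), Nat.prime_two.primeFactors]
  have h1 : ∀ p : ℕ, 1 ≤ 1 + 1 / √(p : ℝ) := fun p => by
    have : 0 ≤ 1 / √(p : ℝ) := by positivity
    linarith
  have h2 : 1 + 1 / √((2 : ℕ) : ℝ) ≤ 2 := by
    have : 1 ≤ √((2 : ℕ) : ℝ) := by rw [Real.one_le_sqrt]; norm_num
    have : 1 / √((2 : ℕ) : ℝ) ≤ 1 := by rw [div_le_one (by linarith)]; exact this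
    linarith
  have hE := rse_amb1_E1_pos m
  by_cases h : 2 ∈ m.primeFactors
  · have : ({2} : Finset ℕ) ∪ m.primeFactors = m.primeFactors := by
      rw [Finset.union_eq_right]; simpa using h
    rw [this]
    show E1 m ≤ 2 * E1 m
    linarith
  · rw [Finset.prod_union (by simpa using h), Finset.prod_singleton]
    show (1 + 1 / √((2 : ℕ) : ℝ)) * E1 m ≤ 2 * E1 m
    exact mul_le_mul_of_nonneg_right h2 (by linarith)

theorem rse_amb1_exp (T : Finset ℕ) (hT : ∀ p ∈ T, p.Prime) :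
    1 / ((∏ p ∈ T, p : ℕ) : ℝ) * Real.exp (1 / 2 * Real.log ((∏ p ∈ T, p : ℕ) : ℝ)) =
      ∏ p ∈ T, 1 / √(p : ℝ) := by
  have hpos : (0 : ℝ) < ((∏ p ∈ T, p : ℕ) : ℝ) := by
    exact_mod_cast Finset.prod_pos fun p hp => (hT p hp).pos
  have h1 : 1 / ((∏ p ∈ T, p : ℕ) : ℝ) * Real.exp (1 / 2 * Real.log ((∏ p ∈ T, p : ℕ) : ℝ)) =
      Real.exp (-(1 / 2) * Real.log ((∏ p ∈ T, p : ℕ) : ℝ)) := by
    rw [one_div, ← Real.exp_log (inv_pos.mpr hpos), ← Real.exp_add, Real.log_inv]
    congr 1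
    ring
  rw [h1, Nat.cast_prod, Real.log_prod (fun p hp => by exact_mod_cast (hT p hp).ne_zero),
    Finset.mul_sum, Real.exp_sum]
  apply Finset.prod_congr rfl
  intro p hp
  have hp0 : (0 : ℝ) < p := by exact_mod_cast (hT p hp).pos
  rw [Real.sqrt_eq_rpow, Real.rpow_def_of_pos hp0, eq_div_iff (Real.exp_pos _).ne',
    ← Real.exp_add, show -(1 / 2) * Real.log p + Real.log p * (1 / 2) = 0 by ring, Real.exp_zero]

/-- AMB (cites EM, SUMG). -/
theorem aa_bound_pr {g : ℝ → ℝ} (hg : Kern g) : ∃ C : ℝ, 0 < C ∧ ∀ (m : ℕ) (x : ℝ), 0 < m →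
    |AA g m x| ≤ C * E1 m * Real.exp (-|x| / 4) := by
  obtain ⟨C, hC⟩ := rse_smo1_fast0 hg 1 (by norm_num)
  have hH0 : 0 ≤ ∫ z : ℝ, rse_amb1_H g z := integral_nonneg fun z => by
    unfold rse_amb1_H; positivity
  have hZ0 : 0 ≤ ∑' n : ℕ, 1 / (n : ℝ) ^ 2 := tsum_nonneg fun n => by positivity
  refine ⟨|C| * (∑' n : ℕ, 1 / (n : ℝ) ^ 2) + 2 * (∫ z : ℝ, rse_amb1_H g z) + 1, by positivity, ?_⟩
  intro m x hm
  have hE := rse_amb1_E1_pos m
  rcases le_total 0 x with hx | hx
  · rw [abs_of_nonneg hx, rse_amb2_eq g]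
    have hs : Summable (fun n : ℕ => 1 / (n : ℝ) ^ 2) :=
      Real.summable_one_div_nat_pow.mpr (by norm_num)
    have ht : ∀ n : ℕ, ‖rse_amb2_w m n * g (2 * Real.log n + x)‖ ≤
        |C| * Real.exp (-x) * (1 / (n : ℝ) ^ 2) := by
      intro n
      rcases Nat.eq_zero_or_pos n with rfl | hn
      · rw [rse_amb2_w_zero, zero_mul, norm_zero]; positivity
      · have hn' : (0 : ℝ) < n := Nat.cast_pos.mpr hn
        rw [norm_mul, Real.norm_eq_abs, Real.norm_eq_abs]
        have h1 : |g (2 * Real.log n + x)| ≤ |C| * (Real.exp (-x) * (1 / (n : ℝ) ^ 2)) := by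
          calc |g (2 * Real.log n + x)| ≤ C * Real.exp (-1 * (2 * Real.log n + x)) := hC _
            _ ≤ |C| * Real.exp (-1 * (2 * Real.log n + x)) :=
                mul_le_mul_of_nonneg_right (le_abs_self C) (Real.exp_pos _).le
            _ = |C| * (Real.exp (-x) * (1 / (n : ℝ) ^ 2)) := by
                rw [show -1 * (2 * Real.log n + x) = -x + -(2 * Real.log n) by ring, Real.exp_add,
                  Real.exp_neg (2 * Real.log n), two_mul, Real.exp_add, Real.exp_log hn', one_div,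
                  sq]
        calc |rse_amb2_w m n| * |g (2 * Real.log n + x)|
            ≤ 1 * (|C| * (Real.exp (-x) * (1 / (n : ℝ) ^ 2))) :=
              mul_le_mul (rse_amb2_w_le m n) h1 (abs_nonneg _) zero_le_one
          _ = _ := by ring
    have h3 := tsum_of_norm_bounded (hs.mul_left (|C| * Real.exp (-x))).hasSum ht
    rw [Real.norm_eq_abs, tsum_mul_left] at h3
    refine le_trans h3 ?_
    have h4 : Real.exp (-x) ≤ Real.exp (-x / 4) := Real.exp_le_exp.mpr (by linarith)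
    have h5 : |C| * Real.exp (-x) * (∑' n : ℕ, 1 / (n : ℝ) ^ 2) ≤
        |C| * (∑' n : ℕ, 1 / (n : ℝ) ^ 2) * Real.exp (-x / 4) := by
      rw [mul_right_comm]
      exact mul_le_mul_of_nonneg_left h4 (by positivity)
    refine le_trans h5 ?_
    apply mul_le_mul_of_nonneg_right _ (Real.exp_pos _).le
    have h6 : 0 ≤ |C| * (∑' n : ℕ, 1 / (n : ℝ) ^ 2) := by positivity
    nlinarith
  · have hx' : -|x| / 4 = x / 4 := by rw [abs_of_nonpos hx]; ring
    rw [hx']
    have hP : ∀ p ∈ (2 * m).primeFactors, p.Prime := fun p hp => Nat.prime_of_mem_primeFactors hp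
    have hAA : AA g m x = ∑ T ∈ (2 * m).primeFactors.powerset, (-1 : ℝ) ^ T.card *
        (1 / ((∏ p ∈ T, p : ℕ) : ℝ) *
          rse_amb1_in g (2 * Real.log ((∏ p ∈ T, p : ℕ) : ℝ) + x)) := by
      have h1 : AA g m x = ∑' a : ℕ, ∑ T ∈ (2 * m).primeFactors.powerset,
          (-1 : ℝ) ^ T.card * ((if (∏ p ∈ T, p) ∣ a then 1 / (a : ℝ) else 0) *
            g (2 * Real.log a + x)) := by
        rw [rse_amb2_eq g]
        apply tsum_congr
        intro a
        have h2 : rse_amb2_w m a = (∑ T ∈ (2 * m).primeFactors.powerset, (-1 : ℝ) ^ T.card *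
            (if (∏ p ∈ T, p) ∣ a then 1 else 0)) * (1 / (a : ℝ)) := by
          unfold rse_amb2_w
          by_cases h : Odd a ∧ a.Coprime m
          · rw [if_pos h, (rse_amb1_ind _ hP a).1 ((rse_amb1_cop m a hm).mp h), one_mul]
          · rw [if_neg h, (rse_amb1_ind _ hP a).2 (fun h' => h ((rse_amb1_cop m a hm).mpr h')),
              zero_mul]
        rw [h2, Finset.sum_mul, Finset.sum_mul]
        apply Finset.sum_congr rfl
        intro T _
        split_ifs <;> ring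
      rw [h1, Summable.tsum_finsetSum]
      · apply Finset.sum_congr rfl
        intro T hT
        rw [Finset.mem_powerset] at hT
        rw [tsum_mul_left, rse_amb1_sum g _ (Finset.prod_pos fun p hp => (hP p (hT hp)).pos)]
      · intro T _
        apply Summable.mul_left
        apply rse_smo1_summable (rse_smo1_fast0 hg) (by norm_num : (1 : ℝ) ≤ 2)
        · intro n
          split_ifs
          · rcases Nat.eq_zero_or_pos n with rfl | hn
            · simp
            · have h1 : (1 : ℝ) ≤ n := by exact_mod_cast hn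
              rw [abs_of_nonneg (by positivity), div_le_one (by linarith)]
              exact h1
          · simp
        · simp
    rw [hAA]
    have hb : ∀ T ∈ (2 * m).primeFactors.powerset, |(-1 : ℝ) ^ T.card *
        (1 / ((∏ p ∈ T, p : ℕ) : ℝ) *
          rse_amb1_in g (2 * Real.log ((∏ p ∈ T, p : ℕ) : ℝ) + x))| ≤
        (∏ p ∈ T, 1 / √(p : ℝ)) * (Real.exp (x / 4) * ∫ z : ℝ, rse_amb1_H g z) := by
      intro T hT
      rw [Finset.mem_powerset] at hT
      rw [abs_mul, abs_pow, abs_neg, abs_one, one_pow, one_mul, abs_mul,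
        abs_of_nonneg (by positivity : 0 ≤ 1 / ((∏ p ∈ T, p : ℕ) : ℝ)),
        ← rse_amb1_exp T (fun p hp => hP p (hT hp))]
      calc _ ≤ 1 / ((∏ p ∈ T, p : ℕ) : ℝ) *
            (Real.exp ((2 * Real.log ((∏ p ∈ T, p : ℕ) : ℝ) + x) / 4) *
              ∫ z : ℝ, rse_amb1_H g z) :=
            mul_le_mul_of_nonneg_left (rse_amb1_in_bound hg _) (by positivity)
        _ = _ := by
            rw [show (2 * Real.log ((∏ p ∈ T, p : ℕ) : ℝ) + x) / 4 =
              1 / 2 * Real.log ((∏ p ∈ T, p : ℕ) : ℝ) + x / 4 by ring, Real.exp_add]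
            ring
    refine le_trans (Finset.abs_sum_le_sum_abs _ _) (le_trans (Finset.sum_le_sum hb) ?_)
    rw [← Finset.sum_mul, ← Finset.prod_one_add]
    have h6 := rse_amb1_E1_two m hm
    have h7 : 0 ≤ Real.exp (x / 4) * ∫ z : ℝ, rse_amb1_H g z := by positivity
    refine le_trans (mul_le_mul_of_nonneg_right h6 h7) ?_
    have h8 : 0 ≤ |C| * (∑' n : ℕ, 1 / (n : ℝ) ^ 2) + 1 := by positivity
    have h9 : 0 ≤ E1 m * Real.exp (x / 4) := by positivity
    nlinarith [mul_nonneg h8 h9]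

end Pool.Agent.RSE

namespace Pool.Agent.RSE

alias aa_bound := aa_bound_pr

end Pool.Agent.RSE
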