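import Pool.Agent.Lib_helper39.RSE.Defs
import Pool.Agent.Lib_helper39.RSA.DefsB
/-!
# RSE, block AVE: the average of `E1 m ^ 3` over the family
-/

namespace Pool.Agent.RSE

open Complex MeasureTheory Filter Topology
open scoped ContDiff

/-- `(1 + p^{-1/2})^3 - 1`. -/
noncomputable def rse_ave_f (p : ℕ) : ℝ := (1 + 1 / √(p : ℝ)) ^ 3 - 1

theorem rse_ave_f_nonneg (p : ℕ) : 0 ≤ rse_ave_f p := by
  unfold rse_ave_f
  have h : (1 : ℝ) ≤ 1 + 1 / √(p : ℝ) := by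
    have : (0 : ℝ) ≤ 1 / √(p : ℝ) := by positivity
    linarith
  have := one_le_pow₀ h (n := 3)
  linarith

theorem rse_ave_f_le {p : ℕ} (hp : 1 ≤ p) : rse_ave_f p ≤ 7 / √(p : ℝ) := by
  unfold rse_ave_f
  have h1 : (1 : ℝ) ≤ √(p : ℝ) := by
    rw [Real.one_le_sqrt]
    exact_mod_cast hp
  set x : ℝ := 1 / √(p : ℝ) with hx
  have hx0 : 0 ≤ x := by positivity
  have hx1 : x ≤ 1 := by
    rw [hx, div_le_one (by linarith)]
    exact h1
  have e : 7 / √(p : ℝ) = 7 * x := by rw [hx]; ring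
  rw [e]
  nlinarith [mul_nonneg hx0 hx0, mul_nonneg (mul_nonneg hx0 hx0) hx0,
    mul_nonneg hx0 (sub_nonneg.2 hx1), mul_nonneg (mul_nonneg hx0 hx0) (sub_nonneg.2 hx1)]

theorem rse_ave_E1 (m : ℕ) : E1 m ^ 3 = ∑ T ∈ m.primeFactors.powerset, ∏ p ∈ T, rse_ave_f p := by
  rw [← Finset.prod_one_add, E1, ← Finset.prod_pow]
  apply Finset.prod_congr rfl
  intro p _
  unfold rse_ave_f
  ring

theorem rse_ave_count (M : ℕ) (T : Finset ℕ) (hT : ∀ p ∈ T, p.Prime) :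
    (((Finset.Icc 1 M).filter fun m => T ⊆ m.primeFactors).card : ℝ) ≤
      M * ∏ p ∈ T, (1 / (p : ℝ)) := by
  have hd : 0 < ∏ p ∈ T, p := Finset.prod_pos fun p hp => (hT p hp).pos
  have h1 : ((Finset.Icc 1 M).filter fun m => T ⊆ m.primeFactors) ⊆
      (Finset.Ioc 0 M).filter fun m => (∏ p ∈ T, p) ∣ m := by
    intro m hm
    rw [Finset.mem_filter, Finset.mem_Icc] at hm
    rw [Finset.mem_filter, Finset.mem_Ioc]
    refine ⟨⟨by omega, hm.1.2⟩, ?_⟩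
    apply Finset.prod_primes_dvd
    · intro p hp
      exact (hT p hp).prime
    · intro p hp
      exact (Nat.mem_primeFactors.1 (hm.2 hp)).2.1
  have h2 : ((Finset.Ioc 0 M).filter fun m => (∏ p ∈ T, p) ∣ m).card = M / ∏ p ∈ T, p :=
    Nat.Ioc_filter_dvd_card_eq_div M _
  have h3 : ((M / ∏ p ∈ T, p : ℕ) : ℝ) ≤ (M : ℝ) / ((∏ p ∈ T, p : ℕ) : ℝ) := Nat.cast_div_le
  calc (((Finset.Icc 1 M).filter fun m => T ⊆ m.primeFactors).card : ℝ)
      ≤ (((Finset.Ioc 0 M).filter fun m => (∏ p ∈ T, p) ∣ m).card : ℝ) := by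
        exact_mod_cast Finset.card_le_card h1
    _ = ((M / ∏ p ∈ T, p : ℕ) : ℝ) := by rw [h2]
    _ ≤ (M : ℝ) / ((∏ p ∈ T, p : ℕ) : ℝ) := h3
    _ = M * ∏ p ∈ T, (1 / (p : ℝ)) := by
        rw [Nat.cast_prod, Finset.prod_div_distrib, Finset.prod_const_one]
        ring

theorem rse_ave_sum (M : ℕ) : ∑ m ∈ Finset.Icc 1 M, E1 m ^ 3 ≤
    M * ∏ p ∈ (Finset.Icc 1 M).filter Nat.Prime, (1 + rse_ave_f p / p) := by
  classical
  set P := (Finset.Icc 1 M).filter Nat.Prime with hP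
  have hsub : ∀ m ∈ Finset.Icc 1 M, m.primeFactors ⊆ P := by
    intro m hm p hp
    rw [Finset.mem_Icc] at hm
    rw [hP, Finset.mem_filter, Finset.mem_Icc]
    have hp' := Nat.mem_primeFactors.1 hp
    exact ⟨⟨hp'.1.one_lt.le, (Nat.le_of_dvd (by omega) hp'.2.1).trans hm.2⟩, hp'.1⟩
  have h1 : ∀ m ∈ Finset.Icc 1 M, E1 m ^ 3 =
      ∑ T ∈ P.powerset, if T ⊆ m.primeFactors then ∏ p ∈ T, rse_ave_f p else 0 := by
    intro m hm
    rw [rse_ave_E1, ← Finset.sum_filter]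
    apply Finset.sum_congr _ (fun _ _ => rfl)
    ext T
    rw [Finset.mem_powerset, Finset.mem_filter, Finset.mem_powerset]
    exact ⟨fun h => ⟨h.trans (hsub m hm), h⟩, fun h => h.2⟩
  rw [Finset.sum_congr rfl h1, Finset.sum_comm]
  have h2 : ∀ T ∈ P.powerset, (∑ m ∈ Finset.Icc 1 M,
      if T ⊆ m.primeFactors then ∏ p ∈ T, rse_ave_f p else 0) ≤
      M * ∏ p ∈ T, (rse_ave_f p / p) := by
    intro T hT
    rw [Finset.mem_powerset] at hT
    have hTp : ∀ p ∈ T, p.Prime := fun p hp => (Finset.mem_filter.1 (hT hp)).2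
    have hF : 0 ≤ ∏ p ∈ T, rse_ave_f p := Finset.prod_nonneg fun p _ => rse_ave_f_nonneg p
    rw [← Finset.sum_filter, Finset.sum_const, nsmul_eq_mul]
    calc (((Finset.Icc 1 M).filter fun m => T ⊆ m.primeFactors).card : ℝ) *
          ∏ p ∈ T, rse_ave_f p
        ≤ (M * ∏ p ∈ T, (1 / (p : ℝ))) * ∏ p ∈ T, rse_ave_f p :=
          mul_le_mul_of_nonneg_right (rse_ave_count M T hTp) hF
      _ = M * ∏ p ∈ T, (rse_ave_f p / p) := by
          rw [mul_assoc, ← Finset.prod_mul_distrib]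
          congr 1
          apply Finset.prod_congr rfl
          intro p _
          ring
  refine (Finset.sum_le_sum h2).trans (le_of_eq ?_)
  rw [← Finset.mul_sum, Finset.prod_one_add]

theorem rse_ave_bd : ∃ C : ℝ, 0 < C ∧ ∀ M : ℕ, ∑ m ∈ Finset.Icc 1 M, E1 m ^ 3 ≤ C * M := by
  have hs : Summable (fun n : ℕ => 1 / (n : ℝ) ^ (3 / 2 : ℝ)) :=
    Real.summable_one_div_nat_rpow.2 (by norm_num)
  refine ⟨Real.exp (7 * ∑' n : ℕ, 1 / (n : ℝ) ^ (3 / 2 : ℝ)), Real.exp_pos _, fun M => ?_⟩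
  refine (rse_ave_sum M).trans ?_
  rw [mul_comm (Real.exp _)]
  apply mul_le_mul_of_nonneg_left _ (Nat.cast_nonneg M)
  have h1 : ∀ p ∈ (Finset.Icc 1 M).filter Nat.Prime,
      1 + rse_ave_f p / p ≤ Real.exp (7 * (1 / (p : ℝ) ^ (3 / 2 : ℝ))) := by
    intro p hp
    have hp1 : 1 ≤ p := (Finset.mem_Icc.1 (Finset.mem_filter.1 hp).1).1
    have hp0 : (0 : ℝ) < p := by exact_mod_cast hp1
    have h2 := rse_ave_f_le hp1
    have h3 : rse_ave_f p / p ≤ 7 * (1 / (p : ℝ) ^ (3 / 2 : ℝ)) := by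
      have e : (p : ℝ) ^ (3 / 2 : ℝ) = p * √(p : ℝ) := by
        rw [show (3 / 2 : ℝ) = 1 + 1 / 2 by norm_num, Real.rpow_add hp0, Real.rpow_one,
          Real.sqrt_eq_rpow]
      rw [e]
      have : 7 * (1 / ((p : ℝ) * √(p : ℝ))) = (7 / √(p : ℝ)) / p := by
        field_simp
      rw [this]
      exact div_le_div_of_nonneg_right h2 hp0.le
    calc 1 + rse_ave_f p / p ≤ 7 * (1 / (p : ℝ) ^ (3 / 2 : ℝ)) + 1 := by linarith
      _ ≤ _ := Real.add_one_le_exp _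
  calc ∏ p ∈ (Finset.Icc 1 M).filter Nat.Prime, (1 + rse_ave_f p / p)
      ≤ ∏ p ∈ (Finset.Icc 1 M).filter Nat.Prime, Real.exp (7 * (1 / (p : ℝ) ^ (3 / 2 : ℝ))) := by
        apply Finset.prod_le_prod _ h1
        intro p _
        have := rse_ave_f_nonneg p
        positivity
    _ = Real.exp (∑ p ∈ (Finset.Icc 1 M).filter Nat.Prime, 7 * (1 / (p : ℝ) ^ (3 / 2 : ℝ))) := by
        rw [Real.exp_sum]
    _ ≤ _ := by
        apply Real.exp_le_exp.2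
        rw [← Finset.mul_sum]
        apply mul_le_mul_of_nonneg_left _ (by norm_num)
        exact hs.sum_le_tsum _ (fun n _ => by positivity)

/-- AVE. -/
theorem ave_E1_pr : ∃ C : ℝ, 0 < C ∧ ∀ (c : ℕ) (K : ℝ), OC c → 0 < K →
    ∑ m ∈ fam c K, E1 m ^ 3 ≤ C * K := by
  obtain ⟨C, hC, h⟩ := rse_ave_bd
  refine ⟨C * 4, by positivity, fun c K hc hK => ?_⟩
  have hsub : fam c K ⊆ Finset.Icc 1 ⌊4 * K⌋₊ := by
    intro m hm
    unfold fam at hm
    rw [Finset.mem_filter, Finset.mem_range] at hm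
    rw [Finset.mem_Icc]
    refine ⟨?_, by omega⟩
    unfold OC at hc
    omega
  have h1 : ∑ m ∈ fam c K, E1 m ^ 3 ≤ ∑ m ∈ Finset.Icc 1 ⌊4 * K⌋₊, E1 m ^ 3 := by
    apply Finset.sum_le_sum_of_subset_of_nonneg hsub
    intro m _ _
    rw [rse_ave_E1]
    exact Finset.sum_nonneg fun T _ => Finset.prod_nonneg fun p _ => rse_ave_f_nonneg p
  calc ∑ m ∈ fam c K, E1 m ^ 3 ≤ C * (⌊4 * K⌋₊ : ℝ) := h1.trans (h _)
    _ ≤ C * (4 * K) := mul_le_mul_of_nonneg_left (Nat.floor_le (by positivity)) hC.le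
    _ = C * 4 * K := by ring

end Pool.Agent.RSE

namespace Pool.Agent.RSE

alias ave_E1 := ave_E1_pr

end Pool.Agent.RSE
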