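import Pool.Agent.Lib_helper39.RSE.Defs
import Pool.Agent.Lib_helper39.RSA.DefsB
import Pool.Agent.Lib_helper92.SQA.BFORM
/-! # RSE, block BNS -/

namespace Pool.Agent.RSE

open Complex MeasureTheory Filter Topology
open Pool.Agent.RC (cc psi rv f0 IsRC Good gm pr DD)
open scoped ContDiff

theorem rse_BNS_mem {L : ℝ} {k : ℕ} : k ∈ KL L ↔ 1 ≤ k ∧ (k : ℝ) ≤ Real.exp L := by
  unfold KL
  rw [Finset.mem_Icc, Nat.le_floor_iff (Real.exp_nonneg L)]

theorem rse_BNS_div {L : ℝ} {k : ℕ} (hk : k ∈ KL L) : 0 ≤ Real.log k / L := by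
  rw [rse_BNS_mem] at hk
  have h1 : 0 ≤ Real.log k := Real.log_natCast_nonneg k
  have h2 : 0 ≤ L := by
    rw [← Real.one_le_exp_iff] 
    refine le_trans ?_ hk.2
    exact_mod_cast hk.1
  positivity

theorem rse_BNS_be_one {Θ : ℝ → ℝ} (hΘ : Cut Θ) (L : ℝ) : be Θ L 1 1 = 1 := by
  unfold be
  have h : Θ 0 = 1 := by
    have := hΘ.lin 0 le_rfl (by norm_num)
    linarith
  rw [if_pos ⟨odd_one, Nat.coprime_one_right 1⟩, Pool.Agent.SQ.al_one]
  simp [h]

theorem rse_BNS_be_abs {Θ : ℝ → ℝ} (hΘ : Cut Θ) {L : ℝ} {R k : ℕ} (hk : k ∈ KL L) :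
    |be Θ L R k| ≤ 1 := by
  unfold be
  split_ifs
  · rw [abs_mul]
    have h1 := Pool.Agent.SQ.al_abs k
    have h2 := hΘ.bd (Real.log k / L) (rse_BNS_div hk)
    have h3 := abs_nonneg (Θ (Real.log k / L))
    have h4 := abs_nonneg (Pool.Agent.SQ.al k)
    nlinarith
  · simp

theorem bn_small_pr {Θ : ℝ → ℝ} (hΘ : Cut Θ) {L : ℝ} (hL : 1 ≤ L) {N : ℕ} (hN : Odd N)
    (h3 : 3 ≤ N) (h : Real.log N ≤ L / 2) :
    bN Θ L N = ArithmeticFunction.vonMangoldt N / L +
      (ArithmeticFunction.vonMangoldt * ArithmeticFunction.vonMangoldt) N / (4 * L ^ 2) := by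
  have hL0 : 0 < L := by linarith
  have hN0 : 0 < N := by omega
  have hNle : (N : ℝ) ≤ Real.exp L := by
    have h1 : (N : ℝ) = Real.exp (Real.log N) := (Real.exp_log (by exact_mod_cast hN0)).symm
    rw [h1]
    exact Real.exp_le_exp.2 (by linarith)
  rw [← Pool.Agent.SQ.bb_eq hL0 (by omega) (by linarith)]
  -- values of the coefficients
  have hbe : ∀ k, k ∣ N → be Θ L 1 k = Pool.Agent.SQ.be L k := by
    intro k hk
    have hk0 : 0 < k := Nat.pos_of_dvd_of_pos hk hN0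
    have hkN : k ≤ N := Nat.le_of_dvd hN0 hk
    have hodd : Odd k := Odd.of_dvd_nat hN hk
    have hl1 : Real.log k ≤ L / 2 :=
      (Real.log_le_log (by exact_mod_cast hk0) (by exact_mod_cast hkN)).trans h
    have hl0 : 0 ≤ Real.log k := Real.log_natCast_nonneg k
    have h5 : Real.log k / L ≤ 1 / 2 := by
      rw [div_le_iff₀ hL0]
      linarith
    unfold be
    rw [if_pos ⟨hodd, Nat.coprime_one_right k⟩, hΘ.lin _ (by positivity) h5]
    show _ = Pool.Agent.SQ.al k * max 0 (1 - Real.log k / L)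
    rw [max_eq_right (by linarith)]
  have hKL : ∀ k, k ∣ N → k ∈ KL L := by
    intro k hk
    have hk0 : 0 < k := Nat.pos_of_dvd_of_pos hk hN0
    have hkN : k ≤ N := Nat.le_of_dvd hN0 hk
    rw [rse_BNS_mem]
    refine ⟨hk0, le_trans ?_ hNle⟩
    exact_mod_cast hkN
  have e1 : bN Θ L N = ∑ k ∈ KL L, ∑ l ∈ KL L, ∑ d ∈ N.divisors,
      (if k * l = d then be Θ L 1 k * be Θ L 1 l else 0) := by
    unfold bN
    apply Finset.sum_congr rfl
    intro k _
    apply Finset.sum_congr rfl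
    intro l _
    rw [Finset.sum_ite_eq]
    by_cases hkl : k * l ∣ N
    · rw [if_pos hkl, if_pos (Nat.mem_divisors.2 ⟨hkl, hN0.ne'⟩)]
    · rw [if_neg hkl, if_neg (fun h' => hkl (Nat.mem_divisors.1 h').1)]
  have e2 : ∑ k ∈ KL L, ∑ l ∈ KL L, ∑ d ∈ N.divisors,
      (if k * l = d then be Θ L 1 k * be Θ L 1 l else 0) =
      ∑ d ∈ N.divisors, ∑ k ∈ KL L, ∑ l ∈ KL L,
      (if k * l = d then be Θ L 1 k * be Θ L 1 l else 0) := by
    rw [Finset.sum_comm' (s := KL L) (t := fun _ => KL L) (t' := KL L) (s' := fun _ => KL L)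
      (by intro x y; tauto)]
    rw [Finset.sum_comm' (s := KL L) (t := fun _ => KL L) (t' := KL L) (s' := fun _ => KL L)
      (by intro x y; tauto)]
    have : ∀ k ∈ KL L, ∑ l ∈ KL L, ∑ d ∈ N.divisors,
        (if k * l = d then be Θ L 1 k * be Θ L 1 l else 0) =
        ∑ d ∈ N.divisors, ∑ l ∈ KL L,
        (if k * l = d then be Θ L 1 k * be Θ L 1 l else 0) := fun k _ => Finset.sum_comm
    rw [Finset.sum_congr rfl this]
    exact Finset.sum_comm
  rw [e1, e2]
  have e3 : Pool.Agent.SQ.bb L N = ∑ d ∈ N.divisors, Pool.Agent.SQ.lam L d := by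
    unfold Pool.Agent.SQ.bb
    rw [ArithmeticFunction.coe_zeta_mul_apply]
  rw [e3]
  apply Finset.sum_congr rfl
  intro d hd
  obtain ⟨hdN, _⟩ := Nat.mem_divisors.1 hd
  have hd0 : d ≠ 0 := (Nat.pos_of_dvd_of_pos hdN hN0).ne'
  unfold Pool.Agent.SQ.lam
  rw [ArithmeticFunction.mul_apply, ← Finset.sum_product', ← Finset.sum_filter]
  have e4 : (KL L ×ˢ KL L).filter (fun p => p.1 * p.2 = d) = d.divisorsAntidiagonal := by
    ext ⟨k, l⟩
    simp only [Finset.mem_filter, Finset.mem_product, Nat.mem_divisorsAntidiagonal]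
    constructor
    · rintro ⟨_, h2⟩
      exact ⟨h2, hd0⟩
    · rintro ⟨h2, _⟩
      refine ⟨⟨hKL k ?_, hKL l ?_⟩, h2⟩
      · exact (Dvd.intro l h2).trans hdN
      · exact (Dvd.intro_left k h2).trans hdN
  rw [e4]
  apply Finset.sum_congr rfl
  rintro ⟨k, l⟩ hkl
  obtain ⟨h2, _⟩ := Nat.mem_divisorsAntidiagonal.1 hkl
  show be Θ L 1 k * be Θ L 1 l = _
  rw [hbe k ((Dvd.intro l h2).trans hdN), hbe l ((Dvd.intro_left k h2).trans hdN)]

theorem bn_crude_pr {Θ : ℝ → ℝ} (hΘ : Cut Θ) (L : ℝ) {N : ℕ} (hN : 0 < N) :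
    |bN Θ L N| ≤ (N : ℝ) ^ 2 := by
  unfold bN
  rw [← Finset.sum_product', ← Finset.sum_filter]
  refine (Finset.abs_sum_le_sum_abs _ _).trans ?_
  calc ∑ p ∈ (KL L ×ˢ KL L).filter (fun p => p.1 * p.2 ∣ N), |be Θ L 1 p.1 * be Θ L 1 p.2|
      ≤ ∑ p ∈ (KL L ×ˢ KL L).filter (fun p => p.1 * p.2 ∣ N), (1 : ℝ) := by
        apply Finset.sum_le_sum
        intro p hp
        rw [Finset.mem_filter, Finset.mem_product] at hp
        rw [abs_mul]
        have h1 := rse_BNS_be_abs hΘ (R := 1) hp.1.1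
        have h2 := rse_BNS_be_abs hΘ (R := 1) hp.1.2
        have h3 := abs_nonneg (be Θ L 1 p.1)
        have h4 := abs_nonneg (be Θ L 1 p.2)
        nlinarith
    _ = ((KL L ×ˢ KL L).filter (fun p => p.1 * p.2 ∣ N)).card := by simp
    _ ≤ ((Finset.Icc 1 N ×ˢ Finset.Icc 1 N).card : ℝ) := by
        have : (KL L ×ˢ KL L).filter (fun p => p.1 * p.2 ∣ N) ⊆
            Finset.Icc 1 N ×ˢ Finset.Icc 1 N := by
          rintro ⟨k, l⟩ hp
          rw [Finset.mem_filter, Finset.mem_product] at hp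
          obtain ⟨⟨hk, hl⟩, hkl⟩ := hp
          rw [rse_BNS_mem] at hk hl
          rw [Finset.mem_product, Finset.mem_Icc, Finset.mem_Icc]
          exact ⟨⟨hk.1, Nat.le_of_dvd hN ((Dvd.intro _ rfl).trans hkl)⟩,
            ⟨hl.1, Nat.le_of_dvd hN ((Dvd.intro_left _ rfl).trans hkl)⟩⟩
        exact_mod_cast Finset.card_le_card this
    _ = (N : ℝ) ^ 2 := by
        rw [Finset.card_product]
        simp
        ring

theorem bn_one_pr {Θ : ℝ → ℝ} (hΘ : Cut Θ) {L : ℝ} (hL : 1 ≤ L) (a : ℕ) :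
    bN Θ L (2 ^ a) = 1 := by
  have h1 : (1 : ℕ) ∈ KL L := by
    rw [rse_BNS_mem]
    refine ⟨le_rfl, ?_⟩
    have : 1 ≤ Real.exp L := Real.one_le_exp (by linarith)
    simpa using this
  have hodd : ∀ k : ℕ, Odd k → k ∣ 2 ^ a → k = 1 := by
    intro k hk hd
    have hc : Nat.Coprime k (2 ^ a) := Nat.Coprime.pow_right a (Nat.coprime_two_right.2 hk)
    exact Nat.Coprime.eq_one_of_dvd hc hd
  have hz : ∀ k l : ℕ, ¬ (k = 1 ∧ l = 1) →
      (if k * l ∣ 2 ^ a then be Θ L 1 k * be Θ L 1 l else 0) = 0 := by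
    intro k l hkl
    by_cases hd : k * l ∣ 2 ^ a
    · rw [if_pos hd]
      by_cases hk : Odd k
      · by_cases hl : Odd l
        · exact absurd ⟨hodd k hk ((Dvd.intro _ rfl).trans hd),
            hodd l hl ((Dvd.intro_left _ rfl).trans hd)⟩ hkl
        · have : be Θ L 1 l = 0 := by
            unfold be
            rw [if_neg fun h => hl h.1]
          rw [this, mul_zero]
      · have : be Θ L 1 k = 0 := by
          unfold be
          rw [if_neg fun h => hk h.1]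
        rw [this, zero_mul]
    · rw [if_neg hd]
  unfold bN
  rw [Finset.sum_eq_single 1, Finset.sum_eq_single 1]
  · rw [if_pos (by simp), rse_BNS_be_one hΘ, one_mul]
  · intro l _ hl
    exact hz 1 l fun h => hl h.2
  · intro h
    exact absurd h1 h
  · intro k _ hk
    apply Finset.sum_eq_zero
    intro l _
    exact hz k l fun h => hk h.1
  · intro h
    exact absurd h1 h

end Pool.Agent.RSE

namespace Pool.Agent.RSE

alias bn_small := bn_small_pr

alias bn_crude := bn_crude_pr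

alias bn_one := bn_one_pr

end Pool.Agent.RSE
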