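import Pool.Agent.Lib_helper39.RSE.Defs
import Pool.Agent.Lib_helper39.RSA.DefsB
/-! RSE block CUT1 : `exists_cut`, `exists_bump` -/

namespace Pool.Agent.RSE

open Complex MeasureTheory Filter Topology
open Pool.Agent.RC (cc psi rv f0 IsRC Good gm pr DD)
open scoped ContDiff

theorem exists_cut_pr : ∃ Θ : ℝ → ℝ, Cut Θ := by
  let b : ContDiffBump (1 / 4 : ℝ) := ⟨1 / 4, 1 / 2, by norm_num, by norm_num⟩
  have hb1 : ∀ x : ℝ, 0 ≤ x → x ≤ 1 / 2 → b x = 1 := by
    intro x h0 h1
    apply b.one_of_mem_closedBall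
    rw [Metric.mem_closedBall, Real.dist_eq, abs_le]
    constructor <;> (show _ ; simp only [b]; linarith)
  have hb0 : ∀ x : ℝ, 1 ≤ x → b x = 0 := by
    intro x h0
    apply b.zero_of_le_dist
    rw [Real.dist_eq, abs_of_nonneg (by linarith)]
    show (1 / 2 : ℝ) ≤ _
    linarith
  refine ⟨fun x => (1 - x) * b x, ⟨?_, ?_, ?_, ?_, ?_⟩⟩
  · exact (contDiff_const.sub contDiff_id).mul b.contDiff
  · exact b.hasCompactSupport.mul_left
  · intro x hx
    simp [hb0 x hx]
  · intro x h0 h1
    simp [hb1 x h0 h1]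
  · intro x hx
    rcases le_total x 1 with h1 | h1
    · rw [abs_mul, abs_of_nonneg (by linarith), abs_of_nonneg b.nonneg]
      have := b.le_one (x := x)
      have := b.nonneg (x := x)
      nlinarith
    · simp [hb0 x h1]

theorem exists_bump_pr : ∃ φ : ℝ → ℝ, Bump φ := by
  let b : ContDiffBump (3 / 2 : ℝ) := ⟨1 / 2, 1, by norm_num, by norm_num⟩
  refine ⟨b, ⟨b.contDiff, fun x => b.nonneg, fun x => b.le_one, ?_, ?_⟩⟩
  · intro x h0 h1
    apply b.one_of_mem_closedBall
    rw [Metric.mem_closedBall, Real.dist_eq, abs_le]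
    constructor <;> (show _ ; simp only [b]; linarith)
  · intro x hx
    apply b.zero_of_le_dist
    rw [Real.dist_eq]
    show (1 : ℝ) ≤ _
    rcases hx with hx | hx
    · rw [abs_of_nonpos (by linarith)]
      linarith
    · rw [abs_of_nonneg (by linarith)]
      linarith

end Pool.Agent.RSE

namespace Pool.Agent.RSE

alias exists_cut := exists_cut_pr

alias exists_bump := exists_bump_pr

end Pool.Agent.RSE
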