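import Pool.Agent.Lib_helper39.RSE.Defs
import Pool.Agent.Lib_helper39.RSA.DefsB
/-! RSE block CUT2 : `cut_fourier` -/

namespace Pool.Agent.RSE

open Complex MeasureTheory Filter Topology
open Pool.Agent.RC (cc psi rv f0 IsRC Good gm pr DD)
open scoped ContDiff

open scoped FourierTransform SchwartzMap in
theorem cut_fourier_pr {Θ : ℝ → ℝ} (hΘ : Cut Θ) (s : ℝ) : ∃ θ : ℝ → ℂ, Continuous θ ∧
    (∀ A : ℕ, ∃ C : ℝ, ∀ y : ℝ, ‖θ y‖ ≤ C / (1 + |y|) ^ A) ∧
    ∀ x : ℝ, ((Θ x * Real.exp (s * x) : ℝ) : ℂ) = ∫ y : ℝ, θ y * cexp (-(1 + y * I) * x) := by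
  have h1 : ContDiff ℝ ∞ (fun x : ℝ => ((Θ x * Real.exp ((s + 1) * x) : ℝ) : ℂ)) := by
    have h0 := hΘ.smooth
    have h3 : ContDiff ℝ ∞ (fun x : ℝ => Real.exp ((s + 1) * x)) := by fun_prop
    exact Complex.ofRealCLM.contDiff.comp (h0.mul h3)
  have h2 : HasCompactSupport (fun x : ℝ => ((Θ x * Real.exp ((s + 1) * x) : ℝ) : ℂ)) := by
    have : HasCompactSupport (fun x : ℝ => Θ x * Real.exp ((s + 1) * x)) := hΘ.supp.mul_right
    exact this.comp_left (g := fun r : ℝ => (r : ℂ)) (by simp)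
  let G : 𝓢(ℝ, ℂ) := h2.toSchwartzMap h1
  let H : 𝓢(ℝ, ℂ) := 𝓕⁻ G
  have hpi : (0 : ℝ) < 2 * Real.pi := by positivity
  have hpi1 : (1 : ℝ) ≤ 2 * Real.pi := by
    have := Real.two_le_pi
    linarith
  have hinv : ∀ x : ℝ, G x = ∫ v : ℝ, H v * cexp (-(2 * Real.pi * v * x : ℝ) * I) := by
    intro x
    have e1 : 𝓕 H = G := FourierTransform.fourier_fourierInv_eq G
    rw [← e1, SchwartzMap.fourier_coe, Real.fourier_real_eq_integral_exp_smul]
    refine integral_congr_ae (ae_of_all _ fun v => ?_)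
    simp only [smul_eq_mul]
    rw [mul_comm]
    congr 2
    push_cast
    ring
  refine ⟨fun y => ((1 / (2 * Real.pi) : ℝ) : ℂ) * H (y / (2 * Real.pi)), ?_, ?_, ?_⟩
  · exact continuous_const.mul (H.continuous.comp (continuous_id.div_const _))
  · intro A
    obtain ⟨C, hC⟩ : ∃ C : ℝ, ∀ v : ℝ, (1 + ‖v‖) ^ A * ‖H v‖ ≤ C := by
      refine ⟨2 ^ A * (Finset.Iic (A, 0)).sup (fun m => SchwartzMap.seminorm ℝ m.1 m.2) H,
        fun v => ?_⟩
      have := SchwartzMap.one_add_le_sup_seminorm_apply (𝕜 := ℝ) (m := (A, 0)) (k := A) (n := 0)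
        le_rfl le_rfl H v
      rwa [norm_iteratedFDeriv_zero] at this
    refine ⟨(2 * Real.pi) ^ A * C, fun y => ?_⟩
    have hy : 0 < 1 + |y| := by positivity
    rw [le_div_iff₀ (pow_pos hy _), norm_mul, Complex.norm_real, Real.norm_eq_abs,
      abs_of_pos (by positivity)]
    have h3 := hC (y / (2 * Real.pi))
    rw [Real.norm_eq_abs, abs_div, abs_of_pos hpi] at h3
    have h4 : 1 + |y| ≤ 2 * Real.pi * (1 + |y| / (2 * Real.pi)) := by
      have : 2 * Real.pi * (1 + |y| / (2 * Real.pi)) = 2 * Real.pi + |y| := by field_simp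
      linarith
    have h5 : (1 + |y|) ^ A ≤ (2 * Real.pi) ^ A * (1 + |y| / (2 * Real.pi)) ^ A := by
      rw [← mul_pow]
      exact pow_le_pow_left₀ hy.le h4 A
    have h6 : 1 / (2 * Real.pi) ≤ 1 := by
      rw [div_le_one hpi]
      exact hpi1
    have h7 : 0 ≤ ‖H (y / (2 * Real.pi))‖ := norm_nonneg _
    calc 1 / (2 * Real.pi) * ‖H (y / (2 * Real.pi))‖ * (1 + |y|) ^ A
        ≤ 1 * ‖H (y / (2 * Real.pi))‖ * ((2 * Real.pi) ^ A * (1 + |y| / (2 * Real.pi)) ^ A) := by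
          apply mul_le_mul (mul_le_mul_of_nonneg_right h6 h7) h5 (by positivity) (by positivity)
      _ = (2 * Real.pi) ^ A * ((1 + |y| / (2 * Real.pi)) ^ A * ‖H (y / (2 * Real.pi))‖) := by ring
      _ ≤ _ := mul_le_mul_of_nonneg_left h3 (by positivity)
  · intro x
    have e2 : ((Θ x * Real.exp (s * x) : ℝ) : ℂ) = G x * cexp (-x) := by
      show _ = ((Θ x * Real.exp ((s + 1) * x) : ℝ) : ℂ) * _
      push_cast
      rw [mul_assoc, ← Complex.exp_add]
      congr 2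
      ring
    rw [e2, hinv x, ← integral_mul_const]
    have e3 := Measure.integral_comp_div
      (fun v : ℝ => H v * cexp (-(2 * Real.pi * v * x : ℝ) * I) * cexp (-x)) (2 * Real.pi)
    rw [abs_of_pos hpi] at e3
    have e4 : ∫ v : ℝ, H v * cexp (-(2 * Real.pi * v * x : ℝ) * I) * cexp (-x) =
        ((1 / (2 * Real.pi) : ℝ) : ℂ) * ∫ y : ℝ, H (y / (2 * Real.pi)) *
          cexp (-(2 * Real.pi * (y / (2 * Real.pi)) * x : ℝ) * I) * cexp (-x) := by
      rw [e3, Complex.real_smul, ← mul_assoc, ← Complex.ofReal_mul]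
      rw [one_div_mul_cancel hpi.ne', Complex.ofReal_one, one_mul]
    rw [e4, ← integral_const_mul]
    refine integral_congr_ae (ae_of_all _ fun y => ?_)
    simp only
    have e5 : 2 * Real.pi * (y / (2 * Real.pi)) = y := by field_simp
    have e6 : cexp (-(2 * Real.pi * (y / (2 * Real.pi)) * x : ℝ) * I) * cexp (-x) =
        cexp (-(1 + y * I) * x) := by
      rw [e5, ← Complex.exp_add]
      congr 1
      push_cast
      ring
    rw [← e6]
    ring

end Pool.Agent.RSE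

namespace Pool.Agent.RSE

alias cut_fourier := cut_fourier_pr

end Pool.Agent.RSE
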