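import Pool.Agent.Lib_helper39.RSE.Defs
import Pool.Agent.Lib_helper39.RSA.DefsB
import Pool.Agent.Lib_helper24.ABS.Endgame
import Pool.Agent.Lib_helper39.RCA.DLIM
import Pool.Agent.Lib_helper39.RSA.BNS
import Pool.Agent.Lib_helper39.RSA.SUMG
/-!
# Block DDE of RSE: the density of the mollified function minus the main term
-/

namespace Pool.Agent.RSE

open Complex MeasureTheory Filter Topology
open Pool.Agent.RC (cc psi rv f0 IsRC Good gm pr DD)

theorem rse_dde_rv_mul (j : Fin 4) (m a b : ℕ) :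
    (rv j m (a * b) : ℝ) = (rv j m a : ℝ) * (rv j m b : ℝ) := by
  have h := Pool.Agent.RC.rc_dlim_rv_mul j m a b
  unfold rv at h ⊢
  rw [← h]
  push_cast
  ring

/-- the full coefficient sum. -/
noncomputable def rse_dde_c (g Θ : ℝ → ℝ) (L : ℝ) (j : Fin 4) (m : ℕ) (u : ℝ) (N : ℕ) : ℝ :=
  if 0 < N then (rv j m N : ℝ) * bN Θ L N / √(N : ℝ) * g (Real.log N + u) else 0

/-- one term. -/
noncomputable def rse_dde_F (g Θ : ℝ → ℝ) (L : ℝ) (j : Fin 4) (m : ℕ) (u : ℝ) (k l N : ℕ) : ℝ :=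
  if 0 < N then (if k * l ∣ N then be Θ L 1 k * be Θ L 1 l else 0) *
    ((rv j m N : ℝ) / √(N : ℝ) * g (Real.log N + u)) else 0

theorem rse_dde_c_eq (g Θ : ℝ → ℝ) (L : ℝ) (j : Fin 4) (m : ℕ) (u : ℝ) (N : ℕ) :
    rse_dde_c g Θ L j m u N = ∑ k ∈ KL L, ∑ l ∈ KL L, rse_dde_F g Θ L j m u k l N := by
  unfold rse_dde_c rse_dde_F bN
  by_cases h : 0 < N
  · simp only [if_pos h]
    simp only [← Finset.sum_mul]
    ring
  · simp only [if_neg h, Finset.sum_const_zero]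

theorem rse_dde_fast {g : ℝ → ℝ} (hg : Kern g) : Fast g := by
  have := hg.fast 0
  rwa [iteratedDeriv_zero] at this

theorem rse_dde_summ {g : ℝ → ℝ} (hg : Kern g) (Θ : ℝ → ℝ) (L : ℝ) (j : Fin 4)
    (m : ℕ) (u : ℝ) (k l : ℕ) : Summable (rse_dde_F g Θ L j m u k l) := by
  obtain ⟨C, hC, hS⟩ := fast_sum (rse_dde_fast hg) (a := 1 / 2) (by norm_num)
  obtain ⟨hSs, -⟩ := hS u
  refine Summable.of_norm_bounded (hSs.mul_left |be Θ L 1 k * be Θ L 1 l|) ?_
  intro N
  unfold rse_dde_F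
  by_cases h : 0 < N
  · rw [if_pos h, if_pos h, Real.norm_eq_abs, abs_mul]
    have hN : (0 : ℝ) < N := by exact_mod_cast h
    refine mul_le_mul ?_ ?_ (abs_nonneg _) (abs_nonneg _)
    · split_ifs
      · exact le_refl _
      · rw [abs_zero]; exact abs_nonneg _
    · rw [abs_mul, abs_div, abs_of_nonneg (Real.sqrt_nonneg _)]
      refine mul_le_mul_of_nonneg_right ?_ (abs_nonneg _)
      have e1 : (N : ℝ) ^ ((1 / 2 : ℝ) - 1) = 1 / √(N : ℝ) := by
        rw [Real.sqrt_eq_rpow, show (1 / 2 : ℝ) - 1 = -(1 / 2) by norm_num,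
          Real.rpow_neg hN.le]
        exact (one_div _).symm
      rw [e1]
      exact div_le_div_of_nonneg_right (Pool.Agent.RC.rc_dlim_rv_abs j m N) (Real.sqrt_nonneg _)
  · rw [if_neg h, if_neg h]
    simp

theorem rse_dde_csumm {g : ℝ → ℝ} (hg : Kern g) (Θ : ℝ → ℝ) (L : ℝ) (j : Fin 4)
    (m : ℕ) (u : ℝ) : Summable (rse_dde_c g Θ L j m u) := by
  have : rse_dde_c g Θ L j m u =
      fun N => ∑ k ∈ KL L, ∑ l ∈ KL L, rse_dde_F g Θ L j m u k l N := by
    funext N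
    exact rse_dde_c_eq g Θ L j m u N
  rw [this]
  exact summable_sum fun k _ => summable_sum fun l _ => rse_dde_summ hg Θ L j m u k l

theorem rse_dde_one {g : ℝ → ℝ} (Θ : ℝ → ℝ) (L : ℝ) (j : Fin 4)
    (m : ℕ) (u : ℝ) (k l : ℕ) (hk : 0 < k) (hl : 0 < l) :
    be Θ L 1 k * be Θ L 1 l * (rv j m (k * l) : ℝ) / √((k : ℝ) * l) *
      DF g j m (u + Real.log k + Real.log l) = ∑' N, rse_dde_F g Θ L j m u k l N := by
  have hinj : Function.Injective (fun n : ℕ => k * l * n) := by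
    intro a b hab
    exact Nat.eq_of_mul_eq_mul_left (Nat.mul_pos hk hl) hab
  rw [← hinj.tsum_eq]
  · unfold DF
    rw [← tsum_mul_left]
    refine tsum_congr fun n => ?_
    unfold rse_dde_F
    by_cases h : 0 < n
    · have hk' : (0 : ℝ) < k := by exact_mod_cast hk
      have hl' : (0 : ℝ) < l := by exact_mod_cast hl
      have hn' : (0 : ℝ) < n := by exact_mod_cast h
      rw [if_pos h, if_pos (Nat.mul_pos (Nat.mul_pos hk hl) h), if_pos (Dvd.intro n rfl)]
      have e1 : Real.log ((k * l * n : ℕ) : ℝ) + u =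
          Real.log n + (u + Real.log k + Real.log l) := by
        push_cast
        rw [Real.log_mul (by positivity) (by positivity), Real.log_mul (by positivity)
          (by positivity)]
        ring
      rw [e1, rse_dde_rv_mul j m (k * l) n]
      push_cast
      rw [Real.sqrt_mul (by positivity) (n : ℝ)]
      have s1 : √((k : ℝ) * l) ≠ 0 := by positivity
      have s2 : √(n : ℝ) ≠ 0 := by positivity
      field_simp
    · have h0 : n = 0 := by omega
      subst h0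
      simp
  · intro N hN
    rw [Function.mem_support] at hN
    unfold rse_dde_F at hN
    by_cases h : 0 < N
    · by_cases hd : k * l ∣ N
      · obtain ⟨n, rfl⟩ := hd
        exact ⟨n, rfl⟩
      · rw [if_pos h, if_neg hd, zero_mul] at hN
        exact absurd rfl hN
    · rw [if_neg h] at hN
      exact absurd rfl hN

theorem rse_dde_DM {g : ℝ → ℝ} (hg : Kern g) (Θ : ℝ → ℝ) (L : ℝ) (j : Fin 4)
    (m : ℕ) (u : ℝ) : DM g Θ L j m u = ∑' N, rse_dde_c g Θ L j m u N := by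
  have h1 : ∑' N, rse_dde_c g Θ L j m u N =
      ∑ k ∈ KL L, ∑ l ∈ KL L, ∑' N, rse_dde_F g Θ L j m u k l N := by
    simp only [rse_dde_c_eq]
    rw [Summable.tsum_finsetSum fun k _ => summable_sum fun l _ => rse_dde_summ hg Θ L j m u k l]
    refine Finset.sum_congr rfl fun k _ => ?_
    rw [Summable.tsum_finsetSum fun l _ => rse_dde_summ hg Θ L j m u k l]
  rw [h1]
  unfold DM
  refine Finset.sum_congr rfl fun k hk => Finset.sum_congr rfl fun l hl => ?_
  unfold KL at hk hl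
  rw [Finset.mem_Icc] at hk hl
  exact rse_dde_one Θ L j m u k l (by omega) (by omega)

theorem rse_dde_bN (Θ : ℝ → ℝ) (L : ℝ) (a n : ℕ) : bN Θ L (2 ^ a * n) = bN Θ L n := by
  unfold bN
  refine Finset.sum_congr rfl fun k _ => Finset.sum_congr rfl fun l _ => ?_
  by_cases h : Odd k ∧ Odd l
  · have hc : (k * l).Coprime (2 ^ a) := by
      have : Odd (k * l) := h.1.mul h.2
      exact Nat.Coprime.pow_right a (Nat.coprime_two_right.2 this)
    simp only [hc.dvd_mul_left]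
  · have hz : be Θ L 1 k * be Θ L 1 l = 0 := by
      unfold be
      by_cases h1 : Odd k
      · have h2 : ¬ Odd l := fun h2 => h ⟨h1, h2⟩
        rw [if_neg (fun h3 : Odd l ∧ _ => h2 h3.1), mul_zero]
      · rw [if_neg (fun h3 : Odd k ∧ _ => h1 h3.1), zero_mul]
    rw [hz]
    simp

theorem rse_dde_pow (a : ℕ) : √((2 : ℝ) ^ a) = ((2 : ℝ) ^ (-(a : ℝ) / 2))⁻¹ := by
  rw [Real.sqrt_eq_rpow, ← Real.rpow_natCast, ← Real.rpow_mul (by norm_num),
    ← Real.rpow_neg (by norm_num)]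
  congr 1
  ring

theorem rse_dde_split (g Θ : ℝ → ℝ) (L : ℝ) (j : Fin 4) (m : ℕ) (u : ℝ) (a n : ℕ)
    (hn : 0 < n) : rse_dde_c g Θ L j m u (2 ^ a * n) =
      (rv j m (2 ^ a) : ℝ) * (2 : ℝ) ^ (-(a : ℝ) / 2) *
        ((rv j m n : ℝ) * bN Θ L n / √(n : ℝ) * g (Real.log n + (u + a * Real.log 2))) := by
  unfold rse_dde_c
  have hn' : (0 : ℝ) < n := by exact_mod_cast hn
  rw [if_pos (by positivity), rse_dde_bN, rse_dde_rv_mul]
  have e1 : Real.log ((2 ^ a * n : ℕ) : ℝ) + u = Real.log n + (u + a * Real.log 2) := by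
    push_cast
    rw [Real.log_mul (by positivity) (by positivity), Real.log_pow]
    ring
  rw [e1]
  push_cast
  rw [Real.sqrt_mul (by positivity) (n : ℝ), rse_dde_pow]
  have s1 : (2 : ℝ) ^ (-(a : ℝ) / 2) ≠ 0 := by positivity
  have s2 : √(n : ℝ) ≠ 0 := by positivity
  field_simp

theorem rse_dde_inj : Function.Injective (fun p : ℕ × ℕ => 2 ^ p.1 * (2 * p.2 + 1)) := by
  rintro ⟨a, k⟩ ⟨b, l⟩ h
  simp only at h
  have key : ∀ a b k l : ℕ, a < b → 2 ^ a * (2 * k + 1) ≠ 2 ^ b * (2 * l + 1) := by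
    intro a b k l hab he
    obtain ⟨d, rfl⟩ := Nat.exists_eq_add_of_lt hab
    rw [show a + d + 1 = a + (d + 1) by ring, pow_add, mul_assoc] at he
    have := Nat.eq_of_mul_eq_mul_left (by positivity) he
    rw [pow_succ] at this
    have h2 : 2 * k + 1 = 2 * (2 ^ d * (2 * l + 1)) := by rw [this]; ring
    omega
  rcases lt_trichotomy a b with hab | hab | hab
  · exact absurd h (key a b k l hab)
  · subst hab
    have := Nat.eq_of_mul_eq_mul_left (by positivity) h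
    simp only [Prod.mk.injEq, true_and]
    omega
  · exact absurd h.symm (key b a l k hab)

theorem rse_dde_EO (g Θ : ℝ → ℝ) (L : ℝ) (j : Fin 4) (m : ℕ) (v : ℝ) :
    EO g Θ L j m v = ∑' k : ℕ, ((rv j m (2 * (k + 1) + 1) : ℝ) * bN Θ L (2 * (k + 1) + 1) /
      √((2 * (k + 1) + 1 : ℕ) : ℝ) * g (Real.log ((2 * (k + 1) + 1 : ℕ) : ℝ) + v)) := by
  have hinj : Function.Injective (fun k : ℕ => 2 * (k + 1) + 1) := by
    intro a b h
    simp only at h
    omega
  unfold EO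
  rw [← hinj.tsum_eq]
  · refine tsum_congr fun k => ?_
    rw [if_pos]
    refine ⟨⟨k + 1, rfl⟩, by omega⟩
  · intro N hN
    rw [Function.mem_support] at hN
    by_cases h : Odd N ∧ 3 ≤ N
    · obtain ⟨⟨k, rfl⟩, h3⟩ := h
      refine ⟨k - 1, ?_⟩
      simp only
      omega
    · rw [if_neg h] at hN
      exact absurd rfl hN

theorem dm_eq_pr {g Θ : ℝ → ℝ} (hg : Kern g) (hΘ : Cut Θ) {L : ℝ} (hL : 1 ≤ L) (j : Fin 4)
    (m : ℕ) (u : ℝ) :
    Summable (fun a : ℕ => (rv j m (2 ^ a) : ℝ) * (2 : ℝ) ^ (-(a : ℝ) / 2) *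
      EO g Θ L j m (u + a * Real.log 2)) ∧
    DM g Θ L j m u - gA g j m u = ∑' a : ℕ, (rv j m (2 ^ a) : ℝ) *
      (2 : ℝ) ^ (-(a : ℝ) / 2) * EO g Θ L j m (u + a * Real.log 2) := by
  set c := rse_dde_c g Θ L j m u with hc
  have hcs : Summable c := rse_dde_csumm hg Θ L j m u
  have hps : Summable (fun p : ℕ × ℕ => c (2 ^ p.1 * (2 * p.2 + 1))) :=
    hcs.comp_injective rse_dde_inj
  have htot : ∑' N, c N = ∑' p : ℕ × ℕ, c (2 ^ p.1 * (2 * p.2 + 1)) := by
    rw [← rse_dde_inj.tsum_eq]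
    intro N hN
    rw [Function.mem_support] at hN
    have h0 : N ≠ 0 := by
      rintro rfl
      apply hN
      simp [hc, rse_dde_c]
    obtain ⟨a, n, hn, rfl⟩ := Nat.exists_eq_two_pow_mul_odd h0
    obtain ⟨k, rfl⟩ := hn
    exact ⟨(a, k), rfl⟩
  have hrow : ∀ a : ℕ, Summable (fun k : ℕ => c (2 ^ a * (2 * k + 1))) := fun a =>
    hps.comp_injective (f := fun p : ℕ × ℕ => c (2 ^ p.1 * (2 * p.2 + 1)))
      (i := fun k : ℕ => (a, k)) (fun x y h => by simpa using h)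
  have hG : ∀ a : ℕ, c (2 ^ a * (2 * 0 + 1)) =
      (rv j m (2 ^ a) : ℝ) * (2 : ℝ) ^ (-(a : ℝ) / 2) * g (u + a * Real.log 2) := by
    intro a
    rw [hc, rse_dde_split g Θ L j m u a (2 * 0 + 1) (by norm_num)]
    have h1 : bN Θ L (2 * 0 + 1) = 1 := by
      have := bn_one hΘ hL 0
      simpa using this
    have h2 : (rv j m (2 * 0 + 1) : ℝ) = 1 := by
      have h3 := rse_dde_rv_mul j m 1 1
      have h4 : (rv j m 1 : ℝ) ≠ 0 := by
        unfold rv
        fin_cases j <;> simp [psi]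
      have h5 : (rv j m 1 : ℝ) = 1 := by
        rw [mul_one] at h3
        have := mul_right_cancel₀ h4 ((one_mul _).trans h3)
        exact this.symm
      simpa using h5
    rw [h1, h2]
    norm_num
  have hT : ∀ a : ℕ, ∑' k : ℕ, c (2 ^ a * (2 * (k + 1) + 1)) =
      (rv j m (2 ^ a) : ℝ) * (2 : ℝ) ^ (-(a : ℝ) / 2) * EO g Θ L j m (u + a * Real.log 2) := by
    intro a
    rw [rse_dde_EO, ← tsum_mul_left]
    refine tsum_congr fun k => ?_
    rw [hc, rse_dde_split g Θ L j m u a (2 * (k + 1) + 1) (by omega)]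
  have hrowsum : ∀ a : ℕ, ∑' k : ℕ, c (2 ^ a * (2 * k + 1)) =
      (rv j m (2 ^ a) : ℝ) * (2 : ℝ) ^ (-(a : ℝ) / 2) * g (u + a * Real.log 2) +
      (rv j m (2 ^ a) : ℝ) * (2 : ℝ) ^ (-(a : ℝ) / 2) * EO g Θ L j m (u + a * Real.log 2) := by
    intro a
    rw [(hrow a).tsum_eq_zero_add, hG, hT]
  have hGs : Summable (fun a : ℕ => (rv j m (2 ^ a) : ℝ) * (2 : ℝ) ^ (-(a : ℝ) / 2) *
      g (u + a * Real.log 2)) := by
    have h1 : Summable (fun a : ℕ => c (2 ^ a * (2 * 0 + 1))) :=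
      hps.comp_injective (f := fun p : ℕ × ℕ => c (2 ^ p.1 * (2 * p.2 + 1)))
        (i := fun a : ℕ => (a, 0)) (fun x y h => by simpa using h)
    simpa only [hG] using h1
  have hTot : Summable (fun a : ℕ => ∑' k : ℕ, c (2 ^ a * (2 * k + 1))) := hps.prod
  have hTs : Summable (fun a : ℕ => (rv j m (2 ^ a) : ℝ) * (2 : ℝ) ^ (-(a : ℝ) / 2) *
      EO g Θ L j m (u + a * Real.log 2)) := by
    have h1 := hTot.sub hGs
    refine h1.congr fun a => ?_
    rw [hrowsum a]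
    ring
  refine ⟨hTs, ?_⟩
  rw [rse_dde_DM hg, ← hc, htot, hps.tsum_prod]
  simp only [hrowsum]
  rw [Summable.tsum_add hGs hTs]
  unfold gA
  ring

end Pool.Agent.RSE

namespace Pool.Agent.RSE

alias dm_eq := dm_eq_pr

end Pool.Agent.RSE
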