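import Pool.Agent.Lib_helper39.RSE.Defs
import Pool.Agent.Lib_helper39.RSA.DefsB
import Pool.Agent.Lib_helper24.ABS.Endgame
import Pool.Agent.Lib_helper39.RCA.DLIM
/-!
# Block PER of RSE: real character sums over `m ≡ c mod 8`
-/

namespace Pool.Agent.RSE

open Complex MeasureTheory Filter Topology
open Pool.Agent.RC (cc psi rv f0 IsRC Good gm pr DD)
open Pool.Agent.RC (rc_limc_u rc_limc_bound)

theorem rse_per_eps (N c : ℕ) (hc : OC c) (hN : Odd N) :
    ∃ ε : ℤ, (ε = 1 ∨ ε = -1) ∧ ∀ m : ℕ, m % 8 = c → jacobiSym (N : ℤ) m = ε * jacobiSym m N := by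
  have hN2 := Nat.odd_iff.1 hN
  rcases (by omega : N % 4 = 1 ∨ N % 4 = 3) with h | h
  · refine ⟨1, Or.inl rfl, fun m hm => ?_⟩
    rw [one_mul, jacobiSym.quadratic_reciprocity_one_mod_four h
      (by rw [Nat.odd_iff]; unfold OC at hc; omega)]
  · rcases (by unfold OC at hc; omega : c % 4 = 1 ∨ c % 4 = 3) with h' | h'
    · refine ⟨1, Or.inl rfl, fun m hm => ?_⟩
      rw [one_mul, jacobiSym.quadratic_reciprocity_one_mod_four' hN (by omega)]
    · refine ⟨-1, Or.inr rfl, fun m hm => ?_⟩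
      rw [neg_one_mul, jacobiSym.quadratic_reciprocity_three_mod_four h (by omega)]

theorem rse_per_main (N c A B : ℕ) (hc : OC c) (hodd : Odd N) (hsq : ¬ IsSquare N) :
    |∑ m ∈ (Finset.Ico A B).filter (fun m => m % 8 = c), (jacobiSym (N : ℤ) m : ℝ)| ≤
      8 * N := by
  have hN0 : 0 < N := hodd.pos
  obtain ⟨ε, hε, he⟩ := rse_per_eps N c hc hodd
  have h1 : ∑ m ∈ (Finset.Ico A B).filter (fun m => m % 8 = c), (jacobiSym (N : ℤ) m : ℝ) =
      ε * ∑ m ∈ (Finset.Ico A B).filter (fun m => m % 8 = c), (jacobiSym (m : ℤ) N : ℝ) := by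
    rw [Finset.mul_sum]
    apply Finset.sum_congr rfl
    intro m hm
    rw [he m (Finset.mem_filter.1 hm).2]; push_cast; ring
  have hε1 : |(ε : ℝ)| = 1 := by rcases hε with rfl | rfl <;> simp
  rw [h1, abs_mul, hε1, one_mul]
  set f : ℕ → ℝ := fun m => if m % 8 = c then (jacobiSym (m : ℤ) N : ℝ) else 0 with hf
  have h2 : ∑ m ∈ (Finset.Ico A B).filter (fun m => m % 8 = c), (jacobiSym (m : ℤ) N : ℝ) =
      ∑ i ∈ Finset.range (B - A), f (A + i) := by
    rw [Finset.sum_filter, Finset.sum_Ico_eq_sum_range]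
  have hper : ∀ n, f (n + 8 * N) = f n := by
    intro n
    simp only [hf, Nat.add_mul_mod_self_left]
    have : jacobiSym ((n + 8 * N : ℕ) : ℤ) N = jacobiSym (n : ℤ) N := by
      apply jacobiSym.mod_left'
      push_cast
      exact Int.add_mul_emod_self_right _ _ _
    rw [this]
  have hle : ∀ n, |f n| ≤ 1 := by
    intro n
    simp only [hf]
    split_ifs
    · rcases jacobiSym.trichotomy (n : ℤ) N with h | h | h <;> rw [h] <;> simp
    · simp
  have hNR : N.Coprime 8 := by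
    have : Nat.Coprime N (2 ^ 3) := Nat.Coprime.pow_right 3 (Nat.coprime_two_right.2 hodd)
    exact this
  obtain ⟨u, hu1, hu2⟩ := rc_limc_u hsq hodd hNR
  have hP : 0 < 8 * N := by omega
  have : NeZero (8 * N) := ⟨hP.ne'⟩
  have hmul : ∀ n, f (u * n) = - f n := by
    intro n
    have e1 : (u * n) % 8 = n % 8 := by
      have : u * n ≡ 1 * n [MOD 8] := Nat.ModEq.mul_right n hu1
      rwa [one_mul] at this
    simp only [hf, e1]
    push_cast
    rw [jacobiSym.mul_left, hu2]
    split_ifs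
    · push_cast; ring
    · simp
  have hmod : ∀ n, f (n % (8 * N)) = f n := by
    intro n
    have : Function.Periodic f (8 * N) := hper
    exact this.map_mod_nat n
  have huc : Nat.Coprime u (8 * N) := by
    apply Nat.Coprime.mul_right
    · have := Nat.ModEq.gcd_eq hu1
      rw [Nat.gcd_one_left] at this
      exact this
    · have : NeZero N := ⟨hN0.ne'⟩
      have h : jacobiSym (u : ℤ) N ≠ 0 := by rw [hu2]; norm_num
      rw [Ne, jacobiSym.eq_zero_iff_not_coprime, not_not] at h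
      exact h
  have h0 : ∑ n ∈ Finset.range (8 * N), f n = 0 := by
    have e1 : ∑ n ∈ Finset.range (8 * N), f n = ∑ x : ZMod (8 * N), f x.val := by
      symm
      apply Finset.sum_bij (fun (x : ZMod (8 * N)) _ => x.val)
      · intro x _; exact Finset.mem_range.2 (ZMod.val_lt x)
      · intro x _ y _ h; exact ZMod.val_injective _ h
      · intro n hn
        exact ⟨(n : ZMod (8 * N)), Finset.mem_univ _, ZMod.val_cast_of_lt (Finset.mem_range.1 hn)⟩
      · intro x _; rfl
    have e2 : ∑ x : ZMod (8 * N), f x.val = ∑ x : ZMod (8 * N), - f x.val := by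
      rw [← Equiv.sum_comp (Units.mulLeft (ZMod.unitOfCoprime u huc)) (fun x => f x.val)]
      apply Finset.sum_congr rfl
      intro x _
      rw [Units.mulLeft_apply, ZMod.coe_unitOfCoprime, ZMod.val_mul, hmod, ZMod.val_natCast]
      have : u % (8 * N) * x.val ≡ u * x.val [MOD (8 * N)] :=
        Nat.ModEq.mul_right _ (Nat.mod_modEq _ _)
      have h3 : f (u % (8 * N) * x.val) = f (u * x.val) := by
        rw [← hmod, this, hmod]
      rw [h3, hmul]
    rw [Finset.sum_neg_distrib] at e2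
    rw [e1]; linarith
  rw [h2]
  have := rc_limc_bound f (8 * N) hP hper h0 hle (B - A) A
  exact_mod_cast this

theorem rse_per_blk (c : ℕ) (K : ℝ) :
    blk8 c K = (Finset.Ico ⌈K⌉₊ ⌈2 * K⌉₊).filter (fun m => m % 8 = c) := by
  ext m
  unfold blk8
  simp only [Finset.mem_filter, Finset.mem_range, Finset.mem_Ico, Nat.ceil_le, Nat.lt_ceil]
  tauto

theorem per_sum_pr (j : Fin 4) (c : ℕ) (hc : OC c) (K : ℝ) (hK : 0 < K) (N : ℕ) (hN : Odd N)
    (hsq : ¬ IsSquare N) : |∑ m ∈ blk8 c K, (rv j m N : ℝ)| ≤ 8 * N := by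
  have h1 : ∑ m ∈ blk8 c K, (rv j m N : ℝ) =
      (psi j N : ℝ) * ∑ m ∈ blk8 c K, (jacobiSym (N : ℤ) m : ℝ) := by
    rw [Finset.mul_sum]
    refine Finset.sum_congr rfl fun m _ => ?_
    unfold rv
    push_cast
    ring
  rw [h1, abs_mul, rse_per_blk]
  have h3 : |(psi j N : ℝ)| ≤ 1 := by exact_mod_cast Pool.Agent.RC.rc_dlim_psi_abs j N
  calc _ ≤ 1 * (8 * (N : ℝ)) :=
        mul_le_mul h3 (rse_per_main N c _ _ hc hN hsq) (abs_nonneg _) zero_le_one
    _ = 8 * N := one_mul _

end Pool.Agent.RSE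

namespace Pool.Agent.RSE

alias per_sum := per_sum_pr

end Pool.Agent.RSE
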