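import Pool.Agent.Lib_helper39.RSE.Defs
import Pool.Agent.Lib_helper39.RSA.DefsB
import Pool.Agent.Lib_helper92.SQA.BSUM
/-! # RSE, block QLA -/

namespace Pool.Agent.RSE

open Complex MeasureTheory Filter Topology
open Pool.Agent.RC (cc psi rv f0 IsRC Good gm pr DD)
open scoped ContDiff

/-- summation by parts with Chebyshev's bound -/
theorem rse_QLA_abel (f : ℕ → ℝ) (hf : ∀ n, 1 ≤ n → f (n + 1) ≤ f n) (c : ℝ)
    (hc : ∀ N : ℕ, ∑ m ∈ Finset.Ioc 0 N, ArithmeticFunction.vonMangoldt m ≤ c * N) (N : ℕ) :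
    ∑ n ∈ Finset.Ioc 0 (N + 1), ArithmeticFunction.vonMangoldt n * f n ≤
      c * ∑ n ∈ Finset.Ioc 0 (N + 1), f n -
        (c * (N + 1) - ∑ m ∈ Finset.Ioc 0 (N + 1), ArithmeticFunction.vonMangoldt m) *
          f (N + 1) := by
  induction N with
  | zero => simp
  | succ N ih =>
    rw [Finset.sum_Ioc_succ_top (Nat.zero_le (N + 1)) (fun n =>
        ArithmeticFunction.vonMangoldt n * f n),
      Finset.sum_Ioc_succ_top (Nat.zero_le (N + 1)) f,
      Finset.sum_Ioc_succ_top (Nat.zero_le (N + 1)) (fun m => ArithmeticFunction.vonMangoldt m)]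
    have h1 := hf (N + 1) (by omega)
    have h2 := hc (N + 1)
    push_cast at h2 ⊢
    set S := ∑ m ∈ Finset.Ioc 0 (N + 1), ArithmeticFunction.vonMangoldt m with hS
    have h3 : (c * (N + 1) - S) * f (N + 1 + 1) ≤ (c * (N + 1) - S) * f (N + 1) :=
      mul_le_mul_of_nonneg_left h1 (by linarith)
    nlinarith

theorem rse_QLA_abel' (f : ℕ → ℝ) (hf : ∀ n, 1 ≤ n → f (n + 1) ≤ f n)
    (hf0 : ∀ n, 0 ≤ f n) (N : ℕ) :
    ∑ n ∈ Finset.Ioc 0 N, ArithmeticFunction.vonMangoldt n * f n ≤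
      Pool.Agent.SQ.bsumC * ∑ n ∈ Finset.Ioc 0 N, f n := by
  rcases N with _ | N
  · simp
  · have h1 := rse_QLA_abel f hf Pool.Agent.SQ.bsumC Pool.Agent.SQ.bsum_psi N
    have h2 := Pool.Agent.SQ.bsum_psi (N + 1)
    push_cast at h2
    have h3 : 0 ≤ (Pool.Agent.SQ.bsumC * (N + 1) -
        ∑ m ∈ Finset.Ioc 0 (N + 1), ArithmeticFunction.vonMangoldt m) * f (N + 1) :=
      mul_nonneg (by linarith) (hf0 _)
    linarith

theorem rse_QLA_pt (y y' x : ℝ) (hy : 0 < y) (hy' : 0 ≤ y') (h : y' ≤ y) (hx : y ^ 2 - y' ^ 2 = x) :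
    min y y⁻¹ * (x / y ^ 2) ≤ 8 * (1 / (1 + y') - 1 / (1 + y)) := by
  have h1 : 0 < 1 + y := by linarith
  have h2 : 0 < 1 + y' := by linarith
  have e1 : 1 / (1 + y') - 1 / (1 + y) = (y - y') / ((1 + y') * (1 + y)) := by
    field_simp
    ring
  rw [e1]
  have hd : 0 ≤ y - y' := by linarith
  have e2 : x = (y - y') * (y + y') := by rw [← hx]; ring
  have hm : min y y⁻¹ * (1 + y) ^ 2 ≤ 4 * y := by
    rcases le_total y 1 with h3 | h3
    · calc min y y⁻¹ * (1 + y) ^ 2 ≤ y * (1 + y) ^ 2 :=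
            mul_le_mul_of_nonneg_right (min_le_left _ _) (sq_nonneg _)
        _ ≤ y * 4 := mul_le_mul_of_nonneg_left (by nlinarith) hy.le
        _ = 4 * y := by ring
    · calc min y y⁻¹ * (1 + y) ^ 2 ≤ y⁻¹ * (1 + y) ^ 2 :=
            mul_le_mul_of_nonneg_right (min_le_right _ _) (sq_nonneg _)
        _ ≤ y⁻¹ * (4 * y ^ 2) :=
            mul_le_mul_of_nonneg_left (by nlinarith) (inv_nonneg.2 hy.le)
        _ = 4 * y := by field_simp
  have hmn : 0 ≤ min y y⁻¹ := le_min hy.le (inv_nonneg.2 hy.le)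
  have h4 : min y y⁻¹ * (x / y ^ 2) ≤ min y y⁻¹ * ((y - y') * (2 * y) / y ^ 2) := by
    apply mul_le_mul_of_nonneg_left _ hmn
    apply div_le_div_of_nonneg_right _ (sq_nonneg y)
    rw [e2]
    exact mul_le_mul_of_nonneg_left (by linarith) hd
  refine h4.trans ?_
  have h5 : min y y⁻¹ * ((y - y') * (2 * y) / y ^ 2) =
      (y - y') * (2 * (min y y⁻¹ / y)) := by
    field_simp
  rw [h5]
  have h6 : 8 * ((y - y') / ((1 + y') * (1 + y))) = (y - y') * (8 / ((1 + y') * (1 + y))) := by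
    ring
  rw [h6]
  apply mul_le_mul_of_nonneg_left _ hd
  rw [le_div_iff₀ (by positivity)]
  have h7 : (1 + y') * (1 + y) ≤ (1 + y) ^ 2 := by nlinarith
  have h8 : min y y⁻¹ / y * (1 + y) ^ 2 ≤ 4 := by
    rw [div_mul_eq_mul_div, div_le_iff₀ hy]
    exact hm
  have h9 : 0 ≤ min y y⁻¹ / y := div_nonneg hmn hy.le
  nlinarith [mul_le_mul_of_nonneg_left h7 h9]

/-- the profile -/
noncomputable def rse_QLA_f (v : ℝ) (n : ℕ) : ℝ := Real.exp (-(|Real.log n + v| / 2)) / n

theorem rse_QLA_f0 (v : ℝ) (n : ℕ) : 0 ≤ rse_QLA_f v n := by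
  unfold rse_QLA_f
  positivity

theorem rse_QLA_fmono (v : ℝ) (n : ℕ) (hn : 1 ≤ n) : rse_QLA_f v (n + 1) ≤ rse_QLA_f v n := by
  unfold rse_QLA_f
  have h0 : (0 : ℝ) < n := by exact_mod_cast hn
  have h1 : (0 : ℝ) < (n + 1 : ℕ) := by positivity
  have e : ∀ (z : ℝ) (m : ℕ), (0 : ℝ) < m → Real.exp z / m = Real.exp (z - Real.log m) := by
    intro z m hm
    rw [Real.exp_sub, Real.exp_log hm]
  rw [e _ _ h0, e _ _ h1]
  apply Real.exp_le_exp.2
  have hlog : Real.log n ≤ Real.log (n + 1 : ℕ) :=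
    Real.log_le_log h0 (by push_cast; linarith)
  have h2 : |Real.log n + v| ≤ |Real.log (n + 1 : ℕ) + v| + (Real.log (n + 1 : ℕ) - Real.log n) := by
    have h3 : Real.log n + v = (Real.log (n + 1 : ℕ) + v) - (Real.log (n + 1 : ℕ) - Real.log n) := by
      ring
    have h4 := abs_sub (Real.log (n + 1 : ℕ) + v) (Real.log (n + 1 : ℕ) - Real.log n)
    rw [← h3, abs_of_nonneg (by linarith : 0 ≤ Real.log (n + 1 : ℕ) - Real.log n)] at h4
    exact h4
  linarith

theorem rse_QLA_fsum (v : ℝ) (N : ℕ) : ∑ n ∈ Finset.Ioc 0 N, rse_QLA_f v n ≤ 8 := by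
  have key : ∀ N : ℕ, ∑ n ∈ Finset.Ioc 0 N, rse_QLA_f v n ≤
      8 * (1 - 1 / (1 + √(N * Real.exp v))) := by
    intro N
    induction N with
    | zero => simp
    | succ N ih =>
      rw [Finset.sum_Ioc_succ_top (Nat.zero_le N)]
      have hv := Real.exp_pos v
      set y := √(((N + 1 : ℕ) : ℝ) * Real.exp v) with hy
      set y' := √((N : ℝ) * Real.exp v) with hy'
      have ypos : 0 < y := Real.sqrt_pos.2 (by positivity)
      have y'0 : 0 ≤ y' := Real.sqrt_nonneg _
      have yy' : y' ≤ y := by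
        apply Real.sqrt_le_sqrt
        apply mul_le_mul_of_nonneg_right _ hv.le
        push_cast
        linarith
      have hsq : y ^ 2 - y' ^ 2 = Real.exp v := by
        rw [hy, hy', Real.sq_sqrt (by positivity), Real.sq_sqrt (by positivity)]
        push_cast
        ring
      have h1 := rse_QLA_pt y y' (Real.exp v) ypos y'0 yy' hsq
      have h2 : rse_QLA_f v (N + 1) = min y y⁻¹ * (Real.exp v / y ^ 2) := by
        unfold rse_QLA_f
        have hN : (0 : ℝ) < ((N + 1 : ℕ) : ℝ) := by positivity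
        have e1 : Real.exp v / y ^ 2 = 1 / ((N + 1 : ℕ) : ℝ) := by
          rw [hy, Real.sq_sqrt (by positivity)]
          field_simp
        have e2 : y = Real.exp ((Real.log ((N + 1 : ℕ) : ℝ) + v) / 2) := by
          rw [hy, Real.sqrt_eq_iff_mul_self_eq (by positivity) (Real.exp_nonneg _), ← Real.exp_add]
          rw [add_halves, Real.exp_add, Real.exp_log hN]
        have e3 : Real.exp (-(|Real.log ((N + 1 : ℕ) : ℝ) + v| / 2)) = min y y⁻¹ := by
          rw [e2, ← Real.exp_neg]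
          rcases le_total 0 (Real.log ((N + 1 : ℕ) : ℝ) + v) with h | h
          · rw [abs_of_nonneg h, min_eq_right]
            apply Real.exp_le_exp.2
            linarith
          · rw [abs_of_nonpos h, min_eq_left]
            · congr 1
              ring
            · apply Real.exp_le_exp.2
              linarith
        rw [e1, e3]
        ring
      rw [h2]
      linarith
  have h := key N
  have h2 : 0 ≤ 1 / (1 + √((N : ℝ) * Real.exp v)) := by positivity
  linarith

/-- sums over prime powers, uniformly in `v` -/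
theorem rse_QLA_lam (v : ℝ) (S : Finset ℕ) :
    ∑ n ∈ S, ArithmeticFunction.vonMangoldt n / n * Real.exp (-(|Real.log n + v| / 2)) ≤
      8 * Pool.Agent.SQ.bsumC := by
  have h0 : ∀ n : ℕ, ArithmeticFunction.vonMangoldt n / n * Real.exp (-(|Real.log n + v| / 2)) =
      ArithmeticFunction.vonMangoldt n * rse_QLA_f v n := by
    intro n
    unfold rse_QLA_f
    ring
  simp only [h0]
  set N := S.sup id with hN
  have hsub : S ⊆ insert 0 (Finset.Ioc 0 N) := by
    intro n hn
    rw [Finset.mem_insert, Finset.mem_Ioc]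
    rcases Nat.eq_zero_or_pos n with h | h
    · exact Or.inl h
    · exact Or.inr ⟨h, Finset.le_sup (f := id) hn⟩
  calc ∑ n ∈ S, ArithmeticFunction.vonMangoldt n * rse_QLA_f v n
      ≤ ∑ n ∈ insert 0 (Finset.Ioc 0 N), ArithmeticFunction.vonMangoldt n * rse_QLA_f v n :=
        Finset.sum_le_sum_of_subset_of_nonneg hsub fun n _ _ =>
          mul_nonneg ArithmeticFunction.vonMangoldt_nonneg (rse_QLA_f0 v n)
    _ = ∑ n ∈ Finset.Ioc 0 N, ArithmeticFunction.vonMangoldt n * rse_QLA_f v n := by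
        rw [Finset.sum_insert (by simp)]
        simp
    _ ≤ Pool.Agent.SQ.bsumC * ∑ n ∈ Finset.Ioc 0 N, rse_QLA_f v n :=
        rse_QLA_abel' _ (rse_QLA_fmono v) (rse_QLA_f0 v) N
    _ ≤ Pool.Agent.SQ.bsumC * 8 :=
        mul_le_mul_of_nonneg_left (rse_QLA_fsum v N) Pool.Agent.SQ.bsumC_pos.le
    _ = 8 * Pool.Agent.SQ.bsumC := by ring

theorem rse_QLA_np : Summable fun n : ℕ =>
    (if n.Prime then 0 else ArithmeticFunction.vonMangoldt n) / (n : ℝ) := by
  have h := ArithmeticFunction.vonMangoldt.summable_residueClass_non_primes_div (q := 1) 0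
  apply h.congr
  intro n
  congr 1
  split_ifs with hn
  · rfl
  · unfold ArithmeticFunction.vonMangoldt.residueClass
    simp [Set.indicator_apply, Subsingleton.elim ((n : ZMod 1)) 0]

/-- the term -/
noncomputable def rse_QLA_t (v : ℝ) (p : ℕ × ℕ) : ℝ := if Squarefree p.1 ∧ 0 < p.2 then
      ArithmeticFunction.vonMangoldt (p.1 * p.2 ^ 2) / ((p.1 : ℝ) * p.2) *
        Real.exp (-(|Real.log ((p.1 * p.2 ^ 2 : ℕ) : ℝ) + v| / 2)) else 0

theorem rse_QLA_t0 (v : ℝ) (p : ℕ × ℕ) : 0 ≤ rse_QLA_t v p := by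
  unfold rse_QLA_t
  split_ifs
  · have := ArithmeticFunction.vonMangoldt_nonneg (n := p.1 * p.2 ^ 2)
    positivity
  · exact le_rfl

/-- the shape of the support -/
theorem rse_QLA_shape {s a : ℕ} (hs : Squarefree s) (ha : 0 < a)
    (h : ArithmeticFunction.vonMangoldt (s * a ^ 2) ≠ 0) (hs1 : s ≠ 1) :
    s.Prime ∧ (∃ k, a = s ^ k) ∧
      ArithmeticFunction.vonMangoldt (s * a ^ 2) = ArithmeticFunction.vonMangoldt s := by
  rw [ArithmeticFunction.vonMangoldt_ne_zero_iff] at h
  obtain ⟨p, e, hp, he, hpe⟩ := h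
  have hp' : p.Prime := hp.nat_prime
  have hsd : s ∣ p ^ e := by rw [hpe]; exact Dvd.intro _ rfl
  have had : a ∣ p ^ e := by
    rw [hpe, sq, ← mul_assoc]
    exact Dvd.intro_left _ rfl
  obtain ⟨i, _, hi⟩ := (Nat.dvd_prime_pow hp').1 hsd
  obtain ⟨k, _, hk⟩ := (Nat.dvd_prime_pow hp').1 had
  have hi1 : i = 1 := by
    have hi0 : i ≠ 0 := by
      rintro rfl
      rw [pow_zero] at hi
      exact hs1 hi
    have hsq : Squarefree (p ^ i) := by rw [← hi]; exact hs
    by_contra hne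
    have h2 : 2 ≤ i := by omega
    have h3 : p * p ∣ p ^ i := by
      rw [← sq]
      exact pow_dvd_pow p h2
    have h4 := hsq p h3
    exact hp'.one_lt.ne' (Nat.isUnit_iff.1 h4)
  rw [hi1, pow_one] at hi
  refine ⟨by rw [hi]; exact hp', ⟨k, by rw [hk, hi]⟩, ?_⟩
  rw [← hpe, hi, ArithmeticFunction.vonMangoldt_apply_pow he.ne']

theorem rse_QLA_fin (v : ℝ) (T : Finset (ℕ × ℕ)) :
    ∑ p ∈ T, rse_QLA_t v p ≤ 16 * Pool.Agent.SQ.bsumC +
      ∑' n : ℕ, (if n.Prime then 0 else ArithmeticFunction.vonMangoldt n) / (n : ℝ) := by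
  classical
  -- three parts
  have hsplit : ∑ p ∈ T, rse_QLA_t v p = ∑ p ∈ T.filter (fun p => p.1 = 1), rse_QLA_t v p +
      (∑ p ∈ (T.filter (fun p => ¬ p.1 = 1)).filter (fun p => p.2 = 1), rse_QLA_t v p +
        ∑ p ∈ (T.filter (fun p => ¬ p.1 = 1)).filter (fun p => ¬ p.2 = 1), rse_QLA_t v p) := by
    rw [Finset.sum_filter_add_sum_filter_not, Finset.sum_filter_add_sum_filter_not]
  rw [hsplit]
  have h1 : ∑ p ∈ T.filter (fun p => p.1 = 1), rse_QLA_t v p ≤ 8 * Pool.Agent.SQ.bsumC := by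
    have hinj : Set.InjOn (fun p : ℕ × ℕ => p.2) (T.filter (fun p => p.1 = 1) : Set (ℕ × ℕ)) := by
      rintro ⟨s, a⟩ hp ⟨s', a'⟩ hp' h
      rw [Finset.mem_coe, Finset.mem_filter] at hp hp'
      have e1 : s = 1 := hp.2
      have e2 : s' = 1 := hp'.2
      have e3 : a = a' := h
      rw [e1, e2, e3]
    refine le_trans ?_ (rse_QLA_lam (v / 2) ((T.filter (fun p => p.1 = 1)).image (fun p => p.2)))
    rw [Finset.sum_image hinj]
    apply Finset.sum_le_sum
    rintro ⟨s, a⟩ hp
    rw [Finset.mem_filter] at hp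
    have e1 : s = 1 := hp.2
    subst e1
    unfold rse_QLA_t
    split_ifs with hc
    · have ha : 0 < a := hc.2
      have ha' : (0 : ℝ) < a := by exact_mod_cast ha
      simp only [one_mul, Nat.cast_one]
      rw [ArithmeticFunction.vonMangoldt_apply_pow (by norm_num)]
      apply mul_le_mul_of_nonneg_left
      · apply Real.exp_le_exp.2
        have e2 : Real.log ((a ^ 2 : ℕ) : ℝ) + v = 2 * (Real.log a + v / 2) := by
          push_cast
          rw [Real.log_pow]
          push_cast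
          ring
        rw [e2, abs_mul, abs_of_pos (by norm_num : (0 : ℝ) < 2)]
        have := abs_nonneg (Real.log a + v / 2)
        linarith
      · have := ArithmeticFunction.vonMangoldt_nonneg (n := a)
        positivity
    · have := ArithmeticFunction.vonMangoldt_nonneg (n := a)
      positivity
  have h2 : ∑ p ∈ (T.filter (fun p => ¬ p.1 = 1)).filter (fun p => p.2 = 1), rse_QLA_t v p ≤
      8 * Pool.Agent.SQ.bsumC := by
    set U := (T.filter (fun p => ¬ p.1 = 1)).filter (fun p => p.2 = 1) with hU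
    have hinj : Set.InjOn (fun p : ℕ × ℕ => p.1) (U : Set (ℕ × ℕ)) := by
      rintro ⟨s, a⟩ hp ⟨s', a'⟩ hp' h
      rw [Finset.mem_coe, hU, Finset.mem_filter] at hp hp'
      have e1 : a = 1 := hp.2
      have e2 : a' = 1 := hp'.2
      have e3 : s = s' := h
      rw [e1, e2, e3]
    refine le_trans ?_ (rse_QLA_lam v (U.image (fun p => p.1)))
    rw [Finset.sum_image hinj]
    apply Finset.sum_le_sum
    rintro ⟨s, a⟩ hp
    rw [hU, Finset.mem_filter] at hp
    have e1 : a = 1 := hp.2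
    subst e1
    unfold rse_QLA_t
    split_ifs with hc
    · simp
    · have := ArithmeticFunction.vonMangoldt_nonneg (n := s)
      positivity
  have h3 : ∑ p ∈ (T.filter (fun p => ¬ p.1 = 1)).filter (fun p => ¬ p.2 = 1), rse_QLA_t v p ≤
      ∑' n : ℕ, (if n.Prime then 0 else ArithmeticFunction.vonMangoldt n) / (n : ℝ) := by
    set U := ((T.filter (fun p => ¬ p.1 = 1)).filter (fun p => ¬ p.2 = 1)).filter
      (fun p => rse_QLA_t v p ≠ 0) with hU
    rw [← Finset.sum_filter_ne_zero, ← hU]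
    have hsh : ∀ s a, (s, a) ∈ U → s.Prime ∧ ∃ k, a = s ^ (k + 1) := by
      intro s a hp
      rw [hU, Finset.mem_filter, Finset.mem_filter, Finset.mem_filter] at hp
      obtain ⟨⟨⟨_, hs1⟩, ha1⟩, ht⟩ := hp
      unfold rse_QLA_t at ht
      split_ifs at ht with hc
      · have hL : ArithmeticFunction.vonMangoldt (s * a ^ 2) ≠ 0 := by
          intro h0
          apply ht
          show ArithmeticFunction.vonMangoldt (s * a ^ 2) / ((s : ℝ) * a) * _ = 0
          rw [h0, zero_div, zero_mul]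
        obtain ⟨g1, ⟨k, g2⟩, _⟩ := rse_QLA_shape hc.1 hc.2 hL hs1
        refine ⟨g1, ?_⟩
        rcases k with _ | k
        · rw [pow_zero] at g2
          exact absurd g2 ha1
        · exact ⟨k, g2⟩
      · exact absurd rfl ht
    have hinj : Set.InjOn (fun p : ℕ × ℕ => p.1 * p.2) (U : Set (ℕ × ℕ)) := by
      rintro ⟨s, a⟩ hp ⟨s', a'⟩ hp' h
      obtain ⟨g1, k, g2⟩ := hsh s a hp
      obtain ⟨g1', k', g2'⟩ := hsh s' a' hp'
      have e0 : s * a = s' * a' := h
      have e1 : s ^ (k + 2) = s' ^ (k' + 2) := by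
        have : s * a = s ^ (k + 2) := by rw [g2]; ring
        have h' : s' * a' = s' ^ (k' + 2) := by rw [g2']; ring
        rw [← this, ← h', e0]
      have e2 : s = s' := by
        have hd : s ∣ s' ^ (k' + 2) := by
          rw [← e1]
          exact dvd_pow_self s (by omega)
        exact (Nat.prime_dvd_prime_iff_eq g1 g1').1 (g1.dvd_of_dvd_pow hd)
      subst e2
      have e3 : a = a' := Nat.eq_of_mul_eq_mul_left g1.pos e0
      rw [e3]
    refine le_trans ?_ (rse_QLA_np.sum_le_tsum (U.image (fun p => p.1 * p.2)) ?_)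
    · rw [Finset.sum_image hinj]
      apply Finset.sum_le_sum
      rintro ⟨s, a⟩ hp
      obtain ⟨g1, k, g2⟩ := hsh s a hp
      have hnp : ¬ (s * a).Prime := by
        rw [g2]
        apply Nat.not_prime_mul g1.one_lt.ne'
        exact (Nat.one_lt_pow (by omega) g1.one_lt).ne'
      show rse_QLA_t v (s, a) ≤
        (if (s * a).Prime then 0 else ArithmeticFunction.vonMangoldt (s * a)) / ((s * a : ℕ) : ℝ)
      rw [if_neg hnp]
      have hL : ArithmeticFunction.vonMangoldt (s * a) = ArithmeticFunction.vonMangoldt s := by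
        have : s * a = s ^ (k + 2) := by rw [g2]; ring
        rw [this, ArithmeticFunction.vonMangoldt_apply_pow (by omega)]
      have hL2 : ArithmeticFunction.vonMangoldt (s * a ^ 2) = ArithmeticFunction.vonMangoldt s := by
        have : s * a ^ 2 = s ^ (2 * k + 3) := by rw [g2]; ring
        rw [this, ArithmeticFunction.vonMangoldt_apply_pow (by omega)]
      unfold rse_QLA_t
      have hLn := ArithmeticFunction.vonMangoldt_nonneg (n := s)
      split_ifs with hc
      · show ArithmeticFunction.vonMangoldt (s * a ^ 2) / ((s : ℝ) * a) * _ ≤ _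
        rw [hL, hL2]
        push_cast
        have hexp : Real.exp (-(|Real.log ((s * a ^ 2 : ℕ) : ℝ) + v| / 2)) ≤ 1 := by
          rw [Real.exp_le_one_iff]
          have := abs_nonneg (Real.log ((s * a ^ 2 : ℕ) : ℝ) + v)
          linarith
        have h5 : 0 ≤ ArithmeticFunction.vonMangoldt s / ((s : ℝ) * a) := by positivity
        have h6 := mul_le_mul_of_nonneg_left hexp h5
        rw [mul_one] at h6
        push_cast at h6
        exact h6
      · rw [hL]
        positivity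
    · intro n _
      split_ifs
      · simp
      · have := ArithmeticFunction.vonMangoldt_nonneg (n := n)
        positivity
  linarith

theorem qla_bound_pr : ∃ C : ℝ, 0 < C ∧ ∀ v : ℝ,
    Summable (fun p : ℕ × ℕ => if Squarefree p.1 ∧ 0 < p.2 then
      ArithmeticFunction.vonMangoldt (p.1 * p.2 ^ 2) / ((p.1 : ℝ) * p.2) *
        Real.exp (-(|Real.log ((p.1 * p.2 ^ 2 : ℕ) : ℝ) + v| / 2)) else 0) ∧
    ∑' p : ℕ × ℕ, (if Squarefree p.1 ∧ 0 < p.2 then
      ArithmeticFunction.vonMangoldt (p.1 * p.2 ^ 2) / ((p.1 : ℝ) * p.2) *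
        Real.exp (-(|Real.log ((p.1 * p.2 ^ 2 : ℕ) : ℝ) + v| / 2)) else 0) ≤ C := by
  set C := 16 * Pool.Agent.SQ.bsumC +
      ∑' n : ℕ, (if n.Prime then 0 else ArithmeticFunction.vonMangoldt n) / (n : ℝ) with hC
  have hT : 0 ≤ ∑' n : ℕ, (if n.Prime then 0 else ArithmeticFunction.vonMangoldt n) / (n : ℝ) := by
    apply tsum_nonneg
    intro n
    split_ifs
    · simp
    · have := ArithmeticFunction.vonMangoldt_nonneg (n := n)
      positivity
  refine ⟨C, by have := Pool.Agent.SQ.bsumC_pos; linarith, ?_⟩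
  intro v
  have hsum : Summable (rse_QLA_t v) :=
    summable_of_sum_le (rse_QLA_t0 v) (rse_QLA_fin v)
  refine ⟨hsum, ?_⟩
  exact hsum.tsum_le_of_sum_le (rse_QLA_fin v)

end Pool.Agent.RSE

namespace Pool.Agent.RSE

alias qla_bound := qla_bound_pr

end Pool.Agent.RSE
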