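import Pool.Agent.Lib_helper39.RSE.Defs
import Pool.Agent.Lib_helper39.RSA.DefsB
import Pool.Agent.Lib_helper24.ABS.Endgame
import Pool.Agent.Lib_helper39.RSA.QLA
/-! # RSE, block QLB -/

namespace Pool.Agent.RSE

open Complex MeasureTheory Filter Topology
open Pool.Agent.RC (cc psi rv f0 IsRC Good gm pr DD)
open scoped ContDiff

noncomputable def rse_QLB_w (p : ℕ × ℕ) : ℝ := if Squarefree p.1 ∧ 0 < p.2 then
      ArithmeticFunction.vonMangoldt (p.1 * p.2 ^ 2) / ((p.1 : ℝ) * p.2) else 0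

noncomputable def rse_QLB_n (p : ℕ × ℕ) : ℝ := Real.log ((p.1 * p.2 ^ 2 : ℕ) : ℝ)

theorem rse_QLB_w0 (p : ℕ × ℕ) : 0 ≤ rse_QLB_w p := by
  unfold rse_QLB_w
  split_ifs
  · have := ArithmeticFunction.vonMangoldt_nonneg (n := p.1 * p.2 ^ 2)
    positivity
  · exact le_rfl

theorem rse_QLB_n0 (p : ℕ × ℕ) : 0 ≤ rse_QLB_n p := Real.log_natCast_nonneg _

theorem rse_QLB_A : ∃ C : ℝ, 0 < C ∧ ∀ (v : ℝ) (T : Finset (ℕ × ℕ)),
    ∑ p ∈ T, rse_QLB_w p * Real.exp (-(|rse_QLB_n p + v| / 2)) ≤ C := by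
  obtain ⟨C, hC, h⟩ := qla_bound
  refine ⟨C, hC, ?_⟩
  intro v T
  obtain ⟨h1, h2⟩ := h v
  have e : ∀ p : ℕ × ℕ, rse_QLB_w p * Real.exp (-(|rse_QLB_n p + v| / 2)) =
      if Squarefree p.1 ∧ 0 < p.2 then
      ArithmeticFunction.vonMangoldt (p.1 * p.2 ^ 2) / ((p.1 : ℝ) * p.2) *
        Real.exp (-(|Real.log ((p.1 * p.2 ^ 2 : ℕ) : ℝ) + v| / 2)) else 0 := by
    intro p
    unfold rse_QLB_w rse_QLB_n
    split_ifs
    · rfl
    · rw [zero_mul]
  calc ∑ p ∈ T, rse_QLB_w p * Real.exp (-(|rse_QLB_n p + v| / 2))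
      = ∑ p ∈ T, _ := Finset.sum_congr rfl fun p _ => e p
    _ ≤ _ := h1.sum_le_tsum T fun p _ => by
        rw [← e p]
        exact mul_nonneg (rse_QLB_w0 p) (Real.exp_nonneg _)
    _ ≤ C := h2

theorem rse_QLB_cover (n u : ℝ) (hn : 0 ≤ n) :
    Real.exp (-(max 0 (n + u) / 2)) ≤ Real.exp (-(|n + u| / 2)) +
      2 * ∑ k ∈ Finset.range (⌊|u|⌋₊ + 1), Real.exp (-(|n + (-(k : ℝ))| / 2)) := by
  have hs : ∀ k ∈ Finset.range (⌊|u|⌋₊ + 1), 0 ≤ Real.exp (-(|n + (-(k : ℝ))| / 2)) :=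
    fun k _ => Real.exp_nonneg _
  rcases le_or_gt 0 (n + u) with h | h
  · rw [max_eq_right h, abs_of_nonneg h]
    have := Finset.sum_nonneg hs
    linarith
  · rw [max_eq_left h.le]
    have hu : n ≤ |u| := by
      have := neg_abs_le u
      linarith
    have hk : ⌊n⌋₊ ∈ Finset.range (⌊|u|⌋₊ + 1) := by
      rw [Finset.mem_range]
      have := Nat.floor_le_floor hu
      omega
    have h1 := Finset.single_le_sum hs hk
    have h2 : |n + (-((⌊n⌋₊ : ℕ) : ℝ))| ≤ 1 := by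
      have a1 := Nat.floor_le hn
      have a2 := Nat.lt_floor_add_one n
      rw [abs_le]
      constructor <;> linarith
    have h3 : (1 : ℝ) / 2 ≤ Real.exp (-(|n + (-((⌊n⌋₊ : ℕ) : ℝ))| / 2)) := by
      have := Real.add_one_le_exp (-(|n + (-((⌊n⌋₊ : ℕ) : ℝ))| / 2))
      linarith
    have h4 := Real.exp_nonneg (-(|n + u| / 2))
    have h5 : Real.exp (-((0 : ℝ) / 2)) = 1 := by simp
    rw [h5]
    linarith

theorem rse_QLB_C : ∃ C : ℝ, 0 < C ∧ ∀ (u : ℝ) (T : Finset (ℕ × ℕ)),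
    ∑ p ∈ T, rse_QLB_w p * Real.exp (-(max 0 (rse_QLB_n p + u) / 2)) ≤ C * (1 + |u|) := by
  obtain ⟨C, hC, h⟩ := rse_QLB_A
  refine ⟨3 * C, by positivity, ?_⟩
  intro u T
  calc ∑ p ∈ T, rse_QLB_w p * Real.exp (-(max 0 (rse_QLB_n p + u) / 2))
      ≤ ∑ p ∈ T, (rse_QLB_w p * Real.exp (-(|rse_QLB_n p + u| / 2)) +
        2 * ∑ k ∈ Finset.range (⌊|u|⌋₊ + 1),
          rse_QLB_w p * Real.exp (-(|rse_QLB_n p + (-(k : ℝ))| / 2))) := by
        apply Finset.sum_le_sum
        intro p _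
        have h1 := mul_le_mul_of_nonneg_left (rse_QLB_cover (rse_QLB_n p) u (rse_QLB_n0 p))
          (rse_QLB_w0 p)
        rw [← Finset.mul_sum]
        linarith
    _ = ∑ p ∈ T, rse_QLB_w p * Real.exp (-(|rse_QLB_n p + u| / 2)) +
        2 * ∑ k ∈ Finset.range (⌊|u|⌋₊ + 1), ∑ p ∈ T,
          rse_QLB_w p * Real.exp (-(|rse_QLB_n p + (-(k : ℝ))| / 2)) := by
        rw [Finset.sum_add_distrib, ← Finset.mul_sum, Finset.sum_comm]
    _ ≤ C + 2 * ∑ k ∈ Finset.range (⌊|u|⌋₊ + 1), C := by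
        apply add_le_add (h u T)
        apply mul_le_mul_of_nonneg_left _ (by norm_num)
        exact Finset.sum_le_sum fun k _ => h _ T
    _ = C + 2 * ((⌊|u|⌋₊ + 1 : ℕ) * C) := by simp
    _ ≤ 3 * C * (1 + |u|) := by
        have := Nat.floor_le (abs_nonneg u)
        push_cast
        have h0 := abs_nonneg u
        nlinarith

theorem rse_QLB_prod : ∃ C : ℝ, 0 < C ∧ ∀ (u : ℝ) (S T : Finset (ℕ × ℕ)),
    ∑ p ∈ S, ∑ q ∈ T, rse_QLB_w p * rse_QLB_w q * Real.exp (-|rse_QLB_n p + rse_QLB_n q + u|) ≤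
      C * (1 + |u|) := by
  obtain ⟨C1, hC1, h1⟩ := rse_QLB_A
  obtain ⟨C2, hC2, h2⟩ := rse_QLB_C
  refine ⟨C1 * C2, by positivity, ?_⟩
  intro u S T
  calc ∑ p ∈ S, ∑ q ∈ T, rse_QLB_w p * rse_QLB_w q * Real.exp (-|rse_QLB_n p + rse_QLB_n q + u|)
      ≤ ∑ p ∈ S, ∑ q ∈ T, (rse_QLB_w p * Real.exp (-(max 0 (rse_QLB_n p + u) / 2))) *
        (rse_QLB_w q * Real.exp (-(|rse_QLB_n q + (rse_QLB_n p + u)| / 2))) := by
        apply Finset.sum_le_sum
        intro p _
        apply Finset.sum_le_sum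
        intro q _
        have e1 : rse_QLB_n q + (rse_QLB_n p + u) = rse_QLB_n p + rse_QLB_n q + u := by ring
        rw [e1]
        have hz : max 0 (rse_QLB_n p + u) ≤ |rse_QLB_n p + rse_QLB_n q + u| := by
          apply max_le (abs_nonneg _)
          refine le_trans ?_ (le_abs_self _)
          linarith [rse_QLB_n0 q]
        have e2 : Real.exp (-|rse_QLB_n p + rse_QLB_n q + u|) ≤
            Real.exp (-(max 0 (rse_QLB_n p + u) / 2)) *
              Real.exp (-(|rse_QLB_n p + rse_QLB_n q + u| / 2)) := by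
          rw [← Real.exp_add]
          apply Real.exp_le_exp.2
          linarith
        have h3 := mul_le_mul_of_nonneg_left e2 (mul_nonneg (rse_QLB_w0 p) (rse_QLB_w0 q))
        calc rse_QLB_w p * rse_QLB_w q * Real.exp (-|rse_QLB_n p + rse_QLB_n q + u|) ≤ _ := h3
          _ = _ := by ring
    _ = ∑ p ∈ S, (rse_QLB_w p * Real.exp (-(max 0 (rse_QLB_n p + u) / 2))) *
        ∑ q ∈ T, (rse_QLB_w q * Real.exp (-(|rse_QLB_n q + (rse_QLB_n p + u)| / 2))) := by
        apply Finset.sum_congr rfl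
        intro p _
        rw [Finset.mul_sum]
    _ ≤ ∑ p ∈ S, (rse_QLB_w p * Real.exp (-(max 0 (rse_QLB_n p + u) / 2))) * C1 := by
        apply Finset.sum_le_sum
        intro p _
        exact mul_le_mul_of_nonneg_left (h1 _ T)
          (mul_nonneg (rse_QLB_w0 p) (Real.exp_nonneg _))
    _ = C1 * ∑ p ∈ S, (rse_QLB_w p * Real.exp (-(max 0 (rse_QLB_n p + u) / 2))) := by
        rw [← Finset.sum_mul, mul_comm]
    _ ≤ C1 * (C2 * (1 + |u|)) := mul_le_mul_of_nonneg_left (h2 u S) hC1.le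
    _ = C1 * C2 * (1 + |u|) := by ring

theorem rse_QLB_uniq {s s' a a' : ℕ} (hs : Squarefree s) (hs' : Squarefree s') (ha : 0 < a)
    (ha' : 0 < a') (h : s * a ^ 2 = s' * a' ^ 2) : s = s' ∧ a = a' := by
  have hs0 : s ≠ 0 := hs.ne_zero
  have hs0' : s' ≠ 0 := hs'.ne_zero
  have hf : ∀ p, s.factorization p + 2 * a.factorization p =
      s'.factorization p + 2 * a'.factorization p := by
    intro p
    have h1 := congrArg (fun n => n.factorization p) h
    simp only [Nat.factorization_mul hs0 (pow_ne_zero 2 ha.ne'),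
      Nat.factorization_mul hs0' (pow_ne_zero 2 ha'.ne'), Nat.factorization_pow,
      Finsupp.add_apply, Finsupp.smul_apply, smul_eq_mul] at h1
    exact h1
  have h1 : ∀ p, s.factorization p = s'.factorization p := by
    intro p
    have a1 := hs.natFactorization_le_one p
    have a2 := hs'.natFactorization_le_one p
    have := hf p
    omega
  have h2 : ∀ p, a.factorization p = a'.factorization p := by
    intro p
    have := hf p
    have := h1 p
    omega
  exact ⟨Nat.eq_of_factorization_eq hs0 hs0' h1, Nat.eq_of_factorization_eq ha.ne' ha'.ne' h2⟩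

theorem rse_QLB_nc (N : ℕ) : ∑ x ∈ N.divisorsAntidiagonal.filter (fun x => ¬ x.1.Coprime x.2),
    ArithmeticFunction.vonMangoldt x.1 * ArithmeticFunction.vonMangoldt x.2 ≤
      ArithmeticFunction.vonMangoldt N * Real.log N := by
  calc ∑ x ∈ N.divisorsAntidiagonal.filter (fun x => ¬ x.1.Coprime x.2),
        ArithmeticFunction.vonMangoldt x.1 * ArithmeticFunction.vonMangoldt x.2
      ≤ ∑ x ∈ N.divisorsAntidiagonal.filter (fun x => ¬ x.1.Coprime x.2),
        ArithmeticFunction.vonMangoldt N * ArithmeticFunction.vonMangoldt x.1 := by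
        apply Finset.sum_le_sum
        rintro ⟨x, y⟩ hx
        rw [Finset.mem_filter, Nat.mem_divisorsAntidiagonal] at hx
        obtain ⟨⟨hxy, _⟩, hc⟩ := hx
        show ArithmeticFunction.vonMangoldt x * ArithmeticFunction.vonMangoldt y ≤
          ArithmeticFunction.vonMangoldt N * ArithmeticFunction.vonMangoldt x
        have hnn := mul_nonneg (ArithmeticFunction.vonMangoldt_nonneg (n := N))
          (ArithmeticFunction.vonMangoldt_nonneg (n := x))
        by_cases h1 : ArithmeticFunction.vonMangoldt x = 0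
        · rw [h1, zero_mul, mul_zero]
        by_cases h2 : ArithmeticFunction.vonMangoldt y = 0
        · rw [h2, mul_zero]
          exact hnn
        obtain ⟨p, i, hp, hi, hpi⟩ := ArithmeticFunction.vonMangoldt_ne_zero_iff.1 h1
        obtain ⟨q, j, hq, hj, hqj⟩ := ArithmeticFunction.vonMangoldt_ne_zero_iff.1 h2
        have hp' := hp.nat_prime
        have hq' := hq.nat_prime
        have hpq : p = q := by
          by_contra hne
          apply hc
          show x.Coprime y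
          rw [← hpi, ← hqj]
          exact Nat.Coprime.pow i j ((Nat.coprime_primes hp' hq').2 hne)
        subst hpq
        have e1 : ArithmeticFunction.vonMangoldt y = ArithmeticFunction.vonMangoldt p := by
          rw [← hqj, ArithmeticFunction.vonMangoldt_apply_pow hj.ne']
        have hN : N = p ^ (i + j) := by
          rw [pow_add, hpi, hqj]
          exact hxy.symm
        have e2 : ArithmeticFunction.vonMangoldt N = ArithmeticFunction.vonMangoldt p := by
          rw [hN, ArithmeticFunction.vonMangoldt_apply_pow (by omega)]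
        rw [e1, e2, mul_comm]
    _ ≤ ∑ x ∈ N.divisorsAntidiagonal,
        ArithmeticFunction.vonMangoldt N * ArithmeticFunction.vonMangoldt x.1 :=
        Finset.sum_le_sum_of_subset_of_nonneg (Finset.filter_subset _ _) fun x _ _ =>
          mul_nonneg ArithmeticFunction.vonMangoldt_nonneg ArithmeticFunction.vonMangoldt_nonneg
    _ = ArithmeticFunction.vonMangoldt N * Real.log N := by
        rw [← Finset.mul_sum, Nat.sum_divisorsAntidiagonal
          (fun a _ => ArithmeticFunction.vonMangoldt a), ArithmeticFunction.vonMangoldt_sum]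

theorem rse_QLB_dec (n : ℕ) : ∃ p : ℕ × ℕ, 0 < n → Squarefree p.1 ∧ 0 < p.2 ∧
    p.1 * p.2 ^ 2 = n := by
  rcases Nat.eq_zero_or_pos n with h | h
  · exact ⟨(1, 1), fun h' => absurd h' (by omega)⟩
  · obtain ⟨a, b, ha, hb, hab, hsq⟩ := Nat.sq_mul_squarefree_of_pos h
    exact ⟨(a, b), fun _ => ⟨hsq, hb, by rw [mul_comm]; exact hab⟩⟩

/-- the coprime part of the term -/
noncomputable def rse_QLB_cp (u : ℝ) (p : ℕ × ℕ) (x : ℕ × ℕ) : ℝ :=
  ArithmeticFunction.vonMangoldt x.1 * ArithmeticFunction.vonMangoldt x.2 /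
    ((p.1 : ℝ) * p.2) * Real.exp (-|rse_QLB_n p + u|)

theorem rse_QLB_cop : ∃ C : ℝ, 0 < C ∧ ∀ (u : ℝ) (T : Finset (ℕ × ℕ)),
    (∀ p ∈ T, Squarefree p.1 ∧ 0 < p.2) →
    ∑ p ∈ T, ∑ x ∈ (p.1 * p.2 ^ 2).divisorsAntidiagonal.filter (fun x => x.1.Coprime x.2),
      rse_QLB_cp u p x ≤ C * (1 + |u|) := by
  classical
  obtain ⟨C, hC, h⟩ := rse_QLB_prod
  refine ⟨C, hC, ?_⟩
  intro u T hT
  choose dec hdec using rse_QLB_dec
  rw [Finset.sum_sigma']
  set Sg := T.sigma (fun p => (p.1 * p.2 ^ 2).divisorsAntidiagonal.filter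
    (fun x => x.1.Coprime x.2)) with hSg
  have hfacts : ∀ z ∈ Sg, Squarefree z.1.1 ∧ 0 < z.1.2 ∧ z.2.1 * z.2.2 = z.1.1 * z.1.2 ^ 2 ∧
      0 < z.2.1 ∧ 0 < z.2.2 ∧ (dec z.2.1).1 * (dec z.2.1).2 ^ 2 = z.2.1 ∧
      (dec z.2.2).1 * (dec z.2.2).2 ^ 2 = z.2.2 ∧ Squarefree (dec z.2.1).1 ∧
      Squarefree (dec z.2.2).1 ∧ 0 < (dec z.2.1).2 ∧ 0 < (dec z.2.2).2 ∧
      z.1.1 = (dec z.2.1).1 * (dec z.2.2).1 ∧ z.1.2 = (dec z.2.1).2 * (dec z.2.2).2 := by
    rintro ⟨p, x⟩ hz
    rw [hSg, Finset.mem_sigma, Finset.mem_filter, Nat.mem_divisorsAntidiagonal] at hz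
    obtain ⟨hp, ⟨hx, hN⟩, hc⟩ := hz
    obtain ⟨h1, h2⟩ := hT p hp
    simp only at hx hN hc ⊢
    have hx0 : x.1 * x.2 ≠ 0 := by rw [hx]; exact hN
    have hx1 : 0 < x.1 := Nat.pos_of_ne_zero (left_ne_zero_of_mul hx0)
    have hx2 : 0 < x.2 := Nat.pos_of_ne_zero (right_ne_zero_of_mul hx0)
    obtain ⟨d1, d2, d3⟩ := hdec x.1 hx1
    obtain ⟨e1, e2, e3⟩ := hdec x.2 hx2
    have hcop : ((dec x.1).1).Coprime ((dec x.2).1) :=
      Nat.Coprime.coprime_dvd_left (Dvd.intro _ d3)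
        (Nat.Coprime.coprime_dvd_right (Dvd.intro _ e3) hc)
    have hsq : Squarefree ((dec x.1).1 * (dec x.2).1) :=
      (Nat.squarefree_mul hcop).2 ⟨d1, e1⟩
    have hprod : p.1 * p.2 ^ 2 = ((dec x.1).1 * (dec x.2).1) * ((dec x.1).2 * (dec x.2).2) ^ 2 := by
      rw [← hx]
      conv_lhs => rw [← d3, ← e3]
      ring
    obtain ⟨u1, u2⟩ := rse_QLB_uniq h1 hsq h2 (Nat.mul_pos d2 e2) hprod
    exact ⟨h1, h2, hx, hx1, hx2, d3, e3, d1, e1, d2, e2, u1, u2⟩
  set φ : (Σ _ : ℕ × ℕ, ℕ × ℕ) → (ℕ × ℕ) × (ℕ × ℕ) := fun z => (dec z.2.1, dec z.2.2) with hφ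
  have hinj : Set.InjOn φ (Sg : Set (Σ _ : ℕ × ℕ, ℕ × ℕ)) := by
    rintro ⟨p, x⟩ hz ⟨p', x'⟩ hz' he
    have f1 := hfacts ⟨p, x⟩ hz
    have f2 := hfacts ⟨p', x'⟩ hz'
    simp only [hφ, Prod.mk.injEq] at he f1 f2
    obtain ⟨he1, he2⟩ := he
    obtain ⟨_, _, _, _, _, a1, a2, _, _, _, _, a3, a4⟩ := f1
    obtain ⟨_, _, _, _, _, b1, b2, _, _, _, _, b3, b4⟩ := f2
    have e1 : x.1 = x'.1 := by rw [← a1, ← b1, he1]
    have e2 : x.2 = x'.2 := by rw [← a2, ← b2, he2]
    have e3 : p.1 = p'.1 := by rw [a3, b3, he1, he2]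
    have e4 : p.2 = p'.2 := by rw [a4, b4, he1, he2]
    have e5 : p = p' := Prod.ext e3 e4
    have e6 : x = x' := Prod.ext e1 e2
    rw [e5, e6]
  have hval : ∀ z ∈ Sg, rse_QLB_cp u z.1 z.2 = rse_QLB_w (φ z).1 * rse_QLB_w (φ z).2 *
      Real.exp (-|rse_QLB_n (φ z).1 + rse_QLB_n (φ z).2 + u|) := by
    intro z hz
    obtain ⟨_, _, g0, g1, g2, a1, a2, s1, s2, t1, t2, a3, a4⟩ := hfacts z hz
    have w1 : rse_QLB_w (dec z.2.1) = ArithmeticFunction.vonMangoldt z.2.1 /
        (((dec z.2.1).1 : ℝ) * (dec z.2.1).2) := by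
      unfold rse_QLB_w
      rw [if_pos ⟨s1, t1⟩, a1]
    have w2 : rse_QLB_w (dec z.2.2) = ArithmeticFunction.vonMangoldt z.2.2 /
        (((dec z.2.2).1 : ℝ) * (dec z.2.2).2) := by
      unfold rse_QLB_w
      rw [if_pos ⟨s2, t2⟩, a2]
    have n1 : rse_QLB_n (dec z.2.1) = Real.log z.2.1 := by
      unfold rse_QLB_n
      rw [a1]
    have n2 : rse_QLB_n (dec z.2.2) = Real.log z.2.2 := by
      unfold rse_QLB_n
      rw [a2]
    have n3 : rse_QLB_n z.1 = Real.log z.2.1 + Real.log z.2.2 := by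
      unfold rse_QLB_n
      rw [← g0]
      push_cast
      rw [Real.log_mul (by positivity) (by positivity)]
    show rse_QLB_cp u z.1 z.2 = rse_QLB_w (dec z.2.1) * rse_QLB_w (dec z.2.2) *
      Real.exp (-|rse_QLB_n (dec z.2.1) + rse_QLB_n (dec z.2.2) + u|)
    unfold rse_QLB_cp
    rw [w1, w2, n1, n2, n3, a3, a4]
    push_cast
    rw [div_mul_div_comm]
    congr 2
    ring
  calc ∑ z ∈ Sg, rse_QLB_cp u z.1 z.2
      = ∑ z ∈ Sg, rse_QLB_w (φ z).1 * rse_QLB_w (φ z).2 *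
        Real.exp (-|rse_QLB_n (φ z).1 + rse_QLB_n (φ z).2 + u|) := Finset.sum_congr rfl hval
    _ = ∑ y ∈ Sg.image φ, rse_QLB_w y.1 * rse_QLB_w y.2 *
        Real.exp (-|rse_QLB_n y.1 + rse_QLB_n y.2 + u|) := by
        rw [Finset.sum_image hinj]
    _ ≤ ∑ y ∈ ((Sg.image φ).image Prod.fst) ×ˢ ((Sg.image φ).image Prod.snd),
        rse_QLB_w y.1 * rse_QLB_w y.2 *
        Real.exp (-|rse_QLB_n y.1 + rse_QLB_n y.2 + u|) := by
        apply Finset.sum_le_sum_of_subset_of_nonneg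
        · intro y hy
          rw [Finset.mem_product]
          exact ⟨Finset.mem_image_of_mem _ hy, Finset.mem_image_of_mem _ hy⟩
        · intro y _ _
          exact mul_nonneg (mul_nonneg (rse_QLB_w0 _) (rse_QLB_w0 _)) (Real.exp_nonneg _)
    _ ≤ C * (1 + |u|) := by
        rw [Finset.sum_product]
        exact h u _ _

theorem rse_QLB_log (n u : ℝ) : n * Real.exp (-|n + u|) ≤
    2 * (1 + |u|) * Real.exp (-(|n + u| / 2)) := by
  have e : Real.exp (-|n + u|) = Real.exp (-(|n + u| / 2)) * Real.exp (-(|n + u| / 2)) := by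
    rw [← Real.exp_add]
    congr 1
    ring
  rw [e]
  have h1 : n ≤ |n + u| + |u| := by
    have a1 := le_abs_self (n + u)
    have a2 := neg_abs_le u
    linarith
  have hE0 := Real.exp_pos (-(|n + u| / 2))
  have hE1 : Real.exp (-(|n + u| / 2)) ≤ 1 := by
    rw [Real.exp_le_one_iff]
    have := abs_nonneg (n + u)
    linarith
  have h2 : |n + u| * Real.exp (-(|n + u| / 2)) ≤ 2 := by
    have h3 := Real.add_one_le_exp (|n + u| / 2)
    have h4 : Real.exp (|n + u| / 2) * Real.exp (-(|n + u| / 2)) = 1 := by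
      rw [← Real.exp_add]
      simp
    nlinarith
  have h5 : n * Real.exp (-(|n + u| / 2)) ≤ 2 * (1 + |u|) := by
    have h6 : n * Real.exp (-(|n + u| / 2)) ≤ (|n + u| + |u|) * Real.exp (-(|n + u| / 2)) :=
      mul_le_mul_of_nonneg_right h1 hE0.le
    have h7 : |u| * Real.exp (-(|n + u| / 2)) ≤ |u| * 1 :=
      mul_le_mul_of_nonneg_left hE1 (abs_nonneg u)
    have := abs_nonneg u
    linarith
  calc n * (Real.exp (-(|n + u| / 2)) * Real.exp (-(|n + u| / 2)))
      = n * Real.exp (-(|n + u| / 2)) * Real.exp (-(|n + u| / 2)) := by ring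
    _ ≤ 2 * (1 + |u|) * Real.exp (-(|n + u| / 2)) := mul_le_mul_of_nonneg_right h5 hE0.le

theorem qlb_bound_pr : ∃ C : ℝ, 0 < C ∧ ∀ u : ℝ,
    Summable (fun p : ℕ × ℕ => if Squarefree p.1 ∧ 0 < p.2 then
      (ArithmeticFunction.vonMangoldt * ArithmeticFunction.vonMangoldt) (p.1 * p.2 ^ 2) /
        ((p.1 : ℝ) * p.2) *
        Real.exp (-|Real.log ((p.1 * p.2 ^ 2 : ℕ) : ℝ) + u|) else 0) ∧
    ∑' p : ℕ × ℕ, (if Squarefree p.1 ∧ 0 < p.2 then
      (ArithmeticFunction.vonMangoldt * ArithmeticFunction.vonMangoldt) (p.1 * p.2 ^ 2) /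
        ((p.1 : ℝ) * p.2) *
        Real.exp (-|Real.log ((p.1 * p.2 ^ 2 : ℕ) : ℝ) + u|) else 0) ≤ C * (1 + |u|) := by
  classical
  obtain ⟨C1, hC1, h1⟩ := rse_QLB_A
  obtain ⟨C2, hC2, h2⟩ := rse_QLB_cop
  refine ⟨2 * C1 + C2, by positivity, ?_⟩
  intro u
  set t : ℕ × ℕ → ℝ := fun p => if Squarefree p.1 ∧ 0 < p.2 then
      (ArithmeticFunction.vonMangoldt * ArithmeticFunction.vonMangoldt) (p.1 * p.2 ^ 2) /
        ((p.1 : ℝ) * p.2) *
        Real.exp (-|Real.log ((p.1 * p.2 ^ 2 : ℕ) : ℝ) + u|) else 0 with ht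
  have hconv0 : ∀ N, 0 ≤ (ArithmeticFunction.vonMangoldt * ArithmeticFunction.vonMangoldt) N := by
    intro N
    rw [ArithmeticFunction.mul_apply]
    exact Finset.sum_nonneg fun x _ =>
      mul_nonneg ArithmeticFunction.vonMangoldt_nonneg ArithmeticFunction.vonMangoldt_nonneg
  have t0 : ∀ p, 0 ≤ t p := by
    intro p
    simp only [ht]
    split_ifs
    · have := hconv0 (p.1 * p.2 ^ 2)
      positivity
    · exact le_rfl
  have hfin : ∀ T : Finset (ℕ × ℕ), ∑ p ∈ T, t p ≤ (2 * C1 + C2) * (1 + |u|) := by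
    intro T
    set U := T.filter (fun p => Squarefree p.1 ∧ 0 < p.2) with hU
    have e1 : ∑ p ∈ T, t p = ∑ p ∈ U, t p := by
      rw [hU, Finset.sum_filter]
      apply Finset.sum_congr rfl
      intro p _
      by_cases hp : Squarefree p.1 ∧ 0 < p.2
      · rw [if_pos hp]
      · rw [if_neg hp]
        simp only [ht, if_neg hp]
    have hUp : ∀ p ∈ U, Squarefree p.1 ∧ 0 < p.2 := by
      intro p hp
      rw [hU, Finset.mem_filter] at hp
      exact hp.2
    rw [e1]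
    calc ∑ p ∈ U, t p ≤ ∑ p ∈ U, (2 * (1 + |u|) * (rse_QLB_w p *
          Real.exp (-(|rse_QLB_n p + u| / 2))) +
          ∑ x ∈ (p.1 * p.2 ^ 2).divisorsAntidiagonal.filter (fun x => x.1.Coprime x.2),
            rse_QLB_cp u p x) := by
          apply Finset.sum_le_sum
          intro p hp
          have hp' := hUp p hp
          have hs0 : 0 < p.1 := Nat.pos_of_ne_zero hp'.1.ne_zero
          have hd : (0 : ℝ) < (p.1 : ℝ) * p.2 := by
            have := hp'.2
            positivity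
          have e2 : t p = (ArithmeticFunction.vonMangoldt * ArithmeticFunction.vonMangoldt)
              (p.1 * p.2 ^ 2) / ((p.1 : ℝ) * p.2) * Real.exp (-|rse_QLB_n p + u|) := by
            simp only [ht, if_pos hp']
            rfl
          have e3 : (ArithmeticFunction.vonMangoldt * ArithmeticFunction.vonMangoldt)
              (p.1 * p.2 ^ 2) =
              ∑ x ∈ (p.1 * p.2 ^ 2).divisorsAntidiagonal.filter (fun x => x.1.Coprime x.2),
                ArithmeticFunction.vonMangoldt x.1 * ArithmeticFunction.vonMangoldt x.2 +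
              ∑ x ∈ (p.1 * p.2 ^ 2).divisorsAntidiagonal.filter (fun x => ¬ x.1.Coprime x.2),
                ArithmeticFunction.vonMangoldt x.1 * ArithmeticFunction.vonMangoldt x.2 := by
            rw [ArithmeticFunction.mul_apply, Finset.sum_filter_add_sum_filter_not]
          have e4 : ∑ x ∈ (p.1 * p.2 ^ 2).divisorsAntidiagonal.filter (fun x => x.1.Coprime x.2),
              rse_QLB_cp u p x =
              (∑ x ∈ (p.1 * p.2 ^ 2).divisorsAntidiagonal.filter (fun x => x.1.Coprime x.2),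
                ArithmeticFunction.vonMangoldt x.1 * ArithmeticFunction.vonMangoldt x.2) /
                ((p.1 : ℝ) * p.2) * Real.exp (-|rse_QLB_n p + u|) := by
            rw [Finset.sum_div, Finset.sum_mul]
            rfl
          rw [e2, e3, e4, add_div, add_mul, add_comm]
          apply add_le_add _ le_rfl
          have hw : rse_QLB_w p = ArithmeticFunction.vonMangoldt (p.1 * p.2 ^ 2) /
              ((p.1 : ℝ) * p.2) := by
            unfold rse_QLB_w
            rw [if_pos hp']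
          have h3 := rse_QLB_nc (p.1 * p.2 ^ 2)
          have h4 := rse_QLB_log (rse_QLB_n p) u
          calc (∑ x ∈ (p.1 * p.2 ^ 2).divisorsAntidiagonal.filter (fun x => ¬ x.1.Coprime x.2),
                ArithmeticFunction.vonMangoldt x.1 * ArithmeticFunction.vonMangoldt x.2) /
                ((p.1 : ℝ) * p.2) * Real.exp (-|rse_QLB_n p + u|)
              ≤ (ArithmeticFunction.vonMangoldt (p.1 * p.2 ^ 2) * rse_QLB_n p) /
                ((p.1 : ℝ) * p.2) * Real.exp (-|rse_QLB_n p + u|) := by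
                apply mul_le_mul_of_nonneg_right _ (Real.exp_nonneg _)
                exact div_le_div_of_nonneg_right h3 hd.le
            _ = rse_QLB_w p * (rse_QLB_n p * Real.exp (-|rse_QLB_n p + u|)) := by
                rw [hw]
                ring
            _ ≤ rse_QLB_w p * (2 * (1 + |u|) * Real.exp (-(|rse_QLB_n p + u| / 2))) :=
                mul_le_mul_of_nonneg_left h4 (rse_QLB_w0 p)
            _ = 2 * (1 + |u|) * (rse_QLB_w p * Real.exp (-(|rse_QLB_n p + u| / 2))) := by ring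
      _ = 2 * (1 + |u|) * ∑ p ∈ U, (rse_QLB_w p * Real.exp (-(|rse_QLB_n p + u| / 2))) +
          ∑ p ∈ U, ∑ x ∈ (p.1 * p.2 ^ 2).divisorsAntidiagonal.filter (fun x => x.1.Coprime x.2),
            rse_QLB_cp u p x := by
          rw [Finset.sum_add_distrib, Finset.mul_sum]
      _ ≤ 2 * (1 + |u|) * C1 + C2 * (1 + |u|) := by
          apply add_le_add _ (h2 u U hUp)
          apply mul_le_mul_of_nonneg_left (h1 u U)
          have := abs_nonneg u
          positivity
      _ = (2 * C1 + C2) * (1 + |u|) := by ring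
  have hsum : Summable t := summable_of_sum_le t0 hfin
  exact ⟨hsum, hsum.tsum_le_of_sum_le hfin⟩

end Pool.Agent.RSE

namespace Pool.Agent.RSE

alias qlb_bound := qlb_bound_pr

end Pool.Agent.RSE
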