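import Pool.Agent.Lib_helper39.RSE.Defs
import Pool.Agent.Lib_helper39.RSA.DefsB
import Pool.Agent.Lib_helper24.ABS.Endgame
import Pool.Agent.Lib_helper39.RSA.BNS
import Pool.Agent.Lib_helper39.RSA.QLA
import Pool.Agent.Lib_helper39.RSA.QLB
import Pool.Agent.Lib_helper39.RSA.SUMG
/-!
# RSE block QB (cites BNS, QLA, QLB, SUMG)
-/

namespace Pool.Agent.RSE

open Complex MeasureTheory Filter Topology
open Pool.Agent.RC (cc psi rv f0 IsRC Good gm pr DD)
open scoped ContDiff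

theorem rse_qb_ex (n : ℕ) : ∃ q : ℕ × ℕ, 0 < n → 0 < q.1 ∧ 0 < q.2 ∧ q.1 * q.2 ^ 2 = n ∧
    Squarefree q.1 := by
  by_cases hn : 0 < n
  · obtain ⟨a, b, h1, h2, h3, h4⟩ := Nat.sq_mul_squarefree_of_pos hn
    exact ⟨(a, b), fun _ => ⟨h1, h2, by rw [← h3, mul_comm], h4⟩⟩
  · exact ⟨(0, 0), fun h => absurd h hn⟩

/-- The squarefree kernel and the square factor. -/
noncomputable def rse_qb_d (n : ℕ) : ℕ × ℕ := (rse_qb_ex n).choose

theorem rse_qb_d_spec {n : ℕ} (hn : 0 < n) : 0 < (rse_qb_d n).1 ∧ 0 < (rse_qb_d n).2 ∧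
    (rse_qb_d n).1 * (rse_qb_d n).2 ^ 2 = n ∧ Squarefree (rse_qb_d n).1 :=
  (rse_qb_ex n).choose_spec hn

theorem rse_qb_sqmul {a b : ℕ} (hb : 0 < b) (h : IsSquare (b ^ 2 * a)) : IsSquare a := by
  obtain ⟨c, hc⟩ := h
  have h1 : b ^ 2 ∣ c ^ 2 := ⟨a, by rw [hc]; ring⟩
  obtain ⟨d, rfl⟩ := (Nat.pow_dvd_pow_iff two_ne_zero).mp h1
  refine ⟨d, ?_⟩
  have : b ^ 2 * a = b ^ 2 * (d * d) := by rw [hc]; ring
  exact Nat.eq_of_mul_eq_mul_left (by positivity) this

theorem rse_qb_sqf {a b c : ℕ} (ha : Squarefree a) (hb : Squarefree b) (h : a * b = c * c) :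
    a = b := by
  have ha0 : 0 < a := Nat.pos_of_ne_zero ha.ne_zero
  have hb0 : 0 < b := Nat.pos_of_ne_zero hb.ne_zero
  have key : ∀ {x y : ℕ}, Squarefree x → 0 < x → x * y = c * c → x ∣ y := by
    intro x y hx hx0 hxy
    have h1 : x ∣ c ^ 2 := ⟨y, by rw [pow_two, ← hxy]⟩
    obtain ⟨d, hd⟩ := (hx.dvd_pow_iff_dvd two_ne_zero).mp h1
    refine ⟨d * d, ?_⟩
    have : x * y = x * (x * (d * d)) := by rw [hxy, hd]; ring
    exact Nat.eq_of_mul_eq_mul_left hx0 this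
  exact Nat.dvd_antisymm (key ha ha0 h) (key hb hb0 (by rw [mul_comm, h]))

theorem rse_qb_eq {N N' : ℕ} (h : 0 < N) (h' : 0 < N') (hs : IsSquare (N * N')) :
    (rse_qb_d N).1 = (rse_qb_d N').1 := by
  obtain ⟨a1, a2, a3, a4⟩ := rse_qb_d_spec h
  obtain ⟨b1, b2, b3, b4⟩ := rse_qb_d_spec h'
  have s3 : IsSquare (((rse_qb_d N).2 * (rse_qb_d N').2) ^ 2 *
      ((rse_qb_d N).1 * (rse_qb_d N').1)) := by
    have e : ((rse_qb_d N).2 * (rse_qb_d N').2) ^ 2 *
      ((rse_qb_d N).1 * (rse_qb_d N').1) = N * N' := by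
      calc _ = ((rse_qb_d N).1 * (rse_qb_d N).2 ^ 2) *
          ((rse_qb_d N').1 * (rse_qb_d N').2 ^ 2) := by ring
        _ = _ := by rw [a3, b3]
    rwa [e]
  obtain ⟨c, hc⟩ := rse_qb_sqmul (by positivity) s3
  exact rse_qb_sqf a4 b4 hc

theorem rse_qb_abs (W : ℕ × ℕ → ℝ) (k : ℕ → ℕ → ℝ) (hW : ∀ p, 0 ≤ W p)
    (hk : ∀ s b, 0 ≤ k s b) (hWs : Summable W) {C : ℝ}
    (hC : ∀ s, ∀ B : Finset ℕ, ∑ b ∈ B, k s b ≤ C)
    (G : ℕ × ℕ → ℝ) (hG : ∀ p, 0 ≤ G p)
    (h0 : ∀ p : ℕ × ℕ, ¬ (0 < p.1 ∧ 0 < p.2 ∧ IsSquare (p.1 * p.2)) → G p = 0)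
    (h1 : ∀ s a b : ℕ, Squarefree s → 0 < s → 0 < a → 0 < b →
      G (s * a ^ 2, s * b ^ 2) ≤ W (s, a) * k s b) :
    Summable G ∧ ∑' p, G p ≤ C * ∑' p, W p := by
  classical
  have hC0 : 0 ≤ C := by simpa using hC 0 ∅
  have hfin : ∀ U : Finset (ℕ × ℕ), ∑ p ∈ U, G p ≤ C * ∑' p, W p := by
    intro U
    set U' := U.filter fun p : ℕ × ℕ => 0 < p.1 ∧ 0 < p.2 ∧ IsSquare (p.1 * p.2) with hU'
    have e1 : ∑ p ∈ U, G p = ∑ p ∈ U', G p := by
      rw [hU', Finset.sum_filter]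
      refine Finset.sum_congr rfl fun p _ => ?_
      split_ifs with h
      · rfl
      · exact h0 p h
    set e : ℕ × ℕ → (ℕ × ℕ) × ℕ := fun p => (rse_qb_d p.1, (rse_qb_d p.2).2) with he
    have hinj : Set.InjOn e U' := by
      intro p hp q hq hpq
      simp only [hU', Finset.coe_filter, Set.mem_setOf_eq] at hp hq
      obtain ⟨_, p1, p2, p3⟩ := hp
      obtain ⟨_, q1, q2, q3⟩ := hq
      simp only [he, Prod.mk.injEq] at hpq
      obtain ⟨x1, x2⟩ := hpq
      have ep := rse_qb_eq p1 p2 p3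
      have eq := rse_qb_eq q1 q2 q3
      have a3 := (rse_qb_d_spec p1).2.2.1
      have b3 := (rse_qb_d_spec p2).2.2.1
      have c3 := (rse_qb_d_spec q1).2.2.1
      have d3 := (rse_qb_d_spec q2).2.2.1
      refine Prod.ext ?_ ?_
      · rw [← a3, ← c3, x1]
      · rw [← b3, ← d3, ← ep, ← eq, x1, x2]
    have e2 : ∑ p ∈ U', G p ≤ ∑ p ∈ U', W (e p).1 * k (e p).1.1 (e p).2 := by
      refine Finset.sum_le_sum fun p hp => ?_
      simp only [hU', Finset.mem_filter] at hp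
      obtain ⟨_, p1, p2, p3⟩ := hp
      obtain ⟨a1, a2, a3, a4⟩ := rse_qb_d_spec p1
      obtain ⟨b1, b2, b3, b4⟩ := rse_qb_d_spec p2
      have ep := rse_qb_eq p1 p2 p3
      have := h1 _ _ _ a4 a1 a2 b2
      rw [a3] at this
      rw [ep, b3, ← ep] at this
      simpa [he] using this
    have e3 : ∑ p ∈ U', W (e p).1 * k (e p).1.1 (e p).2 =
        ∑ t ∈ U'.image e, W t.1 * k t.1.1 t.2 := by
      rw [Finset.sum_image hinj]
    have e4 : ∑ t ∈ U'.image e, W t.1 * k t.1.1 t.2 ≤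
        ∑ t ∈ ((U'.image e).image Prod.fst) ×ˢ ((U'.image e).image Prod.snd),
          W t.1 * k t.1.1 t.2 := by
      refine Finset.sum_le_sum_of_subset_of_nonneg ?_
        (fun t _ _ => mul_nonneg (hW _) (hk _ _))
      intro t ht
      exact Finset.mem_product.mpr ⟨Finset.mem_image_of_mem _ ht, Finset.mem_image_of_mem _ ht⟩
    have e5 : ∑ t ∈ ((U'.image e).image Prod.fst) ×ˢ ((U'.image e).image Prod.snd),
          W t.1 * k t.1.1 t.2 ≤ ∑ x ∈ (U'.image e).image Prod.fst, C * W x := by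
      rw [Finset.sum_product]
      refine Finset.sum_le_sum fun x _ => ?_
      have e6 : ∑ y ∈ (U'.image e).image Prod.snd, W (x, y).1 * k (x, y).1.1 (x, y).2 =
          (∑ y ∈ (U'.image e).image Prod.snd, k x.1 y) * W x := by
        rw [Finset.sum_mul]
        exact Finset.sum_congr rfl fun y _ => mul_comm _ _
      rw [e6]
      exact mul_le_mul_of_nonneg_right (hC _ _) (hW _)
    rw [e1]
    refine e2.trans (e3.trans_le (e4.trans (e5.trans ?_)))
    rw [← Finset.mul_sum]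
    exact mul_le_mul_of_nonneg_left (hWs.sum_le_tsum _ fun x _ => hW x) hC0
  have hs : Summable G := summable_of_sum_le hG hfin
  exact ⟨hs, hs.tsum_le_of_sum_le hfin⟩

/-- `b_S(N)`. -/
noncomputable def rse_qb_b (L : ℝ) (N : ℕ) : ℝ :=
  ArithmeticFunction.vonMangoldt N / L +
    (ArithmeticFunction.vonMangoldt * ArithmeticFunction.vonMangoldt) N / (4 * L ^ 2)

theorem rse_qb_ll_nonneg (N : ℕ) :
    0 ≤ (ArithmeticFunction.vonMangoldt * ArithmeticFunction.vonMangoldt) N := by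
  rw [ArithmeticFunction.mul_apply]
  exact Finset.sum_nonneg fun x _ => mul_nonneg ArithmeticFunction.vonMangoldt_nonneg
    ArithmeticFunction.vonMangoldt_nonneg

theorem rse_qb_ll_le (N : ℕ) :
    (ArithmeticFunction.vonMangoldt * ArithmeticFunction.vonMangoldt) N ≤ Real.log N ^ 2 := by
  rw [ArithmeticFunction.mul_apply]
  rcases Nat.eq_zero_or_pos N with h | h
  · subst h; simp
  calc ∑ x ∈ N.divisorsAntidiagonal, ArithmeticFunction.vonMangoldt x.1 *
      ArithmeticFunction.vonMangoldt x.2 ≤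
      ∑ x ∈ N.divisorsAntidiagonal, ArithmeticFunction.vonMangoldt x.1 * Real.log N := by
        refine Finset.sum_le_sum fun x hx => ?_
        refine mul_le_mul_of_nonneg_left ?_ ArithmeticFunction.vonMangoldt_nonneg
        refine ArithmeticFunction.vonMangoldt_le_log.trans ?_
        have hx2 : x.2 ∣ N := Nat.snd_mem_divisors_of_mem_antidiagonal hx |> Nat.dvd_of_mem_divisors
        have hp : 0 < x.2 := Nat.pos_of_dvd_of_pos hx2 h
        exact Real.log_le_log (by exact_mod_cast hp) (by exact_mod_cast Nat.le_of_dvd h hx2)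
    _ = (∑ i ∈ N.divisors, ArithmeticFunction.vonMangoldt i) * Real.log N := by
        rw [← Finset.sum_mul, Nat.sum_divisorsAntidiagonal
          (f := fun i _ => ArithmeticFunction.vonMangoldt i)]
    _ = _ := by rw [ArithmeticFunction.vonMangoldt_sum, pow_two]

theorem rse_qb_b_nonneg {L : ℝ} (hL : 1 ≤ L) (N : ℕ) : 0 ≤ rse_qb_b L N := by
  unfold rse_qb_b
  have h1 : 0 ≤ ArithmeticFunction.vonMangoldt N := ArithmeticFunction.vonMangoldt_nonneg
  have h2 := rse_qb_ll_nonneg N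
  positivity

theorem rse_qb_b_le {L : ℝ} (hL : 1 ≤ L) {N : ℕ} (hN : 0 < N) (h : Real.log N ≤ L / 2) :
    rse_qb_b L N ≤ 1 := by
  unfold rse_qb_b
  have h1 : ArithmeticFunction.vonMangoldt N ≤ Real.log N :=
    ArithmeticFunction.vonMangoldt_le_log
  have h2 := rse_qb_ll_le N
  have h0 : 0 ≤ Real.log N := Real.log_nonneg (by exact_mod_cast hN)
  have h3 : Real.log N ^ 2 ≤ (L / 2) ^ 2 := pow_le_pow_left₀ h0 h 2
  have hL0 : 0 < L := by linarith
  have h4 : ArithmeticFunction.vonMangoldt N / L ≤ 1 / 2 := by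
    rw [div_le_iff₀ hL0]; linarith
  have h5 : (ArithmeticFunction.vonMangoldt * ArithmeticFunction.vonMangoldt) N / (4 * L ^ 2) ≤
      1 / 2 := by
    rw [div_le_iff₀ (by positivity)]; nlinarith [sq_nonneg L]
  linarith

theorem rse_qb_gabs {g : ℝ → ℝ} (hg : Fast g) : ∃ C : ℝ, 0 < C ∧
    ∀ z : ℝ, |g z| ≤ C * Real.exp (-|z|) := by
  obtain ⟨C1, h1⟩ := hg 1 (by norm_num)
  obtain ⟨C2, h2⟩ := hg (-1) (le_refl _)
  refine ⟨max (max C1 C2) 1, by positivity, fun z => ?_⟩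
  rcases le_total 0 z with hz | hz
  · rw [abs_of_nonneg hz]
    refine (h1 z).trans ?_
    rw [show -1 * z = -z by ring]
    exact mul_le_mul_of_nonneg_right ((le_max_left _ _).trans (le_max_left _ _))
      (Real.exp_pos _).le
  · rw [abs_of_nonpos hz]
    refine (h2 z).trans ?_
    rw [show - -1 * z = - -z by ring]
    exact mul_le_mul_of_nonneg_right ((le_max_right _ _).trans (le_max_left _ _))
      (Real.exp_pos _).le

theorem rse_qb_kern {g : ℝ → ℝ} (hg : Fast g) : ∃ C : ℝ, 0 < C ∧ ∀ x : ℝ, ∀ B : Finset ℕ,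
    ∑ b ∈ B, (if 0 < b then (1 : ℝ) / b * |g (2 * Real.log b + x)| else 0) ≤ C := by
  have hh : Fast (fun z => g (2 * z)) := by
    intro A hA
    obtain ⟨C, hC⟩ := hg (A / 2) (by linarith)
    refine ⟨C, fun z => (hC (2 * z)).trans (le_of_eq ?_)⟩
    congr 2
    ring
  obtain ⟨C, hC0, hC⟩ := fast_sum hh le_rfl
  refine ⟨C, hC0, fun x B => ?_⟩
  obtain ⟨hs, ht⟩ := hC (x / 2)
  have e : (fun n : ℕ => if 0 < n then (n : ℝ) ^ ((0 : ℝ) - 1) *
      |(fun z => g (2 * z)) (Real.log n + x / 2)| else 0) =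
      fun b : ℕ => if 0 < b then (1 : ℝ) / b * |g (2 * Real.log b + x)| else 0 := by
    funext n
    split_ifs with hn
    · rw [show (0 : ℝ) - 1 = -1 by ring, Real.rpow_neg_one, one_div]
      congr 3
      ring
    · rfl
  rw [e] at hs ht
  refine (hs.sum_le_tsum B fun b _ => ?_).trans (ht.trans (by simp))
  split_ifs <;> positivity

/-- Crude bound of one factor. -/
theorem rse_qb_crude {g Θ : ℝ → ℝ} (hg : Fast g) (hΘ : Cut Θ) : ∃ C : ℝ, 0 < C ∧
    ∀ L u : ℝ, 1 ≤ L → -(L / 8) ≤ u → ∀ N : ℕ, 0 < N →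
    |bN Θ L N| * |g (Real.log N + u)| ≤ C * Real.exp (L / 2) * (1 / (N : ℝ) ^ 2) ∧
    (L / 2 < Real.log N →
      |bN Θ L N| * |g (Real.log N + u)| ≤ C * Real.exp (-L) * (1 / (N : ℝ) ^ 2)) := by
  obtain ⟨C4, h4⟩ := hg 4 (by norm_num)
  obtain ⟨C8, h8⟩ := hg 8 (by norm_num)
  refine ⟨max (max C4 C8) 1, by positivity, fun L u hL hu N hN => ?_⟩
  have hN0 : (0 : ℝ) < N := by exact_mod_cast hN
  have hb := bn_crude hΘ L hN
  set x := Real.log N with hx
  have hNx : (N : ℝ) = Real.exp x := (Real.exp_log hN0).symm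
  have hx0 : 0 ≤ x := Real.log_nonneg (by exact_mod_cast hN)
  have hN2 : (N : ℝ) ^ 2 = Real.exp (2 * x) := by
    rw [hNx, ← Real.exp_nat_mul]; norm_num
  have hN2' : 1 / (N : ℝ) ^ 2 = Real.exp (-(2 * x)) := by
    rw [hN2, Real.exp_neg, one_div]
  rw [hN2] at hb
  rw [hN2']
  have hm : 0 ≤ max (max C4 C8) 1 := by positivity
  constructor
  · calc |bN Θ L N| * |g (x + u)| ≤
        Real.exp (2 * x) * (max (max C4 C8) 1 * Real.exp (-4 * (x + u))) := by
          refine mul_le_mul hb ((h4 _).trans ?_) (abs_nonneg _) (Real.exp_pos _).le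
          exact mul_le_mul_of_nonneg_right ((le_max_left _ _).trans (le_max_left _ _))
            (Real.exp_pos _).le
      _ = max (max C4 C8) 1 * Real.exp (2 * x + -4 * (x + u)) := by
          rw [Real.exp_add]; ring
      _ ≤ max (max C4 C8) 1 * Real.exp (L / 2 + -(2 * x)) := by
          refine mul_le_mul_of_nonneg_left (Real.exp_le_exp.mpr ?_) hm
          linarith
      _ = _ := by rw [Real.exp_add]; ring
  · intro hlarge
    calc |bN Θ L N| * |g (x + u)| ≤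
        Real.exp (2 * x) * (max (max C4 C8) 1 * Real.exp (-8 * (x + u))) := by
          refine mul_le_mul hb ((h8 _).trans ?_) (abs_nonneg _) (Real.exp_pos _).le
          exact mul_le_mul_of_nonneg_right ((le_max_right _ _).trans (le_max_left _ _))
            (Real.exp_pos _).le
      _ = max (max C4 C8) 1 * Real.exp (2 * x + -8 * (x + u)) := by
          rw [Real.exp_add]; ring
      _ ≤ max (max C4 C8) 1 * Real.exp (-L + -(2 * x)) := by
          refine mul_le_mul_of_nonneg_left (Real.exp_le_exp.mpr ?_) hm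
          linarith
      _ = _ := by rw [Real.exp_add]; ring

theorem rse_qb_W {C0 : ℝ} (hC0 : 0 < C0) : ∃ C : ℝ, 0 < C ∧ ∀ L v : ℝ, 1 ≤ L → |v| ≤ L / 8 →
    Summable (fun p : ℕ × ℕ => if Squarefree p.1 ∧ 0 < p.2 then
      rse_qb_b L (p.1 * p.2 ^ 2) / ((p.1 : ℝ) * p.2) *
        (C0 * Real.exp (-|Real.log ((p.1 * p.2 ^ 2 : ℕ) : ℝ) + v|)) else 0) ∧
    ∑' p : ℕ × ℕ, (if Squarefree p.1 ∧ 0 < p.2 then
      rse_qb_b L (p.1 * p.2 ^ 2) / ((p.1 : ℝ) * p.2) *
        (C0 * Real.exp (-|Real.log ((p.1 * p.2 ^ 2 : ℕ) : ℝ) + v|)) else 0) ≤ C / L := by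
  obtain ⟨CA, hA0, hA⟩ := qla_bound
  obtain ⟨CB, hB0, hB⟩ := qlb_bound
  refine ⟨C0 * (CA + CB), by positivity, fun L v hL hv => ?_⟩
  obtain ⟨sA, tA⟩ := hA v
  obtain ⟨sB, tB⟩ := hB v
  set qA : ℕ × ℕ → ℝ := fun p => if Squarefree p.1 ∧ 0 < p.2 then
      ArithmeticFunction.vonMangoldt (p.1 * p.2 ^ 2) / ((p.1 : ℝ) * p.2) *
        Real.exp (-(|Real.log ((p.1 * p.2 ^ 2 : ℕ) : ℝ) + v| / 2)) else 0 with hqA
  set qB : ℕ × ℕ → ℝ := fun p => if Squarefree p.1 ∧ 0 < p.2 then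
      (ArithmeticFunction.vonMangoldt * ArithmeticFunction.vonMangoldt) (p.1 * p.2 ^ 2) /
        ((p.1 : ℝ) * p.2) *
        Real.exp (-|Real.log ((p.1 * p.2 ^ 2 : ℕ) : ℝ) + v|) else 0 with hqB
  set qW : ℕ × ℕ → ℝ := fun p => if Squarefree p.1 ∧ 0 < p.2 then
      rse_qb_b L (p.1 * p.2 ^ 2) / ((p.1 : ℝ) * p.2) *
        (C0 * Real.exp (-|Real.log ((p.1 * p.2 ^ 2 : ℕ) : ℝ) + v|)) else 0 with hqW
  have hL0 : 0 < L := by linarith
  have hW0 : ∀ p, 0 ≤ qW p := by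
    intro p
    simp only [hqW]
    split_ifs with h
    · have := rse_qb_b_nonneg hL (p.1 * p.2 ^ 2)
      positivity
    · exact le_rfl
  have hle : ∀ p, qW p ≤ C0 / L * qA p + C0 / (4 * L ^ 2) * qB p := by
    intro p
    simp only [hqW, hqA, hqB]
    split_ifs with h
    · unfold rse_qb_b
      have h1 : 0 ≤ ArithmeticFunction.vonMangoldt (p.1 * p.2 ^ 2) :=
        ArithmeticFunction.vonMangoldt_nonneg
      have h2 : Real.exp (-|Real.log ((p.1 * p.2 ^ 2 : ℕ) : ℝ) + v|) ≤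
          Real.exp (-(|Real.log ((p.1 * p.2 ^ 2 : ℕ) : ℝ) + v| / 2)) := by
        refine Real.exp_le_exp.mpr ?_
        linarith [abs_nonneg (Real.log ((p.1 * p.2 ^ 2 : ℕ) : ℝ) + v)]
      set E := Real.exp (-|Real.log ((p.1 * p.2 ^ 2 : ℕ) : ℝ) + v|)
      set E' := Real.exp (-(|Real.log ((p.1 * p.2 ^ 2 : ℕ) : ℝ) + v| / 2))
      set l1 := ArithmeticFunction.vonMangoldt (p.1 * p.2 ^ 2)
      set l2 := (ArithmeticFunction.vonMangoldt * ArithmeticFunction.vonMangoldt)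
        (p.1 * p.2 ^ 2)
      calc (l1 / L + l2 / (4 * L ^ 2)) / ((p.1 : ℝ) * p.2) * (C0 * E) =
          C0 / L * (l1 / ((p.1 : ℝ) * p.2) * E) +
            C0 / (4 * L ^ 2) * (l2 / ((p.1 : ℝ) * p.2) * E) := by ring
        _ ≤ _ := by gcongr
    · simp
  have hsum : Summable fun p => C0 / L * qA p + C0 / (4 * L ^ 2) * qB p :=
    (sA.mul_left _).add (sB.mul_left _)
  have hWs : Summable qW := hsum.of_nonneg_of_le hW0 hle
  refine ⟨hWs, (hWs.tsum_le_tsum hle hsum).trans ?_⟩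
  rw [(sA.mul_left _).tsum_add (sB.mul_left _), tsum_mul_left, tsum_mul_left]
  have h1 : C0 / L * ∑' p, qA p ≤ C0 / L * CA := mul_le_mul_of_nonneg_left tA (by positivity)
  have h2 : C0 / (4 * L ^ 2) * ∑' p, qB p ≤ C0 / (4 * L ^ 2) * (CB * (4 * L)) := by
    refine mul_le_mul_of_nonneg_left (tB.trans ?_) (by positivity)
    refine mul_le_mul_of_nonneg_left ?_ hB0.le
    linarith
  refine (add_le_add h1 h2).trans (le_of_eq ?_)
  field_simp

theorem qb_bound_pr {g Θ : ℝ → ℝ} (hg : Kern g) (hΘ : Cut Θ) : ∃ C : ℝ, 0 < C ∧ ∀ L u : ℝ, 1 ≤ L →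
    -(L / 8) ≤ u →
    Summable (fun p : ℕ × ℕ => if Odd p.1 ∧ Odd p.2 ∧ 3 ≤ p.1 ∧ 3 ≤ p.2 ∧
      IsSquare (p.1 * p.2) then |bN Θ L p.1 * bN Θ L p.2| / √((p.1 : ℝ) * p.2) *
        |g (Real.log p.1 + u) * g (Real.log p.2 + u)| else 0) ∧
    ∑' p : ℕ × ℕ, (if Odd p.1 ∧ Odd p.2 ∧ 3 ≤ p.1 ∧ 3 ≤ p.2 ∧
      IsSquare (p.1 * p.2) then |bN Θ L p.1 * bN Θ L p.2| / √((p.1 : ℝ) * p.2) *
        |g (Real.log p.1 + u) * g (Real.log p.2 + u)| else 0) ≤ C / L := by
  classical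
  have hgf : Fast g := by simpa using hg.fast 0
  obtain ⟨C0, hC0, hg0⟩ := rse_qb_gabs hgf
  obtain ⟨C1, hC1, hk⟩ := rse_qb_kern hgf
  obtain ⟨C2, hC2, hcr⟩ := rse_qb_crude hgf hΘ
  obtain ⟨C3, hC3, hW⟩ := rse_qb_W hC0
  have hz : Summable (fun n : ℕ => 1 / (n : ℝ) ^ 2) := Real.summable_one_div_nat_pow.mpr
    (by norm_num)
  have hz0 : ∀ n : ℕ, 0 ≤ 1 / (n : ℝ) ^ 2 := fun n => by positivity
  have hzz : Summable (fun p : ℕ × ℕ => 1 / (p.1 : ℝ) ^ 2 * (1 / (p.2 : ℝ) ^ 2)) :=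
    hz.mul_of_nonneg hz hz0 hz0
  set Z := ∑' p : ℕ × ℕ, 1 / (p.1 : ℝ) ^ 2 * (1 / (p.2 : ℝ) ^ 2) with hZ
  have hZ0 : 0 ≤ Z := tsum_nonneg fun p => mul_nonneg (hz0 _) (hz0 _)
  refine ⟨C1 * C3 + 2 * C2 ^ 2 * Z, by positivity, fun L u hL hu => ?_⟩
  have hL0 : 0 < L := by linarith
  set v := min u 0 with hv
  have hv1 : |v| ≤ L / 8 := by
    rw [hv, abs_le]
    constructor
    · exact le_min (by linarith) (by linarith)
    · exact (min_le_right _ _).trans (by linarith)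
  obtain ⟨sW, tW⟩ := hW L v hL hv1
  set qW : ℕ × ℕ → ℝ := fun p => if Squarefree p.1 ∧ 0 < p.2 then
      rse_qb_b L (p.1 * p.2 ^ 2) / ((p.1 : ℝ) * p.2) *
        (C0 * Real.exp (-|Real.log ((p.1 * p.2 ^ 2 : ℕ) : ℝ) + v|)) else 0 with hqW
  have hW0 : ∀ p, 0 ≤ qW p := by
    intro p
    simp only [hqW]
    split_ifs with h
    · have := rse_qb_b_nonneg hL (p.1 * p.2 ^ 2)
      positivity
    · exact le_rfl
  set G : ℕ × ℕ → ℝ := fun p => if 0 < p.1 ∧ 0 < p.2 ∧ IsSquare (p.1 * p.2) then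
    rse_qb_b L p.1 / √((p.1 : ℝ) * p.2) * (|g (Real.log p.1 + u)| * |g (Real.log p.2 + u)|)
    else 0 with hGd
  have hG0 : ∀ p, 0 ≤ G p := by
    intro p
    simp only [hGd]
    split_ifs with h
    · have := rse_qb_b_nonneg hL p.1
      positivity
    · exact le_rfl
  obtain ⟨sG, tG⟩ := rse_qb_abs qW
    (fun s b => if 0 < b then (1 : ℝ) / b * |g (2 * Real.log b + (Real.log s + u))| else 0)
    hW0 (fun s b => by split_ifs <;> positivity) sW
    (fun s B => hk (Real.log s + u) B) G hG0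
    (fun p hp => by simp only [hGd]; rw [if_neg hp])
    (by
      intro s a b hs hs0 ha hb
      have hs' : (0 : ℝ) < s := by exact_mod_cast hs0
      have ha' : (0 : ℝ) < a := by exact_mod_cast ha
      have hb' : (0 : ℝ) < b := by exact_mod_cast hb
      have hsa : 0 < s * a ^ 2 := by positivity
      have hsb : 0 < s * b ^ 2 := by positivity
      have hsq : IsSquare (s * a ^ 2 * (s * b ^ 2)) := ⟨s * a * b, by ring⟩
      simp only [hGd, hqW]
      rw [if_pos ⟨hsa, hsb, hsq⟩, if_pos ⟨hs, ha⟩, if_pos hb]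
      have e1 : √(((s * a ^ 2 : ℕ) : ℝ) * ((s * b ^ 2 : ℕ) : ℝ)) = (s : ℝ) * a * b := by
        rw [show ((s * a ^ 2 : ℕ) : ℝ) * ((s * b ^ 2 : ℕ) : ℝ) = ((s : ℝ) * a * b) ^ 2 by
          push_cast; ring]
        exact Real.sqrt_sq (by positivity)
      have e2 : Real.log ((s * b ^ 2 : ℕ) : ℝ) + u = 2 * Real.log b + (Real.log s + u) := by
        push_cast
        rw [Real.log_mul hs'.ne' (by positivity), Real.log_pow]
        push_cast
        ring
      have hlog : 0 ≤ Real.log ((s * a ^ 2 : ℕ) : ℝ) := Real.log_nonneg (by exact_mod_cast hsa)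
      have e3 : |g (Real.log ((s * a ^ 2 : ℕ) : ℝ) + u)| ≤
          C0 * Real.exp (-|Real.log ((s * a ^ 2 : ℕ) : ℝ) + v|) := by
        refine (hg0 _).trans (mul_le_mul_of_nonneg_left (Real.exp_le_exp.mpr ?_) hC0.le)
        rcases le_total u 0 with h | h
        · rw [hv, min_eq_left h]
        · rw [hv, min_eq_right h, add_zero, abs_of_nonneg hlog, abs_of_nonneg (by linarith)]
          linarith
      rw [e1, e2]
      have hb0 := rse_qb_b_nonneg hL (s * a ^ 2)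
      calc rse_qb_b L (s * a ^ 2) / ((s : ℝ) * a * b) *
          (|g (Real.log ((s * a ^ 2 : ℕ) : ℝ) + u)| * |g (2 * Real.log b + (Real.log s + u))|) ≤
          rse_qb_b L (s * a ^ 2) / ((s : ℝ) * a * b) *
          ((C0 * Real.exp (-|Real.log ((s * a ^ 2 : ℕ) : ℝ) + v|)) *
            |g (2 * Real.log b + (Real.log s + u))|) := by gcongr
        _ = _ := by
          field_simp)
  -- the large part
  set H : ℕ × ℕ → ℝ := fun p => C2 ^ 2 * Real.exp (-(L / 2)) *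
    (1 / (p.1 : ℝ) ^ 2 * (1 / (p.2 : ℝ) ^ 2)) with hHd
  have sH : Summable H := hzz.mul_left _
  have tH : ∑' p, H p = C2 ^ 2 * Real.exp (-(L / 2)) * Z := tsum_mul_left
  set F : ℕ × ℕ → ℝ := fun p => if Odd p.1 ∧ Odd p.2 ∧ 3 ≤ p.1 ∧ 3 ≤ p.2 ∧
      IsSquare (p.1 * p.2) then |bN Θ L p.1 * bN Θ L p.2| / √((p.1 : ℝ) * p.2) *
        |g (Real.log p.1 + u) * g (Real.log p.2 + u)| else 0 with hFd
  have hF0 : ∀ p, 0 ≤ F p := by
    intro p
    simp only [hFd]
    split_ifs <;> positivity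
  have hH0 : ∀ p, 0 ≤ H p := fun p => by simp only [hHd]; positivity
  have hle : ∀ p, F p ≤ G p + H p := by
    intro p
    by_cases hp : Odd p.1 ∧ Odd p.2 ∧ 3 ≤ p.1 ∧ 3 ≤ p.2 ∧ IsSquare (p.1 * p.2)
    · obtain ⟨o1, o2, t1, t2, sq⟩ := hp
      have eF : F p = |bN Θ L p.1 * bN Θ L p.2| / √((p.1 : ℝ) * p.2) *
        |g (Real.log p.1 + u) * g (Real.log p.2 + u)| := if_pos ⟨o1, o2, t1, t2, sq⟩
      have hp1 : 0 < p.1 := by omega
      have hp2 : 0 < p.2 := by omega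
      have hp1' : (1 : ℝ) ≤ p.1 := by exact_mod_cast hp1
      have hp2' : (1 : ℝ) ≤ p.2 := by exact_mod_cast hp2
      have hs1 : 1 ≤ √((p.1 : ℝ) * p.2) := by
        rw [Real.one_le_sqrt]
        exact one_le_mul_of_one_le_of_one_le hp1' hp2'
      have hcrude : F p ≤ (|bN Θ L p.1| * |g (Real.log p.1 + u)|) *
          (|bN Θ L p.2| * |g (Real.log p.2 + u)|) := by
        rw [eF, abs_mul, abs_mul]
        calc |bN Θ L p.1| * |bN Θ L p.2| / √((p.1 : ℝ) * p.2) *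
            (|g (Real.log p.1 + u)| * |g (Real.log p.2 + u)|) ≤
            |bN Θ L p.1| * |bN Θ L p.2| *
            (|g (Real.log p.1 + u)| * |g (Real.log p.2 + u)|) := by
              refine mul_le_mul_of_nonneg_right (div_le_self (by positivity) hs1) (by positivity)
          _ = _ := by ring
      obtain ⟨c1, d1⟩ := hcr L u hL hu p.1 hp1
      obtain ⟨c2, d2⟩ := hcr L u hL hu p.2 hp2
      have hee : Real.exp (-L) * Real.exp (L / 2) = Real.exp (-(L / 2)) := by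
        rw [← Real.exp_add]; congr 1; ring
      by_cases hl1 : L / 2 < Real.log p.1
      · have : F p ≤ H p := by
          refine hcrude.trans ((mul_le_mul (d1 hl1) c2 (by positivity) (by positivity)).trans
            (le_of_eq ?_))
          simp only [hHd]
          rw [← hee]; ring
        linarith [hG0 p]
      · by_cases hl2 : L / 2 < Real.log p.2
        · have : F p ≤ H p := by
            refine hcrude.trans ((mul_le_mul c1 (d2 hl2) (by positivity) (by positivity)).trans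
              (le_of_eq ?_))
            simp only [hHd]
            rw [← hee]; ring
          linarith [hG0 p]
        · rw [not_lt] at hl1 hl2
          have eG : G p = rse_qb_b L p.1 / √((p.1 : ℝ) * p.2) *
            (|g (Real.log p.1 + u)| * |g (Real.log p.2 + u)|) := if_pos ⟨hp1, hp2, sq⟩
          have b1 : bN Θ L p.1 = rse_qb_b L p.1 := bn_small hΘ hL o1 t1 hl1
          have b2 : bN Θ L p.2 = rse_qb_b L p.2 := bn_small hΘ hL o2 t2 hl2
          have n1 := rse_qb_b_nonneg hL p.1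
          have n2 := rse_qb_b_nonneg hL p.2
          have m2 := rse_qb_b_le hL hp2 hl2
          have : F p ≤ G p := by
            rw [eF, eG, b1, b2, abs_of_nonneg (mul_nonneg n1 n2), abs_mul]
            refine mul_le_mul_of_nonneg_right ?_ (by positivity)
            exact div_le_div_of_nonneg_right (mul_le_of_le_one_right n1 m2) (Real.sqrt_nonneg _)
          linarith [hH0 p]
    · have eF : F p = 0 := if_neg hp
      rw [eF]
      exact add_nonneg (hG0 p) (hH0 p)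
  have hsum : Summable fun p => G p + H p := sG.add sH
  have hFs : Summable F := hsum.of_nonneg_of_le hF0 hle
  refine ⟨hFs, (hFs.tsum_le_tsum hle hsum).trans ?_⟩
  rw [sG.tsum_add sH, tH]
  have h1 : ∑' p, G p ≤ C1 * (C3 / L) :=
    tG.trans (mul_le_mul_of_nonneg_left tW hC1.le)
  have h2 : Real.exp (-(L / 2)) ≤ 2 / L := by
    rw [Real.exp_neg, le_div_iff₀ hL0, inv_mul_le_iff₀ (Real.exp_pos _)]
    linarith [Real.add_one_le_exp (L / 2)]
  have h3 : C2 ^ 2 * Real.exp (-(L / 2)) * Z ≤ C2 ^ 2 * (2 / L) * Z := by gcongr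
  refine (add_le_add h1 h3).trans (le_of_eq ?_)
  ring


end Pool.Agent.RSE

namespace Pool.Agent.RSE

alias qb_bound := qb_bound_pr

end Pool.Agent.RSE
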