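import Pool.Agent.Lib_helper39.RSE.Defs
import Pool.Agent.Lib_helper39.RSA.DefsB
import Pool.Agent.Lib_helper24.ABS.Endgame
import Pool.Agent.Lib_helper39.RCA.DLIM
import Pool.Agent.Lib_helper39.RSA.BNS
import Pool.Agent.Lib_helper39.RSA.PER
import Pool.Agent.Lib_helper39.RSA.QB
import Pool.Agent.Lib_helper39.RSA.SUMG
/-!
# Block DE of RSE: the mean square of the odd part of the approximation
-/

namespace Pool.Agent.RSE

open Complex MeasureTheory Filter Topology
open Pool.Agent.RC (cc psi rv f0 IsRC Good gm pr DD)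

theorem rse_de_card (c : ℕ) {K : ℝ} (hK : 1 ≤ K) : ((blk8 c K).card : ℝ) ≤ 3 * K := by
  have h1 : (blk8 c K).card ≤ ⌈2 * K⌉₊ := by
    refine (Finset.card_filter_le _ _).trans ?_
    rw [Finset.card_range]
  have h2 : (⌈2 * K⌉₊ : ℝ) < 2 * K + 1 := Nat.ceil_lt_add_one (by linarith)
  have h3 : ((blk8 c K).card : ℝ) ≤ (⌈2 * K⌉₊ : ℝ) := by exact_mod_cast h1
  linarith

theorem rse_de_rv_mul (j : Fin 4) (m a b : ℕ) :
    (rv j m a : ℝ) * (rv j m b : ℝ) = (rv j m (a * b) : ℝ) := by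
  have h := Pool.Agent.RC.rc_dlim_rv_mul j m a b
  unfold rv at h ⊢
  rw [← h]
  push_cast
  ring

theorem rse_de_main {g Θ : ℝ → ℝ} (hg : Kern g) (hΘ : Cut Θ) : ∃ C : ℝ, 0 < C ∧
    ∀ (j : Fin 4) (c : ℕ) (L K u : ℝ), OC c → 1 ≤ L → 1 ≤ K → 10 * L ≤ Real.log K →
    -(L / 8) ≤ u → ∑ m ∈ blk8 c K, EO g Θ L j m u ^ 2 ≤ C * K / L := by
  obtain ⟨C1, hC1, hQ⟩ := qb_bound hg hΘ
  have hF : Fast g := by
    have := hg.fast 0
    rwa [iteratedDeriv_zero] at this
  obtain ⟨C2, hC2, hS⟩ := fast_sum hF (a := 7 / 2) (by norm_num)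
  refine ⟨3 * C1 + 8 * C2 ^ 2, by positivity, ?_⟩
  intro j c L K u hc hL hK hLK hu
  obtain ⟨hQs, hQt⟩ := hQ L u hL hu
  obtain ⟨hSs, hSt⟩ := hS u
  set W : ℕ → ℝ := fun n => if 0 < n then (n : ℝ) ^ ((7 / 2 : ℝ) - 1) * |g (Real.log n + u)|
    else 0 with hW
  have hW0 : ∀ n, 0 ≤ W n := by
    intro n
    simp only [hW]
    split_ifs
    · positivity
    · exact le_refl 0
  set B : ℕ → ℝ := fun n => bN Θ L n / √(n : ℝ) * g (Real.log n + u) with hB
  set f : ℕ → ℕ → ℝ := fun m N => if Odd N ∧ 3 ≤ N then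
    (rv j m N : ℝ) * bN Θ L N / √(N : ℝ) * g (Real.log N + u) else 0 with hf
  have hBW : ∀ n : ℕ, 1 ≤ n → (n : ℝ) * |B n| ≤ W n := by
    intro n hn
    have hn0 : (0 : ℝ) < n := by exact_mod_cast hn
    have h1 := bn_crude hΘ L (N := n) hn
    simp only [hW, hB]
    rw [if_pos (show 0 < n from hn), abs_mul, abs_div, abs_of_nonneg (Real.sqrt_nonneg _)]
    have e1 : (n : ℝ) ^ ((7 / 2 : ℝ) - 1) = (n : ℝ) * ((n : ℝ) ^ 2 / √(n : ℝ)) := by
      rw [Real.sqrt_eq_rpow, show (7 / 2 : ℝ) - 1 = 1 + (2 - 1 / 2) by norm_num,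
        Real.rpow_add hn0, Real.rpow_sub hn0, Real.rpow_one]
      norm_num
    rw [e1, mul_assoc]
    refine mul_le_mul_of_nonneg_left ?_ hn0.le
    refine mul_le_mul_of_nonneg_right ?_ (abs_nonneg _)
    exact div_le_div_of_nonneg_right h1 (Real.sqrt_nonneg _)
  have hBW' : ∀ n : ℕ, 1 ≤ n → |B n| ≤ W n := by
    intro n hn
    refine le_trans ?_ (hBW n hn)
    have hn0 : (1 : ℝ) ≤ n := by exact_mod_cast hn
    nlinarith [abs_nonneg (B n)]
  have hfB : ∀ m N, f m N = if Odd N ∧ 3 ≤ N then (rv j m N : ℝ) * B N else 0 := by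
    intro m N
    simp only [hf, hB]
    split_ifs
    · ring
    · rfl
  have hfW : ∀ m N, ‖f m N‖ ≤ W N := by
    intro m N
    rw [hfB]
    split_ifs with h
    · rw [Real.norm_eq_abs, abs_mul]
      calc |(rv j m N : ℝ)| * |B N| ≤ 1 * |B N| :=
            mul_le_mul_of_nonneg_right (Pool.Agent.RC.rc_dlim_rv_abs j m N) (abs_nonneg _)
        _ = |B N| := one_mul _
        _ ≤ W N := hBW' N (by omega)
    · rw [norm_zero]; exact hW0 N
  have hfs : ∀ m, Summable (fun N => ‖f m N‖) := fun m =>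
    Summable.of_nonneg_of_le (fun _ => norm_nonneg _) (hfW m) hSs
  have hfs' : ∀ m, Summable (fun p : ℕ × ℕ => f m p.1 * f m p.2) := fun m =>
    summable_mul_of_summable_norm (hfs m) (hfs m)
  have hEO : ∀ m, EO g Θ L j m u ^ 2 = ∑' p : ℕ × ℕ, f m p.1 * f m p.2 := by
    intro m
    rw [pow_two, ← tsum_mul_tsum_of_summable_norm (hfs m) (hfs m)]
    rfl
  have hsum : ∑ m ∈ blk8 c K, EO g Θ L j m u ^ 2 =
      ∑' p : ℕ × ℕ, ∑ m ∈ blk8 c K, f m p.1 * f m p.2 := by
    rw [Summable.tsum_finsetSum (fun m _ => hfs' m)]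
    exact Finset.sum_congr rfl fun m _ => hEO m
  set Q : ℕ × ℕ → ℝ := fun p => if Odd p.1 ∧ Odd p.2 ∧ 3 ≤ p.1 ∧ 3 ≤ p.2 ∧
      IsSquare (p.1 * p.2) then |bN Θ L p.1 * bN Θ L p.2| / √((p.1 : ℝ) * p.2) *
        |g (Real.log p.1 + u) * g (Real.log p.2 + u)| else 0 with hQd
  have hQ0 : ∀ p, 0 ≤ Q p := by
    intro p
    simp only [hQd]
    split_ifs
    · positivity
    · exact le_refl 0
  have hterm : ∀ p : ℕ × ℕ, ∑ m ∈ blk8 c K, f m p.1 * f m p.2 ≤
      (blk8 c K).card * Q p + 8 * (W p.1 * W p.2) := by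
    rintro ⟨a, b⟩
    by_cases h : Odd a ∧ Odd b ∧ 3 ≤ a ∧ 3 ≤ b
    · obtain ⟨h1, h2, h3, h4⟩ := h
      have e1 : ∑ m ∈ blk8 c K, f m a * f m b =
          (∑ m ∈ blk8 c K, (rv j m (a * b) : ℝ)) * (B a * B b) := by
        rw [Finset.sum_mul]
        refine Finset.sum_congr rfl fun m _ => ?_
        rw [hfB, hfB, if_pos ⟨h1, h3⟩, if_pos ⟨h2, h4⟩, ← rse_de_rv_mul]
        ring
      simp only
      rw [e1]
      refine (le_abs_self _).trans ?_
      rw [abs_mul]
      by_cases hsq : IsSquare (a * b)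
      · have h5 : |∑ m ∈ blk8 c K, (rv j m (a * b) : ℝ)| ≤ (blk8 c K).card := by
          refine (Finset.abs_sum_le_sum_abs _ _).trans ?_
          refine (Finset.sum_le_card_nsmul _ _ 1
            (fun m _ => Pool.Agent.RC.rc_dlim_rv_abs j m (a * b))).trans ?_
          simp
        have h6 : |B a * B b| = Q (a, b) := by
          simp only [hQd, hB]
          rw [if_pos ⟨h1, h2, h3, h4, hsq⟩, Real.sqrt_mul (Nat.cast_nonneg a)]
          simp only [abs_mul, abs_div, abs_of_nonneg (Real.sqrt_nonneg _)]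
          ring
        rw [h6]
        have := mul_le_mul_of_nonneg_right h5 (hQ0 (a, b))
        have h7 : 0 ≤ 8 * (W a * W b) := by
          have := hW0 a
          have := hW0 b
          positivity
        linarith
      · have h5 := per_sum j c hc K (by linarith) (a * b) (h1.mul h2) hsq
        have h6 : |∑ m ∈ blk8 c K, (rv j m (a * b) : ℝ)| * |B a * B b| ≤
            8 * (W a * W b) := by
          calc _ ≤ 8 * ((a * b : ℕ) : ℝ) * |B a * B b| :=
                mul_le_mul_of_nonneg_right h5 (abs_nonneg _)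
            _ = 8 * ((a * |B a|) * (b * |B b|)) := by
                rw [abs_mul]; push_cast; ring
            _ ≤ 8 * (W a * W b) := by
                have k1 := hBW a (by omega)
                have k2 := hBW b (by omega)
                have k3 : 0 ≤ (b : ℝ) * |B b| := by positivity
                have := mul_le_mul k1 k2 k3 (hW0 a)
                linarith
        have h7 : 0 ≤ ((blk8 c K).card : ℝ) * Q (a, b) := by
          have := hQ0 (a, b)
          positivity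
        linarith
    · have e1 : ∑ m ∈ blk8 c K, f m a * f m b = 0 := by
        refine Finset.sum_eq_zero fun m _ => ?_
        rw [hfB, hfB]
        by_cases ha : Odd a ∧ 3 ≤ a
        · rw [if_neg (fun hb : Odd b ∧ 3 ≤ b => h ⟨ha.1, hb.1, ha.2, hb.2⟩), mul_zero]
        · rw [if_neg ha, zero_mul]
      simp only
      rw [e1]
      have k1 := hQ0 (a, b)
      have k2 := hW0 a
      have k3 := hW0 b
      positivity
  have hWn : Summable (fun n => ‖W n‖) := by
    simpa only [Real.norm_of_nonneg (hW0 _)] using hSs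
  have hWW : Summable (fun p : ℕ × ℕ => W p.1 * W p.2) :=
    summable_mul_of_summable_norm hWn hWn
  have hlhs : Summable (fun p : ℕ × ℕ => ∑ m ∈ blk8 c K, f m p.1 * f m p.2) :=
    summable_sum fun m _ => hfs' m
  have hrhs : Summable (fun p : ℕ × ℕ => (blk8 c K).card * Q p + 8 * (W p.1 * W p.2)) :=
    (hQs.mul_left _).add (hWW.mul_left _)
  have hle := Summable.tsum_le_tsum hterm hlhs hrhs
  rw [hsum]
  refine hle.trans ?_
  rw [Summable.tsum_add (hQs.mul_left _) (hWW.mul_left _), tsum_mul_left, tsum_mul_left,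
    ← tsum_mul_tsum_of_summable_norm hWn hWn]
  have hL0 : 0 < L := by linarith
  have hK0 : 0 < K := by linarith
  have hcard := rse_de_card c hK
  have hWt0 : 0 ≤ ∑' n, W n := tsum_nonneg hW0
  have hQt0 : 0 ≤ ∑' p, Q p := tsum_nonneg hQ0
  have a1 : ((blk8 c K).card : ℝ) * ∑' p, Q p ≤ 3 * K * (C1 / L) :=
    mul_le_mul hcard hQt hQt0 (by linarith)
  have a2 : (∑' n, W n) * ∑' n, W n ≤ (C2 * Real.exp (-(7 / 2) * u)) ^ 2 := by
    rw [pow_two]
    exact mul_le_mul hSt hSt hWt0 (by positivity)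
  have a3 : Real.exp (-(7 / 2) * u) ^ 2 ≤ K / L := by
    rw [← Real.exp_nat_mul, le_div_iff₀ hL0]
    have h1 : Real.exp (10 * L) ≤ K := by
      rw [← Real.exp_log hK0]
      exact Real.exp_le_exp.2 hLK
    have h2 : L ≤ Real.exp L := by linarith [Real.add_one_le_exp L]
    calc Real.exp (((2 : ℕ) : ℝ) * (-(7 / 2) * u)) * L
        ≤ Real.exp (L) * Real.exp L := by
          refine mul_le_mul (Real.exp_le_exp.2 ?_) h2 hL0.le (Real.exp_pos _).le
          push_cast
          linarith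
      _ = Real.exp (2 * L) := by rw [← Real.exp_add]; congr 1; ring
      _ ≤ Real.exp (10 * L) := Real.exp_le_exp.2 (by linarith)
      _ ≤ K := h1
  have a4 : (C2 * Real.exp (-(7 / 2) * u)) ^ 2 ≤ C2 ^ 2 * (K / L) := by
    rw [mul_pow]
    exact mul_le_mul_of_nonneg_left a3 (by positivity)
  have e : (3 * C1 + 8 * C2 ^ 2) * K / L = 3 * K * (C1 / L) + 8 * (C2 ^ 2 * (K / L)) := by
    field_simp
  rw [e]
  linarith

theorem de_bound_pr {g Θ : ℝ → ℝ} (hg : Kern g) (hΘ : Cut Θ) : ∃ C : ℝ, 0 < C ∧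
    ∀ (j : Fin 4) (c : ℕ) (L K u : ℝ), OC c → 1 ≤ L → 1 ≤ K → 10 * L ≤ Real.log K →
    -(L / 8) ≤ u → ∑ m ∈ blk8 c K, EO g Θ L j m u ^ 2 ≤ C * K / L :=
  rse_de_main hg hΘ

end Pool.Agent.RSE

namespace Pool.Agent.RSE

alias de_bound := de_bound_pr

end Pool.Agent.RSE
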