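import Pool.Agent.Lib_helper39.RSE.Defs
import Pool.Agent.Lib_helper39.RSA.DefsB
import Pool.Agent.Lib_helper24.ABS.Endgame
import Pool.Agent.Lib_helper39.RCA.DLIM
import Pool.Agent.Lib_helper39.RSA.DDE
import Pool.Agent.Lib_helper39.RSA.DE
/-!
# Block DDF of RSE: the mean square of the density minus the main term
-/

namespace Pool.Agent.RSE

open Complex MeasureTheory Filter Topology
open Pool.Agent.RC (cc psi rv f0 IsRC Good gm pr DD)

theorem rse_ddf_w (a : ℕ) : (2 : ℝ) ^ (-(a : ℝ) / 2) ≤ (3 / 4 : ℝ) ^ a := by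
  have h1 : (2 : ℝ) ^ (-(a : ℝ) / 2) = ((2 : ℝ) ^ (-(1 : ℝ) / 2)) ^ a := by
    rw [← Real.rpow_natCast, ← Real.rpow_mul (by norm_num)]
    congr 1
    ring
  rw [h1]
  refine pow_le_pow_left₀ (by positivity) ?_ a
  have h2 : ((2 : ℝ) ^ (-(1 : ℝ) / 2)) ^ 2 = 1 / 2 := by
    rw [← Real.rpow_natCast, ← Real.rpow_mul (by norm_num)]
    norm_num
  have h3 : 0 ≤ (2 : ℝ) ^ (-(1 : ℝ) / 2) := by positivity
  nlinarith

theorem rse_ddf_wsum (n : ℕ) : ∑ a ∈ Finset.range n, (2 : ℝ) ^ (-(a : ℝ) / 2) ≤ 4 := by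
  have h1 : ∑ a ∈ Finset.range n, (2 : ℝ) ^ (-(a : ℝ) / 2) ≤
      ∑ a ∈ Finset.range n, (3 / 4 : ℝ) ^ a := Finset.sum_le_sum fun a _ => rse_ddf_w a
  refine h1.trans ?_
  have h2 : Summable (fun a : ℕ => (3 / 4 : ℝ) ^ a) :=
    summable_geometric_of_lt_one (by norm_num) (by norm_num)
  have h3 := h2.sum_le_tsum (Finset.range n) (fun a _ => by positivity)
  rw [tsum_geometric_of_lt_one (by norm_num) (by norm_num)] at h3
  refine h3.trans ?_
  norm_num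

theorem ddf_bound_pr {g Θ : ℝ → ℝ} (hg : Kern g) (hΘ : Cut Θ) : ∃ C : ℝ, 0 < C ∧
    ∀ (j : Fin 4) (c : ℕ) (L K u : ℝ), OC c → 1 ≤ L → 1 ≤ K → 10 * L ≤ Real.log K →
    |u| ≤ L / 8 → ∑ m ∈ blk8 c K, (DM g Θ L j m u - gA g j m u) ^ 2 ≤ C * K / L := by
  obtain ⟨C, hC, hD⟩ := de_bound hg hΘ
  refine ⟨16 * C, by positivity, ?_⟩
  intro j c L K u hc hL hK hLK hu
  have hu' : -(L / 8) ≤ u := (abs_le.1 hu).1
  have hlog2 : 0 ≤ Real.log 2 := Real.log_nonneg (by norm_num)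
  have hE : ∀ a : ℕ, ∑ m ∈ blk8 c K, EO g Θ L j m (u + a * Real.log 2) ^ 2 ≤ C * K / L := by
    intro a
    refine hD j c L K _ hc hL hK hLK ?_
    have : 0 ≤ (a : ℝ) * Real.log 2 := by positivity
    linarith
  have hpart : ∀ n : ℕ, ∑ m ∈ blk8 c K, (∑ a ∈ Finset.range n, (rv j m (2 ^ a) : ℝ) *
      (2 : ℝ) ^ (-(a : ℝ) / 2) * EO g Θ L j m (u + a * Real.log 2)) ^ 2 ≤ 16 * C * K / L := by
    intro n
    have h1 : ∀ m ∈ blk8 c K, (∑ a ∈ Finset.range n, (rv j m (2 ^ a) : ℝ) *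
        (2 : ℝ) ^ (-(a : ℝ) / 2) * EO g Θ L j m (u + a * Real.log 2)) ^ 2 ≤
        4 * ∑ a ∈ Finset.range n, (2 : ℝ) ^ (-(a : ℝ) / 2) *
          EO g Θ L j m (u + a * Real.log 2) ^ 2 := by
      intro m _
      have h2 := Finset.sum_sq_le_sum_mul_sum_of_sq_le_mul (Finset.range n)
        (r := fun a : ℕ => (rv j m (2 ^ a) : ℝ) *
          (2 : ℝ) ^ (-(a : ℝ) / 2) * EO g Θ L j m (u + a * Real.log 2))
        (f := fun a : ℕ => (2 : ℝ) ^ (-(a : ℝ) / 2))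
        (g := fun a : ℕ => (2 : ℝ) ^ (-(a : ℝ) / 2) *
          ((rv j m (2 ^ a) : ℝ) ^ 2 * EO g Θ L j m (u + a * Real.log 2) ^ 2))
        (fun a _ => by positivity) (fun a _ => by positivity) (fun a _ => le_of_eq (by ring))
      refine h2.trans ?_
      refine mul_le_mul (rse_ddf_wsum n) ?_ (Finset.sum_nonneg fun a _ => by positivity)
        (by norm_num)
      refine Finset.sum_le_sum fun a _ => ?_
      refine mul_le_mul_of_nonneg_left ?_ (by positivity)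
      have h3 : (rv j m (2 ^ a) : ℝ) ^ 2 ≤ 1 := by
        rw [← sq_abs]
        have := Pool.Agent.RC.rc_dlim_rv_abs j m (2 ^ a)
        have h0 := abs_nonneg (rv j m (2 ^ a) : ℝ)
        nlinarith
      have h4 : 0 ≤ EO g Θ L j m (u + a * Real.log 2) ^ 2 := sq_nonneg _
      nlinarith
    refine (Finset.sum_le_sum h1).trans ?_
    rw [← Finset.mul_sum, Finset.sum_comm]
    have h5 : ∑ a ∈ Finset.range n, ∑ m ∈ blk8 c K, (2 : ℝ) ^ (-(a : ℝ) / 2) *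
          EO g Θ L j m (u + a * Real.log 2) ^ 2 ≤
        ∑ a ∈ Finset.range n, (2 : ℝ) ^ (-(a : ℝ) / 2) * (C * K / L) := by
      refine Finset.sum_le_sum fun a _ => ?_
      rw [← Finset.mul_sum]
      exact mul_le_mul_of_nonneg_left (hE a) (by positivity)
    rw [← Finset.sum_mul] at h5
    have h6 : 0 ≤ C * K / L := by positivity
    have h7 := mul_le_mul_of_nonneg_right (rse_ddf_wsum n) h6
    have h8 : 16 * C * K / L = 4 * (4 * (C * K / L)) := by ring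
    rw [h8]
    linarith
  have hlim : Tendsto (fun n : ℕ => ∑ m ∈ blk8 c K, (∑ a ∈ Finset.range n,
      (rv j m (2 ^ a) : ℝ) * (2 : ℝ) ^ (-(a : ℝ) / 2) *
        EO g Θ L j m (u + a * Real.log 2)) ^ 2) atTop
      (𝓝 (∑ m ∈ blk8 c K, (DM g Θ L j m u - gA g j m u) ^ 2)) := by
    refine tendsto_finsetSum _ fun m _ => ?_
    obtain ⟨hs, he⟩ := dm_eq hg hΘ hL j m u
    rw [he]
    exact hs.hasSum.tendsto_sum_nat.pow 2
  exact le_of_tendsto' hlim hpart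

end Pool.Agent.RSE

namespace Pool.Agent.RSE

alias ddf_bound := ddf_bound_pr

end Pool.Agent.RSE
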