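import Pool.Agent.Lib_helper39.RSE.Defs
import Pool.Agent.Lib_helper39.RSA.DefsB
import Pool.Agent.Lib_helper39.RCA.FE
import Pool.Agent.Lib_helper39.RCA.RGD
import Pool.Agent.Lib_helper39.RCA.DER
/-!
# RSE block FEK: the functional equation of the densities
-/

namespace Pool.Agent.RSE

open Complex MeasureTheory Filter Topology
open Pool.Agent.RC (cc psi rv f0 IsRC Good gm pr DD)
open scoped ContDiff

/-! ### Polynomial kernels -/

/-- `e^{(1/2+κ)z} P(e^{2z}) exp(-π e^{2z})`. -/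
noncomputable def rse_fek_K (κ : ℕ) (P : Polynomial ℝ) (z : ℝ) : ℝ :=
  Real.exp ((1 / 2 + κ) * z) * P.eval (Real.exp (2 * z)) * Real.exp (-Real.pi * Real.exp (2 * z))

/-- the derivative on the polynomials -/
noncomputable def rse_fek_T (κ : ℕ) (P : Polynomial ℝ) : Polynomial ℝ :=
  Polynomial.C (1 / 2 + κ : ℝ) * P + Polynomial.C 2 * Polynomial.X * Polynomial.derivative P -
    Polynomial.C (2 * Real.pi) * Polynomial.X * P

theorem rse_fek_K_deriv (κ : ℕ) (P : Polynomial ℝ) (z : ℝ) :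
    HasDerivAt (rse_fek_K κ P) (rse_fek_K κ (rse_fek_T κ P) z) z := by
  have h1 : HasDerivAt (fun z : ℝ => Real.exp ((1 / 2 + κ) * z))
      (Real.exp ((1 / 2 + κ) * z) * (1 / 2 + κ)) z := by
    have := ((hasDerivAt_id z).const_mul (1 / 2 + (κ : ℝ))).exp
    simpa using this
  have h2 : HasDerivAt (fun z : ℝ => Real.exp (2 * z)) (Real.exp (2 * z) * 2) z := by
    have := ((hasDerivAt_id z).const_mul (2 : ℝ)).exp
    simpa using this
  have h3 : HasDerivAt (fun z : ℝ => P.eval (Real.exp (2 * z)))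
      ((Polynomial.derivative P).eval (Real.exp (2 * z)) * (Real.exp (2 * z) * 2)) z :=
    HasDerivAt.comp (h := fun z : ℝ => Real.exp (2 * z)) (h₂ := fun y : ℝ => P.eval y) z
      (P.hasDerivAt (Real.exp (2 * z))) h2
  have h4 : HasDerivAt (fun z : ℝ => Real.exp (-Real.pi * Real.exp (2 * z)))
      (Real.exp (-Real.pi * Real.exp (2 * z)) * (-Real.pi * (Real.exp (2 * z) * 2))) z :=
    (h2.const_mul (-Real.pi)).exp
  have h5 := (h1.mul h3).mul h4
  refine h5.congr_deriv ?_
  simp only [rse_fek_K, rse_fek_T, Polynomial.eval_sub, Polynomial.eval_add, Polynomial.eval_mul,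
    Polynomial.eval_C, Polynomial.eval_X, Pi.mul_apply]
  ring

theorem rse_fek_k0 (κ : ℕ) : k0 κ = rse_fek_K κ (Polynomial.C 2) := by
  funext z
  unfold k0 f0 rse_fek_K
  rw [Polynomial.eval_C]
  have h1 : Real.exp z ^ 2 = Real.exp (2 * z) := by
    rw [← Real.exp_nat_mul]; norm_num
  have h2 : Real.exp z ^ κ = Real.exp (κ * z) := by
    rw [← Real.exp_nat_mul]
  rw [h1, h2, show (1 / 2 + (κ : ℝ)) * z = z / 2 + κ * z by ring, Real.exp_add]
  ring

theorem rse_fek_iter (κ i : ℕ) :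
    iteratedDeriv i (k0 κ) = rse_fek_K κ ((rse_fek_T κ)^[i] (Polynomial.C 2)) := by
  induction i with
  | zero => simp [rse_fek_k0]
  | succ n ih =>
    rw [iteratedDeriv_succ, ih, Function.iterate_succ_apply']
    funext z
    exact (rse_fek_K_deriv κ _ z).deriv

theorem rse_fek_poly_bd (P : Polynomial ℝ) : ∃ C : ℝ, 0 ≤ C ∧ ∀ y : ℝ, 0 ≤ y →
    |P.eval y| ≤ C * Real.exp y := by
  induction P using Polynomial.induction_on' with
  | add p q hp hq =>
    obtain ⟨C1, h1, h1'⟩ := hp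
    obtain ⟨C2, h2, h2'⟩ := hq
    refine ⟨C1 + C2, by positivity, fun y hy => ?_⟩
    rw [Polynomial.eval_add, add_mul]
    exact (abs_add_le _ _).trans (add_le_add (h1' y hy) (h2' y hy))
  | monomial n a =>
    refine ⟨|a| * n.factorial, by positivity, fun y hy => ?_⟩
    rw [Polynomial.eval_monomial, abs_mul, abs_of_nonneg (pow_nonneg hy n), mul_assoc]
    refine mul_le_mul_of_nonneg_left ?_ (abs_nonneg _)
    have h := Real.pow_div_factorial_le_exp y hy n
    rw [div_le_iff₀ (by positivity)] at h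
    linarith

theorem rse_fek_K_bd {κ : ℕ} (hκ : κ ≤ 1) (P : Polynomial ℝ) : ∃ C : ℝ, 0 ≤ C ∧ ∀ z : ℝ,
    |rse_fek_K κ P z| ≤ C * Real.exp (-(2 * z)) := by
  obtain ⟨C, hC, hP⟩ := rse_fek_poly_bd P
  refine ⟨2 * C, by positivity, fun z => ?_⟩
  set y := Real.exp (2 * z) with hy
  have hy0 : 0 < y := Real.exp_pos _
  have hk : (κ : ℝ) ≤ 1 := by exact_mod_cast hκ
  have hk0 : (0 : ℝ) ≤ κ := Nat.cast_nonneg κ
  have h1 : Real.exp ((1 / 2 + κ) * z) * Real.exp (2 * z) ≤ 2 * Real.exp y := by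
    rw [← Real.exp_add]
    rcases le_or_gt z 0 with hz | hz
    · have h2 : Real.exp ((1 / 2 + κ) * z + 2 * z) ≤ 1 := by
        rw [Real.exp_le_one_iff]
        nlinarith
      have h3 : (1 : ℝ) ≤ Real.exp y := Real.one_le_exp hy0.le
      linarith
    · have h2 : Real.exp ((1 / 2 + κ) * z + 2 * z) ≤ y ^ 2 := by
        rw [hy, ← Real.exp_nat_mul]
        rw [Real.exp_le_exp]
        push_cast
        nlinarith
      have h3 := Real.pow_div_factorial_le_exp y hy0.le 2
      norm_num [Nat.factorial] at h3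
      linarith
  have h4 : |rse_fek_K κ P z| * Real.exp (2 * z) ≤ 2 * C := by
    unfold rse_fek_K
    rw [abs_mul, abs_mul, Real.abs_exp, Real.abs_exp]
    have h5 : Real.exp ((1 / 2 + κ) * z) * |P.eval y| * Real.exp (-Real.pi * y) *
        Real.exp (2 * z) = (Real.exp ((1 / 2 + κ) * z) * Real.exp (2 * z)) * |P.eval y| *
        Real.exp (-Real.pi * y) := by ring
    rw [h5]
    have h6 : (Real.exp ((1 / 2 + κ) * z) * Real.exp (2 * z)) * |P.eval y| *
        Real.exp (-Real.pi * y) ≤ (2 * Real.exp y) * (C * Real.exp y) *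
        Real.exp (-Real.pi * y) := by
      refine mul_le_mul_of_nonneg_right ?_ (Real.exp_pos _).le
      exact mul_le_mul h1 (hP y hy0.le) (abs_nonneg _) (by positivity)
    refine h6.trans ?_
    have h7 : Real.exp y * Real.exp y * Real.exp (-Real.pi * y) ≤ 1 := by
      rw [← Real.exp_add, ← Real.exp_add, Real.exp_le_one_iff]
      nlinarith [Real.pi_gt_three]
    calc (2 * Real.exp y) * (C * Real.exp y) * Real.exp (-Real.pi * y)
        = 2 * C * (Real.exp y * Real.exp y * Real.exp (-Real.pi * y)) := by ring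
      _ ≤ 2 * C * 1 := mul_le_mul_of_nonneg_left h7 (by positivity)
      _ = 2 * C := by ring
  rw [Real.exp_neg, ← div_eq_mul_inv, le_div_iff₀ (Real.exp_pos _)]
  exact h4

/-! ### Termwise differentiation -/

/-- the terms of `DF` -/
noncomputable def rse_fek_t (g : ℝ → ℝ) (j : Fin 4) (m n : ℕ) (u : ℝ) : ℝ :=
  if 0 < n then (rv j m n : ℝ) / √(n : ℝ) * g (Real.log n + u) else 0

theorem rse_fek_t_bd {g : ℝ → ℝ} {C : ℝ} (hg : ∀ z, |g z| ≤ C * Real.exp (-(2 * z)))
    (j : Fin 4) (m n : ℕ) (u : ℝ) :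
    |rse_fek_t g j m n u| ≤ C * Real.exp (-(2 * u)) * (1 / (n : ℝ) ^ 2) := by
  have hC : 0 ≤ C := by
    have := (abs_nonneg _).trans (hg 0)
    simpa using this
  unfold rse_fek_t
  split_ifs with hn
  · have hn' : (0 : ℝ) < n := by exact_mod_cast hn
    have hn1 : (1 : ℝ) ≤ n := by exact_mod_cast hn
    rw [abs_mul, abs_div, abs_of_nonneg (Real.sqrt_nonneg _)]
    have h1 : |(rv j m n : ℝ)| / √(n : ℝ) ≤ 1 := by
      rw [div_le_one (Real.sqrt_pos.mpr hn')]
      exact (Pool.Agent.RC.rc_der_rv_abs j m n).trans (Real.one_le_sqrt.mpr hn1)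
    have h2 : |g (Real.log n + u)| ≤ C * Real.exp (-(2 * u)) * (1 / (n : ℝ) ^ 2) := by
      refine (hg _).trans (le_of_eq ?_)
      rw [show -(2 * (Real.log n + u)) = -(2 * u) + -(2 * Real.log n) by ring, Real.exp_add]
      have : Real.exp (-(2 * Real.log n)) = 1 / (n : ℝ) ^ 2 := by
        rw [Real.exp_neg, ← one_div]
        congr 1
        rw [show (2 : ℝ) * Real.log n = ((2 : ℕ) : ℝ) * Real.log n by norm_num,
          Real.exp_nat_mul, Real.exp_log hn']
      rw [this]; ring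
    calc |(rv j m n : ℝ)| / √(n : ℝ) * |g (Real.log n + u)| ≤ 1 * |g (Real.log n + u)| :=
          mul_le_mul_of_nonneg_right h1 (abs_nonneg _)
      _ ≤ _ := by rw [one_mul]; exact h2
  · rw [abs_zero]
    positivity

theorem rse_fek_t_sum {g : ℝ → ℝ} {C : ℝ} (hg : ∀ z, |g z| ≤ C * Real.exp (-(2 * z)))
    (j : Fin 4) (m : ℕ) (u : ℝ) : Summable (fun n => rse_fek_t g j m n u) := by
  have h1 : Summable (fun n : ℕ => C * Real.exp (-(2 * u)) * (1 / (n : ℝ) ^ 2)) :=
    (Real.summable_one_div_nat_pow.2 (by norm_num : 1 < 2)).mul_left _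
  refine Summable.of_norm_bounded h1 fun n => ?_
  rw [Real.norm_eq_abs]
  exact rse_fek_t_bd hg j m n u

theorem rse_fek_DF (g : ℝ → ℝ) (j : Fin 4) (m : ℕ) :
    DF g j m = fun u => ∑' n, rse_fek_t g j m n u := rfl

theorem rse_fek_df_deriv {g g' : ℝ → ℝ} {C C' : ℝ} (hd : ∀ z, HasDerivAt g (g' z) z)
    (hg : ∀ z, |g z| ≤ C * Real.exp (-(2 * z)))
    (hg' : ∀ z, |g' z| ≤ C' * Real.exp (-(2 * z))) (j : Fin 4) (m : ℕ) (u : ℝ) :
    HasDerivAt (DF g j m) (DF g' j m u) u := by
  have hC' : 0 ≤ C' := by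
    have := (abs_nonneg _).trans (hg' 0)
    simpa using this
  have h1 : Summable (fun n : ℕ => C' * Real.exp (-(2 * (u - 1))) * (1 / (n : ℝ) ^ 2)) :=
    (Real.summable_one_div_nat_pow.2 (by norm_num : 1 < 2)).mul_left _
  rw [rse_fek_DF]
  refine hasDerivAt_tsum_of_isPreconnected (t := Metric.ball u 1) (g := fun n v =>
    rse_fek_t g j m n v) (g' := fun n v => rse_fek_t g' j m n v) (y₀ := u) h1 Metric.isOpen_ball
    (convex_ball u 1).isPreconnected ?_ ?_ (Metric.mem_ball_self one_pos)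
    (rse_fek_t_sum hg j m u) (Metric.mem_ball_self one_pos)
  · intro n v _
    unfold rse_fek_t
    split_ifs with hn
    · have h2 : HasDerivAt (fun v => g (Real.log n + v)) (g' (Real.log n + v)) v := by
        have := (hd (Real.log n + v)).comp_const_add (Real.log n) v
        simpa using this
      exact h2.const_mul _
    · exact hasDerivAt_const _ _
  · intro n v hv
    rw [Real.norm_eq_abs]
    refine (rse_fek_t_bd hg' j m n v).trans ?_
    refine mul_le_mul_of_nonneg_right ?_ (by positivity)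
    refine mul_le_mul_of_nonneg_left ?_ hC'
    rw [Real.exp_le_exp]
    rw [Metric.mem_ball, Real.dist_eq, abs_lt] at hv
    linarith [hv.1]

/-! ### The functional equation -/

theorem rse_fek_DD {κ : ℕ} (j : Fin 4) {m : ℕ} (hm : 2 ≤ m) (u : ℝ) :
    DF (k0 κ) j m u = DD (f0 κ) 1 j m u := by
  unfold DF DD
  rw [← tsum_mul_left]
  refine tsum_congr fun n => ?_
  rw [if_pos (Nat.coprime_one_right n)]
  split_ifs with hn
  · have hn' : (0 : ℝ) < n := by exact_mod_cast hn
    unfold k0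
    rw [Real.exp_add, Real.exp_log hn', show (Real.log n + u) / 2 = Real.log n / 2 + u / 2 by ring,
      Real.exp_add]
    have h1 : Real.exp (Real.log n / 2) = √(n : ℝ) := by
      rw [Real.sqrt_eq_rpow, Real.rpow_def_of_pos hn']
      congr 1; ring
    rw [h1]
    have h2 : √(n : ℝ) ≠ 0 := (Real.sqrt_pos.mpr hn').ne'
    field_simp
  · have hn0 : n = 0 := by omega
    subst hn0
    rw [Pool.Agent.RC.rc_rgd_rv_zero j hm]
    simp

theorem rse_fek_fe0 {κ : ℕ} {j : Fin 4} {m : ℕ} (hm : 2 ≤ m) [NeZero (cc j * m)]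
    (χ : DirichletCharacter ℂ (cc j * m)) (h : IsRC κ j m χ) : ∃ w : ℝ, |w| = 1 ∧
    ∀ u : ℝ, DD (f0 κ) 1 j m (-Real.log ((cc j * m : ℕ) : ℝ) - u) =
      w * DD (f0 κ) 1 j m u := by
  have hκ : κ ≤ 1 := by
    rcases h.2.2 with ⟨h, -⟩ | ⟨h, -⟩ <;> omega
  obtain ⟨hD0, -, -⟩ := Pool.Agent.RC.rep1_pr hm χ h
  have hder : ∀ u : ℝ, HasDerivAt (DD (f0 κ) 1 j m) (DD (Pool.Agent.RC.f1 κ) 1 j m u) u :=
    fun u => (Pool.Agent.RC.der hκ 1 j m u).1
  have hcont : Continuous (DD (f0 κ) 1 j m) :=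
    continuous_iff_continuousAt.mpr fun u => (hder u).continuousAt
  have hq2 : 2 ≤ cc j * m := by
    have hc : 1 ≤ cc j := by fin_cases j <;> simp [cc]
    nlinarith
  have hq0 : ((cc j * m : ℕ) : ℂ) ≠ 0 := by
    have : cc j * m ≠ 0 := by omega
    exact_mod_cast this
  obtain ⟨W, hW, hfe⟩ := GRH.fe_phase hq2 χ h.1
  set L : ℝ := Real.log ((cc j * m : ℕ) : ℝ) with hL
  set f : ℝ → ℂ := fun v => ((DD (f0 κ) 1 j m (v - L / 2) : ℝ) : ℂ) with hf
  have hfc : Continuous f := by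
    rw [hf]
    exact Complex.continuous_ofReal.comp (hcont.comp (by fun_prop))
  have hfi : Integrable f := (hD0.comp_sub_right (L / 2)).ofReal
  have hA : ∀ t : ℝ, ∫ v : ℝ, f v * cexp (t * v * I) =
      ((cc j * m : ℕ) : ℂ) ^ ((t : ℂ) * I / 2) *
        DirichletCharacter.completedLFunction χ (1 / 2 + t * I) := by
    intro t
    rw [Pool.Agent.RC.rc_fe_rep hm χ h t, ← integral_const_mul]
    have h1 := integral_sub_right_eq_self (μ := volume)
      (fun v : ℝ => ((cc j * m : ℕ) : ℂ) ^ ((t : ℂ) * I / 2) *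
        (((DD (f0 κ) 1 j m v : ℝ) : ℂ) * cexp (t * v * I))) (L / 2)
    rw [← h1]
    refine integral_congr_ae (Filter.Eventually.of_forall fun v => ?_)
    simp only [hf]
    have h2 : ((cc j * m : ℕ) : ℂ) ^ ((t : ℂ) * I / 2) = cexp (t * ((L / 2 : ℝ) : ℂ) * I) := by
      rw [Complex.cpow_def_of_ne_zero hq0, ← Complex.natCast_log, ← hL]
      congr 1
      push_cast
      ring
    rw [h2]
    have h3 : cexp (t * (v : ℂ) * I) =
        cexp (t * ((L / 2 : ℝ) : ℂ) * I) * cexp (t * ((v - L / 2 : ℝ) : ℂ) * I) := by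
      rw [← Complex.exp_add]
      congr 1
      push_cast
      ring
    rw [h3]
    ring
  have hB : ∀ t : ℝ, starRingEnd ℂ (∫ v : ℝ, f v * cexp (t * v * I)) =
      ∫ v : ℝ, f (-v) * cexp (t * v * I) := by
    intro t
    rw [← integral_conj]
    have h1 := integral_neg_eq_self (μ := (volume : Measure ℝ))
      (fun v : ℝ => f (-v) * cexp (t * v * I))
    rw [← h1]
    refine integral_congr_ae (Filter.Eventually.of_forall fun v => ?_)
    simp only [neg_neg]
    rw [map_mul, ← Complex.exp_conj]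
    congr 1
    · simp only [hf, Complex.conj_ofReal]
    · congr 1
      simp
  have hfni : Integrable fun v : ℝ => f (-v) := hfi.comp_neg
  have hmul : ∀ (t : ℝ) (g : ℝ → ℂ), Integrable g →
      Integrable fun u : ℝ => g u * cexp (t * u * I) := by
    intro t g hg
    have h1 : Integrable fun u : ℝ => cexp (t * u * I) * g u := by
      refine hg.bdd_mul (c := 1) (by fun_prop) ?_
      refine Filter.Eventually.of_forall fun u => ?_
      rw [show (t : ℂ) * u * I = ((t * u : ℝ) : ℂ) * I by push_cast; ring]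
      exact (Complex.norm_exp_ofReal_mul_I _).le
    refine h1.congr (Filter.Eventually.of_forall fun u => ?_)
    simp only
    ring
  have hzero : ∀ v : ℝ, f v - W * f (-v) = 0 := by
    refine Pool.Agent.RC.rc_fe_uniq (h := fun v => f v - W * f (-v))
      (hfi.sub (hfni.const_mul W)) ?_ ?_
    · exact hfc.sub (continuous_const.mul (hfc.comp continuous_neg))
    · intro t
      have h1 : ∫ v : ℝ, (f v - W * f (-v)) * cexp (t * v * I) =
          (∫ v : ℝ, f v * cexp (t * v * I)) - W * ∫ v : ℝ, f (-v) * cexp (t * v * I) := by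
        rw [← integral_const_mul, ← integral_sub (hmul t f hfi) ((hmul t _ hfni).const_mul W)]
        refine integral_congr_ae (Filter.Eventually.of_forall fun v => ?_)
        simp only
        ring
      rw [h1, ← hB, hA, ← hfe t, sub_self]
  -- real sign
  have key : ∃ w : ℝ, |w| = 1 ∧ ∀ v : ℝ, DD (f0 κ) 1 j m (-v - L / 2) =
      w * DD (f0 κ) 1 j m (v - L / 2) := by
    by_cases hz : ∀ v : ℝ, DD (f0 κ) 1 j m (v - L / 2) = 0
    · exact ⟨1, by simp, fun v => by rw [hz, hz]; simp⟩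
    · push Not at hz
      obtain ⟨v0, hv0⟩ := hz
      have h1 := hzero (-v0)
      rw [neg_neg] at h1
      have h2 : f v0 ≠ 0 := by
        simp only [hf]
        exact_mod_cast hv0
      have h3 : W = ((DD (f0 κ) 1 j m (-v0 - L / 2) / DD (f0 κ) 1 j m (v0 - L / 2) : ℝ) : ℂ) := by
        have h4 : W = f (-v0) / f v0 := by
          rw [eq_div_iff h2]
          exact (sub_eq_zero.mp h1).symm
        rw [h4]
        simp only [hf]
        push_cast
        ring
      set w : ℝ := DD (f0 κ) 1 j m (-v0 - L / 2) / DD (f0 κ) 1 j m (v0 - L / 2) with hw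
      refine ⟨w, ?_, fun v => ?_⟩
      · rw [h3, Complex.norm_real] at hW
        exact hW
      · have h5 := hzero (-v)
        rw [neg_neg, h3] at h5
        simp only [hf] at h5
        have h6 := sub_eq_zero.mp h5
        exact_mod_cast h6
  obtain ⟨w, hw, hk⟩ := key
  refine ⟨w, hw, fun u => ?_⟩
  have h1 := hk (u + L / 2)
  rw [show -(u + L / 2) - L / 2 = -L - u by ring, show u + L / 2 - L / 2 = u by ring] at h1
  exact h1

theorem fek_eq_pr {κ : ℕ} {j : Fin 4} {m : ℕ} (hm : 2 ≤ m)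
    {χ : DirichletCharacter ℂ (cc j * m)} (h : IsRC κ j m χ) (i : ℕ) :
    ∃ w : ℝ, |w| = 1 ∧ ∀ u : ℝ, DF (gk κ i) j m (-Real.log ((cc j * m : ℕ) : ℝ) - u) =
      w * DF (gk κ i) j m u := by
  have hκ : κ ≤ 1 := by
    rcases h.2.2 with ⟨h, -⟩ | ⟨h, -⟩ <;> omega
  have hcm : cc j * m ≠ 0 := by
    have hc : 1 ≤ cc j := by fin_cases j <;> simp [cc]
    have : 1 * 2 ≤ cc j * m := Nat.mul_le_mul hc hm
    omega
  have : NeZero (cc j * m) := ⟨hcm⟩
  obtain ⟨w, hw, hfe⟩ := rse_fek_fe0 hm χ h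
  set L : ℝ := Real.log ((cc j * m : ℕ) : ℝ) with hL
  have hfe' : ∀ u : ℝ, DF (k0 κ) j m (-L - u) = w * DF (k0 κ) j m u := by
    intro u
    rw [rse_fek_DD j hm, rse_fek_DD j hm]
    exact hfe u
  have hbd : ∀ n : ℕ, ∃ C : ℝ, ∀ z : ℝ, |iteratedDeriv n (k0 κ) z| ≤ C * Real.exp (-(2 * z)) := by
    intro n
    rw [rse_fek_iter]
    obtain ⟨C, -, hC⟩ := rse_fek_K_bd hκ ((rse_fek_T κ)^[n] (Polynomial.C 2))
    exact ⟨C, hC⟩
  have hd : ∀ (n : ℕ) (z : ℝ), HasDerivAt (iteratedDeriv n (k0 κ))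
      (iteratedDeriv (n + 1) (k0 κ) z) z := by
    intro n z
    rw [rse_fek_iter, rse_fek_iter, Function.iterate_succ_apply']
    exact rse_fek_K_deriv κ _ z
  have hD : ∀ (n : ℕ) (u : ℝ), HasDerivAt (DF (iteratedDeriv n (k0 κ)) j m)
      (DF (iteratedDeriv (n + 1) (k0 κ)) j m u) u := by
    intro n u
    obtain ⟨C, hC⟩ := hbd n
    obtain ⟨C', hC'⟩ := hbd (n + 1)
    exact rse_fek_df_deriv (hd n) hC hC' j m u
  have hfen : ∀ (n : ℕ) (u : ℝ), DF (iteratedDeriv n (k0 κ)) j m (-L - u) =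
      (-1) ^ n * w * DF (iteratedDeriv n (k0 κ)) j m u := by
    intro n
    induction n with
    | zero =>
      intro u
      rw [iteratedDeriv_zero, pow_zero, one_mul]
      exact hfe' u
    | succ n ih =>
      intro u
      have h1 : HasDerivAt (fun u => DF (iteratedDeriv n (k0 κ)) j m (-L - u))
          (-DF (iteratedDeriv (n + 1) (k0 κ)) j m (-L - u)) u := by
        have h2 : HasDerivAt (fun u : ℝ => -L - u) (-1) u := by
          simpa using (hasDerivAt_id u).const_sub (-L)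
        have h3 := (hD n (-L - u)).comp u h2
        simpa [Function.comp_def] using h3
      have h2 : HasDerivAt (fun u => (-1) ^ n * w * DF (iteratedDeriv n (k0 κ)) j m u)
          ((-1) ^ n * w * DF (iteratedDeriv (n + 1) (k0 κ)) j m u) u := (hD n u).const_mul _
      have h3 : (fun u => DF (iteratedDeriv n (k0 κ)) j m (-L - u)) =
          fun u => (-1) ^ n * w * DF (iteratedDeriv n (k0 κ)) j m u := funext ih
      rw [h3] at h1
      have h4 := h1.unique h2
      rw [pow_succ]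
      linarith
  have hsum : ∀ u : ℝ, DF (gk κ i) j m u = DF (iteratedDeriv (i + 3) (k0 κ)) j m u -
      1 / 4 * DF (iteratedDeriv (i + 1) (k0 κ)) j m u := by
    intro u
    obtain ⟨C, hC⟩ := hbd (i + 3)
    obtain ⟨C', hC'⟩ := hbd (i + 1)
    have s1 := rse_fek_t_sum hC j m u
    have s2 := rse_fek_t_sum hC' j m u
    rw [rse_fek_DF, rse_fek_DF, rse_fek_DF]
    simp only
    rw [← tsum_mul_left, ← s1.tsum_sub (s2.mul_left _)]
    refine tsum_congr fun n => ?_
    unfold rse_fek_t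
    split_ifs with hn
    · unfold gk
      ring
    · simp
  refine ⟨(-1) ^ (i + 1) * w, ?_, fun u => ?_⟩
  · rw [abs_mul, hw, abs_pow, abs_neg, abs_one, one_pow, one_mul]
  · rw [hsum, hsum, hfen, hfen, show i + 3 = (i + 1) + 2 by ring, pow_add (-1 : ℝ) (i + 1) 2]
    ring

end Pool.Agent.RSE

namespace Pool.Agent.RSE

alias fek_eq := fek_eq_pr

end Pool.Agent.RSE
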