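import Pool.Agent.Lib_helper39.RSE.Defs
import Pool.Agent.Lib_helper39.RSA.DefsB
/-!
# RSE block DSQ: decomposition of the square part
-/

namespace Pool.Agent.RSE

open Complex MeasureTheory Filter Topology

/-! ### arithmetic -/

lemma rse_dsq_sq_dvd {a b f : ℕ} (ha : Squarefree a) (hb : 0 < b) (hf : 0 < f)
    (h : f ^ 2 ∣ b ^ 2 * a) : f ∣ b := by
  have ha0 : a ≠ 0 := ha.ne_zero
  rw [← Nat.factorization_le_iff_dvd (by positivity) (by positivity)] at h
  rw [← Nat.factorization_le_iff_dvd hf.ne' hb.ne']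
  intro p
  have h1 := h p
  rw [Nat.factorization_mul (by positivity) ha0, Nat.factorization_pow,
    Nat.factorization_pow] at h1
  simp only [Finsupp.coe_smul, Finsupp.coe_add, Pi.add_apply, Pi.smul_apply, smul_eq_mul] at h1
  have h2 := ha.natFactorization_le_one p
  omega

/-- uniqueness of the squarefree decomposition -/
lemma rse_dsq_uniq {n0 n1 a b : ℕ} (h0 : Squarefree n0) (h1 : Squarefree n1) (ha : 0 < a)
    (hb : 0 < b) (h : n0 * a ^ 2 = n1 * b ^ 2) : n0 = n1 ∧ a = b := by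
  have hab : a ∣ b := rse_dsq_sq_dvd h1 hb ha ⟨n0, by linarith⟩
  have hba : b ∣ a := rse_dsq_sq_dvd h0 ha hb ⟨n1, by linarith⟩
  have e : a = b := Nat.dvd_antisymm hab hba
  subst e
  exact ⟨Nat.eq_of_mul_eq_mul_right (by positivity) h, rfl⟩

/-- the squarefree parts -/
lemma rse_dsq_parts {n0 n1 s : ℕ} (h0 : Squarefree n0) (h1 : Squarefree n1) (hs : Squarefree s)
    (h : IsSquare (n0 * n1 * s)) :
    n0.gcd s * n1.gcd s = s ∧ n0.gcd s * n0.gcd n1 = n0 ∧ n1.gcd s * n0.gcd n1 = n1 ∧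
      (n0.gcd n1).Coprime s := by
  have z0 := h0.ne_zero
  have z1 := h1.ne_zero
  have zs := hs.ne_zero
  have g0 : n0.gcd s ≠ 0 := Nat.gcd_ne_zero_left z0
  have g1 : n1.gcd s ≠ 0 := Nat.gcd_ne_zero_left z1
  have g2 : n0.gcd n1 ≠ 0 := Nat.gcd_ne_zero_left z0
  obtain ⟨c, hc⟩ := h
  have hc0 : c ≠ 0 := by
    rintro rfl
    simp [z0, z1, zs] at hc
  have hpar : ∀ p, n0.factorization p + n1.factorization p + s.factorization p =
      c.factorization p + c.factorization p := by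
    intro p
    have := congrArg (fun n => n.factorization p) hc
    rw [Nat.factorization_mul (mul_ne_zero z0 z1) zs, Nat.factorization_mul z0 z1,
      Nat.factorization_mul hc0 hc0] at this
    simpa using this
  have b0 := fun p => h0.natFactorization_le_one p
  have b1 := fun p => h1.natFactorization_le_one p
  have bs := fun p => hs.natFactorization_le_one p
  refine ⟨?_, ?_, ?_, ?_⟩
  · refine Nat.eq_of_factorization_eq (mul_ne_zero g0 g1) zs fun p => ?_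
    rw [Nat.factorization_mul g0 g1, Nat.factorization_gcd z0 zs, Nat.factorization_gcd z1 zs]
    simp only [Finsupp.coe_add, Pi.add_apply, Finsupp.inf_apply]
    have := hpar p
    have := b0 p
    have := b1 p
    have := bs p
    omega
  · refine Nat.eq_of_factorization_eq (mul_ne_zero g0 g2) z0 fun p => ?_
    rw [Nat.factorization_mul g0 g2, Nat.factorization_gcd z0 zs, Nat.factorization_gcd z0 z1]
    simp only [Finsupp.coe_add, Pi.add_apply, Finsupp.inf_apply]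
    have := hpar p
    have := b0 p
    have := b1 p
    have := bs p
    omega
  · refine Nat.eq_of_factorization_eq (mul_ne_zero g1 g2) z1 fun p => ?_
    rw [Nat.factorization_mul g1 g2, Nat.factorization_gcd z1 zs, Nat.factorization_gcd z0 z1]
    simp only [Finsupp.coe_add, Pi.add_apply, Finsupp.inf_apply]
    have := hpar p
    have := b0 p
    have := b1 p
    have := bs p
    omega
  · refine Nat.eq_of_factorization_eq (Nat.gcd_ne_zero_right zs) one_ne_zero fun p => ?_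
    rw [Nat.factorization_gcd g2 zs, Nat.factorization_gcd z0 z1]
    simp only [Finsupp.inf_apply, Nat.factorization_one, Finsupp.coe_zero, Pi.zero_apply]
    have := hpar p
    have := b0 p
    have := b1 p
    have := bs p
    omega

lemma rse_dsq_sq_cancel {x y : ℕ} (hy : y ≠ 0) (h : IsSquare (x * y ^ 2)) : IsSquare x := by
  obtain ⟨c, hc⟩ := h
  have hd : y ∣ c := by
    rw [← Nat.pow_dvd_pow_iff (two_ne_zero)]
    exact ⟨x, by rw [sq c, ← hc]; ring⟩
  obtain ⟨d, rfl⟩ := hd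
  refine ⟨d, Nat.eq_of_mul_eq_mul_right (by positivity : 0 < y ^ 2) ?_⟩
  rw [hc]
  ring

/-- the multiplicities of the parametrization -/
structure rse_dsq_Q (m s : ℕ) (q : (ℕ × ℕ) × ℕ × ℕ × ℕ) : Prop where
  v : q.1 ∈ s.divisorsAntidiagonal
  h1 : Odd q.2.1
  h2 : Squarefree q.2.1
  h3 : q.2.1.Coprime (m * s)
  a1 : Odd q.2.2.1
  a2 : q.2.2.1.Coprime m
  b1 : Odd q.2.2.2
  b2 : q.2.2.2.Coprime m

/-- the parametrization -/
def rse_dsq_i (q : (ℕ × ℕ) × ℕ × ℕ × ℕ) : ℕ × ℕ :=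
  (q.1.1 * q.2.1 * q.2.2.1 ^ 2, q.1.2 * q.2.1 * q.2.2.2 ^ 2)

lemma rse_dsq_sqf {m s : ℕ} (hs : Squarefree s) {q : (ℕ × ℕ) × ℕ × ℕ × ℕ}
    (hq : rse_dsq_Q m s q) : Squarefree (q.1.1 * q.2.1) ∧ Squarefree (q.1.2 * q.2.1) ∧
      (q.1.1 * q.2.1).gcd s = q.1.1 := by
  obtain ⟨hv, hs0⟩ := Nat.mem_divisorsAntidiagonal.1 hq.v
  have hc : q.2.1.Coprime s := Nat.Coprime.coprime_mul_left_right hq.h3
  have d1 : q.1.1 ∣ s := ⟨_, hv.symm⟩
  have d2 : q.1.2 ∣ s := ⟨q.1.1, by rw [← hv, mul_comm]⟩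
  have c1 : q.1.1.Coprime q.2.1 := (Nat.Coprime.coprime_dvd_right d1 hc).symm
  have c2 : q.1.2.Coprime q.2.1 := (Nat.Coprime.coprime_dvd_right d2 hc).symm
  refine ⟨Nat.squarefree_mul_iff.2 ⟨c1, hs.squarefree_of_dvd d1, hq.h2⟩,
    Nat.squarefree_mul_iff.2 ⟨c2, hs.squarefree_of_dvd d2, hq.h2⟩, ?_⟩
  rw [Nat.Coprime.gcd_mul_right_cancel _ hc]
  exact Nat.gcd_eq_left d1

lemma rse_dsq_inj {m s : ℕ} (hs : Squarefree s) {q q' : (ℕ × ℕ) × ℕ × ℕ × ℕ}
    (hq : rse_dsq_Q m s q) (hq' : rse_dsq_Q m s q') (h : rse_dsq_i q = rse_dsq_i q') : q = q' := by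
  obtain ⟨hv, hs0⟩ := Nat.mem_divisorsAntidiagonal.1 hq.v
  obtain ⟨hv', _⟩ := Nat.mem_divisorsAntidiagonal.1 hq'.v
  obtain ⟨s1, s2, s3⟩ := rse_dsq_sqf hs hq
  obtain ⟨s1', s2', s3'⟩ := rse_dsq_sqf hs hq'
  simp only [rse_dsq_i, Prod.mk.injEq] at h
  obtain ⟨e1, e2⟩ := rse_dsq_uniq s1 s1' hq.a1.pos hq'.a1.pos h.1
  obtain ⟨e3, e4⟩ := rse_dsq_uniq s2 s2' hq.b1.pos hq'.b1.pos h.2
  have f1 : q.1.1 = q'.1.1 := by rw [← s3, e1, s3']
  have hv0 : 0 < q.1.1 := Nat.pos_of_ne_zero fun h0 => hs0 (by rw [← hv, h0, zero_mul])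
  have f2 : q.2.1 = q'.2.1 := by
    rw [← f1] at e1
    exact Nat.eq_of_mul_eq_mul_left hv0 e1
  have f3 : q.1.2 = q'.1.2 := by
    rw [← hv', ← f1] at hv
    exact Nat.eq_of_mul_eq_mul_left hv0 hv
  exact Prod.ext (Prod.ext f1 f3) (Prod.ext f2 (Prod.ext e2 e4))

lemma rse_dsq_cond {m s t : ℕ} (hs : Squarefree s) (hst : Odd (s * t ^ 2))
    (hm : (s * t ^ 2).Coprime m) {q : (ℕ × ℕ) × ℕ × ℕ × ℕ} (hq : rse_dsq_Q m s q) :
    Odd (rse_dsq_i q).1 ∧ Odd (rse_dsq_i q).2 ∧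
      IsSquare ((rse_dsq_i q).1 * (rse_dsq_i q).2 * (s * t ^ 2)) ∧
      ((rse_dsq_i q).1 * (rse_dsq_i q).2 * (s * t ^ 2)).Coprime m := by
  obtain ⟨hv, hs0⟩ := Nat.mem_divisorsAntidiagonal.1 hq.v
  have hso : Odd s := (Nat.odd_mul.1 hst).1
  have hvo : Odd q.1.1 ∧ Odd q.1.2 := Nat.odd_mul.1 (hv ▸ hso)
  have hsm : s.Coprime m := Nat.Coprime.coprime_mul_right hm
  have hvm : q.1.1.Coprime m ∧ q.1.2.Coprime m := by
    rw [← hv] at hsm
    exact ⟨Nat.Coprime.coprime_mul_right hsm, Nat.Coprime.coprime_mul_left hsm⟩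
  have hhm : q.2.1.Coprime m := Nat.Coprime.coprime_mul_right_right hq.h3
  refine ⟨(hvo.1.mul hq.h1).mul (hq.a1.pow), (hvo.2.mul hq.h1).mul (hq.b1.pow), ?_, ?_⟩
  · refine ⟨s * q.2.1 * q.2.2.1 * q.2.2.2 * t, ?_⟩
    simp only [rse_dsq_i]
    calc _ = (q.1.1 * q.1.2) * s * (q.2.1 * q.2.2.1 * q.2.2.2 * t) ^ 2 := by ring
      _ = _ := by rw [hv]; ring
  · refine Nat.Coprime.mul_left (Nat.Coprime.mul_left ?_ ?_) hm
    · exact Nat.Coprime.mul_left (Nat.Coprime.mul_left hvm.1 hhm) (hq.a2.pow_left 2)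
    · exact Nat.Coprime.mul_left (Nat.Coprime.mul_left hvm.2 hhm) (hq.b2.pow_left 2)

lemma rse_dsq_surj {m s t : ℕ} (hs : Squarefree s) (hst : Odd (s * t ^ 2)) {p : ℕ × ℕ}
    (h1 : Odd p.1) (h2 : Odd p.2) (h3 : IsSquare (p.1 * p.2 * (s * t ^ 2)))
    (h4 : (p.1 * p.2 * (s * t ^ 2)).Coprime m) :
    ∃ q, rse_dsq_Q m s q ∧ rse_dsq_i q = p := by
  obtain ⟨n0, a, hn0, ha, e0, sq0⟩ := Nat.sq_mul_squarefree_of_pos h1.pos
  obtain ⟨n1, b, hn1, hb, e1, sq1⟩ := Nat.sq_mul_squarefree_of_pos h2.pos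
  have ht : Odd t := by
    have := (Nat.odd_mul.1 hst).2
    exact (Nat.odd_pow_iff (two_ne_zero)).1 this
  have hsq : IsSquare (n0 * n1 * s) := by
    refine rse_dsq_sq_cancel (y := a * b * t) (by have := ht.pos; positivity) ?_
    have : n0 * n1 * s * (a * b * t) ^ 2 = p.1 * p.2 * (s * t ^ 2) := by
      rw [← e0, ← e1]; ring
    rw [this]
    exact h3
  obtain ⟨k1, k2, k3, k4⟩ := rse_dsq_parts sq0 sq1 hs hsq
  have c1 : p.1.Coprime m := Nat.Coprime.coprime_mul_right (Nat.Coprime.coprime_mul_right h4)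
  have c2 : p.2.Coprime m := Nat.Coprime.coprime_mul_left (Nat.Coprime.coprime_mul_right h4)
  have da : a ∣ p.1 := ⟨a * n0, by rw [← e0]; ring⟩
  have db : b ∣ p.2 := ⟨b * n1, by rw [← e1]; ring⟩
  have d0 : n0 ∣ p.1 := ⟨a ^ 2, by rw [← e0]; ring⟩
  have dh : n0.gcd n1 ∣ p.1 := (Nat.gcd_dvd_left _ _).trans d0
  refine ⟨((n0.gcd s, n1.gcd s), n0.gcd n1, a, b), ⟨?_, ?_, ?_, ?_, ?_, ?_, ?_, ?_⟩, ?_⟩
  · exact Nat.mem_divisorsAntidiagonal.2 ⟨k1, hs.ne_zero⟩
  · exact h1.of_dvd_nat dh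
  · exact sq0.squarefree_of_dvd (Nat.gcd_dvd_left _ _)
  · exact Nat.Coprime.mul_right (Nat.Coprime.coprime_dvd_left dh c1) k4
  · exact h1.of_dvd_nat da
  · exact Nat.Coprime.coprime_dvd_left da c1
  · exact h2.of_dvd_nat db
  · exact Nat.Coprime.coprime_dvd_left db c2
  · refine Prod.ext ?_ ?_
    · simp only [rse_dsq_i]
      rw [k2, ← e0]; ring
    · simp only [rse_dsq_i]
      rw [k3, ← e1]; ring

/-! ### the main theorem -/

theorem dsq_eq_pr {g : ℝ → ℝ} (hg : Kern g) (m s t : ℕ) (hm : 0 < m) (hs : Squarefree s)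
    (hst : Odd (s * t ^ 2)) (u1 u2 : ℝ) :
    SQs g m (s * t ^ 2) u1 u2 = if (s * t ^ 2).Coprime m then
      1 / √(s : ℝ) * ∑ v ∈ s.divisorsAntidiagonal, ∑' h : ℕ,
        (if Odd h ∧ Squarefree h ∧ h.Coprime (m * s) then
          1 / (h : ℝ) * (AA g m (Real.log h + (Real.log v.1 + u1)) *
            AA g m (Real.log h + (Real.log v.2 + u2))) else 0) else 0 := by
  classical
  by_cases hc : (s * t ^ 2).Coprime m
  swap
  · rw [if_neg hc]
    unfold SQs
    have : ∀ p : ℕ × ℕ, (if Odd p.1 ∧ Odd p.2 ∧ IsSquare (p.1 * p.2 * (s * t ^ 2)) ∧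
        (p.1 * p.2 * (s * t ^ 2)).Coprime m
        then g (Real.log p.1 + u1) * g (Real.log p.2 + u2) / √((p.1 : ℝ) * p.2) else 0) = 0 := by
      intro p
      rw [if_neg]
      rintro ⟨_, _, _, h⟩
      exact hc (Nat.Coprime.coprime_mul_left h)
    simp only [this, tsum_zero]
  rw [if_pos hc]
  -- decay of the kernel
  obtain ⟨C, hC⟩ := hg.fast 0 1 (by norm_num)
  simp only [iteratedDeriv_zero, neg_mul, one_mul] at hC
  have hC0 : 0 ≤ C := by
    have := (abs_nonneg _).trans (hC 0)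
    simpa using this
  -- the function on parameters
  set α : ℕ → ℕ → ℕ → ℝ := fun v h a => if Odd a ∧ a.Coprime m then
    g (2 * Real.log a + (Real.log h + (Real.log v + u1))) / a else 0 with hα
  set β : ℕ → ℕ → ℕ → ℝ := fun v h a => if Odd a ∧ a.Coprime m then
    g (2 * Real.log a + (Real.log h + (Real.log v + u2))) / a else 0 with hβ
  set w : ℕ × ℕ → ℝ := fun v => if v ∈ s.divisorsAntidiagonal then 1 / √(s : ℝ) else 0 with hw
  set η : ℕ → ℝ := fun h => if Odd h ∧ Squarefree h ∧ h.Coprime (m * s) then 1 / (h : ℝ) else 0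
    with hη
  set G : (ℕ × ℕ) × ℕ × ℕ × ℕ → ℝ := fun q =>
    w q.1 * (η q.2.1 * (α q.1.1 q.2.1 q.2.2.1 * β q.1.2 q.2.1 q.2.2.2)) with hG
  have hw0 : ∀ v, 0 ≤ w v := fun v => by
    simp only [hw]; split_ifs <;> positivity
  have hη0 : ∀ h, 0 ≤ η h := fun h => by
    simp only [hη]; split_ifs <;> positivity
  -- bound
  have hαβ : ∀ (u : ℝ) (v h a : ℕ), 0 < v → 0 < h →
      |(if Odd a ∧ a.Coprime m then
        g (2 * Real.log a + (Real.log h + (Real.log v + u))) / a else 0)| ≤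
        C * Real.exp (-u) * (1 / (h : ℝ)) * (1 / (a : ℝ) ^ 3) := by
    intro u v h a hv hh
    have hh' : (0 : ℝ) < h := by exact_mod_cast hh
    split_ifs with hab
    · have ha : 0 < a := hab.1.pos
      have ha' : (0 : ℝ) < a := by exact_mod_cast ha
      rw [abs_div, Nat.abs_cast]
      have h1 := hC (2 * Real.log a + (Real.log h + (Real.log v + u)))
      have h2 : Real.exp (-(2 * Real.log a + (Real.log h + (Real.log v + u)))) ≤
          Real.exp (-u) * (1 / (h : ℝ)) * (1 / (a : ℝ) ^ 2) := by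
        have e1 : Real.exp (-u) * (1 / (h : ℝ)) * (1 / (a : ℝ) ^ 2) =
            Real.exp (-(2 * Real.log a + (Real.log h + u))) := by
          rw [Real.exp_neg (2 * Real.log a + (Real.log h + u)), Real.exp_add, Real.exp_add,
            Real.exp_log hh', two_mul, Real.exp_add, Real.exp_log ha', Real.exp_neg]
          field_simp
        rw [e1]
        refine Real.exp_le_exp.2 ?_
        have l2 : 0 ≤ Real.log v := Real.log_nonneg (by exact_mod_cast hv)
        linarith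
      calc |g (2 * Real.log a + (Real.log h + (Real.log v + u)))| / a
          ≤ (C * (Real.exp (-u) * (1 / (h : ℝ)) * (1 / (a : ℝ) ^ 2))) / a :=
            div_le_div_of_nonneg_right (h1.trans (mul_le_mul_of_nonneg_left h2 hC0)) ha'.le
        _ = C * Real.exp (-u) * (1 / (h : ℝ)) * (1 / (a : ℝ) ^ 3) := by
            field_simp
    · rw [abs_zero]; positivity
  have hsum3 : Summable fun a : ℕ => 1 / (a : ℝ) ^ 3 :=
    Real.summable_one_div_nat_pow.2 (by norm_num)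
  have hvpos : ∀ v ∈ s.divisorsAntidiagonal, 0 < v.1 ∧ 0 < v.2 := by
    intro v hv
    obtain ⟨hv, hs0⟩ := Nat.mem_divisorsAntidiagonal.1 hv
    constructor
    · exact Nat.pos_of_ne_zero fun h0 => hs0 (by rw [← hv, h0, zero_mul])
    · exact Nat.pos_of_ne_zero fun h0 => hs0 (by rw [← hv, h0, mul_zero])
  have hη1 : ∀ h, 0 < h → η h ≤ 1 / (h : ℝ) := fun h _ => by
    simp only [hη]
    split_ifs
    · exact le_rfl
    · positivity
  have hη00 : η 0 = 0 := by simp [hη]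
  set Kc : ℝ := C * Real.exp (-u1) * (C * Real.exp (-u2)) with hKc
  have hKc0 : 0 ≤ Kc := by positivity
  have hG2 : ∀ v : ℕ × ℕ, v ∈ s.divisorsAntidiagonal → ∀ r : ℕ × ℕ × ℕ,
      |η r.1 * (α v.1 r.1 r.2.1 * β v.2 r.1 r.2.2)| ≤
        1 / (r.1 : ℝ) ^ 3 * (Kc * (1 / (r.2.1 : ℝ) ^ 3 * (1 / (r.2.2 : ℝ) ^ 3))) := by
    intro v hv r
    obtain ⟨p1, p2⟩ := hvpos v hv
    rcases Nat.eq_zero_or_pos r.1 with h0 | h0
    · rw [h0, hη00]
      simp
    · have hr : (0 : ℝ) < r.1 := by exact_mod_cast h0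
      have b1 := hαβ u1 v.1 r.1 r.2.1 p1 h0
      have b2 := hαβ u2 v.2 r.1 r.2.2 p2 h0
      rw [abs_mul, abs_mul, abs_of_nonneg (hη0 _)]
      calc η r.1 * (|α v.1 r.1 r.2.1| * |β v.2 r.1 r.2.2|)
          ≤ 1 / (r.1 : ℝ) * ((C * Real.exp (-u1) * (1 / (r.1 : ℝ)) * (1 / (r.2.1 : ℝ) ^ 3)) *
            (C * Real.exp (-u2) * (1 / (r.1 : ℝ)) * (1 / (r.2.2 : ℝ) ^ 3))) :=
            mul_le_mul (hη1 _ h0) (mul_le_mul b1 b2 (abs_nonneg _) (by positivity))
              (by positivity) (by positivity)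
        _ = 1 / (r.1 : ℝ) ^ 3 * (Kc * (1 / (r.2.1 : ℝ) ^ 3 * (1 / (r.2.2 : ℝ) ^ 3))) := by
            rw [hKc]
            ring
  have hBd : Summable fun r : ℕ × ℕ × ℕ =>
      1 / (r.1 : ℝ) ^ 3 * (Kc * (1 / (r.2.1 : ℝ) ^ 3 * (1 / (r.2.2 : ℝ) ^ 3))) := by
    have h2 : Summable fun r : ℕ × ℕ => 1 / (r.1 : ℝ) ^ 3 * (1 / (r.2 : ℝ) ^ 3) :=
      hsum3.mul_of_nonneg hsum3 (fun _ => by positivity) (fun _ => by positivity)
    exact hsum3.mul_of_nonneg (h2.mul_left Kc) (fun _ => by positivity)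
      (fun _ => by positivity)
  have hws : Summable w := by
    refine summable_of_ne_finset_zero (s := s.divisorsAntidiagonal) fun v hv => ?_
    simp only [hw, if_neg hv]
  have hGs : Summable G := by
    have hBd0 : (0 : ℕ × ℕ × ℕ → ℝ) ≤ fun r : ℕ × ℕ × ℕ =>
        1 / (r.1 : ℝ) ^ 3 * (Kc * (1 / (r.2.1 : ℝ) ^ 3 * (1 / (r.2.2 : ℝ) ^ 3))) :=
      fun _ => by positivity
    have h1 := hws.mul_of_nonneg hBd hw0 hBd0
    refine Summable.of_norm_bounded h1 fun q => ?_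
    rw [Real.norm_eq_abs]
    simp only [hG]
    rw [abs_mul, abs_of_nonneg (hw0 _)]
    by_cases hv : q.1 ∈ s.divisorsAntidiagonal
    · exact mul_le_mul_of_nonneg_left (hG2 q.1 hv q.2) (hw0 _)
    · have : w q.1 = 0 := by simp only [hw, if_neg hv]
      rw [this, zero_mul, zero_mul]
  -- transport
  set f : ℕ × ℕ → ℝ := fun p => if Odd p.1 ∧ Odd p.2 ∧ IsSquare (p.1 * p.2 * (s * t ^ 2)) ∧
        (p.1 * p.2 * (s * t ^ 2)).Coprime m
        then g (Real.log p.1 + u1) * g (Real.log p.2 + u2) / √((p.1 : ℝ) * p.2) else 0 with hf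
  have hfG : ∀ q, rse_dsq_Q m s q → f (rse_dsq_i q) = G q := by
    intro q hq
    have hcond := rse_dsq_cond hs hst hc hq
    simp only [hf]
    rw [if_pos hcond]
    simp only [hG, hw, hη, hα, hβ]
    rw [if_pos hq.v, if_pos ⟨hq.h1, hq.h2, hq.h3⟩, if_pos ⟨hq.a1, hq.a2⟩,
      if_pos ⟨hq.b1, hq.b2⟩]
    obtain ⟨p1, p2⟩ := hvpos _ hq.v
    obtain ⟨hv, hs0⟩ := Nat.mem_divisorsAntidiagonal.1 hq.v
    have q1 : (0 : ℝ) < q.1.1 := by exact_mod_cast p1
    have q2 : (0 : ℝ) < q.1.2 := by exact_mod_cast p2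
    have q3 : (0 : ℝ) < q.2.1 := by exact_mod_cast hq.h1.pos
    have q4 : (0 : ℝ) < q.2.2.1 := by exact_mod_cast hq.a1.pos
    have q5 : (0 : ℝ) < q.2.2.2 := by exact_mod_cast hq.b1.pos
    have hsr : (s : ℝ) = q.1.1 * q.1.2 := by exact_mod_cast hv.symm
    have l1 : Real.log ((rse_dsq_i q).1 : ℕ) + u1 =
        2 * Real.log q.2.2.1 + (Real.log q.2.1 + (Real.log q.1.1 + u1)) := by
      simp only [rse_dsq_i]
      push_cast
      rw [Real.log_mul (by positivity) (by positivity), Real.log_mul q1.ne' q3.ne', Real.log_pow]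
      push_cast
      ring
    have l2 : Real.log ((rse_dsq_i q).2 : ℕ) + u2 =
        2 * Real.log q.2.2.2 + (Real.log q.2.1 + (Real.log q.1.2 + u2)) := by
      simp only [rse_dsq_i]
      push_cast
      rw [Real.log_mul (by positivity) (by positivity), Real.log_mul q2.ne' q3.ne', Real.log_pow]
      push_cast
      ring
    have l3 : √(((rse_dsq_i q).1 : ℝ) * ((rse_dsq_i q).2 : ℝ)) =
        √(s : ℝ) * (q.2.1 * q.2.2.1 * q.2.2.2) := by
      have e : ((rse_dsq_i q).1 : ℝ) * ((rse_dsq_i q).2 : ℝ) =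
          (s : ℝ) * ((q.2.1 : ℝ) * q.2.2.1 * q.2.2.2) ^ 2 := by
        simp only [rse_dsq_i]
        push_cast
        rw [hsr]
        ring
      rw [e, Real.sqrt_mul (Nat.cast_nonneg _), Real.sqrt_sq (by positivity)]
    rw [l1, l2, l3]
    have hs' : √(s : ℝ) ≠ 0 := by
      rw [hsr]; positivity
    field_simp
  have hGQ : ∀ q, G q ≠ 0 → rse_dsq_Q m s q := by
    intro q hq
    simp only [hG] at hq
    have w1 : w q.1 ≠ 0 := fun h => hq (by rw [h, zero_mul])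
    have w2 : η q.2.1 ≠ 0 := fun h => hq (by rw [h, zero_mul, mul_zero])
    have w3 : α q.1.1 q.2.1 q.2.2.1 ≠ 0 := fun h => hq (by rw [h, zero_mul, mul_zero, mul_zero])
    have w4 : β q.1.2 q.2.1 q.2.2.2 ≠ 0 := fun h => hq (by
      rw [h, mul_zero, mul_zero, mul_zero])
    have k1 : q.1 ∈ s.divisorsAntidiagonal := by
      by_contra h
      exact w1 (by simp only [hw, if_neg h])
    have k2 : Odd q.2.1 ∧ Squarefree q.2.1 ∧ q.2.1.Coprime (m * s) := by
      by_contra h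
      exact w2 (by simp only [hη, if_neg h])
    have k3 : Odd q.2.2.1 ∧ q.2.2.1.Coprime m := by
      by_contra h
      exact w3 (by simp only [hα, if_neg h])
    have k4 : Odd q.2.2.2 ∧ q.2.2.2.Coprime m := by
      by_contra h
      exact w4 (by simp only [hβ, if_neg h])
    exact ⟨k1, k2.1, k2.2.1, k2.2.2, k3.1, k3.2, k4.1, k4.2⟩
  have hLHS : SQs g m (s * t ^ 2) u1 u2 = ∑' q, G q := by
    have e0 : SQs g m (s * t ^ 2) u1 u2 = ∑' p, f p := rfl
    rw [e0]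
    refine tsum_eq_tsum_of_ne_zero_bij (fun q : Function.support G => rse_dsq_i q.1) ?_ ?_ ?_
    · intro q q' h
      exact Subtype.ext (rse_dsq_inj hs (hGQ _ q.2) (hGQ _ q'.2) h)
    · intro p hp
      have hp' : Odd p.1 ∧ Odd p.2 ∧ IsSquare (p.1 * p.2 * (s * t ^ 2)) ∧
        (p.1 * p.2 * (s * t ^ 2)).Coprime m := by
        by_contra h
        exact hp (by simp only [hf, if_neg h])
      obtain ⟨q, hq, hqp⟩ := rse_dsq_surj hs hst hp'.1 hp'.2.1 hp'.2.2.1 hp'.2.2.2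
      refine ⟨⟨q, ?_⟩, hqp⟩
      rw [Function.mem_support, ← hfG q hq, hqp]
      exact hp
    · intro q
      exact hfG _ (hGQ _ q.2)
  rw [hLHS, hGs.tsum_prod]
  -- the iterated sums
  have hv : ∀ v : ℕ × ℕ, ∑' r, G (v, r) = if v ∈ s.divisorsAntidiagonal then
      1 / √(s : ℝ) * ∑' h : ℕ,
        (if Odd h ∧ Squarefree h ∧ h.Coprime (m * s) then
          1 / (h : ℝ) * (AA g m (Real.log h + (Real.log v.1 + u1)) *
            AA g m (Real.log h + (Real.log v.2 + u2))) else 0) else 0 := by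
    intro v
    simp only [hG]
    rw [tsum_mul_left]
    by_cases hv : v ∈ s.divisorsAntidiagonal
    swap
    · rw [if_neg hv]
      simp only [hw, if_neg hv, zero_mul]
    rw [if_pos hv]
    simp only [hw, if_pos hv]
    congr 1
    have hs2 : Summable fun r : ℕ × ℕ × ℕ => η r.1 * (α v.1 r.1 r.2.1 * β v.2 r.1 r.2.2) :=
      Summable.of_norm_bounded hBd (hG2 v hv)
    rw [hs2.tsum_prod]
    refine tsum_congr fun h => ?_
    simp only
    rw [tsum_mul_left]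
    by_cases hh : Odd h ∧ Squarefree h ∧ h.Coprime (m * s)
    swap
    · simp only [hη, if_neg hh, zero_mul]
    simp only [hη, if_pos hh]
    congr 1
    obtain ⟨p1, p2⟩ := hvpos v hv
    have sα : Summable fun a => ‖α v.1 h a‖ := by
      refine Summable.of_nonneg_of_le (fun a => norm_nonneg _)
        (fun a => hαβ u1 v.1 h a p1 hh.1.pos) (hsum3.mul_left _)
    have sβ : Summable fun a => ‖β v.2 h a‖ := by
      refine Summable.of_nonneg_of_le (fun a => norm_nonneg _)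
        (fun a => hαβ u2 v.2 h a p2 hh.1.pos) (hsum3.mul_left _)
    rw [← tsum_mul_tsum_of_summable_norm sα sβ]
    rfl
  simp only [hv]
  rw [tsum_eq_sum (s := s.divisorsAntidiagonal) (fun v hv => by rw [if_neg hv]), Finset.mul_sum]
  refine Finset.sum_congr rfl fun v hv => ?_
  rw [if_pos hv]

end Pool.Agent.RSE

namespace Pool.Agent.RSE

alias dsq_eq := dsq_eq_pr

end Pool.Agent.RSE
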