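import Pool.Agent.Lib_helper39.RSE.Defs
import Pool.Agent.Lib_helper39.RSA.DefsB
/-!
# Block RB (helper24): bounds for products over the prime divisors
-/

namespace Pool.Agent.RSE

open Complex MeasureTheory Filter Topology
open Pool.Agent.RC (cc psi rv f0 IsRC Good gm pr DD)
open scoped ContDiff

/-- a product over the prime divisors whose factors are eventually at most `p^ε` -/
theorem rse_rb_gen {f : ℕ → ℝ} {ε : ℝ} (hε : 0 ≤ ε) (h0 : ∀ p, p.Prime → 0 ≤ f p) (P : ℕ)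
    (hP : ∀ p, p.Prime → P ≤ p → f p ≤ (p : ℝ) ^ ε) : ∃ C : ℝ, 0 < C ∧ ∀ R : ℕ, 0 < R →
    ∏ p ∈ R.primeFactors, f p ≤ C * (R : ℝ) ^ ε := by
  have hC1 : (1 : ℝ) ≤ ∏ p ∈ Finset.range P, max 1 (f p) := by
    have h := Finset.prod_le_prod (s := Finset.range P) (f := fun _ => (1 : ℝ))
      (g := fun p => max 1 (f p)) (fun _ _ => zero_le_one) (fun p _ => le_max_left _ _)
    simpa using h
  refine ⟨∏ p ∈ Finset.range P, max 1 (f p), by linarith, fun R hR => ?_⟩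
  have h1 : ∏ p ∈ R.primeFactors, f p ≤
      ∏ p ∈ R.primeFactors, ((if p < P then max 1 (f p) else 1) * (p : ℝ) ^ ε) := by
    refine Finset.prod_le_prod (fun p hp => h0 p (Nat.prime_of_mem_primeFactors hp))
      (fun p hp => ?_)
    have hpp := Nat.prime_of_mem_primeFactors hp
    have hp1 : (1 : ℝ) ≤ (p : ℝ) ^ ε :=
      Real.one_le_rpow (by exact_mod_cast hpp.one_lt.le) hε
    by_cases h : p < P
    · rw [if_pos h]
      calc f p ≤ max 1 (f p) := le_max_right _ _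
        _ = max 1 (f p) * 1 := (mul_one _).symm
        _ ≤ max 1 (f p) * (p : ℝ) ^ ε :=
            mul_le_mul_of_nonneg_left hp1 (le_trans zero_le_one (le_max_left _ _))
    · rw [if_neg h, one_mul]
      exact hP p hpp (not_lt.1 h)
  refine h1.trans ?_
  rw [Finset.prod_mul_distrib]
  have h2 : ∏ p ∈ R.primeFactors, (if p < P then max 1 (f p) else 1) ≤
      ∏ p ∈ Finset.range P, max 1 (f p) := by
    rw [← Finset.prod_filter]
    have hsub : R.primeFactors.filter (fun p => p < P) ⊆ Finset.range P := fun p hp =>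
      Finset.mem_range.2 (Finset.mem_filter.1 hp).2
    rw [← Finset.prod_sdiff hsub]
    have h5 : (1 : ℝ) ≤ ∏ p ∈ Finset.range P \ R.primeFactors.filter (fun p => p < P),
        max 1 (f p) := by
      have h := Finset.prod_le_prod (s := Finset.range P \ R.primeFactors.filter (fun p => p < P))
        (f := fun _ => (1 : ℝ)) (g := fun p => max 1 (f p)) (fun _ _ => zero_le_one)
        (fun p _ => le_max_left _ _)
      simpa using h
    refine le_mul_of_one_le_left ?_ h5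
    exact Finset.prod_nonneg fun p _ => le_trans zero_le_one (le_max_left _ _)
  have h3 : ∏ p ∈ R.primeFactors, (p : ℝ) ^ ε ≤ (R : ℝ) ^ ε := by
    rw [Real.finsetProd_rpow _ _ (fun p _ => Nat.cast_nonneg p)]
    refine Real.rpow_le_rpow (Finset.prod_nonneg fun p _ => Nat.cast_nonneg p) ?_ hε
    have h4 : ∏ p ∈ R.primeFactors, p ≤ R := Nat.le_of_dvd hR (Nat.prod_primeFactors_dvd R)
    calc ∏ p ∈ R.primeFactors, (p : ℝ) = ((∏ p ∈ R.primeFactors, p : ℕ) : ℝ) := by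
          push_cast
          rfl
      _ ≤ (R : ℝ) := by exact_mod_cast h4
  refine mul_le_mul h2 h3 (Finset.prod_nonneg fun p _ => by positivity) (by linarith)

theorem rse_rb_inv_pos {p : ℕ} (hp : p.Prime) : 0 < 1 - (p : ℝ) ^ (-(3 / 4) : ℝ) := by
  have h1 : (1 : ℝ) < p := by exact_mod_cast hp.one_lt
  have h2 : (p : ℝ) ^ (-(3 / 4) : ℝ) < 1 := Real.rpow_lt_one_of_one_lt_of_neg h1 (by norm_num)
  linarith

/-- RB. -/
theorem rb_bound_pr : ∃ C : ℝ, 0 < C ∧ ∀ R : ℕ, 0 < R →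
    E1 R * ∏ p ∈ R.primeFactors, (1 - (p : ℝ) ^ (-(3 / 4) : ℝ))⁻¹ ≤
      C * (R : ℝ) ^ (1 / 16 : ℝ) := by
  have hlim : Tendsto (fun p : ℕ => (1 + 1 / √(p : ℝ)) * (1 - (p : ℝ) ^ (-(3 / 4) : ℝ))⁻¹)
      atTop (𝓝 1) := by
    have h1 : Tendsto (fun p : ℕ => 1 / √(p : ℝ)) atTop (𝓝 0) := by
      have h2 : Tendsto (fun p : ℕ => √(p : ℝ)) atTop atTop :=
        Real.tendsto_sqrt_atTop.comp tendsto_natCast_atTop_atTop
      have h3 := h2.inv_tendsto_atTop
      refine h3.congr fun p => ?_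
      rw [Pi.inv_apply, one_div]
    have h2 : Tendsto (fun p : ℕ => (p : ℝ) ^ (-(3 / 4) : ℝ)) atTop (𝓝 0) :=
      (tendsto_rpow_neg_atTop (by norm_num : (0 : ℝ) < 3 / 4)).comp tendsto_natCast_atTop_atTop
    have h3 : Tendsto (fun p : ℕ => (1 + 1 / √(p : ℝ)) * (1 - (p : ℝ) ^ (-(3 / 4) : ℝ))⁻¹)
        atTop (𝓝 ((1 + 0) * (1 - 0)⁻¹)) :=
      (h1.const_add 1).mul ((h2.const_sub 1).inv₀ (by norm_num))
    simpa using h3
  have hlim2 : Tendsto (fun p : ℕ => (p : ℝ) ^ (1 / 16 : ℝ)) atTop atTop :=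
    (tendsto_rpow_atTop (by norm_num)).comp tendsto_natCast_atTop_atTop
  have hev : ∀ᶠ p : ℕ in atTop, (1 + 1 / √(p : ℝ)) * (1 - (p : ℝ) ^ (-(3 / 4) : ℝ))⁻¹ ≤
      (p : ℝ) ^ (1 / 16 : ℝ) := by
    filter_upwards [hlim.eventually (eventually_le_nhds (by norm_num : (1 : ℝ) < 2)),
      hlim2.eventually (eventually_ge_atTop 2)] with p h1 h2
    exact h1.trans h2
  obtain ⟨P, hP⟩ := eventually_atTop.1 hev
  obtain ⟨C, hC, h⟩ := rse_rb_gen
    (f := fun p : ℕ => (1 + 1 / √(p : ℝ)) * (1 - (p : ℝ) ^ (-(3 / 4) : ℝ))⁻¹)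
    (ε := 1 / 16) (by norm_num)
    (fun p hp => mul_nonneg (by positivity) (inv_nonneg.2 (rse_rb_inv_pos hp).le)) P
    (fun p _ h => hP p h)
  refine ⟨C, hC, fun R hR => ?_⟩
  unfold E1
  rw [← Finset.prod_mul_distrib]
  exact h R hR

theorem rse_rb_sd_card (n : ℕ) (hn : 0 < n) : ((sd n).card : ℝ) ≤
    ∏ _p ∈ n.primeFactors, (2 : ℝ) := by
  have h1 : (sd n).card ≤ n.primeFactors.powerset.card := by
    refine Finset.card_le_card_of_injOn (fun d => d.primeFactors) ?_ ?_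
    · intro d hd
      have hd' : d ∣ n ∧ n ≠ 0 := Nat.mem_divisors.1 (Finset.mem_filter.1 hd).1
      exact Finset.mem_coe.2 (Finset.mem_powerset.2 (Nat.primeFactors_mono hd'.1 hd'.2))
    · intro d hd e he hde
      have hd2 : Squarefree d := (Finset.mem_filter.1 hd).2
      have he2 : Squarefree e := (Finset.mem_filter.1 he).2
      rw [← Nat.prod_primeFactors_of_squarefree hd2, ← Nat.prod_primeFactors_of_squarefree he2]
      simp only at hde
      rw [hde]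
  rw [Finset.card_powerset] at h1
  rw [Finset.prod_const]
  exact_mod_cast h1

theorem sd_le_pr : ∃ C : ℝ, 0 < C ∧ ∀ n : ℕ, 0 < n →
    ((sd n).card : ℝ) ≤ C * (n : ℝ) ^ (1 / 16 : ℝ) := by
  obtain ⟨C, hC, h⟩ := rse_rb_gen (f := fun _ : ℕ => (2 : ℝ)) (ε := 1 / 16) (by norm_num)
    (fun _ _ => by norm_num) (2 ^ 16) (fun p _ hp => by
      have h1 : ((2 : ℝ) ^ (16 : ℕ)) ^ (1 / 16 : ℝ) ≤ (p : ℝ) ^ (1 / 16 : ℝ) := by
        refine Real.rpow_le_rpow (by positivity) ?_ (by norm_num)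
        exact_mod_cast hp
      have h2 : ((2 : ℝ) ^ (16 : ℕ)) ^ (1 / 16 : ℝ) = 2 := by
        rw [← Real.rpow_natCast, ← Real.rpow_mul (by norm_num)]
        norm_num
      rw [h2] at h1
      exact h1)
  exact ⟨C, hC, fun n hn => (rse_rb_sd_card n hn).trans (h n hn)⟩

theorem rse_rb_fac (p : ℕ) : (1 : ℝ) ≤ 1 + 1 / √(p : ℝ) := by
  have : 0 ≤ 1 / √(p : ℝ) := by positivity
  linarith

theorem E1_pos_pr (n : ℕ) : 1 ≤ E1 n := by
  unfold E1
  have h := Finset.prod_le_prod (s := n.primeFactors) (f := fun _ => (1 : ℝ))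
    (g := fun p : ℕ => 1 + 1 / √(p : ℝ)) (fun _ _ => zero_le_one) (fun p _ => rse_rb_fac p)
  simpa using h

theorem E1_mul_le_pr (m n : ℕ) (hm : 0 < m) (hn : 0 < n) : E1 (m * n) ≤ E1 m * E1 n := by
  unfold E1
  rw [Nat.primeFactors_mul hm.ne' hn.ne']
  have h1 := Finset.prod_union_inter (s₁ := m.primeFactors) (s₂ := n.primeFactors)
    (f := fun p : ℕ => 1 + 1 / √(p : ℝ))
  rw [← h1]
  have h2 : (1 : ℝ) ≤ ∏ p ∈ m.primeFactors ∩ n.primeFactors, (1 + 1 / √(p : ℝ)) := by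
    have h := Finset.prod_le_prod (s := m.primeFactors ∩ n.primeFactors) (f := fun _ => (1 : ℝ))
      (g := fun p : ℕ => 1 + 1 / √(p : ℝ)) (fun _ _ => zero_le_one) (fun p _ => rse_rb_fac p)
    simpa using h
  refine le_mul_of_one_le_right ?_ h2
  exact Finset.prod_nonneg fun p _ => by positivity

theorem E1_odd_le_pr (s : ℕ) (hs : Odd s) : E1 s ≤ √(s : ℝ) := by
  have hs0 : 0 < s := hs.pos
  have h1 : E1 s ≤ ∏ p ∈ s.primeFactors, √(p : ℝ) := by
    unfold E1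
    refine Finset.prod_le_prod (fun p _ => by positivity) (fun p hp => ?_)
    have hpp := Nat.prime_of_mem_primeFactors hp
    have hp2 : p ≠ 2 := by
      intro h
      have h3 : 2 ∣ s := h ▸ Nat.dvd_of_mem_primeFactors hp
      exact (Nat.not_even_iff_odd.2 hs) (even_iff_two_dvd.2 h3)
    have hp3 : 3 ≤ p := by
      have := hpp.two_le
      omega
    have hp3' : (3 : ℝ) ≤ p := by exact_mod_cast hp3
    have hsq : 0 < √(p : ℝ) := Real.sqrt_pos.2 (by linarith)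
    have hss : √(p : ℝ) * √(p : ℝ) = p := Real.mul_self_sqrt (by linarith)
    have h4 : √(p : ℝ) + 1 ≤ p := by
      have h5 : (1.7 : ℝ) ≤ √(p : ℝ) := by
        refine Real.le_sqrt_of_sq_le ?_
        norm_num
        linarith
      nlinarith
    rw [← sub_nonneg]
    have h5 : √(p : ℝ) - (1 + 1 / √(p : ℝ)) = (p - (√(p : ℝ) + 1)) / √(p : ℝ) := by
      field_simp
      rw [sq, hss]
    rw [h5]
    exact div_nonneg (by linarith) hsq.le
  refine h1.trans ?_
  refine Real.le_sqrt_of_sq_le ?_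
  rw [← Finset.prod_pow]
  have h6 : ∏ p ∈ s.primeFactors, √(p : ℝ) ^ 2 = ((∏ p ∈ s.primeFactors, p : ℕ) : ℝ) := by
    push_cast
    exact Finset.prod_congr rfl fun p _ => Real.sq_sqrt (Nat.cast_nonneg p)
  rw [h6]
  exact_mod_cast Nat.le_of_dvd hs0 (Nat.prod_primeFactors_dvd s)

end Pool.Agent.RSE

namespace Pool.Agent.RSE

alias rb_bound := rb_bound_pr

alias sd_le := sd_le_pr

alias E1_pos := E1_pos_pr

alias E1_mul_le := E1_mul_le_pr

alias E1_odd_le := E1_odd_le_pr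

end Pool.Agent.RSE
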