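import Pool.Agent.Lib_helper39.RSE.Defs
import Pool.Agent.Lib_helper39.RSA.DefsB
import Pool.Agent.Lib_helper39.RSA.EM
/-!
# RSE block SQF: summation over squarefree integers prime to `R`
-/

namespace Pool.Agent.RSE

open Complex MeasureTheory Filter Topology ArithmeticFunction
open scoped ContDiff

/-! ### absolute bound and translations -/

lemma rse_sqf_tele (f : ℝ → ℝ) (hf : Continuous f) (N : ℕ) :
    ∑ n ∈ Finset.range N, ∫ y in (Real.log ((n : ℝ) + 1))..(Real.log ((n : ℝ) + 2)), f y =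
      ∫ y in (0 : ℝ)..(Real.log ((N : ℝ) + 1)), f y := by
  induction N with
  | zero => simp
  | succ N ih =>
    have hcast : Real.log (((N + 1 : ℕ) : ℝ) + 1) = Real.log ((N : ℝ) + 2) := by
      congr 1; push_cast; ring
    rw [Finset.sum_range_succ, ih, hcast, intervalIntegral.integral_add_adjacent_intervals
      (hf.intervalIntegrable _ _) (hf.intervalIntegrable _ _)]

lemma rse_sqf_ii (f : ℝ → ℝ) (h0 : ∀ y, 0 ≤ f y) (hi : Integrable f) {b : ℝ} (hb : 0 ≤ b) :
    ∫ y in (0 : ℝ)..b, f y ≤ ∫ y : ℝ, f y := by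
  rw [intervalIntegral.integral_of_le hb]
  exact setIntegral_le_integral hi (Filter.Eventually.of_forall h0)

/-- the absolute bound -/
lemma rse_sqf_abs {F : ℝ → ℂ} (hF : ContDiff ℝ 1 F) (h1 : Integrable F)
    (h2 : Integrable (deriv F)) :
    Summable (fun n : ℕ => if 0 < n then ‖F (Real.log n)‖ / n else 0) ∧
    ∑' n : ℕ, (if 0 < n then ‖F (Real.log n)‖ / n else 0) ≤
      2 * ∫ y : ℝ, (‖F y‖ + ‖deriv F y‖) := by
  have hcF := hF.continuous
  have hcF' : Continuous (deriv F) := hF.continuous_deriv (le_refl _)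
  set w : ℝ → ℝ := fun y => ‖F y‖ + ‖deriv F y‖ with hw
  have hw0 : ∀ y, 0 ≤ w y := fun y => by positivity
  have hwi : Integrable w := h1.norm.add h2.norm
  have hwc : Continuous w := hcF.norm.add hcF'.norm
  have hlog0 : ∀ n : ℕ, 0 ≤ Real.log ((n : ℝ) + 1) := fun n => Real.log_nonneg (by
    have : (0 : ℝ) ≤ n := Nat.cast_nonneg n
    linarith)
  have hlog : ∀ n : ℕ, Real.log ((n : ℝ) + 1) ≤ Real.log ((n : ℝ) + 2) := fun n =>
    Real.log_le_log (by positivity) (by linarith)
  have hH'w : ∀ y, 0 ≤ y → ‖rse_em_H' F y‖ ≤ w y := by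
    intro y hy
    unfold rse_em_H'
    rw [norm_mul, Complex.norm_real, Real.norm_of_nonneg (Real.exp_pos _).le]
    have h3 : Real.exp (-y) ≤ 1 := by rw [Real.exp_le_one_iff]; linarith
    refine (mul_le_of_le_one_left (norm_nonneg _) h3).trans ?_
    simp only [hw]
    rw [add_comm]
    exact norm_sub_le _ _
  have hterm : ∀ n : ℕ, ‖F (Real.log ((n + 1 : ℕ) : ℝ))‖ / ((n + 1 : ℕ) : ℝ) ≤
      (∫ y in (Real.log ((n : ℝ) + 1))..(Real.log ((n : ℝ) + 2)), w y) +
      ∫ y in (Real.log ((n : ℝ) + 1))..(Real.log ((n : ℝ) + 2)), w y := by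
    intro n
    have e1 : ‖F (Real.log ((n + 1 : ℕ) : ℝ))‖ / ((n + 1 : ℕ) : ℝ) =
        ‖rse_em_H F (Real.log ((n : ℝ) + 1))‖ := by
      unfold rse_em_H
      rw [norm_mul, Complex.norm_real, Real.norm_of_nonneg (Real.exp_pos _).le, Real.exp_neg,
        Real.exp_log (by positivity)]
      push_cast
      ring
    rw [e1]
    have h3 := rse_em_cell hF (n := n)
    have h4 : ‖∫ y in (Real.log ((n : ℝ) + 1))..(Real.log ((n : ℝ) + 2)), F y‖ ≤
        ∫ y in (Real.log ((n : ℝ) + 1))..(Real.log ((n : ℝ) + 2)), w y := by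
      refine (intervalIntegral.norm_integral_le_integral_norm (hlog n)).trans ?_
      refine intervalIntegral.integral_mono_on (hlog n) (hcF.norm.intervalIntegrable _ _)
        (hwc.intervalIntegrable _ _) fun y _ => ?_
      simp only [hw]
      linarith [norm_nonneg (deriv F y)]
    have h6 : ∫ y in (Real.log ((n : ℝ) + 1))..(Real.log ((n : ℝ) + 2)), ‖rse_em_H' F y‖ ≤
        ∫ y in (Real.log ((n : ℝ) + 1))..(Real.log ((n : ℝ) + 2)), w y :=
      intervalIntegral.integral_mono_on (hlog n)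
        ((rse_em_contH' hF).norm.intervalIntegrable _ _)
        (hwc.intervalIntegrable _ _) fun y hy => hH'w y ((hlog0 n).trans hy.1)
    have h5 : rse_em_H F (Real.log ((n : ℝ) + 1)) = (rse_em_H F (Real.log ((n : ℝ) + 1)) -
      ∫ y in (Real.log ((n : ℝ) + 1))..(Real.log ((n : ℝ) + 2)), F y) +
      ∫ y in (Real.log ((n : ℝ) + 1))..(Real.log ((n : ℝ) + 2)), F y := by ring
    rw [h5]
    exact (norm_add_le _ _).trans (add_le_add (h3.trans h6) h4)
  have hw2 : 0 ≤ ∫ y : ℝ, w y := integral_nonneg hw0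
  have hpart : ∀ N : ℕ, ∑ n ∈ Finset.range N, (if 0 < n then ‖F (Real.log n)‖ / n else 0) ≤
      2 * ∫ y : ℝ, w y := by
    intro N
    cases N with
    | zero => simpa using hw2
    | succ N =>
      rw [Finset.sum_range_succ']
      simp only [lt_irrefl, if_false, add_zero, Nat.succ_pos, if_true]
      refine (Finset.sum_le_sum fun n _ => hterm n).trans ?_
      rw [Finset.sum_add_distrib, rse_sqf_tele w hwc]
      have := rse_sqf_ii w hw0 hwi (hlog0 N)
      linarith
  have h0 : ∀ n : ℕ, 0 ≤ (if 0 < n then ‖F (Real.log n)‖ / n else 0) := fun n => by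
    split_ifs
    · positivity
    · exact le_rfl
  have hs := summable_of_sum_range_le h0 hpart
  exact ⟨hs, hs.tsum_le_of_sum_range_le hpart⟩

section shift
variable {F : ℝ → ℂ}

lemma rse_sqf_sh_cd (hF : ContDiff ℝ 1 F) (l : ℝ) : ContDiff ℝ 1 (fun y => F (y + l)) :=
  hF.comp (contDiff_id.add contDiff_const)

lemma rse_sqf_sh_deriv (l : ℝ) : deriv (fun y => F (y + l)) = fun y => deriv F (y + l) := by
  funext y
  exact deriv_comp_add_const F l y

lemma rse_sqf_abs_sh (hF : ContDiff ℝ 1 F) (h1 : Integrable F)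
    (h2 : Integrable (deriv F)) (l : ℝ) :
    Summable (fun n : ℕ => if 0 < n then ‖F (Real.log n + l)‖ / n else 0) ∧
    ∑' n : ℕ, (if 0 < n then ‖F (Real.log n + l)‖ / n else 0) ≤
      2 * ∫ y : ℝ, (‖F y‖ + ‖deriv F y‖) := by
  have := rse_sqf_abs (rse_sqf_sh_cd hF l) (h1.comp_add_right l)
    (by rw [rse_sqf_sh_deriv]; exact h2.comp_add_right l)
  rw [rse_sqf_sh_deriv] at this
  rw [integral_add_right_eq_self (fun y => ‖F y‖ + ‖deriv F y‖) l] at this
  exact this

lemma rse_sqf_em (Q : ℕ) (hQ : 0 < Q) (χ : ℕ → ℝ) (hper : ∀ n, χ (n + Q) = χ n)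
    (hb : ∀ n, |χ n| ≤ 1) (hF : ContDiff ℝ 1 F) (h1 : Integrable F)
    (h2 : Integrable (deriv F)) (δ : ℝ) (hδ0 : 0 ≤ δ) (hδ1 : δ ≤ 1 / 4)
    (h3 : Integrable (fun y => Real.exp (-δ * y) * (‖F y‖ + ‖deriv F y‖))) (l : ℝ) :
    Summable (fun n : ℕ => if 0 < n then (χ n : ℂ) / n * F (Real.log n + l) else 0) ∧
    ‖(∑' n : ℕ, if 0 < n then (χ n : ℂ) / n * F (Real.log n + l) else 0) -
      (((∑ x ∈ Finset.range Q, χ x) / Q : ℝ) : ℂ) * ∫ y : ℝ, F y‖ ≤
        2 * Q * (Real.exp (δ * l) *
          ∫ y : ℝ, Real.exp (-δ * y) * (‖F y‖ + ‖deriv F y‖)) := by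
  have hA := em_sum_pr Q hQ χ hper hb (fun y => F (y + l)) (rse_sqf_sh_cd hF l)
    (h1.comp_add_right l) (by rw [rse_sqf_sh_deriv]; exact h2.comp_add_right l)
  rw [rse_sqf_sh_deriv, integral_add_right_eq_self F l] at hA
  refine ⟨hA.1, hA.2.trans ?_⟩
  refine mul_le_mul_of_nonneg_left ?_ (by positivity)
  have hcF := hF.continuous
  have hcF' : Continuous (deriv F) := hF.continuous_deriv (le_refl _)
  have e1 : ∀ y : ℝ, Real.exp (-δ * y) * (‖F (y + l)‖ + ‖deriv F (y + l)‖) =
      Real.exp (δ * l) * (Real.exp (-δ * (y + l)) * (‖F (y + l)‖ + ‖deriv F (y + l)‖)) := by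
    intro y
    rw [← mul_assoc, ← Real.exp_add]
    congr 2
    ring
  have e2 : ∫ y : ℝ, Real.exp (-δ * y) * (‖F (y + l)‖ + ‖deriv F (y + l)‖) =
      Real.exp (δ * l) * ∫ y : ℝ, Real.exp (-δ * y) * (‖F y‖ + ‖deriv F y‖) := by
    simp only [e1]
    rw [integral_const_mul,
      integral_add_right_eq_self (fun y => Real.exp (-δ * y) * (‖F y‖ + ‖deriv F y‖)) l]
  rw [← e2]
  have hi2 : Integrable fun y : ℝ => Real.exp (-δ * y) * (‖F (y + l)‖ + ‖deriv F (y + l)‖) := by
    simp only [e1]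
    exact (h3.comp_add_right l).const_mul _
  refine integral_mono_of_nonneg (Filter.Eventually.of_forall fun y => ?_) hi2
    (Filter.Eventually.of_forall fun y => ?_)
  · have : 0 ≤ min 1 (Real.exp (-y)) := le_min zero_le_one (Real.exp_pos _).le
    simp only [Pi.zero_apply]
    positivity
  · refine mul_le_mul_of_nonneg_right ?_ (by positivity)
    rcases le_total 0 y with hy | hy
    · refine (min_le_right _ _).trans (Real.exp_le_exp.2 ?_)
      nlinarith
    · refine (min_le_left _ _).trans (Real.one_le_exp ?_)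
      nlinarith

end shift

/-! ### arithmetic -/

lemma rse_sqf_mult_tsum {e : ℕ} (he : 0 < e) (a : ℕ → ℂ) :
    ∑' n : ℕ, (if e ∣ n then a n else 0) = ∑' k : ℕ, a (e * k) := by
  have hinj : Function.Injective fun k : ℕ => e * k := fun x y hxy => Nat.eq_of_mul_eq_mul_left he hxy
  rw [← hinj.tsum_eq]
  · simp
  · intro n hn
    have : e ∣ n := by
      by_contra h
      simp [h] at hn
    obtain ⟨k, rfl⟩ := this
    exact ⟨k, rfl⟩

lemma rse_sqf_mult_summable {e : ℕ} (he : 0 < e) {a : ℕ → ℝ} (h : Summable fun k => a (e * k)) :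
    Summable fun n : ℕ => (if e ∣ n then a n else 0) := by
  have hinj : Function.Injective fun k : ℕ => e * k := fun x y hxy => Nat.eq_of_mul_eq_mul_left he hxy
  rw [← hinj.summable_iff]
  · simpa [Function.comp_def] using h
  · intro n hn
    rw [if_neg]
    rintro ⟨k, rfl⟩
    exact hn ⟨k, rfl⟩

lemma rse_sqf_mult_tsum_real {e : ℕ} (he : 0 < e) (a : ℕ → ℝ) :
    ∑' n : ℕ, (if e ∣ n then a n else 0) = ∑' k : ℕ, a (e * k) := by
  have hinj : Function.Injective fun k : ℕ => e * k := fun x y hxy => Nat.eq_of_mul_eq_mul_left he hxy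
  rw [← hinj.tsum_eq]
  · simp
  · intro n hn
    have : e ∣ n := by
      by_contra h
      simp [h] at hn
    obtain ⟨k, rfl⟩ := this
    exact ⟨k, rfl⟩

lemma rse_sqf_moebius_sum (n : ℕ) :
    ∑ d ∈ n.divisors, (ArithmeticFunction.moebius d : ℂ) = if n = 1 then 1 else 0 := by
  have h := congrArg (fun f : ArithmeticFunction ℤ => f n) moebius_mul_coe_zeta
  simp only [coe_mul_zeta_apply, ArithmeticFunction.one_apply] at h
  have h2 := congrArg (fun z : ℤ => (z : ℂ)) h
  push_cast at h2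
  exact h2

lemma rse_sqf_coprime {R : ℕ} (hR : 0 < R) (k : ℕ) :
    ∑ e ∈ R.divisors, (if e ∣ k then (ArithmeticFunction.moebius e : ℂ) else 0) =
      if k.Coprime R then 1 else 0 := by
  rw [← Finset.sum_filter]
  have h1 : R.divisors.filter (fun e => e ∣ k) = (Nat.gcd k R).divisors := by
    ext e
    simp only [Finset.mem_filter, Nat.mem_divisors]
    constructor
    · rintro ⟨⟨h1, h2⟩, h3⟩
      exact ⟨Nat.dvd_gcd h3 h1, Nat.gcd_ne_zero_right h2⟩
    · rintro ⟨h1, _⟩
      exact ⟨⟨h1.trans (Nat.gcd_dvd_right _ _), hR.ne'⟩, h1.trans (Nat.gcd_dvd_left _ _)⟩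
  rw [h1, rse_sqf_moebius_sum]

lemma rse_sqf_sq_dvd {a b f : ℕ} (ha : Squarefree a) (hb : 0 < b) (hf : 0 < f) :
    f ^ 2 ∣ b ^ 2 * a ↔ f ∣ b := by
  constructor
  · intro h
    have ha0 : a ≠ 0 := ha.ne_zero
    rw [← Nat.factorization_le_iff_dvd (by positivity) (by positivity)] at h
    rw [← Nat.factorization_le_iff_dvd hf.ne' hb.ne']
    intro p
    have h1 := h p
    rw [Nat.factorization_mul (by positivity) ha0, Nat.factorization_pow,
      Nat.factorization_pow] at h1
    simp only [Finsupp.coe_smul, Finsupp.coe_add, Pi.add_apply, Pi.smul_apply, smul_eq_mul] at h1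
    have h2 := ha.natFactorization_le_one p
    omega
  · intro h
    exact Dvd.dvd.mul_right (pow_dvd_pow_of_dvd h 2) a

lemma rse_sqf_sqfree_tsum {n : ℕ} (hn : 0 < n) :
    (∑' f : ℕ, if 0 < f ∧ f ^ 2 ∣ n then (ArithmeticFunction.moebius f : ℂ) else 0) =
      if Squarefree n then 1 else 0 := by
  obtain ⟨a, b, ha, hb, hab, hsq⟩ := Nat.sq_mul_squarefree_of_pos hn
  rw [tsum_eq_sum (s := b.divisors)]
  · have h1 : ∀ f ∈ b.divisors, (if 0 < f ∧ f ^ 2 ∣ n then
        (ArithmeticFunction.moebius f : ℂ) else 0) = ArithmeticFunction.moebius f := by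
      intro f hf
      have hf' := Nat.dvd_of_mem_divisors hf
      have hf0 : 0 < f := Nat.pos_of_mem_divisors hf
      rw [if_pos]
      exact ⟨hf0, by rw [← hab]; exact (rse_sqf_sq_dvd hsq hb hf0).2 hf'⟩
    rw [Finset.sum_congr rfl h1, rse_sqf_moebius_sum]
    by_cases hb1 : b = 1
    · rw [if_pos hb1, if_pos]
      rw [← hab, hb1]
      simpa using hsq
    · rw [if_neg hb1, if_neg]
      intro hsn
      apply hb1
      have := hsn b ⟨a, by rw [← hab]; ring⟩
      exact Nat.isUnit_iff.1 this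
  · intro f hf
    rw [if_neg]
    rintro ⟨hf0, hf1⟩
    rw [← hab] at hf1
    exact hf (Nat.mem_divisors.2 ⟨(rse_sqf_sq_dvd hsq hb hf0).1 hf1, hb.ne'⟩)

lemma rse_sqf_E1 {R : ℕ} (hR : 0 < R) :
    ∑ e ∈ R.divisors, |(ArithmeticFunction.moebius e : ℝ)| * (1 / √(e : ℝ)) = E1 R := by
  have h1 : ∑ e ∈ R.divisors, |(ArithmeticFunction.moebius e : ℝ)| * (1 / √(e : ℝ)) =
      ∑ e ∈ R.divisors with Squarefree e, 1 / √(e : ℝ) := by
    rw [Finset.sum_filter]
    refine Finset.sum_congr rfl fun e _ => ?_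
    split_ifs with h
    · have h2 := moebius_sq_eq_one_of_squarefree h
      have h3 : ((ArithmeticFunction.moebius e : ℤ) : ℝ) ^ 2 = 1 := by exact_mod_cast h2
      have h4 : |((ArithmeticFunction.moebius e : ℤ) : ℝ)| = 1 := by
        rw [← sq_abs] at h3
        have h5 := abs_nonneg ((ArithmeticFunction.moebius e : ℤ) : ℝ)
        nlinarith
      rw [h4, one_mul]
    · rw [moebius_eq_zero_of_not_squarefree h]
      simp
  rw [h1, Nat.sum_divisors_filter_squarefree hR.ne', E1, Finset.prod_one_add]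
  have h2 : (UniqueFactorizationMonoid.normalizedFactors R).toFinset = R.primeFactors := by
    rw [Nat.factors_eq]
    rfl
  rw [h2]
  refine Finset.sum_congr rfl fun t ht => ?_
  clear ht
  rw [Finset.prod_val]
  induction t using Finset.induction_on with
  | empty => simp
  | insert a s ha ih =>
    rw [Finset.prod_insert ha, Finset.prod_insert ha, ← ih]
    simp only [id]
    push_cast
    rw [Real.sqrt_mul (Nat.cast_nonneg _)]
    field_simp

/-! ### the inner sum -/

lemma rse_sqf_inner (Q : ℕ) (hQ : 0 < Q) (χ : ℕ → ℝ) (hper : ∀ n, χ (n + Q) = χ n)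
    (hb : ∀ n, |χ n| ≤ 1) (hmul : ∀ m n, χ (m * n) = χ m * χ n) {R : ℕ} (hR : 0 < R) {F : ℝ → ℂ}
    (hF : ContDiff ℝ 1 F) (h1 : Integrable F)
    (h2 : Integrable (deriv F)) (δ : ℝ) (hδ0 : 0 ≤ δ) (hδ1 : δ ≤ 1 / 4)
    (h3 : Integrable (fun y => Real.exp (-δ * y) * (‖F y‖ + ‖deriv F y‖))) (l : ℝ) :
    ‖(∑' k : ℕ, if 0 < k ∧ k.Coprime R then (χ k : ℂ) / k * F (Real.log k + l) else 0) -
      (((∑ x ∈ Finset.range Q, χ x) / Q *
        ∑ e ∈ R.divisors, (ArithmeticFunction.moebius e : ℝ) * (χ e / e) : ℝ) : ℂ) *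
        ∫ y : ℝ, F y‖ ≤
        2 * Q * (Real.exp (δ * l) *
          ∫ y : ℝ, Real.exp (-δ * y) * (‖F y‖ + ‖deriv F y‖)) * E1 R := by
  set μ0 : ℝ := (∑ x ∈ Finset.range Q, χ x) / Q with hμ0
  set J : ℝ := ∫ y : ℝ, Real.exp (-δ * y) * (‖F y‖ + ‖deriv F y‖) with hJ
  have hJ0 : 0 ≤ J := integral_nonneg fun y => by positivity
  set T : ℝ → ℂ := fun l => ∑' n : ℕ, (if 0 < n then (χ n : ℂ) / n * F (Real.log n + l) else 0)
    with hT
  have hem := fun l => rse_sqf_em Q hQ χ hper hb hF h1 h2 δ hδ0 hδ1 h3 l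
  set b : ℕ → ℂ := fun k => if 0 < k then (χ k : ℂ) / k * F (Real.log k + l) else 0 with hbdef
  have hbe : ∀ e : ℕ, 0 < e → ∀ k : ℕ, b (e * k) = ((χ e : ℂ) / e) *
      (if 0 < k then (χ k : ℂ) / k * F (Real.log k + (Real.log e + l)) else 0) := by
    intro e he k
    simp only [hbdef]
    by_cases hk : 0 < k
    · rw [if_pos (Nat.mul_pos he hk), if_pos hk, hmul]
      have e1 : Real.log ((e * k : ℕ) : ℝ) + l = Real.log k + (Real.log e + l) := by
        push_cast
        rw [Real.log_mul (by positivity) (by positivity)]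
        ring
      rw [e1]
      push_cast
      have : (e : ℂ) ≠ 0 := by exact_mod_cast he.ne'
      have : (k : ℂ) ≠ 0 := by exact_mod_cast hk.ne'
      field_simp
    · have : k = 0 := by omega
      subst this
      simp
  have hkey : (∑' k : ℕ, if 0 < k ∧ k.Coprime R then (χ k : ℂ) / k * F (Real.log k + l) else 0) =
      ∑ e ∈ R.divisors, (ArithmeticFunction.moebius e : ℂ) * (((χ e : ℂ) / e) *
        T (Real.log e + l)) := by
    have e1 : ∀ k : ℕ, (if 0 < k ∧ k.Coprime R then (χ k : ℂ) / k * F (Real.log k + l) else 0) =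
        ∑ e ∈ R.divisors, (if e ∣ k then (ArithmeticFunction.moebius e : ℂ) * b k else 0) := by
      intro k
      have e2 := congrArg (fun z => z * b k) (rse_sqf_coprime hR k)
      simp only [Finset.sum_mul, ite_mul, zero_mul, one_mul] at e2
      rw [e2]
      simp only [hbdef]
      split_ifs <;> simp_all
    simp only [e1]
    have hsum : ∀ e ∈ R.divisors, Summable fun k : ℕ =>
        (if e ∣ k then (ArithmeticFunction.moebius e : ℂ) * b k else 0) := by
      intro e he
      have he0 : 0 < e := Nat.pos_of_mem_divisors he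
      have hinj : Function.Injective fun k : ℕ => e * k :=
        fun x y hxy => Nat.eq_of_mul_eq_mul_left he0 hxy
      rw [← hinj.summable_iff]
      · simp only [Function.comp_def, dvd_mul_right, if_true, hbe e he0]
        exact ((hem _).1.mul_left _).mul_left _
      · intro n hn
        rw [if_neg]
        rintro ⟨k, rfl⟩
        exact hn ⟨k, rfl⟩
    rw [Summable.tsum_finsetSum hsum]
    refine Finset.sum_congr rfl fun e he => ?_
    have he0 : 0 < e := Nat.pos_of_mem_divisors he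
    rw [rse_sqf_mult_tsum he0]
    simp only [hbe e he0]
    rw [tsum_mul_left, tsum_mul_left]
  rw [hkey]
  have hsplit : ∑ e ∈ R.divisors, (ArithmeticFunction.moebius e : ℂ) * (((χ e : ℂ) / e) *
        T (Real.log e + l)) -
      ((μ0 * ∑ e ∈ R.divisors, (ArithmeticFunction.moebius e : ℝ) * (χ e / e) : ℝ) : ℂ) *
        ∫ y : ℝ, F y =
      ∑ e ∈ R.divisors, (ArithmeticFunction.moebius e : ℂ) * (((χ e : ℂ) / e) *
        (T (Real.log e + l) - (μ0 : ℂ) * ∫ y : ℝ, F y)) := by
    push_cast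
    rw [Finset.mul_sum, Finset.sum_mul, ← Finset.sum_sub_distrib]
    refine Finset.sum_congr rfl fun e _ => ?_
    ring
  rw [hsplit]
  refine (norm_sum_le _ _).trans ?_
  calc ∑ e ∈ R.divisors, ‖(ArithmeticFunction.moebius e : ℂ) * (((χ e : ℂ) / e) *
        (T (Real.log e + l) - (μ0 : ℂ) * ∫ y : ℝ, F y))‖
      ≤ ∑ e ∈ R.divisors, (2 * Q * (Real.exp (δ * l) * J)) *
          (|(ArithmeticFunction.moebius e : ℝ)| * (1 / √(e : ℝ))) := by
        refine Finset.sum_le_sum fun e he => ?_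
        have he0 : 0 < e := Nat.pos_of_mem_divisors he
        have he1 : (1 : ℝ) ≤ e := by exact_mod_cast he0
        have he2 : (0 : ℝ) < e := by positivity
        rw [norm_mul, norm_mul, norm_div, Complex.norm_real, Complex.norm_natCast]
        have n1 : ‖((ArithmeticFunction.moebius e : ℤ) : ℂ)‖ =
            |(ArithmeticFunction.moebius e : ℝ)| := by
          rw [Complex.norm_intCast]
        rw [n1]
        have n2 : ‖χ e‖ ≤ 1 := hb e
        have n3 := (hem (Real.log e + l)).2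
        have n4 : Real.exp (δ * (Real.log e + l)) ≤ √(e : ℝ) * Real.exp (δ * l) := by
          rw [mul_add, Real.exp_add]
          refine mul_le_mul_of_nonneg_right ?_ (Real.exp_pos _).le
          rw [Real.sqrt_eq_rpow, Real.rpow_def_of_pos he2]
          refine Real.exp_le_exp.2 ?_
          have := Real.log_nonneg he1
          nlinarith
        have n5 : ‖T (Real.log e + l) - (μ0 : ℂ) * ∫ y : ℝ, F y‖ ≤
            2 * Q * ((√(e : ℝ) * Real.exp (δ * l)) * J) :=
          n3.trans (mul_le_mul_of_nonneg_left (mul_le_mul_of_nonneg_right n4 hJ0) (by positivity))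
        have n6 : ‖χ e‖ / (e : ℝ) ≤ 1 / e := div_le_div_of_nonneg_right n2 he2.le
        calc |(ArithmeticFunction.moebius e : ℝ)| * (‖χ e‖ / (e : ℝ) *
              ‖T (Real.log e + l) - (μ0 : ℂ) * ∫ y : ℝ, F y‖)
            ≤ |(ArithmeticFunction.moebius e : ℝ)| * (1 / (e : ℝ) *
              (2 * Q * ((√(e : ℝ) * Real.exp (δ * l)) * J))) := by
              refine mul_le_mul_of_nonneg_left ?_ (abs_nonneg _)
              exact mul_le_mul n6 n5 (norm_nonneg _) (by positivity)
          _ = 2 * Q * (Real.exp (δ * l) * J) *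
              (|(ArithmeticFunction.moebius e : ℝ)| * (1 / √(e : ℝ))) := by
              have hs : (e : ℝ) = √(e : ℝ) * √(e : ℝ) := (Real.mul_self_sqrt he2.le).symm
              have hs0 : √(e : ℝ) ≠ 0 := (Real.sqrt_pos.2 he2).ne'
              have e7 : √(e : ℝ) / (e : ℝ) = 1 / √(e : ℝ) := by
                rw [div_eq_div_iff he2.ne' hs0, one_mul]
                exact hs.symm
              calc _ = 2 * Q * (Real.exp (δ * l) * J) *
                    (|(ArithmeticFunction.moebius e : ℝ)| * (√(e : ℝ) / (e : ℝ))) := by ring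
                _ = _ := by rw [e7]
    _ = 2 * Q * (Real.exp (δ * l) * J) * E1 R := by
        rw [← Finset.mul_sum, rse_sqf_E1 hR]

theorem sqf_sum_pr : ∃ C : ℝ, 0 < C ∧ ∀ (Q : ℕ) (χ : ℕ → ℝ), 0 < Q → (∀ n, χ (n + Q) = χ n) →
    (∀ n, |χ n| ≤ 1) → χ 1 = 1 → (∀ m n, χ (m * n) = χ m * χ n) → ∀ R : ℕ, 0 < R →
    ∃ M : ℝ, ∀ δ : ℝ, 0 ≤ δ → δ ≤ 1 / 4 → ∀ F : ℝ → ℂ, ContDiff ℝ 1 F → Integrable F →
      Integrable (deriv F) → Integrable (fun y => Real.exp (-δ * y) * (‖F y‖ + ‖deriv F y‖)) →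
    Summable (fun n : ℕ => if 0 < n ∧ Squarefree n ∧ n.Coprime R then
      (χ n : ℂ) / n * F (Real.log n) else 0) ∧
    ‖(∑' n : ℕ, if 0 < n ∧ Squarefree n ∧ n.Coprime R then
      (χ n : ℂ) / n * F (Real.log n) else 0) - (M : ℂ) * ∫ y : ℝ, F y‖ ≤
        C * Q * E1 R * ∫ y : ℝ, Real.exp (-δ * y) * (‖F y‖ + ‖deriv F y‖) := by
  set Z : ℝ := ∑' f : ℕ, (f : ℝ) ^ (-(3 / 2) : ℝ) with hZ
  have hZs : Summable fun f : ℕ => (f : ℝ) ^ (-(3 / 2) : ℝ) :=
    Real.summable_nat_rpow.2 (by norm_num)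
  have hZ0 : 0 ≤ Z := tsum_nonneg fun f => by positivity
  refine ⟨2 * Z + 1, by positivity, ?_⟩
  intro Q χ hQ hper hb hχ1 hmul R hR
  set κ : ℝ := (∑ x ∈ Finset.range Q, χ x) / Q *
        ∑ e ∈ R.divisors, (ArithmeticFunction.moebius e : ℝ) * (χ e / e) with hκ
  set wt : ℕ → ℝ := fun f => if 0 < f ∧ f.Coprime R then
    (ArithmeticFunction.moebius f : ℝ) * (χ f ^ 2 / f ^ 2) else 0 with hwt
  refine ⟨(∑' f, wt f) * κ, ?_⟩
  intro δ hδ0 hδ1 F hF h1 h2 h3
  set J : ℝ := ∫ y : ℝ, Real.exp (-δ * y) * (‖F y‖ + ‖deriv F y‖) with hJ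
  have hJ0 : 0 ≤ J := integral_nonneg fun y => by positivity
  have hE1 : 0 ≤ E1 R := by
    rw [← rse_sqf_E1 hR]
    exact Finset.sum_nonneg fun e _ => by positivity
  set B : ℝ := 2 * ∫ y : ℝ, (‖F y‖ + ‖deriv F y‖) with hB
  have hmu : ∀ n : ℕ, |(ArithmeticFunction.moebius n : ℝ)| ≤ 1 := by
    intro n
    have := abs_moebius_le_one (n := n)
    exact_mod_cast this
  -- the absolute summability
  have habs0 := rse_sqf_abs_sh hF h1 h2 0
  have hs0 : Summable (fun n : ℕ => if 0 < n ∧ Squarefree n ∧ n.Coprime R then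
      (χ n : ℂ) / n * F (Real.log n) else 0) := by
    refine Summable.of_norm_bounded habs0.1 fun n => ?_
    by_cases hn : 0 < n
    · rw [if_pos hn, add_zero]
      split_ifs
      · rw [norm_mul, norm_div, Complex.norm_real, Complex.norm_natCast]
        have : ‖χ n‖ / (n : ℝ) ≤ 1 / n := div_le_div_of_nonneg_right (hb n) (Nat.cast_nonneg _)
        calc ‖χ n‖ / (n : ℝ) * ‖F (Real.log n)‖ ≤ 1 / n * ‖F (Real.log n)‖ :=
              mul_le_mul_of_nonneg_right this (norm_nonneg _)
          _ = _ := by ring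
      · rw [norm_zero]; positivity
    · rw [if_neg hn, if_neg (fun h => hn h.1), norm_zero]
  refine ⟨hs0, ?_⟩
  set a : ℕ → ℂ := fun n => if 0 < n ∧ n.Coprime R then (χ n : ℂ) / n * F (Real.log n) else 0
    with ha
  set u : ℕ → ℕ → ℂ := fun f n => if 0 < f ∧ f ^ 2 ∣ n then
    (ArithmeticFunction.moebius f : ℂ) * a n else 0 with hu
  -- the sum over `f`
  have hun : ∀ n, ∑' f, u f n = if 0 < n ∧ Squarefree n ∧ n.Coprime R then
      (χ n : ℂ) / n * F (Real.log n) else 0 := by
    intro n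
    by_cases hn : 0 < n
    · have e1 : ∀ f, u f n = (if 0 < f ∧ f ^ 2 ∣ n then
          (ArithmeticFunction.moebius f : ℂ) else 0) * a n := by
        intro f
        simp only [hu]
        split_ifs <;> simp
      simp only [e1]
      rw [tsum_mul_right, rse_sqf_sqfree_tsum hn]
      simp only [ha]
      by_cases hs : Squarefree n <;> by_cases hc : n.Coprime R <;> simp [hs, hc, hn]
    · have : n = 0 := by omega
      subst this
      simp [hu, ha]
  -- values of `a` at multiples
  have hak : ∀ f : ℕ, 0 < f → ∀ k : ℕ, a (f ^ 2 * k) =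
      if f.Coprime R then ((χ f ^ 2 / f ^ 2 : ℝ) : ℂ) * (if 0 < k ∧ k.Coprime R then
        (χ k : ℂ) / k * F (Real.log k + 2 * Real.log f) else 0) else 0 := by
    intro f hf k
    simp only [ha]
    by_cases hk : 0 < k
    · have hc : (f ^ 2 * k).Coprime R ↔ f.Coprime R ∧ k.Coprime R := by
        rw [Nat.coprime_mul_iff_left, Nat.coprime_pow_left_iff (by norm_num)]
      have e1 : Real.log ((f ^ 2 * k : ℕ) : ℝ) = Real.log k + 2 * Real.log f := by
        push_cast
        rw [Real.log_mul (by positivity) (by positivity), Real.log_pow]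
        push_cast
        ring
      have e2 : χ (f ^ 2 * k) = χ f ^ 2 * χ k := by rw [hmul, sq f, hmul, sq]
      by_cases hf1 : f.Coprime R
      · by_cases hk1 : k.Coprime R
        · rw [if_pos ⟨by positivity, hc.2 ⟨hf1, hk1⟩⟩, if_pos hf1, if_pos ⟨hk, hk1⟩, e1, e2]
          push_cast
          have : (f : ℂ) ≠ 0 := by exact_mod_cast hf.ne'
          have : (k : ℂ) ≠ 0 := by exact_mod_cast hk.ne'
          field_simp
        · rw [if_neg (fun h => hk1 (hc.1 h.2).2), if_pos hf1, if_neg (fun h => hk1 h.2), mul_zero]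
      · rw [if_neg (fun h => hf1 (hc.1 h.2).1), if_neg hf1]
    · have : k = 0 := by omega
      subst this
      simp
  set S : ℕ → ℂ := fun f => ∑' k : ℕ, (if 0 < k ∧ k.Coprime R then
        (χ k : ℂ) / k * F (Real.log k + 2 * Real.log f) else 0) with hS
  have huf : ∀ f, ∑' n, u f n = (wt f : ℂ) * S f := by
    intro f
    by_cases hf : 0 < f
    · have e1 : ∀ n, u f n = if f ^ 2 ∣ n then
          (ArithmeticFunction.moebius f : ℂ) * a n else 0 := by
        intro n
        simp only [hu, hf, true_and]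
      simp only [e1]
      rw [rse_sqf_mult_tsum (by positivity : 0 < f ^ 2)]
      simp only [hak f hf]
      rw [tsum_mul_left]
      by_cases hf1 : f.Coprime R
      · simp only [if_pos hf1, hwt, hf, true_and]
        rw [tsum_mul_left]
        push_cast
        ring
      · simp only [if_neg hf1, hwt, hf, true_and]
        simp
    · have : f = 0 := by omega
      subst this
      simp [hu, hwt]
  -- summability over pairs
  have hgs : ∀ f : ℕ, 0 < f → Summable (fun n : ℕ => ‖u f n‖) ∧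
      ∑' n, ‖u f n‖ ≤ 1 / (f : ℝ) ^ 2 * B := by
    intro f hf
    have hfr : (0 : ℝ) < f := by exact_mod_cast hf
    obtain ⟨hab, hab'⟩ := rse_sqf_abs_sh hF h1 h2 (2 * Real.log f)
    have e1 : ∀ n, ‖u f n‖ = if f ^ 2 ∣ n then
        |(ArithmeticFunction.moebius f : ℝ)| * ‖a n‖ else 0 := by
      intro n
      simp only [hu, hf, true_and]
      split_ifs
      · rw [norm_mul, Complex.norm_intCast]
      · simp
    have e2 : ∀ k, |(ArithmeticFunction.moebius f : ℝ)| * ‖a (f ^ 2 * k)‖ ≤ 1 / (f : ℝ) ^ 2 *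
        (if 0 < k then ‖F (Real.log k + 2 * Real.log f)‖ / k else 0) := by
      intro k
      rw [hak f hf]
      refine (mul_le_of_le_one_left (norm_nonneg _) (hmu f)).trans ?_
      have h0 : 0 ≤ 1 / (f : ℝ) ^ 2 *
        (if 0 < k then ‖F (Real.log k + 2 * Real.log f)‖ / k else 0) := by
        refine mul_nonneg (by positivity) ?_
        split_ifs
        · positivity
        · exact le_rfl
      by_cases hf1 : f.Coprime R
      · rw [if_pos hf1, norm_mul]
        refine mul_le_mul ?_ ?_ (norm_nonneg _) (by positivity)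
        · rw [Complex.norm_real, Real.norm_of_nonneg (by positivity)]
          refine div_le_div_of_nonneg_right ?_ (by positivity)
          have := hb f
          rw [← sq_abs]
          nlinarith [abs_nonneg (χ f)]
        · by_cases hk : 0 < k
          · rw [if_pos hk]
            split_ifs
            · rw [norm_mul, norm_div, Complex.norm_real, Complex.norm_natCast]
              have : ‖χ k‖ / (k : ℝ) ≤ 1 / k :=
                div_le_div_of_nonneg_right (hb k) (Nat.cast_nonneg _)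
              calc ‖χ k‖ / (k : ℝ) * ‖F (Real.log k + 2 * Real.log f)‖ ≤
                    1 / k * ‖F (Real.log k + 2 * Real.log f)‖ :=
                    mul_le_mul_of_nonneg_right this (norm_nonneg _)
                _ = _ := by ring
            · rw [norm_zero]; positivity
          · rw [if_neg hk, if_neg (fun h => hk h.1), norm_zero]
      · rw [if_neg hf1, norm_zero]
        exact h0
    have hsk : Summable fun k => |(ArithmeticFunction.moebius f : ℝ)| * ‖a (f ^ 2 * k)‖ :=
      Summable.of_nonneg_of_le (fun k => by positivity) e2 (hab.mul_left _)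
    constructor
    · simp only [e1]
      exact rse_sqf_mult_summable (by positivity : 0 < f ^ 2) hsk
    · simp only [e1]
      rw [rse_sqf_mult_tsum_real (by positivity : 0 < f ^ 2)]
      refine (hsk.tsum_le_tsum e2 (hab.mul_left _)).trans ?_
      rw [tsum_mul_left]
      exact mul_le_mul_of_nonneg_left hab' (by positivity)
  have hu0 : ∀ n, u 0 n = 0 := fun n => by simp [hu]
  have hpair : Summable (Function.uncurry u) := by
    rw [← summable_norm_iff, summable_prod_of_nonneg (fun _ => norm_nonneg _)]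
    constructor
    · intro f
      by_cases hf : 0 < f
      · exact (hgs f hf).1
      · have : f = 0 := by omega
        subst this
        simp only [Function.uncurry, hu0, norm_zero]
        exact summable_zero
    · refine Summable.of_nonneg_of_le (fun f => tsum_nonneg fun n => norm_nonneg _)
        (fun f => ?_) ((Real.summable_one_div_nat_pow.2 (by norm_num : 1 < 2)).mul_right B)
      by_cases hf : 0 < f
      · exact (hgs f hf).2
      · have : f = 0 := by omega
        subst this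
        simp [Function.uncurry, hu0]
  have hmain : (∑' n : ℕ, if 0 < n ∧ Squarefree n ∧ n.Coprime R then
      (χ n : ℂ) / n * F (Real.log n) else 0) = ∑' f, (wt f : ℂ) * S f := by
    simp only [← hun, ← huf]
    exact hpair.tsum_comm
  rw [hmain]
  -- the weights
  have hwt1 : ∀ f, |wt f| ≤ 1 / (f : ℝ) ^ 2 := by
    intro f
    simp only [hwt]
    split_ifs with h
    · rw [abs_mul, abs_div, abs_pow, abs_pow, Nat.abs_cast]
      have hf : (0 : ℝ) < f := by exact_mod_cast h.1
      have h4 := hmu f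
      have h5 : |χ f| ^ 2 / (f : ℝ) ^ 2 ≤ 1 / (f : ℝ) ^ 2 := by
        refine div_le_div_of_nonneg_right ?_ (by positivity)
        have := hb f
        nlinarith [abs_nonneg (χ f)]
      calc _ ≤ 1 * (1 / (f : ℝ) ^ 2) := mul_le_mul h4 h5 (by positivity) zero_le_one
        _ = _ := one_mul _
    · rw [abs_zero]; positivity
  have hwts : Summable wt :=
    Summable.of_norm_bounded (Real.summable_one_div_nat_pow.2 (by norm_num : 1 < 2)) hwt1
  set c : ℂ := (κ : ℂ) * ∫ y : ℝ, F y with hc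
  have hdif : ∀ f, ‖(wt f : ℂ) * (S f - c)‖ ≤
      (2 * Q * J * E1 R) * (f : ℝ) ^ (-(3 / 2) : ℝ) := by
    intro f
    by_cases hf : 0 < f
    · have hf0 : (0 : ℝ) < f := by exact_mod_cast hf
      have hf1 : (1 : ℝ) ≤ f := by exact_mod_cast hf
      have h4 := rse_sqf_inner Q hQ χ hper hb hmul hR hF h1 h2 δ hδ0 hδ1 h3 (2 * Real.log f)
      rw [norm_mul, Complex.norm_real]
      have h5 : Real.exp (δ * (2 * Real.log f)) ≤ (f : ℝ) ^ (1 / 2 : ℝ) := by
        rw [Real.rpow_def_of_pos hf0]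
        refine Real.exp_le_exp.2 ?_
        have := Real.log_nonneg hf1
        nlinarith
      have h6 : ‖S f - c‖ ≤ 2 * Q * ((f : ℝ) ^ (1 / 2 : ℝ) * J) * E1 R :=
        h4.trans (mul_le_mul_of_nonneg_right (mul_le_mul_of_nonneg_left
          (mul_le_mul_of_nonneg_right h5 hJ0) (by positivity)) hE1)
      calc ‖wt f‖ * ‖S f - c‖ ≤ 1 / (f : ℝ) ^ 2 * (2 * Q * ((f : ℝ) ^ (1 / 2 : ℝ) * J) * E1 R) :=
            mul_le_mul (hwt1 f) h6 (norm_nonneg _) (by positivity)
        _ = (2 * Q * J * E1 R) * (f : ℝ) ^ (-(3 / 2) : ℝ) := by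
            have e7 : (f : ℝ) ^ (-(3 / 2) : ℝ) = 1 / (f : ℝ) ^ 2 * (f : ℝ) ^ (1 / 2 : ℝ) := by
              rw [show (-(3 / 2) : ℝ) = -2 + 1 / 2 by norm_num, Real.rpow_add hf0]
              congr 1
              rw [Real.rpow_neg hf0.le, one_div]
              norm_cast
            rw [e7]
            ring
    · have : f = 0 := by omega
      subst this
      have : wt 0 = 0 := by simp [hwt]
      rw [this]
      simp only [Complex.ofReal_zero, zero_mul, norm_zero]
      positivity
  have hds : Summable fun f => (wt f : ℂ) * (S f - c) :=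
    Summable.of_norm_bounded (hZs.mul_left _) hdif
  have hwc : Summable fun f => (wt f : ℂ) * c := (Complex.ofRealCLM.summable hwts).mul_right c
  have hfin : (∑' f, (wt f : ℂ) * S f) - (((∑' f, wt f) * κ : ℝ) : ℂ) * ∫ y : ℝ, F y =
      ∑' f, (wt f : ℂ) * (S f - c) := by
    have e8 : ∀ f, (wt f : ℂ) * S f = (wt f : ℂ) * (S f - c) + (wt f : ℂ) * c := fun f => by ring
    simp only [e8]
    rw [hds.tsum_add hwc, tsum_mul_right, ← Complex.ofReal_tsum]
    push_cast
    rw [hc]
    ring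
  rw [hfin]
  have hQ1 : (0 : ℝ) ≤ Q := Nat.cast_nonneg _
  calc ‖∑' f, (wt f : ℂ) * (S f - c)‖ ≤ ∑' f : ℕ, (2 * Q * J * E1 R) * (f : ℝ) ^ (-(3 / 2) : ℝ) :=
        tsum_of_norm_bounded (hZs.mul_left _).hasSum hdif
    _ = (2 * Q * J * E1 R) * Z := tsum_mul_left
    _ ≤ (2 * Z + 1) * Q * E1 R * J := by
        have : 0 ≤ Q * J * E1 R := by positivity
        nlinarith

end Pool.Agent.RSE

namespace Pool.Agent.RSE

alias sqf_sum := sqf_sum_pr

end Pool.Agent.RSE
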