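import Pool.Agent.Lib_helper39.RSE.Defs
import Pool.Agent.Lib_helper39.RSA.DefsB
import Pool.Agent.Lib_helper39.RSA.AMB1
import Pool.Agent.Lib_helper39.RSA.AMB2
import Pool.Agent.Lib_helper39.RSA.DSQ
import Pool.Agent.Lib_helper39.RSA.EM
import Pool.Agent.Lib_helper39.RSA.KG1
import Pool.Agent.Lib_helper39.RSA.RB
import Pool.Agent.Lib_helper39.RSA.SQF
/-!
# Selberg's theorem for real characters: block DIL
-/

namespace Pool.Agent.RSE

open Complex MeasureTheory Filter Topology
open scoped ContDiff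

/-! ## Two integrals -/

theorem rse_dil_int (a b : ℝ) (ha : |b| < a) :
    Integrable (fun y : ℝ => Real.exp (b * y) * Real.exp (-(a * |y|))) := by
  have hb := abs_lt.1 ha
  rw [← integrableOn_univ, ← Set.Iic_union_Ioi (a := (0 : ℝ)), integrableOn_union]
  constructor
  · refine (integrableOn_exp_mul_Iic (a := a + b) (by linarith) 0).congr_fun ?_ measurableSet_Iic
    intro y hy
    have hy' : y ≤ 0 := hy
    simp only
    rw [← Real.exp_add, abs_of_nonpos hy']
    congr 1
    ring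
  · refine (integrableOn_exp_mul_Ioi (a := b - a) (by linarith) 0).congr_fun ?_ measurableSet_Ioi
    intro y hy
    have hy' : 0 < y := hy
    simp only
    rw [← Real.exp_add, abs_of_pos hy']
    congr 1
    ring

theorem rse_dil_int_shift (x : ℝ) :
    Integrable (fun y : ℝ => Real.exp (-(1 / 8) * y) * Real.exp (-|y + x| / 4)) ∧
    ∫ y : ℝ, Real.exp (-(1 / 8) * y) * Real.exp (-|y + x| / 4) =
      Real.exp (x / 8) * ∫ y : ℝ, Real.exp (-(1 / 8) * y) * Real.exp (-(1 / 4 * |y|)) := by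
  have h0 := rse_dil_int (1 / 4) (-(1 / 8)) (by rw [abs_neg, abs_of_pos] <;> norm_num)
  have h1 : (fun y : ℝ => Real.exp (-(1 / 8) * y) * Real.exp (-|y + x| / 4)) =
      fun y : ℝ => Real.exp (x / 8) * (fun z : ℝ => Real.exp (-(1 / 8) * z) *
        Real.exp (-(1 / 4 * |z|))) (y + x) := by
    funext y
    simp only
    rw [← Real.exp_add, ← Real.exp_add, ← Real.exp_add]
    congr 1
    ring
  constructor
  · rw [h1]
    exact (h0.comp_add_right x).const_mul _
  · rw [h1, integral_const_mul]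
    congr 1
    exact integral_add_right_eq_self (fun z : ℝ => Real.exp (-(1 / 8) * z) *
        Real.exp (-(1 / 4 * |z|))) x

/-! ## The sum of `1/h e^{-|log h + x|/4}` -/

theorem rse_dil_sech (y : ℝ) : Real.exp (-|y| / 4) ≤ (Real.cosh (y / 4))⁻¹ ∧
    (Real.cosh (y / 4))⁻¹ ≤ 2 * Real.exp (-(1 / 4 * |y|)) := by
  have hc : 0 < Real.cosh (y / 4) := Real.cosh_pos _
  constructor
  · rw [← one_div, le_div_iff₀ hc, Real.cosh_eq]
    have h1 : Real.exp (y / 4) ≤ Real.exp (|y| / 4) :=
      Real.exp_le_exp.2 (by linarith [le_abs_self y])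
    have h2 : Real.exp (-(y / 4)) ≤ Real.exp (|y| / 4) :=
      Real.exp_le_exp.2 (by linarith [neg_abs_le y])
    have h3 : Real.exp (-|y| / 4) * Real.exp (|y| / 4) = 1 := by
      rw [← Real.exp_add, show -|y| / 4 + |y| / 4 = 0 by ring, Real.exp_zero]
    have h4 : (0 : ℝ) < Real.exp (-|y| / 4) := Real.exp_pos _
    nlinarith
  · rw [← one_div, div_le_iff₀ hc, Real.cosh_eq]
    have h3 : Real.exp (-(1 / 4 * |y|)) * Real.exp (|y| / 4) = 1 := by
      rw [← Real.exp_add, show -(1 / 4 * |y|) + |y| / 4 = 0 by ring, Real.exp_zero]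
    have h4 : (0 : ℝ) < Real.exp (-(1 / 4 * |y|)) := Real.exp_pos _
    have h1 : 0 < Real.exp (y / 4) := Real.exp_pos _
    have h2 : 0 < Real.exp (-(y / 4)) := Real.exp_pos _
    rcases abs_cases y with ⟨h, _⟩ | ⟨h, _⟩
    · rw [h] at h3 h4 ⊢
      nlinarith
    · rw [h] at h3 h4 ⊢
      rw [show -y / 4 = -(y / 4) by ring] at h3
      nlinarith

theorem rse_dil_sum : ∃ C : ℝ, 0 < C ∧ ∀ x : ℝ,
    Summable (fun n : ℕ => if 0 < n then (1 : ℝ) / n * Real.exp (-|Real.log n + x| / 4) else 0) ∧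
    ∑' n : ℕ, (if 0 < n then (1 : ℝ) / n * Real.exp (-|Real.log n + x| / 4) else 0) ≤ C := by
  set G : ℝ → ℝ := fun y => (Real.cosh (y / 4))⁻¹ with hG
  have hGd : ∀ y, HasDerivAt G (-(Real.sinh (y / 4) * (1 / 4)) / Real.cosh (y / 4) ^ 2) y := by
    intro y
    have h1 : HasDerivAt (fun y : ℝ => y / 4) (1 / 4) y := by
      simpa using (hasDerivAt_id y).div_const 4
    exact (h1.cosh).inv (Real.cosh_pos _).ne'
  have hGc : ContDiff ℝ 1 G := by
    refine ContDiff.inv (Real.contDiff_cosh.comp (contDiff_id.div_const 4)) ?_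
    intro y
    exact (Real.cosh_pos _).ne'
  have hI := rse_dil_int (1 / 4) 0 (by norm_num)
  simp only [zero_mul, Real.exp_zero, one_mul] at hI
  have hGi : Integrable G := by
    refine (hI.const_mul 2).mono' hGc.continuous.aestronglyMeasurable (Filter.Eventually.of_forall ?_)
    intro y
    rw [Real.norm_eq_abs, abs_of_pos (inv_pos.2 (Real.cosh_pos _))]
    exact (rse_dil_sech y).2
  have hG' : ∀ y, |deriv G y| ≤ 2 * Real.exp (-(1 / 4 * |y|)) := by
    intro y
    rw [(hGd y).deriv]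
    refine le_trans ?_ (rse_dil_sech y).2
    have hc : 0 < Real.cosh (y / 4) := Real.cosh_pos _
    have hs : |Real.sinh (y / 4)| ≤ Real.cosh (y / 4) := by
      have := Real.cosh_sq (y / 4)
      exact abs_le_of_sq_le_sq (by linarith) hc.le |>.trans_eq' rfl |> fun h => by
        simpa [abs_le] using abs_le_of_sq_le_sq (by linarith : Real.sinh (y / 4) ^ 2 ≤ Real.cosh (y / 4) ^ 2) hc.le
    rw [abs_div, abs_neg, abs_mul, abs_of_pos (by positivity : (0 : ℝ) < Real.cosh (y / 4) ^ 2),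
      abs_of_pos (by norm_num : (0 : ℝ) < 1 / 4), ← one_div, div_le_div_iff₀ (by positivity) hc]
    nlinarith [abs_nonneg (Real.sinh (y / 4))]
  have hGdi : Integrable (deriv G) := by
    refine (hI.const_mul 2).mono' ?_ (Filter.Eventually.of_forall hG')
    exact (hGc.continuous_deriv le_rfl).aestronglyMeasurable
  refine ⟨(∫ y, G y) + 2 * (∫ y, (|G y| + |deriv G y|)) + 1, ?_, ?_⟩
  · have h1 : 0 ≤ ∫ y, G y := integral_nonneg fun y => (inv_pos.2 (Real.cosh_pos _)).le
    have h2 : 0 ≤ ∫ y, (|G y| + |deriv G y|) := integral_nonneg fun y => by positivity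
    linarith
  · intro x
    set F : ℝ → ℂ := fun y => ((G (y + x) : ℝ) : ℂ) with hF
    have hFd : ∀ y, HasDerivAt F ((deriv G (y + x) : ℝ) : ℂ) y := by
      intro y
      have h1 : HasDerivAt (fun y => G (y + x)) (deriv G (y + x)) y := by
        have := (hGd (y + x)).differentiableAt.hasDerivAt.comp_add_const y x
        exact this
      exact h1.ofReal_comp
    have hFder : deriv F = fun y => ((deriv G (y + x) : ℝ) : ℂ) := by
      funext y
      exact (hFd y).deriv
    have hFc : ContDiff ℝ 1 F := by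
      have h1 : ContDiff ℝ 1 (fun y => G (y + x)) := hGc.comp (contDiff_id.add contDiff_const)
      exact Complex.ofRealCLM.contDiff.comp h1
    have hFi : Integrable F := (hGi.comp_add_right x).ofReal
    have hFdi : Integrable (deriv F) := by
      rw [hFder]
      exact (hGdi.comp_add_right x).ofReal
    obtain ⟨hs, hb⟩ := em_sum 1 one_pos (fun _ => 1) (fun _ => rfl) (fun _ => by norm_num) F hFc
      hFi hFdi
    have hcast : ∀ n : ℕ, (if 0 < n then (((1 : ℝ) : ℂ) / n * F (Real.log n)) else 0) =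
        (((if 0 < n then 1 / (n : ℝ) * G (Real.log n + x) else 0 : ℝ)) : ℂ) := by
      intro n
      split_ifs with h
      · simp [hF]
      · simp
    have hsr : Summable (fun n : ℕ => if 0 < n then 1 / (n : ℝ) * G (Real.log n + x) else 0) := by
      rw [← Complex.summable_ofReal]
      refine hs.congr fun n => ?_
      exact hcast n
    have hle : ∀ n : ℕ, (if 0 < n then (1 : ℝ) / n * Real.exp (-|Real.log n + x| / 4) else 0) ≤
        if 0 < n then 1 / (n : ℝ) * G (Real.log n + x) else 0 := by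
      intro n
      split_ifs with h
      · exact mul_le_mul_of_nonneg_left (rse_dil_sech _).1 (by positivity)
      · exact le_rfl
    have hs0 : Summable (fun n : ℕ => if 0 < n then
        (1 : ℝ) / n * Real.exp (-|Real.log n + x| / 4) else 0) := by
      refine Summable.of_nonneg_of_le (fun n => ?_) hle hsr
      split_ifs
      · positivity
      · exact le_rfl
    refine ⟨hs0, ?_⟩
    refine (hs0.tsum_le_tsum hle hsr).trans ?_
    have htot : (∑' n : ℕ, if 0 < n then (((1 : ℝ) : ℂ) / n * F (Real.log n)) else 0) =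
        (((∑' n : ℕ, if 0 < n then 1 / (n : ℝ) * G (Real.log n + x) else 0 : ℝ)) : ℂ) := by
      rw [Complex.ofReal_tsum]
      exact tsum_congr hcast
    have hint : ∫ y, F y = ((∫ y, G y : ℝ) : ℂ) := by
      have h1 : ∫ y, F y = ((∫ y, G (y + x) : ℝ) : ℂ) := integral_ofReal
      rw [h1]
      congr 1
      exact integral_add_right_eq_self G x
    rw [htot, hint] at hb
    simp only [Finset.range_one, Finset.sum_const, Finset.card_singleton, one_smul, Nat.cast_one,
      div_one, Complex.ofReal_one, one_mul, mul_one] at hb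
    rw [← Complex.ofReal_sub, Complex.norm_real, Real.norm_eq_abs] at hb
    have hrhs : ∫ y : ℝ, min 1 (Real.exp (-y)) * (‖F y‖ + ‖deriv F y‖) ≤
        ∫ y, (|G y| + |deriv G y|) := by
      have h1 : ∫ y, (|G y| + |deriv G y|) = ∫ y, (|G (y + x)| + |deriv G (y + x)|) :=
        (integral_add_right_eq_self (fun y => |G y| + |deriv G y|) x).symm
      rw [h1]
      refine integral_mono_of_nonneg (Filter.Eventually.of_forall fun y => ?_) ?_
        (Filter.Eventually.of_forall fun y => ?_)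
      · show (0 : ℝ) ≤ min 1 (Real.exp (-y)) * (‖F y‖ + ‖deriv F y‖)
        positivity
      · exact (hGi.comp_add_right x).abs.add (hGdi.comp_add_right x).abs
      · show min 1 (Real.exp (-y)) * (‖F y‖ + ‖deriv F y‖) ≤ |G (y + x)| + |deriv G (y + x)|
        rw [hFder]
        simp only [hF, Complex.norm_real, Real.norm_eq_abs]
        exact mul_le_of_le_one_left (by positivity) (min_le_left _ _)
    have := (abs_le.1 hb).2
    linarith

/-! ## The function `F` -/

theorem rse_dil_F {g : ℝ → ℝ} (hg : Kern g) : ∃ A : ℝ, 0 < A ∧ ∀ (m : ℕ) (x1 x2 : ℝ), 0 < m →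
    ContDiff ℝ 1 (fun y : ℝ => ((AA g m (y + x1) * AA g m (y + x2) : ℝ) : ℂ)) ∧
    ∀ y : ℝ, ‖((AA g m (y + x1) * AA g m (y + x2) : ℝ) : ℂ)‖ +
      ‖deriv (fun y : ℝ => ((AA g m (y + x1) * AA g m (y + x2) : ℝ) : ℂ)) y‖ ≤
      A * E1 m ^ 2 * Real.exp (-|y + x1| / 4) := by
  obtain ⟨C1, hC1, h1⟩ := aa_bound hg
  obtain ⟨C2, hC2, h2⟩ := aa_bound (kern_deriv hg)
  refine ⟨C1 * C1 + (C2 * C1 + C1 * C2), by positivity, ?_⟩
  intro m x1 x2 hm
  have hE : 1 ≤ E1 m := E1_pos m
  have hE0 : 0 ≤ E1 m := by linarith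
  have hd : ∀ x y : ℝ, HasDerivAt (fun y => AA g m (y + x)) (AA (deriv g) m (y + x)) y := by
    intro x y
    exact (aa_deriv hg m (y + x)).comp_add_const y x
  have hd' : ∀ x y : ℝ, HasDerivAt (fun y => AA (deriv g) m (y + x))
      (AA (deriv (deriv g)) m (y + x)) y := by
    intro x y
    exact (aa_deriv (kern_deriv hg) m (y + x)).comp_add_const y x
  have hF : ∀ y : ℝ, HasDerivAt (fun y : ℝ => ((AA g m (y + x1) * AA g m (y + x2) : ℝ) : ℂ))
      ((AA (deriv g) m (y + x1) * AA g m (y + x2) + AA g m (y + x1) * AA (deriv g) m (y + x2) :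
        ℝ) : ℂ) y := by
    intro y
    exact ((hd x1 y).mul (hd x2 y)).ofReal_comp
  have hder : deriv (fun y : ℝ => ((AA g m (y + x1) * AA g m (y + x2) : ℝ) : ℂ)) = fun y =>
      ((AA (deriv g) m (y + x1) * AA g m (y + x2) + AA g m (y + x1) * AA (deriv g) m (y + x2) :
        ℝ) : ℂ) := by
    funext y
    exact (hF y).deriv
  have hexp : ∀ z : ℝ, Real.exp (-|z| / 4) ≤ 1 := fun z =>
    Real.exp_le_one_iff.2 (by have := abs_nonneg z; linarith)
  constructor
  · rw [contDiff_one_iff_deriv]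
    refine ⟨fun y => (hF y).differentiableAt, ?_⟩
    rw [hder]
    refine Complex.continuous_ofReal.comp ?_
    have c1 : Continuous (fun y => AA g m (y + x1)) :=
      continuous_iff_continuousAt.2 fun y => (hd x1 y).continuousAt
    have c2 : Continuous (fun y => AA g m (y + x2)) :=
      continuous_iff_continuousAt.2 fun y => (hd x2 y).continuousAt
    have c3 : Continuous (fun y => AA (deriv g) m (y + x1)) :=
      continuous_iff_continuousAt.2 fun y => (hd' x1 y).continuousAt
    have c4 : Continuous (fun y => AA (deriv g) m (y + x2)) :=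
      continuous_iff_continuousAt.2 fun y => (hd' x2 y).continuousAt
    exact (c3.mul c2).add (c1.mul c4)
  · intro y
    rw [hder]
    simp only [Complex.norm_real, Real.norm_eq_abs]
    have a1 := h1 m (y + x1) hm
    have a2 := (h1 m (y + x2) hm).trans (mul_le_of_le_one_right (by positivity) (hexp _))
    have b1 := h2 m (y + x1) hm
    have b2 := (h2 m (y + x2) hm).trans (mul_le_of_le_one_right (by positivity) (hexp _))
    have e0 : 0 < Real.exp (-|y + x1| / 4) := Real.exp_pos _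
    have t1 : |AA g m (y + x1) * AA g m (y + x2)| ≤
        C1 * E1 m * Real.exp (-|y + x1| / 4) * (C1 * E1 m) := by
      rw [abs_mul]
      exact mul_le_mul a1 a2 (abs_nonneg _) (by positivity)
    have t2 : |AA (deriv g) m (y + x1) * AA g m (y + x2)| ≤
        C2 * E1 m * Real.exp (-|y + x1| / 4) * (C1 * E1 m) := by
      rw [abs_mul]
      exact mul_le_mul b1 a2 (abs_nonneg _) (by positivity)
    have t3 : |AA g m (y + x1) * AA (deriv g) m (y + x2)| ≤
        C1 * E1 m * Real.exp (-|y + x1| / 4) * (C2 * E1 m) := by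
      rw [abs_mul]
      exact mul_le_mul a1 b2 (abs_nonneg _) (by positivity)
    have t4 := abs_add_le (AA (deriv g) m (y + x1) * AA g m (y + x2))
      (AA g m (y + x1) * AA (deriv g) m (y + x2))
    calc _ ≤ C1 * E1 m * Real.exp (-|y + x1| / 4) * (C1 * E1 m) +
          (C2 * E1 m * Real.exp (-|y + x1| / 4) * (C1 * E1 m) +
            C1 * E1 m * Real.exp (-|y + x1| / 4) * (C2 * E1 m)) := by linarith
      _ = _ := by ring

/-! ## One term of DSQ -/

/-- The sum over `h`. -/
noncomputable def rse_dil_T (g : ℝ → ℝ) (m s : ℕ) (x1 x2 : ℝ) : ℝ :=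
  ∑' h : ℕ, (if Odd h ∧ Squarefree h ∧ h.Coprime (m * s) then
    1 / (h : ℝ) * (AA g m (Real.log h + x1) * AA g m (Real.log h + x2)) else 0)

theorem rse_dil_T_bound {g : ℝ → ℝ} (hg : Kern g) : ∃ C : ℝ, 0 < C ∧ ∀ (m s : ℕ) (x1 x2 : ℝ),
    0 < m → |rse_dil_T g m s x1 x2| ≤ C * E1 m ^ 2 := by
  obtain ⟨A, hA, hF⟩ := rse_dil_F hg
  obtain ⟨C, hC, hsum⟩ := rse_dil_sum
  refine ⟨A * C, by positivity, ?_⟩
  intro m s x1 x2 hm
  obtain ⟨hs, hb⟩ := hsum x1
  have hle : ∀ h : ℕ, ‖(if Odd h ∧ Squarefree h ∧ h.Coprime (m * s) then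
      1 / (h : ℝ) * (AA g m (Real.log h + x1) * AA g m (Real.log h + x2)) else 0)‖ ≤
      A * E1 m ^ 2 * (if 0 < h then (1 : ℝ) / h * Real.exp (-|Real.log h + x1| / 4) else 0) := by
    intro h
    have hE : 1 ≤ E1 m := E1_pos m
    by_cases hc : Odd h ∧ Squarefree h ∧ h.Coprime (m * s)
    · rw [if_pos hc, if_pos hc.1.pos, norm_mul, Real.norm_eq_abs, Real.norm_eq_abs,
        abs_of_nonneg (by positivity : (0 : ℝ) ≤ 1 / (h : ℝ))]
      have h1 := (hF m x1 x2 hm).2 (Real.log h)
      rw [Complex.norm_real, Real.norm_eq_abs] at h1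
      have h2 : |AA g m (Real.log h + x1) * AA g m (Real.log h + x2)| ≤
          A * E1 m ^ 2 * Real.exp (-|Real.log h + x1| / 4) := by
        have := norm_nonneg (deriv (fun y : ℝ =>
          ((AA g m (y + x1) * AA g m (y + x2) : ℝ) : ℂ)) (Real.log h))
        linarith
      have h3 : (0 : ℝ) ≤ 1 / (h : ℝ) := by positivity
      calc _ ≤ 1 / (h : ℝ) * (A * E1 m ^ 2 * Real.exp (-|Real.log h + x1| / 4)) :=
            mul_le_mul_of_nonneg_left h2 h3
        _ = _ := by ring
    · rw [if_neg hc, norm_zero]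
      have : (0 : ℝ) ≤ (if 0 < h then (1 : ℝ) / h * Real.exp (-|Real.log h + x1| / 4) else 0) := by
        split_ifs
        · positivity
        · exact le_rfl
      positivity
  have h1 := tsum_of_norm_bounded (hs.mul_left (A * E1 m ^ 2)).hasSum hle
  rw [Real.norm_eq_abs] at h1
  refine h1.trans ?_
  rw [tsum_mul_left]
  have hE : 1 ≤ E1 m := E1_pos m
  calc _ ≤ A * E1 m ^ 2 * C := mul_le_mul_of_nonneg_left hb (by positivity)
    _ = _ := by ring

theorem rse_dil_T_shift {g : ℝ → ℝ} (hg : Kern g) : ∃ C : ℝ, 0 < C ∧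
    ∀ (m s : ℕ) (x1 x2 τ : ℝ), 0 < m → Odd s →
    |rse_dil_T g m s (x1 + τ) (x2 + τ) - rse_dil_T g m s x1 x2| ≤
      C * √(s : ℝ) * E1 m ^ 3 * (Real.exp (x1 / 8) + Real.exp ((x1 + τ) / 8)) := by
  obtain ⟨A, hA, hFF⟩ := rse_dil_F hg
  obtain ⟨C, hC, hsq⟩ := sqf_sum
  set I0 : ℝ := ∫ y : ℝ, Real.exp (-(1 / 8) * y) * Real.exp (-(1 / 4 * |y|)) with hI0
  have hI0p : 0 ≤ I0 := integral_nonneg fun y => by positivity
  have hE2 : 1 ≤ E1 2 := E1_pos 2
  refine ⟨C * E1 2 * (A * (I0 + 1)), by positivity, ?_⟩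
  intro m s x1 x2 τ hm hs
  have hEm : 1 ≤ E1 m := E1_pos m
  have hspos : 0 < s := hs.pos
  obtain ⟨M, hM⟩ := hsq 1 (fun _ => 1) one_pos (fun _ => rfl) (fun _ => by norm_num) rfl
    (fun _ _ => by norm_num) (2 * (m * s)) (by positivity)
  have key : ∀ z1 z2 : ℝ, |rse_dil_T g m s z1 z2 -
      M * ∫ y : ℝ, AA g m (y + z1) * AA g m (y + z2)| ≤
      C * E1 (2 * (m * s)) * (A * E1 m ^ 2 * (Real.exp (z1 / 8) * I0)) := by
    intro z1 z2
    set F : ℝ → ℂ := fun y : ℝ => ((AA g m (y + z1) * AA g m (y + z2) : ℝ) : ℂ) with hF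
    obtain ⟨hc, hb⟩ := hFF m z1 z2 hm
    obtain ⟨hi8, he8⟩ := rse_dil_int_shift z1
    have hexp0 : Integrable (fun y : ℝ => A * E1 m ^ 2 * Real.exp (-|y + z1| / 4)) := by
      have h1 := rse_dil_int (1 / 4) 0 (by norm_num)
      simp only [zero_mul, Real.exp_zero, one_mul] at h1
      have h2 := (h1.comp_add_right z1).const_mul (A * E1 m ^ 2)
      refine h2.congr (Filter.Eventually.of_forall fun y => ?_)
      show A * E1 m ^ 2 * Real.exp (-(1 / 4 * |y + z1|)) = A * E1 m ^ 2 * Real.exp (-|y + z1| / 4)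
      congr 2
      ring
    have hFi : Integrable F := by
      refine hexp0.mono' hc.continuous.aestronglyMeasurable (Filter.Eventually.of_forall fun y => ?_)
      have := hb y
      have h0 := norm_nonneg (deriv F y)
      show ‖F y‖ ≤ _
      linarith
    have hFdi : Integrable (deriv F) := by
      refine hexp0.mono' (hc.continuous_deriv le_rfl).aestronglyMeasurable
        (Filter.Eventually.of_forall fun y => ?_)
      have := hb y
      have h0 := norm_nonneg (F y)
      show ‖deriv F y‖ ≤ _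
      have h3 : ‖F y‖ + ‖deriv F y‖ ≤ A * E1 m ^ 2 * Real.exp (-|y + z1| / 4) := hb y
      linarith
    have hle : ∀ y : ℝ, Real.exp (-(1 / 8) * y) * (‖F y‖ + ‖deriv F y‖) ≤
        A * E1 m ^ 2 * (Real.exp (-(1 / 8) * y) * Real.exp (-|y + z1| / 4)) := by
      intro y
      have h3 : ‖F y‖ + ‖deriv F y‖ ≤ A * E1 m ^ 2 * Real.exp (-|y + z1| / 4) := hb y
      calc _ ≤ Real.exp (-(1 / 8) * y) * (A * E1 m ^ 2 * Real.exp (-|y + z1| / 4)) :=
            mul_le_mul_of_nonneg_left h3 (Real.exp_pos _).le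
        _ = _ := by ring
    have hdom := hi8.const_mul (A * E1 m ^ 2)
    have hint : Integrable (fun y => Real.exp (-(1 / 8 : ℝ) * y) * (‖F y‖ + ‖deriv F y‖)) := by
      refine hdom.mono' ?_ (Filter.Eventually.of_forall fun y => ?_)
      · have hcd := hc.continuous_deriv le_rfl
        have hcc := hc.continuous
        exact ((Real.continuous_exp.comp (continuous_const.mul continuous_id)).mul
          (hcc.norm.add hcd.norm)).aestronglyMeasurable
      · rw [Real.norm_eq_abs, abs_of_nonneg (by positivity)]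
        exact hle y
    obtain ⟨hsm, hbd⟩ := hM (1 / 8) (by norm_num) (by norm_num) F hc hFi hFdi hint
    have hcast : ∀ n : ℕ, (if 0 < n ∧ Squarefree n ∧ n.Coprime (2 * (m * s)) then
        (((1 : ℝ) : ℂ) / n * F (Real.log n)) else 0) =
        (((if Odd n ∧ Squarefree n ∧ n.Coprime (m * s) then
          1 / (n : ℝ) * (AA g m (Real.log n + z1) * AA g m (Real.log n + z2)) else 0) : ℝ) : ℂ) := by
      intro n
      have hiff : (0 < n ∧ Squarefree n ∧ n.Coprime (2 * (m * s))) ↔
          (Odd n ∧ Squarefree n ∧ n.Coprime (m * s)) := by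
        rw [Nat.coprime_mul_iff_right, Nat.coprime_two_right]
        constructor
        · rintro ⟨_, h2, h3, h4⟩
          exact ⟨h3, h2, h4⟩
        · rintro ⟨h1, h2, h3⟩
          exact ⟨h1.pos, h2, h1, h3⟩
      by_cases hc' : Odd n ∧ Squarefree n ∧ n.Coprime (m * s)
      · rw [if_pos hc', if_pos (hiff.2 hc')]
        simp [hF]
      · rw [if_neg hc', if_neg (fun h => hc' (hiff.1 h))]
        simp
    have htot : (∑' n : ℕ, if 0 < n ∧ Squarefree n ∧ n.Coprime (2 * (m * s)) then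
        (((1 : ℝ) : ℂ) / n * F (Real.log n)) else 0) = ((rse_dil_T g m s z1 z2 : ℝ) : ℂ) := by
      rw [rse_dil_T, Complex.ofReal_tsum]
      exact tsum_congr hcast
    have hIF : ∫ y, F y = ((∫ y, AA g m (y + z1) * AA g m (y + z2) : ℝ) : ℂ) := by
      rw [hF]
      exact integral_ofReal
    rw [htot, hIF, ← Complex.ofReal_mul, ← Complex.ofReal_sub, Complex.norm_real,
      Real.norm_eq_abs] at hbd
    refine hbd.trans ?_
    have h5 : ∫ y : ℝ, Real.exp (-(1 / 8) * y) * (‖F y‖ + ‖deriv F y‖) ≤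
        A * E1 m ^ 2 * (Real.exp (z1 / 8) * I0) := by
      rw [← he8, ← integral_const_mul]
      exact integral_mono hint hdom hle
    have hE : 1 ≤ E1 (2 * (m * s)) := E1_pos _
    calc _ ≤ C * ((1 : ℕ) : ℝ) * E1 (2 * (m * s)) * (A * E1 m ^ 2 * (Real.exp (z1 / 8) * I0)) :=
          mul_le_mul_of_nonneg_left h5 (by positivity)
      _ = _ := by rw [Nat.cast_one, mul_one]
  have k1 := key (x1 + τ) (x2 + τ)
  have k2 := key x1 x2
  have hIeq : ∫ y : ℝ, AA g m (y + (x1 + τ)) * AA g m (y + (x2 + τ)) =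
      ∫ y : ℝ, AA g m (y + x1) * AA g m (y + x2) := by
    rw [← integral_add_right_eq_self (fun y => AA g m (y + x1) * AA g m (y + x2)) τ]
    congr 1
    funext y
    rw [show y + (x1 + τ) = y + τ + x1 by ring, show y + (x2 + τ) = y + τ + x2 by ring]
  rw [hIeq] at k1
  have hE : E1 (2 * (m * s)) ≤ E1 2 * E1 m * √(s : ℝ) := by
    have e1 := E1_mul_le 2 (m * s) two_pos (by positivity)
    have e2 := E1_mul_le m s hm hspos
    have e3 := E1_odd_le s hs
    have e4 : 1 ≤ E1 s := E1_pos s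
    calc _ ≤ E1 2 * E1 (m * s) := e1
      _ ≤ E1 2 * (E1 m * E1 s) := mul_le_mul_of_nonneg_left e2 (by linarith)
      _ ≤ E1 2 * (E1 m * √(s : ℝ)) := by gcongr
      _ = _ := by ring
  have hsq0 : (0 : ℝ) ≤ √(s : ℝ) := Real.sqrt_nonneg _
  have hE' : 1 ≤ E1 (2 * (m * s)) := E1_pos _
  have tri := abs_sub_le (rse_dil_T g m s (x1 + τ) (x2 + τ))
    (M * ∫ y : ℝ, AA g m (y + x1) * AA g m (y + x2)) (rse_dil_T g m s x1 x2)
  rw [abs_sub_comm (M * ∫ y : ℝ, AA g m (y + x1) * AA g m (y + x2))] at tri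
  have p1 : 0 < Real.exp (x1 / 8) := Real.exp_pos _
  have p2 : 0 < Real.exp ((x1 + τ) / 8) := Real.exp_pos _
  calc _ ≤ C * E1 (2 * (m * s)) * (A * E1 m ^ 2 * (Real.exp ((x1 + τ) / 8) * I0)) +
        C * E1 (2 * (m * s)) * (A * E1 m ^ 2 * (Real.exp (x1 / 8) * I0)) := by linarith
    _ = C * E1 (2 * (m * s)) * (A * E1 m ^ 2 * I0 * (Real.exp (x1 / 8) +
        Real.exp ((x1 + τ) / 8))) := by ring
    _ ≤ C * (E1 2 * E1 m * √(s : ℝ)) * (A * E1 m ^ 2 * (I0 + 1) * (Real.exp (x1 / 8) +
        Real.exp ((x1 + τ) / 8))) := by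
        gcongr
        linarith
    _ = _ := by ring

/-- DIL (cites SQF, AMB, DSQ). -/
theorem dil_bound_pr {g : ℝ → ℝ} (hg : Kern g) : ∃ C : ℝ, 0 < C ∧ ∀ (m lam : ℕ) (u1 u2 : ℝ), 0 < m →
    Odd lam → |SQs g m lam u1 u2| ≤ C * (lam : ℝ) ^ 2 * E1 m ^ 3 ∧
    ∀ τ : ℝ, |SQs g m lam (u1 + τ) (u2 + τ) - SQs g m lam u1 u2| ≤
      C * (lam : ℝ) ^ 2 * E1 m ^ 3 * (Real.exp (u1 / 8) + Real.exp ((u1 + τ) / 8)) := by
  obtain ⟨C1, hC1, hB⟩ := rse_dil_T_bound hg
  obtain ⟨C2, hC2, hS⟩ := rse_dil_T_shift hg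
  refine ⟨C1 + C2, by positivity, ?_⟩
  intro m lam u1 u2 hm hlam
  obtain ⟨s, t, ht, hs⟩ := Nat.sq_mul_squarefree lam
  have hlam0 : 0 < lam := hlam.pos
  have hst : lam = s * t ^ 2 := by rw [← ht]; ring
  have hspos : 0 < s := Nat.pos_of_ne_zero hs.ne_zero
  have htpos : 0 < t := by
    rcases Nat.eq_zero_or_pos t with h | h
    · rw [h] at hst
      simp at hst
      omega
    · exact h
  have hodd : Odd (s * t ^ 2) := hst ▸ hlam
  have hsodd : Odd s := (Nat.odd_mul.1 hodd).1
  have hEm : 1 ≤ E1 m := E1_pos m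
  have hs1 : (1 : ℝ) ≤ s := by exact_mod_cast hspos
  have hsl : (s : ℝ) ≤ lam := by
    have : s ≤ lam := by
      rw [hst]
      exact Nat.le_mul_of_pos_right s (by positivity)
    exact_mod_cast this
  have hl1 : (1 : ℝ) ≤ lam := hs1.trans hsl
  have hcard : ((s.divisorsAntidiagonal.card : ℕ) : ℝ) ≤ s := by
    have : s.divisorsAntidiagonal.card ≤ s := by
      rw [← Nat.map_div_right_divisors, Finset.card_map]
      exact Nat.card_divisors_le_self s
    exact_mod_cast this
  have hsq1 : 1 ≤ √(s : ℝ) := Real.one_le_sqrt.2 hs1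
  have hval : ∀ w1 w2 : ℝ, SQs g m lam w1 w2 = if (s * t ^ 2).Coprime m then
      1 / √(s : ℝ) * ∑ v ∈ s.divisorsAntidiagonal,
        rse_dil_T g m s (Real.log v.1 + w1) (Real.log v.2 + w2) else 0 := by
    intro w1 w2
    rw [hst]
    exact dsq_eq hg m s t hm hs hodd w1 w2
  constructor
  · rw [hval]
    split_ifs with hc
    · rw [abs_mul, abs_of_nonneg (by positivity : (0 : ℝ) ≤ 1 / √(s : ℝ))]
      have h1 : |∑ v ∈ s.divisorsAntidiagonal,
          rse_dil_T g m s (Real.log v.1 + u1) (Real.log v.2 + u2)| ≤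
          ∑ v ∈ s.divisorsAntidiagonal, C1 * E1 m ^ 2 :=
        (Finset.abs_sum_le_sum_abs _ _).trans (Finset.sum_le_sum fun v _ => hB m s _ _ hm)
      rw [Finset.sum_const, nsmul_eq_mul] at h1
      have h2 : 1 / √(s : ℝ) ≤ 1 := by
        rw [div_le_one (by linarith)]
        exact hsq1
      calc _ ≤ 1 * (((s.divisorsAntidiagonal.card : ℕ) : ℝ) * (C1 * E1 m ^ 2)) :=
            mul_le_mul h2 h1 (abs_nonneg _) zero_le_one
        _ ≤ 1 * (lam * (C1 * E1 m ^ 2)) := by
            have hcn : s.divisorsAntidiagonal.card ≤ lam := by exact_mod_cast hcard.trans hsl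
            gcongr
        _ = C1 * lam * E1 m ^ 2 := by ring
        _ ≤ C1 * lam ^ 2 * E1 m ^ 3 := by
            have h3 : (lam : ℝ) ≤ lam ^ 2 := by nlinarith
            have h4 : E1 m ^ 2 ≤ E1 m ^ 3 := pow_le_pow_right₀ hEm (by norm_num)
            gcongr
        _ ≤ _ := by
            gcongr
            linarith
    · rw [abs_zero]
      positivity
  · intro τ
    rw [hval, hval]
    split_ifs with hc
    · rw [← mul_sub, ← Finset.sum_sub_distrib, abs_mul,
        abs_of_nonneg (by positivity : (0 : ℝ) ≤ 1 / √(s : ℝ))]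
      have p1 : 0 < Real.exp (u1 / 8) := Real.exp_pos _
      have p2 : 0 < Real.exp ((u1 + τ) / 8) := Real.exp_pos _
      have h1 : ∀ v ∈ s.divisorsAntidiagonal,
          |rse_dil_T g m s (Real.log v.1 + (u1 + τ)) (Real.log v.2 + (u2 + τ)) -
            rse_dil_T g m s (Real.log v.1 + u1) (Real.log v.2 + u2)| ≤
          C2 * √(s : ℝ) * E1 m ^ 3 * (s * (Real.exp (u1 / 8) + Real.exp ((u1 + τ) / 8))) := by
        intro v hv
        have hv' := Nat.mem_divisorsAntidiagonal.1 hv
        have hv1 : 0 < v.1 := by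
          rcases Nat.eq_zero_or_pos v.1 with h | h
          · rw [h, zero_mul] at hv'
            exact absurd hv'.1.symm hv'.2
          · exact h
        have hv1s : v.1 ≤ s := Nat.le_of_dvd hspos ⟨v.2, hv'.1.symm⟩
        have hx : ∀ w : ℝ, Real.exp ((Real.log v.1 + w) / 8) ≤ s * Real.exp (w / 8) := by
          intro w
          have hvr : (1 : ℝ) ≤ v.1 := by exact_mod_cast hv1
          rw [show (Real.log v.1 + w) / 8 = Real.log v.1 / 8 + w / 8 by ring, Real.exp_add]
          refine mul_le_mul_of_nonneg_right ?_ (Real.exp_pos _).le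
          calc Real.exp (Real.log v.1 / 8) ≤ Real.exp (Real.log v.1) :=
                Real.exp_le_exp.2 (by have := Real.log_nonneg hvr; linarith)
            _ = v.1 := Real.exp_log (by linarith)
            _ ≤ s := by exact_mod_cast hv1s
        have h2 := hS m s (Real.log v.1 + u1) (Real.log v.2 + u2) τ hm hsodd
        rw [add_assoc, add_assoc] at h2
        refine h2.trans ?_
        refine mul_le_mul_of_nonneg_left ?_ (by positivity)
        have := hx u1
        have := hx (u1 + τ)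
        linarith
      have h3 := (Finset.abs_sum_le_sum_abs (fun v : ℕ × ℕ =>
        rse_dil_T g m s (Real.log v.1 + (u1 + τ)) (Real.log v.2 + (u2 + τ)) -
            rse_dil_T g m s (Real.log v.1 + u1) (Real.log v.2 + u2)) _).trans
        (Finset.sum_le_sum h1)
      rw [Finset.sum_const, nsmul_eq_mul] at h3
      have hsq0 : (0 : ℝ) < √(s : ℝ) := by linarith
      calc _ ≤ 1 / √(s : ℝ) * (((s.divisorsAntidiagonal.card : ℕ) : ℝ) *
            (C2 * √(s : ℝ) * E1 m ^ 3 * (s * (Real.exp (u1 / 8) + Real.exp ((u1 + τ) / 8))))) :=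
            mul_le_mul_of_nonneg_left h3 (by positivity)
        _ = ((s.divisorsAntidiagonal.card : ℕ) : ℝ) * s *
            (C2 * E1 m ^ 3 * (Real.exp (u1 / 8) + Real.exp ((u1 + τ) / 8))) := by
            field_simp
        _ ≤ lam * lam * (C2 * E1 m ^ 3 * (Real.exp (u1 / 8) + Real.exp ((u1 + τ) / 8))) := by
            have hcn : s.divisorsAntidiagonal.card ≤ lam := by exact_mod_cast hcard.trans hsl
            have hsn : s ≤ lam := by exact_mod_cast hsl
            gcongr
        _ = C2 * lam ^ 2 * E1 m ^ 3 * (Real.exp (u1 / 8) + Real.exp ((u1 + τ) / 8)) := by ring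
        _ ≤ _ := by
            gcongr
            linarith
    · rw [sub_zero, abs_zero]
      have p1 : 0 < Real.exp (u1 / 8) := Real.exp_pos _
      have p2 : 0 < Real.exp ((u1 + τ) / 8) := Real.exp_pos _
      positivity

end Pool.Agent.RSE

namespace Pool.Agent.RSE

alias dil_bound := dil_bound_pr

end Pool.Agent.RSE
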