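import Pool.Agent.Lib_helper39.RSE.Defs
import Pool.Agent.Lib_helper39.RSA.DefsB
import Pool.Agent.Lib_helper92.SQA.ALPHA
import Pool.Agent.Lib_helper39.RSA.DIL
/-!
# Block DIM of RSE (helper50)
-/

namespace Pool.Agent.RSE

open Complex MeasureTheory Filter Topology
open Pool.Agent.RC (cc psi rv f0 IsRC Good gm pr DD)
open scoped ContDiff

theorem rse_dim_KL {L : ℝ} {k : ℕ} (hk : k ∈ KL L) : 1 ≤ k ∧ (k : ℝ) ≤ Real.exp L := by
  unfold KL at hk
  rw [Finset.mem_Icc] at hk
  refine ⟨hk.1, ?_⟩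
  exact (Nat.cast_le.mpr hk.2).trans (Nat.floor_le (Real.exp_pos L).le)

theorem rse_dim_be {Θ : ℝ → ℝ} (hΘ : Cut Θ) {L : ℝ} (hL : 1 ≤ L) (R : ℕ) {k : ℕ}
    (hk : k ∈ KL L) : |be Θ L R k| ≤ 1 := by
  obtain ⟨h1, h2⟩ := rse_dim_KL hk
  unfold be
  split_ifs
  · rw [abs_mul]
    have h3 := Pool.Agent.SQ.al_abs_pr k
    have h4 : |Θ (Real.log k / L)| ≤ 1 := by
      apply hΘ.bd
      have : 0 ≤ Real.log k := Real.log_nonneg (by exact_mod_cast h1)
      positivity
    calc |Pool.Agent.SQ.al k| * |Θ (Real.log k / L)| ≤ 1 * 1 :=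
          mul_le_mul h3 h4 (abs_nonneg _) zero_le_one
      _ = 1 := one_mul 1
  · simp

theorem rse_dim_be_zero {Θ : ℝ → ℝ} {L : ℝ} {R k : ℕ} (hk : ¬ Odd k) : be Θ L R k = 0 := by
  unfold be
  rw [if_neg]
  exact fun h => hk h.1

theorem rse_dim_E1 (m : ℕ) : 0 ≤ E1 m := by
  unfold E1
  exact Finset.prod_nonneg (fun p _ => by positivity)

theorem rse_dim_card {L : ℝ} (hL : 1 ≤ L) : ((KL L).card : ℝ) ≤ Real.exp L := by
  unfold KL
  rw [Nat.card_Icc, Nat.add_sub_cancel]
  exact Nat.floor_le (Real.exp_pos L).le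

/-- general sum bound -/
theorem rse_dim_sum {Θ : ℝ → ℝ} (hΘ : Cut Θ) {L : ℝ} (hL : 1 ≤ L) (R : ℕ) (D : ℝ) (hD : 0 ≤ D)
    (F : ℕ → ℕ → ℕ → ℕ → ℝ)
    (hF : ∀ a ∈ KL L, ∀ b ∈ KL L, ∀ a' ∈ KL L, ∀ b' ∈ KL L, Odd (a * b * (a' * b')) →
      |F a b a' b'| ≤ D) :
    |∑ a ∈ KL L, ∑ b ∈ KL L, ∑ a' ∈ KL L, ∑ b' ∈ KL L,
      be Θ L R a * be Θ L R b * (be Θ L R a' * be Θ L R b') / √((a : ℝ) * b * (a' * b')) *
        F a b a' b'| ≤ Real.exp (4 * L) * D := by
  have hterm : ∀ a ∈ KL L, ∀ b ∈ KL L, ∀ a' ∈ KL L, ∀ b' ∈ KL L,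
      |be Θ L R a * be Θ L R b * (be Θ L R a' * be Θ L R b') / √((a : ℝ) * b * (a' * b')) *
        F a b a' b'| ≤ D := by
    intro a ha b hb a' ha' b' hb'
    by_cases hodd : Odd (a * b * (a' * b'))
    · rw [abs_mul, abs_div, abs_mul, abs_mul, abs_mul]
      have h1 := rse_dim_be hΘ hL R ha
      have h2 := rse_dim_be hΘ hL R hb
      have h3 := rse_dim_be hΘ hL R ha'
      have h4 := rse_dim_be hΘ hL R hb'
      have h5 : (1 : ℝ) ≤ √((a : ℝ) * b * (a' * b')) := by
        rw [Real.one_le_sqrt]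
        have ha1 : (1 : ℝ) ≤ a := by exact_mod_cast (rse_dim_KL ha).1
        have hb1 : (1 : ℝ) ≤ b := by exact_mod_cast (rse_dim_KL hb).1
        have ha'1 : (1 : ℝ) ≤ a' := by exact_mod_cast (rse_dim_KL ha').1
        have hb'1 : (1 : ℝ) ≤ b' := by exact_mod_cast (rse_dim_KL hb').1
        have h6 : (1 : ℝ) ≤ a * b := one_le_mul_of_one_le_of_one_le ha1 hb1
        have h7 : (1 : ℝ) ≤ a' * b' := one_le_mul_of_one_le_of_one_le ha'1 hb'1
        exact one_le_mul_of_one_le_of_one_le h6 h7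
      have h8 : |be Θ L R a| * |be Θ L R b| * (|be Θ L R a'| * |be Θ L R b'|) ≤ 1 := by
        have h9 : |be Θ L R a| * |be Θ L R b| ≤ 1 := mul_le_one₀ h1 (abs_nonneg _) h2
        have h10 : |be Θ L R a'| * |be Θ L R b'| ≤ 1 := mul_le_one₀ h3 (abs_nonneg _) h4
        exact mul_le_one₀ h9 (by positivity) h10
      rw [abs_of_nonneg (Real.sqrt_nonneg _)]
      have h11 : |be Θ L R a| * |be Θ L R b| * (|be Θ L R a'| * |be Θ L R b'|) /
          √((a : ℝ) * b * (a' * b')) ≤ 1 := by
        rw [div_le_one (by linarith)]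
        exact h8.trans h5
      calc |be Θ L R a| * |be Θ L R b| * (|be Θ L R a'| * |be Θ L R b'|) /
          √((a : ℝ) * b * (a' * b')) * |F a b a' b'| ≤ 1 * D :=
            mul_le_mul h11 (hF a ha b hb a' ha' b' hb' hodd) (abs_nonneg _) zero_le_one
        _ = D := one_mul D
    · have h0 : be Θ L R a * be Θ L R b * (be Θ L R a' * be Θ L R b') = 0 := by
        by_contra hne
        apply hodd
        have ha0 : be Θ L R a ≠ 0 := fun h => hne (by rw [h]; ring)
        have hb0 : be Θ L R b ≠ 0 := fun h => hne (by rw [h]; ring)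
        have ha'0 : be Θ L R a' ≠ 0 := fun h => hne (by rw [h]; ring)
        have hb'0 : be Θ L R b' ≠ 0 := fun h => hne (by rw [h]; ring)
        have h1 : Odd a := by by_contra h; exact ha0 (rse_dim_be_zero h)
        have h2 : Odd b := by by_contra h; exact hb0 (rse_dim_be_zero h)
        have h3 : Odd a' := by by_contra h; exact ha'0 (rse_dim_be_zero h)
        have h4 : Odd b' := by by_contra h; exact hb'0 (rse_dim_be_zero h)
        exact (h1.mul h2).mul (h3.mul h4)
      rw [h0, zero_div, zero_mul, abs_zero]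
      exact hD
  have hc0 : (0 : ℝ) ≤ (KL L).card := Nat.cast_nonneg _
  have hcard := rse_dim_card hL
  have hstep : ∀ (f : ℕ → ℝ) (B : ℝ), (∀ k ∈ KL L, |f k| ≤ B) → |∑ k ∈ KL L, f k| ≤
      (KL L).card * B := by
    intro f B hB
    calc |∑ k ∈ KL L, f k| ≤ ∑ k ∈ KL L, |f k| := Finset.abs_sum_le_sum_abs _ _
      _ ≤ ∑ k ∈ KL L, B := Finset.sum_le_sum hB
      _ = (KL L).card * B := by rw [Finset.sum_const, nsmul_eq_mul]
  have hall := hstep _ _ (fun a ha => hstep _ _ (fun b hb => hstep _ _ (fun a' ha' =>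
    hstep _ _ (fun b' hb' => hterm a ha b hb a' ha' b' hb'))))
  refine hall.trans ?_
  have h4 : Real.exp (4 * L) = Real.exp L * (Real.exp L * (Real.exp L * Real.exp L)) := by
    rw [← Real.exp_add, ← Real.exp_add, ← Real.exp_add]
    congr 1; ring
  rw [h4]
  have he := (Real.exp_pos L).le
  calc ((KL L).card : ℝ) * ((KL L).card * ((KL L).card * ((KL L).card * D)))
      = ((KL L).card * ((KL L).card * ((KL L).card * (KL L).card))) * D := by ring
    _ ≤ (Real.exp L * (Real.exp L * (Real.exp L * Real.exp L))) * D := by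
        refine mul_le_mul_of_nonneg_right ?_ hD
        gcongr

/-- DIM (cites DIL). -/
theorem dim_bound_pr {g Θ : ℝ → ℝ} (hg : Kern g) (hΘ : Cut Θ) : ∃ C : ℝ, 0 < C ∧
    ∀ (L : ℝ) (R m : ℕ) (u u' : ℝ), 1 ≤ L → 0 < m →
    |Dg g Θ L R m u u'| ≤ C * Real.exp (16 * L) * E1 m ^ 3 ∧
    ∀ τ : ℝ, |Dg g Θ L R m (u + τ) (u' + τ) - Dg g Θ L R m u u'| ≤
      C * Real.exp (16 * L) * E1 m ^ 3 * (Real.exp (u / 8) + Real.exp ((u + τ) / 8)) := by
  obtain ⟨C, hC, hdil⟩ := dil_bound hg
  refine ⟨C, hC, fun L R m u u' hL hm => ?_⟩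
  have hE := rse_dim_E1 m
  have hlam : ∀ a ∈ KL L, ∀ b ∈ KL L, ∀ a' ∈ KL L, ∀ b' ∈ KL L,
      (((a * b * (a' * b') : ℕ) : ℝ)) ^ 2 ≤ Real.exp (8 * L) := by
    intro a ha b hb a' ha' b' hb'
    have h1 := (rse_dim_KL ha).2
    have h2 := (rse_dim_KL hb).2
    have h3 := (rse_dim_KL ha').2
    have h4 := (rse_dim_KL hb').2
    have he := (Real.exp_pos L).le
    have h5 : (((a * b * (a' * b') : ℕ) : ℝ)) ≤ Real.exp (4 * L) := by
      have h6 : Real.exp (4 * L) = Real.exp L * Real.exp L * (Real.exp L * Real.exp L) := by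
        rw [← Real.exp_add, ← Real.exp_add]
        congr 1; ring
      rw [h6]
      push_cast
      gcongr
    have h7 : Real.exp (8 * L) = Real.exp (4 * L) ^ 2 := by
      rw [← Real.exp_nat_mul]; congr 1; push_cast; ring
    rw [h7]
    exact pow_le_pow_left₀ (Nat.cast_nonneg _) h5 2
  constructor
  · have h := rse_dim_sum hΘ hL R (C * Real.exp (8 * L) * E1 m ^ 3) (by positivity)
      (fun a b a' b' => SQs g m (a * b * (a' * b')) (u + Real.log a - Real.log b)
        (u' + Real.log a' - Real.log b')) (fun a ha b hb a' ha' b' hb' hodd => by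
        refine ((hdil m _ _ _ hm hodd).1).trans ?_
        gcongr
        exact hlam a ha b hb a' ha' b' hb')
    refine h.trans ?_
    have h1 : Real.exp (4 * L) * (C * Real.exp (8 * L) * E1 m ^ 3) =
        C * (Real.exp (4 * L) * Real.exp (8 * L)) * E1 m ^ 3 := by ring
    rw [h1, ← Real.exp_add]
    gcongr
    linarith
  · intro τ
    have h := rse_dim_sum hΘ hL R (C * Real.exp (8 * L) * E1 m ^ 3 *
        (Real.exp L * (Real.exp (u / 8) + Real.exp ((u + τ) / 8)))) (by positivity)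
      (fun a b a' b' => SQs g m (a * b * (a' * b')) (u + τ + Real.log a - Real.log b)
        (u' + τ + Real.log a' - Real.log b') -
        SQs g m (a * b * (a' * b')) (u + Real.log a - Real.log b)
        (u' + Real.log a' - Real.log b')) (fun a ha b hb a' ha' b' hb' hodd => by
        have h1 := (hdil m (a * b * (a' * b')) (u + Real.log a - Real.log b)
          (u' + Real.log a' - Real.log b') hm hodd).2 τ
        have e1 : u + Real.log a - Real.log b + τ = u + τ + Real.log a - Real.log b := by ring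
        have e2 : u' + Real.log a' - Real.log b' + τ = u' + τ + Real.log a' - Real.log b' := by
          ring
        rw [e1, e2] at h1
        refine h1.trans ?_
        have hla : Real.log a ≤ L := by
          rw [Real.log_le_iff_le_exp (by exact_mod_cast (rse_dim_KL ha).1)]
          exact (rse_dim_KL ha).2
        have hlb : 0 ≤ Real.log b := Real.log_nonneg (by exact_mod_cast (rse_dim_KL hb).1)
        have h2 : Real.exp ((u + Real.log a - Real.log b) / 8) ≤ Real.exp L * Real.exp (u / 8) := by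
          rw [← Real.exp_add]
          apply Real.exp_le_exp.mpr
          linarith
        have h3 : Real.exp ((u + τ + Real.log a - Real.log b) / 8) ≤
            Real.exp L * Real.exp ((u + τ) / 8) := by
          rw [← Real.exp_add]
          apply Real.exp_le_exp.mpr
          linarith
        have h4 : Real.exp ((u + Real.log a - Real.log b) / 8) +
            Real.exp ((u + τ + Real.log a - Real.log b) / 8) ≤
            Real.exp L * (Real.exp (u / 8) + Real.exp ((u + τ) / 8)) := by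
          rw [mul_add]; exact add_le_add h2 h3
        have h5 := hlam a ha b hb a' ha' b' hb'
        gcongr)
    have hsub : Dg g Θ L R m (u + τ) (u' + τ) - Dg g Θ L R m u u' =
        ∑ a ∈ KL L, ∑ b ∈ KL L, ∑ a' ∈ KL L, ∑ b' ∈ KL L,
      be Θ L R a * be Θ L R b * (be Θ L R a' * be Θ L R b') / √((a : ℝ) * b * (a' * b')) *
        (SQs g m (a * b * (a' * b')) (u + τ + Real.log a - Real.log b)
        (u' + τ + Real.log a' - Real.log b') -
        SQs g m (a * b * (a' * b')) (u + Real.log a - Real.log b)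
        (u' + Real.log a' - Real.log b')) := by
      unfold Dg
      rw [← Finset.sum_sub_distrib]
      refine Finset.sum_congr rfl (fun a _ => ?_)
      rw [← Finset.sum_sub_distrib]
      refine Finset.sum_congr rfl (fun b _ => ?_)
      rw [← Finset.sum_sub_distrib]
      refine Finset.sum_congr rfl (fun a' _ => ?_)
      rw [← Finset.sum_sub_distrib]
      refine Finset.sum_congr rfl (fun b' _ => ?_)
      rw [mul_sub]
    rw [hsub]
    refine h.trans ?_
    have h1 : Real.exp (4 * L) * (C * Real.exp (8 * L) * E1 m ^ 3 *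
        (Real.exp L * (Real.exp (u / 8) + Real.exp ((u + τ) / 8)))) =
        C * (Real.exp (4 * L) * Real.exp (8 * L) * Real.exp L) * E1 m ^ 3 *
        (Real.exp (u / 8) + Real.exp ((u + τ) / 8)) := by ring
    rw [h1, ← Real.exp_add, ← Real.exp_add]
    gcongr
    linarith

end Pool.Agent.RSE

namespace Pool.Agent.RSE

alias dim_bound := dim_bound_pr

end Pool.Agent.RSE
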