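import Pool.Agent.Lib_helper39.RSE.Defs
import Pool.Agent.Lib_helper39.RSA.DefsB
/-!
# Block XAV: random signs
-/

namespace Pool.Agent.RSE

open Complex MeasureTheory Filter Topology
open Pool.Agent.RC (cc psi rv f0 IsRC Good gm pr DD)
open scoped ContDiff

/-- XAV. -/
theorem xS_mul_pr (S T : Finset ℕ) (m n : ℕ) : xS S T (m * n) = xS S T m * xS S T n := by
  unfold xS
  by_cases hm : m = 0
  · simp [hm]
  by_cases hn : n = 0
  · simp [hn]
  have hmn : m * n ≠ 0 := mul_ne_zero hm hn
  rw [Nat.primeFactors_mul hm hn, Nat.factorization_mul hm hn]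
  by_cases h1 : m.primeFactors ⊆ S
  · by_cases h2 : n.primeFactors ⊆ S
    · rw [if_pos ⟨hmn, Finset.union_subset h1 h2⟩, if_pos ⟨hm, h1⟩, if_pos ⟨hn, h2⟩,
        ← Finset.prod_mul_distrib]
      apply Finset.prod_congr rfl
      intro p _
      rw [Finsupp.add_apply, pow_add]
    · have e1 : ¬ (m * n ≠ 0 ∧ m.primeFactors ∪ n.primeFactors ⊆ S) :=
        fun h => h2 (Finset.union_subset_right h.2)
      have e2 : ¬ (n ≠ 0 ∧ n.primeFactors ⊆ S) := fun h => h2 h.2
      simp only [if_neg e1, if_neg e2, mul_zero]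
  · have e1 : ¬ (m * n ≠ 0 ∧ m.primeFactors ∪ n.primeFactors ⊆ S) :=
      fun h => h1 (Finset.union_subset_left h.2)
    have e2 : ¬ (m ≠ 0 ∧ m.primeFactors ⊆ S) := fun h => h1 h.2
    simp only [if_neg e1, if_neg e2, zero_mul]

theorem rse_xav_square (n : ℕ) (hn : n ≠ 0) : IsSquare n ↔ ∀ p, Even (n.factorization p) := by
  constructor
  · rintro ⟨r, rfl⟩ p
    have hr : r ≠ 0 := by rintro rfl; exact hn rfl
    rw [Nat.factorization_mul hr hr, Finsupp.add_apply]
    exact ⟨_, rfl⟩
  · intro h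
    refine ⟨n.factorization.prod fun p k => p ^ (k / 2), ?_⟩
    have h1 := Nat.prod_factorization_pow_eq_self hn
    conv_lhs => rw [← h1]
    unfold Finsupp.prod
    rw [← Finset.prod_mul_distrib]
    apply Finset.prod_congr rfl
    intro p _
    rw [← pow_add]
    congr 1
    obtain ⟨k, hk⟩ := h p
    omega

theorem x_av_pr (S : Finset ℕ) (hS : ∀ p ∈ S, p.Prime) (n : ℕ) (hn : n ≠ 0) :
    avg S (fun T => xS S T n) = if n.primeFactors ⊆ S ∧ IsSquare n then 1 else 0 := by
  unfold avg xS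
  by_cases h1 : n.primeFactors ⊆ S
  · have h2 : ∑ T ∈ S.powerset, (if n ≠ 0 ∧ n.primeFactors ⊆ S then
        ∏ p ∈ T, (-1 : ℝ) ^ (n.factorization p) else 0) =
        ∏ p ∈ S, (1 + (-1 : ℝ) ^ (n.factorization p)) := by
      rw [Finset.prod_one_add]
      apply Finset.sum_congr rfl
      intro T _
      rw [if_pos ⟨hn, h1⟩]
    rw [h2]
    by_cases h3 : IsSquare n
    · rw [if_pos ⟨h1, h3⟩]
      have h4 := (rse_xav_square n hn).mp h3
      have h5 : ∏ p ∈ S, (1 + (-1 : ℝ) ^ (n.factorization p)) = ∏ p ∈ S, 2 := by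
        apply Finset.prod_congr rfl
        intro p _
        rw [(h4 p).neg_one_pow]; norm_num
      rw [h5, Finset.prod_const]
      exact div_self (by positivity)
    · rw [if_neg (fun h => h3 h.2)]
      have h4 : ∃ p, ¬ Even (n.factorization p) := by
        by_contra hc
        push Not at hc
        exact h3 ((rse_xav_square n hn).mpr hc)
      obtain ⟨p, hp⟩ := h4
      have hpS : p ∈ S := by
        apply h1
        rw [← Nat.support_factorization, Finsupp.mem_support_iff]
        intro h0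
        rw [h0] at hp
        exact hp ⟨0, rfl⟩
      have h5 : ∏ p ∈ S, (1 + (-1 : ℝ) ^ (n.factorization p)) = 0 := by
        apply Finset.prod_eq_zero hpS
        rw [(Nat.not_even_iff_odd.mp hp).neg_one_pow]; norm_num
      rw [h5, zero_div]
  · rw [if_neg (fun h => h1 h.1)]
    have h2 : ∑ T ∈ S.powerset, (if n ≠ 0 ∧ n.primeFactors ⊆ S then
        ∏ p ∈ T, (-1 : ℝ) ^ (n.factorization p) else 0) = 0 := by
      apply Finset.sum_eq_zero
      intro T _
      rw [if_neg (fun h => h1 h.2)]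
    rw [h2, zero_div]

theorem x_prod_pr (S : Finset ℕ) (F : ℕ → ℝ → ℝ) :
    avg S (fun T => ∏ p ∈ S, F p (sg T p)) = ∏ p ∈ S, (F p 1 + F p (-1)) / 2 := by
  unfold avg
  rw [Finset.prod_div_distrib, Finset.prod_const]
  congr 1
  have h1 : ∏ p ∈ S, (F p 1 + F p (-1)) = ∏ p ∈ S, (F p (-1) + F p 1) :=
    Finset.prod_congr rfl fun p _ => add_comm _ _
  rw [h1, Finset.prod_add]
  apply Finset.sum_congr rfl
  intro T hT
  rw [Finset.mem_powerset] at hT
  show ∏ p ∈ S, F p (sg T p) = _
  rw [← Finset.prod_sdiff hT, mul_comm]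
  congr 1
  · apply Finset.prod_congr rfl
    intro p hp
    unfold sg
    rw [if_pos hp]
  · apply Finset.prod_congr rfl
    intro p hp
    unfold sg
    rw [if_neg (Finset.mem_sdiff.mp hp).2]

end Pool.Agent.RSE

namespace Pool.Agent.RSE

alias xS_mul := xS_mul_pr

alias x_av := x_av_pr

alias x_prod := x_prod_pr

end Pool.Agent.RSE
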