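import Pool.Agent.Lib_helper39.RSE.Defs
import Pool.Agent.Lib_helper39.RSA.DefsB
import Pool.Agent.Lib_helper39.RSA.SMO1
import Pool.Agent.Lib_helper39.RSA.XAV
/-!
# Block XLIM: the random model converges to the diagonal
-/

namespace Pool.Agent.RSE

open Complex MeasureTheory Filter Topology
open Pool.Agent.RC (cc psi rv f0 IsRC Good gm pr DD)
open scoped ContDiff

/-- The weight. -/
noncomputable def rse_xlim_W (g : ℝ → ℝ) (v : ℝ) (n : ℕ) : ℝ := g (Real.log n + v) / √(n : ℝ)

theorem rse_xlim_W_summable {g : ℝ → ℝ} (hg : Kern g) (v : ℝ) : Summable (rse_xlim_W g v) := by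
  have h := rse_smo1_summable (rse_smo1_fast0 hg) (le_refl (1 : ℝ)) (fun n : ℕ => 1 / √(n : ℝ))
    (fun n => by
      rcases Nat.eq_zero_or_pos n with rfl | hn
      · simp
      · have hn1 : (1 : ℝ) ≤ n := by exact_mod_cast hn
        have h1 : 1 ≤ √(n : ℝ) := by rw [Real.one_le_sqrt]; exact hn1
        rw [abs_of_nonneg (by positivity), div_le_one (by linarith)]
        exact h1) (by simp) v
  refine h.congr fun n => ?_
  unfold rse_xlim_W
  rw [one_mul]
  ring

theorem rse_xlim_xS_le (S T : Finset ℕ) (n : ℕ) : |xS S T n| ≤ 1 := by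
  unfold xS
  split_ifs
  · rw [Finset.abs_prod]
    apply le_of_eq
    apply Finset.prod_eq_one
    intro p _
    simp
  · simp

theorem rse_xlim_xS_zero (S T : Finset ℕ) : xS S T 0 = 0 := by
  unfold xS
  simp

theorem rse_xlim_xW_summable {g : ℝ → ℝ} (hg : Kern g) (S T : Finset ℕ) (v : ℝ) :
    Summable (fun n => ‖xS S T n * rse_xlim_W g v n‖) := by
  apply Summable.of_nonneg_of_le (fun n => norm_nonneg _) _ (rse_xlim_W_summable hg v).norm
  intro n
  rw [norm_mul, Real.norm_eq_abs]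
  calc _ ≤ 1 * ‖rse_xlim_W g v n‖ :=
        mul_le_mul_of_nonneg_right (rse_xlim_xS_le S T n) (norm_nonneg _)
    _ = _ := one_mul _

theorem rse_xlim_avg_sum {ι : Type*} (S : Finset ℕ) (s : Finset ι) (F : ι → Finset ℕ → ℝ) :
    avg S (fun T => ∑ i ∈ s, F i T) = ∑ i ∈ s, avg S (F i) := by
  unfold avg
  rw [Finset.sum_comm, Finset.sum_div]

theorem rse_xlim_avg_mul (S : Finset ℕ) (c : ℝ) (F : Finset ℕ → ℝ) :
    avg S (fun T => c * F T) = c * avg S F := by
  unfold avg
  rw [← Finset.mul_sum, mul_div_assoc]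

theorem rse_xlim_avg_tsum {ι : Type*} (S : Finset ℕ) (F : Finset ℕ → ι → ℝ)
    (hF : ∀ T, Summable (F T)) : avg S (fun T => ∑' i, F T i) = ∑' i, avg S (fun T => F T i) := by
  unfold avg
  rw [← Summable.tsum_finsetSum (fun T _ => hF T), tsum_div_const]

/-- The coefficient in the random model. -/
noncomputable def rse_xlim_c (S : Finset ℕ) (n : ℕ) : ℝ := avg S (fun T => xS S T n)

theorem rse_xlim_c_le (S : Finset ℕ) (n : ℕ) : |rse_xlim_c S n| ≤ 1 := by
  unfold rse_xlim_c avg
  rw [abs_div, abs_of_pos (by positivity : (0 : ℝ) < 2 ^ S.card), div_le_one (by positivity)]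
  calc |∑ T ∈ S.powerset, xS S T n| ≤ ∑ T ∈ S.powerset, |xS S T n| :=
        Finset.abs_sum_le_sum_abs _ _
    _ ≤ ∑ T ∈ S.powerset, (1 : ℝ) := Finset.sum_le_sum fun T _ => rse_xlim_xS_le S T n
    _ = _ := by rw [Finset.sum_const, Finset.card_powerset]; simp

/-- The average of one term. -/
theorem rse_xlim_term {g : ℝ → ℝ} (hg : Kern g) (S : Finset ℕ) (lam : ℕ) (v1 v2 : ℝ) :
    avg S (fun T => xS S T lam * ((∑' n, xS S T n * rse_xlim_W g v1 n) *
      ∑' n, xS S T n * rse_xlim_W g v2 n)) =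
      ∑' p : ℕ × ℕ, rse_xlim_c S (p.1 * p.2 * lam) *
        (rse_xlim_W g v1 p.1 * rse_xlim_W g v2 p.2) := by
  have h1 : ∀ T : Finset ℕ, xS S T lam * ((∑' n, xS S T n * rse_xlim_W g v1 n) *
      ∑' n, xS S T n * rse_xlim_W g v2 n) =
      ∑' p : ℕ × ℕ, xS S T (p.1 * p.2 * lam) *
        (rse_xlim_W g v1 p.1 * rse_xlim_W g v2 p.2) := by
    intro T
    rw [tsum_mul_tsum_of_summable_norm (rse_xlim_xW_summable hg S T v1)
      (rse_xlim_xW_summable hg S T v2), ← tsum_mul_left]
    apply tsum_congr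
    intro p
    rw [xS_mul_pr, xS_mul_pr]
    ring
  have h2 : ∀ T : Finset ℕ, Summable (fun p : ℕ × ℕ => xS S T (p.1 * p.2 * lam) *
        (rse_xlim_W g v1 p.1 * rse_xlim_W g v2 p.2)) := by
    intro T
    have h3 := summable_mul_of_summable_norm (rse_xlim_W_summable hg v1).norm
      (rse_xlim_W_summable hg v2).norm
    apply Summable.of_norm_bounded h3.norm
    intro p
    rw [norm_mul, Real.norm_eq_abs]
    calc _ ≤ 1 * ‖rse_xlim_W g v1 p.1 * rse_xlim_W g v2 p.2‖ :=
          mul_le_mul_of_nonneg_right (rse_xlim_xS_le S T _) (norm_nonneg _)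
      _ = _ := one_mul _
  simp only [h1]
  rw [rse_xlim_avg_tsum S _ h2]
  apply tsum_congr
  intro p
  unfold rse_xlim_c avg
  rw [← Finset.sum_mul, div_mul_eq_mul_div]

/-- The limit of the coefficient. -/
theorem rse_xlim_c_lim (m : ℕ) (hm : 0 < m) (lam a b : ℕ) (hl : Odd lam) :
    Tendsto (fun Y : ℕ => rse_xlim_c (SY m Y) (a * b * lam)) atTop
      (𝓝 (if Odd a ∧ Odd b ∧ IsSquare (a * b * lam) ∧ (a * b * lam).Coprime m then 1 else 0)) := by
  apply tendsto_const_nhds.congr'
  filter_upwards [eventually_ge_atTop (a * b * lam)] with Y hY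
  symm
  rcases Nat.eq_zero_or_pos (a * b * lam) with h0 | h0
  · have h1 : ¬ (Odd a ∧ Odd b ∧ IsSquare (a * b * lam) ∧ (a * b * lam).Coprime m) := by
      rintro ⟨ha, hb, -⟩
      have := hl.pos
      have := ha.pos
      have := hb.pos
      have : 0 < a * b * lam := by positivity
      omega
    rw [if_neg h1, h0]
    unfold rse_xlim_c avg
    rw [Finset.sum_eq_zero (fun T _ => rse_xlim_xS_zero _ T), zero_div]
  · have hS : ∀ p ∈ SY m Y, p.Prime := by
      intro p hp
      unfold SY pr at hp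
      rw [Finset.mem_filter, Finset.mem_filter] at hp
      exact hp.1.2
    unfold rse_xlim_c
    rw [x_av_pr _ hS _ h0.ne']
    have h2 : ((a * b * lam).primeFactors ⊆ SY m Y ∧ IsSquare (a * b * lam)) ↔
        (Odd a ∧ Odd b ∧ IsSquare (a * b * lam) ∧ (a * b * lam).Coprime m) := by
      constructor
      · rintro ⟨h3, h4⟩
        have h5 : ¬ 2 ∣ a * b * lam := by
          intro h
          have h6 := h3 (Nat.mem_primeFactors.mpr ⟨Nat.prime_two, h, h0.ne'⟩)
          unfold SY at h6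
          rw [Finset.mem_filter] at h6
          exact h6.2.1 rfl
        refine ⟨?_, ?_, h4, ?_⟩
        · rw [← Nat.not_even_iff_odd]
          intro h
          exact h5 (dvd_mul_of_dvd_left (dvd_mul_of_dvd_left h.two_dvd _) _)
        · rw [← Nat.not_even_iff_odd]
          intro h
          exact h5 (dvd_mul_of_dvd_left (dvd_mul_of_dvd_right h.two_dvd _) _)
        · by_contra hc
          obtain ⟨p, hp, hpa, hpm⟩ := Nat.Prime.not_coprime_iff_dvd.mp hc
          have h6 := h3 (Nat.mem_primeFactors.mpr ⟨hp, hpa, h0.ne'⟩)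
          unfold SY at h6
          rw [Finset.mem_filter] at h6
          exact h6.2.2 hpm
      · rintro ⟨ha, hb, hs, hc⟩
        refine ⟨?_, hs⟩
        intro p hp
        have hp' := Nat.prime_of_mem_primeFactors hp
        have hd := Nat.dvd_of_mem_primeFactors hp
        unfold SY pr
        rw [Finset.mem_filter, Finset.mem_filter, Finset.mem_range]
        refine ⟨⟨?_, hp'⟩, ?_, ?_⟩
        · exact Nat.lt_succ_of_le (le_trans (Nat.le_of_dvd h0 hd) hY)
        · rintro rfl
          have h7 : Odd (a * b * lam) := (ha.mul hb).mul hl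
          exact (Nat.not_even_iff_odd.mpr h7) (even_iff_two_dvd.mpr hd)
        · intro hpm
          have h8 : p ∣ (a * b * lam).gcd m := Nat.dvd_gcd hd hpm
          rw [hc] at h8
          exact hp'.one_lt.ne' (Nat.dvd_one.mp h8)
    by_cases h9 : Odd a ∧ Odd b ∧ IsSquare (a * b * lam) ∧ (a * b * lam).Coprime m
    · rw [if_pos h9, if_pos (h2.mpr h9)]
    · rw [if_neg h9, if_neg (fun h => h9 (h2.mp h))]

/-- The limit of one term. -/
theorem rse_xlim_one {g : ℝ → ℝ} (hg : Kern g) (m : ℕ) (hm : 0 < m) (lam : ℕ) (hl : Odd lam)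
    (v1 v2 : ℝ) : Tendsto (fun Y : ℕ => avg (SY m Y) (fun T => xS (SY m Y) T lam *
      ((∑' n, xS (SY m Y) T n * rse_xlim_W g v1 n) *
        ∑' n, xS (SY m Y) T n * rse_xlim_W g v2 n))) atTop (𝓝 (SQs g m lam v1 v2)) := by
  simp only [rse_xlim_term hg]
  have h3 := summable_mul_of_summable_norm (rse_xlim_W_summable hg v1).norm
      (rse_xlim_W_summable hg v2).norm
  have h4 : SQs g m lam v1 v2 = ∑' p : ℕ × ℕ,
      (if Odd p.1 ∧ Odd p.2 ∧ IsSquare (p.1 * p.2 * lam) ∧ (p.1 * p.2 * lam).Coprime m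
        then 1 else 0) * (rse_xlim_W g v1 p.1 * rse_xlim_W g v2 p.2) := by
    unfold SQs
    apply tsum_congr
    intro p
    split_ifs
    · unfold rse_xlim_W
      rw [Real.sqrt_mul (Nat.cast_nonneg _), one_mul, div_mul_div_comm]
    · rw [zero_mul]
  rw [h4]
  apply tendsto_tsum_of_dominated_convergence h3.norm
  · intro p
    exact (rse_xlim_c_lim m hm lam p.1 p.2 hl).mul_const _
  · refine Eventually.of_forall fun Y p => ?_
    rw [norm_mul, Real.norm_eq_abs]
    calc _ ≤ 1 * ‖rse_xlim_W g v1 p.1 * rse_xlim_W g v2 p.2‖ :=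
          mul_le_mul_of_nonneg_right (rse_xlim_c_le _ _) (norm_nonneg _)
      _ = _ := one_mul _

/-- XLIM (cites XAV, SUMG). -/
theorem x_lim_pr {g Θ : ℝ → ℝ} (hg : Kern g) (L : ℝ) (R m : ℕ) (hm : 0 < m) (u u' : ℝ) :
    Tendsto (fun Y : ℕ => avg (SY m Y)
      (fun T => fX g Θ L R (SY m Y) T u * fX g Θ L R (SY m Y) T u')) atTop
      (𝓝 (Dg g Θ L R m u u')) := by
  have h1 : ∀ Y : ℕ, avg (SY m Y)
      (fun T => fX g Θ L R (SY m Y) T u * fX g Θ L R (SY m Y) T u') =
      ∑ a ∈ KL L, ∑ b ∈ KL L, ∑ a' ∈ KL L, ∑ b' ∈ KL L,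
        be Θ L R a * be Θ L R b * (be Θ L R a' * be Θ L R b') / √((a : ℝ) * b * (a' * b')) *
        avg (SY m Y) (fun T => xS (SY m Y) T (a * b * (a' * b')) *
          ((∑' n, xS (SY m Y) T n * rse_xlim_W g (u + Real.log a - Real.log b) n) *
            ∑' n, xS (SY m Y) T n * rse_xlim_W g (u' + Real.log a' - Real.log b') n)) := by
    intro Y
    have h2 : ∀ (T : Finset ℕ) (v : ℝ), fX g Θ L R (SY m Y) T v =
        ∑ a ∈ KL L, ∑ b ∈ KL L, be Θ L R a * be Θ L R b * xS (SY m Y) T (a * b) /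
          √((a : ℝ) * b) *
          ∑' n, xS (SY m Y) T n * rse_xlim_W g (v + Real.log a - Real.log b) n := by
      intro T v
      unfold fX
      apply Finset.sum_congr rfl
      intro a _
      apply Finset.sum_congr rfl
      intro b _
      congr 1
      apply tsum_congr
      intro n
      unfold rse_xlim_W
      ring
    have h3 : ∀ T : Finset ℕ, fX g Θ L R (SY m Y) T u * fX g Θ L R (SY m Y) T u' =
        ∑ a ∈ KL L, ∑ b ∈ KL L, ∑ a' ∈ KL L, ∑ b' ∈ KL L,
          be Θ L R a * be Θ L R b * (be Θ L R a' * be Θ L R b') / √((a : ℝ) * b * (a' * b')) *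
          (xS (SY m Y) T (a * b * (a' * b')) *
            ((∑' n, xS (SY m Y) T n * rse_xlim_W g (u + Real.log a - Real.log b) n) *
              ∑' n, xS (SY m Y) T n * rse_xlim_W g (u' + Real.log a' - Real.log b') n)) := by
      intro T
      rw [h2 T u, h2 T u', Finset.sum_mul_sum]
      apply Finset.sum_congr rfl
      intro a _
      have h4 : ∀ a' : ℕ, (∑ b ∈ KL L, be Θ L R a * be Θ L R b * xS (SY m Y) T (a * b) /
          √((a : ℝ) * b) *
          ∑' n, xS (SY m Y) T n * rse_xlim_W g (u + Real.log a - Real.log b) n) *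
          (∑ b' ∈ KL L, be Θ L R a' * be Θ L R b' * xS (SY m Y) T (a' * b') /
          √((a' : ℝ) * b') *
          ∑' n, xS (SY m Y) T n * rse_xlim_W g (u' + Real.log a' - Real.log b') n) =
          ∑ b ∈ KL L, ∑ b' ∈ KL L, be Θ L R a * be Θ L R b * (be Θ L R a' * be Θ L R b') /
            √((a : ℝ) * b * (a' * b')) *
          (xS (SY m Y) T (a * b * (a' * b')) *
            ((∑' n, xS (SY m Y) T n * rse_xlim_W g (u + Real.log a - Real.log b) n) *
              ∑' n, xS (SY m Y) T n * rse_xlim_W g (u' + Real.log a' - Real.log b') n)) := by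
        intro a'
        rw [Finset.sum_mul_sum]
        apply Finset.sum_congr rfl
        intro b _
        apply Finset.sum_congr rfl
        intro b' _
        rw [xS_mul_pr _ _ (a * b), Real.sqrt_mul (by positivity : (0 : ℝ) ≤ (a : ℝ) * b)]
        rw [mul_mul_mul_comm, div_mul_div_comm]
        ring
      simp only [h4]
      rw [Finset.sum_comm]
    have h5 : (fun T => fX g Θ L R (SY m Y) T u * fX g Θ L R (SY m Y) T u') = fun T =>
        ∑ a ∈ KL L, ∑ b ∈ KL L, ∑ a' ∈ KL L, ∑ b' ∈ KL L,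
          be Θ L R a * be Θ L R b * (be Θ L R a' * be Θ L R b') / √((a : ℝ) * b * (a' * b')) *
          (xS (SY m Y) T (a * b * (a' * b')) *
            ((∑' n, xS (SY m Y) T n * rse_xlim_W g (u + Real.log a - Real.log b) n) *
              ∑' n, xS (SY m Y) T n * rse_xlim_W g (u' + Real.log a' - Real.log b') n)) :=
      funext h3
    rw [h5]
    simp only [rse_xlim_avg_sum, rse_xlim_avg_mul]
  simp only [h1]
  unfold Dg
  refine tendsto_finsetSum _ fun a _ => tendsto_finsetSum _ fun b _ =>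
    tendsto_finsetSum _ fun a' _ => tendsto_finsetSum _ fun b' _ => ?_
  by_cases hodd : Odd a ∧ Odd b ∧ Odd a' ∧ Odd b'
  · obtain ⟨o1, o2, o3, o4⟩ := hodd
    exact (rse_xlim_one hg m hm _ ((o1.mul o2).mul (o3.mul o4)) _ _).const_mul _
  · have hz : be Θ L R a * be Θ L R b * (be Θ L R a' * be Θ L R b') = 0 := by
      have hbe : ∀ k : ℕ, ¬ Odd k → be Θ L R k = 0 := by
        intro k hk
        unfold be
        rw [if_neg (fun h => hk h.1)]
      by_cases o1 : Odd a
      · by_cases o2 : Odd b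
        · by_cases o3 : Odd a'
          · have o4 : ¬ Odd b' := fun o4 => hodd ⟨o1, o2, o3, o4⟩
            rw [hbe b' o4]; ring
          · rw [hbe a' o3]; ring
        · rw [hbe b o2]; ring
      · rw [hbe a o1]; ring
    rw [hz]
    simp

end Pool.Agent.RSE

namespace Pool.Agent.RSE

alias x_lim := x_lim_pr

end Pool.Agent.RSE
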