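import Pool.Agent.Lib_helper39.RSE.Defs
import Pool.Agent.Lib_helper39.RSA.DefsB
import Pool.Agent.Lib_helper92.SQA.ALPHA
import Pool.Agent.Lib_helper39.RSA.XAV
/-!
# RSE, block XR1
-/

namespace Pool.Agent.RSE

open Complex MeasureTheory Filter Topology
open Pool.Agent.RC (cc psi rv f0 IsRC Good gm pr DD)
open scoped ContDiff

theorem rse_xr1_zero (S T : Finset ℕ) : xS S T 0 = 0 := by
  unfold xS
  rw [if_neg (fun h => h.1 rfl)]

theorem rse_xr1_one (S T : Finset ℕ) : xS S T 1 = 1 := by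
  unfold xS
  rw [if_pos ⟨one_ne_zero, by simp⟩]
  refine Finset.prod_eq_one fun p _ => ?_
  simp

theorem rse_xr1_prime {S : Finset ℕ} (T : Finset ℕ) {p : ℕ} (hp : p.Prime) (h : p ∈ S) :
    xS S T p = sg T p := by
  unfold xS sg
  rw [if_pos ⟨hp.ne_zero, by rw [hp.primeFactors]; simpa using h⟩]
  by_cases hT : p ∈ T
  · rw [if_pos hT, Finset.prod_eq_single p]
    · rw [hp.factorization_self, pow_one]
    · intro q _ hq
      rw [hp.factorization, Finsupp.single_apply, if_neg (fun h => hq h.symm), pow_zero]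
    · exact fun h => absurd hT h
  · rw [if_neg hT]
    refine Finset.prod_eq_one fun q hq => ?_
    rw [hp.factorization, Finsupp.single_apply, if_neg, pow_zero]
    rintro rfl
    exact hT hq

theorem rse_xr1_abs (S T : Finset ℕ) (n : ℕ) : |xS S T n| ≤ 1 := by
  unfold xS
  split_ifs
  · rw [Finset.abs_prod]
    refine (Finset.prod_eq_one fun p _ => ?_).le
    rw [abs_pow, abs_neg, abs_one, one_pow]
  · rw [abs_zero]
    exact zero_le_one

/-- the completely multiplicative function `xS(n) n^{-s}` -/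
noncomputable def rse_xr1_f (S T : Finset ℕ) (s : ℂ) : ℕ →* ℂ where
  toFun n := (xS S T n : ℂ) * (n : ℂ) ^ (-s)
  map_one' := by rw [rse_xr1_one, Nat.cast_one, one_cpow, ofReal_one, one_mul]
  map_mul' m n := by
    rw [xS_mul, Nat.cast_mul, natCast_mul_natCast_cpow, ofReal_mul]
    ring

theorem rse_xr1_f_apply (S T : Finset ℕ) (s : ℂ) (n : ℕ) :
    rse_xr1_f S T s n = (xS S T n : ℂ) * (n : ℂ) ^ (-s) := rfl

theorem rse_xr1_cpow_lt {p : ℕ} (hp : p.Prime) {s : ℂ} (hs : 0 < s.re) :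
    ‖(p : ℂ) ^ (-s)‖ < 1 := by
  rw [norm_natCast_cpow_of_pos hp.pos, neg_re]
  exact Real.rpow_lt_one_of_one_lt_of_neg (by exact_mod_cast hp.one_lt) (by linarith)

theorem rse_xr1_lt (S T : Finset ℕ) {s : ℂ} (hs : 0 < s.re) {p : ℕ} (hp : p.Prime) :
    ‖rse_xr1_f S T s p‖ < 1 := by
  rw [rse_xr1_f_apply, norm_mul]
  have h1 : ‖(xS S T p : ℂ)‖ ≤ 1 := by
    rw [norm_real]
    exact rse_xr1_abs S T p
  calc ‖(xS S T p : ℂ)‖ * ‖(p : ℂ) ^ (-s)‖ ≤ 1 * ‖(p : ℂ) ^ (-s)‖ :=
        mul_le_mul_of_nonneg_right h1 (norm_nonneg _)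
    _ < 1 := by
        rw [one_mul]
        exact rse_xr1_cpow_lt hp hs

theorem rse_xr1_supp (S T : Finset ℕ) (s : ℂ) :
    Function.support (fun n : ℕ => rse_xr1_f S T s n) ⊆ Nat.factoredNumbers S := by
  intro n hn
  have h1 : xS S T n ≠ 0 := by
    intro h
    apply hn
    show rse_xr1_f S T s n = 0
    rw [rse_xr1_f_apply, h, ofReal_zero, zero_mul]
  have h2 : n ≠ 0 ∧ n.primeFactors ⊆ S := by
    by_contra h
    apply h1
    unfold xS
    rw [if_neg h]
  exact ⟨h2.1, fun p hp => h2.2 (by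
    rw [Nat.mem_primeFactors]
    exact ⟨Nat.prime_of_mem_primeFactorsList hp, Nat.dvd_of_mem_primeFactorsList hp, h2.1⟩)⟩

theorem rse_xr1_hasSum (S T : Finset ℕ) (hS : ∀ p ∈ S, p.Prime) {s : ℂ} (hs : 0 < s.re) :
    Summable (fun n : ℕ => ‖rse_xr1_f S T s n‖) ∧
      HasSum (fun n : ℕ => rse_xr1_f S T s n) (∏ p ∈ S, (1 - sg T p * (p : ℂ) ^ (-s))⁻¹) := by
  obtain ⟨h1, h2⟩ := EulerProduct.summable_and_hasSum_factoredNumbers_prod_filter_prime_geometric
    (f := rse_xr1_f S T s) (fun hp => rse_xr1_lt S T hs hp) S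
  have hfil : S.filter (fun p => p.Prime) = S := Finset.filter_true_of_mem hS
  have hprod : ∏ p ∈ S.filter (fun p => p.Prime), (1 - rse_xr1_f S T s p)⁻¹ =
      ∏ p ∈ S, (1 - sg T p * (p : ℂ) ^ (-s))⁻¹ := by
    rw [hfil]
    refine Finset.prod_congr rfl fun p hp => ?_
    rw [rse_xr1_f_apply, rse_xr1_prime T (hS p hp) hp]
  rw [hprod] at h2
  constructor
  · have h1' : Summable ((fun n : ℕ => ‖rse_xr1_f S T s n‖) ∘
        ((↑) : Nat.factoredNumbers S → ℕ)) := h1
    have h3 := summable_subtype_iff_indicator.1 h1'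
    refine h3.congr fun n => ?_
    by_cases hn : n ∈ Nat.factoredNumbers S
    · rw [Set.indicator_of_mem hn]
    · rw [Set.indicator_of_notMem hn]
      have : rse_xr1_f S T s n = 0 := by
        by_contra h
        exact hn (rse_xr1_supp S T s h)
      rw [this, norm_zero]
  · exact (hasSum_subtype_iff_of_support_subset (rse_xr1_supp S T s)).1 h2

/-- product of two twisted sums -/
theorem rse_xr1_conv (S T : Finset ℕ) (hS : ∀ p ∈ S, p.Prime) {s : ℂ} (hs : 0 < s.re)
    (a b : ArithmeticFunction ℂ) (ha : ∀ n, ‖a n‖ ≤ 1) (hb : ∀ n, ‖b n‖ ≤ 1) :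
    (∑' n : ℕ, a n * rse_xr1_f S T s n) * (∑' n : ℕ, b n * rse_xr1_f S T s n) =
      ∑' n : ℕ, (a * b) n * rse_xr1_f S T s n := by
  have hsum := (rse_xr1_hasSum S T hS hs).1
  have key : ∀ c : ArithmeticFunction ℂ, (∀ n, ‖c n‖ ≤ 1) →
      LSeriesSummable (fun n => c n * rse_xr1_f S T s n) 0 ∧
      LSeries (fun n => c n * rse_xr1_f S T s n) 0 = ∑' n : ℕ, c n * rse_xr1_f S T s n := by
    intro c hc
    have ht : ∀ n, LSeries.term (fun n => c n * rse_xr1_f S T s n) 0 n =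
        c n * rse_xr1_f S T s n := by
      intro n
      rcases eq_or_ne n 0 with rfl | hn
      · rw [LSeries.term_zero, ArithmeticFunction.map_zero, zero_mul]
      · rw [LSeries.term_of_ne_zero hn, cpow_zero, div_one]
    constructor
    · unfold LSeriesSummable
      refine Summable.of_norm_bounded hsum fun n => ?_
      rw [ht, norm_mul]
      exact mul_le_of_le_one_left (norm_nonneg _) (hc n)
    · unfold LSeries
      exact tsum_congr ht
  obtain ⟨a1, a2⟩ := key a ha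
  obtain ⟨b1, b2⟩ := key b hb
  have h3 := LSeries_convolution' a1 b1
  rw [a2, b2] at h3
  rw [← h3]
  unfold LSeries
  refine tsum_congr fun n => ?_
  rcases eq_or_ne n 0 with rfl | hn
  · rw [LSeries.term_zero, ArithmeticFunction.map_zero, zero_mul]
  · rw [LSeries.term_of_ne_zero hn, cpow_zero, div_one, LSeries.convolution_def,
      ArithmeticFunction.mul_apply, Finset.sum_mul]
    refine Finset.sum_congr rfl fun x hx => ?_
    rw [← (Nat.mem_divisorsAntidiagonal.1 hx).1, map_mul]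
    ring

/-- the coefficients `al` as complex numbers -/
noncomputable def rse_xr1_al : ArithmeticFunction ℂ := ⟨fun n => (Pool.Agent.SQ.al n : ℂ), by simp⟩

theorem rse_xr1_al_sq : rse_xr1_al * rse_xr1_al =
    ((ArithmeticFunction.moebius : ArithmeticFunction ℤ) : ArithmeticFunction ℂ) := by
  ext n
  have h := congrArg (fun f : ArithmeticFunction ℝ => ((f n : ℝ) : ℂ)) Pool.Agent.SQ.al_mul_al
  simp only [ArithmeticFunction.mul_apply, ofReal_sum, ofReal_mul,
    ArithmeticFunction.intCoe_apply, ofReal_intCast] at h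
  rw [ArithmeticFunction.mul_apply, ArithmeticFunction.intCoe_apply]
  exact h

theorem xr1_eq_pr (S T : Finset ℕ) (hS : ∀ p ∈ S, p.Prime) (s : ℂ) (hs : 0 < s.re) :
    Summable (fun n : ℕ => ‖(xS S T n : ℂ) * (n : ℂ) ^ (-s)‖) ∧
    ‖∑' n : ℕ, (xS S T n : ℂ) * (n : ℂ) ^ (-s)‖ = ∏ p ∈ S, ‖1 - sg T p * (p : ℂ) ^ (-s)‖⁻¹ ∧
    ‖∑' n : ℕ, (Pool.Agent.SQ.al n : ℂ) * (xS S T n : ℂ) * (n : ℂ) ^ (-s)‖ ^ 2 =
      ∏ p ∈ S, ‖1 - sg T p * (p : ℂ) ^ (-s)‖ := by
  obtain ⟨h1, h2⟩ := rse_xr1_hasSum S T hS hs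
  have e2 : ∑' n : ℕ, rse_xr1_f S T s n = ∏ p ∈ S, (1 - sg T p * (p : ℂ) ^ (-s))⁻¹ := h2.tsum_eq
  refine ⟨h1, ?_, ?_⟩
  · show ‖∑' n : ℕ, rse_xr1_f S T s n‖ = _
    rw [e2, norm_prod]
    exact Finset.prod_congr rfl fun p _ => norm_inv _
  · have hal : ∀ n, ‖rse_xr1_al n‖ ≤ 1 := by
      intro n
      show ‖(Pool.Agent.SQ.al n : ℂ)‖ ≤ 1
      rw [norm_real]
      exact Pool.Agent.SQ.al_abs n
    have hmu : ∀ n, ‖((ArithmeticFunction.moebius : ArithmeticFunction ℤ) :
        ArithmeticFunction ℂ) n‖ ≤ 1 := by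
      intro n
      rw [ArithmeticFunction.intCoe_apply, norm_intCast]
      exact_mod_cast ArithmeticFunction.abs_moebius_le_one
    have hze : ∀ n, ‖((ArithmeticFunction.zeta : ArithmeticFunction ℕ) :
        ArithmeticFunction ℂ) n‖ ≤ 1 := by
      intro n
      rw [ArithmeticFunction.natCoe_apply, ArithmeticFunction.zeta_apply]
      split_ifs <;> simp
    have c1 := rse_xr1_conv S T hS hs _ _ hal hal
    rw [rse_xr1_al_sq] at c1
    have c2 := rse_xr1_conv S T hS hs _ _ hmu hze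
    have c3 : ((ArithmeticFunction.moebius : ArithmeticFunction ℤ) : ArithmeticFunction ℂ) *
        ((ArithmeticFunction.zeta : ArithmeticFunction ℕ) : ArithmeticFunction ℂ) = 1 :=
      ArithmeticFunction.coe_moebius_mul_coe_zeta
    rw [c3] at c2
    have c4 : ∑' n : ℕ, (1 : ArithmeticFunction ℂ) n * rse_xr1_f S T s n = 1 := by
      rw [tsum_eq_single 1]
      · rw [ArithmeticFunction.one_one, map_one, one_mul]
      · intro n hn
        rw [ArithmeticFunction.one_apply_ne hn, zero_mul]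
    rw [c4] at c2
    have c5 : ∑' n : ℕ, ((ArithmeticFunction.zeta : ArithmeticFunction ℕ) :
        ArithmeticFunction ℂ) n * rse_xr1_f S T s n = ∑' n : ℕ, rse_xr1_f S T s n := by
      refine tsum_congr fun n => ?_
      rcases eq_or_ne n 0 with rfl | hn
      · rw [ArithmeticFunction.map_zero, zero_mul, rse_xr1_f_apply, rse_xr1_zero, ofReal_zero,
          zero_mul]
      · rw [ArithmeticFunction.natCoe_apply, ArithmeticFunction.zeta_apply_ne hn, Nat.cast_one,
          one_mul]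
    rw [c5, e2] at c2
    have c6 : ∑' n : ℕ, (Pool.Agent.SQ.al n : ℂ) * (xS S T n : ℂ) * (n : ℂ) ^ (-s) =
        ∑' n : ℕ, rse_xr1_al n * rse_xr1_f S T s n := by
      refine tsum_congr fun n => ?_
      rw [rse_xr1_f_apply]
      show _ = (Pool.Agent.SQ.al n : ℂ) * _
      ring
    rw [c6, ← norm_pow, sq, c1]
    set A := ∑' n : ℕ, ((ArithmeticFunction.moebius : ArithmeticFunction ℤ) :
        ArithmeticFunction ℂ) n * rse_xr1_f S T s n with hA
    have c7 := congrArg (fun z : ℂ => ‖z‖) c2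
    simp only [norm_mul, norm_prod, norm_inv, norm_one, Finset.prod_inv_distrib] at c7
    have c8 : ∏ p ∈ S, ‖1 - sg T p * (p : ℂ) ^ (-s)‖ ≠ 0 := by
      refine Finset.prod_ne_zero_iff.2 fun p hp => ?_
      rw [norm_ne_zero_iff, sub_ne_zero]
      intro h
      have h5 := congrArg (fun z : ℂ => ‖z‖) h
      simp only [norm_one, norm_mul] at h5
      have h6 : ‖((sg T p : ℝ) : ℂ)‖ = 1 := by
        rw [norm_real, sg]
        split_ifs <;> simp
      rw [h6, one_mul] at h5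
      exact absurd h5.symm (rse_xr1_cpow_lt (hS p hp) hs).ne
    field_simp at c7
    linarith

end Pool.Agent.RSE

namespace Pool.Agent.RSE

alias xr1_eq := xr1_eq_pr

end Pool.Agent.RSE
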