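import Pool.Agent.Lib_helper39.RSE.Defs
import Pool.Agent.Lib_helper39.RSA.DefsB
/-!
# RSE, block XR3
-/

namespace Pool.Agent.RSE

open Complex MeasureTheory Filter Topology
open Pool.Agent.RC (cc psi rv f0 IsRC Good gm pr DD)
open scoped ContDiff

theorem rse_xr3_low (z : ℂ) (hz : ‖z‖ ≤ 3 / 5) : 2 / 5 ≤ ‖1 - z‖ := by
  have h := norm_sub_norm_le (1 : ℂ) z
  rw [norm_one] at h
  linarith

theorem rse_xr3_loglip (z w : ℂ) (hz : ‖z‖ ≤ 3 / 5) (hw : ‖w‖ ≤ 3 / 5) :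
    Real.log ‖1 - w‖ - Real.log ‖1 - z‖ ≤ 5 / 2 * ‖z - w‖ := by
  have h1 := rse_xr3_low z hz
  have h2 := rse_xr3_low w hw
  have h3 : ‖1 - w‖ ≤ ‖1 - z‖ + ‖z - w‖ := by
    calc ‖1 - w‖ = ‖(1 - z) + (z - w)‖ := by ring_nf
      _ ≤ _ := norm_add_le _ _
  have h4 : Real.log ‖1 - w‖ - Real.log ‖1 - z‖ = Real.log (‖1 - w‖ / ‖1 - z‖) :=
    (Real.log_div (by linarith) (by linarith)).symm
  rw [h4]
  have h6 : 0 < ‖1 - z‖ := by linarith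
  have h7 : 0 < ‖1 - w‖ := by linarith
  have h5 : ‖1 - w‖ / ‖1 - z‖ ≤ 1 + 5 / 2 * ‖z - w‖ := by
    rw [div_le_iff₀ h6]
    nlinarith [norm_nonneg (z - w)]
  calc Real.log (‖1 - w‖ / ‖1 - z‖) ≤ ‖1 - w‖ / ‖1 - z‖ - 1 :=
        Real.log_le_sub_one_of_pos (div_pos h7 h6)
    _ ≤ _ := by linarith

/-- Mean of the two signs. -/
theorem rse_xr3_mean (z z1 z2 : ℂ) (q : ℝ) (hq : q ≤ 3 / 5) (hz : ‖z‖ ≤ q) (hz1 : ‖z1‖ ≤ q)
    (hz2 : ‖z2‖ ≤ q) :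
    (‖1 - z‖⁻¹ ^ 2 * (‖1 - z1‖ * ‖1 - z2‖) + ‖1 + z‖⁻¹ ^ 2 * (‖1 + z1‖ * ‖1 + z2‖)) / 2 ≤
      Real.exp (5 / 2 * q * (‖z - z1‖ + ‖(starRingEnd ℂ) z - z2‖) +
        25 / 8 * (‖z - z1‖ + ‖(starRingEnd ℂ) z - z2‖) ^ 2) := by
  set c : ℂ := (starRingEnd ℂ) z with hc
  set D1 : ℝ := ‖z - z1‖ with hD1
  set D2 : ℝ := ‖c - z2‖ with hD2
  have hq0 : 0 ≤ q := (norm_nonneg z).trans hz
  have hcz : ‖c‖ ≤ q := by rw [hc, Complex.norm_conj]; exact hz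
  have hm1 : ‖1 - c‖ = ‖1 - z‖ := by
    rw [hc]
    have : 1 - (starRingEnd ℂ) z = (starRingEnd ℂ) (1 - z) := by simp
    rw [this, Complex.norm_conj]
  have hm2 : ‖1 + c‖ = ‖1 + z‖ := by
    rw [hc]
    have : 1 + (starRingEnd ℂ) z = (starRingEnd ℂ) (1 + z) := by simp
    rw [this, Complex.norm_conj]
  -- positivity of everything
  have pz : 0 < ‖1 - z‖ := by linarith [rse_xr3_low z (hz.trans hq)]
  have pz1 : 0 < ‖1 - z1‖ := by linarith [rse_xr3_low z1 (hz1.trans hq)]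
  have pz2 : 0 < ‖1 - z2‖ := by linarith [rse_xr3_low z2 (hz2.trans hq)]
  have nz : ‖-z‖ ≤ q := by rw [norm_neg]; exact hz
  have nc : ‖-c‖ ≤ q := by rw [norm_neg]; exact hcz
  have nz1 : ‖-z1‖ ≤ q := by rw [norm_neg]; exact hz1
  have nz2 : ‖-z2‖ ≤ q := by rw [norm_neg]; exact hz2
  have pz' : 0 < ‖1 + z‖ := by
    have := rse_xr3_low (-z) (nz.trans hq)
    rw [sub_neg_eq_add] at this; linarith
  have pz1' : 0 < ‖1 + z1‖ := by
    have := rse_xr3_low (-z1) (nz1.trans hq)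
    rw [sub_neg_eq_add] at this; linarith
  have pz2' : 0 < ‖1 + z2‖ := by
    have := rse_xr3_low (-z2) (nz2.trans hq)
    rw [sub_neg_eq_add] at this; linarith
  set A : ℝ := (Real.log ‖1 - z1‖ - Real.log ‖1 - z‖) + (Real.log ‖1 - z2‖ - Real.log ‖1 - c‖)
    with hA
  set B : ℝ := (Real.log ‖1 + z1‖ - Real.log ‖1 + z‖) + (Real.log ‖1 + z2‖ - Real.log ‖1 + c‖)
    with hB
  have eA : ‖1 - z‖⁻¹ ^ 2 * (‖1 - z1‖ * ‖1 - z2‖) = Real.exp A := by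
    rw [hA, hm1, Real.exp_add, Real.exp_sub, Real.exp_sub, Real.exp_log pz, Real.exp_log pz1,
      Real.exp_log pz2]
    field_simp
  have eB : ‖1 + z‖⁻¹ ^ 2 * (‖1 + z1‖ * ‖1 + z2‖) = Real.exp B := by
    rw [hB, hm2, Real.exp_add, Real.exp_sub, Real.exp_sub, Real.exp_log pz', Real.exp_log pz1',
      Real.exp_log pz2']
    field_simp
  have e1 : ‖z1 - z‖ = D1 := by rw [hD1, norm_sub_rev]
  have e2 : ‖z2 - c‖ = D2 := by rw [hD2, norm_sub_rev]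
  have g1 := rse_xr3_loglip z z1 (hz.trans hq) (hz1.trans hq)
  have g2 := rse_xr3_loglip z1 z (hz1.trans hq) (hz.trans hq)
  have g3 := rse_xr3_loglip c z2 (hcz.trans hq) (hz2.trans hq)
  have g4 := rse_xr3_loglip z2 c (hz2.trans hq) (hcz.trans hq)
  have g5 := rse_xr3_loglip (-z) (-z1) (nz.trans hq) (nz1.trans hq)
  have g6 := rse_xr3_loglip (-z1) (-z) (nz1.trans hq) (nz.trans hq)
  have g7 := rse_xr3_loglip (-c) (-z2) (nc.trans hq) (nz2.trans hq)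
  have g8 := rse_xr3_loglip (-z2) (-c) (nz2.trans hq) (nc.trans hq)
  simp only [sub_neg_eq_add] at g5 g6 g7 g8
  have k5 : ‖-z + z1‖ = D1 := by rw [← e1]; congr 1; ring
  have k6 : ‖-z1 + z‖ = D1 := by rw [hD1]; congr 1; ring
  have k7 : ‖-c + z2‖ = D2 := by rw [← e2]; congr 1; ring
  have k8 : ‖-z2 + c‖ = D2 := by rw [hD2]; congr 1; ring
  rw [k5] at g5
  rw [k6] at g6
  rw [k7] at g7
  rw [k8] at g8
  rw [e1] at g2
  rw [e2] at g4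
  have hAB : |(A - B) / 2| ≤ 5 / 2 * (D1 + D2) := by
    rw [abs_le]
    constructor <;> linarith
  have hsum : (A + B) / 2 ≤ 5 / 2 * q * (D1 + D2) := by
    have s1 : Real.log ‖1 - z1‖ + Real.log ‖1 + z1‖ = Real.log ‖1 - z1 ^ 2‖ := by
      rw [← Real.log_mul pz1.ne' pz1'.ne', ← norm_mul]; congr 2; ring
    have s2 : Real.log ‖1 - z‖ + Real.log ‖1 + z‖ = Real.log ‖1 - z ^ 2‖ := by
      rw [← Real.log_mul pz.ne' pz'.ne', ← norm_mul]; congr 2; ring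
    have s3 : Real.log ‖1 - z2‖ + Real.log ‖1 + z2‖ = Real.log ‖1 - z2 ^ 2‖ := by
      rw [← Real.log_mul pz2.ne' pz2'.ne', ← norm_mul]; congr 2; ring
    have s4 : Real.log ‖1 - c‖ + Real.log ‖1 + c‖ = Real.log ‖1 - c ^ 2‖ := by
      rw [← Real.log_mul (by rw [hm1]; exact pz.ne') (by rw [hm2]; exact pz'.ne'), ← norm_mul]
      congr 2; ring
    have sq : ∀ w : ℂ, ‖w‖ ≤ q → ‖w ^ 2‖ ≤ 3 / 5 := by
      intro w hw
      rw [norm_pow]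
      nlinarith [norm_nonneg w]
    have t1 := rse_xr3_loglip (z ^ 2) (z1 ^ 2) (sq z hz) (sq z1 hz1)
    have t2 := rse_xr3_loglip (c ^ 2) (z2 ^ 2) (sq c hcz) (sq z2 hz2)
    have u1 : ‖z ^ 2 - z1 ^ 2‖ ≤ 2 * q * D1 := by
      have : z ^ 2 - z1 ^ 2 = (z + z1) * (z - z1) := by ring
      rw [this, norm_mul]
      have h := norm_add_le z z1
      have h2 : ‖z + z1‖ ≤ 2 * q := by linarith
      exact mul_le_mul_of_nonneg_right h2 (norm_nonneg _)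
    have u2 : ‖c ^ 2 - z2 ^ 2‖ ≤ 2 * q * D2 := by
      have : c ^ 2 - z2 ^ 2 = (c + z2) * (c - z2) := by ring
      rw [this, norm_mul]
      have h := norm_add_le c z2
      have h2 : ‖c + z2‖ ≤ 2 * q := by linarith
      exact mul_le_mul_of_nonneg_right h2 (norm_nonneg _)
    have e : A + B = (Real.log ‖1 - z1 ^ 2‖ - Real.log ‖1 - z ^ 2‖) +
        (Real.log ‖1 - z2 ^ 2‖ - Real.log ‖1 - c ^ 2‖) := by
      rw [← s1, ← s2, ← s3, ← s4, hA, hB]; ring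
    rw [e]
    nlinarith
  rw [eA, eB]
  have h1 : (Real.exp A + Real.exp B) / 2 =
      Real.exp ((A + B) / 2) * Real.cosh ((A - B) / 2) := by
    rw [Real.cosh_eq]
    have x1 : Real.exp A = Real.exp ((A + B) / 2) * Real.exp ((A - B) / 2) := by
      rw [← Real.exp_add]; congr 1; ring
    have x2 : Real.exp B = Real.exp ((A + B) / 2) * Real.exp (-((A - B) / 2)) := by
      rw [← Real.exp_add]; congr 1; ring
    rw [x1, x2]; ring
  rw [h1]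
  have h2 : Real.cosh ((A - B) / 2) ≤ Real.exp (((A - B) / 2) ^ 2 / 2) :=
    Real.cosh_le_exp_half_sq _
  have h3 : ((A - B) / 2) ^ 2 ≤ (5 / 2 * (D1 + D2)) ^ 2 := by
    rw [← sq_abs]
    exact pow_le_pow_left₀ (abs_nonneg _) hAB 2
  calc Real.exp ((A + B) / 2) * Real.cosh ((A - B) / 2)
      ≤ Real.exp ((A + B) / 2) * Real.exp (((A - B) / 2) ^ 2 / 2) :=
        mul_le_mul_of_nonneg_left h2 (Real.exp_pos _).le
    _ = Real.exp ((A + B) / 2 + ((A - B) / 2) ^ 2 / 2) := by rw [← Real.exp_add]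
    _ ≤ _ := by
        apply Real.exp_le_exp.mpr
        nlinarith

theorem rse_xr3_exp (v : ℂ) (hv : 0 ≤ v.re) : ‖1 - cexp (-v)‖ ≤ 2 * min 1 ‖v‖ := by
  have h1 : ‖cexp (-v)‖ ≤ 1 := by
    rw [Complex.norm_exp, Complex.neg_re]
    exact Real.exp_le_one_iff.mpr (by linarith)
  have h2 : ‖1 - cexp (-v)‖ ≤ 2 := by
    have := norm_sub_le (1 : ℂ) (cexp (-v))
    rw [norm_one] at this; linarith
  rcases le_total 1 ‖v‖ with h | h
  · rw [min_eq_left h]; linarith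
  · rw [min_eq_right h]
    have h3 := Complex.norm_exp_sub_one_le (x := -v) (by rw [norm_neg]; exact h)
    rw [norm_neg] at h3
    rw [norm_sub_rev]
    exact h3

/-- The difference of the two arguments. -/
theorem rse_xr3_diff (p : ℕ) (L t y Y : ℝ) (hp : 3 ≤ p) (hL : 1 ≤ L) (hY : 1 + |y| ≤ Y) (s : ℂ)
    (hs : s = 1 / 2 + 1 / (2 * L) + t * I) :
    ‖(p : ℂ) ^ (-s) - (p : ℂ) ^ (-(1 / 2 + t * I + (1 + y * I) / L) : ℂ)‖ ≤
      2 * (1 / √(p : ℝ) * min ((p : ℝ) ^ (-(1 / (2 * L)))) (Y * Real.log p / L)) := by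
  have hp0 : (p : ℂ) ≠ 0 := by exact_mod_cast (by omega : p ≠ 0)
  have hpR : (0 : ℝ) < p := by exact_mod_cast (by omega : 0 < p)
  have hlog : 0 ≤ Real.log p := Real.log_natCast_nonneg p
  have hL0 : (0 : ℝ) < L := by linarith
  have hLc : (L : ℂ) ≠ 0 := by exact_mod_cast hL0.ne'
  set v : ℂ := (1 / (2 * L) + y * I / L) * Real.log p with hv
  have e1 : (p : ℂ) ^ (-(1 / 2 + t * I + (1 + y * I) / L) : ℂ) = (p : ℂ) ^ (-s) * cexp (-v) := by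
    rw [Complex.cpow_def_of_ne_zero hp0, Complex.cpow_def_of_ne_zero hp0, ← Complex.exp_add, hs,
      hv, ← Complex.natCast_log]
    congr 1
    field_simp
    ring
  have e2 : (p : ℂ) ^ (-s) - (p : ℂ) ^ (-(1 / 2 + t * I + (1 + y * I) / L) : ℂ) =
      (p : ℂ) ^ (-s) * (1 - cexp (-v)) := by rw [e1]; ring
  have hvre : v.re = Real.log p / (2 * L) := by
    have : v = ((Real.log p / (2 * L) : ℝ) : ℂ) + ((y * Real.log p / L : ℝ) : ℂ) * I := by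
      rw [hv]; push_cast; field_simp
    rw [this, Complex.add_re, Complex.ofReal_re, Complex.re_ofReal_mul, Complex.I_re]
    ring
  have hvn : ‖v‖ ≤ Y * Real.log p / L := by
    have : v = ((Real.log p / (2 * L) : ℝ) : ℂ) + ((y * Real.log p / L : ℝ) : ℂ) * I := by
      rw [hv]; push_cast; field_simp
    rw [this]
    refine (norm_add_le _ _).trans ?_
    rw [norm_mul, Complex.norm_I, mul_one, Complex.norm_real, Complex.norm_real, Real.norm_eq_abs,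
      Real.norm_eq_abs, abs_of_nonneg (by positivity : 0 ≤ Real.log p / (2 * L)), abs_div, abs_mul,
      abs_of_nonneg hlog, abs_of_pos hL0]
    have : Real.log p / (2 * L) + |y| * Real.log p / L = (1 / 2 + |y|) * Real.log p / L := by
      field_simp
    rw [this]
    apply div_le_div_of_nonneg_right _ hL0.le
    apply mul_le_mul_of_nonneg_right _ hlog
    linarith
  have h1 := rse_xr3_exp v (by rw [hvre]; positivity)
  have hz : ‖(p : ℂ) ^ (-s)‖ = 1 / √(p : ℝ) * (p : ℝ) ^ (-(1 / (2 * L))) := by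
    rw [Complex.norm_natCast_cpow_of_pos (by omega)]
    have : (-s).re = -(1 / 2) + -(1 / (2 * L)) := by
      have : s = ((1 / 2 + 1 / (2 * L) : ℝ) : ℂ) + (t : ℂ) * I := by rw [hs]; push_cast; ring
      rw [this]; simp; ring
    rw [this, Real.rpow_add hpR, Real.rpow_neg hpR.le (1 / 2), ← Real.sqrt_eq_rpow,
      one_div (√(p : ℝ))]
  rw [e2, norm_mul, hz]
  have hpw : (p : ℝ) ^ (-(1 / (2 * L))) ≤ 1 := by
    apply Real.rpow_le_one_of_one_le_of_nonpos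
    · exact_mod_cast (by omega : 1 ≤ p)
    · have : 0 < 1 / (2 * L) := by positivity
      linarith
  have hpw0 : 0 < (p : ℝ) ^ (-(1 / (2 * L))) := Real.rpow_pos_of_pos hpR _
  have hq0 : 0 < 1 / √(p : ℝ) := by positivity
  have h2 : (p : ℝ) ^ (-(1 / (2 * L))) * min 1 ‖v‖ ≤
      min ((p : ℝ) ^ (-(1 / (2 * L)))) (Y * Real.log p / L) := by
    apply le_min
    · calc (p : ℝ) ^ (-(1 / (2 * L))) * min 1 ‖v‖ ≤ (p : ℝ) ^ (-(1 / (2 * L))) * 1 :=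
          mul_le_mul_of_nonneg_left (min_le_left _ _) hpw0.le
        _ = _ := mul_one _
    · calc (p : ℝ) ^ (-(1 / (2 * L))) * min 1 ‖v‖ ≤ 1 * ‖v‖ :=
          mul_le_mul hpw (min_le_right _ _) (le_min zero_le_one (norm_nonneg _)) zero_le_one
        _ ≤ _ := by rw [one_mul]; exact hvn
  calc 1 / √(p : ℝ) * (p : ℝ) ^ (-(1 / (2 * L))) * ‖1 - cexp (-v)‖
      ≤ 1 / √(p : ℝ) * (p : ℝ) ^ (-(1 / (2 * L))) * (2 * min 1 ‖v‖) :=
        mul_le_mul_of_nonneg_left h1 (by positivity)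
    _ = 2 * (1 / √(p : ℝ) * ((p : ℝ) ^ (-(1 / (2 * L))) * min 1 ‖v‖)) := by ring
    _ ≤ _ := by
        apply mul_le_mul_of_nonneg_left _ (by norm_num)
        exact mul_le_mul_of_nonneg_left h2 hq0.le

theorem rse_xr3_small (p : ℕ) (hp : 3 ≤ p) : 1 / √(p : ℝ) ≤ 3 / 5 := by
  have h1 : (5 / 3 : ℝ) ≤ √(p : ℝ) := by
    apply Real.le_sqrt_of_sq_le
    have : (3 : ℝ) ≤ p := by exact_mod_cast hp
    norm_num
    linarith
  rw [div_le_iff₀ (by linarith)]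
  linarith

theorem rse_xr3_small2 (p : ℕ) (hp : 3 ≤ p) : 1 / √(p : ℝ) ≤ 29 / 50 := by
  have h1 : (50 / 29 : ℝ) ≤ √(p : ℝ) := by
    apply Real.le_sqrt_of_sq_le
    have : (3 : ℝ) ≤ p := by exact_mod_cast hp
    norm_num
    linarith
  rw [div_le_iff₀ (by linarith)]
  linarith

theorem rse_xr3_norm (p : ℕ) (hp : 3 ≤ p) (s : ℂ) (hs : 1 / 2 ≤ s.re) :
    ‖(p : ℂ) ^ (-s)‖ ≤ 1 / √(p : ℝ) := by
  have hpR : (0 : ℝ) < p := by exact_mod_cast (by omega : 0 < p)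
  rw [Complex.norm_natCast_cpow_of_pos (by omega), Real.sqrt_eq_rpow, one_div,
    ← Real.rpow_neg hpR.le]
  apply Real.rpow_le_rpow_of_exponent_le
  · exact_mod_cast (by omega : 1 ≤ p)
  · rw [Complex.neg_re]; linarith

/-- The second bound, abstractly. -/
theorem rse_xr3_second (z : ℂ) (x : ℝ) (hx : x ≤ 29 / 50) (hz : ‖z‖ ≤ x) :
    (‖1 - z‖⁻¹ ^ 2 + ‖1 + z‖⁻¹ ^ 2) / 2 ≤ (1 + x) ^ 3 := by
  have hx0 : 0 ≤ x := (norm_nonneg z).trans hz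
  have hz' : ‖z‖ ≤ 3 / 5 := by linarith
  have pz : 0 < ‖1 - z‖ := by linarith [rse_xr3_low z hz']
  have pz' : 0 < ‖1 + z‖ := by
    have := rse_xr3_low (-z) (by rw [norm_neg]; exact hz')
    rw [sub_neg_eq_add] at this; linarith
  have h1 : ‖1 - z‖ ^ 2 + ‖1 + z‖ ^ 2 = 2 * (1 + ‖z‖ ^ 2) := by
    have := parallelogram_law_with_norm ℝ (1 : ℂ) z
    rw [norm_one] at this
    nlinarith
  have h2 : ‖1 - z‖ * ‖1 + z‖ = ‖1 - z ^ 2‖ := by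
    rw [← norm_mul]; congr 1; ring
  have h3 : 1 - x ^ 2 ≤ ‖1 - z‖ * ‖1 + z‖ := by
    rw [h2]
    have h := norm_sub_norm_le (1 : ℂ) (z ^ 2)
    rw [norm_one, norm_pow] at h
    have : ‖z‖ ^ 2 ≤ x ^ 2 := pow_le_pow_left₀ (norm_nonneg _) hz 2
    linarith
  have h4 : (‖1 - z‖⁻¹ ^ 2 + ‖1 + z‖⁻¹ ^ 2) / 2 = (1 + ‖z‖ ^ 2) / (‖1 - z‖ * ‖1 + z‖) ^ 2 := by
    field_simp
    linarith
  rw [h4, div_le_iff₀ (by positivity)]
  have h5 : ‖z‖ ^ 2 ≤ x ^ 2 := pow_le_pow_left₀ (norm_nonneg _) hz 2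
  have hx2 : x ^ 2 ≤ 841 / 2500 := by nlinarith
  have h6 : (1 - x ^ 2) ^ 2 ≤ (‖1 - z‖ * ‖1 + z‖) ^ 2 :=
    pow_le_pow_left₀ (by linarith) h3 2
  have h7 : 1 + x ^ 2 ≤ (1 + x) ^ 3 * (1 - x ^ 2) ^ 2 := by
    have h8 : (1 + x) ^ 3 * (1 - x ^ 2) ^ 2 - (1 + x ^ 2) =
        x * (3 - 5 * x ^ 2 - 5 * x ^ 3 + x ^ 4 + 3 * x ^ 5 + x ^ 6) := by ring
    have h9 : 0 ≤ 3 - 5 * x ^ 2 - 5 * x ^ 3 + x ^ 4 + 3 * x ^ 5 + x ^ 6 := by
      have a1 : x ^ 3 ≤ 29 / 50 * (841 / 2500) := by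
        calc x ^ 3 = x * x ^ 2 := by ring
          _ ≤ 29 / 50 * (841 / 2500) := mul_le_mul hx hx2 (by positivity) (by norm_num)
      have a2 : 0 ≤ x ^ 4 + 3 * x ^ 5 + x ^ 6 := by positivity
      nlinarith
    have := mul_nonneg hx0 h9
    linarith
  calc 1 + ‖z‖ ^ 2 ≤ 1 + x ^ 2 := by linarith
    _ ≤ (1 + x) ^ 3 * (1 - x ^ 2) ^ 2 := h7
    _ ≤ _ := mul_le_mul_of_nonneg_left h6 (by positivity)

/-- XR3: the local bound. -/
theorem xr3_bound_pr : ∃ C : ℝ, 0 < C ∧ ∀ (p : ℕ) (L t y1 y2 : ℝ), 3 ≤ p → 1 ≤ L →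
    (‖1 - (p : ℂ) ^ (-(1 / 2 + 1 / (2 * L) + t * I) : ℂ)‖⁻¹ ^ 2 *
        (‖1 - (p : ℂ) ^ (-(1 / 2 + t * I + (1 + y1 * I) / L) : ℂ)‖ *
          ‖1 - (p : ℂ) ^ (-(1 / 2 - t * I + (1 + y2 * I) / L) : ℂ)‖) +
      ‖1 + (p : ℂ) ^ (-(1 / 2 + 1 / (2 * L) + t * I) : ℂ)‖⁻¹ ^ 2 *
        (‖1 + (p : ℂ) ^ (-(1 / 2 + t * I + (1 + y1 * I) / L) : ℂ)‖ *
          ‖1 + (p : ℂ) ^ (-(1 / 2 - t * I + (1 + y2 * I) / L) : ℂ)‖)) / 2 ≤
      Real.exp (C * (min ((p : ℝ) ^ (-(1 / (2 * L)))) ((1 + |y1| + |y2|) * Real.log p / L) / p +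
        (p : ℝ) ^ (-(3 / 2) : ℝ))) ∧
    (‖1 - (p : ℂ) ^ (-(1 / 2 + 1 / (2 * L) + t * I) : ℂ)‖⁻¹ ^ 2 +
      ‖1 + (p : ℂ) ^ (-(1 / 2 + 1 / (2 * L) + t * I) : ℂ)‖⁻¹ ^ 2) / 2 ≤
      (1 + 1 / √(p : ℝ)) ^ 3 := by
  refine ⟨60, by norm_num, ?_⟩
  intro p L t y1 y2 hp hL
  have hL0 : (0 : ℝ) < L := by linarith
  have hpR : (0 : ℝ) < p := by exact_mod_cast (by omega : 0 < p)
  have hLi : 0 < 1 / L := by positivity
  have hLi2 : 0 < 1 / (2 * L) := by positivity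
  have re0 : (1 / 2 + 1 / (2 * L) + t * I : ℂ).re = 1 / 2 + 1 / (2 * L) := by
    have : (1 / 2 + 1 / (2 * L) + t * I : ℂ) = ((1 / 2 + 1 / (2 * L) : ℝ) : ℂ) + (t : ℂ) * I := by
      push_cast; ring
    rw [this]; simp
  have re1 : (1 / 2 + t * I + (1 + y1 * I) / L : ℂ).re = 1 / 2 + 1 / L := by
    have : (1 / 2 + t * I + (1 + y1 * I) / L : ℂ) =
        ((1 / 2 + 1 / L : ℝ) : ℂ) + ((t + y1 / L : ℝ) : ℂ) * I := by
      push_cast; ring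
    rw [this]; simp
  have re2 : (1 / 2 - t * I + (1 + y2 * I) / L : ℂ).re = 1 / 2 + 1 / L := by
    have : (1 / 2 - t * I + (1 + y2 * I) / L : ℂ) =
        ((1 / 2 + 1 / L : ℝ) : ℂ) + ((-t + y2 / L : ℝ) : ℂ) * I := by
      push_cast; ring
    rw [this]; simp
  have n0 := rse_xr3_norm p hp (1 / 2 + 1 / (2 * L) + t * I : ℂ) (by rw [re0]; linarith)
  have n1 := rse_xr3_norm p hp (1 / 2 + t * I + (1 + y1 * I) / L : ℂ) (by rw [re1]; linarith)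
  have n2 := rse_xr3_norm p hp (1 / 2 - t * I + (1 + y2 * I) / L : ℂ) (by rw [re2]; linarith)
  refine ⟨?_, rse_xr3_second _ _ (rse_xr3_small2 p hp) n0⟩
  refine (rse_xr3_mean _ _ _ _ (rse_xr3_small p hp) n0 n1 n2).trans ?_
  apply Real.exp_le_exp.mpr
  have hconj : (starRingEnd ℂ) ((p : ℂ) ^ (-(1 / 2 + 1 / (2 * L) + t * I) : ℂ)) =
      (p : ℂ) ^ (-(1 / 2 + 1 / (2 * L) + ((-t : ℝ) : ℂ) * I) : ℂ) := by
    rw [Complex.cpow_def_of_ne_zero (by exact_mod_cast (by omega : p ≠ 0)),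
      Complex.cpow_def_of_ne_zero (by exact_mod_cast (by omega : p ≠ 0)), ← Complex.exp_conj,
      ← Complex.natCast_log]
    congr 1
    rw [map_mul, Complex.conj_ofReal]
    congr 1
    have : (-(1 / 2 + 1 / (2 * L) + t * I) : ℂ) =
        ((-(1 / 2 + 1 / (2 * L)) : ℝ) : ℂ) + ((-t : ℝ) : ℂ) * I := by push_cast; ring
    rw [this, map_add, map_mul, Complex.conj_ofReal, Complex.conj_ofReal, Complex.conj_I]
    push_cast
    ring
  have d1 := rse_xr3_diff p L t y1 (1 + |y1| + |y2|) hp hL (by linarith [abs_nonneg y2]) _ rfl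
  have d2 := rse_xr3_diff p L (-t) y2 (1 + |y1| + |y2|) hp hL (by linarith [abs_nonneg y1]) _ rfl
  have e3 : (1 / 2 + ((-t : ℝ) : ℂ) * I + (1 + y2 * I) / L : ℂ) =
      (1 / 2 - t * I + (1 + y2 * I) / L : ℂ) := by push_cast; ring
  rw [e3] at d2
  rw [hconj]
  set D1 : ℝ := ‖(p : ℂ) ^ (-(1 / 2 + 1 / (2 * L) + t * I) : ℂ) -
    (p : ℂ) ^ (-(1 / 2 + t * I + (1 + y1 * I) / L) : ℂ)‖ with hD1
  set D2 : ℝ := ‖(p : ℂ) ^ (-(1 / 2 + 1 / (2 * L) + ((-t : ℝ) : ℂ) * I) : ℂ) -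
    (p : ℂ) ^ (-(1 / 2 - t * I + (1 + y2 * I) / L) : ℂ)‖ with hD2
  set m : ℝ := min ((p : ℝ) ^ (-(1 / (2 * L)))) ((1 + |y1| + |y2|) * Real.log p / L) with hm
  set q : ℝ := 1 / √(p : ℝ) with hq
  have hq0 : 0 < q := by positivity
  have hq2 : q ^ 2 = 1 / p := by
    rw [hq, div_pow, one_pow, Real.sq_sqrt hpR.le]
  have hm0 : 0 ≤ m := by
    apply le_min (Real.rpow_nonneg hpR.le _)
    have := Real.log_natCast_nonneg p
    positivity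
  have hm1 : m ≤ 1 := by
    refine (min_le_left _ _).trans ?_
    apply Real.rpow_le_one_of_one_le_of_nonpos
    · exact_mod_cast (by omega : 1 ≤ p)
    · linarith
  have hD : D1 + D2 ≤ 4 * (q * m) := by linarith
  have hD0 : 0 ≤ D1 + D2 := add_nonneg (norm_nonneg _) (norm_nonneg _)
  have hqm : 0 ≤ q * m := by positivity
  have s1 : 5 / 2 * q * (D1 + D2) ≤ 10 * (m / p) := by
    calc 5 / 2 * q * (D1 + D2) ≤ 5 / 2 * q * (4 * (q * m)) :=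
          mul_le_mul_of_nonneg_left hD (by positivity)
      _ = 10 * (q ^ 2 * m) := by ring
      _ = _ := by rw [hq2]; ring
  have s2 : 25 / 8 * (D1 + D2) ^ 2 ≤ 50 * (m / p) := by
    have a1 : (D1 + D2) ^ 2 ≤ (4 * (q * m)) ^ 2 := pow_le_pow_left₀ hD0 hD 2
    have a2 : (4 * (q * m)) ^ 2 = 16 * (m * m) / p := by
      calc (4 * (q * m)) ^ 2 = 16 * (m * m) * q ^ 2 := by ring
        _ = _ := by rw [hq2]; ring
    have a3 : 16 * (m * m) / p ≤ 16 * m / p := by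
      apply div_le_div_of_nonneg_right _ hpR.le
      nlinarith
    have a4 : 50 * (m / p) = 25 / 8 * (16 * m / p) := by ring
    rw [a4]
    linarith
  have s3 : 0 ≤ (p : ℝ) ^ (-(3 / 2) : ℝ) := Real.rpow_nonneg hpR.le _
  linarith

end Pool.Agent.RSE

namespace Pool.Agent.RSE

alias xr3_bound := xr3_bound_pr

end Pool.Agent.RSE
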