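import Pool.Agent.Lib_helper39.RSE.Defs
import Pool.Agent.Lib_helper39.RSA.DefsB
import Pool.Agent.Lib_helper39.RCA.PR1
import Pool.Agent.Lib_helper39.RCA.PR2
/-!
# RSE, block XR4
-/

namespace Pool.Agent.RSE

open Complex MeasureTheory Filter Topology
open Pool.Agent.RC (cc psi rv f0 IsRC Good gm pr DD)
open scoped ContDiff

/-- Primes in the block `(9^k, 9^(k+1)]`. -/
def rse_xr4_bl (N k : ℕ) : Finset ℕ := (pr N).filter fun p => 9 ^ k < p ∧ p ≤ 9 ^ (k + 1)

theorem rse_xr4_block : ∃ C : ℝ, 0 < C ∧ ∀ N k : ℕ,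
    ∑ p ∈ rse_xr4_bl N k, 1 / (p : ℝ) ≤ C / (k + 1) := by
  obtain ⟨C, hC, h⟩ := Pool.Agent.RC.pr2_pr
  refine ⟨C + 9, by positivity, ?_⟩
  intro N k
  rcases Nat.eq_zero_or_pos k with hk | hk
  · subst hk
    have h1 : ∑ p ∈ rse_xr4_bl N 0, 1 / (p : ℝ) ≤ ∑ p ∈ Finset.Icc 1 9, (1 : ℝ) := by
      calc ∑ p ∈ rse_xr4_bl N 0, 1 / (p : ℝ) ≤ ∑ p ∈ rse_xr4_bl N 0, (1 : ℝ) := by
            apply Finset.sum_le_sum
            intro p hp
            have hp1 : 1 < p := by
              simp only [rse_xr4_bl, Finset.mem_filter] at hp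
              simpa using hp.2.1
            have : (1 : ℝ) < p := by exact_mod_cast hp1
            rw [div_le_one (by linarith)]
            linarith
        _ ≤ _ := by
            apply Finset.sum_le_sum_of_subset_of_nonneg
            · intro p hp
              simp only [rse_xr4_bl, Finset.mem_filter] at hp
              rw [Finset.mem_Icc]
              have := hp.2
              norm_num at this
              omega
            · intros; norm_num
    have h2 : ∑ p ∈ Finset.Icc 1 9, (1 : ℝ) = 9 := by simp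
    rw [h2] at h1
    simp only [Nat.cast_zero, zero_add, div_one]
    linarith
  · have h9 : 2 ≤ 9 ^ k := by
      calc 2 ≤ 9 ^ 1 := by norm_num
        _ ≤ 9 ^ k := Nat.pow_le_pow_right (by norm_num) hk
    have h1 := h (9 ^ k) h9
    have h2 : ∑ p ∈ rse_xr4_bl N k, 1 / (p : ℝ) ≤
        ∑ p ∈ Pool.Agent.RC.prr (9 ^ k) (9 * 9 ^ k), 1 / (p : ℝ) := by
      apply Finset.sum_le_sum_of_subset_of_nonneg
      · intro p hp
        simp only [rse_xr4_bl, pr, Finset.mem_filter, Finset.mem_range] at hp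
        simp only [Pool.Agent.RC.prr, pr, Finset.mem_filter, Finset.mem_range]
        have : 9 ^ (k + 1) = 9 * 9 ^ k := by ring
        refine ⟨⟨by omega, hp.1.2⟩, hp.2.1⟩
      · intro p _ _
        positivity
    have h3 : (k + 1 : ℝ) ≤ Real.log ((9 ^ k : ℕ) : ℝ) := by
      push_cast
      rw [Real.log_pow]
      have : 2 ≤ Real.log 9 := by
        have h4 : Real.log 9 = 2 * Real.log 3 := by
          rw [show (9 : ℝ) = 3 ^ 2 by norm_num, Real.log_pow]; norm_num
        have h5 : 1 ≤ Real.log 3 := by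
          rw [Real.le_log_iff_exp_le (by norm_num)]
          have := Real.exp_one_lt_d9
          linarith
        rw [h4]; linarith
      have hk1 : (1 : ℝ) ≤ k := by exact_mod_cast hk
      nlinarith
    have h4 : C / Real.log ((9 ^ k : ℕ) : ℝ) ≤ (C + 9) / (k + 1) := by
      apply div_le_div₀ (by positivity) (by linarith) (by positivity) h3
    linarith

/-- Grouping of the primes into blocks. -/
theorem rse_xr4_cover (N : ℕ) (F : ℕ → ℝ) (hF : ∀ n, 0 ≤ F n) :
    ∑ p ∈ pr N, F p ≤ ∑ k ∈ Finset.range (N + 1), ∑ p ∈ rse_xr4_bl N k, F p := by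
  have hmap : ∀ p ∈ pr N, Nat.log 9 (p - 1) ∈ Finset.range (N + 1) := by
    intro p hp
    simp only [pr, Finset.mem_filter, Finset.mem_range] at hp
    rw [Finset.mem_range]
    have := Nat.log_le_self 9 (p - 1)
    omega
  rw [← Finset.sum_fiberwise_of_maps_to hmap]
  apply Finset.sum_le_sum
  intro k _
  apply Finset.sum_le_sum_of_subset_of_nonneg
  · intro p hp
    rw [Finset.mem_filter] at hp
    have hp' := hp.1
    simp only [pr, Finset.mem_filter, Finset.mem_range] at hp'
    have hp2 : 2 ≤ p := hp'.2.two_le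
    simp only [rse_xr4_bl, Finset.mem_filter]
    rw [← hp.2]
    refine ⟨hp.1, ?_, ?_⟩
    · have := Nat.pow_log_le_self 9 (x := p - 1) (by omega)
      omega
    · have := Nat.lt_pow_succ_log_self (b := 9) (by norm_num) (p - 1)
      simp only [Nat.succ_eq_add_one] at this
      omega
  · intro p _ _
    exact hF p

/-- The sum over `k`. -/
theorem rse_xr4_geom (L : ℝ) (hL : 1 ≤ L) (M : ℕ) :
    ∑ k ∈ Finset.range M, Real.exp (-(k : ℝ) / L) ≤ 2 * L := by
  have hL0 : 0 < L := by linarith
  set r : ℝ := Real.exp (-1 / L) with hr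
  have hr0 : 0 < r := Real.exp_pos _
  have hr1 : r ≤ 1 - 1 / (2 * L) := by
    -- exp(-x) ≤ 1 - x/2 for 0 ≤ x ≤ 1
    have hx0 : 0 < 1 / L := by positivity
    have hx1 : 1 / L ≤ 1 := by rw [div_le_one hL0]; exact hL
    have h1 := Real.add_one_le_exp (1 / L)
    have h2 : r = (Real.exp (1 / L))⁻¹ := by rw [hr, ← Real.exp_neg]; congr 1; ring
    rw [h2]
    have h3 : (Real.exp (1 / L))⁻¹ ≤ (1 / L + 1)⁻¹ := by
      apply inv_anti₀ (by positivity) h1
    refine h3.trans ?_
    rw [inv_le_iff_one_le_mul₀ (by positivity)]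
    have h4 : 1 / (2 * L) = (1 / L) / 2 := by field_simp
    rw [h4]
    nlinarith
  have hterm : ∀ k : ℕ, Real.exp (-(k : ℝ) / L) = r ^ k := by
    intro k
    rw [hr, ← Real.exp_nat_mul]; congr 1; ring
  simp_rw [hterm]
  have hlt : r < 1 := by
    have : 0 < 1 / (2 * L) := by positivity
    linarith
  rw [geom_sum_eq hlt.ne]
  have h5 : (r ^ M - 1) / (r - 1) = (1 - r ^ M) / (1 - r) := by
    rw [← neg_div_neg_eq]; congr 1 <;> ring
  rw [h5]
  have h6 : 1 / (2 * L) ≤ 1 - r := by linarith
  have h7 : 0 < 1 / (2 * L) := by positivity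
  have h8 : 1 - r ^ M ≤ 1 := by
    have := pow_pos hr0 M
    linarith
  calc (1 - r ^ M) / (1 - r) ≤ 1 / (1 - r) :=
        div_le_div_of_nonneg_right h8 (by linarith)
    _ ≤ 1 / (1 / (2 * L)) := one_div_le_one_div_of_le h7 h6
    _ = 2 * L := by rw [one_div_one_div]

/-- Clipped logarithm. -/
noncomputable def rse_xr4_ph (L B x : ℝ) : ℝ := Real.log (max (L / B) (min x (2 * L)))

theorem rse_xr4_ph_mono (L B : ℝ) (hL : 1 ≤ L) (hB : 1 ≤ B) {x y : ℝ} (h : x ≤ y) :
    rse_xr4_ph L B x ≤ rse_xr4_ph L B y := by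
  unfold rse_xr4_ph
  apply Real.log_le_log
  · have : 0 < L / B := by positivity
    exact lt_of_lt_of_le this (le_max_left _ _)
  · exact max_le_max le_rfl (min_le_min h le_rfl)

theorem rse_xr4_sumk (L B : ℝ) (hL : 1 ≤ L) (hB : 1 ≤ B) (M : ℕ) :
    ∑ k ∈ Finset.range M, min (Real.exp (-(k : ℝ) / L)) (3 * B * (k + 1) / L) / (k + 1) ≤
      7 * (1 + Real.log B) := by
  have hL0 : 0 < L := by linarith
  have hB0 : 0 < B := by linarith
  have hlB : 0 ≤ Real.log B := Real.log_nonneg hB
  have hpt : ∀ k ∈ Finset.range M,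
      min (Real.exp (-(k : ℝ) / L)) (3 * B * (k + 1) / L) / (k + 1) ≤
      (if (k : ℝ) + 1 ≤ L / B then 3 * B / L else 0) +
      2 * (rse_xr4_ph L B ((k + 1 : ℕ) + 1) - rse_xr4_ph L B ((k : ℕ) + 1)) +
      Real.exp (-(k : ℝ) / L) / L := by
    intro k _
    have hk : (0 : ℝ) < k + 1 := by positivity
    have hmono := rse_xr4_ph_mono L B hL hB (x := (k : ℝ) + 1) (y := ((k + 1 : ℕ) : ℝ) + 1)
      (by push_cast; linarith)
    have hexp : 0 < Real.exp (-(k : ℝ) / L) / L := by positivity
    by_cases h1 : (k : ℝ) + 1 ≤ L / B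
    · rw [if_pos h1]
      have : min (Real.exp (-(k : ℝ) / L)) (3 * B * (k + 1) / L) / (k + 1) ≤ 3 * B / L := by
        rw [div_le_iff₀ hk]
        refine (min_le_right _ _).trans (le_of_eq ?_)
        ring
      linarith
    · rw [if_neg h1]
      push Not at h1
      by_cases h2 : (k : ℝ) + 1 ≤ L
      · have e1 : rse_xr4_ph L B ((k : ℕ) + 1) = Real.log ((k : ℝ) + 1) := by
          unfold rse_xr4_ph
          rw [min_eq_left (by linarith), max_eq_right h1.le]
        have e2 : rse_xr4_ph L B (((k + 1 : ℕ) : ℝ) + 1) = Real.log ((k : ℝ) + 2) := by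
          unfold rse_xr4_ph
          push_cast
          rw [min_eq_left (by linarith), max_eq_right (by linarith)]
          congr 1; ring
        rw [e1, e2]
        have e3 : 1 / ((k : ℝ) + 1) ≤ 2 * (Real.log ((k : ℝ) + 2) - Real.log ((k : ℝ) + 1)) := by
          have e4 : Real.log ((k : ℝ) + 2) - Real.log ((k : ℝ) + 1) =
              -Real.log (((k : ℝ) + 1) / (k + 2)) := by
            rw [Real.log_div (by positivity) (by positivity)]; ring
          have e5 : Real.log (((k : ℝ) + 1) / (k + 2)) ≤ ((k : ℝ) + 1) / (k + 2) - 1 :=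
            Real.log_le_sub_one_of_pos (by positivity)
          have e6 : ((k : ℝ) + 1) / (k + 2) - 1 = -(1 / (k + 2)) := by field_simp; ring
          have e7 : 1 / ((k : ℝ) + 1) ≤ 2 * (1 / (k + 2)) := by
            rw [mul_one_div, div_le_div_iff₀ (by positivity) (by positivity)]
            have : (0 : ℝ) ≤ k := Nat.cast_nonneg k
            linarith
          rw [e4]
          linarith
        have e8 : min (Real.exp (-(k : ℝ) / L)) (3 * B * (k + 1) / L) / (k + 1) ≤
            1 / ((k : ℝ) + 1) := by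
          apply div_le_div_of_nonneg_right _ hk.le
          refine (min_le_left _ _).trans ?_
          apply Real.exp_le_one_iff.mpr
          rw [neg_div]
          have : 0 ≤ (k : ℝ) / L := by positivity
          linarith
        linarith
      · push Not at h2
        have e8 : min (Real.exp (-(k : ℝ) / L)) (3 * B * (k + 1) / L) / (k + 1) ≤
            Real.exp (-(k : ℝ) / L) / L := by
          apply div_le_div₀ (Real.exp_pos _).le (min_le_left _ _) hL0 h2.le
        linarith
  refine (Finset.sum_le_sum hpt).trans ?_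
  rw [Finset.sum_add_distrib, Finset.sum_add_distrib, ← Finset.mul_sum]
  have s1 : ∑ k ∈ Finset.range M, (if (k : ℝ) + 1 ≤ L / B then 3 * B / L else 0) ≤ 3 := by
    rw [← Finset.sum_filter, Finset.sum_const, nsmul_eq_mul]
    have hc : ((Finset.range M).filter fun k : ℕ => (k : ℝ) + 1 ≤ L / B).card ≤ ⌊L / B⌋₊ := by
      have hsub : ((Finset.range M).filter fun k : ℕ => (k : ℝ) + 1 ≤ L / B) ⊆
          Finset.range ⌊L / B⌋₊ := by
        intro k hk
        rw [Finset.mem_filter] at hk
        rw [Finset.mem_range]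
        have : k + 1 ≤ ⌊L / B⌋₊ := by
          apply Nat.le_floor
          push_cast
          exact hk.2
        omega
      have := Finset.card_le_card hsub
      rwa [Finset.card_range] at this
    have hc2 : (((Finset.range M).filter fun k : ℕ => (k : ℝ) + 1 ≤ L / B).card : ℝ) ≤ L / B := by
      have h1 : (((Finset.range M).filter fun k : ℕ => (k : ℝ) + 1 ≤ L / B).card : ℝ) ≤
          (⌊L / B⌋₊ : ℝ) := by exact_mod_cast hc
      exact h1.trans (Nat.floor_le (by positivity))
    calc (((Finset.range M).filter fun k : ℕ => (k : ℝ) + 1 ≤ L / B).card : ℝ) * (3 * B / L)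
        ≤ L / B * (3 * B / L) := mul_le_mul_of_nonneg_right hc2 (by positivity)
      _ = 3 := by field_simp
  have s2 : ∑ k ∈ Finset.range M, (rse_xr4_ph L B ((k + 1 : ℕ) + 1) -
      rse_xr4_ph L B ((k : ℕ) + 1)) ≤ 1 + Real.log B := by
    rw [Finset.sum_range_sub (fun k : ℕ => rse_xr4_ph L B ((k : ℕ) + 1))]
    have hLB : 0 < L / B := by positivity
    have h1 : rse_xr4_ph L B ((M : ℕ) + 1) ≤ Real.log (2 * L) := by
      unfold rse_xr4_ph
      apply Real.log_le_log (lt_of_lt_of_le hLB (le_max_left _ _))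
      apply max_le _ (min_le_right _ _)
      rw [div_le_iff₀ hB0]
      nlinarith
    have h2 : Real.log (L / B) ≤ rse_xr4_ph L B (((0 : ℕ) : ℝ) + 1) := by
      unfold rse_xr4_ph
      exact Real.log_le_log hLB (le_max_left _ _)
    rw [Real.log_div hL0.ne' hB0.ne'] at h2
    rw [Real.log_mul (by norm_num) hL0.ne'] at h1
    have h3 : Real.log 2 ≤ 1 := by
      have := Real.log_two_lt_d9
      linarith
    linarith
  have s3 : ∑ k ∈ Finset.range M, Real.exp (-(k : ℝ) / L) / L ≤ 2 := by
    rw [← Finset.sum_div, div_le_iff₀ hL0]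
    exact rse_xr4_geom L hL M
  linarith

/-- XR4: sum over primes. -/
theorem xr4_bound_pr : ∃ C : ℝ, 0 < C ∧ ∀ (N : ℕ) (L B : ℝ), 1 ≤ L → 1 ≤ B →
    ∑ p ∈ pr N, min ((p : ℝ) ^ (-(1 / (2 * L)))) (B * Real.log p / L) / p ≤
      C * (1 + Real.log B) := by
  obtain ⟨C, hC, hbl⟩ := rse_xr4_block
  refine ⟨C * 7, by positivity, ?_⟩
  intro N L B hL hB
  have hL0 : 0 < L := by linarith
  have hB0 : 0 < B := by linarith
  refine (rse_xr4_cover N (fun p => min ((p : ℝ) ^ (-(1 / (2 * L)))) (B * Real.log p / L) / p)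
    ?_).trans ?_
  · intro n
    have := Real.log_natCast_nonneg n
    positivity
  have hb : ∀ k ∈ Finset.range (N + 1), ∑ p ∈ rse_xr4_bl N k,
      min ((p : ℝ) ^ (-(1 / (2 * L)))) (B * Real.log p / L) / p ≤
      C * (min (Real.exp (-(k : ℝ) / L)) (3 * B * (k + 1) / L) / (k + 1)) := by
    intro k _
    set w : ℝ := min (Real.exp (-(k : ℝ) / L)) (3 * B * (k + 1) / L) with hw
    have hw0 : 0 ≤ w := by positivity
    have h1 : ∀ p ∈ rse_xr4_bl N k,
        min ((p : ℝ) ^ (-(1 / (2 * L)))) (B * Real.log p / L) / p ≤ w * (1 / (p : ℝ)) := by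
      intro p hp
      simp only [rse_xr4_bl, pr, Finset.mem_filter, Finset.mem_range] at hp
      obtain ⟨⟨_, hpp⟩, hp1, hp2⟩ := hp
      have hp0 : (0 : ℝ) < p := by exact_mod_cast hpp.pos
      have h9a : Real.log 9 = 2 * Real.log 3 := by
        rw [show (9 : ℝ) = 3 ^ 2 by norm_num, Real.log_pow]; norm_num
      have h9 : 2 ≤ Real.log 9 := by
        have h5 : 1 ≤ Real.log 3 := by
          rw [Real.le_log_iff_exp_le (by norm_num)]
          have := Real.exp_one_lt_d9
          linarith
        rw [h9a]; linarith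
      have h9' : Real.log 9 ≤ 3 := by
        rw [Real.log_le_iff_le_exp (by norm_num)]
        have h7 : (2.7182818283 : ℝ) < Real.exp 1 := Real.exp_one_gt_d9
        have h8 : Real.exp 3 = Real.exp 1 ^ 3 := by rw [← Real.exp_nat_mul]; norm_num
        rw [h8]
        have : (2.7182818283 : ℝ) ^ 3 ≤ Real.exp 1 ^ 3 := pow_le_pow_left₀ (by norm_num) h7.le 3
        refine le_trans ?_ this
        norm_num
      have hlow : 2 * (k : ℝ) ≤ Real.log p := by
        have h : Real.log ((9 : ℝ) ^ k) ≤ Real.log p := by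
          apply Real.log_le_log (by positivity)
          have : ((9 ^ k : ℕ) : ℝ) ≤ p := by exact_mod_cast hp1.le
          push_cast at this
          exact this
        rw [Real.log_pow] at h
        have hk0 : (0 : ℝ) ≤ k := Nat.cast_nonneg k
        nlinarith
      have hhigh : Real.log p ≤ 3 * ((k : ℝ) + 1) := by
        have h : Real.log p ≤ Real.log ((9 : ℝ) ^ (k + 1)) := by
          apply Real.log_le_log hp0
          have : (p : ℝ) ≤ ((9 ^ (k + 1) : ℕ) : ℝ) := by exact_mod_cast hp2
          push_cast at this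
          exact this
        rw [Real.log_pow] at h
        push_cast at h
        have hk0 : (0 : ℝ) ≤ k := Nat.cast_nonneg k
        nlinarith
      rw [div_eq_mul_one_div]
      apply mul_le_mul_of_nonneg_right _ (by positivity)
      rw [hw]
      apply min_le_min
      · rw [Real.rpow_def_of_pos hp0]
        apply Real.exp_le_exp.mpr
        have : Real.log p * -(1 / (2 * L)) = -(Real.log p / 2) / L := by field_simp
        rw [this]
        apply div_le_div_of_nonneg_right _ hL0.le
        linarith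
      · apply div_le_div_of_nonneg_right _ hL0.le
        nlinarith
    refine (Finset.sum_le_sum h1).trans ?_
    rw [← Finset.mul_sum]
    calc w * ∑ p ∈ rse_xr4_bl N k, 1 / (p : ℝ) ≤ w * (C / (k + 1)) :=
          mul_le_mul_of_nonneg_left (hbl N k) hw0
      _ = _ := by ring
  refine (Finset.sum_le_sum hb).trans ?_
  rw [← Finset.mul_sum, mul_assoc]
  exact mul_le_mul_of_nonneg_left (rse_xr4_sumk L B hL hB (N + 1)) hC.le

end Pool.Agent.RSE

namespace Pool.Agent.RSE

alias xr4_bound := xr4_bound_pr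

end Pool.Agent.RSE
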