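import Pool.Agent.Lib_helper39.RSE.Defs
import Pool.Agent.Lib_helper39.RSA.DefsB
import Pool.Agent.Lib_helper39.RSA.XAV
import Pool.Agent.Lib_helper39.RSA.XR1
import Pool.Agent.Lib_helper39.RSA.XR3
import Pool.Agent.Lib_helper39.RSA.XR4
/-!
# RSE, block XR5 (cites XR1, XR3, XR4, XAV)
-/

namespace Pool.Agent.RSE

open Complex MeasureTheory Filter Topology
open Pool.Agent.RC (cc psi rv f0 IsRC Good gm pr DD)
open scoped ContDiff

/-- The local factor. -/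
noncomputable def rse_xr5_F (R : ℕ) (L t y1 y2 : ℝ) (p : ℕ) (e : ℝ) : ℝ :=
  ‖1 - (e : ℂ) * (p : ℂ) ^ (-(1 / 2 + 1 / (2 * L) + t * I) : ℂ)‖⁻¹ ^ 2 *
    (if ¬ p ∣ R then
      ‖1 - (e : ℂ) * (p : ℂ) ^ (-(1 / 2 + t * I + (1 + y1 * I) / L) : ℂ)‖ *
        ‖1 - (e : ℂ) * (p : ℂ) ^ (-(1 / 2 - t * I + (1 + y2 * I) / L) : ℂ)‖ else 1)

theorem rse_xr5_prod (S T : Finset ℕ) (hS : ∀ p ∈ S, p.Prime ∧ p ≠ 2) (R : ℕ)
    (L t y1 y2 : ℝ) (hL : 1 ≤ L) :
    ‖LT L S T t‖ ^ 2 *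
      (‖∑' n : ℕ, (Pool.Agent.SQ.al n : ℂ) * (xS (S.filter fun p => ¬ p ∣ R) T n : ℂ) *
          (n : ℂ) ^ (-(1 / 2 + t * I + (1 + y1 * I) / L) : ℂ)‖ ^ 2 *
        ‖∑' n : ℕ, (Pool.Agent.SQ.al n : ℂ) * (xS (S.filter fun p => ¬ p ∣ R) T n : ℂ) *
          (n : ℂ) ^ (-(1 / 2 - t * I + (1 + y2 * I) / L) : ℂ)‖ ^ 2) =
      ∏ p ∈ S, rse_xr5_F R L t y1 y2 p (sg T p) := by
  have hL0 : (0 : ℝ) < L := by linarith
  have hLi : 0 < 1 / L := by positivity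
  have hLi2 : 0 < 1 / (2 * L) := by positivity
  have re0 : (1 / 2 + 1 / (2 * L) + t * I : ℂ).re = 1 / 2 + 1 / (2 * L) := by
    have : (1 / 2 + 1 / (2 * L) + t * I : ℂ) = ((1 / 2 + 1 / (2 * L) : ℝ) : ℂ) + (t : ℂ) * I := by
      push_cast; ring
    rw [this]; simp
  have re1 : (1 / 2 + t * I + (1 + y1 * I) / L : ℂ).re = 1 / 2 + 1 / L := by
    have : (1 / 2 + t * I + (1 + y1 * I) / L : ℂ) =
        ((1 / 2 + 1 / L : ℝ) : ℂ) + ((t + y1 / L : ℝ) : ℂ) * I := by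
      push_cast; ring
    rw [this]; simp
  have re2 : (1 / 2 - t * I + (1 + y2 * I) / L : ℂ).re = 1 / 2 + 1 / L := by
    have : (1 / 2 - t * I + (1 + y2 * I) / L : ℂ) =
        ((1 / 2 + 1 / L : ℝ) : ℂ) + ((-t + y2 / L : ℝ) : ℂ) * I := by
      push_cast; ring
    rw [this]; simp
  have h0 := (xr1_eq S T (fun p hp => (hS p hp).1) (1 / 2 + 1 / (2 * L) + t * I : ℂ)
    (by rw [re0]; linarith)).2.1
  have hS' : ∀ p ∈ S.filter (fun p => ¬ p ∣ R), p.Prime := fun p hp =>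
    (hS p (Finset.mem_filter.mp hp).1).1
  have h1 := (xr1_eq (S.filter fun p => ¬ p ∣ R) T hS'
    (1 / 2 + t * I + (1 + y1 * I) / L : ℂ) (by rw [re1]; linarith)).2.2
  have h2 := (xr1_eq (S.filter fun p => ¬ p ∣ R) T hS'
    (1 / 2 - t * I + (1 + y2 * I) / L : ℂ) (by rw [re2]; linarith)).2.2
  rw [h1, h2]
  unfold LT
  rw [h0, ← Finset.prod_pow, ← Finset.prod_mul_distrib, Finset.prod_filter,
    ← Finset.prod_mul_distrib]
  apply Finset.prod_congr rfl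
  intro p _
  rfl

/-- XR5. -/
theorem xr5_bound_pr : ∃ C D : ℝ, 0 < C ∧ 0 < D ∧ ∀ (S : Finset ℕ) (R : ℕ) (L t y1 y2 : ℝ),
    (∀ p ∈ S, p.Prime ∧ p ≠ 2) → 0 < R → 1 ≤ L →
    avg S (fun T => ‖LT L S T t‖ ^ 2 *
      (‖∑' n : ℕ, (Pool.Agent.SQ.al n : ℂ) * (xS (S.filter fun p => ¬ p ∣ R) T n : ℂ) *
          (n : ℂ) ^ (-(1 / 2 + t * I + (1 + y1 * I) / L) : ℂ)‖ ^ 2 *
        ‖∑' n : ℕ, (Pool.Agent.SQ.al n : ℂ) * (xS (S.filter fun p => ¬ p ∣ R) T n : ℂ) *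
          (n : ℂ) ^ (-(1 / 2 - t * I + (1 + y2 * I) / L) : ℂ)‖ ^ 2)) ≤
      C * E1 R ^ 3 * (1 + |y1| + |y2|) ^ D := by
  obtain ⟨C3, hC3, h3⟩ := xr3_bound
  obtain ⟨C4, hC4, h4⟩ := xr4_bound
  have hsum : Summable (fun n : ℕ => (n : ℝ) ^ (-(3 / 2) : ℝ)) := by
    rw [Real.summable_nat_rpow]; norm_num
  set Z : ℝ := ∑' n : ℕ, (n : ℝ) ^ (-(3 / 2) : ℝ) with hZ
  have hZ0 : 0 ≤ Z := tsum_nonneg (fun n => Real.rpow_nonneg (Nat.cast_nonneg n) _)
  refine ⟨Real.exp (C3 * C4 + C3 * Z), C3 * C4, Real.exp_pos _, by positivity, ?_⟩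
  intro S R L t y1 y2 hS hR hL
  have hL0 : 0 < L := by linarith
  set B : ℝ := 1 + |y1| + |y2| with hB
  have hB1 : 1 ≤ B := by
    have := abs_nonneg y1
    have := abs_nonneg y2
    linarith
  have hB0 : 0 < B := by linarith
  have e1 : avg S (fun T => ‖LT L S T t‖ ^ 2 *
      (‖∑' n : ℕ, (Pool.Agent.SQ.al n : ℂ) * (xS (S.filter fun p => ¬ p ∣ R) T n : ℂ) *
          (n : ℂ) ^ (-(1 / 2 + t * I + (1 + y1 * I) / L) : ℂ)‖ ^ 2 *
        ‖∑' n : ℕ, (Pool.Agent.SQ.al n : ℂ) * (xS (S.filter fun p => ¬ p ∣ R) T n : ℂ) *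
          (n : ℂ) ^ (-(1 / 2 - t * I + (1 + y2 * I) / L) : ℂ)‖ ^ 2)) =
      ∏ p ∈ S, (rse_xr5_F R L t y1 y2 p 1 + rse_xr5_F R L t y1 y2 p (-1)) / 2 := by
    rw [← x_prod S (rse_xr5_F R L t y1 y2)]
    unfold avg
    congr 1
    apply Finset.sum_congr rfl
    intro T _
    exact rse_xr5_prod S T hS R L t y1 y2 hL
  rw [e1]
  -- local bound
  set μ : ℕ → ℝ := fun p => C3 * (min ((p : ℝ) ^ (-(1 / (2 * L)))) (B * Real.log p / L) / p +
        (p : ℝ) ^ (-(3 / 2) : ℝ)) with hμ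
  have hμ0 : ∀ p, 0 ≤ μ p := by
    intro p
    have := Real.log_natCast_nonneg p
    rw [hμ]
    positivity
  have hloc : ∀ p ∈ S, (rse_xr5_F R L t y1 y2 p 1 + rse_xr5_F R L t y1 y2 p (-1)) / 2 ≤
      Real.exp (μ p) * (if p ∣ R then (1 + 1 / √(p : ℝ)) ^ 3 else 1) := by
    intro p hp
    obtain ⟨hpp, hp2⟩ := hS p hp
    have hp3 : 3 ≤ p := by
      have := hpp.two_le
      omega
    obtain ⟨ha, hb⟩ := h3 p L t y1 y2 hp3 hL
    by_cases hd : p ∣ R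
    · rw [if_pos hd]
      unfold rse_xr5_F
      simp only [hd, not_true_eq_false, if_false, mul_one, ofReal_one, ofReal_neg, one_mul, neg_mul,
        sub_neg_eq_add]
      refine hb.trans ?_
      have : 1 ≤ Real.exp (μ p) := Real.one_le_exp (hμ0 p)
      have h5 : 0 ≤ (1 + 1 / √(p : ℝ)) ^ 3 := by positivity
      nlinarith
    · rw [if_neg hd, mul_one]
      unfold rse_xr5_F
      simp only [hd, not_false_eq_true, if_true, ofReal_one, ofReal_neg, one_mul, neg_mul,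
        sub_neg_eq_add]
      exact ha
  have hnn : ∀ p ∈ S, 0 ≤ (rse_xr5_F R L t y1 y2 p 1 + rse_xr5_F R L t y1 y2 p (-1)) / 2 := by
    intro p _
    have : ∀ e : ℝ, 0 ≤ rse_xr5_F R L t y1 y2 p e := by
      intro e
      unfold rse_xr5_F
      split_ifs <;> positivity
    have h1 := this 1
    have h2 := this (-1)
    linarith
  refine (Finset.prod_le_prod hnn hloc).trans ?_
  rw [Finset.prod_mul_distrib, ← Real.exp_sum]
  have hA : ∑ p ∈ S, μ p ≤ C3 * (C4 * (1 + Real.log B)) + C3 * Z := by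
    rw [hμ]
    simp only [← Finset.mul_sum, Finset.sum_add_distrib]
    rw [← mul_add]
    apply mul_le_mul_of_nonneg_left _ hC3.le
    apply add_le_add
    · -- S ⊆ pr N
      have hsub : S ⊆ pr (S.sup id) := by
        intro p hp
        simp only [pr, Finset.mem_filter, Finset.mem_range]
        have : p ≤ S.sup id := Finset.le_sup (f := id) hp
        exact ⟨by omega, (hS p hp).1⟩
      refine le_trans ?_ (h4 (S.sup id) L B hL hB1)
      apply Finset.sum_le_sum_of_subset_of_nonneg hsub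
      intro p _ _
      have := Real.log_natCast_nonneg p
      positivity
    · rw [hZ]
      exact hsum.sum_le_tsum S (fun n _ => Real.rpow_nonneg (Nat.cast_nonneg n) _)
  have hBp : ∏ p ∈ S, (if p ∣ R then (1 + 1 / √(p : ℝ)) ^ 3 else 1) ≤ E1 R ^ 3 := by
    rw [← Finset.prod_filter, Finset.prod_pow]
    apply pow_le_pow_left₀
    · apply Finset.prod_nonneg
      intro p _
      positivity
    · unfold E1
      apply Finset.prod_le_prod_of_subset_of_one_le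
      · intro p hp
        rw [Finset.mem_filter] at hp
        rw [Nat.mem_primeFactors]
        exact ⟨(hS p hp.1).1, hp.2, hR.ne'⟩
      · intro p _
        positivity
      · intro p _ _
        have : 0 ≤ 1 / √(p : ℝ) := by positivity
        linarith
  have hE : Real.exp (∑ p ∈ S, μ p) ≤ Real.exp (C3 * C4 + C3 * Z) * B ^ (C3 * C4) := by
    rw [Real.rpow_def_of_pos hB0, ← Real.exp_add]
    apply Real.exp_le_exp.mpr
    linarith
  calc Real.exp (∑ p ∈ S, μ p) * ∏ p ∈ S, (if p ∣ R then (1 + 1 / √(p : ℝ)) ^ 3 else 1)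
      ≤ (Real.exp (C3 * C4 + C3 * Z) * B ^ (C3 * C4)) * E1 R ^ 3 := by
        apply mul_le_mul hE hBp _ (by positivity)
        apply Finset.prod_nonneg
        intro p _
        split_ifs <;> positivity
    _ = _ := by ring

end Pool.Agent.RSE

namespace Pool.Agent.RSE

alias xr5_bound := xr5_bound_pr

end Pool.Agent.RSE
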