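import Pool.Agent.Lib_helper39.RSE.Defs
import Pool.Agent.Lib_helper39.RSA.DefsB
import Pool.Agent.Lib_helper92.SQA.ALPHA
import Pool.Agent.Lib_helper39.RSA.CUT2
import Pool.Agent.Lib_helper39.RSA.XR1
import Pool.Agent.Lib_helper39.RSA.XR5
/-!
# RSE, block XR6
-/

namespace Pool.Agent.RSE

open Complex MeasureTheory Filter Topology
open Pool.Agent.RC (cc psi rv f0 IsRC Good gm pr DD)
open scoped ContDiff

/-- the primes of `S` not dividing `R` -/
def rse_xr6_S (S : Finset ℕ) (R : ℕ) : Finset ℕ := S.filter fun p => ¬ p ∣ R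

theorem rse_xr6_xS_zero (S T : Finset ℕ) : xS S T 0 = 0 := by
  unfold xS
  rw [if_neg (fun h => h.1 rfl)]

theorem rse_xr6_coeff (Θ : ℝ → ℝ) (L : ℝ) (R : ℕ) (S T : Finset ℕ)
    (hS : ∀ p ∈ S, p.Prime ∧ p ≠ 2) (k : ℕ) :
    be Θ L R k * xS S T k =
      Pool.Agent.SQ.al k * xS (rse_xr6_S S R) T k * Θ (Real.log k / L) := by
  rcases eq_or_ne k 0 with rfl | hk
  · rw [rse_xr6_xS_zero, rse_xr6_xS_zero]
    ring
  unfold be
  by_cases h : Odd k ∧ k.Coprime R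
  · rw [if_pos h]
    have e : xS S T k = xS (rse_xr6_S S R) T k := by
      unfold xS
      have hiff : (k ≠ 0 ∧ k.primeFactors ⊆ S) ↔
          (k ≠ 0 ∧ k.primeFactors ⊆ rse_xr6_S S R) := by
        constructor
        · rintro ⟨h1, h2⟩
          refine ⟨h1, fun p hp => Finset.mem_filter.2 ⟨h2 hp, fun hpR => ?_⟩⟩
          have hpp := Nat.prime_of_mem_primeFactors hp
          have h3 : p ∣ Nat.gcd k R := Nat.dvd_gcd (Nat.dvd_of_mem_primeFactors hp) hpR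
          rw [Nat.coprime_iff_gcd_eq_one.1 h.2] at h3
          exact hpp.one_lt.ne' (Nat.dvd_one.1 h3)
        · rintro ⟨h1, h2⟩
          exact ⟨h1, fun p hp => (Finset.mem_filter.1 (h2 hp)).1⟩
      by_cases h1 : k ≠ 0 ∧ k.primeFactors ⊆ S
      · rw [if_pos h1, if_pos (hiff.1 h1)]
      · rw [if_neg h1, if_neg (fun h2 => h1 (hiff.2 h2))]
    rw [e]
    ring
  · rw [if_neg h, zero_mul]
    have e : xS (rse_xr6_S S R) T k = 0 := by
      unfold xS
      rw [if_neg]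
      rintro ⟨h1, h2⟩
      apply h
      constructor
      · by_contra hodd
        rw [Nat.not_odd_iff_even] at hodd
        have h3 : 2 ∈ k.primeFactors :=
          Nat.mem_primeFactors.2 ⟨Nat.prime_two, even_iff_two_dvd.1 hodd, hk⟩
        exact (hS 2 (Finset.mem_filter.1 (h2 h3)).1).2 rfl
      · rw [Nat.coprime_iff_gcd_eq_one]
        by_contra hg
        obtain ⟨p, hp, hpd⟩ := Nat.exists_prime_and_dvd hg
        have h3 : p ∈ k.primeFactors :=
          Nat.mem_primeFactors.2 ⟨hp, hpd.trans (Nat.gcd_dvd_left _ _), hk⟩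
        exact (Finset.mem_filter.1 (h2 h3)).2 (hpd.trans (Nat.gcd_dvd_right _ _))
    rw [e]
    ring

/-- the mollifier polynomial -/
noncomputable def rse_xr6_P (Θ : ℝ → ℝ) (L : ℝ) (R : ℕ) (S T : Finset ℕ) (t s : ℝ) : ℂ :=
  ∑ k ∈ KL L, (be Θ L R k * xS S T k : ℂ) * (k : ℂ) ^ (-(1 / 2 + t * I - s / L) : ℂ)

/-- the full sum -/
noncomputable def rse_xr6_A (L : ℝ) (S T : Finset ℕ) (t y : ℝ) : ℂ :=
  ∑' n : ℕ, (Pool.Agent.SQ.al n : ℂ) * (xS S T n : ℂ) *
    (n : ℂ) ^ (-(1 / 2 + t * I + (1 + y * I) / L) : ℂ)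

theorem rse_xr6_re (L t y : ℝ) : (1 / 2 + t * I + (1 + y * I) / L : ℂ).re = 1 / 2 + 1 / L := by
  have : (1 / 2 + t * I + (1 + y * I) / L : ℂ) = ((1 / 2 + 1 / L : ℝ) : ℂ) +
      ((t + y / L : ℝ) : ℂ) * I := by
    push_cast
    ring
  rw [this]
  simp

theorem rse_xr6_summ (S T : Finset ℕ) (hS : ∀ p ∈ S, p.Prime) (L : ℝ) (hL : 1 ≤ L) :
    Summable fun n : ℕ => |xS S T n| * (n : ℝ) ^ (-(1 / 2 + 1 / L)) := by
  refine (xr1_eq S T hS (1 / 2 + (0 : ℝ) * I + (1 + (0 : ℝ) * I) / L : ℂ) (by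
    rw [rse_xr6_re]
    positivity)).1.congr fun n => ?_
  rcases eq_or_ne n 0 with rfl | hn
  · rw [rse_xr6_xS_zero]
    simp
  · rw [norm_mul, norm_real, Real.norm_eq_abs, norm_natCast_cpow_of_pos (Nat.pos_of_ne_zero hn),
      neg_re, rse_xr6_re]

theorem rse_xr6_term (S T : Finset ℕ) (L t y : ℝ) (n : ℕ) :
    ‖(Pool.Agent.SQ.al n : ℂ) * (xS S T n : ℂ) *
      (n : ℂ) ^ (-(1 / 2 + t * I + (1 + y * I) / L) : ℂ)‖ ≤
      |xS S T n| * (n : ℝ) ^ (-(1 / 2 + 1 / L)) := by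
  rcases eq_or_ne n 0 with rfl | hn
  · rw [rse_xr6_xS_zero]
    simp
  · rw [norm_mul, norm_mul, norm_real, norm_real, Real.norm_eq_abs, Real.norm_eq_abs,
      norm_natCast_cpow_of_pos (Nat.pos_of_ne_zero hn), neg_re, rse_xr6_re]
    refine mul_le_mul_of_nonneg_right ?_ (by positivity)
    exact mul_le_of_le_one_left (abs_nonneg _) (Pool.Agent.SQ.al_abs n)

theorem rse_xr6_A_cont (S T : Finset ℕ) (hS : ∀ p ∈ S, p.Prime) (L : ℝ) (hL : 1 ≤ L) (t : ℝ) :
    Continuous (rse_xr6_A L S T t) := by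
  unfold rse_xr6_A
  refine continuous_tsum (fun n => ?_) (rse_xr6_summ S T hS L hL) fun n y =>
    rse_xr6_term S T L t y n
  rcases eq_or_ne n 0 with rfl | hn
  · have : ∀ y : ℝ, (Pool.Agent.SQ.al 0 : ℂ) * (xS S T 0 : ℂ) *
      ((0 : ℕ) : ℂ) ^ (-(1 / 2 + t * I + (1 + y * I) / L) : ℂ) = 0 := by
      intro y
      rw [rse_xr6_xS_zero]
      simp
    simp only [this]
    exact continuous_const
  · have hnc : (n : ℂ) ≠ 0 := by exact_mod_cast hn
    refine continuous_const.mul ?_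
    refine Continuous.const_cpow (by fun_prop) (Or.inl hnc)

theorem rse_xr6_A_bound (S T : Finset ℕ) (hS : ∀ p ∈ S, p.Prime) (L : ℝ) (hL : 1 ≤ L) (t y : ℝ) :
    ‖rse_xr6_A L S T t y‖ ≤ ∑' n : ℕ, |xS S T n| * (n : ℝ) ^ (-(1 / 2 + 1 / L)) := by
  unfold rse_xr6_A
  exact tsum_of_norm_bounded (rse_xr6_summ S T hS L hL).hasSum fun n =>
    rse_xr6_term S T L t y n

/-- the Fourier representation of the mollifier -/
theorem rse_xr6_rep {Θ : ℝ → ℝ} (hΘ : Cut Θ) {θ : ℝ → ℂ} {s : ℝ} (hθi : Integrable θ)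
    (hθ : ∀ x : ℝ, ((Θ x * Real.exp (s * x) : ℝ) : ℂ) = ∫ y : ℝ, θ y * cexp (-(1 + y * I) * x))
    (S T : Finset ℕ) (hS : ∀ p ∈ S, p.Prime ∧ p ≠ 2) (R : ℕ) (hR : 0 < R) (L : ℝ) (hL : 1 ≤ L)
    (t : ℝ) :
    rse_xr6_P Θ L R S T t s = ∫ y : ℝ, θ y * rse_xr6_A L (rse_xr6_S S R) T t y := by
  have hL0 : 0 < L := by linarith
  set S' := rse_xr6_S S R with hS'
  have hS'p : ∀ p ∈ S', p.Prime := fun p hp => (hS p (Finset.mem_filter.1 hp).1).1
  set a : ℕ → ℝ → ℂ := fun n y => (Pool.Agent.SQ.al n : ℂ) * (xS S' T n : ℂ) *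
    (n : ℂ) ^ (-(1 / 2 + t * I + (1 + y * I) / L) : ℂ) with ha
  have hterm : ∀ k : ℕ, ∫ y : ℝ, θ y * a k y =
      (Pool.Agent.SQ.al k * xS S' T k * Θ (Real.log k / L) : ℂ) *
        (k : ℂ) ^ (-(1 / 2 + t * I - s / L) : ℂ) := by
    intro k
    rcases eq_or_ne k 0 with rfl | hk
    · have : ∀ y, θ y * a 0 y = 0 := by
        intro y
        simp only [ha]
        rw [rse_xr6_xS_zero]
        simp
      simp only [this]
      rw [integral_zero, rse_xr6_xS_zero]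
      simp
    · have hkc : (k : ℂ) ≠ 0 := by exact_mod_cast hk
      have hLc : (L : ℂ) ≠ 0 := by exact_mod_cast hL0.ne'
      have e1 : ∀ y : ℝ, θ y * a k y = ((Pool.Agent.SQ.al k * xS S' T k : ℂ) *
          (k : ℂ) ^ (-(1 / 2 + t * I) : ℂ)) *
          (θ y * cexp (-(1 + y * I) * ((Real.log k / L : ℝ) : ℂ))) := by
        intro y
        simp only [ha]
        have e2 : (k : ℂ) ^ (-(1 / 2 + t * I + (1 + y * I) / L) : ℂ) =
            (k : ℂ) ^ (-(1 / 2 + t * I) : ℂ) *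
              cexp (-(1 + y * I) * ((Real.log k / L : ℝ) : ℂ)) := by
          have e3 : (-(1 / 2 + t * I + (1 + y * I) / L) : ℂ) =
              -(1 / 2 + t * I) + -((1 + y * I) / L) := by ring
          rw [e3, cpow_add _ _ hkc]
          congr 1
          rw [cpow_def_of_ne_zero hkc, ← natCast_log]
          congr 1
          push_cast
          field_simp
        rw [e2]
        ring
      simp only [e1]
      rw [integral_const_mul, ← hθ]
      have e4 : (k : ℂ) ^ (-(1 / 2 + t * I - s / L) : ℂ) =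
          (k : ℂ) ^ (-(1 / 2 + t * I) : ℂ) * ((Real.exp (s * (Real.log k / L)) : ℝ) : ℂ) := by
        have e3 : (-(1 / 2 + t * I - s / L) : ℂ) = -(1 / 2 + t * I) + s / L := by ring
        rw [e3, cpow_add _ _ hkc]
        congr 1
        rw [cpow_def_of_ne_zero hkc, ← natCast_log, ofReal_exp]
        congr 1
        push_cast
        field_simp
      rw [e4]
      push_cast
      ring
  have hint : ∀ k : ℕ, Integrable (fun y : ℝ => θ y * a k y) := by
    intro k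
    have hak : Continuous (a k) := by
      simp only [ha]
      rcases eq_or_ne k 0 with rfl | hk
      · have : ∀ y : ℝ, (Pool.Agent.SQ.al 0 : ℂ) * (xS S' T 0 : ℂ) *
          ((0 : ℕ) : ℂ) ^ (-(1 / 2 + t * I + (1 + y * I) / L) : ℂ) = 0 := by
          intro y
          rw [rse_xr6_xS_zero]
          simp
        simp only [this]
        exact continuous_const
      · have hnc : (k : ℂ) ≠ 0 := by exact_mod_cast hk
        refine continuous_const.mul ?_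
        refine Continuous.const_cpow (by fun_prop) (Or.inl hnc)
    exact hθi.mul_bdd (c := |xS S' T k| * (k : ℝ) ^ (-(1 / 2 + 1 / L))) hak.aestronglyMeasurable
      (ae_of_all _ fun y => rse_xr6_term S' T L t y k)
  have hsum : Summable fun k : ℕ => ∫ y : ℝ, ‖θ y * a k y‖ := by
    refine Summable.of_nonneg_of_le (fun k => integral_nonneg fun y => norm_nonneg _)
      (fun k => ?_) ((rse_xr6_summ S' T hS'p L hL).mul_left (∫ y : ℝ, ‖θ y‖))
    have : ∫ y : ℝ, ‖θ y * a k y‖ ≤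
        ∫ y : ℝ, ‖θ y‖ * (|xS S' T k| * (k : ℝ) ^ (-(1 / 2 + 1 / L))) := by
      refine integral_mono (hint k).norm (hθi.norm.mul_const _) fun y => ?_
      show ‖θ y * a k y‖ ≤ ‖θ y‖ * (|xS S' T k| * (k : ℝ) ^ (-(1 / 2 + 1 / L)))
      rw [norm_mul]
      exact mul_le_mul_of_nonneg_left (rse_xr6_term S' T L t y k) (norm_nonneg _)
    rwa [integral_mul_const] at this
  have hmain := integral_tsum_of_summable_integral_norm hint hsum
  have e5 : ∀ y : ℝ, ∑' k : ℕ, θ y * a k y = θ y * rse_xr6_A L S' T t y := by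
    intro y
    rw [tsum_mul_left]
    rfl
  simp only [e5] at hmain
  rw [← hmain]
  simp only [hterm]
  rw [tsum_eq_sum (s := KL L)]
  · unfold rse_xr6_P
    refine Finset.sum_congr rfl fun k _ => ?_
    have := rse_xr6_coeff Θ L R S T hS k
    have h2 := congrArg (fun x : ℝ => (x : ℂ)) this
    simp only [ofReal_mul] at h2
    rw [h2]
  · intro k hk
    rcases eq_or_ne k 0 with rfl | hk0
    · rw [rse_xr6_xS_zero]
      simp
    · have h1 : Real.exp L < k := by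
        by_contra h
        push Not at h
        exact hk (Finset.mem_Icc.2 ⟨Nat.pos_of_ne_zero hk0, Nat.le_floor h⟩)
      have hk1 : (0 : ℝ) < k := by exact_mod_cast Nat.pos_of_ne_zero hk0
      have h2 : 1 ≤ Real.log k / L := by
        rw [le_div_iff₀ hL0, one_mul]
        exact ((Real.lt_log_iff_exp_lt hk1).2 h1).le
      rw [hΘ.one _ h2]
      simp

/-- averages and integrals -/
theorem rse_xr6_avg (S : Finset ℕ) {θ : ℝ → ℂ} (hθ : Integrable θ) (w : Finset ℕ → ℝ)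
    (B : Finset ℕ → ℝ → ℝ) (hBc : ∀ T, Continuous (B T)) (hBb : ∀ T, ∃ c, ∀ y, |B T y| ≤ c)
    (M : ℝ → ℝ) (hM : Integrable fun y => ‖θ y‖ * M y)
    (h : ∀ y, avg S (fun T => w T * B T y) ≤ M y) :
    avg S (fun T => w T * ∫ y, ‖θ y‖ * B T y) ≤ ∫ y, ‖θ y‖ * M y := by
  have hi : ∀ T, Integrable fun y => ‖θ y‖ * B T y := by
    intro T
    obtain ⟨c, hc⟩ := hBb T
    exact hθ.norm.mul_bdd (c := c) (hBc T).aestronglyMeasurable (ae_of_all _ fun y => hc y)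
  have e : avg S (fun T => w T * ∫ y, ‖θ y‖ * B T y) =
      ∫ y, ‖θ y‖ * avg S (fun T => w T * B T y) := by
    unfold avg
    have e1 : ∀ y, ‖θ y‖ * ((∑ T ∈ S.powerset, w T * B T y) / 2 ^ S.card) =
        (∑ T ∈ S.powerset, w T * (‖θ y‖ * B T y)) / 2 ^ S.card := by
      intro y
      rw [mul_div_assoc', Finset.mul_sum]
      congr 1
      refine Finset.sum_congr rfl fun T _ => ?_
      ring
    simp only [e1]
    rw [integral_div, integral_finsetSum _ fun T _ => (hi T).const_mul _]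
    simp only [integral_const_mul]
  rw [e]
  refine integral_mono ?_ hM fun y => mul_le_mul_of_nonneg_left (h y) (norm_nonneg _)
  unfold avg
  have e1 : ∀ y, ‖θ y‖ * ((∑ T ∈ S.powerset, w T * B T y) / 2 ^ S.card) =
      (∑ T ∈ S.powerset, w T * (‖θ y‖ * B T y)) / 2 ^ S.card := by
    intro y
    rw [mul_div_assoc', Finset.mul_sum]
    congr 1
    refine Finset.sum_congr rfl fun T _ => ?_
    ring
  simp only [e1]
  exact (integrable_finsetSum _ fun T _ => (hi T).const_mul _).div_const _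

theorem rse_xr6_avg_mono (S : Finset ℕ) {F G : Finset ℕ → ℝ} (h : ∀ T, F T ≤ G T) :
    avg S F ≤ avg S G := by
  unfold avg
  exact div_le_div_of_nonneg_right (Finset.sum_le_sum fun T _ => h T) (by positivity)

/-- Cauchy-Schwarz -/
theorem rse_xr6_cs {θ : ℝ → ℂ} (hθ : Integrable θ) {A : ℝ → ℂ} (hA : Continuous A) {c : ℝ}
    (hc : ∀ y, ‖A y‖ ≤ c) :
    ‖∫ y, θ y * A y‖ ^ 2 ≤ (∫ y, ‖θ y‖) * ∫ y, ‖θ y‖ * ‖A y‖ ^ 2 := by
  have i0 := hθ.norm
  have hc0 : 0 ≤ c := (norm_nonneg _).trans (hc 0)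
  have i1 : Integrable fun y => ‖θ y‖ * ‖A y‖ :=
    hθ.norm.mul_bdd (c := c) hA.norm.aestronglyMeasurable (ae_of_all _ fun y => by
      rw [norm_norm]
      exact hc y)
  have i2 : Integrable fun y => ‖θ y‖ * ‖A y‖ ^ 2 :=
    hθ.norm.mul_bdd (c := c ^ 2) (hA.norm.pow 2).aestronglyMeasurable (ae_of_all _ fun y => by
      rw [norm_pow, norm_norm]
      exact pow_le_pow_left₀ (norm_nonneg _) (hc y) 2)
  set N := ∫ y, ‖θ y‖ with hN
  set J := ∫ y, ‖θ y‖ * ‖A y‖ with hJ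
  set Q := ∫ y, ‖θ y‖ * ‖A y‖ ^ 2 with hQ
  have hle : ‖∫ y, θ y * A y‖ ≤ J := by
    refine (norm_integral_le_integral_norm _).trans (le_of_eq ?_)
    refine integral_congr_ae (ae_of_all _ fun y => ?_)
    exact norm_mul _ _
  have hJ0 : 0 ≤ J := integral_nonneg fun y => by positivity
  have hN0 : 0 ≤ N := integral_nonneg fun y => by positivity
  have hquad : ∀ x : ℝ, 0 ≤ N * x ^ 2 - 2 * J * x + Q := by
    intro x
    have e : N * x ^ 2 - 2 * J * x + Q = ∫ y, ‖θ y‖ * (‖A y‖ - x) ^ 2 := by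
      have e1 : ∀ y, ‖θ y‖ * (‖A y‖ - x) ^ 2 =
          (x ^ 2 * ‖θ y‖ - 2 * x * (‖θ y‖ * ‖A y‖)) + ‖θ y‖ * ‖A y‖ ^ 2 := by
        intro y
        ring
      simp only [e1]
      have i3 : Integrable fun y => x ^ 2 * ‖θ y‖ - 2 * x * (‖θ y‖ * ‖A y‖) :=
        (i0.const_mul (x ^ 2)).sub (i1.const_mul (2 * x))
      rw [integral_add i3 i2, integral_sub (i0.const_mul (x ^ 2)) (i1.const_mul (2 * x)),
        integral_const_mul, integral_const_mul]
      ring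
    rw [e]
    exact integral_nonneg fun y => by positivity
  have hd := discrim_le_zero (a := N) (b := -(2 * J)) (c := Q) (fun x => by
    have := hquad x
    linarith [this, sq x])
  unfold discrim at hd
  have h1 : J ^ 2 ≤ N * Q := by linarith
  exact (pow_le_pow_left₀ (norm_nonneg _) hle 2).trans h1

theorem rse_xr6_ph1 (Θ : ℝ → ℝ) (L : ℝ) (R : ℕ) (S T : Finset ℕ) (t : ℝ) :
    ph1 Θ L R S T t = rse_xr6_P Θ L R S T t (-(1 / 2)) := by
  unfold ph1 rse_xr6_P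
  refine Finset.sum_congr rfl fun k _ => ?_
  congr 2
  push_cast
  ring

theorem rse_xr6_ph2 (Θ : ℝ → ℝ) (L : ℝ) (R : ℕ) (S T : Finset ℕ) (t : ℝ) :
    ph2 Θ L R S T t = rse_xr6_P Θ L R S T (-t) (1 / 2) := by
  unfold ph2 rse_xr6_P
  refine Finset.sum_congr rfl fun k _ => ?_
  congr 2
  push_cast
  ring

/-- integrability of the Fourier transforms of the cut-off with polynomial weights -/
theorem rse_xr6_wt {θ : ℝ → ℂ} (hc : Continuous θ)
    (hd : ∀ A : ℕ, ∃ C : ℝ, ∀ y : ℝ, ‖θ y‖ ≤ C / (1 + |y|) ^ A) (D : ℝ) :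
    Integrable fun y : ℝ => ‖θ y‖ * (1 + |y|) ^ D := by
  obtain ⟨n, hn⟩ := exists_nat_ge (D + 2)
  obtain ⟨C, hC⟩ := hd n
  have hC0 : 0 ≤ C := by
    have := (norm_nonneg _).trans (hC 0)
    simpa using this
  have hint : Integrable fun y : ℝ => C * (1 + ‖y‖) ^ (-(2 : ℝ)) :=
    (integrable_one_add_norm (by simp)).const_mul C
  refine hint.mono' ?_ (ae_of_all _ fun y => ?_)
  · refine Continuous.aestronglyMeasurable ?_
    refine hc.norm.mul (Continuous.rpow_const (by fun_prop) fun y => Or.inl ?_)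
    positivity
  · have h1 : (0 : ℝ) < 1 + |y| := by positivity
    rw [norm_mul, norm_norm, Real.norm_of_nonneg (Real.rpow_nonneg h1.le D)]
    calc ‖θ y‖ * (1 + |y|) ^ D ≤ C / (1 + |y|) ^ n * (1 + |y|) ^ D :=
          mul_le_mul_of_nonneg_right (hC y) (Real.rpow_nonneg h1.le D)
      _ = C * (1 + |y|) ^ (D - n) := by
          rw [Real.rpow_sub h1, Real.rpow_natCast]
          ring
      _ ≤ C * (1 + ‖y‖) ^ (-(2 : ℝ)) := by
          refine mul_le_mul_of_nonneg_left ?_ hC0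
          rw [Real.norm_eq_abs]
          exact Real.rpow_le_rpow_of_exponent_le (by linarith [abs_nonneg y]) (by linarith)

theorem xr6_bound_pr {Θ : ℝ → ℝ} (hΘ : Cut Θ) : ∃ C : ℝ, 0 < C ∧
    ∀ (S : Finset ℕ) (R : ℕ) (L t : ℝ),
    (∀ p ∈ S, p.Prime ∧ p ≠ 2) → 0 < R → 1 ≤ L →
    avg S (fun T => ‖LT L S T t * (ph1 Θ L R S T t * ph2 Θ L R S T t)‖ ^ 2) ≤ C * E1 R ^ 3 := by
  obtain ⟨C5, D, hC5, hD, h5⟩ := xr5_bound
  obtain ⟨θ1, c1, d1, r1⟩ := cut_fourier hΘ (-(1 / 2))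
  obtain ⟨θ2, c2, d2, r2⟩ := cut_fourier hΘ (1 / 2)
  have w1 := rse_xr6_wt c1 d1 D
  have w2 := rse_xr6_wt c2 d2 D
  have i1 : Integrable θ1 := by
    have := rse_xr6_wt c1 d1 0
    simp only [Real.rpow_zero, mul_one] at this
    exact (integrable_norm_iff c1.aestronglyMeasurable).1 this
  have i2 : Integrable θ2 := by
    have := rse_xr6_wt c2 d2 0
    simp only [Real.rpow_zero, mul_one] at this
    exact (integrable_norm_iff c2.aestronglyMeasurable).1 this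
  set N1 := ∫ y, ‖θ1 y‖ with hN1
  set N2 := ∫ y, ‖θ2 y‖ with hN2
  set M1 := ∫ y, ‖θ1 y‖ * (1 + |y|) ^ D with hM1
  set M2 := ∫ y, ‖θ2 y‖ * (1 + |y|) ^ D with hM2
  have hN1' : 0 ≤ N1 := integral_nonneg fun y => by positivity
  have hN2' : 0 ≤ N2 := integral_nonneg fun y => by positivity
  have hM1' : 0 ≤ M1 := integral_nonneg fun y => by positivity
  have hM2' : 0 ≤ M2 := integral_nonneg fun y => by positivity
  refine ⟨N1 * N2 * (C5 * M1 * M2) + 1, by positivity, fun S R L t hS hR hL => ?_⟩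
  have hE : 0 ≤ E1 R := by
    unfold E1
    exact Finset.prod_nonneg fun p _ => by positivity
  set S' := rse_xr6_S S R with hS'
  have hS'p : ∀ p ∈ S', p.Prime := fun p hp => (hS p (Finset.mem_filter.1 hp).1).1
  set A1 : Finset ℕ → ℝ → ℂ := fun T y => rse_xr6_A L S' T t y with hA1
  set A2 : Finset ℕ → ℝ → ℂ := fun T y => rse_xr6_A L S' T (-t) y with hA2
  have ac1 : ∀ T, Continuous (A1 T) := fun T => rse_xr6_A_cont S' T hS'p L hL t
  have ac2 : ∀ T, Continuous (A2 T) := fun T => rse_xr6_A_cont S' T hS'p L hL (-t)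
  have ab1 : ∀ T y, ‖A1 T y‖ ≤ ∑' n : ℕ, |xS S' T n| * (n : ℝ) ^ (-(1 / 2 + 1 / L)) :=
    fun T y => rse_xr6_A_bound S' T hS'p L hL t y
  have ab2 : ∀ T y, ‖A2 T y‖ ≤ ∑' n : ℕ, |xS S' T n| * (n : ℝ) ^ (-(1 / 2 + 1 / L)) :=
    fun T y => rse_xr6_A_bound S' T hS'p L hL (-t) y
  have p1 : ∀ T, ph1 Θ L R S T t = ∫ y, θ1 y * A1 T y := fun T => by
    rw [rse_xr6_ph1]
    exact rse_xr6_rep hΘ i1 r1 S T hS R hR L hL t
  have p2 : ∀ T, ph2 Θ L R S T t = ∫ y, θ2 y * A2 T y := fun T => by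
    rw [rse_xr6_ph2]
    exact rse_xr6_rep hΘ i2 r2 S T hS R hR L hL (-t)
  set a1 : Finset ℕ → ℝ := fun T => ∫ y, ‖θ1 y‖ * ‖A1 T y‖ ^ 2 with ha1
  set a2 : Finset ℕ → ℝ := fun T => ∫ y, ‖θ2 y‖ * ‖A2 T y‖ ^ 2 with ha2
  have ha1' : ∀ T, 0 ≤ a1 T := fun T => integral_nonneg fun y => by positivity
  have ha2' : ∀ T, 0 ≤ a2 T := fun T => integral_nonneg fun y => by positivity
  have step1 : avg S (fun T => ‖LT L S T t * (ph1 Θ L R S T t * ph2 Θ L R S T t)‖ ^ 2) ≤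
      avg S (fun T => N1 * N2 * (‖LT L S T t‖ ^ 2 * a2 T * a1 T)) := by
    refine rse_xr6_avg_mono S fun T => ?_
    have q1 := rse_xr6_cs i1 (ac1 T) (ab1 T)
    have q2 := rse_xr6_cs i2 (ac2 T) (ab2 T)
    rw [← p1 T] at q1
    rw [← p2 T] at q2
    rw [norm_mul, norm_mul, mul_pow, mul_pow]
    calc ‖LT L S T t‖ ^ 2 * (‖ph1 Θ L R S T t‖ ^ 2 * ‖ph2 Θ L R S T t‖ ^ 2)
        ≤ ‖LT L S T t‖ ^ 2 * ((N1 * a1 T) * (N2 * a2 T)) := by
          refine mul_le_mul_of_nonneg_left ?_ (by positivity)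
          exact mul_le_mul q1 q2 (by positivity) (mul_nonneg hN1' (ha1' T))
      _ = _ := by ring
  have step2 : ∀ y1 : ℝ, avg S (fun T => (‖LT L S T t‖ ^ 2 * a2 T) * ‖A1 T y1‖ ^ 2) ≤
      C5 * E1 R ^ 3 * M2 * (1 + |y1|) ^ D := by
    intro y1
    have h6 := rse_xr6_avg S i2 (fun T => ‖LT L S T t‖ ^ 2 * ‖A1 T y1‖ ^ 2)
      (fun T y => ‖A2 T y‖ ^ 2) (fun T => (ac2 T).norm.pow 2)
      (fun T => ⟨(∑' n : ℕ, |xS S' T n| * (n : ℝ) ^ (-(1 / 2 + 1 / L))) ^ 2, fun y => by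
        rw [abs_of_nonneg (by positivity)]
        exact pow_le_pow_left₀ (norm_nonneg _) (ab2 T y) 2⟩)
      (fun y => C5 * E1 R ^ 3 * (1 + |y1|) ^ D * (1 + |y|) ^ D)
      ((w2.const_mul (C5 * E1 R ^ 3 * (1 + |y1|) ^ D)).congr (ae_of_all _ fun y => by
        show C5 * E1 R ^ 3 * (1 + |y1|) ^ D * (‖θ2 y‖ * (1 + |y|) ^ D) =
          ‖θ2 y‖ * (C5 * E1 R ^ 3 * (1 + |y1|) ^ D * (1 + |y|) ^ D)
        ring))
      (fun y => by
        have h7 := h5 S R L t y1 y hS hR hL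
        have e1 : avg S (fun T => ‖LT L S T t‖ ^ 2 * ‖A1 T y1‖ ^ 2 * ‖A2 T y‖ ^ 2) =
            avg S (fun T => ‖LT L S T t‖ ^ 2 *
              (‖∑' n : ℕ, (Pool.Agent.SQ.al n : ℂ) * (xS (S.filter fun p => ¬ p ∣ R) T n : ℂ) *
                (n : ℂ) ^ (-(1 / 2 + t * I + (1 + y1 * I) / L) : ℂ)‖ ^ 2 *
              ‖∑' n : ℕ, (Pool.Agent.SQ.al n : ℂ) * (xS (S.filter fun p => ¬ p ∣ R) T n : ℂ) *
                (n : ℂ) ^ (-(1 / 2 - t * I + (1 + y * I) / L) : ℂ)‖ ^ 2)) := by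
          congr 1
          funext T
          simp only [hA1, hA2, hS', rse_xr6_A, rse_xr6_S]
          have e2 : ∀ n : ℕ, (n : ℂ) ^ (-(1 / 2 + ((-t : ℝ) : ℂ) * I + (1 + y * I) / L) : ℂ) =
              (n : ℂ) ^ (-(1 / 2 - t * I + (1 + y * I) / L) : ℂ) := by
            intro n
            congr 1
            push_cast
            ring
          simp only [e2]
          ring
        rw [e1]
        refine h7.trans ?_
        have h8 : (1 + |y1| + |y|) ^ D ≤ (1 + |y1|) ^ D * (1 + |y|) ^ D := by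
          rw [← Real.mul_rpow (by positivity) (by positivity)]
          refine Real.rpow_le_rpow (by positivity) ?_ hD.le
          nlinarith [abs_nonneg y1, abs_nonneg y, mul_nonneg (abs_nonneg y1) (abs_nonneg y)]
        calc C5 * E1 R ^ 3 * (1 + |y1| + |y|) ^ D
            ≤ C5 * E1 R ^ 3 * ((1 + |y1|) ^ D * (1 + |y|) ^ D) :=
              mul_le_mul_of_nonneg_left h8 (by positivity)
          _ = _ := by ring)
    have e3 : avg S (fun T => (‖LT L S T t‖ ^ 2 * a2 T) * ‖A1 T y1‖ ^ 2) =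
        avg S (fun T => ‖LT L S T t‖ ^ 2 * ‖A1 T y1‖ ^ 2 * ∫ y, ‖θ2 y‖ * ‖A2 T y‖ ^ 2) := by
      congr 1
      funext T
      simp only [ha2]
      ring
    rw [e3]
    refine h6.trans (le_of_eq ?_)
    have e4 : ∀ y, ‖θ2 y‖ * (C5 * E1 R ^ 3 * (1 + |y1|) ^ D * (1 + |y|) ^ D) =
        (C5 * E1 R ^ 3 * (1 + |y1|) ^ D) * (‖θ2 y‖ * (1 + |y|) ^ D) := by
      intro y
      ring
    simp only [e4]
    rw [integral_const_mul]
    ring
  have step3 : avg S (fun T => ‖LT L S T t‖ ^ 2 * a2 T * a1 T) ≤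
      C5 * E1 R ^ 3 * M2 * M1 := by
    have h6 := rse_xr6_avg S i1 (fun T => ‖LT L S T t‖ ^ 2 * a2 T)
      (fun T y => ‖A1 T y‖ ^ 2) (fun T => (ac1 T).norm.pow 2)
      (fun T => ⟨(∑' n : ℕ, |xS S' T n| * (n : ℝ) ^ (-(1 / 2 + 1 / L))) ^ 2, fun y => by
        rw [abs_of_nonneg (by positivity)]
        exact pow_le_pow_left₀ (norm_nonneg _) (ab1 T y) 2⟩)
      (fun y => C5 * E1 R ^ 3 * M2 * (1 + |y|) ^ D)
      ((w1.const_mul (C5 * E1 R ^ 3 * M2)).congr (ae_of_all _ fun y => by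
        show C5 * E1 R ^ 3 * M2 * (‖θ1 y‖ * (1 + |y|) ^ D) =
          ‖θ1 y‖ * (C5 * E1 R ^ 3 * M2 * (1 + |y|) ^ D)
        ring)) step2
    refine h6.trans (le_of_eq ?_)
    have e4 : ∀ y, ‖θ1 y‖ * (C5 * E1 R ^ 3 * M2 * (1 + |y|) ^ D) =
        (C5 * E1 R ^ 3 * M2) * (‖θ1 y‖ * (1 + |y|) ^ D) := by
      intro y
      ring
    simp only [e4]
    rw [integral_const_mul]
  have step4 : avg S (fun T => N1 * N2 * (‖LT L S T t‖ ^ 2 * a2 T * a1 T)) =
      N1 * N2 * avg S (fun T => ‖LT L S T t‖ ^ 2 * a2 T * a1 T) := by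
    unfold avg
    rw [← Finset.mul_sum, mul_div_assoc]
  rw [step4] at step1
  have hE3 : 0 ≤ E1 R ^ 3 := by positivity
  calc _ ≤ N1 * N2 * avg S (fun T => ‖LT L S T t‖ ^ 2 * a2 T * a1 T) := step1
    _ ≤ N1 * N2 * (C5 * E1 R ^ 3 * M2 * M1) :=
        mul_le_mul_of_nonneg_left step3 (mul_nonneg hN1' hN2')
    _ = N1 * N2 * (C5 * M1 * M2) * E1 R ^ 3 := by ring
    _ ≤ (N1 * N2 * (C5 * M1 * M2) + 1) * E1 R ^ 3 :=
        mul_le_mul_of_nonneg_right (by linarith) hE3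

end Pool.Agent.RSE

namespace Pool.Agent.RSE

alias xr6_bound := xr6_bound_pr

end Pool.Agent.RSE
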