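import Pool.Agent.Lib_helper39.RSE.Defs
import Pool.Agent.Lib_helper39.RSA.DefsB
import Pool.Agent.Lib_helper39.RSA.XR1
import Pool.Agent.Lib_helper39.RSA.XR2
import Pool.Agent.Lib_helper39.RSA.XR6
/-!
# RSE, block XRK
-/

namespace Pool.Agent.RSE

open Complex MeasureTheory Filter Topology
open Pool.Agent.RC (cc psi rv f0 IsRC Good gm pr DD)
open scoped ContDiff

theorem rse_xrk_avg_int (S : Finset ℕ) (f : Finset ℕ → ℝ → ℝ) (hf : ∀ T, Integrable (f T)) :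
    Integrable (fun x => avg S (fun T => f T x)) ∧
      avg S (fun T => ∫ x, f T x) = ∫ x, avg S (fun T => f T x) := by
  unfold avg
  constructor
  · exact (integrable_finsetSum _ fun T _ => hf T).div_const _
  · rw [integral_div, integral_finsetSum _ fun T _ => hf T]

theorem rse_xrk_avg_mono (S : Finset ℕ) {F G : Finset ℕ → ℝ} (h : ∀ T, F T ≤ G T) :
    avg S F ≤ avg S G := by
  unfold avg
  exact div_le_div_of_nonneg_right (Finset.sum_le_sum fun T _ => h T) (by positivity)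

theorem rse_xrk_avg_mul (S : Finset ℕ) (c : ℝ) (F : Finset ℕ → ℝ) :
    avg S (fun T => c * F T) = c * avg S F := by
  unfold avg
  rw [← Finset.mul_sum, mul_div_assoc]

/-- the transform of an integrable function is continuous -/
theorem rse_xrk_hat_cont {h : ℝ → ℂ} (hh : Integrable h) :
    Continuous (Pool.Agent.SQS.hat h) := by
  unfold Pool.Agent.SQS.hat
  refine continuous_of_dominated (bound := fun u => ‖h u‖) (fun t => ?_) (fun t => ?_) hh.norm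
    (ae_of_all _ fun u => ?_)
  · refine hh.aestronglyMeasurable.mul ?_
    refine Continuous.aestronglyMeasurable ?_
    fun_prop
  · refine ae_of_all _ fun u => ?_
    rw [norm_mul]
    have : ‖cexp (t * u * I)‖ = 1 := by
      have e : (t * u * I : ℂ) = ((t * u : ℝ) : ℂ) * I := by push_cast; rfl
      rw [e, norm_exp_ofReal_mul_I]
    rw [this, mul_one]
  · fun_prop

theorem rse_xrk_norm_cpow (k : ℕ) (z : ℂ) (hk : 0 < k) :
    ‖(k : ℂ) ^ z‖ = (k : ℝ) ^ z.re := norm_natCast_cpow_of_pos hk z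

/-- bounds uniform in `t` -/
theorem rse_xrk_LT_bound (S T : Finset ℕ) (hS : ∀ p ∈ S, p.Prime) (L : ℝ) (hL : 1 ≤ L) :
    ∃ B : ℝ, ∀ t : ℝ, ‖LT L S T t‖ ≤ B := by
  have hre : ∀ t : ℝ, (1 / 2 + 1 / (2 * L) + t * I : ℂ).re = 1 / 2 + 1 / (2 * L) := by
    intro t
    have : (1 / 2 + 1 / (2 * L) + t * I : ℂ) = ((1 / 2 + 1 / (2 * L) : ℝ) : ℂ) + t * I := by
      push_cast
      ring
    rw [this]
    simp
  have hx0 : xS S T 0 = 0 := by
    unfold xS
    rw [if_neg (fun h => h.1 rfl)]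
  have hn : ∀ (t : ℝ) (n : ℕ),
      ‖(xS S T n : ℂ) * (n : ℂ) ^ (-(1 / 2 + 1 / (2 * L) + t * I) : ℂ)‖ =
      |xS S T n| * (n : ℝ) ^ (-(1 / 2 + 1 / (2 * L))) := by
    intro t n
    rcases eq_or_ne n 0 with rfl | hn
    · rw [hx0]
      simp
    · rw [norm_mul, norm_real, Real.norm_eq_abs, rse_xrk_norm_cpow _ _ (Nat.pos_of_ne_zero hn),
        neg_re, hre]
  have hs := (xr1_eq S T hS (1 / 2 + 1 / (2 * L) + (0 : ℝ) * I : ℂ) (by
    rw [hre]
    positivity)).1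
  simp only [hn] at hs
  refine ⟨∑' n : ℕ, |xS S T n| * (n : ℝ) ^ (-(1 / 2 + 1 / (2 * L))), fun t => ?_⟩
  unfold LT
  exact tsum_of_norm_bounded hs.hasSum fun n => (hn t n).le

theorem rse_xrk_ph_bound (Θ : ℝ → ℝ) (L : ℝ) (R : ℕ) (S T : Finset ℕ) :
    ∃ B : ℝ, 0 ≤ B ∧ ∀ t : ℝ, ‖ph1 Θ L R S T t‖ ≤ B ∧ ‖ph2 Θ L R S T t‖ ≤ B := by
  have hre1 : ∀ t : ℝ, (-(1 / 2 + 1 / (2 * L) + t * I) : ℂ).re = -(1 / 2 + 1 / (2 * L)) := by
    intro t
    have : (-(1 / 2 + 1 / (2 * L) + t * I) : ℂ) = ((-(1 / 2 + 1 / (2 * L)) : ℝ) : ℂ) +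
        ((-t : ℝ) : ℂ) * I := by
      push_cast
      ring
    rw [this]
    simp
  have hre2 : ∀ t : ℝ, (-(1 / 2 - 1 / (2 * L) - t * I) : ℂ).re = -(1 / 2 - 1 / (2 * L)) := by
    intro t
    have : (-(1 / 2 - 1 / (2 * L) - t * I) : ℂ) = ((-(1 / 2 - 1 / (2 * L)) : ℝ) : ℂ) +
        ((t : ℝ) : ℂ) * I := by
      push_cast
      ring
    rw [this]
    simp
  set B1 := ∑ k ∈ KL L, |be Θ L R k * xS S T k| * (k : ℝ) ^ (-(1 / 2 + 1 / (2 * L))) with hB1
  set B2 := ∑ k ∈ KL L, |be Θ L R k * xS S T k| * (k : ℝ) ^ (-(1 / 2 - 1 / (2 * L))) with hB2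
  have h1 : 0 ≤ B1 := Finset.sum_nonneg fun k _ => by positivity
  have h2 : 0 ≤ B2 := Finset.sum_nonneg fun k _ => by positivity
  refine ⟨B1 + B2, by positivity, fun t => ⟨?_, ?_⟩⟩
  · refine le_trans ?_ (le_add_of_nonneg_right h2)
    unfold ph1
    refine (norm_sum_le _ _).trans (Finset.sum_le_sum fun k hk => ?_)
    rw [norm_mul, rse_xrk_norm_cpow _ _ (Finset.mem_Icc.1 hk).1, hre1, ← ofReal_mul, norm_real,
      Real.norm_eq_abs]
  · refine le_trans ?_ (le_add_of_nonneg_left h1)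
    unfold ph2
    refine (norm_sum_le _ _).trans (Finset.sum_le_sum fun k hk => ?_)
    rw [norm_mul, rse_xrk_norm_cpow _ _ (Finset.mem_Icc.1 hk).1, hre2, ← ofReal_mul, norm_real,
      Real.norm_eq_abs]

theorem rse_xrk_one {g Θ : ℝ → ℝ} (hg : Kern g) (S T : Finset ℕ) (hS : ∀ p ∈ S, p.Prime) (R : ℕ)
    (L : ℝ) (hL : 1 ≤ L) :
    Integrable (fun u : ℝ => (fX g Θ L R S T u * Real.exp (u / (2 * L))) ^ 2) ∧
    Integrable (fun t : ℝ =>
      ‖Mg g L t * (LT L S T t * (ph1 Θ L R S T t * ph2 Θ L R S T t))‖ ^ 2) ∧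
    ∫ u : ℝ, (fX g Θ L R S T u * Real.exp (u / (2 * L))) ^ 2 = (2 * Real.pi)⁻¹ *
      ∫ t : ℝ, ‖Mg g L t * (LT L S T t * (ph1 Θ L R S T t * ph2 Θ L R S T t))‖ ^ 2 := by
  obtain ⟨_, h2, h3⟩ := xr2_eq (Θ := Θ) hg S T hS R L hL
  set F : ℝ → ℂ := fun u => ((fX g Θ L R S T u * Real.exp (u / (2 * L)) : ℝ) : ℂ) with hF
  have hFi : Integrable F := h2.ofReal
  have hhat : ∀ t, Pool.Agent.SQS.hat F t =
      Mg g L t * (LT L S T t * (ph1 Θ L R S T t * ph2 Θ L R S T t)) := h3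
  obtain ⟨Cg, hCg, hgb⟩ := mg_bound hg
  obtain ⟨B, hB⟩ := rse_xrk_LT_bound S T hS L hL
  obtain ⟨B', hB'0, hB'⟩ := rse_xrk_ph_bound Θ L R S T
  have hB0 : 0 ≤ B := (norm_nonneg _).trans (hB 0)
  have hbd : ∀ t, ‖Pool.Agent.SQS.hat F t‖ ^ 2 ≤ (Cg * (B * (B' * B'))) ^ 2 * (1 + t ^ 2)⁻¹ := by
    intro t
    rw [hhat, norm_mul, norm_mul, norm_mul]
    have h4 : ‖Mg g L t‖ * (‖LT L S T t‖ * (‖ph1 Θ L R S T t‖ * ‖ph2 Θ L R S T t‖)) ≤
        Cg / (1 + t ^ 2) * (B * (B' * B')) := by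
      refine mul_le_mul (hgb L t hL) ?_ (by positivity) (by positivity)
      refine mul_le_mul (hB t) ?_ (by positivity) hB0
      exact mul_le_mul (hB' t).1 (hB' t).2 (by positivity) hB'0
    have h5 := pow_le_pow_left₀ (by positivity) h4 2
    refine h5.trans ?_
    have h6 : (Cg / (1 + t ^ 2) * (B * (B' * B'))) ^ 2 =
        (Cg * (B * (B' * B'))) ^ 2 * ((1 + t ^ 2)⁻¹ * (1 + t ^ 2)⁻¹) := by
      field_simp
    rw [h6]
    refine mul_le_mul_of_nonneg_left ?_ (by positivity)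
    have h7 : (1 + t ^ 2)⁻¹ ≤ 1 := inv_le_one_of_one_le₀ (by nlinarith [sq_nonneg t])
    exact mul_le_of_le_one_left (by positivity) h7
  have hint : Integrable (fun t => ‖Pool.Agent.SQS.hat F t‖ ^ 2) := by
    refine (integrable_inv_one_add_sq.const_mul ((Cg * (B * (B' * B'))) ^ 2)).mono' ?_
      (ae_of_all _ fun t => ?_)
    · exact ((rse_xrk_hat_cont hFi).norm.pow 2).aestronglyMeasurable
    · rw [norm_pow, norm_norm]
      exact hbd t
  obtain ⟨k1, k2⟩ := Pool.Agent.SQS.PL2 F hFi hint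
  have e1 : ∀ u, ‖F u‖ ^ 2 = (fX g Θ L R S T u * Real.exp (u / (2 * L))) ^ 2 := by
    intro u
    rw [hF]
    simp only
    rw [norm_real, Real.norm_eq_abs, sq_abs]
  simp only [e1] at k1 k2
  simp only [hhat] at hint k2
  refine ⟨k1, hint, ?_⟩
  rw [k2, ← mul_assoc, inv_mul_cancel₀ (by positivity), one_mul]

theorem xrk_bound_pr {g Θ : ℝ → ℝ} (hg : Kern g) (hΘ : Cut Θ) : ∃ C : ℝ, 0 < C ∧
    ∀ (S : Finset ℕ) (R : ℕ)
    (L a b : ℝ), (∀ p ∈ S, p.Prime ∧ p ≠ 2) → 0 < R → 1 ≤ L → a ≤ b →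
    ∫ u in a..b, avg S (fun T => fX g Θ L R S T u ^ 2) ≤ C * E1 R ^ 3 * Real.exp (-a / L) := by
  obtain ⟨Cg, hCg, hgb⟩ := mg_bound hg
  obtain ⟨C6, hC6, h6⟩ := xr6_bound hΘ
  refine ⟨Cg ^ 2 * C6 * Real.pi, by positivity, fun S R L a b hS hR hL hab => ?_⟩
  have hL0 : 0 < L := by linarith
  have hSp : ∀ p ∈ S, p.Prime := fun p hp => (hS p hp).1
  have hE : 0 ≤ E1 R := by
    unfold E1
    exact Finset.prod_nonneg fun p _ => by positivity
  have hone := fun T => rse_xrk_one (Θ := Θ) hg S T hSp R L hL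
  have hcont : ∀ T, Continuous (fX g Θ L R S T) := fun T => (xr2_eq (Θ := Θ) hg S T hSp R L hL).1
  set K : Finset ℕ → ℝ := fun T => ∫ u : ℝ, (fX g Θ L R S T u * Real.exp (u / (2 * L))) ^ 2 with hK
  -- the average of the Plancherel integrals
  have s1 : avg S K ≤ (2 * Real.pi)⁻¹ * ∫ t : ℝ, Cg ^ 2 * C6 * E1 R ^ 3 * (1 + t ^ 2)⁻¹ := by
    have e1 : avg S K = (2 * Real.pi)⁻¹ * ∫ t : ℝ, avg S (fun T =>
        ‖Mg g L t * (LT L S T t * (ph1 Θ L R S T t * ph2 Θ L R S T t))‖ ^ 2) := by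
      rw [← (rse_xrk_avg_int S _ fun T => (hone T).2.1).2, ← rse_xrk_avg_mul]
      congr 1
      funext T
      exact (hone T).2.2
    rw [e1]
    refine mul_le_mul_of_nonneg_left ?_ (by positivity)
    refine integral_mono (rse_xrk_avg_int S _ fun T => (hone T).2.1).1
      (integrable_inv_one_add_sq.const_mul _) fun t => ?_
    show avg S (fun T => ‖Mg g L t * (LT L S T t * (ph1 Θ L R S T t * ph2 Θ L R S T t))‖ ^ 2) ≤
      Cg ^ 2 * C6 * E1 R ^ 3 * (1 + t ^ 2)⁻¹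
    have e2 : avg S (fun T => ‖Mg g L t *
        (LT L S T t * (ph1 Θ L R S T t * ph2 Θ L R S T t))‖ ^ 2) = ‖Mg g L t‖ ^ 2 *
        avg S (fun T => ‖LT L S T t * (ph1 Θ L R S T t * ph2 Θ L R S T t)‖ ^ 2) := by
      rw [← rse_xrk_avg_mul]
      congr 1
      funext T
      rw [norm_mul, mul_pow]
    rw [e2]
    have h7 := pow_le_pow_left₀ (norm_nonneg _) (hgb L t hL) 2
    have h8 := h6 S R L t hS hR hL
    have h9 : (Cg / (1 + t ^ 2)) ^ 2 ≤ Cg ^ 2 * (1 + t ^ 2)⁻¹ := by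
      have h10 : (Cg / (1 + t ^ 2)) ^ 2 = Cg ^ 2 * ((1 + t ^ 2)⁻¹ * (1 + t ^ 2)⁻¹) := by
        field_simp
      rw [h10]
      refine mul_le_mul_of_nonneg_left ?_ (by positivity)
      have h11 : (1 + t ^ 2)⁻¹ ≤ 1 := inv_le_one_of_one_le₀ (by nlinarith [sq_nonneg t])
      exact mul_le_of_le_one_left (by positivity) h11
    have h12 : 0 ≤ C6 * E1 R ^ 3 := by positivity
    calc ‖Mg g L t‖ ^ 2 *
        avg S (fun T => ‖LT L S T t * (ph1 Θ L R S T t * ph2 Θ L R S T t)‖ ^ 2)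
        ≤ ‖Mg g L t‖ ^ 2 * (C6 * E1 R ^ 3) := mul_le_mul_of_nonneg_left h8 (by positivity)
      _ ≤ (Cg ^ 2 * (1 + t ^ 2)⁻¹) * (C6 * E1 R ^ 3) :=
          mul_le_mul_of_nonneg_right (h7.trans h9) h12
      _ = _ := by ring
  have s2 : avg S K ≤ Cg ^ 2 * C6 * E1 R ^ 3 := by
    refine s1.trans ?_
    rw [integral_const_mul, integral_univ_inv_one_add_sq]
    have h13 : (2 * Real.pi)⁻¹ * (Cg ^ 2 * C6 * E1 R ^ 3 * Real.pi) =
        Cg ^ 2 * C6 * E1 R ^ 3 / 2 := by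
      have := Real.pi_ne_zero
      field_simp
    rw [h13]
    exact half_le_self (by positivity)
  -- one sample
  have s3 : ∀ T, ∫ u in a..b, fX g Θ L R S T u ^ 2 ≤ Real.exp (-a / L) * K T := by
    intro T
    have i1 : IntervalIntegrable (fun u => fX g Θ L R S T u ^ 2) volume a b :=
      ((hcont T).pow 2).intervalIntegrable _ _
    have i2 := (hone T).1
    have h14 : ∫ u in a..b, fX g Θ L R S T u ^ 2 ≤ ∫ u in a..b,
        Real.exp (-a / L) * (fX g Θ L R S T u * Real.exp (u / (2 * L))) ^ 2 := by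
      refine intervalIntegral.integral_mono_on hab i1 (i2.intervalIntegrable.const_mul _)
        fun u hu => ?_
      have e3 : Real.exp (u / (2 * L)) ^ 2 = Real.exp (u / L) := by
        rw [← Real.exp_nat_mul]
        congr 1
        push_cast
        field_simp
      rw [mul_pow, e3]
      have e4 : Real.exp (-a / L) * (fX g Θ L R S T u ^ 2 * Real.exp (u / L)) =
          fX g Θ L R S T u ^ 2 * Real.exp ((u - a) / L) := by
        have : (u - a) / L = -a / L + u / L := by ring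
        rw [this, Real.exp_add]
        ring
      rw [e4]
      refine le_mul_of_one_le_right (sq_nonneg _) (Real.one_le_exp ?_)
      exact div_nonneg (by linarith [hu.1]) hL0.le
    refine h14.trans ?_
    rw [intervalIntegral.integral_const_mul]
    refine mul_le_mul_of_nonneg_left ?_ (Real.exp_pos _).le
    rw [intervalIntegral.integral_of_le hab]
    exact setIntegral_le_integral i2 (ae_of_all _ fun u => sq_nonneg _)
  have s4 : ∫ u in a..b, avg S (fun T => fX g Θ L R S T u ^ 2) =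
      avg S (fun T => ∫ u in a..b, fX g Θ L R S T u ^ 2) := by
    unfold avg
    rw [intervalIntegral.integral_div, intervalIntegral.integral_finsetSum]
    exact fun T _ => ((hcont T).pow 2).intervalIntegrable _ _
  rw [s4]
  refine (rse_xrk_avg_mono S s3).trans ?_
  rw [rse_xrk_avg_mul]
  have h15 : 0 ≤ Cg ^ 2 * C6 * E1 R ^ 3 := by positivity
  have h16 : (1 : ℝ) ≤ Real.pi := by linarith [Real.pi_gt_three]
  calc Real.exp (-a / L) * avg S K ≤ Real.exp (-a / L) * (Cg ^ 2 * C6 * E1 R ^ 3) :=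
        mul_le_mul_of_nonneg_left s2 (Real.exp_pos _).le
    _ ≤ Real.exp (-a / L) * (Cg ^ 2 * C6 * E1 R ^ 3 * Real.pi) :=
        mul_le_mul_of_nonneg_left (le_mul_of_one_le_right h15 h16) (Real.exp_pos _).le
    _ = _ := by ring

end Pool.Agent.RSE

namespace Pool.Agent.RSE

alias xrk_bound := xrk_bound_pr

end Pool.Agent.RSE
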