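import Pool.Agent.Lib_helper39.RSE.Defs
import Pool.Agent.Lib_helper39.RSA.DefsB
import Pool.Agent.Lib_helper39.RSA.XLIM
import Pool.Agent.Lib_helper39.RSA.XRK
/-!
# RSE, block RKM: limits of averages and the integrated diagonal
-/

namespace Pool.Agent.RSE

open Complex MeasureTheory Filter Topology
open Pool.Agent.RC (cc psi rv f0 IsRC Good gm pr DD)
open scoped ContDiff

theorem rse_rkm_fast {g : ℝ → ℝ} (hg : Kern g) : ∃ C : ℝ, 0 ≤ C ∧
    ∀ (n : ℕ) (v : ℝ), 0 < n → |g (Real.log n + v)| ≤ C * ((n : ℝ) ^ 2)⁻¹ * Real.exp (-2 * v) := by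
  obtain ⟨C, hC⟩ := hg.fast 0 2 (by norm_num)
  simp only [iteratedDeriv_zero] at hC
  refine ⟨C, ?_, ?_⟩
  · have := hC 0
    simp only [mul_zero, Real.exp_zero, mul_one] at this
    exact (abs_nonneg _).trans this
  · intro n v hn
    have h := hC (Real.log n + v)
    have hn' : (0 : ℝ) < n := by exact_mod_cast hn
    have e : Real.exp (-2 * (Real.log n + v)) = ((n : ℝ) ^ 2)⁻¹ * Real.exp (-2 * v) := by
      rw [mul_add, Real.exp_add]
      congr 1
      rw [show (-2 : ℝ) * Real.log n = -(Real.log ((n : ℝ) ^ 2)) by rw [Real.log_pow]; push_cast; ring,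
        Real.exp_neg, Real.exp_log (by positivity)]
    rw [e] at h
    rw [mul_assoc]
    exact h

theorem rse_rkm_inv_sqrt {n : ℕ} (hn : 0 < n) : 1 / √(n : ℝ) ≤ 1 := by
  have h1 : (1 : ℝ) ≤ √(n : ℝ) := Real.one_le_sqrt.mpr (by exact_mod_cast hn)
  rw [div_le_one (by linarith)]
  exact h1

theorem rse_rkm_sqs {g : ℝ → ℝ} (hg : Kern g) (m lam : ℕ) (c c' : ℝ) :
    Continuous (fun u : ℝ => SQs g m lam (u + c) (u + c')) := by
  obtain ⟨C, hC0, hC⟩ := rse_rkm_fast hg
  have hgc : Continuous g := hg.smooth.continuous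
  rw [continuous_iff_continuousAt]
  intro u0
  have key : ContinuousOn (fun u : ℝ => SQs g m lam (u + c) (u + c')) (Set.Ioi (u0 - 1)) := by
    unfold SQs
    have hs1 : Summable (fun n : ℕ => C * ((n : ℝ) ^ 2)⁻¹ * Real.exp (-2 * (u0 - 1 + c))) :=
      ((Real.summable_nat_pow_inv.mpr (by norm_num)).mul_left C).mul_right _
    have hs2 : Summable (fun n : ℕ => C * ((n : ℝ) ^ 2)⁻¹ * Real.exp (-2 * (u0 - 1 + c'))) :=
      ((Real.summable_nat_pow_inv.mpr (by norm_num)).mul_left C).mul_right _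
    refine continuousOn_tsum (u := fun p : ℕ × ℕ =>
      (C * ((p.1 : ℝ) ^ 2)⁻¹ * Real.exp (-2 * (u0 - 1 + c))) *
        (C * ((p.2 : ℝ) ^ 2)⁻¹ * Real.exp (-2 * (u0 - 1 + c')))) ?_ ?_ ?_
    · intro p
      split_ifs
      · exact (((hgc.comp (by fun_prop)).mul (hgc.comp (by fun_prop))).div_const _).continuousOn
      · exact continuousOn_const
    · exact Summable.mul_of_nonneg hs1 hs2 (fun n => by positivity) (fun n => by positivity)
    · intro p u hu
      have hu' : u0 - 1 < u := hu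
      split_ifs with h
      · obtain ⟨h1, h2, -, -⟩ := h
        have p1 : 0 < p.1 := h1.pos
        have p2 : 0 < p.2 := h2.pos
        rw [norm_div, norm_mul, Real.norm_eq_abs, Real.norm_eq_abs, Real.norm_eq_abs,
          abs_of_nonneg (Real.sqrt_nonneg _)]
        have hq : (1 : ℝ) ≤ √((p.1 : ℝ) * p.2) := by
          apply Real.one_le_sqrt.mpr
          have a1 : (1 : ℝ) ≤ p.1 := by exact_mod_cast p1
          have a2 : (1 : ℝ) ≤ p.2 := by exact_mod_cast p2
          nlinarith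
        refine (div_le_self (by positivity) hq).trans ?_
        refine mul_le_mul ?_ ?_ (abs_nonneg _) (by positivity)
        · refine (hC p.1 (u + c) p1).trans ?_
          refine mul_le_mul_of_nonneg_left (Real.exp_le_exp.mpr (by linarith)) (by positivity)
        · refine (hC p.2 (u + c') p2).trans ?_
          refine mul_le_mul_of_nonneg_left (Real.exp_le_exp.mpr (by linarith)) (by positivity)
      · rw [norm_zero]; positivity
  exact key.continuousAt (Ioi_mem_nhds (by linarith))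

theorem dg_cont_pr {g Θ : ℝ → ℝ} (hg : Kern g) (L : ℝ) (R m : ℕ) :
    Continuous (fun u : ℝ => Dg g Θ L R m u u) := by
  unfold Dg
  refine continuous_finsetSum _ fun a _ => continuous_finsetSum _ fun b _ =>
    continuous_finsetSum _ fun a' _ => continuous_finsetSum _ fun b' _ => ?_
  refine continuous_const.mul ?_
  simp only [add_sub_assoc]
  exact rse_rkm_sqs hg _ _ _ _

theorem rse_rkm_xS (S T : Finset ℕ) (n : ℕ) : |xS S T n| ≤ 1 := by
  unfold xS
  split_ifs
  · rw [Finset.abs_prod]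
    refine Finset.prod_le_one (fun _ _ => abs_nonneg _) fun p _ => ?_
    rw [abs_pow, abs_neg, abs_one, one_pow]
  · rw [abs_zero]; norm_num

theorem rse_rkm_fX {g Θ : ℝ → ℝ} (hg : Kern g) (L : ℝ) (R : ℕ) (S T : Finset ℕ) :
    Continuous (fX g Θ L R S T) := by
  obtain ⟨C, hC0, hC⟩ := rse_rkm_fast hg
  have hgc : Continuous g := hg.smooth.continuous
  have base : ∀ c : ℝ, Continuous fun u : ℝ =>
      ∑' n : ℕ, xS S T n / √(n : ℝ) * g (Real.log n + (u + c)) := by
    intro c
    rw [continuous_iff_continuousAt]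
    intro u0
    have hs1 : Summable (fun n : ℕ => C * ((n : ℝ) ^ 2)⁻¹ * Real.exp (-2 * (u0 - 1 + c))) :=
      ((Real.summable_nat_pow_inv.mpr (by norm_num)).mul_left C).mul_right _
    have key : ContinuousOn (fun u : ℝ =>
        ∑' n : ℕ, xS S T n / √(n : ℝ) * g (Real.log n + (u + c))) (Set.Ioi (u0 - 1)) := by
      refine continuousOn_tsum (u := fun n : ℕ => C * ((n : ℝ) ^ 2)⁻¹ *
        Real.exp (-2 * (u0 - 1 + c))) ?_ hs1 ?_
      · intro n
        exact (continuous_const.mul (hgc.comp (by fun_prop))).continuousOn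
      · intro n u hu
        have hu' : u0 - 1 < u := hu
        rcases Nat.eq_zero_or_pos n with rfl | hn
        · have : xS S T 0 = 0 := by unfold xS; rw [if_neg (by simp)]
          rw [this, zero_div, zero_mul, norm_zero]; positivity
        · rw [norm_mul, norm_div, Real.norm_eq_abs, Real.norm_eq_abs, Real.norm_eq_abs,
            abs_of_nonneg (Real.sqrt_nonneg _)]
          have h1 : |xS S T n| / √(n : ℝ) ≤ 1 := by
            refine le_trans ?_ (rse_rkm_inv_sqrt hn)
            exact div_le_div_of_nonneg_right (rse_rkm_xS S T n) (Real.sqrt_nonneg _)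
          calc |xS S T n| / √(n : ℝ) * |g (Real.log n + (u + c))|
              ≤ 1 * (C * ((n : ℝ) ^ 2)⁻¹ * Real.exp (-2 * (u + c))) :=
                mul_le_mul h1 (hC n (u + c) hn) (abs_nonneg _) zero_le_one
            _ = C * ((n : ℝ) ^ 2)⁻¹ * Real.exp (-2 * (u + c)) := one_mul _
            _ ≤ _ := mul_le_mul_of_nonneg_left (Real.exp_le_exp.mpr (by linarith))
                (by positivity)
    exact key.continuousAt (Ioi_mem_nhds (by linarith))
  have e : fX g Θ L R S T = fun u => ∑ k ∈ KL L, ∑ l ∈ KL L,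
      be Θ L R k * be Θ L R l * xS S T (k * l) / √((k : ℝ) * l) *
      ∑' n : ℕ, xS S T n / √(n : ℝ) * g (Real.log n + (u + (Real.log k - Real.log l))) := by
    funext u
    unfold fX
    simp only [add_sub_assoc]
  rw [e]
  exact continuous_finsetSum _ fun k _ => continuous_finsetSum _ fun l _ =>
    continuous_const.mul (base _)

theorem rse_rkm_avg_nonneg (S : Finset ℕ) (F : Finset ℕ → ℝ) (hF : ∀ T, 0 ≤ F T) :
    0 ≤ avg S F := by
  unfold avg
  exact div_nonneg (Finset.sum_nonneg fun T _ => hF T) (by positivity)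

theorem rse_rkm_avg_mono (S : Finset ℕ) (F G : Finset ℕ → ℝ) (h : ∀ T, F T ≤ G T) :
    avg S F ≤ avg S G := by
  unfold avg
  exact div_le_div_of_nonneg_right (Finset.sum_le_sum fun T _ => h T) (by positivity)

theorem rse_rkm_avg_abs (S : Finset ℕ) (F : Finset ℕ → ℝ) :
    |avg S F| ≤ avg S (fun T => |F T|) := by
  unfold avg
  rw [abs_div, abs_of_pos (show (0 : ℝ) < 2 ^ S.card by positivity)]
  exact div_le_div_of_nonneg_right (Finset.abs_sum_le_sum_abs _ _) (by positivity)

theorem rse_rkm_avg_half (S : Finset ℕ) (F G : Finset ℕ → ℝ) :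
    avg S (fun T => (F T + G T) / 2) = (avg S F + avg S G) / 2 := by
  unfold avg
  rw [← Finset.sum_div, Finset.sum_add_distrib]
  ring

theorem dg_nonneg_pr {g Θ : ℝ → ℝ} (hg : Kern g) (L : ℝ) (R m : ℕ) (hm : 0 < m) (u : ℝ) :
    0 ≤ Dg g Θ L R m u u := by
  refine ge_of_tendsto' (x_lim (Θ := Θ) hg L R m hm u u) fun Y => ?_
  exact rse_rkm_avg_nonneg _ _ fun T => mul_self_nonneg _

theorem dg_cs_pr {g Θ : ℝ → ℝ} (hg : Kern g) (L : ℝ) (R m : ℕ) (hm : 0 < m) (u u' : ℝ) :
    |Dg g Θ L R m u u'| ≤ (Dg g Θ L R m u u + Dg g Θ L R m u' u') / 2 := by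
  have h1 := (x_lim (Θ := Θ) hg L R m hm u u').abs
  have h2 := ((x_lim (Θ := Θ) hg L R m hm u u).add (x_lim (Θ := Θ) hg L R m hm u' u')).div_const 2
  refine le_of_tendsto_of_tendsto' h1 h2 fun Y => ?_
  refine (rse_rkm_avg_abs _ _).trans ?_
  rw [← rse_rkm_avg_half]
  refine rse_rkm_avg_mono _ _ _ fun T => ?_
  rw [abs_mul]
  nlinarith [sq_nonneg (|fX g Θ L R (SY m Y) T u| - |fX g Θ L R (SY m Y) T u'|),
    sq_abs (fX g Θ L R (SY m Y) T u), sq_abs (fX g Θ L R (SY m Y) T u')]

theorem rse_rkm_E1 (n : ℕ) : 0 ≤ E1 n := by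
  unfold E1
  exact Finset.prod_nonneg fun p _ => by positivity

theorem rkm_bound_pr {g Θ : ℝ → ℝ} (hg : Kern g) (hΘ : Cut Θ) : ∃ C : ℝ, 0 < C ∧ ∀ (R m : ℕ)
    (L a b : ℝ), 0 < R → 0 < m → 1 ≤ L → a ≤ b →
    ∫ u in a..b, Dg g Θ L R m u u ≤ C * E1 R ^ 3 * Real.exp (-a / L) := by
  obtain ⟨C, hC0, hC⟩ := xrk_bound hg hΘ
  refine ⟨C, hC0, fun R m L a b hR hm hL hab => ?_⟩
  have hB : 0 ≤ C * E1 R ^ 3 * Real.exp (-a / L) := by
    have := rse_rkm_E1 R
    positivity
  have hcont : ∀ Y : ℕ, Continuous fun u => avg (SY m Y)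
      (fun T => fX g Θ L R (SY m Y) T u ^ 2) := by
    intro Y
    unfold avg
    exact (continuous_finsetSum _ fun T _ => (rse_rkm_fX hg L R _ T).pow 2).div_const _
  have hnn : ∀ (Y : ℕ) (u : ℝ), 0 ≤ avg (SY m Y) (fun T => fX g Θ L R (SY m Y) T u ^ 2) :=
    fun Y u => rse_rkm_avg_nonneg _ _ fun T => sq_nonneg _
  have hS : ∀ Y : ℕ, ∀ p ∈ SY m Y, p.Prime ∧ p ≠ 2 := by
    intro Y p hp
    unfold SY at hp
    rw [Finset.mem_filter] at hp
    obtain ⟨hp1, hp2, -⟩ := hp
    unfold Pool.Agent.RC.pr at hp1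
    rw [Finset.mem_filter] at hp1
    exact ⟨hp1.2, hp2⟩
  have hlim : ∀ u : ℝ, Tendsto (fun Y : ℕ => ENNReal.ofReal (avg (SY m Y)
      (fun T => fX g Θ L R (SY m Y) T u ^ 2))) atTop (𝓝 (ENNReal.ofReal (Dg g Θ L R m u u))) := by
    intro u
    refine (ENNReal.continuous_ofReal.tendsto _).comp ?_
    have := x_lim (Θ := Θ) hg L R m hm u u
    refine this.congr fun Y => ?_
    simp only [pow_two]
  rw [intervalIntegral.integral_of_le hab,
    integral_eq_lintegral_of_nonneg_ae (ae_of_all _ fun u => dg_nonneg_pr hg L R m hm u)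
      (dg_cont_pr hg L R m).aestronglyMeasurable]
  refine ENNReal.toReal_le_of_le_ofReal hB ?_
  calc ∫⁻ u in Set.Ioc a b, ENNReal.ofReal (Dg g Θ L R m u u)
      = ∫⁻ u in Set.Ioc a b, liminf (fun Y : ℕ => ENNReal.ofReal (avg (SY m Y)
          (fun T => fX g Θ L R (SY m Y) T u ^ 2))) atTop := by
        refine lintegral_congr fun u => ?_
        rw [(hlim u).liminf_eq]
    _ ≤ liminf (fun Y : ℕ => ∫⁻ u in Set.Ioc a b, ENNReal.ofReal (avg (SY m Y)
          (fun T => fX g Θ L R (SY m Y) T u ^ 2))) atTop :=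
        lintegral_liminf_le fun Y => (hcont Y).measurable.ennreal_ofReal
    _ ≤ ENNReal.ofReal (C * E1 R ^ 3 * Real.exp (-a / L)) := by
        refine liminf_le_of_le (by isBoundedDefault) fun x hx => ?_
        rw [eventually_atTop] at hx
        obtain ⟨Y, hY⟩ := hx
        refine (hY Y le_rfl).trans ?_
        have hint : IntegrableOn (fun u => avg (SY m Y)
            (fun T => fX g Θ L R (SY m Y) T u ^ 2)) (Set.Ioc a b) :=
          ((hcont Y).integrableOn_Icc (a := a) (b := b)).mono_set Set.Ioc_subset_Icc_self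
        rw [← ofReal_integral_eq_lintegral_ofReal hint (ae_of_all _ fun u => hnn Y u)]
        refine ENNReal.ofReal_le_ofReal ?_
        rw [← intervalIntegral.integral_of_le hab]
        exact hC (SY m Y) R L a b (hS Y) hR hL hab

end Pool.Agent.RSE

namespace Pool.Agent.RSE

alias dg_cont := dg_cont_pr

alias dg_nonneg := dg_nonneg_pr

alias dg_cs := dg_cs_pr

alias rkm_bound := rkm_bound_pr

end Pool.Agent.RSE
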