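import Pool.Agent.Lib_helper39.RSE.Defs
import Pool.Agent.Lib_helper39.RSA.DefsB
import Pool.Agent.Lib_helper39.RSA.AVE
import Pool.Agent.Lib_helper39.RSA.DIM
import Pool.Agent.Lib_helper39.RSA.RKM
/-!
# RSE, block DU: the diagonal at one point
-/

namespace Pool.Agent.RSE

open Complex MeasureTheory Filter Topology
open scoped ContDiff

theorem rse_du_E1_one (n : ℕ) : 1 ≤ E1 n := by
  unfold E1
  calc (1 : ℝ) = ∏ p ∈ n.primeFactors, (1 : ℝ) := by simp
    _ ≤ _ := by
        apply Finset.prod_le_prod (fun _ _ => zero_le_one)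
        intro p _
        have : (0 : ℝ) ≤ 1 / √(p : ℝ) := by positivity
        linarith

theorem rse_du_fam_pos {c : ℕ} {K : ℝ} (hc : OC c) {m : ℕ} (hm : m ∈ fam c K) : 0 < m := by
  unfold fam at hm
  rw [Finset.mem_filter, Finset.mem_range] at hm
  unfold OC at hc
  omega

theorem rse_du_exp {L : ℝ} (hL : 1 ≤ L) : Real.exp (-(9 * L)) ≤ 1 / L := by
  have h0 : 0 < L := by linarith
  have h1 : L ≤ Real.exp (9 * L) := by
    have := Real.add_one_le_exp (9 * L)
    linarith
  rw [Real.exp_neg, ← one_div]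
  exact one_div_le_one_div_of_le h0 h1

/-- DU (cites DIM, RKM, AVE). -/
theorem du_bound_pr {φ g Θ : ℝ → ℝ} (hφ : Bump φ) (hg : Kern g) (hΘ : Cut Θ) : ∃ C : ℝ, 0 < C ∧
    ∀ (c R : ℕ) (L K u : ℝ), OC c → 0 < R → 1 ≤ L → 0 < K → u ≤ -(200 * L) →
    Df φ g Θ L R c K u u ≤ C * E1 R ^ 3 * K / L := by
  obtain ⟨C1, hC1, h1⟩ := dim_bound hg hΘ
  obtain ⟨C2, hC2, h2⟩ := rkm_bound hg hΘ
  obtain ⟨C3, hC3, h3⟩ := ave_E1
  refine ⟨C3 * (C2 * Real.exp 201 + 2 * C1), by positivity, ?_⟩
  intro c R L K u hc hR hL hK hu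
  have hL0 : 0 < L := by linarith
  have hER : 1 ≤ E1 R ^ 3 := one_le_pow₀ (rse_du_E1_one R)
  have key : ∀ m : ℕ, 0 < m → Dg g Θ L R m u u ≤
      (C2 * Real.exp 201 + 2 * C1) * E1 R ^ 3 / L * E1 m ^ 3 := by
    intro m hm
    have hEm : 1 ≤ E1 m ^ 3 := one_le_pow₀ (rse_du_E1_one m)
    have hpt : ∀ w ∈ Set.Icc (-(201 * L)) (-(200 * L)), Dg g Θ L R m u u ≤
        Dg g Θ L R m w w + 2 * C1 * Real.exp (-(9 * L)) * E1 m ^ 3 := by
      intro w hw
      have h4 := (h1 L R m u u hL hm).2 (w - u)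
      rw [show u + (w - u) = w by ring] at h4
      have h5 := (abs_le.1 h4).1
      have h6 : Real.exp (u / 8) ≤ Real.exp (-(25 * L)) := Real.exp_le_exp.2 (by linarith)
      have h7 : Real.exp (w / 8) ≤ Real.exp (-(25 * L)) :=
        Real.exp_le_exp.2 (by have := hw.2; linarith)
      have h8 : C1 * Real.exp (16 * L) * E1 m ^ 3 * (Real.exp (u / 8) + Real.exp (w / 8)) ≤
          C1 * Real.exp (16 * L) * E1 m ^ 3 * (2 * Real.exp (-(25 * L))) := by
        apply mul_le_mul_of_nonneg_left _ (by positivity)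
        linarith
      have h9 : C1 * Real.exp (16 * L) * E1 m ^ 3 * (2 * Real.exp (-(25 * L))) =
          2 * C1 * Real.exp (-(9 * L)) * E1 m ^ 3 := by
        have : Real.exp (-(9 * L)) = Real.exp (16 * L) * Real.exp (-(25 * L)) := by
          rw [← Real.exp_add]
          congr 1
          ring
        rw [this]
        ring
      linarith
    have hle : -(201 * L) ≤ -(200 * L) := by linarith
    have hcont := dg_cont (Θ := Θ) hg L R m
    have hint : ∫ w in (-(201 * L))..(-(200 * L)), Dg g Θ L R m u u ≤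
        ∫ w in (-(201 * L))..(-(200 * L)),
          (Dg g Θ L R m w w + 2 * C1 * Real.exp (-(9 * L)) * E1 m ^ 3) := by
      apply intervalIntegral.integral_mono_on hle
      · exact intervalIntegrable_const
      · exact (hcont.add continuous_const).intervalIntegrable _ _
      · exact hpt
    rw [intervalIntegral.integral_const, intervalIntegral.integral_add
      (hcont.intervalIntegrable _ _) intervalIntegrable_const,
      intervalIntegral.integral_const, smul_eq_mul, smul_eq_mul,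
      show -(200 * L) - -(201 * L) = L by ring] at hint
    have h10 := h2 R m L (-(201 * L)) (-(200 * L)) hR hm hL hle
    rw [show -(-(201 * L)) / L = 201 by field_simp] at h10
    have h11 : L * Dg g Θ L R m u u ≤ C2 * E1 R ^ 3 * Real.exp 201 +
        L * (2 * C1 * Real.exp (-(9 * L)) * E1 m ^ 3) := by linarith
    have h12 : Dg g Θ L R m u u ≤ C2 * E1 R ^ 3 * Real.exp 201 / L +
        2 * C1 * Real.exp (-(9 * L)) * E1 m ^ 3 := by
      have h13 : Dg g Θ L R m u u ≤ (C2 * E1 R ^ 3 * Real.exp 201 +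
        L * (2 * C1 * Real.exp (-(9 * L)) * E1 m ^ 3)) / L := by
        rw [le_div_iff₀ hL0]
        linarith
      refine h13.trans (le_of_eq ?_)
      field_simp
    have h14 : 2 * C1 * Real.exp (-(9 * L)) * E1 m ^ 3 ≤ 2 * C1 * (1 / L) * E1 m ^ 3 := by
      apply mul_le_mul_of_nonneg_right _ (by positivity)
      exact mul_le_mul_of_nonneg_left (rse_du_exp hL) (by positivity)
    have h15 : 2 * C1 * (1 / L) * E1 m ^ 3 ≤ 2 * C1 * (1 / L) * E1 m ^ 3 * E1 R ^ 3 :=
      le_mul_of_one_le_right (by positivity) hER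
    have h16 : C2 * E1 R ^ 3 * Real.exp 201 / L ≤
        C2 * E1 R ^ 3 * Real.exp 201 / L * E1 m ^ 3 :=
      le_mul_of_one_le_right (by positivity) hEm
    calc Dg g Θ L R m u u ≤ C2 * E1 R ^ 3 * Real.exp 201 / L * E1 m ^ 3 +
          2 * C1 * (1 / L) * E1 m ^ 3 * E1 R ^ 3 := by linarith
      _ = _ := by ring
  unfold Df
  calc ∑ m ∈ fam c K, φ (m / K) * Dg g Θ L R m u u
      ≤ ∑ m ∈ fam c K, (C2 * Real.exp 201 + 2 * C1) * E1 R ^ 3 / L * E1 m ^ 3 := by
        apply Finset.sum_le_sum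
        intro m hm
        have hm0 := rse_du_fam_pos hc hm
        have h0 := dg_nonneg (Θ := Θ) hg L R m hm0 u
        calc φ (m / K) * Dg g Θ L R m u u ≤ 1 * Dg g Θ L R m u u :=
              mul_le_mul_of_nonneg_right (hφ.le _) h0
          _ = Dg g Θ L R m u u := one_mul _
          _ ≤ _ := key m hm0
    _ = (C2 * Real.exp 201 + 2 * C1) * E1 R ^ 3 / L * ∑ m ∈ fam c K, E1 m ^ 3 := by
        rw [Finset.mul_sum]
    _ ≤ (C2 * Real.exp 201 + 2 * C1) * E1 R ^ 3 / L * (C3 * K) :=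
        mul_le_mul_of_nonneg_left (h3 c K hc hK) (by positivity)
    _ = _ := by ring

end Pool.Agent.RSE

namespace Pool.Agent.RSE

alias du_bound := du_bound_pr

end Pool.Agent.RSE
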