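import Pool.Agent.Lib_helper39.RSE.Defs
import Pool.Agent.Lib_helper39.RSA.DefsB
import Pool.Agent.Lib_helper24.ABS.Endgame
import Pool.Agent.Lib_helper39.RCA.RGD
import Pool.Agent.Lib_helper39.RSA.FEK
/-!
# RSE block FEF
-/

namespace Pool.Agent.RSE

open Complex MeasureTheory Filter Topology
open Pool.Agent.RC (cc psi rv f0 IsRC Good gm pr DD)
open scoped ContDiff

theorem fef_eq_pr {κ : ℕ} {j : Fin 4} {m : ℕ} (hm : 2 ≤ m)
    {χ : DirichletCharacter ℂ (cc j * m)} (h : IsRC κ j m χ) (i : ℕ) (Θ : ℝ → ℝ) (L : ℝ)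
    (R : ℕ) (u : ℝ) : |ff (gk κ i) Θ L R j m (-Real.log ((cc j * m : ℕ) : ℝ) - u)| =
      |ff (gk κ i) Θ L R j m u| := by
  obtain ⟨w, hw, hfe⟩ := fek_eq hm h i
  have h1 : ff (gk κ i) Θ L R j m (-Real.log ((cc j * m : ℕ) : ℝ) - u) =
      w * ff (gk κ i) Θ L R j m u := by
    unfold ff
    rw [Finset.sum_comm, Finset.mul_sum]
    refine Finset.sum_congr rfl fun k _ => ?_
    rw [Finset.mul_sum]
    refine Finset.sum_congr rfl fun l _ => ?_
    have h2 := hfe (u + Real.log k - Real.log l)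
    rw [show -Real.log ((cc j * m : ℕ) : ℝ) - (u + Real.log k - Real.log l) =
      -Real.log ((cc j * m : ℕ) : ℝ) - u + Real.log l - Real.log k by ring] at h2
    rw [h2, mul_comm l k, mul_comm (l : ℝ) (k : ℝ)]
    ring
  rw [h1, abs_mul, hw, one_mul]

end Pool.Agent.RSE

namespace Pool.Agent.RSE

alias fef_eq := fef_eq_pr

end Pool.Agent.RSE
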