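import Pool.Agent.Lib_helper39.RSE.Defs
import Pool.Agent.Lib_helper39.RSA.DefsB
import Mathlib.Analysis.Distribution.SchwartzSpace.Fourier
/-!
# RSE, block FHD: the Fourier transform of a bump function is smooth and decays fast
-/

namespace Pool.Agent.RSE

open Complex MeasureTheory Filter Topology
open scoped ContDiff FourierTransform SchwartzMap

theorem rse_FHD_compact {φ : ℝ → ℝ} (hφ : Bump φ) :
    HasCompactSupport (fun x : ℝ => (φ x : ℂ)) := by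
  refine HasCompactSupport.intro (isCompact_Icc (a := (1 / 2 : ℝ)) (b := 4)) ?_
  intro x hx
  have : x < 1 / 2 ∨ 4 < x := by
    by_contra h
    push Not at h
    exact hx ⟨h.1, h.2⟩
  simp [hφ.supp x this]

theorem rse_FHD_smooth {φ : ℝ → ℝ} (hφ : Bump φ) :
    ContDiff ℝ ∞ (fun x : ℝ => (φ x : ℂ)) :=
  Complex.ofRealCLM.contDiff.comp hφ.smooth

/-- The bump function as a Schwartz function. -/
noncomputable def rse_FHD_sch {φ : ℝ → ℝ} (hφ : Bump φ) : 𝓢(ℝ, ℂ) :=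
  (rse_FHD_compact hφ).toSchwartzMap (rse_FHD_smooth hφ)

theorem rse_FHD_eq {φ : ℝ → ℝ} (hφ : Bump φ) :
    fhat φ = ((𝓕 (rse_FHD_sch hφ) : 𝓢(ℝ, ℂ)) : ℝ → ℂ) := by
  funext w
  rw [SchwartzMap.fourier_coe, Real.fourier_real_eq_integral_exp_smul]
  unfold fhat
  refine integral_congr_ae (Eventually.of_forall fun x => ?_)
  have h1 : (rse_FHD_sch hφ) x = (φ x : ℂ) := rfl
  simp only [h1, smul_eq_mul]
  rw [mul_comm]
  congr 2
  push_cast
  ring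

/-- FHD. -/
theorem fhat_smooth_pr {φ : ℝ → ℝ} (hφ : Bump φ) : ContDiff ℝ ∞ (fhat φ) := by
  rw [rse_FHD_eq hφ]
  exact (𝓕 (rse_FHD_sch hφ) : 𝓢(ℝ, ℂ)).smooth ⊤

theorem fhat_decay_pr {φ : ℝ → ℝ} (hφ : Bump φ) (A : ℕ) : ∃ C : ℝ, 0 < C ∧ ∀ x : ℝ, x ≠ 0 →
    ‖fhat φ x‖ ≤ C / |x| ^ A ∧ ‖(x : ℂ) * deriv (fhat φ) x‖ ≤ C / |x| ^ A := by
  obtain ⟨C0, hC0, h0⟩ := (𝓕 (rse_FHD_sch hφ) : 𝓢(ℝ, ℂ)).decay A 0
  obtain ⟨C1, hC1, h1⟩ := (𝓕 (rse_FHD_sch hφ) : 𝓢(ℝ, ℂ)).decay (A + 1) 1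
  rw [← rse_FHD_eq hφ] at h0 h1
  refine ⟨C0 + C1, by positivity, fun x hx => ?_⟩
  have hx' : 0 < |x| := abs_pos.mpr hx
  have hp : 0 < |x| ^ A := by positivity
  constructor
  · rw [le_div_iff₀ hp]
    have := h0 x
    rw [norm_iteratedFDeriv_zero, Real.norm_eq_abs] at this
    nlinarith
  · rw [le_div_iff₀ hp]
    have := h1 x
    rw [norm_iteratedFDeriv_eq_norm_iteratedDeriv, iteratedDeriv_one, Real.norm_eq_abs] at this
    rw [norm_mul, Complex.norm_real, Real.norm_eq_abs]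
    have e : |x| * ‖deriv (fhat φ) x‖ * |x| ^ A = |x| ^ (A + 1) * ‖deriv (fhat φ) x‖ := by ring
    rw [e]
    linarith

end Pool.Agent.RSE

namespace Pool.Agent.RSE

alias fhat_smooth := fhat_smooth_pr

alias fhat_decay := fhat_decay_pr

end Pool.Agent.RSE
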