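import Pool.Agent.Lib_helper39.RSE.Defs
import Pool.Agent.Lib_helper39.RSA.DefsB
import Pool.Agent.Lib_helper39.RSA.KG1
/-! RSE block KG2 : `gk_deriv`, `kern_gk` -/

namespace Pool.Agent.RSE

open Complex MeasureTheory Filter Topology
open Pool.Agent.RC (cc psi rv f0 IsRC Good gm pr DD)
open scoped ContDiff

/-- `e^{cz} P(e^{2z}) exp(-π e^{2z})`. -/
noncomputable def rse_kg2_F (c : ℝ) (P : Polynomial ℝ) (z : ℝ) : ℝ :=
  Real.exp (c * z) * P.eval (Real.exp (2 * z)) * Real.exp (-Real.pi * Real.exp (2 * z))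

/-- The operator. -/
noncomputable def rse_kg2_T (c : ℝ) (P : Polynomial ℝ) : Polynomial ℝ :=
  Polynomial.C c * P + 2 * Polynomial.X * Polynomial.derivative P -
    Polynomial.C (2 * Real.pi) * Polynomial.X * P

theorem rse_kg2_hasDeriv (c : ℝ) (P : Polynomial ℝ) (z : ℝ) :
    HasDerivAt (rse_kg2_F c P) (rse_kg2_F c (rse_kg2_T c P) z) z := by
  have h1 : HasDerivAt (fun z : ℝ => Real.exp (c * z)) (Real.exp (c * z) * c) z := by
    simpa using ((hasDerivAt_id z).const_mul c).exp
  have h2 : HasDerivAt (fun z : ℝ => Real.exp (2 * z)) (Real.exp (2 * z) * 2) z := by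
    simpa using ((hasDerivAt_id z).const_mul 2).exp
  have h3 : HasDerivAt (fun z : ℝ => P.eval (Real.exp (2 * z)))
      ((Polynomial.derivative P).eval (Real.exp (2 * z)) * (Real.exp (2 * z) * 2)) z :=
    HasDerivAt.comp (h₂ := fun y : ℝ => P.eval y) z (P.hasDerivAt (Real.exp (2 * z))) h2
  have h4 : HasDerivAt (fun z : ℝ => Real.exp (-Real.pi * Real.exp (2 * z)))
      (Real.exp (-Real.pi * Real.exp (2 * z)) * (-Real.pi * (Real.exp (2 * z) * 2))) z :=
    (h2.const_mul (-Real.pi)).exp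
  have h5 : HasDerivAt (rse_kg2_F c P) _ z := (h1.mul h3).mul h4
  refine h5.congr_deriv ?_
  simp only [rse_kg2_F, rse_kg2_T, Polynomial.eval_sub, Polynomial.eval_add, Polynomial.eval_mul,
    Polynomial.eval_C, Polynomial.eval_X, Polynomial.eval_ofNat, Pi.mul_apply]
  ring

theorem rse_kg2_deriv (c : ℝ) (P : Polynomial ℝ) :
    deriv (rse_kg2_F c P) = rse_kg2_F c (rse_kg2_T c P) :=
  funext fun z => (rse_kg2_hasDeriv c P z).deriv

theorem rse_kg2_iter (c : ℝ) (P : Polynomial ℝ) (n : ℕ) :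
    iteratedDeriv n (rse_kg2_F c P) = rse_kg2_F c ((rse_kg2_T c)^[n] P) := by
  induction n generalizing P with
  | zero => simp
  | succ n ih => rw [iteratedDeriv_succ', rse_kg2_deriv, ih, Function.iterate_succ_apply]

theorem rse_kg2_smooth (c : ℝ) (P : Polynomial ℝ) : ContDiff ℝ ∞ (rse_kg2_F c P) := by
  unfold rse_kg2_F
  have h1 : ContDiff ℝ ∞ (fun z : ℝ => P.eval (Real.exp (2 * z))) :=
    (show ContDiff ℝ ∞ (fun y : ℝ => P.eval y) by
      simpa using (P.contDiff_aeval (𝕜 := ℝ) (n := ∞))).comp (by fun_prop)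
  fun_prop

theorem rse_kg2_T_coeff (c : ℝ) (P : Polynomial ℝ) :
    (rse_kg2_T c P).coeff 0 = c * P.coeff 0 := by
  simp [rse_kg2_T, mul_assoc]

theorem rse_kg2_T_iter_coeff (c : ℝ) (P : Polynomial ℝ) (n : ℕ) :
    ((rse_kg2_T c)^[n] P).coeff 0 = c ^ n * P.coeff 0 := by
  induction n generalizing P with
  | zero => simp
  | succ n ih => rw [Function.iterate_succ_apply, ih, rse_kg2_T_coeff]; ring

theorem rse_kg2_bd1 {t : ℝ} (ht : 0 ≤ t) : ∃ C : ℝ, ∀ z : ℝ,
    Real.exp (t * z) * Real.exp (-Real.pi * Real.exp (2 * z)) ≤ C := by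
  obtain ⟨n, hn⟩ := exists_nat_ge (t / 2)
  refine ⟨1 + n.factorial, fun z => ?_⟩
  have hx : 0 < Real.exp (2 * z) := Real.exp_pos _
  rw [neg_mul, Real.exp_neg, ← div_eq_mul_inv, div_le_iff₀ (Real.exp_pos _)]
  have h1 : Real.exp (t * z) ≤ 1 + Real.exp (2 * z) ^ n := by
    rcases le_total z 0 with hz | hz
    · have : Real.exp (t * z) ≤ 1 := Real.exp_le_one_iff.mpr (mul_nonpos_of_nonneg_of_nonpos ht hz)
      have := pow_pos hx n
      linarith
    · have : Real.exp (t * z) ≤ Real.exp (2 * z) ^ n := by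
        rw [← Real.exp_nat_mul]
        apply Real.exp_le_exp.mpr
        nlinarith
      linarith
  have hxp : Real.exp (2 * z) ≤ Real.pi * Real.exp (2 * z) := by
    have := Real.two_le_pi
    nlinarith
  have h2 : Real.exp (2 * z) ^ n ≤ n.factorial * Real.exp (Real.pi * Real.exp (2 * z)) := by
    have h3 := Real.pow_div_factorial_le_exp (Real.exp (2 * z)) hx.le n
    have h4 : (0 : ℝ) < n.factorial := by exact_mod_cast n.factorial_pos
    rw [div_le_iff₀ h4] at h3
    calc _ ≤ _ := h3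
      _ ≤ _ := by
        rw [mul_comm]
        exact mul_le_mul_of_nonneg_left (Real.exp_le_exp.mpr hxp) h4.le
  have h5 : 1 ≤ Real.exp (Real.pi * Real.exp (2 * z)) := by
    apply Real.one_le_exp
    positivity
  nlinarith

theorem rse_kg2_bd (c : ℝ) (P : Polynomial ℝ) (A : ℝ) (hA : 0 ≤ c + A) : ∃ C : ℝ, ∀ z : ℝ,
    |rse_kg2_F c P z| ≤ C * Real.exp (-A * z) := by
  induction P using Polynomial.induction_on' with
  | add p q hp hq =>
    obtain ⟨C1, h1⟩ := hp
    obtain ⟨C2, h2⟩ := hq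
    refine ⟨C1 + C2, fun z => ?_⟩
    have : rse_kg2_F c (p + q) z = rse_kg2_F c p z + rse_kg2_F c q z := by
      simp only [rse_kg2_F, Polynomial.eval_add]; ring
    rw [this, add_mul]
    exact (abs_add_le _ _).trans (add_le_add (h1 z) (h2 z))
  | monomial n a =>
    obtain ⟨C, hC⟩ := rse_kg2_bd1 (t := c + A + 2 * n) (by positivity)
    refine ⟨|a| * C, fun z => ?_⟩
    have h1 : rse_kg2_F c (Polynomial.monomial n a) z =
        a * (Real.exp ((c + A + 2 * n) * z) * Real.exp (-Real.pi * Real.exp (2 * z))) *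
          Real.exp (-A * z) := by
      simp only [rse_kg2_F, Polynomial.eval_monomial]
      have : Real.exp ((c + A + 2 * n) * z) =
          Real.exp (c * z) * Real.exp (A * z) * Real.exp (2 * z) ^ n := by
        rw [← Real.exp_nat_mul, ← Real.exp_add, ← Real.exp_add]
        congr 1
        ring
      rw [this]
      have h2 : Real.exp (A * z) * Real.exp (-A * z) = 1 := by
        rw [← Real.exp_add]; simp
      linear_combination (-Real.exp (c * z) * a * Real.exp (2 * z) ^ n *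
        Real.exp (-Real.pi * Real.exp (2 * z))) * h2
    have hp : 0 < Real.exp ((c + A + 2 * n) * z) * Real.exp (-Real.pi * Real.exp (2 * z)) :=
      mul_pos (Real.exp_pos _) (Real.exp_pos _)
    rw [h1, abs_mul, abs_mul, abs_of_pos (Real.exp_pos (-A * z)), abs_of_pos hp]
    exact mul_le_mul_of_nonneg_right (mul_le_mul_of_nonneg_left (hC z) (abs_nonneg _))
      (Real.exp_pos _).le

theorem rse_kg2_fast {c : ℝ} (hc : 0 < c) (P : Polynomial ℝ) (h : 1 ≤ c ∨ P.coeff 0 = 0) :
    Fast (rse_kg2_F c P) := by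
  intro A hA
  rcases h with h | h
  · exact rse_kg2_bd c P A (by linarith)
  · obtain ⟨Q, rfl⟩ := Polynomial.X_dvd_iff.mpr h
    obtain ⟨C, hC⟩ := rse_kg2_bd (c + 2) Q A (by linarith)
    refine ⟨C, fun z => ?_⟩
    have : rse_kg2_F c (Polynomial.X * Q) z = rse_kg2_F (c + 2) Q z := by
      simp only [rse_kg2_F, Polynomial.eval_mul, Polynomial.eval_X]
      rw [show (c + 2) * z = c * z + 2 * z by ring, Real.exp_add]
      ring
    rw [this]
    exact hC z

theorem rse_kg2_int {c a : ℝ} (hc : 0 < c) (ha : 0 ≤ a) (P : Polynomial ℝ) :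
    Integrable (fun z => Real.exp (a * z) * rse_kg2_F c P z) := by
  have h0 : (fun z => Real.exp (a * z) * rse_kg2_F c P z) = rse_kg2_F (a + c) P := by
    funext z
    simp only [rse_kg2_F]
    rw [add_mul, Real.exp_add]
    ring
  rw [h0]
  have hac : 0 < a + c := by linarith
  obtain ⟨C1, h1⟩ := rse_kg2_bd (a + c) P (-(a + c)) (by linarith)
  obtain ⟨C2, h2⟩ := rse_kg2_bd (a + c) P (a + c) (by linarith)
  have hC1 : 0 ≤ C1 := by
    have := h1 0
    simp at this
    exact (abs_nonneg _).trans this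
  have hC2 : 0 ≤ C2 := by
    have := h2 0
    simp at this
    exact (abs_nonneg _).trans this
  refine rse_kg_int (C := C1 + C2) (rse_kg2_smooth _ _).continuous hac fun z => ?_
  rcases le_total z 0 with hz | hz
  · calc _ ≤ _ := h1 z
      _ = C1 * Real.exp (-((a + c) * |z|)) := by rw [abs_of_nonpos hz]; ring_nf
      _ ≤ _ := mul_le_mul_of_nonneg_right (by linarith) (Real.exp_pos _).le
  · calc _ ≤ _ := h2 z
      _ = C2 * Real.exp (-((a + c) * |z|)) := by rw [abs_of_nonneg hz]; ring_nf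
      _ ≤ _ := mul_le_mul_of_nonneg_right (by linarith) (Real.exp_pos _).le

theorem rse_kg2_k0 (κ : ℕ) : k0 κ = rse_kg2_F (1 / 2 + κ) 2 := by
  funext z
  simp only [k0, f0, rse_kg2_F, Polynomial.eval_ofNat]
  have h1 : Real.exp ((1 / 2 + κ) * z) = Real.exp (z / 2) * Real.exp z ^ κ := by
    rw [← Real.exp_nat_mul, ← Real.exp_add]
    congr 1
    ring
  have h2 : Real.exp (2 * z) = Real.exp z ^ 2 := by
    rw [← Real.exp_nat_mul]
    norm_num
  rw [h1, h2]
  ring

theorem rse_kg2_sub (c : ℝ) (P Q : Polynomial ℝ) (z : ℝ) :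
    rse_kg2_F c P z - rse_kg2_F c Q z = rse_kg2_F c (P - Q) z := by
  simp only [rse_kg2_F, Polynomial.eval_sub]; ring

theorem rse_kg2_smul (c a : ℝ) (P : Polynomial ℝ) (z : ℝ) :
    a * rse_kg2_F c P z = rse_kg2_F c (Polynomial.C a * P) z := by
  simp only [rse_kg2_F, Polynomial.eval_mul, Polynomial.eval_C]; ring

theorem rse_kg2_gk (κ i : ℕ) : gk κ i = rse_kg2_F (1 / 2 + κ)
    ((rse_kg2_T (1 / 2 + κ))^[i + 3] 2 - Polynomial.C (1 / 4) *
      (rse_kg2_T (1 / 2 + κ))^[i + 1] 2) := by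
  funext z
  rw [gk, rse_kg2_k0, rse_kg2_iter, rse_kg2_iter, rse_kg2_smul, rse_kg2_sub]

theorem gk_deriv_pr {κ : ℕ} (hκ : κ ≤ 1) (i : ℕ) : deriv (gk κ i) = gk κ (i + 1) := by
  have h : ∀ n, deriv (iteratedDeriv n (k0 κ)) = iteratedDeriv (n + 1) (k0 κ) :=
    fun n => iteratedDeriv_succ.symm
  have hd : ∀ n, Differentiable ℝ (iteratedDeriv n (k0 κ)) := by
    intro n
    rw [rse_kg2_k0, rse_kg2_iter]
    exact (rse_kg2_smooth _ _).differentiable (by simp)
  funext z
  have h1 : HasDerivAt (gk κ i) (deriv (iteratedDeriv (i + 3) (k0 κ)) z -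
      1 / 4 * deriv (iteratedDeriv (i + 1) (k0 κ)) z) z :=
    ((hd (i + 3)) z).hasDerivAt.sub (((hd (i + 1)) z).hasDerivAt.const_mul _)
  rw [h1.deriv, h, h, gk]

theorem kern_gk_pr {κ : ℕ} (hκ : κ ≤ 1) (i : ℕ) : Kern (gk κ i) := by
  have hc : (0 : ℝ) < 1 / 2 + κ := by positivity
  refine ⟨?_, fun j => ?_, ?_, ?_⟩
  · rw [rse_kg2_gk]
    exact rse_kg2_smooth _ _
  · rw [rse_kg2_gk, rse_kg2_iter]
    apply rse_kg2_fast hc
    interval_cases κ
    · right
      rw [rse_kg2_T_iter_coeff, Polynomial.coeff_sub, Polynomial.coeff_C_mul,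
        rse_kg2_T_iter_coeff, rse_kg2_T_iter_coeff]
      push_cast
      ring
    · left
      norm_num
  · -- `gk κ i` is the derivative of an integrable function
    have e : ∀ z, HasDerivAt (fun z => iteratedDeriv (i + 2) (k0 κ) z -
        1 / 4 * iteratedDeriv i (k0 κ) z) (gk κ i z) z := by
      intro z
      have hd : ∀ n, HasDerivAt (iteratedDeriv n (k0 κ)) (iteratedDeriv (n + 1) (k0 κ) z) z := by
        intro n
        rw [iteratedDeriv_succ]
        apply DifferentiableAt.hasDerivAt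
        rw [rse_kg2_k0, rse_kg2_iter]
        exact (rse_kg2_smooth _ _).differentiable (by simp) _
      exact (hd (i + 2)).sub ((hd i).const_mul _)
    have key : ∀ n, Integrable (iteratedDeriv n (k0 κ)) := by
      intro n
      rw [rse_kg2_k0, rse_kg2_iter]
      simpa using rse_kg2_int hc le_rfl ((rse_kg2_T (1 / 2 + κ))^[n] 2)
    refine integral_eq_zero_of_hasDerivAt_of_integrable e ?_ ((key _).sub ((key _).const_mul _))
    exact (key _).sub ((key _).const_mul _)
  · have e : ∀ z, HasDerivAt (fun z => Real.exp (z / 2) * (iteratedDeriv (i + 2) (k0 κ) z -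
        1 / 2 * iteratedDeriv (i + 1) (k0 κ) z)) (Real.exp (z / 2) * gk κ i z) z := by
      intro z
      have hd : ∀ n, HasDerivAt (iteratedDeriv n (k0 κ)) (iteratedDeriv (n + 1) (k0 κ) z) z := by
        intro n
        rw [iteratedDeriv_succ]
        apply DifferentiableAt.hasDerivAt
        rw [rse_kg2_k0, rse_kg2_iter]
        exact (rse_kg2_smooth _ _).differentiable (by simp) _
      have h1 : HasDerivAt (fun z : ℝ => Real.exp (z / 2)) (Real.exp (z / 2) * (1 / 2)) z :=
        ((hasDerivAt_id z).div_const 2).exp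
      have h2 := (hd (i + 2)).sub ((hd (i + 1)).const_mul (1 / 2))
      have h3 : HasDerivAt (fun z => Real.exp (z / 2) * (iteratedDeriv (i + 2) (k0 κ) z -
        1 / 2 * iteratedDeriv (i + 1) (k0 κ) z)) _ z := h1.mul h2
      refine h3.congr_deriv ?_
      simp only [gk]
      ring
    have key : ∀ n, Integrable (fun z => Real.exp (z / 2) * iteratedDeriv n (k0 κ) z) := by
      intro n
      rw [rse_kg2_k0, rse_kg2_iter]
      have := rse_kg2_int (a := 1 / 2) hc (by norm_num) ((rse_kg2_T (1 / 2 + κ))^[n] 2)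
      refine this.congr (ae_of_all _ fun z => ?_)
      simp only
      congr 2
      ring
    refine integral_eq_zero_of_hasDerivAt_of_integrable e ?_ ?_
    · refine ((key (i + 3)).sub ((key (i + 1)).const_mul (1 / 4))).congr (ae_of_all _ fun z => ?_)
      simp only [gk, Pi.sub_apply]
      ring
    · refine ((key (i + 2)).sub ((key (i + 1)).const_mul (1 / 2))).congr (ae_of_all _ fun z => ?_)
      simp only [Pi.sub_apply]
      ring

end Pool.Agent.RSE

namespace Pool.Agent.RSE

alias gk_deriv := gk_deriv_pr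

alias kern_gk := kern_gk_pr

end Pool.Agent.RSE
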