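import Pool.Agent.Lib_helper39.RSE.Defs
import Pool.Agent.Lib_helper39.RSA.DefsB
/-! # RSE block G2: multiplicativity of the normalised Gauss sums -/

namespace Pool.Agent.RSE

open Complex
open scoped ComplexConjugate

noncomputable def g2_e (t : ℝ) : ℂ := cexp (2 * Real.pi * I * t)

theorem g2_e_add (s t : ℝ) : g2_e (s + t) = g2_e s * g2_e t := by
  unfold g2_e
  rw [← Complex.exp_add]
  congr 1
  push_cast
  ring

theorem g2_e_int (n : ℤ) : g2_e n = 1 := by
  unfold g2_e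
  have h : 2 * (Real.pi : ℂ) * I * ((n : ℝ) : ℂ) = n * (2 * Real.pi * I) := by
    push_cast
    ring
  rw [h, Complex.exp_int_mul_two_pi_mul_I]

theorem g2_e_add_int (t : ℝ) (n : ℤ) : g2_e (t + n) = g2_e t := by
  rw [g2_e_add, g2_e_int, mul_one]

theorem g2_norm_e (t : ℝ) : ‖g2_e t‖ = 1 := by
  unfold g2_e
  have h : 2 * (Real.pi : ℂ) * I * (t : ℂ) = ((2 * Real.pi * t : ℝ) : ℂ) * I := by
    push_cast
    ring
  rw [h, Complex.norm_exp_ofReal_mul_I]

/-- The summand of `Gs` at an integer. -/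
noncomputable def g2_F (h : ℤ) (N : ℕ) (x : ℤ) : ℂ :=
  (jacobiSym x N : ℂ) * g2_e (h * x / N)

theorem g2_Gs_eq (h : ℤ) (N : ℕ) : Gs h N = ∑ x ∈ Finset.range N, g2_F h N x := by
  unfold Gs g2_F g2_e
  refine Finset.sum_congr rfl fun x _ => ?_
  congr 2
  push_cast
  ring

theorem g2_F_add (h : ℤ) (N : ℕ) (hN : 0 < N) (x k : ℤ) :
    g2_F h N (x + k * N) = g2_F h N x := by
  unfold g2_F
  have hN' : (N : ℝ) ≠ 0 := by positivity
  congr 1
  · congr 1
    rw [jacobiSym.mod_left, Int.add_mul_emod_self_right, ← jacobiSym.mod_left]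
  · have h1 : (h : ℝ) * ((x + k * N : ℤ) : ℝ) / N = h * x / N + ((h * k : ℤ) : ℝ) := by
      push_cast
      field_simp
    rw [h1, g2_e_add_int]

theorem g2_F_congr (h : ℤ) (N : ℕ) (hN : 0 < N) {x y : ℤ} (hxy : x % N = y % N) :
    g2_F h N x = g2_F h N y := by
  have h1 : x = y + (x / N - y / N) * N := by
    have hx := Int.emod_add_mul_ediv x N
    have hy := Int.emod_add_mul_ediv y N
    rw [hxy] at hx
    linarith
  rw [h1, g2_F_add h N hN]

/-- Chinese remainder theorem for sums. -/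
theorem g2_crt (M N : ℕ) (hM : 0 < M) (hN : 0 < N) (hc : M.Coprime N) (F : ℤ → ℂ)
    (hF : ∀ x y : ℤ, x % ((M * N : ℕ) : ℤ) = y % ((M * N : ℕ) : ℤ) → F x = F y) :
    ∑ x ∈ Finset.range (M * N), F x =
      ∑ a ∈ Finset.range M, ∑ b ∈ Finset.range N, F (a * N + b * M) := by
  rw [← Finset.sum_product']
  have hinj : Set.InjOn (fun p : ℕ × ℕ => (p.1 * N + p.2 * M) % (M * N))
      ((Finset.range M ×ˢ Finset.range N : Finset (ℕ × ℕ)) : Set (ℕ × ℕ)) := by
    rintro ⟨a, b⟩ h1 ⟨a', b'⟩ h2 h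
    simp only [Finset.coe_product, Finset.coe_range, Set.mem_prod, Set.mem_Iio] at h1 h2
    have h3 : a * N + b * M ≡ a' * N + b' * M [MOD (M * N)] := h
    have h4 : a * N + b * M ≡ a' * N + b' * M [MOD M] := h3.of_mul_right N
    have h5 : a * N + b * M ≡ a' * N + b' * M [MOD N] := h3.of_mul_left M
    have h6 : a * N ≡ a' * N [MOD M] := by
      have e1 : a * N + b * M ≡ a * N [MOD M] := by
        simp [Nat.ModEq, Nat.add_mul_mod_self_right]
      have e2 : a' * N + b' * M ≡ a' * N [MOD M] := by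
        simp [Nat.ModEq, Nat.add_mul_mod_self_right]
      exact e1.symm.trans (h4.trans e2)
    have h7 : b * M ≡ b' * M [MOD N] := by
      have e1 : a * N + b * M ≡ b * M [MOD N] := by
        simp [Nat.ModEq, Nat.mul_add_mod_self_right]
      have e2 : a' * N + b' * M ≡ b' * M [MOD N] := by
        simp [Nat.ModEq, Nat.mul_add_mod_self_right]
      exact e1.symm.trans (h5.trans e2)
    have h8 : a ≡ a' [MOD M] := Nat.ModEq.cancel_right_of_coprime hc h6
    have h9 : b ≡ b' [MOD N] := Nat.ModEq.cancel_right_of_coprime hc.symm h7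
    have e1 : a = a' := Nat.ModEq.eq_of_lt_of_lt h8 h1.1 h2.1
    have e2 : b = b' := Nat.ModEq.eq_of_lt_of_lt h9 h1.2 h2.2
    rw [e1, e2]
  have himg : (Finset.range M ×ˢ Finset.range N).image
      (fun p : ℕ × ℕ => (p.1 * N + p.2 * M) % (M * N)) = Finset.range (M * N) := by
    apply Finset.eq_of_subset_of_card_le
    · intro x hx
      rw [Finset.mem_image] at hx
      obtain ⟨p, _, rfl⟩ := hx
      exact Finset.mem_range.mpr (Nat.mod_lt _ (Nat.mul_pos hM hN))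
    · rw [Finset.card_image_of_injOn hinj, Finset.card_product, Finset.card_range,
        Finset.card_range, Finset.card_range]
  rw [← himg, Finset.sum_image hinj]
  refine Finset.sum_congr rfl fun p _ => ?_
  apply hF
  push_cast
  rw [Int.emod_emod_of_dvd]
  exact dvd_refl _

theorem g2_jac_ne (M N : ℕ) (hc : M.Coprime N) :
    (jacobiSym (N : ℤ) M : ℂ) * (jacobiSym (N : ℤ) M : ℂ) = 1 := by
  have h : IsCoprime (N : ℤ) (M : ℤ) := Nat.isCoprime_iff_coprime.mpr hc.symm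
  have h2 := jacobiSym.sq_one (a := (N : ℤ)) (b := M) (by
    rw [Int.gcd_natCast_natCast]
    exact hc.symm)
  have h3 : ((jacobiSym (N : ℤ) M : ℤ) : ℂ) ^ 2 = 1 := by
    exact_mod_cast h2
  rw [← sq]
  exact h3

theorem g2_Gs_mul (h : ℤ) (M N : ℕ) (hM : 0 < M) (hN : 0 < N) (hc : M.Coprime N) :
    Gs h (M * N) = (jacobiSym (N : ℤ) M : ℂ) * (jacobiSym (M : ℤ) N : ℂ) *
      (Gs h M * Gs h N) := by
  rw [g2_Gs_eq, g2_Gs_eq h M, g2_Gs_eq h N]
  have hMN : 0 < M * N := Nat.mul_pos hM hN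
  have : NeZero M := ⟨hM.ne'⟩
  have : NeZero N := ⟨hN.ne'⟩
  rw [g2_crt M N hM hN hc (g2_F h (M * N)) (fun x y hxy => g2_F_congr h (M * N) hMN hxy)]
  rw [Finset.sum_mul_sum, Finset.mul_sum]
  refine Finset.sum_congr rfl fun a _ => ?_
  rw [Finset.mul_sum]
  refine Finset.sum_congr rfl fun b _ => ?_
  unfold g2_F
  have hM' : (M : ℝ) ≠ 0 := by positivity
  have hN' : (N : ℝ) ≠ 0 := by positivity
  have e1 : (h : ℝ) * ((a * N + b * M : ℤ) : ℝ) / ((M * N : ℕ) : ℝ) =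
      h * ((a : ℤ) : ℝ) / M + h * ((b : ℤ) : ℝ) / N := by
    push_cast
    field_simp
  rw [e1, g2_e_add]
  have e2 : jacobiSym ((a : ℤ) * N + b * M) (M * N) =
      jacobiSym a M * jacobiSym N M * (jacobiSym b N * jacobiSym M N) := by
    rw [jacobiSym.mul_right]
    congr 1
    · rw [jacobiSym.mod_left, Int.add_mul_emod_self_right, ← jacobiSym.mod_left,
        jacobiSym.mul_left]
    · rw [jacobiSym.mod_left, add_comm, Int.add_mul_emod_self_right, ← jacobiSym.mod_left,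
        jacobiSym.mul_left]
  rw [e2]
  push_cast
  ring

theorem g2_ep_ne (N : ℕ) : ep N ≠ 0 := by
  unfold ep
  split_ifs
  · exact one_ne_zero
  · exact I_ne_zero

theorem g2_norm_ep (N : ℕ) : ‖ep N‖ = 1 := by
  unfold ep
  split_ifs
  · simp
  · simp

theorem g2_ep_mul (M N : ℕ) (hM : Odd M) (hN : Odd N) (hc : M.Coprime N) :
    ep M * ep N = (jacobiSym (N : ℤ) M : ℂ) * (jacobiSym (M : ℤ) N : ℂ) * ep (M * N) := by
  have hM4 : M % 4 = 1 ∨ M % 4 = 3 := by
    rcases hM with ⟨k, rfl⟩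
    omega
  have hN4 : N % 4 = 1 ∨ N % 4 = 3 := by
    rcases hN with ⟨k, rfl⟩
    omega
  have key : ∀ {A B : ℕ}, A.Coprime B → jacobiSym (A : ℤ) B = jacobiSym (B : ℤ) A →
      (jacobiSym (B : ℤ) A : ℂ) * (jacobiSym (A : ℤ) B : ℂ) = 1 := by
    intro A B hAB he
    rw [he]
    exact g2_jac_ne A B hAB
  have hmod : (M * N) % 4 = (M % 4) * (N % 4) % 4 := Nat.mul_mod M N 4
  rcases hM4 with h1 | h1
  · have he : jacobiSym (M : ℤ) N = jacobiSym (N : ℤ) M :=
      jacobiSym.quadratic_reciprocity_one_mod_four h1 hN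
    rw [key hc he]
    rcases hN4 with h2 | h2
    · rw [h1, h2] at hmod
      simp [ep, h1, h2, hmod]
    · rw [h1, h2] at hmod
      simp [ep, h1, h2, hmod]
  · rcases hN4 with h2 | h2
    · have he : jacobiSym (M : ℤ) N = jacobiSym (N : ℤ) M :=
        jacobiSym.quadratic_reciprocity_one_mod_four' hM h2
      rw [key hc he]
      rw [h1, h2] at hmod
      simp [ep, h1, h2, hmod]
    · have he : jacobiSym (M : ℤ) N = - jacobiSym (N : ℤ) M :=
        jacobiSym.quadratic_reciprocity_three_mod_four h1 h2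
      rw [h1, h2] at hmod
      have hh := g2_jac_ne M N hc
      rw [he]
      push_cast
      rw [mul_neg, hh]
      simp [ep, h1, h2, hmod]

/-- G2. -/
theorem gam_mul_pr (h : ℤ) (M N : ℕ) (hM : Odd M) (hN : Odd N) (hc : M.Coprime N) :
    gam h (M * N) = gam h M * gam h N := by
  have hM0 : 0 < M := hM.pos
  have hN0 : 0 < N := hN.pos
  unfold gam
  rw [g2_Gs_mul h M N hM0 hN0 hc]
  have h1 := g2_ep_mul M N hM hN hc
  have hJ : ((jacobiSym (N : ℤ) M : ℂ) * (jacobiSym (M : ℤ) N : ℂ)) *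
      ((jacobiSym (N : ℤ) M : ℂ) * (jacobiSym (M : ℤ) N : ℂ)) = 1 := by
    have a1 := g2_jac_ne M N hc
    have a2 := g2_jac_ne N M hc.symm
    linear_combination (jacobiSym (M : ℤ) N : ℂ) * (jacobiSym (M : ℤ) N : ℂ) * a1 + a2
  set J := (jacobiSym (N : ℤ) M : ℂ) * (jacobiSym (M : ℤ) N : ℂ) with hJdef
  have hsq : (√((M * N : ℕ) : ℝ) : ℂ) = (√(M : ℝ) : ℂ) * (√(N : ℝ) : ℂ) := by
    rw [← Complex.ofReal_mul, ← Real.sqrt_mul (by positivity)]
    push_cast
    ring
  have hsM : (√(M : ℝ) : ℂ) ≠ 0 := by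
    rw [Complex.ofReal_ne_zero]
    positivity
  have hsN : (√(N : ℝ) : ℂ) ≠ 0 := by
    rw [Complex.ofReal_ne_zero]
    positivity
  have e1 := g2_ep_ne M
  have e2 := g2_ep_ne N
  have e3 := g2_ep_ne (M * N)
  rw [hsq, div_mul_div_comm]
  rw [div_eq_div_iff (by positivity) (by positivity)]
  linear_combination (J * Gs h M * Gs h N * (√(M : ℝ) : ℂ) * (√(N : ℝ) : ℂ)) * h1 +
    (Gs h M * Gs h N * (√(M : ℝ) : ℂ) * (√(N : ℝ) : ℂ) * ep (M * N)) * hJ

end Pool.Agent.RSE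

namespace Pool.Agent.RSE

alias gam_mul := gam_mul_pr

end Pool.Agent.RSE
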