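import Pool.Agent.Lib_helper39.RSE.Defs
import Pool.Agent.Lib_helper39.RSA.DefsB
import Pool.Agent.Lib_helper39.RSA.G2
/-! # RSE block G1: bound for the normalised Gauss sums -/

namespace Pool.Agent.RSE

open Complex

theorem g1_sum_zmod (p : ℕ) [NeZero p] (f : ZMod p → ℂ) :
    ∑ x : ZMod p, f x = ∑ y ∈ Finset.range p, f (y : ZMod p) := by
  refine Finset.sum_nbij' (fun x => x.val) (fun y => (y : ZMod p)) ?_ ?_ ?_ ?_ ?_
  · intro x _
    exact Finset.mem_range.mpr (ZMod.val_lt x)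
  · intro y _
    exact Finset.mem_univ _
  · intro x _
    exact ZMod.natCast_zmod_val x
  · intro y hy
    exact ZMod.val_cast_of_lt (Finset.mem_range.mp hy)
  · intro x _
    rw [ZMod.natCast_zmod_val]

theorem g1_std (N : ℕ) [NeZero N] (j : ℤ) :
    (ZMod.stdAddChar (j : ZMod N) : ℂ) = g2_e (j / N) := by
  rw [ZMod.stdAddChar_coe]
  unfold g2_e
  congr 1
  push_cast
  ring

/-- The quadratic character with complex values. -/
noncomputable def g1_chi (p : ℕ) [Fact p.Prime] : MulChar (ZMod p) ℂ :=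
  (quadraticChar (ZMod p)).ringHomComp (Int.castRingHom ℂ)

theorem g1_chi_apply (p : ℕ) [Fact p.Prime] (y : ℤ) :
    g1_chi p (y : ZMod p) = (jacobiSym y p : ℂ) := by
  rw [← jacobiSym.legendreSym.to_jacobiSym]
  rfl

/-- `∑_{y mod p} (y/p) e(hy/p)`. -/
noncomputable def g1_S (p : ℕ) (h : ℤ) : ℂ :=
  ∑ y ∈ Finset.range p, (jacobiSym (y : ℤ) p : ℂ) * g2_e (h * y / p)

theorem g1_S_eq (p : ℕ) [Fact p.Prime] (h : ℤ) :
    g1_S p h = ∑ x : ZMod p, g1_chi p x * ZMod.stdAddChar ((h : ZMod p) * x) := by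
  rw [g1_sum_zmod]
  unfold g1_S
  refine Finset.sum_congr rfl fun y _ => ?_
  have h1 : ((y : ℕ) : ZMod p) = (((y : ℤ)) : ZMod p) := by push_cast; rfl
  rw [h1, g1_chi_apply, ← Int.cast_mul, g1_std]
  push_cast
  rfl

theorem g1_S_mul (p : ℕ) [Fact p.Prime] (h : ℤ) (hp : ¬ (p : ℤ) ∣ h) :
    g1_S p h = (jacobiSym h p : ℂ) * g1_S p 1 := by
  have hne : (h : ZMod p) ≠ 0 := by
    intro h0
    exact hp ((ZMod.intCast_zmod_eq_zero_iff_dvd h p).mp h0)
  have hu : IsUnit (h : ZMod p) := isUnit_iff_ne_zero.mpr hne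
  obtain ⟨u, hu⟩ := hu
  have h1 := gaussSum_mulShift (g1_chi p) (ZMod.stdAddChar (N := p)) u
  have h2 : gaussSum (g1_chi p) (AddChar.mulShift (ZMod.stdAddChar (N := p)) (u : ZMod p)) =
      g1_S p h := by
    rw [g1_S_eq, gaussSum]
    refine Finset.sum_congr rfl fun x _ => ?_
    rw [AddChar.mulShift_apply, hu]
  have h3 : gaussSum (g1_chi p) (ZMod.stdAddChar (N := p)) = g1_S p 1 := by
    rw [g1_S_eq, gaussSum]
    refine Finset.sum_congr rfl fun x _ => ?_
    rw [Int.cast_one, one_mul]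
  rw [h2, h3, hu, g1_chi_apply] at h1
  have hg : h.gcd p = 1 := by
    rw [Int.gcd_comm, ← Int.isCoprime_iff_gcd_eq_one]
    exact (Prime.coprime_iff_not_dvd (Nat.prime_iff_prime_int.mp (Fact.out : p.Prime))).mpr hp
  have h4 : ((jacobiSym h p : ℤ) : ℂ) ^ 2 = 1 := by
    exact_mod_cast jacobiSym.sq_one hg
  rw [← h1, ← mul_assoc, ← sq, h4, one_mul]

theorem g1_norm_jac {h : ℤ} {n : ℕ} : ‖(jacobiSym h n : ℂ)‖ ≤ 1 := by
  rcases jacobiSym.trichotomy h n with h1 | h1 | h1 <;> rw [h1] <;> simp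

theorem g1_S_one (p : ℕ) [Fact p.Prime] (h2 : p ≠ 2) : ‖g1_S p 1‖ ^ 2 = p := by
  have h3 : gaussSum (g1_chi p) (ZMod.stdAddChar (N := p)) = g1_S p 1 := by
    rw [g1_S_eq, gaussSum]
    refine Finset.sum_congr rfl fun x _ => ?_
    rw [Int.cast_one, one_mul]
  have hq : (g1_chi p).IsQuadratic := (quadraticChar_isQuadratic (ZMod p)).comp _
  have hne : g1_chi p ≠ 1 := by
    have hr : ringChar (ZMod p) ≠ 2 := by
      rw [ZMod.ringChar_zmod_n]
      exact h2
    obtain ⟨a, ha⟩ := quadraticChar_exists_neg_one hr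
    intro h0
    have ha' : g1_chi p a = -1 := by
      unfold g1_chi
      rw [MulChar.ringHomComp_apply, ha]
      simp
    have hau : IsUnit a := by
      rw [isUnit_iff_ne_zero]
      intro h00
      rw [h00] at ha
      simp at ha
    rw [h0, MulChar.one_apply hau] at ha'
    norm_num at ha'
  have h4 := gaussSum_sq hne hq (ZMod.isPrimitive_stdAddChar p)
  rw [h3] at h4
  have h5 : ‖g1_S p 1‖ ^ 2 = ‖(g1_chi p (-1)) * (Fintype.card (ZMod p) : ℂ)‖ := by
    rw [← h4, norm_pow]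
  rw [h5, norm_mul, ZMod.card]
  have h6 : ‖g1_chi p (-1)‖ = 1 := by
    have h7 : (g1_chi p (-1)) * (g1_chi p (-1)) = 1 := by
      rw [← map_mul]
      simp
    have h8 : ‖g1_chi p (-1)‖ * ‖g1_chi p (-1)‖ = 1 := by
      rw [← norm_mul, h7, norm_one]
    nlinarith [norm_nonneg (g1_chi p (-1))]
  rw [h6, one_mul]
  simp

theorem g1_S_dvd (p : ℕ) [Fact p.Prime] (h2 : p ≠ 2) (h : ℤ) (hp : (p : ℤ) ∣ h) :
    g1_S p h = 0 := by
  rw [g1_S_eq]
  have h0 : (h : ZMod p) = 0 := (ZMod.intCast_zmod_eq_zero_iff_dvd h p).mpr hp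
  rw [h0]
  simp only [zero_mul, AddChar.map_zero_eq_one, mul_one]
  unfold g1_chi
  simp only [MulChar.ringHomComp_apply]
  rw [← map_sum, quadraticChar_sum_zero, map_zero]
  rw [ZMod.ringChar_zmod_n]
  exact h2

theorem g1_S_norm (p : ℕ) [Fact p.Prime] (h2 : p ≠ 2) (h : ℤ) :
    ‖g1_S p h‖ ^ 2 ≤ p := by
  by_cases hp : (p : ℤ) ∣ h
  · rw [g1_S_dvd p h2 h hp]
    simp
  · rw [g1_S_mul p h hp, norm_mul, mul_pow, g1_S_one p h2]
    have h1 : ‖(jacobiSym h p : ℂ)‖ ^ 2 ≤ 1 := by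
      have := g1_norm_jac (h := h) (n := p)
      exact pow_le_one₀ (norm_nonneg _) this
    have hp0 : (0 : ℝ) ≤ p := by positivity
    nlinarith

/-- Geometric sum. -/
theorem g1_geo (q : ℕ) (hq : 0 < q) (h : ℤ) : (∑ z ∈ Finset.range q, g2_e (h * z / q)) =
    if (q : ℤ) ∣ h then (q : ℂ) else 0 := by
  have : NeZero q := ⟨hq.ne'⟩
  have h1 : (∑ z ∈ Finset.range q, g2_e (h * z / q)) =
      ∑ x : ZMod q, ZMod.stdAddChar ((h : ZMod q) * x) := by
    rw [g1_sum_zmod]
    refine Finset.sum_congr rfl fun y _ => ?_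
    have h1 : ((y : ℕ) : ZMod q) = (((y : ℤ)) : ZMod q) := by push_cast; rfl
    rw [h1, ← Int.cast_mul, g1_std]
    push_cast
    rfl
  rw [h1]
  have h2 := AddChar.sum_mulShift (R' := ℂ) (h : ZMod q) (ZMod.isPrimitive_stdAddChar q)
  have h3 : (∑ x : ZMod q, (ZMod.stdAddChar ((h : ZMod q) * x) : ℂ)) =
      ∑ x : ZMod q, (ZMod.stdAddChar (x * (h : ZMod q)) : ℂ) := by
    refine Finset.sum_congr rfl fun x _ => ?_
    rw [mul_comm]
  rw [h3, h2]
  by_cases hd : (q : ℤ) ∣ h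
  · rw [if_pos hd, if_pos ((ZMod.intCast_zmod_eq_zero_iff_dvd h q).mpr hd), ZMod.card]
  · rw [if_neg hd, if_neg (fun h0 => hd ((ZMod.intCast_zmod_eq_zero_iff_dvd h q).mp h0))]
    simp

theorem g1_range_mul (p q : ℕ) (F : ℕ → ℂ) : ∑ x ∈ Finset.range (p * q), F x =
    ∑ z ∈ Finset.range q, ∑ y ∈ Finset.range p, F (p * z + y) := by
  induction q with
  | zero => simp
  | succ q ih => rw [Nat.mul_succ, Finset.sum_range_add, ih, Finset.sum_range_succ]

/-- The Gauss sum of a prime power. -/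
theorem g1_pp (p a : ℕ) (hp : p.Prime) (h : ℤ) : Gs h (p ^ (a + 1)) =
    (∑ y ∈ Finset.range p, (jacobiSym (y : ℤ) p : ℂ) ^ (a + 1) *
      g2_e (h * y / ((p ^ (a + 1) : ℕ) : ℝ))) *
      if ((p ^ a : ℕ) : ℤ) ∣ h then ((p ^ a : ℕ) : ℂ) else 0 := by
  rw [g2_Gs_eq, ← g1_geo (p ^ a) (pow_pos hp.pos a) h, pow_succ' p a, g1_range_mul,
    Finset.sum_mul_sum, Finset.sum_comm]
  have hp0 : (p : ℝ) ≠ 0 := by
    have := hp.pos
    positivity
  refine Finset.sum_congr rfl fun y _ => Finset.sum_congr rfl fun z _ => ?_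
  unfold g2_F
  have h1 : jacobiSym (((p * z + y : ℕ) : ℤ)) (p * p ^ a) = jacobiSym (y : ℤ) p ^ (a + 1) := by
    rw [← pow_succ', jacobiSym.pow_right, jacobiSym.mod_left]
    congr 1
    push_cast
    rw [add_comm, Int.add_mul_emod_self_left, ← jacobiSym.mod_left]
  have h2 : (h : ℝ) * ((((p * z + y : ℕ) : ℤ)) : ℝ) / ((p * p ^ a : ℕ) : ℝ) =
      h * y / ((p * p ^ a : ℕ) : ℝ) + h * z / ((p ^ a : ℕ) : ℝ) := by
    push_cast
    field_simp
    ring
  rw [h1, h2, g2_e_add]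
  push_cast
  ring

/-- `∏_{q ∣ N} q^{v_q(h)}`. -/
noncomputable def g1_W (h : ℤ) (N : ℕ) : ℕ :=
  ∏ q ∈ N.primeFactors, q ^ (h.natAbs.factorization q)

theorem g1_W_le (h : ℤ) (hh : h ≠ 0) (N : ℕ) : g1_W h N ≤ h.natAbs := by
  apply Nat.le_of_dvd (Int.natAbs_pos.mpr hh)
  unfold g1_W
  apply Finset.prod_dvd_of_isRelPrime
  · intro p hp q hq hpq
    have hp' := Nat.prime_of_mem_primeFactors hp
    have hq' := Nat.prime_of_mem_primeFactors hq
    exact Nat.coprime_iff_isRelPrime.mp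
      (Nat.Coprime.pow _ _ ((Nat.coprime_primes hp' hq').mpr hpq))
  · intro p _
    exact Nat.ordProj_dvd _ _

theorem g1_W_mul (h : ℤ) (A B : ℕ) (hc : A.Coprime B) :
    g1_W h (A * B) = g1_W h A * g1_W h B := by
  unfold g1_W
  rw [hc.primeFactors_mul, Finset.prod_union (Nat.Coprime.disjoint_primeFactors hc)]

theorem g1_norm_gam_sq (h : ℤ) (N : ℕ) (hN : 0 < N) :
    ‖gam h N‖ ^ 2 = ‖Gs h N‖ ^ 2 / N := by
  unfold gam
  rw [norm_div, norm_mul, g2_norm_ep, one_mul, div_pow, Complex.norm_real, Real.norm_eq_abs,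
    sq_abs, Real.sq_sqrt (by positivity)]

theorem g1_prime_pow (h : ℤ) (hh : h ≠ 0) (p a : ℕ) (hp : p.Prime) (h2 : p ≠ 2) :
    ‖gam h (p ^ (a + 1))‖ ^ 2 ≤ g1_W h (p ^ (a + 1)) := by
  have : Fact p.Prime := ⟨hp⟩
  have hpos : 0 < p ^ (a + 1) := pow_pos hp.pos _
  have hpR : (0 : ℝ) < p := by exact_mod_cast hp.pos
  have hp1 : (1 : ℝ) ≤ p := by exact_mod_cast hp.one_lt.le
  rw [g1_norm_gam_sq h _ hpos, div_le_iff₀ (by exact_mod_cast hpos)]
  have hW : g1_W h (p ^ (a + 1)) = p ^ (h.natAbs.factorization p) := by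
    unfold g1_W
    rw [Nat.primeFactors_prime_pow (Nat.succ_ne_zero a) hp, Finset.prod_singleton]
  rw [hW, g1_pp p a hp h]
  by_cases hd : ((p ^ a : ℕ) : ℤ) ∣ h
  · rw [if_pos hd]
    obtain ⟨k, hk⟩ := hd
    have hk0 : k ≠ 0 := by
      rintro rfl
      simp at hk
      exact hh hk
    have hnat : h.natAbs = p ^ a * k.natAbs := by
      rw [hk, Int.natAbs_mul, Int.natAbs_natCast]
    have hfac : h.natAbs.factorization p = a + k.natAbs.factorization p := by
      rw [hnat, Nat.factorization_mul (pow_pos hp.pos a).ne' (Int.natAbs_ne_zero.mpr hk0)]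
      simp [hp.factorization_self]
    have harg : ∀ y : ℕ, (h : ℝ) * y / ((p ^ (a + 1) : ℕ) : ℝ) = k * y / p := by
      intro y
      rw [hk]
      push_cast
      field_simp
      ring
    have hsum : (∑ y ∈ Finset.range p, (jacobiSym (y : ℤ) p : ℂ) ^ (a + 1) *
        g2_e (h * y / ((p ^ (a + 1) : ℕ) : ℝ))) =
        ∑ y ∈ Finset.range p, (jacobiSym (y : ℤ) p : ℂ) ^ (a + 1) * g2_e (k * y / p) := by
      refine Finset.sum_congr rfl fun y _ => ?_
      rw [harg]
    rw [hsum]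
    set T := ∑ y ∈ Finset.range p, (jacobiSym (y : ℤ) p : ℂ) ^ (a + 1) * g2_e (k * y / p)
      with hT
    have hTle : ‖T‖ ^ 2 ≤ (p : ℝ) ^ (1 + k.natAbs.factorization p) := by
      rcases Nat.even_or_odd (a + 1) with he | ho
      · -- Ramanujan sum
        have hj : ∀ y ∈ Finset.range p, (jacobiSym (y : ℤ) p : ℂ) ^ (a + 1) *
            g2_e (k * y / p) = g2_e (k * y / p) - if y = 0 then 1 else 0 := by
          intro y hy
          rw [Finset.mem_range] at hy
          by_cases hy0 : y = 0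
          · subst hy0
            have h0 : jacobiSym ((0 : ℕ) : ℤ) p = 0 := by
              rw [Nat.cast_zero]
              exact jacobiSym.zero_left hp.one_lt
            rw [h0]
            simp [g2_e]
          · rw [if_neg hy0, sub_zero]
            have hcop : ((y : ℕ) : ℤ).gcd p = 1 := by
              rw [Int.gcd_natCast_natCast]
              exact ((Nat.Prime.coprime_iff_not_dvd hp).mpr (fun hdv =>
                absurd (Nat.le_of_dvd (Nat.pos_of_ne_zero hy0) hdv) (not_le.mpr hy))).symm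
            have hsq := jacobiSym.sq_one hcop
            obtain ⟨b, hb⟩ := he
            have : ((jacobiSym ((y : ℕ) : ℤ) p : ℤ) : ℂ) ^ (a + 1) = 1 := by
              rw [hb, ← two_mul, pow_mul]
              have : ((jacobiSym ((y : ℕ) : ℤ) p : ℤ) : ℂ) ^ 2 = 1 := by exact_mod_cast hsq
              rw [this, one_pow]
            rw [this, one_mul]
        have hTe : T = (if (p : ℤ) ∣ k then (p : ℂ) else 0) - 1 := by
          rw [hT, Finset.sum_congr rfl hj, Finset.sum_sub_distrib, g1_geo p hp.pos k]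
          congr 1
          rw [Finset.sum_ite_eq' (Finset.range p) 0 (fun _ => (1 : ℂ)),
            if_pos (Finset.mem_range.mpr hp.pos)]
        by_cases hpk : (p : ℤ) ∣ k
        · rw [hTe, if_pos hpk]
          have h1 : 1 ≤ k.natAbs.factorization p := by
            have : p ∣ k.natAbs := Int.natCast_dvd.mp hpk
            exact (hp.dvd_iff_one_le_factorization (Int.natAbs_ne_zero.mpr hk0)).mp this
          have h3 : ‖(p : ℂ) - 1‖ = p - 1 := by
            have : (p : ℂ) - 1 = ((p - 1 : ℝ) : ℂ) := by push_cast; ring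
            rw [this, Complex.norm_real, Real.norm_eq_abs, abs_of_nonneg (by linarith)]
          rw [h3]
          calc ((p : ℝ) - 1) ^ 2 ≤ (p : ℝ) ^ 2 := by
                apply pow_le_pow_left₀ (by linarith) (by linarith)
            _ ≤ (p : ℝ) ^ (1 + k.natAbs.factorization p) :=
                pow_le_pow_right₀ hp1 (by omega)
        · rw [hTe, if_neg hpk]
          simp only [zero_sub, norm_neg, norm_one, one_pow]
          exact one_le_pow₀ hp1
      · -- quadratic Gauss sum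
        have hj : T = g1_S p k := by
          rw [hT]
          unfold g1_S
          refine Finset.sum_congr rfl fun y _ => ?_
          congr 1
          obtain ⟨b, hb⟩ := ho
          rw [hb]
          rcases jacobiSym.trichotomy (y : ℤ) p with h1 | h1 | h1 <;> rw [h1] <;>
            simp [pow_succ, pow_mul]
        rw [hj]
        calc ‖g1_S p k‖ ^ 2 ≤ p := g1_S_norm p h2 k
          _ = (p : ℝ) ^ 1 := (pow_one _).symm
          _ ≤ (p : ℝ) ^ (1 + k.natAbs.factorization p) :=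
              pow_le_pow_right₀ hp1 (by omega)
    rw [norm_mul, mul_pow, hfac]
    have h4 : ‖((p ^ a : ℕ) : ℂ)‖ ^ 2 = (p : ℝ) ^ (2 * a) := by
      rw [Complex.norm_natCast]
      push_cast
      ring
    rw [h4]
    calc ‖T‖ ^ 2 * (p : ℝ) ^ (2 * a) ≤
        (p : ℝ) ^ (1 + k.natAbs.factorization p) * (p : ℝ) ^ (2 * a) := by
          apply mul_le_mul_of_nonneg_right hTle (by positivity)
      _ = ((p ^ (a + k.natAbs.factorization p) : ℕ) : ℝ) * ((p ^ (a + 1) : ℕ) : ℝ) := by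
          push_cast
          rw [← pow_add, ← pow_add]
          congr 1
          omega
  · rw [if_neg hd, mul_zero, norm_zero, zero_pow two_ne_zero]
    positivity

theorem g1_sq_le (h : ℤ) (hh : h ≠ 0) (N : ℕ) : Odd N → ‖gam h N‖ ^ 2 ≤ g1_W h N := by
  induction N using Nat.recOnPosPrimePosCoprime with
  | prime_pow p n hp hn =>
    intro ho
    obtain ⟨a, rfl⟩ : ∃ a, n = a + 1 := ⟨n - 1, by omega⟩
    apply g1_prime_pow h hh p a hp
    rintro rfl
    rw [Nat.odd_pow_iff (by omega)] at ho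
    exact absurd ho (by decide)
  | zero =>
    intro ho
    exact absurd ho (by decide)
  | one =>
    intro _
    rw [g1_norm_gam_sq h 1 one_pos, g2_Gs_eq]
    simp [g2_F, g1_W, g2_norm_e]
  | coprime A B hA hB hc ihA ihB =>
    intro ho
    rw [Nat.odd_mul] at ho
    rw [gam_mul_pr h A B ho.1 ho.2 hc, norm_mul, mul_pow, g1_W_mul h A B hc]
    push_cast
    exact mul_le_mul (ihA ho.1) (ihB ho.2) (by positivity) (by positivity)

/-- G1. -/
theorem gam_bound_pr (h : ℤ) (hh : h ≠ 0) (N : ℕ) (hN : Odd N) :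
    ‖gam h N‖ ≤ √(h.natAbs : ℝ) := by
  apply Real.le_sqrt_of_sq_le
  calc ‖gam h N‖ ^ 2 ≤ g1_W h N := g1_sq_le h hh N hN
    _ ≤ (h.natAbs : ℝ) := by exact_mod_cast g1_W_le h hh N

end Pool.Agent.RSE

namespace Pool.Agent.RSE

alias gam_bound := gam_bound_pr

end Pool.Agent.RSE
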