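import Pool.Agent.Lib_helper39.RSE.Defs
import Pool.Agent.Lib_helper39.RSA.DefsB
/-! # Block G3: the sign of the quadratic Gauss sum

`G = ε ζ^M ∏_{k=1}^m (ζ^k - 1)`, `p = 2m + 1`, and `ε = (-1)^m` is determined modulo `p`. -/

namespace Pool.Agent.RSE

open Complex MeasureTheory Filter Topology Polynomial

section alg
variable (p : ℕ) [hp : Fact p.Prime]

/-- `X d/dX` -/
noncomputable def rse_g3_th (f : (ZMod p)[X]) : (ZMod p)[X] := X * derivative f

theorem rse_g3_th_iter (i : ℕ) (hi : i ≤ p - 1) : ∃ E : (ZMod p)[X],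
    (rse_g3_th p)^[i] ((X - 1) ^ (p - 1)) = (X - 1) ^ (p - 1 - i) * E ∧
      E.eval 1 = (-1) ^ i * (i.factorial : ZMod p) := by
  induction i with
  | zero => exact ⟨1, by simp, by simp⟩
  | succ i ih =>
    obtain ⟨E, h1, h2⟩ := ih (by omega)
    obtain ⟨r, hr⟩ : ∃ r, p - 1 - i = r + 1 := ⟨p - 1 - (i + 1), by omega⟩
    have hr' : p - 1 - (i + 1) = r := by omega
    refine ⟨((r + 1 : ℕ) : (ZMod p)[X]) * X * E + X * (X - 1) * derivative E, ?_, ?_⟩
    · rw [Function.iterate_succ_apply', h1, hr, hr']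
      unfold rse_g3_th
      rw [derivative_mul, derivative_pow, derivative_sub, derivative_X, derivative_one, sub_zero,
        mul_one, Nat.add_sub_cancel, map_natCast]
      ring
    · have hcast : ((r + 1 : ℕ) : ZMod p) = -(i + 1 : ℕ) := by
        have e1 : r + 1 + (i + 1) = p := by
          have := hp.out.one_lt
          omega
        have e2 : ((r + 1 + (i + 1) : ℕ) : ZMod p) = 0 := by rw [e1]; exact ZMod.natCast_self p
        rw [Nat.cast_add] at e2
        exact eq_neg_of_add_eq_zero_left e2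
      simp only [eval_add, eval_mul, eval_X, eval_sub, eval_one, sub_self, mul_zero, zero_mul,
        add_zero, mul_one, eval_natCast, h2]
      rw [hcast, Nat.factorial_succ]
      push_cast
      ring

theorem rse_g3_th_sum (i : ℕ) : (rse_g3_th p)^[i] (∑ j ∈ Finset.range p, X ^ j) =
    ∑ j ∈ Finset.range p, C ((j : ZMod p) ^ i) * X ^ j := by
  induction i with
  | zero => simp
  | succ i ih =>
    rw [Function.iterate_succ_apply', ih]
    unfold rse_g3_th
    rw [derivative_sum, Finset.mul_sum]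
    apply Finset.sum_congr rfl
    intro j _
    rw [derivative_C_mul_X_pow]
    rcases Nat.eq_zero_or_pos j with hj | hj
    · subst hj
      simp
    · obtain ⟨k, rfl⟩ := Nat.exists_eq_succ_of_ne_zero hj.ne'
      rw [Nat.succ_sub_one, pow_succ (X : (ZMod p)[X]), pow_succ (((k.succ : ℕ) : ZMod p))]
      simp only [Nat.succ_eq_add_one]
      ring

theorem rse_g3_geom : (∑ j ∈ Finset.range p, (X : (ZMod p)[X]) ^ j) = (X - 1) ^ (p - 1) := by
  have h1 : ((X : (ZMod p)[X]) - 1) * ∑ j ∈ Finset.range p, X ^ j = X ^ p - 1 := mul_geom_sum X p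
  have h2 : ((X : (ZMod p)[X]) - 1) ^ p = X ^ p - 1 := by
    have := sub_pow_char (X : (ZMod p)[X]) 1 (p := p)
    rw [one_pow] at this
    exact this
  have h3 : ((X : (ZMod p)[X]) - 1) ≠ 0 := by
    intro h
    have := congrArg (eval 0) h
    simp at this
  apply mul_left_cancel₀ h3
  rw [h1, ← h2, ← pow_succ']
  congr 1
  have := hp.out.one_lt
  omega

/-- the polynomial with the Legendre symbols -/
noncomputable def rse_g3_A : ℤ[X] := ∑ j ∈ Finset.range p, C (jacobiSym (j : ℤ) p) * X ^ j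

/-- the product -/
noncomputable def rse_g3_B (M m : ℕ) : ℤ[X] := X ^ M * ∏ k ∈ Finset.range m, (X ^ (k + 1) - 1)

theorem rse_g3_A_map : (rse_g3_A p).map (Int.castRingHom (ZMod p)) =
    ∑ j ∈ Finset.range p, C ((j : ZMod p) ^ (p / 2)) * X ^ j := by
  unfold rse_g3_A
  rw [Polynomial.map_sum]
  apply Finset.sum_congr rfl
  intro j _
  rw [Polynomial.map_mul, Polynomial.map_pow, map_C, map_X]
  congr 2
  rw [← jacobiSym.legendreSym.to_jacobiSym]
  have := legendreSym.eq_pow p (j : ℤ)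
  simpa using this

theorem rse_g3_B_map (M m : ℕ) : ∃ E : (ZMod p)[X],
    (rse_g3_B M m).map (Int.castRingHom (ZMod p)) = (X - 1) ^ m * E ∧
      E.eval 1 = (m.factorial : ZMod p) := by
  refine ⟨X ^ M * ∏ k ∈ Finset.range m, ∑ i ∈ Finset.range (k + 1), X ^ i, ?_, ?_⟩
  · unfold rse_g3_B
    rw [Polynomial.map_mul, Polynomial.map_pow, map_X, Polynomial.map_prod]
    have : ∀ k ∈ Finset.range m, (X ^ (k + 1) - 1 : ℤ[X]).map (Int.castRingHom (ZMod p)) =
        (X - 1) * ∑ i ∈ Finset.range (k + 1), X ^ i := by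
      intro k _
      rw [mul_geom_sum]
      simp
    rw [Finset.prod_congr rfl this, Finset.prod_mul_distrib, Finset.prod_const, Finset.card_range]
    ring
  · rw [eval_mul, eval_pow, eval_X, one_pow, one_mul, eval_prod]
    have : ∀ k ∈ Finset.range m, eval 1 (∑ i ∈ Finset.range (k + 1), (X : (ZMod p)[X]) ^ i) =
        ((k + 1 : ℕ) : ZMod p) := by
      intro k _
      rw [eval_finsetSum]
      simp
    rw [Finset.prod_congr rfl this, ← Nat.cast_prod, Finset.prod_range_add_one_eq_factorial]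

/-- the sign is determined by the reduction modulo `p` -/
theorem rse_g3_sign (h2 : p ≠ 2) {ζ : ℂ} (hζ : IsPrimitiveRoot ζ p) (M : ℕ) (e : ℤ)
    (he : e = 1 ∨ e = -1)
    (h : aeval ζ (rse_g3_A p) = e * aeval ζ (rse_g3_B M (p / 2))) : e = (-1) ^ (p / 2) := by
  have hodd : p = 2 * (p / 2) + 1 := by
    have := hp.out.eq_two_or_odd
    omega
  set m := p / 2 with hm
  have hp2 := hp.out.two_le
  have hm1 : 1 ≤ m := by omega
  have h3 : aeval ζ (rse_g3_A p - C e * rse_g3_B M m) = 0 := by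
    rw [map_sub, map_mul, h, aeval_C]
    simp
  have h4 : cyclotomic p ℤ ∣ rse_g3_A p - C e * rse_g3_B M m := by
    rw [cyclotomic_eq_minpoly hζ hp.out.pos]
    exact minpoly.isIntegrallyClosed_dvd (hζ.isIntegral hp.out.pos) h3
  have h5 := Polynomial.map_dvd (Int.castRingHom (ZMod p)) h4
  rw [map_cyclotomic_int, cyclotomic_prime, rse_g3_geom, Polynomial.map_sub, Polynomial.map_mul,
    rse_g3_A_map, map_C, ← rse_g3_th_sum, rse_g3_geom] at h5
  obtain ⟨E, hE1, hE2⟩ := rse_g3_th_iter p m (by omega)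
  obtain ⟨E', hE'1, hE'2⟩ := rse_g3_B_map p M m
  rw [hE1, hE'1] at h5
  have h6 : p - 1 = m + m := by omega
  have h7 : p - 1 - m = m := by omega
  rw [h7, h6] at h5
  have h8 : ((X : (ZMod p)[X]) - 1) ^ (m + 1) ∣ (X - 1) ^ m * (E - C (e : ZMod p) * E') := by
    refine (pow_dvd_pow _ (by omega : m + 1 ≤ m + m)).trans ?_
    have e1 : (X - 1) ^ m * (E - C (e : ZMod p) * E') =
        (X - 1) ^ m * E - C ((Int.castRingHom (ZMod p)) e) * ((X - 1) ^ m * E') := by
      rw [eq_intCast]
      ring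
    rw [e1]
    exact h5
  rw [pow_succ] at h8
  have h9 : ((X : (ZMod p)[X]) - 1) ≠ 0 := by
    intro h
    have := congrArg (eval 0) h
    simp at this
  have h10 := (mul_dvd_mul_iff_left (pow_ne_zero m h9)).1 h8
  obtain ⟨Q, hQ⟩ := h10
  have h11 := congrArg (eval 1) hQ
  simp only [eval_sub, eval_mul, eval_C, eval_X, eval_one, sub_self, zero_mul, hE2, hE'2] at h11
  have hfac : ((m.factorial : ℕ) : ZMod p) ≠ 0 := by
    intro h0
    rw [ZMod.natCast_eq_zero_iff] at h0
    have := (hp.out.dvd_factorial).1 h0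
    omega
  have h12 : ((-1 : ZMod p)) ^ m = (e : ZMod p) := by
    have : ((-1 : ZMod p) ^ m - e) * (m.factorial : ZMod p) = 0 := by linear_combination h11
    exact sub_eq_zero.1 ((mul_eq_zero.1 this).resolve_right hfac)
  -- back to the integers
  have hne : (1 : ZMod p) ≠ -1 := by
    have : Fact (2 < p) := ⟨by omega⟩
    exact (ZMod.neg_one_ne_one).symm
  rcases he with he | he <;> rcases neg_one_pow_eq_or ℤ m with h0 | h0
  · rw [he, h0]
  · exfalso
    have : ((-1 : ZMod p)) ^ m = -1 := by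
      have := congrArg (Int.cast : ℤ → ZMod p) h0
      simpa using this
    rw [this, he] at h12
    apply hne
    simpa using h12.symm
  · exfalso
    have : ((-1 : ZMod p)) ^ m = 1 := by
      have := congrArg (Int.cast : ℤ → ZMod p) h0
      simpa using this
    rw [this, he] at h12
    apply hne
    simpa using h12
  · rw [he, h0]

end alg

/-- value of the product -/
theorem rse_g3_prod (p : ℕ) (hp : p.Prime) (h2 : p ≠ 2) :
    (rse_g3_B ((p / 2) * ((p / 2) * (p / 2 + 1) / 2)) (p / 2)).aeval (cexp (2 * Real.pi * I / p)) =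
      (-1) ^ ((p / 2) * (p / 2 + 1) / 2) * I ^ (p / 2) * (√(p : ℝ) : ℂ) := by
  have hodd : p = 2 * (p / 2) + 1 := by
    have := hp.eq_two_or_odd
    omega
  set m := p / 2 with hm
  have hp2 := hp.two_le
  have hp0 : (p : ℂ) ≠ 0 := Nat.cast_ne_zero.2 hp.ne_zero
  have hp0' : (0 : ℝ) < p := by exact_mod_cast hp.pos
  set w : ℂ := cexp (Real.pi * I / p) with hw
  have hζw : cexp (2 * Real.pi * I / p) = w ^ 2 := by
    rw [hw, ← Complex.exp_nat_mul]
    congr 1
    push_cast
    ring
  have hwp : w ^ p = -1 := by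
    rw [hw, ← Complex.exp_nat_mul, mul_div_cancel₀ _ hp0]
    exact Complex.exp_pi_mul_I
  set T := m * (m + 1) / 2 with hT
  have hT2 : 2 * T = m * (m + 1) := by
    rw [hT]
    exact Nat.mul_div_cancel' (Nat.even_mul_succ_self m).two_dvd
  -- the factors
  have hfac : ∀ k : ℕ, (w ^ 2) ^ k - 1 = w ^ k * (I * ((2 * Real.sin (Real.pi * k / p) : ℝ) : ℂ)) := by
    intro k
    have e1 : w ^ k = cexp (((Real.pi * k / p : ℝ) : ℂ) * I) := by
      rw [hw, ← Complex.exp_nat_mul]
      congr 1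
      push_cast
      ring
    have e2 : (((2 * Real.sin (Real.pi * k / p) : ℝ)) : ℂ) =
        2 * Complex.sin ((Real.pi * k / p : ℝ) : ℂ) := by
      push_cast
      ring
    rw [e2, ← pow_mul, mul_comm 2 k, pow_mul, e1, Complex.exp_mul_I]
    set x : ℂ := ((Real.pi * k / p : ℝ) : ℂ)
    have hcs := Complex.cos_sq_add_sin_sq x
    have hI : I ^ 2 = -1 := I_sq
    linear_combination hcs + (-(Complex.sin x) ^ 2) * hI
  have hR : (∏ k ∈ Finset.range m, (2 * Real.sin (Real.pi * (k + 1 : ℕ) / p))) = √(p : ℝ) := by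
    set R := ∏ k ∈ Finset.range m, (2 * Real.sin (Real.pi * (k + 1 : ℕ) / p)) with hRdef
    have hRpos : 0 ≤ R := by
      apply Finset.prod_nonneg
      intro k hk
      have hk' := Finset.mem_range.1 hk
      apply mul_nonneg (by norm_num)
      apply Real.sin_nonneg_of_nonneg_of_le_pi (by positivity)
      rw [div_le_iff₀ hp0']
      apply mul_le_mul_of_nonneg_left _ Real.pi_pos.le
      exact_mod_cast (by omega : k + 1 ≤ p)
    have hprim : IsPrimitiveRoot (w ^ 2) p := by
      rw [← hζw]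
      exact Complex.isPrimitiveRoot_exp p hp.ne_zero
    have hprod : ∏ k ∈ Finset.range (2 * m), (1 - (w ^ 2) ^ (k + 1)) = (p : ℂ) := by
      have hh : IsPrimitiveRoot (w ^ 2) (2 * m + 1) := by rw [← hodd]; exact hprim
      have := hh.prod_one_sub_pow_eq_order
      rw [this]
      have h3 : ((2 * m + 1 : ℕ) : ℂ) = p := by rw [← hodd]
      rw [← h3]
      push_cast
      ring
    have hR2 : ((R ^ 2 : ℝ) : ℂ) = p := by
      rw [← hprod, two_mul, Finset.prod_range_add, ← Finset.prod_range_reflect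
        (fun k => 1 - (w ^ 2) ^ (m + k + 1)) m, ← Finset.prod_mul_distrib, hRdef,
        ← Finset.prod_pow]
      push_cast
      apply Finset.prod_congr rfl
      intro k hk
      have hk' := Finset.mem_range.1 hk
      have e0 : m + (m - 1 - k) + 1 = p - (k + 1) := by omega
      rw [e0]
      have e1 : (w ^ 2) ^ (p - (k + 1)) * (w ^ 2) ^ (k + 1) = 1 := by
        rw [← pow_add, Nat.sub_add_cancel (by omega), ← pow_mul, mul_comm, pow_mul, hwp]
        norm_num
      have e2 := hfac (k + 1)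
      have e3 : (w ^ (k + 1)) ^ 2 = (w ^ 2) ^ (k + 1) := by
        rw [← pow_mul, ← pow_mul, mul_comm]
      set s : ℂ := (((2 * Real.sin (Real.pi * (k + 1 : ℕ) / p) : ℝ)) : ℂ) with hs
      have e4 : (1 - (w ^ 2) ^ (k + 1)) * (1 - (w ^ 2) ^ (p - (k + 1))) = s ^ 2 := by
        set z := (w ^ 2) ^ (k + 1) with hz
        set z' := (w ^ 2) ^ (p - (k + 1)) with hz'
        -- (z-1)^2 = - z s^2
        have e5 : (z - 1) ^ 2 = - z * s ^ 2 := by
          rw [e2, mul_pow, mul_pow, e3, I_sq]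
          ring
        have e6 : z ≠ 0 := by
          intro h0
          rw [h0, mul_zero] at e1
          exact zero_ne_one e1
        have e7 : (1 - z) * (1 - z') * z = -(z - 1) ^ 2 := by
          linear_combination (z - 1) * e1
        apply mul_right_cancel₀ e6
        rw [e7, e5]
        ring
      rw [e4, hs]
      push_cast
      ring
    have hR3 : R ^ 2 = p := by exact_mod_cast hR2
    rw [← hR3, Real.sqrt_sq hRpos]
  -- computation
  unfold rse_g3_B
  rw [map_mul, map_pow, aeval_X, map_prod, hζw]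
  have e1 : ∀ k ∈ Finset.range m, (aeval (w ^ 2)) (X ^ (k + 1) - 1 : ℤ[X]) =
      w ^ (k + 1) * (I * ((2 * Real.sin (Real.pi * (k + 1 : ℕ) / p) : ℝ) : ℂ)) := by
    intro k _
    rw [map_sub, map_pow, aeval_X, map_one]
    exact hfac (k + 1)
  rw [Finset.prod_congr rfl e1, Finset.prod_mul_distrib, Finset.prod_mul_distrib,
    Finset.prod_const, Finset.card_range, ← Complex.ofReal_prod, hR, Finset.prod_pow_eq_pow_sum]
  have e2 : ∑ k ∈ Finset.range m, (k + 1) = T := by
    have h1 : 2 * ∑ k ∈ Finset.range m, (k + 1) = m * (m + 1) := by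
      have := Finset.sum_range_id_mul_two (m + 1)
      rw [Finset.sum_range_succ'] at this
      simp only [add_zero, Nat.add_sub_cancel] at this
      linarith
    omega
  rw [e2, ← pow_mul]
  have e3 : 2 * (m * T) + T = p * T := by
    rw [hodd]
    ring
  rw [← mul_assoc, ← pow_add, e3, pow_mul, hwp]
  ring

theorem gs_prime_pr (p : ℕ) (hp : p.Prime) (h2 : p ≠ 2) : Gs 1 p = ep p * (√(p : ℝ) : ℂ) := by
  have hfp : Fact p.Prime := ⟨hp⟩
  have hodd : p = 2 * (p / 2) + 1 := by
    have := hp.eq_two_or_odd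
    omega
  set m := p / 2 with hm
  have hp2 := hp.two_le
  set ζ : ℂ := cexp (2 * Real.pi * I / p) with hζ
  have hprim : IsPrimitiveRoot ζ p := Complex.isPrimitiveRoot_exp p hp.ne_zero
  -- Gs as a value of A
  have hGA : Gs 1 p = aeval ζ (rse_g3_A p) := by
    unfold Gs rse_g3_A
    rw [map_sum]
    apply Finset.sum_congr rfl
    intro x _
    rw [map_mul, map_pow, aeval_X, aeval_C, hζ, ← Complex.exp_nat_mul]
    congr 1
    congr 1
    push_cast
    ring
  -- Gs as a Gauss sum
  have hGg : Gs 1 p ^ 2 = (-1) ^ m * p := by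
    let χ : MulChar (ZMod p) ℂ := (quadraticChar (ZMod p)).ringHomComp (Int.castRingHom ℂ)
    have hch : ringChar (ZMod p) ≠ 2 := by
      rw [ZMod.ringChar_zmod_n]
      exact h2
    have hχ1 : χ ≠ 1 :=
      (MulChar.ringHomComp_ne_one_iff (RingHom.injective_int _)).2 (quadraticChar_ne_one hch)
    have hχ2 : χ.IsQuadratic := (quadraticChar_isQuadratic (ZMod p)).comp _
    have h3 := gaussSum_sq hχ1 hχ2 (ZMod.isPrimitive_stdAddChar p)
    have h4 : gaussSum χ (ZMod.stdAddChar (N := p)) = Gs 1 p := by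
      unfold gaussSum Gs
      refine Finset.sum_bij (fun (a : ZMod p) _ => a.val) ?_ ?_ ?_ ?_
      · intro a _
        exact Finset.mem_range.2 (ZMod.val_lt a)
      · intro a _ b _ hab
        exact ZMod.val_injective p hab
      · intro b hb
        exact ⟨(b : ZMod p), Finset.mem_univ _, ZMod.val_natCast_of_lt (Finset.mem_range.1 hb)⟩
      · intro a _
        have h7 : a = (((a.val : ℕ) : ℤ) : ZMod p) := by
          push_cast
          exact (ZMod.natCast_zmod_val a).symm
        have h8 : (ZMod.stdAddChar a : ℂ) =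
            cexp (2 * Real.pi * I * (((1 : ℤ) : ℂ) * (a.val : ℕ) / p)) := by
          conv_lhs => rw [h7]
          rw [ZMod.stdAddChar_coe]
          congr 1
          push_cast
          ring
        have h9 : χ a = ((jacobiSym ((a.val : ℕ) : ℤ) p : ℤ) : ℂ) := by
          rw [← jacobiSym.legendreSym.to_jacobiSym]
          change ((quadraticChar (ZMod p) a : ℤ) : ℂ) =
            ((quadraticChar (ZMod p) (((a.val : ℕ) : ℤ) : ZMod p) : ℤ) : ℂ)
          rw [← h7]
        rw [h8, h9]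
    rw [← h4, h3, ZMod.card]
    congr 1
    -- χ (-1)
    have h5 : χ (-1) = ((quadraticChar (ZMod p) (-1) : ℤ) : ℂ) := rfl
    rw [h5, quadraticChar_neg_one hch, ZMod.card, ZMod.χ₄_eq_neg_one_pow (by omega)]
    push_cast
    rfl
  have hB := rse_g3_prod p hp h2
  rw [← hζ, ← hm] at hB
  set T := m * (m + 1) / 2 with hT
  set P := (aeval ζ) (rse_g3_B (m * T) m) with hP
  have hs2 : ((√(p : ℝ) : ℝ) : ℂ) ^ 2 = p := by
    rw [← Complex.ofReal_pow, Real.sq_sqrt (Nat.cast_nonneg p)]
    simp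
  have hP2 : P ^ 2 = (-1) ^ m * p := by
    rw [hB, mul_pow, mul_pow, hs2, ← pow_mul, ← pow_mul, mul_comm T 2, pow_mul, mul_comm m 2,
      pow_mul, I_sq]
    norm_num
  have hsgn : ∃ e : ℤ, (e = 1 ∨ e = -1) ∧ Gs 1 p = e * P := by
    have h3 : Gs 1 p ^ 2 = P ^ 2 := by rw [hGg, hP2]
    rcases sq_eq_sq_iff_eq_or_eq_neg.1 h3 with h | h
    · exact ⟨1, Or.inl rfl, by rw [h]; simp⟩
    · exact ⟨-1, Or.inr rfl, by rw [h]; simp⟩
  obtain ⟨e, he, hGP⟩ := hsgn
  have h3 := rse_g3_sign p h2 hprim (m * T) e he (by rw [← hGA, ← hm]; exact hGP)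
  rw [← hm] at h3
  rw [hGP, hB, h3]
  unfold ep
  -- parity
  obtain ⟨q, hq⟩ : ∃ q, m = 2 * q ∨ m = 2 * q + 1 := ⟨m / 2, by omega⟩
  rcases hq with hq | hq
  · have h4 : p % 4 = 1 := by omega
    have h5 : T = q * (2 * q + 1) := by
      rw [hT, hq]
      rw [show 2 * q * (2 * q + 1) = 2 * (q * (2 * q + 1)) by ring]
      exact Nat.mul_div_cancel_left _ (by norm_num)
    rw [if_pos h4, h5, hq, pow_mul I, I_sq, one_mul]
    have h6 : ((-1 : ℂ)) ^ (q * (2 * q + 1)) = (-1) ^ q := by
      have h8 : ((-1 : ℂ)) ^ (2 * q + 1) = -1 := by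
        rw [pow_succ, pow_mul]
        norm_num
      rw [mul_comm, pow_mul, h8]
    rw [h6, pow_mul]
    push_cast
    have h7 : ((-1 : ℂ)) ^ q * (-1) ^ q = 1 := by rw [← mul_pow]; norm_num
    linear_combination (√(p : ℝ) : ℂ) * h7
  · have h4 : p % 4 ≠ 1 := by omega
    have h5 : T = (2 * q + 1) * (q + 1) := by
      rw [hT, hq]
      rw [show (2 * q + 1) * (2 * q + 1 + 1) = 2 * ((2 * q + 1) * (q + 1)) by ring]
      exact Nat.mul_div_cancel_left _ (by norm_num)
    rw [if_neg h4, h5, hq, pow_succ I, pow_mul I, I_sq]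
    have h6 : ((-1 : ℂ)) ^ ((2 * q + 1) * (q + 1)) = (-1) ^ (q + 1) := by
      have h8 : ((-1 : ℂ)) ^ (2 * q + 1) = -1 := by
        rw [pow_succ, pow_mul]
        norm_num
      rw [pow_mul, h8]
    rw [h6, pow_succ, pow_succ, pow_mul]
    push_cast
    have h7 : ((-1 : ℂ)) ^ q * (-1) ^ q = 1 := by rw [← mul_pow]; norm_num
    linear_combination (I * (√(p : ℝ) : ℂ)) * h7

end Pool.Agent.RSE

namespace Pool.Agent.RSE

alias gs_prime := gs_prime_pr

end Pool.Agent.RSE
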