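import Pool.Agent.Lib_helper39.RSE.Defs
import Pool.Agent.Lib_helper39.RSA.DefsB
import Pool.Agent.Lib_helper39.RSA.G1
import Pool.Agent.Lib_helper39.RSA.G2
import Pool.Agent.Lib_helper39.RSA.G3
/-! # RSE block G4: the normalised Gauss sums for coprime frequencies -/

namespace Pool.Agent.RSE

open Complex

theorem g4_prime (h : ℤ) (p : ℕ) (hp : p.Prime) (h2 : p ≠ 2) (hc : ¬ (p : ℤ) ∣ h) :
    gam h p = (jacobiSym h p : ℂ) := by
  have : Fact p.Prime := ⟨hp⟩
  have h1 : ∀ k : ℤ, Gs k p = g1_S p k := by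
    intro k
    rw [g2_Gs_eq]
    unfold g1_S g2_F
    refine Finset.sum_congr rfl fun y _ => ?_
    push_cast
    rfl
  unfold gam
  rw [h1, g1_S_mul p h hc, ← h1, gs_prime p hp h2]
  have e1 := g2_ep_ne p
  have e2 : (√(p : ℝ) : ℂ) ≠ 0 := by
    rw [Complex.ofReal_ne_zero]
    have := hp.pos
    positivity
  field_simp

/-- G4. -/
theorem gam_cop_pr (h : ℤ) (N : ℕ) (hN : Odd N) (hc : h.natAbs.Coprime N) :
    gam h N = if Squarefree N then (jacobiSym h N : ℂ) else 0 := by
  induction N using Nat.recOnPosPrimePosCoprime with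
  | prime_pow p n hp hn =>
    obtain ⟨a, rfl⟩ : ∃ a, n = a + 1 := ⟨n - 1, by omega⟩
    have h2 : p ≠ 2 := by
      rintro rfl
      rw [Nat.odd_pow_iff (by omega)] at hN
      exact absurd hN (by decide)
    have hcp : ¬ (p : ℤ) ∣ h := by
      intro hd
      have h3 : p ∣ h.natAbs := Int.natCast_dvd.mp hd
      have h4 : p ∣ p ^ (a + 1) := dvd_pow_self p (Nat.succ_ne_zero a)
      exact hp.one_lt.ne' (Nat.eq_one_of_dvd_coprimes hc h3 h4)
    rcases Nat.eq_zero_or_pos a with ha | ha
    · subst ha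
      rw [zero_add, pow_one, if_pos hp.prime.squarefree]
      exact g4_prime h p hp h2 hcp
    · have hns : ¬ Squarefree (p ^ (a + 1)) := by
        intro hs
        have := (Nat.squarefree_pow_iff hp.one_lt.ne' (Nat.succ_ne_zero a)).mp hs
        omega
      rw [if_neg hns]
      unfold gam
      rw [g1_pp p a hp h, if_neg, mul_zero, zero_div]
      intro hd
      apply hcp
      refine dvd_trans ?_ hd
      rw [Nat.cast_pow]
      exact dvd_pow_self _ (by omega)
  | zero => exact absurd hN (by decide)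
  | one =>
    rw [if_pos squarefree_one]
    unfold gam
    rw [g2_Gs_eq]
    simp [g2_F, g2_e, ep]
  | coprime A B hA hB hab ihA ihB =>
    rw [Nat.odd_mul] at hN
    have hc1 : h.natAbs.Coprime A := Nat.Coprime.coprime_mul_right_right hc
    have hc2 : h.natAbs.Coprime B := Nat.Coprime.coprime_mul_left_right hc
    have : NeZero A := ⟨by omega⟩
    have : NeZero B := ⟨by omega⟩
    rw [gam_mul h A B hN.1 hN.2 hab, ihA hN.1 hc1, ihB hN.2 hc2, jacobiSym.mul_right]
    have hiff : Squarefree (A * B) ↔ Squarefree A ∧ Squarefree B := by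
      rw [Nat.squarefree_mul_iff]
      exact ⟨fun hh => hh.2, fun hh => ⟨hab, hh⟩⟩
    by_cases hsA : Squarefree A
    · by_cases hsB : Squarefree B
      · rw [if_pos hsA, if_pos hsB, if_pos (hiff.mpr ⟨hsA, hsB⟩)]
        push_cast
        rfl
      · rw [if_neg hsB, if_neg (fun hh => hsB (hiff.mp hh).2), mul_zero]
    · rw [if_neg hsA, if_neg (fun hh => hsA (hiff.mp hh).1), zero_mul]

end Pool.Agent.RSE

namespace Pool.Agent.RSE

alias gam_cop := gam_cop_pr

end Pool.Agent.RSE
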