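import Pool.Agent.Lib_helper39.RSE.Defs
import Pool.Agent.Lib_helper39.RSA.DefsB
import Pool.Agent.Lib_helper39.RSA.EM
import Pool.Agent.Lib_helper39.RSA.G1
import Pool.Agent.Lib_helper39.RSA.G2
import Pool.Agent.Lib_helper39.RSA.G4
import Pool.Agent.Lib_helper39.RSA.RB
import Pool.Agent.Lib_helper39.RSA.SQF
/-!
# Block NS (helper24): the sum over one variable of the Gauss sums
-/

namespace Pool.Agent.RSE

open Complex MeasureTheory Filter Topology
open Pool.Agent.RC (cc psi rv f0 IsRC Good gm pr DD)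
open scoped ContDiff

/-! ### The characters -/

theorem rse_ns_psi_mul (j : Fin 4) (a b : ℕ) : psi j (a * b) = psi j a * psi j b := by
  fin_cases j <;> simp [psi, Nat.cast_mul, map_mul]

theorem rse_ns_psi_one (j : Fin 4) : psi j 1 = 1 := by
  fin_cases j <;> simp [psi]

theorem rse_ns_psi_per (j : Fin 4) (n k : ℕ) : psi j (n + 8 * k) = psi j n := by
  have h8 : (((8 * k : ℕ) : ℕ) : ZMod 8) = 0 := by
    rw [Nat.cast_mul]
    have : ((8 : ℕ) : ZMod 8) = 0 := by decide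
    rw [this, zero_mul]
  have h4 : (((8 * k : ℕ) : ℕ) : ZMod 4) = 0 := by
    rw [Nat.cast_mul]
    have : ((8 : ℕ) : ZMod 4) = 0 := by decide
    rw [this, zero_mul]
  fin_cases j <;> simp only [psi, Nat.cast_add, h8, h4, add_zero]

theorem rse_ns_psi_abs (j : Fin 4) (n : ℕ) : |psi j n| ≤ 1 := by
  have h1 : ∀ x : ZMod 4, |ZMod.χ₄ x| ≤ 1 := by decide
  have h2 : ∀ x : ZMod 8, |ZMod.χ₈ x| ≤ 1 := by decide
  have h3 : ∀ x : ZMod 8, |ZMod.χ₈' x| ≤ 1 := by decide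
  fin_cases j
  · simp [psi]
  · exact h1 _
  · exact h2 _
  · exact h3 _

/-- the character `n ↦ ψ_i(n) (h/n)` on odd integers -/
noncomputable def rse_ns_chi (i : Fin 4) (h : ℤ) (n : ℕ) : ℝ :=
  if Odd n then ((psi i n * jacobiSym h n : ℤ) : ℝ) else 0

theorem rse_ns_jac_abs (h : ℤ) (n : ℕ) : |jacobiSym h n| ≤ 1 := by
  rcases jacobiSym.trichotomy h n with h1 | h1 | h1 <;> rw [h1] <;> norm_num

theorem rse_ns_chi_abs (i : Fin 4) (h : ℤ) (n : ℕ) : |rse_ns_chi i h n| ≤ 1 := by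
  unfold rse_ns_chi
  split_ifs
  · rw [← Int.cast_abs, abs_mul]
    have h1 : |psi i n| * |jacobiSym h n| ≤ 1 :=
      mul_le_one₀ (rse_ns_psi_abs i n) (abs_nonneg _) (rse_ns_jac_abs h n)
    exact_mod_cast h1
  · simp

theorem rse_ns_chi_one (i : Fin 4) (h : ℤ) : rse_ns_chi i h 1 = 1 := by
  unfold rse_ns_chi
  rw [if_pos odd_one, rse_ns_psi_one, jacobiSym.one_right]
  simp

theorem rse_ns_chi_mul (i : Fin 4) (h : ℤ) (m n : ℕ) :
    rse_ns_chi i h (m * n) = rse_ns_chi i h m * rse_ns_chi i h n := by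
  unfold rse_ns_chi
  by_cases hm : Odd m
  · by_cases hn : Odd n
    · have : NeZero m := ⟨hm.pos.ne'⟩
      have : NeZero n := ⟨hn.pos.ne'⟩
      rw [if_pos (hm.mul hn), if_pos hm, if_pos hn, rse_ns_psi_mul, jacobiSym.mul_right]
      push_cast
      ring
    · rw [if_neg hn, mul_zero, if_neg]
      intro h1
      exact hn (Nat.odd_mul.1 h1).2
  · rw [if_neg hm, zero_mul, if_neg]
    intro h1
    exact hm (Nat.odd_mul.1 h1).1

theorem rse_ns_chi_per (i : Fin 4) (h : ℤ) (n : ℕ) :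
    rse_ns_chi i h (n + 8 * h.natAbs) = rse_ns_chi i h n := by
  unfold rse_ns_chi
  have h1 : Odd (n + 8 * h.natAbs) ↔ Odd n := by
    rw [Nat.odd_add]
    have : Even (8 * h.natAbs) := ⟨4 * h.natAbs, by ring⟩
    simp [this]
  by_cases hn : Odd n
  · rw [if_pos (h1.2 hn), if_pos hn, rse_ns_psi_per, jacobiSym.mod_right h (h1.2 hn),
      jacobiSym.mod_right h hn]
    have h2 : (n + 8 * h.natAbs) % (4 * h.natAbs) = n % (4 * h.natAbs) := by
      have : 8 * h.natAbs = 4 * h.natAbs * 2 := by ring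
      rw [this, Nat.add_mul_mod_self_left]
    rw [h2]
  · rw [if_neg (fun h2 => hn (h1.1 h2)), if_neg hn]

/-! ### The factorization `n = a b`, `a` composed of primes of `R`, `b` prime to `R` -/

/-- the integers prime to `R` -/
abbrev rse_ns_B (R : ℕ) := {b : ℕ // b ≠ 0 ∧ b.Coprime R}

/-- the integers composed of primes of `R` -/
abbrev rse_ns_A (R : ℕ) := Nat.factoredNumbers R.primeFactors

theorem rse_ns_A_cop {R a b : ℕ} (ha : a ∈ Nat.factoredNumbers R.primeFactors)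
    (hb : b.Coprime R) : a.Coprime b := by
  rw [Nat.coprime_iff_gcd_eq_one]
  by_contra hne
  obtain ⟨p, hp, hpd⟩ := Nat.exists_prime_and_dvd hne
  have h1 : p ∣ a := hpd.trans (Nat.gcd_dvd_left _ _)
  have h2 : p ∣ b := hpd.trans (Nat.gcd_dvd_right _ _)
  have h3 : p ∈ R.primeFactors := Nat.mem_factoredNumbers'.1 ha p hp h1
  exact Nat.Prime.one_lt hp |>.ne' (Nat.dvd_one.1
    (hb ▸ Nat.dvd_gcd h2 (Nat.dvd_of_mem_primeFactors h3)))

theorem rse_ns_inj (R : ℕ) : Function.Injective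
    (fun p : rse_ns_A R × rse_ns_B R => (p.1 : ℕ) * (p.2 : ℕ)) := by
  rintro ⟨⟨a, ha⟩, ⟨b, hb0, hb⟩⟩ ⟨⟨a', ha'⟩, ⟨b', hb0', hb'⟩⟩ h
  simp only at h
  have h1 : a ∣ a' := by
    have : a ∣ a' * b' := h ▸ dvd_mul_right a b
    exact (rse_ns_A_cop ha hb').dvd_of_dvd_mul_right this
  have h2 : a' ∣ a := by
    have : a' ∣ a * b := h ▸ dvd_mul_right a' b'
    exact (rse_ns_A_cop ha' hb).dvd_of_dvd_mul_right this
  have h3 : a = a' := Nat.dvd_antisymm h1 h2
  subst h3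
  have h4 : b = b' := Nat.eq_of_mul_eq_mul_left (Nat.pos_of_ne_zero ha.1) h
  subst h4
  rfl

theorem rse_ns_surj {R : ℕ} (hR : 0 < R) (n : ℕ) (hn : n ≠ 0) :
    ∃ p : rse_ns_A R × rse_ns_B R, (p.1 : ℕ) * (p.2 : ℕ) = n := by
  set a := Nat.gcd n (R ^ n) with ha
  have hadvd : a ∣ n := Nat.gcd_dvd_left _ _
  have ha0 : a ≠ 0 := fun h => hn (Nat.eq_zero_of_zero_dvd (h ▸ hadvd))
  obtain ⟨b, hb⟩ := hadvd
  have hb0 : b ≠ 0 := fun h => hn (by rw [hb, h, mul_zero])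
  have haA : a ∈ Nat.factoredNumbers R.primeFactors := by
    rw [Nat.mem_factoredNumbers']
    intro p hp hpa
    have h1 : p ∣ R ^ n := hpa.trans (Nat.gcd_dvd_right _ _)
    exact Nat.mem_primeFactors.2 ⟨hp, hp.dvd_of_dvd_pow h1, hR.ne'⟩
  have hbc : b.Coprime R := by
    rw [Nat.coprime_iff_gcd_eq_one]
    by_contra hne
    obtain ⟨p, hp, hpd⟩ := Nat.exists_prime_and_dvd hne
    have h1 : p ∣ b := hpd.trans (Nat.gcd_dvd_left _ _)
    have h2 : p ∣ R := hpd.trans (Nat.gcd_dvd_right _ _)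
    -- compare the exponents of `p`
    have h3 : n.factorization p = a.factorization p + b.factorization p := by
      conv_lhs => rw [hb]
      rw [Nat.factorization_mul ha0 hb0]
      rfl
    have h4 : 1 ≤ b.factorization p := (hp.dvd_iff_one_le_factorization hb0).1 h1
    have h5 : 1 ≤ R.factorization p := (hp.dvd_iff_one_le_factorization hR.ne').1 h2
    have h6 : a.factorization p = min (n.factorization p) ((R ^ n).factorization p) := by
      rw [ha, Nat.factorization_gcd hn (pow_ne_zero _ hR.ne')]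
      rfl
    have h7 : (R ^ n).factorization p = n * R.factorization p := by
      rw [Nat.factorization_pow]
      simp
    have h8 : n.factorization p < n := Nat.factorization_lt p hn
    have h9 : n ≤ n * R.factorization p := Nat.le_mul_of_pos_right n h5
    rw [h7, min_eq_left (by omega)] at h6
    omega
  exact ⟨⟨⟨a, haA⟩, ⟨b, hb0, hbc⟩⟩, hb.symm⟩

theorem rse_ns_hasSum {R : ℕ} (hR : 0 < R) {f : ℕ → ℂ} (hf0 : f 0 = 0) {s : ℂ}
    (hf : HasSum f s) (g : rse_ns_A R → ℂ)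
    (hg : ∀ a : rse_ns_A R, HasSum (fun b : rse_ns_B R => f ((a : ℕ) * (b : ℕ))) (g a)) :
    HasSum g s := by
  have h1 : HasSum (f ∘ fun p : rse_ns_A R × rse_ns_B R => (p.1 : ℕ) * (p.2 : ℕ)) s := by
    rw [Function.Injective.hasSum_iff (rse_ns_inj R)]
    · exact hf
    · intro n hn
      by_cases h0 : n = 0
      · rw [h0, hf0]
      · obtain ⟨p, hp⟩ := rse_ns_surj hR n h0
        exact absurd ⟨p, hp⟩ hn
  exact HasSum.prod_fiberwise h1 hg

/-! ### The sum over the smooth part -/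

/-- `n ↦ n^{-3/4}` -/
noncomputable def rse_ns_pow : ℕ →* ℝ where
  toFun n := (n : ℝ) ^ (-(3 / 4) : ℝ)
  map_one' := by simp
  map_mul' a b := by
    rw [Nat.cast_mul, Real.mul_rpow (Nat.cast_nonneg a) (Nat.cast_nonneg b)]

theorem rse_ns_smooth (R : ℕ) : HasSum (fun a : rse_ns_A R => ((a : ℕ) : ℝ) ^ (-(3 / 4) : ℝ))
    (∏ p ∈ R.primeFactors, (1 - (p : ℝ) ^ (-(3 / 4) : ℝ))⁻¹) := by
  have h := (EulerProduct.summable_and_hasSum_factoredNumbers_prod_filter_prime_geometric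
    (f := rse_ns_pow) (fun {p} hp => by
      show ‖(p : ℝ) ^ (-(3 / 4) : ℝ)‖ < 1
      rw [Real.norm_of_nonneg (by positivity)]
      exact Real.rpow_lt_one_of_one_lt_of_neg (by exact_mod_cast hp.one_lt) (by norm_num))
    R.primeFactors).2
  have h2 : R.primeFactors.filter Nat.Prime = R.primeFactors :=
    Finset.filter_true_of_mem fun p hp => Nat.prime_of_mem_primeFactors hp
  rw [h2] at h
  exact h

/-! ### The main statement -/

/-- the coefficient of the smooth part -/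
noncomputable def rse_ns_c (r : ℕ) (h : ℤ) (i : Fin 4) (a : ℕ) : ℂ :=
  if Odd a then (psi i a : ℂ) * gam h (a * r) / a else 0

theorem rse_ns_psi_norm (i : Fin 4) (n : ℕ) : ‖(psi i n : ℂ)‖ ≤ 1 := by
  rw [Complex.norm_intCast]
  exact_mod_cast rse_ns_psi_abs i n

theorem rse_ns_c_le {r : ℕ} {h : ℤ} (hr : Odd r) (hh : h ≠ 0) (i : Fin 4) (a : ℕ) :
    ‖rse_ns_c r h i a‖ ≤ √(h.natAbs : ℝ) / a := by
  unfold rse_ns_c
  split_ifs with ha
  · rw [norm_div, norm_mul, Complex.norm_natCast]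
    refine div_le_div_of_nonneg_right ?_ (Nat.cast_nonneg a)
    calc ‖(psi i a : ℂ)‖ * ‖gam h (a * r)‖ ≤ 1 * √(h.natAbs : ℝ) :=
          mul_le_mul (rse_ns_psi_norm i a) (gam_bound h hh _ (ha.mul hr)) (norm_nonneg _)
            zero_le_one
      _ = _ := one_mul _
  · rw [norm_zero]
    positivity

theorem rse_ns_rpow {a : ℕ} (ha : a ≠ 0) :
    (a : ℝ) ^ (1 / 4 : ℝ) / a = (a : ℝ) ^ (-(3 / 4) : ℝ) := by
  have ha' : (0 : ℝ) < a := by exact_mod_cast Nat.pos_of_ne_zero ha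
  have h1 : (-(3 / 4) : ℝ) = 1 / 4 - 1 := by norm_num
  rw [h1, Real.rpow_sub ha', Real.rpow_one]

theorem rse_ns_fac {r : ℕ} {h : ℤ} (hr : Odd r) (hh : h ≠ 0) (i : Fin 4) (F : ℝ → ℂ)
    (a b : ℕ) (ha : a ∈ Nat.factoredNumbers (2 * r * h.natAbs).primeFactors)
    (hb0 : b ≠ 0) (hb : b.Coprime (2 * r * h.natAbs)) :
    (if Odd (a * b) then (psi i (a * b) : ℂ) * gam h (a * b * r) / ((a * b : ℕ) : ℂ) *
      F (Real.log ((a * b : ℕ) : ℝ)) else 0) =
    rse_ns_c r h i a * (if 0 < b ∧ Squarefree b ∧ b.Coprime (2 * r * h.natAbs) then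
      (rse_ns_chi i h b : ℂ) / b * F (Real.log b + Real.log a) else 0) := by
  have hbodd : Odd b := by
    have h1 : b.Coprime 2 := Nat.Coprime.coprime_dvd_right ⟨r * h.natAbs, by ring⟩ hb
    exact Nat.coprime_two_right.1 h1
  by_cases ha2 : Odd a
  · have hab : a.Coprime b := rse_ns_A_cop ha hb
    have hrb : r.Coprime b := (Nat.Coprime.coprime_dvd_right ⟨2 * h.natAbs, by ring⟩ hb).symm
    have hhb : h.natAbs.Coprime b := (Nat.Coprime.coprime_dvd_right ⟨2 * r, by ring⟩ hb).symm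
    rw [if_pos (ha2.mul hbodd)]
    have h1 : gam h (a * b * r) = gam h (a * r) * gam h b := by
      have h2 : a * b * r = (a * r) * b := by ring
      rw [h2]
      exact gam_mul h (a * r) b (ha2.mul hr) hbodd (Nat.Coprime.mul_left hab hrb)
    rw [h1, gam_cop h b hbodd hhb, rse_ns_psi_mul]
    unfold rse_ns_c rse_ns_chi
    rw [if_pos ha2, if_pos hbodd]
    have ha' : (a : ℝ) ≠ 0 := by exact_mod_cast ha.1
    have hb' : (b : ℝ) ≠ 0 := by exact_mod_cast hb0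
    have ha'' : (a : ℂ) ≠ 0 := by exact_mod_cast ha.1
    have hb'' : (b : ℂ) ≠ 0 := by exact_mod_cast hb0
    by_cases hsq : Squarefree b
    · rw [if_pos hsq, if_pos ⟨Nat.pos_of_ne_zero hb0, hsq, hb⟩, Nat.cast_mul, Nat.cast_mul,
        Real.log_mul ha' hb', add_comm (Real.log (a : ℝ))]
      push_cast
      field_simp
    · rw [if_neg hsq, if_neg (fun h3 => hsq h3.2.1)]
      ring
  · rw [if_neg (fun h1 => ha2 (Nat.odd_mul.1 h1).1)]
    unfold rse_ns_c
    rw [if_neg ha2, zero_mul]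

theorem ns_sum_pr : ∃ C : ℝ, 0 < C ∧ ∀ (r : ℕ) (h : ℤ) (i : Fin 4), Odd r → h ≠ 0 → ∃ M : ℂ,
    ∀ F : ℝ → ℂ, ContDiff ℝ 1 F → Integrable F → Integrable (deriv F) →
      Integrable (fun y => Real.exp (-(1 / 4) * y) * (‖F y‖ + ‖deriv F y‖)) →
    Summable (fun n : ℕ => if Odd n then
      (psi i n : ℂ) * gam h (n * r) / n * F (Real.log n) else 0) ∧
    ‖(∑' n : ℕ, if Odd n then (psi i n : ℂ) * gam h (n * r) / n * F (Real.log n) else 0) -
      M * ∫ y : ℝ, F y‖ ≤ C * (h.natAbs : ℝ) ^ 2 * (r : ℝ) ^ (1 / 16 : ℝ) *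
        ∫ y : ℝ, Real.exp (-(1 / 4) * y) * (‖F y‖ + ‖deriv F y‖) := by
  obtain ⟨C1, hC1, hsqf⟩ := sqf_sum
  obtain ⟨C2, hC2, hrb⟩ := rb_bound
  refine ⟨16 * C1 * C2, by positivity, fun r h i hr hh => ?_⟩
  have hH1 : 1 ≤ h.natAbs := Nat.one_le_iff_ne_zero.2 (Int.natAbs_ne_zero.2 hh)
  set R : ℕ := 2 * r * h.natAbs with hRdef
  have hR : 0 < R := by
    have := hr.pos
    positivity
  obtain ⟨M', hM'⟩ := hsqf (8 * h.natAbs) (rse_ns_chi i h) (by positivity)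
    (rse_ns_chi_per i h) (rse_ns_chi_abs i h) (rse_ns_chi_one i h) (rse_ns_chi_mul i h) R hR
  have hsm := rse_ns_smooth R
  have hsumc : Summable (fun a : rse_ns_A R => rse_ns_c r h i (a : ℕ)) := by
    refine Summable.of_norm_bounded (hsm.summable.mul_left (√(h.natAbs : ℝ))) fun a => ?_
    have ha0 : (a : ℕ) ≠ 0 := a.2.1
    refine (rse_ns_c_le hr hh i a).trans ?_
    rw [← rse_ns_rpow ha0, div_eq_mul_one_div]
    refine mul_le_mul_of_nonneg_left ?_ (Real.sqrt_nonneg _)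
    refine div_le_div_of_nonneg_right ?_ (Nat.cast_nonneg _)
    exact Real.one_le_rpow (by exact_mod_cast Nat.one_le_iff_ne_zero.2 ha0) (by norm_num)
  refine ⟨(∑' a : rse_ns_A R, rse_ns_c r h i (a : ℕ)) * M', fun F hF hi hi' hw => ?_⟩
  set I : ℝ := ∫ y : ℝ, Real.exp (-(1 / 4) * y) * (‖F y‖ + ‖deriv F y‖) with hI
  have hI0 : 0 ≤ I := integral_nonneg fun y => by positivity
  -- summability
  have hsumf : Summable (fun n : ℕ => if Odd n then
      (psi i n : ℂ) * gam h (n * r) / n * F (Real.log n) else 0) := by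
    have h1 := (em_sum 1 one_pos (fun _ => 1) (fun _ => rfl) (fun _ => by simp) F hF hi hi').1
    refine Summable.of_norm_bounded (h1.norm.mul_left (√(h.natAbs : ℝ))) fun n => ?_
    by_cases hn : Odd n
    · rw [if_pos hn, if_pos hn.pos, norm_mul, norm_div, norm_mul, norm_mul, norm_div,
        Complex.ofReal_one, norm_one, ← mul_assoc]
      refine mul_le_mul_of_nonneg_right ?_ (norm_nonneg _)
      rw [mul_one_div]
      refine div_le_div_of_nonneg_right ?_ (norm_nonneg _)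
      calc ‖(psi i n : ℂ)‖ * ‖gam h (n * r)‖ ≤ 1 * √(h.natAbs : ℝ) :=
            mul_le_mul (rse_ns_psi_norm i n) (gam_bound h hh _ (hn.mul hr)) (norm_nonneg _)
              zero_le_one
        _ = _ := one_mul _
    · rw [if_neg hn, norm_zero]
      positivity
  refine ⟨hsumf, ?_⟩
  -- the inner sums
  have hinner : ∀ a : rse_ns_A R, Summable (fun n : ℕ =>
      if 0 < n ∧ Squarefree n ∧ n.Coprime R then
        (rse_ns_chi i h n : ℂ) / n * F (Real.log n + Real.log ((a : ℕ) : ℝ)) else 0) ∧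
      ‖(∑' n : ℕ, if 0 < n ∧ Squarefree n ∧ n.Coprime R then
        (rse_ns_chi i h n : ℂ) / n * F (Real.log n + Real.log ((a : ℕ) : ℝ)) else 0) -
          (M' : ℂ) * ∫ y : ℝ, F y‖ ≤
        C1 * ((8 * h.natAbs : ℕ) : ℝ) * E1 R * (((a : ℕ) : ℝ) ^ (1 / 4 : ℝ) * I) := by
    intro a
    set l : ℝ := Real.log ((a : ℕ) : ℝ) with hl
    have hder : deriv (fun y : ℝ => F (y + l)) = fun y => deriv F (y + l) := by
      funext y
      exact deriv_comp_add_const F l y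
    have hw2 : (fun y : ℝ => Real.exp (-(1 / 4) * y) * (‖F (y + l)‖ +
        ‖deriv (fun y : ℝ => F (y + l)) y‖)) = fun y => Real.exp (l / 4) *
        (Real.exp (-(1 / 4) * (y + l)) * (‖F (y + l)‖ + ‖deriv F (y + l)‖)) := by
      funext y
      rw [hder, ← mul_assoc, ← Real.exp_add]
      congr 2
      ring
    have hint : Integrable (fun y : ℝ => Real.exp (-(1 / 4) * y) * (‖F (y + l)‖ +
        ‖deriv (fun y : ℝ => F (y + l)) y‖)) := by
      rw [hw2]
      exact (hw.comp_add_right l).const_mul _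
    obtain ⟨h1, h2⟩ := hM' (1 / 4) (by norm_num) le_rfl (fun y : ℝ => F (y + l))
      (hF.comp (contDiff_id.add contDiff_const)) (hi.comp_add_right l)
      (by rw [hder]; exact hi'.comp_add_right l) hint
    refine ⟨h1, ?_⟩
    rw [integral_add_right_eq_self (fun y => F y)] at h2
    refine h2.trans_eq ?_
    congr 1
    rw [hw2, integral_const_mul, integral_add_right_eq_self
      (fun y => Real.exp (-(1 / 4) * y) * (‖F y‖ + ‖deriv F y‖)), ← hI]
    congr 1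
    have ha0 : (0 : ℝ) < ((a : ℕ) : ℝ) := by exact_mod_cast Nat.pos_of_ne_zero a.2.1
    rw [Real.rpow_def_of_pos ha0, hl]
    congr 1
    ring
  have hg : ∀ a : rse_ns_A R, HasSum (fun b : rse_ns_B R =>
      (fun n : ℕ => if Odd n then (psi i n : ℂ) * gam h (n * r) / n * F (Real.log n) else 0)
        ((a : ℕ) * (b : ℕ)))
      (rse_ns_c r h i (a : ℕ) * ∑' n : ℕ, if 0 < n ∧ Squarefree n ∧ n.Coprime R then
        (rse_ns_chi i h n : ℂ) / n * F (Real.log n + Real.log ((a : ℕ) : ℝ)) else 0) := by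
    intro a
    have h1 := (hinner a).1.hasSum
    have h2 : HasSum ((fun n : ℕ => if 0 < n ∧ Squarefree n ∧ n.Coprime R then
        (rse_ns_chi i h n : ℂ) / n * F (Real.log n + Real.log ((a : ℕ) : ℝ)) else 0) ∘
        (Subtype.val : {b : ℕ | b ≠ 0 ∧ b.Coprime R} → ℕ)) _ :=
      (hasSum_subtype_iff_of_support_subset (fun n hn => by
        rw [Function.mem_support] at hn
        by_contra h3
        apply hn
        rw [if_neg]
        rintro ⟨h4, h5, h6⟩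
        exact h3 ⟨h4.ne', h6⟩)).2 h1
    have h3 := h2.mul_left (rse_ns_c r h i (a : ℕ))
    have h4 : (fun b : rse_ns_B R =>
        (fun n : ℕ => if Odd n then (psi i n : ℂ) * gam h (n * r) / n * F (Real.log n) else 0)
          ((a : ℕ) * (b : ℕ))) = fun b : rse_ns_B R => rse_ns_c r h i (a : ℕ) *
        ((fun n : ℕ => if 0 < n ∧ Squarefree n ∧ n.Coprime R then
        (rse_ns_chi i h n : ℂ) / n * F (Real.log n + Real.log ((a : ℕ) : ℝ)) else 0) ∘
        (Subtype.val : {b : ℕ | b ≠ 0 ∧ b.Coprime R} → ℕ)) b := by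
      funext b
      exact rse_ns_fac hr hh i F (a : ℕ) (b : ℕ) a.2 b.2.1 b.2.2
    rw [h4]
    exact h3
  have htot := rse_ns_hasSum hR (f := fun n : ℕ => if Odd n then
      (psi i n : ℂ) * gam h (n * r) / n * F (Real.log n) else 0)
    (by simp) hsumf.hasSum _ hg
  have hG0 := hsumc.hasSum.mul_right ((M' : ℂ) * ∫ y : ℝ, F y)
  have hdiff := htot.sub hG0
  have hE := hsm.mul_left (√(h.natAbs : ℝ) * (C1 * ((8 * h.natAbs : ℕ) : ℝ) * E1 R) * I)
  have hbound := tsum_of_norm_bounded hE (f := fun a : rse_ns_A R =>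
    rse_ns_c r h i (a : ℕ) * (∑' n : ℕ, if 0 < n ∧ Squarefree n ∧ n.Coprime R then
        (rse_ns_chi i h n : ℂ) / n * F (Real.log n + Real.log ((a : ℕ) : ℝ)) else 0) -
      rse_ns_c r h i (a : ℕ) * ((M' : ℂ) * ∫ y : ℝ, F y)) (fun a => by
    rw [← mul_sub, norm_mul]
    have ha0 : (a : ℕ) ≠ 0 := a.2.1
    have h1 := mul_le_mul (rse_ns_c_le hr hh i (a : ℕ)) (hinner a).2 (norm_nonneg _)
      (by positivity)
    refine h1.trans_eq ?_
    rw [← rse_ns_rpow ha0]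
    ring)
  rw [hdiff.tsum_eq] at hbound
  have hfin : (∑' n : ℕ, if Odd n then (psi i n : ℂ) * gam h (n * r) / n * F (Real.log n)
      else 0) - (∑' a : rse_ns_A R, rse_ns_c r h i (a : ℕ)) * M' * ∫ y : ℝ, F y =
      (∑' n : ℕ, if Odd n then (psi i n : ℂ) * gam h (n * r) / n * F (Real.log n)
      else 0) - (∑' a : rse_ns_A R, rse_ns_c r h i (a : ℕ)) * (M' * ∫ y : ℝ, F y) := by
    ring
  rw [hfin]
  refine hbound.trans ?_
  -- numerical bound
  have hrb' := hrb R hR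
  have hHr : (1 : ℝ) ≤ (h.natAbs : ℝ) := by exact_mod_cast hH1
  have hH0 : (0 : ℝ) ≤ (h.natAbs : ℝ) := by linarith
  have hr0 : (0 : ℝ) ≤ (r : ℝ) := Nat.cast_nonneg r
  have h5 : √(h.natAbs : ℝ) * (C1 * ((8 * h.natAbs : ℕ) : ℝ) * E1 R) * I *
      ∏ p ∈ R.primeFactors, (1 - (p : ℝ) ^ (-(3 / 4) : ℝ))⁻¹ =
      8 * C1 * (√(h.natAbs : ℝ) * (h.natAbs : ℝ)) * I * (E1 R *
      ∏ p ∈ R.primeFactors, (1 - (p : ℝ) ^ (-(3 / 4) : ℝ))⁻¹) := by
    push_cast
    ring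
  rw [h5]
  have h6 : 8 * C1 * (√(h.natAbs : ℝ) * (h.natAbs : ℝ)) * I * (E1 R *
      ∏ p ∈ R.primeFactors, (1 - (p : ℝ) ^ (-(3 / 4) : ℝ))⁻¹) ≤
      8 * C1 * (√(h.natAbs : ℝ) * (h.natAbs : ℝ)) * I * (C2 * (R : ℝ) ^ (1 / 16 : ℝ)) :=
    mul_le_mul_of_nonneg_left hrb' (by positivity)
  refine h6.trans ?_
  have h7 : (R : ℝ) ^ (1 / 16 : ℝ) ≤ 2 * (h.natAbs : ℝ) ^ (1 / 2 : ℝ) * (r : ℝ) ^ (1 / 16 : ℝ) := by
    rw [hRdef]
    push_cast
    rw [Real.mul_rpow (by positivity) hH0, Real.mul_rpow (by norm_num) hr0]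
    have h8 : (2 : ℝ) ^ (1 / 16 : ℝ) ≤ 2 := by
      calc (2 : ℝ) ^ (1 / 16 : ℝ) ≤ (2 : ℝ) ^ (1 : ℝ) :=
            Real.rpow_le_rpow_of_exponent_le (by norm_num) (by norm_num)
        _ = 2 := Real.rpow_one 2
    have h9 : (h.natAbs : ℝ) ^ (1 / 16 : ℝ) ≤ (h.natAbs : ℝ) ^ (1 / 2 : ℝ) :=
      Real.rpow_le_rpow_of_exponent_le hHr (by norm_num)
    calc (2 : ℝ) ^ (1 / 16 : ℝ) * (r : ℝ) ^ (1 / 16 : ℝ) * (h.natAbs : ℝ) ^ (1 / 16 : ℝ) ≤
        2 * (r : ℝ) ^ (1 / 16 : ℝ) * (h.natAbs : ℝ) ^ (1 / 2 : ℝ) := by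
          refine mul_le_mul (mul_le_mul_of_nonneg_right h8 (by positivity)) h9
            (by positivity) (by positivity)
      _ = _ := by ring
  have h10 : √(h.natAbs : ℝ) * (h.natAbs : ℝ) ^ (1 / 2 : ℝ) = (h.natAbs : ℝ) := by
    rw [← Real.sqrt_eq_rpow, Real.mul_self_sqrt hH0]
  calc 8 * C1 * (√(h.natAbs : ℝ) * (h.natAbs : ℝ)) * I * (C2 * (R : ℝ) ^ (1 / 16 : ℝ)) ≤
      8 * C1 * (√(h.natAbs : ℝ) * (h.natAbs : ℝ)) * I *
        (C2 * (2 * (h.natAbs : ℝ) ^ (1 / 2 : ℝ) * (r : ℝ) ^ (1 / 16 : ℝ))) := by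
        refine mul_le_mul_of_nonneg_left (mul_le_mul_of_nonneg_left h7 hC2.le) (by positivity)
    _ = 16 * C1 * C2 * (√(h.natAbs : ℝ) * (h.natAbs : ℝ) ^ (1 / 2 : ℝ)) * (h.natAbs : ℝ) *
        (r : ℝ) ^ (1 / 16 : ℝ) * I := by ring
    _ = 16 * C1 * C2 * (h.natAbs : ℝ) ^ 2 * (r : ℝ) ^ (1 / 16 : ℝ) * I := by
        rw [h10]
        ring

end Pool.Agent.RSE

namespace Pool.Agent.RSE

alias ns_sum := ns_sum_pr

end Pool.Agent.RSE
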