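import Pool.Agent.Lib_helper39.RSE.Defs
import Pool.Agent.Lib_helper39.RSA.DefsB
import Pool.Agent.Lib_helper39.RSA.PIA
namespace Pool.Agent.RSE

open Complex MeasureTheory Filter Topology
open Pool.Agent.RC (cc psi rv f0 IsRC Good gm pr DD)
open scoped ContDiff

theorem rse_pih_symm (φ g : ℝ → ℝ) (h : ℤ) (i : Fin 4) (lam : ℕ) (K u1 u2 : ℝ) :
    SS φ g h i lam K u1 u2 = SS φ g h i lam K u2 u1 := by
  unfold SS
  rw [← (Equiv.prodComm ℕ ℕ).tsum_eq]
  apply tsum_congr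
  rintro ⟨a, b⟩
  change (if Odd b ∧ Odd a then
      (psi i (b * a * lam) : ℂ) * gam h (b * a * lam) / ((b : ℂ) * a) *
        ((g (Real.log b + u1) * g (Real.log a + u2) : ℝ) : ℂ) *
        fhat φ (h * K / (8 * (b * a * lam))) else 0) =
    (if Odd a ∧ Odd b then
      (psi i (a * b * lam) : ℂ) * gam h (a * b * lam) / ((a : ℂ) * b) *
        ((g (Real.log a + u2) * g (Real.log b + u1) : ℝ) : ℂ) *
        fhat φ (h * K / (8 * (a * b * lam))) else 0)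
  by_cases h' : Odd a ∧ Odd b
  · have e1 : b * a * lam = a * b * lam := by ring
    have e2 : ((b : ℝ) * a * lam) = (a : ℝ) * b * lam := by ring
    have e3 : ((b : ℂ) * a) = (a : ℂ) * b := by ring
    have e4 : g (Real.log b + u1) * g (Real.log a + u2) =
        g (Real.log a + u2) * g (Real.log b + u1) := by ring
    rw [if_pos (show Odd b ∧ Odd a from ⟨h'.2, h'.1⟩), if_pos h', e1, e2, e3, e4]
  · rw [if_neg h', if_neg (by tauto)]

theorem pih_bound_pr {φ g : ℝ → ℝ} (hφ : Bump φ) (hg : Kern g) : ∃ C : ℝ, 0 < C ∧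
    ∀ (h : ℤ) (i : Fin 4) (lam : ℕ) (K u1 u2 τ : ℝ), h ≠ 0 → Odd lam → 0 < K →
    ‖SS φ g h i lam K (u1 + τ) (u2 - τ) - SS φ g h i lam K u1 u2‖ ≤
      C * (lam : ℝ) ^ 6 / ((h.natAbs : ℝ) ^ 3 * K ^ 5) * Real.exp (-5 * (u1 + u2)) *
        (Real.exp (|τ| / 2) *
          (Real.exp (u1 / 4 - u2 / 16) + Real.exp (u2 / 4 - u1 / 16))) := by
  obtain ⟨C, hC, H⟩ := pia_bound hφ hg
  refine ⟨C, hC, fun h i lam K u1 u2 τ hh hlam hK => ?_⟩
  have hn1 : 0 < (h.natAbs : ℝ) := by exact_mod_cast Int.natAbs_pos.mpr hh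
  have hlp : (0 : ℝ) < lam := by exact_mod_cast hlam.pos
  have h1 := H h i lam K u1 u2 τ hh hlam hK
  have h2 := H h i lam (K * Real.exp (-τ)) u2 (u1 + τ) (-τ) hh hlam (by positivity)
  have e1 : K * Real.exp (-τ) * Real.exp (- -τ) = K := by
    rw [mul_assoc, ← Real.exp_add]; simp
  rw [e1, rse_pih_symm φ g h i lam K (u2 + -τ) (u1 + τ),
    rse_pih_symm φ g h i lam (K * Real.exp (-τ)) u2 (u1 + τ), ← sub_eq_add_neg] at h2
  have h3 := norm_add_le (SS φ g h i lam K (u1 + τ) (u2 - τ) -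
    SS φ g h i lam (K * Real.exp (-τ)) (u1 + τ) u2)
    (SS φ g h i lam (K * Real.exp (-τ)) (u1 + τ) u2 - SS φ g h i lam K u1 u2)
  rw [sub_add_sub_cancel] at h3
  refine h3.trans ((add_le_add h2 h1).trans ?_)
  set P : ℝ := C * (lam : ℝ) ^ 6 / ((h.natAbs : ℝ) ^ 3 * K ^ 5) * Real.exp (-5 * (u1 + u2))
    with hP
  have hP0 : 0 ≤ P := by positivity
  have e2 : C * (lam : ℝ) ^ 6 / ((h.natAbs : ℝ) ^ 3 * (K * Real.exp (-τ)) ^ 5) *
      Real.exp (-5 * (u2 + (u1 + τ))) * (Real.exp (|-τ| / 4) *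
        Real.exp (u2 / 4 - (u1 + τ) / 16)) =
      P * (Real.exp (|τ| / 4 - τ / 16) * Real.exp (u2 / 4 - u1 / 16)) := by
    rw [hP, abs_neg, mul_pow, ← Real.exp_nat_mul]
    rw [show ((h.natAbs : ℝ) ^ 3 * (K ^ 5 * Real.exp ((5 : ℕ) * -τ))) =
      (h.natAbs : ℝ) ^ 3 * K ^ 5 * Real.exp ((5 : ℕ) * -τ) by ring, div_mul_eq_div_div]
    rw [show ((5 : ℕ) : ℝ) * -τ = -(5 * τ) by push_cast; ring, Real.exp_neg, div_inv_eq_mul]
    have e3 : Real.exp (5 * τ) * Real.exp (-5 * (u2 + (u1 + τ))) =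
        Real.exp (-5 * (u1 + u2)) := by
      rw [← Real.exp_add]; congr 1; ring
    have e4 : Real.exp (|τ| / 4) * Real.exp (u2 / 4 - (u1 + τ) / 16) =
        Real.exp (|τ| / 4 - τ / 16) * Real.exp (u2 / 4 - u1 / 16) := by
      rw [← Real.exp_add, ← Real.exp_add]; congr 1; ring
    rw [e4, ← e3]
    ring
  rw [e2]
  have t1 : Real.exp (|τ| / 4 - τ / 16) ≤ Real.exp (|τ| / 2) := by
    apply Real.exp_le_exp.mpr
    have := neg_abs_le τ
    have := abs_nonneg τ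
    linarith
  have t2 : Real.exp (|τ| / 4) ≤ Real.exp (|τ| / 2) := by
    apply Real.exp_le_exp.mpr
    have := abs_nonneg τ
    linarith
  calc P * (Real.exp (|τ| / 4 - τ / 16) * Real.exp (u2 / 4 - u1 / 16)) +
        P * (Real.exp (|τ| / 4) * Real.exp (u1 / 4 - u2 / 16)) ≤
      P * (Real.exp (|τ| / 2) * Real.exp (u2 / 4 - u1 / 16)) +
        P * (Real.exp (|τ| / 2) * Real.exp (u1 / 4 - u2 / 16)) := by gcongr
    _ = _ := by ring


end Pool.Agent.RSE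

namespace Pool.Agent.RSE

alias pih_bound := pih_bound_pr

end Pool.Agent.RSE
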