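import Pool.Agent.Lib_helper39.RSE.Defs
import Pool.Agent.Lib_helper39.RSA.DefsB
import Pool.Agent.Lib_helper39.RSA.FHD
/-! # Block PSN: Poisson summation modulo `8N` -/

namespace Pool.Agent.RSE

open Complex MeasureTheory Filter Topology
open Pool.Agent.RC (cc psi rv f0 IsRC Good gm pr DD)
open scoped ContDiff FourierTransform

theorem rse_psn_fourier (φ : ℝ → ℝ) (K M : ℝ) (hK : 0 < K) (hM : 0 < M) (ξ : ℝ) :
    𝓕 (fun t : ℝ => (φ (M * t / K) : ℂ)) ξ = K / M * fhat φ (ξ * K / M) := by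
  rw [Real.fourier_real_eq_integral_exp_smul]
  have h1 : (fun v : ℝ => cexp (((-2 * Real.pi * v * ξ : ℝ) : ℂ) * I) • (φ (M * v / K) : ℂ)) =
      fun v : ℝ => (fun y : ℝ => (φ y : ℂ) * cexp (-(2 * Real.pi * I * (y * ((ξ * K / M : ℝ) : ℂ)))))
        ((M / K) * v) := by
    funext v
    have hv : M * v / K = M / K * v := by ring
    have h2 : ((-2 * Real.pi * v * ξ : ℝ) : ℂ) * I =
        -(2 * Real.pi * I * (((M / K * v : ℝ) : ℂ) * ((ξ * K / M : ℝ) : ℂ))) := by
      have hK' : (K : ℂ) ≠ 0 := by exact_mod_cast hK.ne'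
      have hM' : (M : ℂ) ≠ 0 := by exact_mod_cast hM.ne'
      push_cast
      field_simp
    simp only [smul_eq_mul]
    rw [h2, hv, mul_comm]
  rw [h1, Measure.integral_comp_mul_left
    (fun y : ℝ => (φ y : ℂ) * cexp (-(2 * Real.pi * I * (y * ((ξ * K / M : ℝ) : ℂ)))))]
  rw [show |(M / K)⁻¹| = K / M by rw [inv_div, abs_of_pos (by positivity)]]
  unfold fhat
  rw [Complex.real_smul]
  push_cast
  rfl

theorem rse_psn_summ {φ : ℝ → ℝ} (hφ : Bump φ) {a : ℝ} (ha : 0 < a) {e : ℤ → ℂ} {B : ℝ}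
    (he : ∀ h, ‖e h‖ ≤ B) : Summable fun h : ℤ => fhat φ (h * a) * e h := by
  obtain ⟨C, hC, hd⟩ := fhat_decay hφ 2
  have hB : 0 ≤ B := (norm_nonneg _).trans (he 0)
  have h1 : Summable fun n : ℤ => C / a ^ 2 * B * |(n : ℝ)| ^ (-(2 : ℝ)) :=
    (Real.summable_abs_int_rpow (by norm_num)).mul_left _
  refine Summable.of_norm_bounded_eventually h1 ?_
  have h2 : ∀ᶠ n : ℤ in cofinite, n ≠ 0 := by
    rw [eventually_cofinite]; simp
  filter_upwards [h2] with n hn
  have hn' : (n : ℝ) ≠ 0 := by exact_mod_cast hn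
  have h3 := (hd (n * a) (mul_ne_zero hn' ha.ne')).1
  rw [norm_mul]
  have h4 : C / |(n : ℝ) * a| ^ 2 = C / a ^ 2 * |(n : ℝ)| ^ (-(2 : ℝ)) := by
    rw [abs_mul, abs_of_pos ha, Real.rpow_neg (abs_nonneg _)]
    rw [Real.rpow_two]
    have := abs_pos.2 hn'
    field_simp
  have h5 : ‖fhat φ (n * a)‖ * ‖e n‖ ≤ (C / |(n : ℝ) * a| ^ 2) * B :=
    mul_le_mul h3 (he n) (norm_nonneg _) (by positivity)
  rw [h4] at h5
  calc ‖fhat φ (n * a)‖ * ‖e n‖ ≤ _ := h5
    _ = _ := by ring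

theorem rse_psn_poisson {φ : ℝ → ℝ} (hφ : Bump φ) (K M : ℝ) (hK : 0 < K) (hM : 0 < M) (r : ℝ) :
    ∑' k : ℤ, (φ ((r + M * k) / K) : ℂ) =
      K / M * ∑' h : ℤ, fhat φ (h * (K / M)) * cexp (2 * Real.pi * I * (h * r / M)) := by
  have hc : Continuous (fun t : ℝ => (φ (M * t / K) : ℂ)) := by
    have := hφ.smooth.continuous
    fun_prop
  have hsum : Summable fun n : ℤ => 𝓕 (fun t : ℝ => (φ (M * t / K) : ℂ)) n := by
    have h1 : (fun n : ℤ => 𝓕 (fun t : ℝ => (φ (M * t / K) : ℂ)) n) =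
        fun n : ℤ => (K / M : ℂ) * (fhat φ (n * (K / M)) * 1) := by
      funext n
      rw [rse_psn_fourier φ K M hK hM, mul_one, mul_div_assoc]
    rw [h1]
    exact (rse_psn_summ hφ (a := K / M) (by positivity) (e := fun _ => 1) (B := 1)
      (by simp)).mul_left _
  have hO : (fun t : ℝ => (φ (M * t / K) : ℂ)) =O[cocompact ℝ] fun x : ℝ => |x| ^ (-(2 : ℝ)) := by
    have h1 : (fun t : ℝ => (φ (M * t / K) : ℂ)) =ᶠ[cocompact ℝ] fun _ => (0 : ℂ) := by
      have h2 : (Metric.closedBall (0 : ℝ) (4 * K / M))ᶜ ∈ cocompact ℝ :=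
        (isCompact_closedBall _ _).compl_mem_cocompact
      filter_upwards [h2] with t ht
      rw [Set.mem_compl_iff, Metric.mem_closedBall, dist_zero_right, Real.norm_eq_abs,
        not_le] at ht
      have h3 : M * t / K < 1 / 2 ∨ 4 < M * t / K := by
        rcases lt_abs.1 ht with h | h
        · right
          rw [lt_div_iff₀ hK]
          rw [div_lt_iff₀ hM] at h
          linarith
        · left
          have : M * t < 0 := by
            have h5 : 0 < 4 * K / M := by positivity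
            have h6 : t < 0 := by linarith
            exact mul_neg_of_pos_of_neg hM h6
          have h7 : M * t / K < 0 := div_neg_of_neg_of_pos this hK
          linarith
      rw [hφ.supp _ h3]; simp
    exact h1.trans_isBigO (Asymptotics.isBigO_zero _ _)
  have h := Real.tsum_eq_tsum_fourier_of_rpow_decay_of_summable hc (b := 2) (by norm_num) hO hsum
    (r / M)
  have e1 : ∀ k : ℤ, (φ (M * (r / M + k) / K) : ℂ) = (φ ((r + M * k) / K) : ℂ) := by
    intro k
    rw [show M * (r / M + k) = r + M * k by field_simp]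
  have e2 : ∀ n : ℤ, 𝓕 (fun t : ℝ => (φ (M * t / K) : ℂ)) n *
      fourier n ((r / M : ℝ) : UnitAddCircle) =
      (K / M : ℂ) * (fhat φ (n * (K / M)) * cexp (2 * Real.pi * I * (n * r / M))) := by
    intro n
    rw [rse_psn_fourier φ K M hK hM, fourier_coe_apply, mul_div_assoc]
    rw [show (2 * Real.pi * I * n * ((r / M : ℝ) : ℂ) / ((1 : ℝ) : ℂ)) =
      2 * Real.pi * I * (n * r / M) by push_cast; ring]
    ring
  simp only [e1, e2] at h
  rw [h, tsum_mul_left]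

/-! ### The h = 0 term -/

theorem rse_psn_val {N : ℕ} (hN : ¬ IsSquare N) :
    ∃ p v M : ℕ, p.Prime ∧ Odd v ∧ ¬ p ∣ M ∧ N = p ^ v * M := by
  have hN0 : N ≠ 0 := by rintro rfl; exact hN ⟨0, rfl⟩
  by_contra hcon
  push Not at hcon
  apply hN
  have h : ∀ p ∈ N.primeFactors, Even (N.factorization p) := by
    intro p hp
    by_contra h
    have hpp := Nat.prime_of_mem_primeFactors hp
    exact hcon p (N.factorization p) (N / p ^ N.factorization p) hpp (Nat.not_even_iff_odd.1 h)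
      (Nat.not_dvd_ordCompl hpp hN0) (Nat.ordProj_mul_ordCompl_eq_self N p).symm
  refine ⟨∏ p ∈ N.primeFactors, p ^ (N.factorization p / 2), ?_⟩
  rw [← Finset.prod_mul_distrib]
  conv_lhs => rw [← Nat.prod_factorization_pow_eq_self hN0]
  rw [Finsupp.prod, Nat.support_factorization]
  apply Finset.prod_congr rfl
  intro p hp
  rw [← pow_add]
  congr 1
  obtain ⟨k, hk⟩ := h p hp
  omega

theorem rse_psn_neg {N : ℕ} (hN : ¬ IsSquare N) (ho : Odd N) :
    ∃ m : ℕ, m.Coprime N ∧ jacobiSym (m : ℤ) N = -1 := by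
  obtain ⟨p, v, M, hp, hv, hpM, rfl⟩ := rse_psn_val hN
  have hM0 : M ≠ 0 := by rintro rfl; exact hpM (dvd_zero _)
  have : Fact p.Prime := ⟨hp⟩
  have hp2 : p ≠ 2 := by
    rintro rfl
    have h1 : Odd (2 ^ v) := (Nat.odd_mul.1 ho).1
    have h2 : v ≠ 0 := hv.pos.ne'
    rw [Nat.odd_pow_iff h2] at h1
    exact absurd h1 (by decide)
  obtain ⟨a, ha⟩ : ∃ a : ℕ, jacobiSym (a : ℤ) p = -1 := by
    obtain ⟨a, ha⟩ := FiniteField.exists_nonsquare (F := ZMod p)
      (by rw [ZMod.ringChar_zmod_n]; exact hp2)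
    refine ⟨a.val, ?_⟩
    rw [← jacobiSym.legendreSym.to_jacobiSym, legendreSym.eq_neg_one_iff]
    simpa using ha
  obtain ⟨m, h1, h2⟩ := Nat.chineseRemainder ((Nat.Prime.coprime_iff_not_dvd hp).2 hpM) a 1
  have hJ : jacobiSym (m : ℤ) (p ^ v * M) = -1 := by
    rw [jacobiSym.mul_right' _ (pow_ne_zero _ hp.ne_zero) hM0, jacobiSym.pow_right]
    have h3 : jacobiSym (m : ℤ) p = jacobiSym a p := by
      apply jacobiSym.mod_left'
      exact_mod_cast h1
    have h4 : jacobiSym (m : ℤ) M = jacobiSym 1 M := by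
      apply jacobiSym.mod_left'
      exact_mod_cast h2
    rw [h3, h4, ha, hv.neg_one_pow, jacobiSym.one_left]
    norm_num
  refine ⟨m, ?_, hJ⟩
  have : NeZero (p ^ v * M) := ⟨ho.pos.ne'⟩
  by_contra hcon
  have h5 : jacobiSym (m : ℤ) (p ^ v * M) = 0 := by
    rw [jacobiSym.eq_zero_iff_not_coprime]
    exact_mod_cast hcon
  rw [hJ] at h5
  exact absurd h5 (by norm_num)

theorem rse_psn_gs0 {N : ℕ} (hN : Odd N) :
    Gs 0 N = if IsSquare N then (Nat.totient N : ℂ) else 0 := by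
  have h0 : Gs 0 N = ((∑ x ∈ Finset.range N, jacobiSym (x : ℤ) N : ℤ) : ℂ) := by
    unfold Gs
    push_cast
    apply Finset.sum_congr rfl
    intro x hx
    simp
  rw [h0]
  have : NeZero N := ⟨hN.pos.ne'⟩
  split_ifs with hs
  · obtain ⟨k, rfl⟩ := hs
    have hk : k ≠ 0 := by
      rintro rfl
      exact absurd hN (by decide)
    have h1 : ∀ x ∈ Finset.range (k * k), jacobiSym (x : ℤ) (k * k) =
        if (k * k).Coprime x then 1 else 0 := by
      intro x hx
      split_ifs with hc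
      · rw [jacobiSym.mul_right' _ hk hk]
        have hc' : ((x : ℤ)).gcd k = 1 := by
          have := (Nat.Coprime.coprime_mul_left hc).symm
          exact_mod_cast this
        rw [← sq, jacobiSym.sq_one hc']
      · rw [jacobiSym.eq_zero_iff_not_coprime]
        intro h
        apply hc
        have : Nat.Coprime x (k * k) := by exact_mod_cast h
        exact this.symm
    rw [Finset.sum_congr rfl h1, Finset.sum_boole, Nat.totient_eq_card_coprime]
    push_cast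
    rfl
  · obtain ⟨m, hm, hJ⟩ := rse_psn_neg hs hN
    have h2 : ∑ x ∈ Finset.range N, jacobiSym (x : ℤ) N =
        ∑ x : ZMod N, jacobiSym (x.val : ℤ) N := by
      rw [Finset.sum_range fun x => jacobiSym (x : ℤ) N]
      obtain ⟨n, rfl⟩ : ∃ n, N = n + 1 := ⟨N - 1, by have := hN.pos; omega⟩
      rfl
    have h3 : ∑ x : ZMod N, jacobiSym (x.val : ℤ) N =
        -∑ x : ZMod N, jacobiSym (x.val : ℤ) N := by
      conv_lhs => rw [← Fintype.sum_equiv (Units.mulLeft (ZMod.unitOfCoprime m hm))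
        (fun x => jacobiSym (((m : ZMod N) * x).val : ℤ) N) (fun x => jacobiSym (x.val : ℤ) N)
        (fun x => rfl)]
      rw [← Finset.sum_neg_distrib]
      apply Finset.sum_congr rfl
      intro x _
      rw [ZMod.val_mul, ZMod.val_natCast]
      have h4 : jacobiSym (((m % N * x.val) % N : ℕ) : ℤ) N = jacobiSym ((m * x.val : ℕ) : ℤ) N := by
        apply jacobiSym.mod_left'
        push_cast
        simp [Int.mul_emod]
      rw [h4]
      push_cast
      rw [jacobiSym.mul_left, hJ]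
      simp
    have h5 : ∑ x : ZMod N, jacobiSym (x.val : ℤ) N = 0 := by linarith
    rw [h2, h5]
    simp

/-! ### The sum over a class modulo `8` -/

theorem rse_psn_class {φ : ℝ → ℝ} (hφ : Bump φ) (c : ℕ) {K : ℝ} (hK : 0 < K) {N : ℕ}
    (hN : Odd N) :
    ∑' t : ℤ, ((jacobiSym (c + 8 * t) N : ℂ) * (φ ((c + 8 * t : ℤ) / K) : ℂ)) =
      (jacobiSym 2 N : ℂ) * (K / (8 * N)) * ∑' h : ℤ, fhat φ (h * (K / (8 * N))) *
        (cexp (2 * Real.pi * I * (h * (c * N) / 8)) * Gs h N) := by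
  have : NeZero N := ⟨hN.pos.ne'⟩
  have hNpos : (0 : ℝ) < N := by exact_mod_cast hN.pos
  have hNc : (N : ℂ) ≠ 0 := by exact_mod_cast hN.pos.ne'
  obtain ⟨s, hs⟩ : ∃ s : ℤ, (c : ℤ) * N ^ 2 = c + 8 * s := by
    obtain ⟨k, rfl⟩ := hN
    obtain ⟨l, hl⟩ := Nat.even_mul_succ_self k
    refine ⟨c * l, ?_⟩
    have hl' : (k : ℤ) * (k + 1) = l + l := by exact_mod_cast hl
    push_cast
    linear_combination 4 * (c : ℤ) * hl'
  -- shift
  have h1 : ∑' t : ℤ, ((jacobiSym (c + 8 * t) N : ℂ) * (φ ((c + 8 * t : ℤ) / K) : ℂ)) =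
      ∑' t : ℤ, (jacobiSym 2 N : ℂ) *
        ((jacobiSym t N : ℂ) * (φ ((c * N ^ 2 + 8 * t : ℝ) / K) : ℂ)) := by
    rw [← (Equiv.addLeft s).tsum_eq]
    apply tsum_congr
    intro t
    have h2 : (c : ℤ) + 8 * (Equiv.addLeft s t) = c * N ^ 2 + 8 * t := by
      simp only [Equiv.coe_addLeft]
      linear_combination -hs
    rw [h2]
    have h3 : jacobiSym ((c : ℤ) * N ^ 2 + 8 * t) N = jacobiSym 2 N * jacobiSym t N := by
      have h4 : jacobiSym ((c : ℤ) * N ^ 2 + 8 * t) N = jacobiSym (2 ^ 3 * t) N := by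
        apply jacobiSym.mod_left'
        apply Int.emod_emod_of_dvd _ (dvd_refl _) |>.symm.trans
        rw [show (c : ℤ) * N ^ 2 + 8 * t = 2 ^ 3 * t + N * (c * N) by ring,
          Int.add_mul_emod_self_left, Int.emod_emod_of_dvd _ (dvd_refl _)]
      rw [h4, jacobiSym.mul_left, jacobiSym.pow_left]
      have h5 : jacobiSym 2 N ^ 2 = 1 := by
        apply jacobiSym.sq_one
        have : Nat.Coprime 2 N := Nat.coprime_two_left.2 hN
        exact_mod_cast this
      rw [show jacobiSym 2 N ^ 3 = jacobiSym 2 N ^ 2 * jacobiSym 2 N by ring, h5, one_mul]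
    rw [h3]
    push_cast
    ring
  rw [h1, tsum_mul_left]
  -- split into classes
  have hfin : Summable fun t : ℤ =>
      ((jacobiSym t N : ℂ) * (φ ((c * N ^ 2 + 8 * t : ℝ) / K) : ℂ)) := by
    apply summable_of_ne_finset_zero (s := Finset.Icc (-(c * N ^ 2 : ℤ)) ⌈K⌉)
    intro t ht
    rw [Finset.mem_Icc, not_and_or, not_le, not_le] at ht
    have h3 : ((c * N ^ 2 + 8 * t : ℝ) / K) < 1 / 2 ∨ 4 < ((c * N ^ 2 + 8 * t : ℝ) / K) := by
      rcases ht with h | h
      · left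
        have h5 : (c : ℤ) * N ^ 2 + 8 * t < 0 := by
          have : (0 : ℤ) ≤ c * N ^ 2 := by positivity
          linarith
        have h6 : ((c : ℝ) * N ^ 2 + 8 * t) < 0 := by exact_mod_cast h5
        have := div_neg_of_neg_of_pos h6 hK
        linarith
      · right
        rw [lt_div_iff₀ hK]
        have h5 : K < t := (Int.le_ceil K).trans_lt (by exact_mod_cast h)
        have : (0 : ℝ) ≤ c * N ^ 2 := by positivity
        linarith
    rw [hφ.supp _ h3]; simp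
  have h2 : ∑' t : ℤ, ((jacobiSym t N : ℂ) * (φ ((c * N ^ 2 + 8 * t : ℝ) / K) : ℂ)) =
      ∑ y : Fin N, (jacobiSym ((y : ℕ) : ℤ) N : ℂ) *
        ∑' k : ℤ, (φ (((c * N ^ 2 + 8 * (y : ℕ) : ℝ) + 8 * N * k) / K) : ℂ) := by
    have e := ((Equiv.prodComm (Fin N) ℤ).trans (Int.divModEquiv N).symm)
    rw [← ((Equiv.prodComm (Fin N) ℤ).trans (Int.divModEquiv N).symm).tsum_eq]
    have hs2 := (((Equiv.prodComm (Fin N) ℤ).trans (Int.divModEquiv N).symm).summable_iff).2 hfin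
    rw [Function.comp_def] at hs2
    rw [hs2.tsum_prod, tsum_fintype]
    apply Finset.sum_congr rfl
    intro y _
    rw [← tsum_mul_left]
    apply tsum_congr
    intro k
    have h3 : ((Equiv.prodComm (Fin N) ℤ).trans (Int.divModEquiv N).symm) (y, k) =
      k * N + ((y : ℕ) : ℤ) := rfl
    rw [h3]
    have h4 : jacobiSym (k * N + ((y : ℕ) : ℤ)) N = jacobiSym ((y : ℕ) : ℤ) N := by
      apply jacobiSym.mod_left'
      rw [mul_comm, Int.mul_add_emod_self_left]
    rw [h4]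
    congr 3
    push_cast
    ring
  rw [h2]
  have h3 : ∀ y : Fin N, ∑' k : ℤ, (φ (((c * N ^ 2 + 8 * (y : ℕ) : ℝ) + 8 * N * k) / K) : ℂ) =
      (K / (8 * N)) * ∑' h : ℤ, fhat φ (h * (K / (8 * N))) *
        (cexp (2 * Real.pi * I * (h * (c * N) / 8)) * cexp (2 * Real.pi * I * (h * (y : ℕ) / N))) := by
    intro y
    have := rse_psn_poisson hφ K (8 * N) hK (by positivity) (c * N ^ 2 + 8 * (y : ℕ) : ℝ)
    rw [this]
    push_cast
    congr 1
    apply tsum_congr
    intro h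
    rw [← Complex.exp_add]
    congr 2
    field_simp
  simp only [h3]
  have h4 : ∀ y : Fin N, Summable fun h : ℤ => (jacobiSym ((y : ℕ) : ℤ) N : ℂ) *
      (fhat φ (h * (K / (8 * N))) * (cexp (2 * Real.pi * I * (h * (c * N) / 8)) *
        cexp (2 * Real.pi * I * (h * (y : ℕ) / N)))) := by
    intro y
    apply Summable.mul_left
    refine rse_psn_summ hφ (a := K / (8 * N)) (by positivity) (B := 1) ?_
    intro h
    rw [← Complex.exp_add]
    rw [show 2 * Real.pi * I * ((h : ℂ) * (c * N) / 8) + 2 * Real.pi * I * (h * (y : ℕ) / N) =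
      ((2 * Real.pi * (h * (c * N) / 8) + 2 * Real.pi * (h * (y : ℕ) / N) : ℝ) : ℂ) * I by
        push_cast; ring]
    rw [Complex.norm_exp_ofReal_mul_I]
  have h5 : ∑ y : Fin N, (jacobiSym ((y : ℕ) : ℤ) N : ℂ) *
      ((K / (8 * N)) * ∑' h : ℤ, fhat φ (h * (K / (8 * N))) *
        (cexp (2 * Real.pi * I * (h * (c * N) / 8)) *
          cexp (2 * Real.pi * I * (h * (y : ℕ) / N)))) =
      (K / (8 * N)) * ∑ y : Fin N, ∑' h : ℤ, (jacobiSym ((y : ℕ) : ℤ) N : ℂ) *
        (fhat φ (h * (K / (8 * N))) * (cexp (2 * Real.pi * I * (h * (c * N) / 8)) *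
          cexp (2 * Real.pi * I * (h * (y : ℕ) / N)))) := by
    rw [Finset.mul_sum]
    apply Finset.sum_congr rfl
    intro y _
    rw [tsum_mul_left]
    ring
  rw [h5, ← Summable.tsum_finsetSum (fun y _ => h4 y), mul_assoc (jacobiSym 2 N : ℂ)]
  congr 2
  apply tsum_congr
  intro h
  unfold Gs
  rw [Finset.sum_range, Finset.mul_sum, Finset.mul_sum]
  apply Finset.sum_congr rfl
  intro y _
  ring

/-! ### The characters modulo `8` -/

theorem rse_psn_psi_mod (i : Fin 4) (n : ℕ) : psi i n = psi i (n % 8) := by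
  have h8 : ((n : ℕ) : ZMod 8) = ((n % 8 : ℕ) : ZMod 8) := by
    rw [ZMod.natCast_eq_natCast_iff']; simp
  have h4 : ((n : ℕ) : ZMod 4) = ((n % 8 : ℕ) : ZMod 4) := by
    rw [ZMod.natCast_eq_natCast_iff', Nat.mod_mod_of_dvd _ (by norm_num : 4 ∣ 8)]
  unfold psi
  fin_cases i
  · rfl
  · change ZMod.χ₄ _ = ZMod.χ₄ _
    rw [h4]
  · change ZMod.χ₈ _ = ZMod.χ₈ _
    rw [h8]
  · change ZMod.χ₈' _ = ZMod.χ₈' _
    rw [h8]

/-- The weight as a function of `n`. -/
noncomputable def rse_psn_W (j : Fin 4) (c : ℕ) (h : ℤ) (n : ℕ) : ℂ :=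
  (psi j n : ℂ) * ((if c % 4 = 3 then psi 1 n else 1 : ℤ) : ℂ) * (psi 2 n : ℂ) *
    cexp (2 * Real.pi * I * (h * (c * n) / 8)) * ep n

theorem rse_psn_W_mod (j : Fin 4) (c : ℕ) (h : ℤ) (n : ℕ) :
    rse_psn_W j c h n = rse_psn_W j c h (n % 8) := by
  unfold rse_psn_W
  rw [rse_psn_psi_mod j n, rse_psn_psi_mod 1 n, rse_psn_psi_mod 2 n]
  have h1 : cexp (2 * Real.pi * I * (h * (c * n) / 8)) =
      cexp (2 * Real.pi * I * (h * (c * ((n % 8 : ℕ) : ℂ)) / 8)) := by
    obtain ⟨q, hq⟩ : ∃ q, n = n % 8 + 8 * q := ⟨n / 8, (Nat.mod_add_div n 8).symm⟩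
    have h2 : (n : ℂ) = ((n % 8 : ℕ) : ℂ) + 8 * (q : ℂ) := by
      exact_mod_cast hq
    rw [h2, show 2 * Real.pi * I * ((h : ℂ) * (c * (((n % 8 : ℕ) : ℂ) + 8 * (q : ℂ))) / 8) =
      2 * Real.pi * I * ((h : ℂ) * (c * ((n % 8 : ℕ) : ℂ)) / 8) +
      ((h * c * q : ℤ) : ℂ) * (2 * Real.pi * I) by
        generalize ((n % 8 : ℕ) : ℂ) = z
        push_cast
        ring,
      Complex.exp_add, Complex.exp_int_mul_two_pi_mul_I, mul_one]
  have h3 : ep n = ep (n % 8) := by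
    unfold ep
    rw [Nat.mod_mod_of_dvd _ (by norm_num : 4 ∣ 8)]
  rw [h1, h3]

theorem rse_psn_psi_norm (i : Fin 4) (n : ℕ) : ‖(psi i n : ℂ)‖ ≤ 1 := by
  have h : ∀ n < 8, psi i n = 0 ∨ psi i n = 1 ∨ psi i n = -1 := by
    revert i; decide
  rw [rse_psn_psi_mod]
  rcases h (n % 8) (Nat.mod_lt _ (by norm_num)) with h | h | h <;> rw [h] <;> simp

theorem rse_psn_W_norm (j : Fin 4) (c : ℕ) (h : ℤ) (n : ℕ) : ‖rse_psn_W j c h n‖ ≤ 1 := by
  unfold rse_psn_W
  have h1 : ‖cexp (2 * Real.pi * I * (h * (c * n) / 8))‖ = 1 := by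
    rw [show 2 * Real.pi * I * ((h : ℂ) * (c * n) / 8) =
      ((2 * Real.pi * (h * (c * n) / 8) : ℝ) : ℂ) * I by push_cast; ring]
    rw [Complex.norm_exp_ofReal_mul_I]
  have h2 : ‖ep n‖ = 1 := by
    unfold ep
    split_ifs <;> simp
  have h3 : ‖((if c % 4 = 3 then psi 1 n else 1 : ℤ) : ℂ)‖ ≤ 1 := by
    split_ifs
    · exact rse_psn_psi_norm 1 n
    · simp
  rw [norm_mul, norm_mul, norm_mul, norm_mul, h1, h2, mul_one, mul_one]
  have h4 := rse_psn_psi_norm j n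
  have h5 := rse_psn_psi_norm 2 n
  calc ‖(psi j n : ℂ)‖ * ‖((if c % 4 = 3 then psi 1 n else 1 : ℤ) : ℂ)‖ * ‖(psi 2 n : ℂ)‖
      ≤ 1 * 1 * 1 := by gcongr
    _ = 1 := by norm_num

/-- Fourier coefficients. -/
noncomputable def rse_psn_x (j : Fin 4) (c : ℕ) (h : ℤ) (i : Fin 4) : ℂ :=
  (rse_psn_W j c h 1 * (psi i 1 : ℂ) + rse_psn_W j c h 3 * (psi i 3 : ℂ) +
    rse_psn_W j c h 5 * (psi i 5 : ℂ) + rse_psn_W j c h 7 * (psi i 7 : ℂ)) / 4

theorem rse_psn_x_norm (j : Fin 4) (c : ℕ) (h : ℤ) (i : Fin 4) : ‖rse_psn_x j c h i‖ ≤ 1 := by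
  have h1 : ∀ n, ‖rse_psn_W j c h n * (psi i n : ℂ)‖ ≤ 1 := by
    intro n
    rw [norm_mul]
    exact mul_le_one₀ (rse_psn_W_norm j c h n) (norm_nonneg _) (rse_psn_psi_norm i n)
  unfold rse_psn_x
  rw [norm_div]
  have h2 := norm_add_le (rse_psn_W j c h 1 * (psi i 1 : ℂ) + rse_psn_W j c h 3 * (psi i 3 : ℂ) +
    rse_psn_W j c h 5 * (psi i 5 : ℂ)) (rse_psn_W j c h 7 * (psi i 7 : ℂ))
  have h3 := norm_add_le (rse_psn_W j c h 1 * (psi i 1 : ℂ) + rse_psn_W j c h 3 * (psi i 3 : ℂ))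
    (rse_psn_W j c h 5 * (psi i 5 : ℂ))
  have h4 := norm_add_le (rse_psn_W j c h 1 * (psi i 1 : ℂ)) (rse_psn_W j c h 3 * (psi i 3 : ℂ))
  have h5 : ‖(4 : ℂ)‖ = 4 := by simp
  rw [h5, div_le_one (by norm_num)]
  linarith [h1 1, h1 3, h1 5, h1 7]

theorem rse_psn_x_sum (j : Fin 4) (c : ℕ) (h : ℤ) {n : ℕ} (hn : Odd n) :
    ∑ i : Fin 4, rse_psn_x j c h i * (psi i n : ℂ) = rse_psn_W j c h n := by
  rw [rse_psn_W_mod]
  simp only [rse_psn_psi_mod _ n]
  have h8 : n % 8 = 1 ∨ n % 8 = 3 ∨ n % 8 = 5 ∨ n % 8 = 7 := by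
    rw [Nat.odd_iff] at hn; omega
  have v : ∀ i : Fin 4, psi i 1 = 1 ∧ psi i 3 = ![1, -1, -1, 1] i ∧ psi i 5 = ![1, 1, -1, -1] i ∧
    psi i 7 = ![1, -1, 1, -1] i := by decide
  simp only [Fin.sum_univ_four, rse_psn_x, (v _).1, (v _).2.1, (v _).2.2.1, (v _).2.2.2]
  rcases h8 with h8 | h8 | h8 | h8 <;> rw [h8] <;>
    simp only [(v _).1, (v _).2.1, (v _).2.2.1, (v _).2.2.2] <;>
    simp only [Matrix.cons_val, Matrix.cons_val_zero, Matrix.cons_val_one] <;> push_cast <;> ring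

/-! ### The theorem -/

theorem rse_psn_rv (j : Fin 4) {c m N : ℕ} (hc : OC c) (hm : m % 8 = c) (hN : Odd N) :
    rv j m N = psi j N * (if c % 4 = 3 then psi 1 N else 1) * jacobiSym (m : ℤ) N := by
  unfold rv
  rw [mul_assoc]
  congr 1
  have hmo : Odd m := by
    rw [Nat.odd_iff]
    rcases hc with h | h | h | h <;> omega
  by_cases h4 : c % 4 = 3
  · rw [if_pos h4]
    have hm4 : m % 4 = 3 := by omega
    change _ = ZMod.χ₄ (N : ZMod 4) * _
    rcases Nat.odd_mod_four_iff.1 (Nat.odd_iff.1 hN) with h | h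
    · rw [jacobiSym.quadratic_reciprocity_one_mod_four h hmo, ZMod.χ₄_nat_one_mod_four h, one_mul]
    · rw [jacobiSym.quadratic_reciprocity_three_mod_four h hm4, ZMod.χ₄_nat_three_mod_four h]
      ring
  · rw [if_neg h4, one_mul]
    have hm4 : m % 4 = 1 := by
      rcases hc with h | h | h | h <;> omega
    rw [jacobiSym.quadratic_reciprocity_one_mod_four' hN hm4]

theorem rse_psn_fam {φ : ℝ → ℝ} (hφ : Bump φ) (j : Fin 4) {c : ℕ} (hc : OC c) {K : ℝ}
    (hK : 0 < K) {N : ℕ} (hN : Odd N) :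
    ((∑ m ∈ fam c K, φ (m / K) * (rv j m N : ℝ) : ℝ) : ℂ) =
      (psi j N : ℂ) * ((if c % 4 = 3 then psi 1 N else 1 : ℤ) : ℂ) *
        ∑' t : ℤ, ((jacobiSym (c + 8 * t) N : ℂ) * (φ ((c + 8 * t : ℤ) / K) : ℂ)) := by
  have h1 : ∑' t : ℤ, ((jacobiSym (c + 8 * t) N : ℂ) * (φ ((c + 8 * t : ℤ) / K) : ℂ)) =
      ∑ m ∈ fam c K, ((jacobiSym (m : ℤ) N : ℂ) * (φ (m / K) : ℂ)) := by
    have hinj : Set.InjOn (fun m : ℕ => (((m / 8 : ℕ)) : ℤ)) (fam c K : Set ℕ) := by
      intro a ha b hb hab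
      have ha' : a % 8 = c := by
        have := Finset.mem_coe.1 ha
        exact (Finset.mem_filter.1 this).2
      have hb' : b % 8 = c := by
        have := Finset.mem_coe.1 hb
        exact (Finset.mem_filter.1 this).2
      change ((a / 8 : ℕ) : ℤ) = ((b / 8 : ℕ) : ℤ) at hab
      have : a / 8 = b / 8 := by exact_mod_cast hab
      omega
    rw [tsum_eq_sum (s := (fam c K).image fun m : ℕ => (((m / 8 : ℕ)) : ℤ)),
      Finset.sum_image hinj]
    · apply Finset.sum_congr rfl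
      intro m hm
      simp only [fam, Finset.mem_filter] at hm
      have h2 : (c : ℤ) + 8 * ((m / 8 : ℕ) : ℤ) = m := by
        have := Nat.mod_add_div m 8
        rw [hm.2] at this
        exact_mod_cast this
      rw [h2]
      push_cast
      rfl
    · intro t ht
      have h3 : ((c + 8 * t : ℤ) : ℝ) / K < 1 / 2 ∨ 4 < ((c + 8 * t : ℤ) : ℝ) / K := by
        by_contra hcon
        push Not at hcon
        obtain ⟨h4, h5⟩ := hcon
        apply ht
        rw [div_le_iff₀ hK] at h5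
        rw [le_div_iff₀ hK] at h4
        have h6 : 0 < c + 8 * t := by
          have : (0 : ℝ) < ((c + 8 * t : ℤ) : ℝ) := by linarith
          exact_mod_cast this
        have hc8 : c < 8 := by rcases hc with h | h | h | h <;> omega
        have h7 : 0 ≤ t := by omega
        obtain ⟨n, rfl⟩ := Int.eq_ofNat_of_zero_le h7
        rw [Finset.mem_image]
        refine ⟨c + 8 * n, ?_, ?_⟩
        · simp only [fam, Finset.mem_filter, Finset.mem_range]
          constructor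
          · rw [Nat.lt_succ_iff, Nat.le_floor_iff (by positivity)]
            push_cast at h5 ⊢
            exact h5
          · omega
        · have : (c + 8 * n) / 8 = n := by omega
          rw [this]
      rw [hφ.supp _ h3]; simp
  rw [h1, Finset.mul_sum]
  push_cast
  apply Finset.sum_congr rfl
  intro m hm
  simp only [fam, Finset.mem_filter] at hm
  rw [rse_psn_rv j hc hm.2 hN]
  push_cast
  ring

theorem psn_sum_pr (j : Fin 4) (c : ℕ) (hc : OC c) : ∃ x : ℤ → Fin 4 → ℂ,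
    (∀ h i, ‖x h i‖ ≤ 1) ∧
    ∀ φ : ℝ → ℝ, Bump φ → ∀ (K : ℝ) (N : ℕ), 0 < K → Odd N →
    Summable (fun h : ℤ => if h = 0 then 0 else
      fhat φ (h * K / (8 * N)) * (∑ i : Fin 4, x h i * (psi i N : ℂ)) * gam h N) ∧
    ((PN φ j c K N : ℝ) : ℂ) = K / (8 * √(N : ℝ)) * ∑' h : ℤ, if h = 0 then 0 else
      fhat φ (h * K / (8 * N)) * (∑ i : Fin 4, x h i * (psi i N : ℂ)) * gam h N := by
  refine ⟨rse_psn_x j c, rse_psn_x_norm j c, ?_⟩
  intro φ hφ K N hK hN
  have hNpos : (0 : ℝ) < N := by exact_mod_cast hN.pos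
  have hsq : (√(N : ℝ) : ℂ) ≠ 0 := by
    exact_mod_cast (Real.sqrt_pos.2 hNpos).ne'
  have hsq2 : (√(N : ℝ) : ℂ) * (√(N : ℝ) : ℂ) = N := by
    exact_mod_cast Real.mul_self_sqrt hNpos.le
  have hep : ep N ≠ 0 := by
    unfold ep
    split_ifs <;> simp
  have hgs : ∀ h : ℤ, Gs h N = ep N * (√(N : ℝ) : ℂ) * gam h N := by
    intro h
    unfold gam
    field_simp
  have hgn : ∀ h : ℤ, ‖Gs h N‖ ≤ N := by
    intro h
    unfold Gs
    calc _ ≤ ∑ x ∈ Finset.range N, ‖(jacobiSym (x : ℤ) N : ℂ) *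
          cexp (2 * Real.pi * I * (h * x / N))‖ := norm_sum_le _ _
      _ ≤ ∑ x ∈ Finset.range N, (1 : ℝ) := by
        apply Finset.sum_le_sum
        intro x _
        rw [norm_mul, show 2 * Real.pi * I * ((h : ℂ) * x / N) =
          ((2 * Real.pi * (h * x / N) : ℝ) : ℂ) * I by push_cast; ring,
          Complex.norm_exp_ofReal_mul_I, mul_one]
        rcases jacobiSym.trichotomy (x : ℤ) N with h | h | h <;> rw [h] <;> simp
      _ = N := by simp
  have hJ2 : (jacobiSym 2 N : ℂ) = (psi 2 N : ℂ) := by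
    rw [jacobiSym.at_two hN]
    rfl
  -- summability of the total sum
  have hst : Summable fun h : ℤ => fhat φ (h * (K / (8 * N))) *
      (cexp (2 * Real.pi * I * (h * (c * N) / 8)) * Gs h N) := by
    refine rse_psn_summ hφ (a := K / (8 * N)) (by positivity) (B := N) ?_
    intro h
    rw [norm_mul, show 2 * Real.pi * I * ((h : ℂ) * (c * N) / 8) =
      ((2 * Real.pi * (h * (c * N) / 8) : ℝ) : ℂ) * I by push_cast; ring,
      Complex.norm_exp_ofReal_mul_I, one_mul]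
    exact hgn h
  set P : ℂ := (psi j N : ℂ) * ((if c % 4 = 3 then psi 1 N else 1 : ℤ) : ℂ) * (psi 2 N : ℂ) with hP
  have hterm : ∀ h : ℤ, fhat φ (h * K / (8 * N)) * (∑ i : Fin 4, rse_psn_x j c h i *
      (psi i N : ℂ)) * gam h N = P * (√(N : ℝ) : ℂ)⁻¹ * (fhat φ (h * (K / (8 * N))) *
      (cexp (2 * Real.pi * I * (h * (c * N) / 8)) * Gs h N)) := by
    intro h
    rw [rse_psn_x_sum j c h hN, hgs h, mul_div_assoc, hP]
    unfold rse_psn_W
    field_simp
  have hs1 : Summable fun h : ℤ => fhat φ (h * K / (8 * N)) * (∑ i : Fin 4, rse_psn_x j c h i *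
      (psi i N : ℂ)) * gam h N := by
    simp only [hterm]
    exact hst.mul_left _
  have hs2 : Summable (fun h : ℤ => if h = 0 then 0 else
      fhat φ (h * K / (8 * N)) * (∑ i : Fin 4, rse_psn_x j c h i * (psi i N : ℂ)) * gam h N) := by
    refine Summable.of_norm_bounded hs1.norm ?_
    intro h
    split_ifs
    · rw [norm_zero]; positivity
    · exact le_rfl
  refine ⟨hs2, ?_⟩
  have hmain : ((∑ m ∈ fam c K, φ (m / K) * (rv j m N : ℝ) : ℝ) : ℂ) =
      K / (8 * √(N : ℝ)) * ∑' h : ℤ, fhat φ (h * K / (8 * N)) *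
        (∑ i : Fin 4, rse_psn_x j c h i * (psi i N : ℂ)) * gam h N := by
    rw [rse_psn_fam hφ j hc hK hN, rse_psn_class hφ c hK hN, hJ2]
    simp only [hterm]
    rw [tsum_mul_left]
    generalize (∑' h : ℤ, fhat φ (h * (K / (8 * N))) *
      (cexp (2 * Real.pi * I * (h * (c * N) / 8)) * Gs h N)) = T
    rw [← hsq2, hP]
    field_simp
  rw [hs1.tsum_eq_add_tsum_ite 0] at hmain
  have h0 : (K / (8 * √(N : ℝ)) : ℂ) * (fhat φ ((0 : ℤ) * K / (8 * N)) *
      (∑ i : Fin 4, rse_psn_x j c 0 i * (psi i N : ℂ)) * gam 0 N) =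
      ((if IsSquare N then K / 8 * (∫ x : ℝ, φ x) * ((Nat.totient N : ℝ) / N) else 0 : ℝ) : ℂ) := by
    rw [hterm 0, rse_psn_gs0 hN]
    split_ifs with hs
    · have hN8 : N % 8 = 1 := by
        obtain ⟨k, rfl⟩ := hs
        have hk : k % 8 = 1 ∨ k % 8 = 3 ∨ k % 8 = 5 ∨ k % 8 = 7 := by
          have := (Nat.odd_mul.1 hN).1
          rw [Nat.odd_iff] at this
          omega
        rw [Nat.mul_mod]
        rcases hk with h | h | h | h <;> rw [h]
      have hP1 : P = 1 := by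
        rw [hP, rse_psn_psi_mod j N, rse_psn_psi_mod 1 N, rse_psn_psi_mod 2 N, hN8]
        have v : ∀ i : Fin 4, psi i 1 = 1 := by decide
        rw [v, v, v]
        simp
      have hf : fhat φ (((0 : ℤ) : ℝ) * (K / (8 * N))) = ((∫ x : ℝ, φ x : ℝ) : ℂ) := by
        unfold fhat
        rw [← integral_complex_ofReal]
        congr 1
        funext x
        simp
      rw [hf, hP1]
      have hN0 : (N : ℂ) ≠ 0 := by exact_mod_cast hNpos.ne'
      push_cast
      rw [zero_mul, zero_div, mul_zero, Complex.exp_zero]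
      rw [← hsq2] at hN0 ⊢
      field_simp
    · simp
  rw [mul_add, h0] at hmain
  unfold PN
  rw [Complex.ofReal_sub, hmain, add_sub_cancel_left]

end Pool.Agent.RSE

namespace Pool.Agent.RSE

alias psn_sum := psn_sum_pr

end Pool.Agent.RSE
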