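import Pool.Agent.Lib_helper39.RSE.Defs
import Pool.Agent.Lib_helper39.RSA.DefsB
import Pool.Agent.Lib_helper39.RCA.DLIM
import Pool.Agent.Lib_helper39.RSA.RB
/-! Block PQB (cites `sd_le` of RB). -/

namespace Pool.Agent.RSE

open Complex MeasureTheory Filter Topology
open Pool.Agent.RC (cc psi rv f0 IsRC Good gm pr DD)
open scoped ContDiff

/-! ### Riemann sums -/

lemma rse_pqb_step {G : ℝ → ℝ} (hG : ContDiff ℝ 1 G) (a h : ℝ) (hh : 0 ≤ h) :
    |h * G a - ∫ x in a..(a + h), G x| ≤ h * ∫ x in a..(a + h), |deriv G x| := by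
  have hd : Continuous (deriv G) := hG.continuous_deriv le_rfl
  have hI : ∀ c d : ℝ, IntervalIntegrable (fun x => |deriv G x|) volume c d := fun c d =>
    (hd.abs).intervalIntegrable c d
  have e1 : h * G a - ∫ x in a..(a + h), G x = ∫ x in a..(a + h), (G a - G x) := by
    rw [intervalIntegral.integral_sub intervalIntegrable_const (hG.continuous.intervalIntegrable _ _)]
    simp
  rw [e1]
  have b : ∀ x ∈ Set.uIoc a (a + h), ‖G a - G x‖ ≤ ∫ x in a..(a + h), |deriv G x| := by
    intro x hx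
    rw [Set.uIoc_of_le (by linarith)] at hx
    have h1 : ∫ y in a..x, deriv G y = G x - G a :=
      intervalIntegral.integral_deriv_eq_sub' G rfl
        (fun y _ => (hG.differentiable one_ne_zero).differentiableAt) hd.continuousOn
    have h2 : ‖G a - G x‖ = |∫ y in a..x, deriv G y| := by
      rw [h1, Real.norm_eq_abs, abs_sub_comm]
    rw [h2]
    have h3 : |∫ y in a..x, deriv G y| ≤ ∫ y in a..x, |deriv G y| :=
      intervalIntegral.abs_integral_le_integral_abs hx.1.le
    have h4 : ∫ y in a..x, |deriv G y| ≤ ∫ y in a..(a + h), |deriv G y| := by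
      have h5 := intervalIntegral.integral_add_adjacent_intervals (hI a x) (hI x (a + h))
      have h6 : 0 ≤ ∫ y in x..(a + h), |deriv G y| :=
        intervalIntegral.integral_nonneg hx.2 fun y _ => abs_nonneg _
      linarith
    exact h3.trans h4
  have h1 := intervalIntegral.norm_integral_le_of_norm_le_const b
  rw [Real.norm_eq_abs, add_sub_cancel_left, abs_of_nonneg hh, mul_comm] at h1
  exact h1

lemma rse_pqb_riemann {G : ℝ → ℝ} (hG : ContDiff ℝ 1 G) (a h : ℝ) (hh : 0 ≤ h) (n : ℕ) :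
    |h * ∑ k ∈ Finset.range n, G (a + k * h) - ∫ x in a..(a + n * h), G x| ≤
      h * ∫ x in a..(a + n * h), |deriv G x| := by
  have hd : Continuous (deriv G) := hG.continuous_deriv le_rfl
  induction n with
  | zero => simp
  | succ n ih =>
    have e0 : a + ((n + 1 : ℕ) : ℝ) * h = (a + n * h) + h := by push_cast; ring
    have h1 := rse_pqb_step hG (a + n * h) h hh
    have h2 : ∫ x in a..(a + n * h) + h, G x =
        (∫ x in a..(a + n * h), G x) + ∫ x in (a + n * h)..(a + n * h) + h, G x :=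
      (intervalIntegral.integral_add_adjacent_intervals
        (hG.continuous.intervalIntegrable _ _) (hG.continuous.intervalIntegrable _ _)).symm
    have h3 : ∫ x in a..(a + n * h) + h, |deriv G x| =
        (∫ x in a..(a + n * h), |deriv G x|) + ∫ x in (a + n * h)..(a + n * h) + h, |deriv G x| :=
      (intervalIntegral.integral_add_adjacent_intervals
        (hd.abs.intervalIntegrable _ _) (hd.abs.intervalIntegrable _ _)).symm
    rw [e0, Finset.sum_range_succ, h2, h3]
    have e1 : h * (∑ k ∈ Finset.range n, G (a + k * h) + G (a + n * h)) -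
        ((∫ x in a..(a + n * h), G x) + ∫ x in (a + n * h)..(a + n * h) + h, G x) =
        (h * ∑ k ∈ Finset.range n, G (a + k * h) - ∫ x in a..(a + n * h), G x) +
        (h * G (a + n * h) - ∫ x in (a + n * h)..(a + n * h) + h, G x) := by ring
    rw [e1, mul_add]
    exact (abs_add_le _ _).trans (add_le_add ih h1)

/-! ### the weight -/

lemma rse_pqb_supp {φ : ℝ → ℝ} (hφ : Bump φ) : HasCompactSupport φ := by
  refine HasCompactSupport.intro (isCompact_Icc (a := (1 / 2 : ℝ)) (b := 4)) fun x hx => ?_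
  apply hφ.supp
  by_contra hcon
  push Not at hcon
  exact hx ⟨hcon.1, hcon.2⟩

lemma rse_pqb_arith {φ : ℝ → ℝ} (hφ : Bump φ) (K : ℝ) (hK : 0 < K) (D c' : ℕ) (hD : 0 < D)
    (hc' : c' < D) (M : ℕ) (hM : 4 * K < M) :
    |(∑ m ∈ (Finset.range M).filter fun m => m % D = c', φ (m / K)) -
      K / D * ∫ x : ℝ, φ x| ≤ ∫ x : ℝ, |deriv φ x| := by
  have hC1 : ContDiff ℝ 1 φ := hφ.smooth.of_le (by exact_mod_cast le_top)
  have hd : Continuous (deriv φ) := hC1.continuous_deriv le_rfl
  have hcs := rse_pqb_supp hφ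
  have hI : Integrable (fun x => |deriv φ x|) :=
    (hd.integrable_of_hasCompactSupport hcs.deriv).abs
  have hD' : (0 : ℝ) < D := by exact_mod_cast hD
  -- number of terms
  set n := M + 1 with hn
  have h1 : ∑ m ∈ (Finset.range M).filter (fun m => m % D = c'), φ (m / K) =
      ∑ k ∈ Finset.range n, φ ((((c' : ℝ) - D) / K) + k * (D / K)) := by
    rw [Finset.sum_range_succ']
    have z0 : φ ((((c' : ℝ) - D) / K) + ((0 : ℕ) : ℝ) * (D / K)) = 0 := by
      apply hφ.supp
      left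
      have : ((c' : ℝ) - D) / K ≤ 0 := by
        apply div_nonpos_of_nonpos_of_nonneg _ hK.le
        have : (c' : ℝ) < D := by exact_mod_cast hc'
        linarith
      push_cast
      linarith
    rw [z0, add_zero]
    have h2 : ∀ k ∈ Finset.range M, φ ((((c' : ℝ) - D) / K) + ((k + 1 : ℕ) : ℝ) * (D / K)) =
        φ (((c' + D * k : ℕ) : ℝ) / K) := by
      intro k _
      congr 1
      push_cast
      field_simp
      ring
    rw [Finset.sum_congr rfl h2]
    have h3 : ∑ k ∈ Finset.range M, φ (((c' + D * k : ℕ) : ℝ) / K) =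
        ∑ m ∈ (Finset.range M).image (fun k => c' + D * k), φ ((m : ℝ) / K) := by
      rw [Finset.sum_image]
      intro x _ y _ hxy
      have : D * x = D * y := by simpa using hxy
      exact Nat.eq_of_mul_eq_mul_left hD this
    rw [h3]
    apply Finset.sum_subset_zero_on_sdiff
    · intro m hm
      rw [Finset.mem_filter, Finset.mem_range] at hm
      rw [Finset.mem_image]
      refine ⟨m / D, ?_, ?_⟩
      · rw [Finset.mem_range]
        exact lt_of_le_of_lt (Nat.div_le_self m D) hm.1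
      · rw [← hm.2, Nat.mod_add_div]
    · intro m hm
      rw [Finset.mem_sdiff, Finset.mem_image, Finset.mem_filter, Finset.mem_range] at hm
      obtain ⟨⟨k, hk, rfl⟩, h4⟩ := hm
      have h5 : (c' + D * k) % D = c' := by
        rw [Nat.add_mul_mod_self_left, Nat.mod_eq_of_lt hc']
      have h6 : M ≤ c' + D * k := by
        by_contra hcon
        push Not at hcon
        exact h4 ⟨hcon, h5⟩
      apply hφ.supp
      right
      rw [lt_div_iff₀ hK]
      calc 4 * K < M := hM
        _ ≤ ((c' + D * k : ℕ) : ℝ) := by exact_mod_cast h6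
    · intro m _
      rfl
  have h2 := rse_pqb_riemann hC1 (((c' : ℝ) - D) / K) (D / K) (by positivity) n
  have ha : ((c' : ℝ) - D) / K ≤ 0 := by
    apply div_nonpos_of_nonpos_of_nonneg _ hK.le
    have : (c' : ℝ) < D := by exact_mod_cast hc'
    linarith
  have hb : 4 ≤ ((c' : ℝ) - D) / K + n * (D / K) := by
    have e1 : ((c' : ℝ) - D) / K + n * (D / K) = ((c' : ℝ) + M * D) / K := by
      rw [hn]; push_cast; field_simp; ring
    rw [e1, le_div_iff₀ hK]
    have h3 : (M : ℝ) ≤ M * D := by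
      have : (1 : ℝ) ≤ D := by exact_mod_cast hD
      nlinarith [(Nat.cast_nonneg M : (0 : ℝ) ≤ M)]
    have h4 : (0 : ℝ) ≤ c' := Nat.cast_nonneg _
    linarith
  have hint : ∫ x in (((c' : ℝ) - D) / K)..(((c' : ℝ) - D) / K + n * (D / K)), φ x = ∫ x, φ x := by
    apply intervalIntegral.integral_eq_integral_of_support_subset
    intro x hx
    by_contra hcon
    apply hx
    apply hφ.supp
    rw [Set.mem_Ioc, not_and_or, not_lt, not_le] at hcon
    rcases hcon with h | h
    · left; linarith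
    · right; linarith
  have hder : ∫ x in (((c' : ℝ) - D) / K)..(((c' : ℝ) - D) / K + n * (D / K)), |deriv φ x| ≤
      ∫ x, |deriv φ x| := by
    rw [intervalIntegral.integral_of_le (by linarith)]
    exact setIntegral_le_integral hI (Eventually.of_forall fun x => abs_nonneg _)
  rw [hint, ← h1] at h2
  have hDK : 0 < (D : ℝ) / K := by positivity
  have h3 : |(∑ m ∈ (Finset.range M).filter (fun m => m % D = c'), φ (m / K)) -
      K / D * ∫ x : ℝ, φ x| = (D / K : ℝ)⁻¹ *
      |D / K * (∑ m ∈ (Finset.range M).filter (fun m => m % D = c'), φ (m / K)) -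
        ∫ x : ℝ, φ x| := by
    rw [← abs_of_pos (inv_pos.2 hDK), ← abs_mul]
    congr 1
    field_simp
  rw [h3]
  calc _ ≤ (D / K : ℝ)⁻¹ * (D / K * ∫ x, |deriv φ x|) := by
        apply mul_le_mul_of_nonneg_left _ (inv_nonneg.2 hDK.le)
        exact h2.trans (mul_le_mul_of_nonneg_left hder hDK.le)
    _ = ∫ x, |deriv φ x| := by field_simp

/-! ### arithmetic -/

lemma rse_pqb_rv (j : Fin 4) {m N : ℕ} (hm : m ≠ 0) (hN : Odd N) (hs : IsSquare N) :
    rv j m N = if N.Coprime m then 1 else 0 := by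
  obtain ⟨r, rfl⟩ := hs
  have hr : Odd r := (Nat.odd_mul.1 hN).1
  have h1 : psi j (r * r) = 1 := Pool.Agent.RC.rc_dlim_psi_sq j r hr
  unfold Pool.Agent.RC.rv
  rw [h1, one_mul, Nat.cast_mul, jacobiSym.mul_left, ← pow_two]
  by_cases hc : r.Coprime m
  · have h2 : (r * r).Coprime m := Nat.Coprime.mul_left hc hc
    rw [if_pos h2]
    exact jacobiSym.sq_one (by rw [Int.gcd_natCast_natCast]; exact hc)
  · have h2 : ¬ (r * r).Coprime m := fun h => hc (Nat.Coprime.coprime_mul_left h)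
    rw [if_neg h2]
    have h3 : jacobiSym r m = 0 := jacobiSym.eq_zero_iff.2
      ⟨hm, by rw [Int.gcd_natCast_natCast]; exact hc⟩
    rw [h3]
    rfl

lemma rse_pqb_mob {m N : ℕ} (hN : 0 < N) :
    (if N.Coprime m then (1 : ℝ) else 0) =
      ∑ d ∈ N.divisors.filter (fun d => d ∣ m), (ArithmeticFunction.moebius d : ℝ) := by
  have h1 : N.divisors.filter (fun d => d ∣ m) = (N.gcd m).divisors := by
    ext d
    rw [Finset.mem_filter, Nat.mem_divisors, Nat.mem_divisors, Nat.dvd_gcd_iff]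
    have : N.gcd m ≠ 0 := (Nat.gcd_pos_of_pos_left m hN).ne'
    have hN' := hN.ne'
    tauto
  rw [h1]
  have h2 : ∑ d ∈ (N.gcd m).divisors, (ArithmeticFunction.moebius d : ℤ) =
      if N.gcd m = 1 then 1 else 0 := by
    have h3 := congrArg (fun f : ArithmeticFunction ℤ => f (N.gcd m))
      ArithmeticFunction.moebius_mul_coe_zeta
    simp only [ArithmeticFunction.coe_mul_zeta_apply, ArithmeticFunction.one_apply] at h3
    exact h3
  have h4 : ∑ d ∈ (N.gcd m).divisors, (ArithmeticFunction.moebius d : ℝ) =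
      ((∑ d ∈ (N.gcd m).divisors, (ArithmeticFunction.moebius d : ℤ) : ℤ) : ℝ) := by
    push_cast
    rfl
  rw [h4, h2]
  by_cases hc : N.Coprime m
  · have h5 : N.gcd m = 1 := hc
    rw [if_pos hc, if_pos h5]
    simp
  · have h5 : ¬ N.gcd m = 1 := hc
    rw [if_neg hc, if_neg h5]
    simp

lemma rse_pqb_tot {N : ℕ} (hN : 0 < N) :
    (Nat.totient N : ℝ) / N = ∑ d ∈ N.divisors, (ArithmeticFunction.moebius d : ℝ) / d := by
  have h1 := (ArithmeticFunction.sum_eq_iff_sum_mul_moebius_eq (R := ℝ)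
    (f := fun n => (Nat.totient n : ℝ)) (g := fun n => (n : ℝ))).1 (fun n _ => by
      exact_mod_cast Nat.sum_totient n) N hN
  have h0 : ∑ d ∈ N.divisors, (ArithmeticFunction.moebius d : ℝ) / (d : ℝ) =
      ∑ x ∈ N.divisorsAntidiagonal, (ArithmeticFunction.moebius x.1 : ℝ) / (x.1 : ℝ) :=
    (Nat.sum_divisorsAntidiagonal
      (fun d _ : ℕ => ((ArithmeticFunction.moebius d : ℤ) : ℝ) / (d : ℝ))).symm
  rw [← h1, Finset.sum_div, h0]
  refine Finset.sum_congr rfl fun x hx => ?_
  have h2 := (Nat.mem_divisorsAntidiagonal.1 hx).1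
  have hx1 : x.1 ≠ 0 := by rintro h; rw [h, zero_mul] at h2; exact hN.ne h2
  have hx2 : x.2 ≠ 0 := by rintro h; rw [h, mul_zero] at h2; exact hN.ne h2
  have hx1' : (x.1 : ℝ) ≠ 0 := by exact_mod_cast hx1
  have hx2' : (x.2 : ℝ) ≠ 0 := by exact_mod_cast hx2
  rw [← h2]
  push_cast
  field_simp

lemma rse_pqb_crt {d c : ℕ} (hd : Odd d) (hc : c < 8) : ∃ c' : ℕ, c' < 8 * d ∧
    ∀ m : ℕ, (m % 8 = c ∧ d ∣ m) ↔ m % (8 * d) = c' := by
  have hco : Nat.Coprime 8 d := by
    have : Nat.Coprime 2 d := (Nat.coprime_two_left).2 hd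
    exact Nat.Coprime.pow_left 3 this
  have hd0 : d ≠ 0 := by rintro rfl; simp at hd
  obtain ⟨k, hk1, hk2⟩ := Nat.chineseRemainder hco c 0
  refine ⟨k % (8 * d), Nat.mod_lt _ (by positivity), fun m => ?_⟩
  constructor
  · rintro ⟨h1, h2⟩
    have h3 : m ≡ k [MOD 8] := by
      refine Nat.ModEq.trans ?_ hk1.symm
      unfold Nat.ModEq
      rw [h1, Nat.mod_eq_of_lt hc]
    have h4 : m ≡ k [MOD d] := by
      refine Nat.ModEq.trans ?_ hk2.symm
      exact (Nat.modEq_zero_iff_dvd).2 h2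
    exact (Nat.modEq_and_modEq_iff_modEq_mul hco).1 ⟨h3, h4⟩
  · intro h
    have h' : m ≡ k [MOD 8 * d] := h
    obtain ⟨h1, h2⟩ := (Nat.modEq_and_modEq_iff_modEq_mul hco).2 h'
    refine ⟨?_, ?_⟩
    · have h3 := h1.trans hk1
      unfold Nat.ModEq at h3
      rw [h3, Nat.mod_eq_of_lt hc]
    · exact (Nat.modEq_zero_iff_dvd).1 (h2.trans hk2)

theorem pqb_bound_pr {φ : ℝ → ℝ} (hφ : Bump φ) : ∃ C : ℝ, 0 < C ∧ ∀ (j : Fin 4) (c : ℕ) (K : ℝ) (N : ℕ),
    OC c → 0 < K → Odd N → IsSquare N → |PN φ j c K N| ≤ C * (N : ℝ) ^ (1 / 8 : ℝ) := by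
  obtain ⟨C₀, hC₀, hsd⟩ := sd_le
  set V := ∫ x : ℝ, |deriv φ x| with hV
  have hV0 : 0 ≤ V := integral_nonneg fun x => abs_nonneg _
  refine ⟨C₀ * (V + 1), by positivity, fun j c K N hc hK hN hs => ?_⟩
  have hN0 : 0 < N := hN.pos
  have hc8 : c < 8 := by rcases hc with h | h | h | h <;> omega
  have hcodd : ∀ m : ℕ, m % 8 = c → m ≠ 0 := by
    rintro m hm rfl
    rcases hc with h | h | h | h <;> omega
  unfold PN
  rw [if_pos hs]
  have e1 : ∑ m ∈ fam c K, φ (m / K) * (rv j m N : ℝ) =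
      ∑ d ∈ N.divisors, (ArithmeticFunction.moebius d : ℝ) *
        ∑ m ∈ (fam c K).filter (fun m => d ∣ m), φ (m / K) := by
    have h1 : ∀ m ∈ fam c K, φ (m / K) * (rv j m N : ℝ) =
        ∑ d ∈ N.divisors, if d ∣ m then (ArithmeticFunction.moebius d : ℝ) * φ (m / K) else 0 := by
      intro m hm
      have hm' := (Finset.mem_filter.1 hm).2
      have h2 : ((rv j m N : ℤ) : ℝ) = if N.Coprime m then (1 : ℝ) else 0 := by
        rw [rse_pqb_rv j (hcodd m hm') hN hs]
        split_ifs <;> simp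
      rw [h2, rse_pqb_mob hN0, Finset.mul_sum, Finset.sum_filter]
      refine Finset.sum_congr rfl fun d _ => ?_
      split_ifs
      · ring
      · rfl
    rw [Finset.sum_congr rfl h1, Finset.sum_comm]
    refine Finset.sum_congr rfl fun d _ => ?_
    rw [Finset.mul_sum, Finset.sum_filter]
  rw [e1, rse_pqb_tot hN0]
  have e2 : ∑ d ∈ N.divisors, (ArithmeticFunction.moebius d : ℝ) *
        ∑ m ∈ (fam c K).filter (fun m => d ∣ m), φ (m / K) -
      K / 8 * (∫ x : ℝ, φ x) * ∑ d ∈ N.divisors, (ArithmeticFunction.moebius d : ℝ) / d =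
      ∑ d ∈ N.divisors, (ArithmeticFunction.moebius d : ℝ) *
        (∑ m ∈ (fam c K).filter (fun m => d ∣ m), φ (m / K) -
          K / ((8 * d : ℕ) : ℝ) * ∫ x : ℝ, φ x) := by
    rw [Finset.mul_sum, ← Finset.sum_sub_distrib]
    refine Finset.sum_congr rfl fun d hd => ?_
    have hd0 : (d : ℝ) ≠ 0 := by
      have := (Nat.pos_of_mem_divisors hd).ne'
      exact_mod_cast this
    push_cast
    field_simp
  rw [e2]
  have hbound : ∀ d ∈ N.divisors, |(ArithmeticFunction.moebius d : ℝ) *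
        (∑ m ∈ (fam c K).filter (fun m => d ∣ m), φ (m / K) -
          K / ((8 * d : ℕ) : ℝ) * ∫ x : ℝ, φ x)| ≤ if Squarefree d then V else 0 := by
    intro d hd
    have hdN := Nat.dvd_of_mem_divisors hd
    have hdodd : Odd d := Odd.of_dvd_nat hN hdN
    have hd0 : 0 < d := Nat.pos_of_mem_divisors hd
    by_cases hsq : Squarefree d
    · rw [if_pos hsq, abs_mul]
      have h1 : |(ArithmeticFunction.moebius d : ℝ)| ≤ 1 := by
        have := ArithmeticFunction.abs_moebius_le_one (n := d)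
        exact_mod_cast this
      obtain ⟨c', hc'1, hc'2⟩ := rse_pqb_crt hdodd hc8
      have h2 : (fam c K).filter (fun m => d ∣ m) =
          (Finset.range (⌊4 * K⌋₊ + 1)).filter (fun m => m % (8 * d) = c') := by
        ext m
        unfold fam
        rw [Finset.mem_filter, Finset.mem_filter, Finset.mem_filter, and_assoc, hc'2 m]
      have h3 := rse_pqb_arith hφ K hK (8 * d) c' (by positivity) hc'1 (⌊4 * K⌋₊ + 1)
        (by push_cast; exact Nat.lt_floor_add_one (4 * K))
      rw [h2]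
      calc _ ≤ 1 * V := mul_le_mul h1 h3 (abs_nonneg _) zero_le_one
        _ = V := one_mul V
    · rw [if_neg hsq, ArithmeticFunction.moebius_eq_zero_of_not_squarefree hsq]
      simp
  have h1 : ∑ d ∈ N.divisors, (if Squarefree d then V else 0) = (sd N).card * V := by
    rw [← Finset.sum_filter, Finset.sum_const, nsmul_eq_mul]
    rfl
  have h2 := hsd N hN0
  have hN1 : (1 : ℝ) ≤ N := by exact_mod_cast hN0
  have h3 : (N : ℝ) ^ (1 / 16 : ℝ) ≤ (N : ℝ) ^ (1 / 8 : ℝ) :=
    Real.rpow_le_rpow_of_exponent_le hN1 (by norm_num)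
  calc _ ≤ ∑ d ∈ N.divisors, |(ArithmeticFunction.moebius d : ℝ) *
        (∑ m ∈ (fam c K).filter (fun m => d ∣ m), φ (m / K) -
          K / ((8 * d : ℕ) : ℝ) * ∫ x : ℝ, φ x)| := Finset.abs_sum_le_sum_abs _ _
    _ ≤ ∑ d ∈ N.divisors, (if Squarefree d then V else 0) := Finset.sum_le_sum hbound
    _ = (sd N).card * V := h1
    _ ≤ (C₀ * (N : ℝ) ^ (1 / 16 : ℝ)) * V := mul_le_mul_of_nonneg_right h2 hV0
    _ ≤ (C₀ * (N : ℝ) ^ (1 / 8 : ℝ)) * (V + 1) := by
        apply mul_le_mul _ (by linarith) hV0 (by positivity)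
        exact mul_le_mul_of_nonneg_left h3 hC₀.le
    _ = C₀ * (V + 1) * (N : ℝ) ^ (1 / 8 : ℝ) := by ring

end Pool.Agent.RSE

namespace Pool.Agent.RSE

alias pqb_bound := pqb_bound_pr

end Pool.Agent.RSE
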