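import Pool.Agent.Lib_helper39.RSE.Defs
import Pool.Agent.Lib_helper39.RSA.DefsB
import Pool.Agent.Lib_helper39.RSA.AVE
import Pool.Agent.Lib_helper39.RSA.CUT1
import Pool.Agent.Lib_helper39.RSA.DIM
import Pool.Agent.Lib_helper39.RSA.DU
import Pool.Agent.Lib_helper39.RSA.PFM
/-!
# RSE, blocks M3 and CR: the second moment of `fo` above the centre
-/

namespace Pool.Agent.RSE

open Complex MeasureTheory Filter Topology
open scoped ContDiff

theorem rse_m3_E1_one (n : ℕ) : 1 ≤ E1 n := by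
  unfold E1
  calc (1 : ℝ) = ∏ p ∈ n.primeFactors, (1 : ℝ) := by simp
    _ ≤ _ := by
        apply Finset.prod_le_prod (fun _ _ => zero_le_one)
        intro p _
        have : (0 : ℝ) ≤ 1 / √(p : ℝ) := by positivity
        linarith

/-- The block is dominated by the smooth sum. -/
theorem rse_m3_le_Ef {φ : ℝ → ℝ} (hφ : Bump φ) (g Θ : ℝ → ℝ) (L : ℝ) (R : ℕ) (j : Fin 4)
    (c : ℕ) (K u : ℝ) (hK : 0 < K) :
    ∑ m ∈ blk8 c K, fo g Θ L R j m u ^ 2 ≤ Ef φ g Θ L R j c K u u := by
  have hsub : blk8 c K ⊆ fam c K := by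
    intro m hm
    unfold blk8 at hm
    rw [Finset.mem_filter, Finset.mem_range] at hm
    unfold fam
    rw [Finset.mem_filter, Finset.mem_range]
    refine ⟨?_, hm.2.2.2⟩
    have : m ≤ ⌊4 * K⌋₊ := by
      rw [Nat.le_floor_iff (by positivity)]
      have := hm.2.2.1
      linarith
    omega
  unfold Ef
  calc ∑ m ∈ blk8 c K, fo g Θ L R j m u ^ 2
      = ∑ m ∈ blk8 c K, φ (m / K) * (fo g Θ L R j m u * fo g Θ L R j m u) := by
        apply Finset.sum_congr rfl
        intro m hm
        unfold blk8 at hm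
        rw [Finset.mem_filter, Finset.mem_range] at hm
        have h1 : (1 : ℝ) ≤ m / K := by
          rw [le_div_iff₀ hK, one_mul]
          exact hm.2.1
        have h2 : (m : ℝ) / K ≤ 2 := by
          rw [div_le_iff₀ hK]
          exact hm.2.2.1.le
        rw [hφ.one _ h1 h2, one_mul, sq]
    _ ≤ _ := by
        apply Finset.sum_le_sum_of_subset_of_nonneg hsub
        intro m _ _
        have h3 := hφ.nonneg (m / K)
        have h4 := mul_self_nonneg (fo g Θ L R j m u)
        exact mul_nonneg h3 h4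

/-- The off-diagonal above the centre. -/
theorem rse_m3_exp {K L u : ℝ} (hK : 1 ≤ K) (h : ce K + 5 * L ≤ u) :
    K * (Real.exp (-(u + u)) / K) ^ 5 ≤ K * Real.exp (-(50 * L)) ∧
    Real.exp (-(u + u) / 4) ≤ Real.exp (Real.log K / 4 - 5 / 2 * L) := by
  have hK0 : 0 < K := by linarith
  unfold ce at h
  constructor
  · apply mul_le_mul_of_nonneg_left _ hK0.le
    have h1 : Real.exp (-(u + u)) / K ≤ Real.exp (-(10 * L)) := by
      rw [div_le_iff₀ hK0]
      calc Real.exp (-(u + u)) ≤ Real.exp (-(10 * L) + Real.log K) :=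
            Real.exp_le_exp.2 (by linarith)
        _ = Real.exp (-(10 * L)) * K := by rw [Real.exp_add, Real.exp_log hK0]
    calc (Real.exp (-(u + u)) / K) ^ 5 ≤ Real.exp (-(10 * L)) ^ 5 :=
          pow_le_pow_left₀ (by positivity) h1 5
      _ = Real.exp (-(50 * L)) := by
          rw [← Real.exp_nat_mul]
          congr 1
          push_cast
          ring
  · apply Real.exp_le_exp.2
    linarith

/-- M3 (cites CUT1, PFM, DU). -/
theorem m3_bound_pr {g Θ : ℝ → ℝ} (hg : Kern g) (hΘ : Cut Θ) : ∃ C : ℝ, 0 < C ∧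
    ∀ (j : Fin 4) (c R : ℕ) (L K u : ℝ), OC c → 0 < R → 1 ≤ L → 1 ≤ K → ce K + 5 * L ≤ u →
    u ≤ -(200 * L) → ∑ m ∈ blk8 c K, fo g Θ L R j m u ^ 2 ≤ C * E1 R ^ 3 * K / L := by
  obtain ⟨φ, hφ⟩ := exists_bump
  obtain ⟨C1, hC1, h1⟩ := pfm_bound hφ hg hΘ
  obtain ⟨C2, hC2, h2⟩ := du_bound hφ hg hΘ
  refine ⟨C2 + 2 * C1, by positivity, ?_⟩
  intro j c R L K u hc hR hL hK hcu hu
  have hK0 : 0 < K := by linarith
  have hL0 : 0 < L := by linarith
  have hER : 1 ≤ E1 R ^ 3 := one_le_pow₀ (rse_m3_E1_one R)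
  have h3 := rse_m3_le_Ef hφ g Θ L R j c K u hK0
  have h4 : Ef φ g Θ L R j c K u u = Df φ g Θ L R c K u u + Pf φ g Θ L R j c K u u := by
    unfold Pf
    ring
  have h5 := h2 c R L K u hc hR hL hK0 hu
  have h6 := (abs_le.1 (h1 j c R L K u u hc hL hK0).1).2
  obtain ⟨h7, h8⟩ := rse_m3_exp hK hcu
  have hlog : 410 * L ≤ Real.log K := by
    unfold ce at hcu
    linarith
  have hinv : Real.exp (-L) ≤ 1 / L := by
    rw [Real.exp_neg, ← one_div]
    apply one_div_le_one_div_of_le hL0
    have := Real.add_one_le_exp L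
    linarith
  have h9 : C1 * Real.exp (40 * L) *
      (K * (Real.exp (-(u + u)) / K) ^ 5 + Real.exp (-(u + u) / 4)) ≤ 2 * C1 * K / L := by
    have h10 : Real.exp (40 * L) *
        (K * (Real.exp (-(u + u)) / K) ^ 5 + Real.exp (-(u + u) / 4)) ≤
        2 * K * Real.exp (-L) := by
      have h11 : Real.exp (40 * L) * (K * Real.exp (-(50 * L))) ≤ K * Real.exp (-L) := by
        have e : Real.exp (40 * L) * (K * Real.exp (-(50 * L))) = K * Real.exp (-(10 * L)) := by
          rw [show -(10 * L) = 40 * L + -(50 * L) by ring, Real.exp_add]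
          ring
        rw [e]
        exact mul_le_mul_of_nonneg_left (Real.exp_le_exp.2 (by linarith)) hK0.le
      have h12 : Real.exp (40 * L) * Real.exp (Real.log K / 4 - 5 / 2 * L) ≤
          K * Real.exp (-L) := by
        rw [← Real.exp_add]
        calc Real.exp (40 * L + (Real.log K / 4 - 5 / 2 * L)) ≤
              Real.exp (Real.log K + -L) := Real.exp_le_exp.2 (by linarith)
          _ = K * Real.exp (-L) := by rw [Real.exp_add, Real.exp_log hK0]
      have h13 : Real.exp (40 * L) *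
          (K * (Real.exp (-(u + u)) / K) ^ 5 + Real.exp (-(u + u) / 4)) ≤
          Real.exp (40 * L) * (K * Real.exp (-(50 * L)) +
            Real.exp (Real.log K / 4 - 5 / 2 * L)) :=
        mul_le_mul_of_nonneg_left (add_le_add h7 h8) (Real.exp_pos _).le
      calc _ ≤ _ := h13
        _ = Real.exp (40 * L) * (K * Real.exp (-(50 * L))) +
            Real.exp (40 * L) * Real.exp (Real.log K / 4 - 5 / 2 * L) := by ring
        _ ≤ K * Real.exp (-L) + K * Real.exp (-L) := add_le_add h11 h12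
        _ = _ := by ring
    calc C1 * Real.exp (40 * L) *
          (K * (Real.exp (-(u + u)) / K) ^ 5 + Real.exp (-(u + u) / 4))
        = C1 * (Real.exp (40 * L) *
          (K * (Real.exp (-(u + u)) / K) ^ 5 + Real.exp (-(u + u) / 4))) := by ring
      _ ≤ C1 * (2 * K * Real.exp (-L)) := mul_le_mul_of_nonneg_left h10 hC1.le
      _ ≤ C1 * (2 * K * (1 / L)) :=
          mul_le_mul_of_nonneg_left (mul_le_mul_of_nonneg_left hinv (by positivity)) hC1.le
      _ = 2 * C1 * K / L := by ring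
  have h14 : 2 * C1 * K / L ≤ 2 * C1 * K / L * E1 R ^ 3 :=
    le_mul_of_one_le_right (by positivity) hER
  calc ∑ m ∈ blk8 c K, fo g Θ L R j m u ^ 2
      ≤ C2 * E1 R ^ 3 * K / L + 2 * C1 * K / L * E1 R ^ 3 := by linarith
    _ = _ := by ring

/-- CR (cites CUT1, PFM, DIM, AVE). -/
theorem cr_bound_pr {g Θ : ℝ → ℝ} (hg : Kern g) (hΘ : Cut Θ) : ∃ C : ℝ, 0 < C ∧
    ∀ (j : Fin 4) (c R : ℕ) (L K u : ℝ), OC c → 1 ≤ L → 1 ≤ K → ce K + 5 * L ≤ u →
    ∑ m ∈ blk8 c K, fo g Θ L R j m u ^ 2 ≤ C * Real.exp (40 * L) * K := by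
  obtain ⟨φ, hφ⟩ := exists_bump
  obtain ⟨C1, hC1, h1⟩ := pfm_bound hφ hg hΘ
  obtain ⟨C2, hC2, h2⟩ := dim_bound hg hΘ
  obtain ⟨C3, hC3, h3⟩ := ave_E1
  refine ⟨C2 * C3 + 2 * C1, by positivity, ?_⟩
  intro j c R L K u hc hL hK hcu
  have hK0 : 0 < K := by linarith
  have hL0 : 0 < L := by linarith
  have h4 := rse_m3_le_Ef hφ g Θ L R j c K u hK0
  have h5 : Ef φ g Θ L R j c K u u = Df φ g Θ L R c K u u + Pf φ g Θ L R j c K u u := by
    unfold Pf
    ring
  have h6 := (abs_le.1 (h1 j c R L K u u hc hL hK0).1).2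
  obtain ⟨h7, h8⟩ := rse_m3_exp hK hcu
  have h9 : K * Real.exp (-(50 * L)) ≤ K := by
    apply mul_le_of_le_one_right hK0.le
    rw [Real.exp_le_one_iff]
    linarith
  have h10 : Real.exp (Real.log K / 4 - 5 / 2 * L) ≤ K := by
    calc Real.exp (Real.log K / 4 - 5 / 2 * L) ≤ Real.exp (Real.log K) := by
          apply Real.exp_le_exp.2
          have := Real.log_nonneg hK
          linarith
      _ = K := Real.exp_log hK0
  have h11 : Pf φ g Θ L R j c K u u ≤ C1 * Real.exp (40 * L) * (2 * K) := by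
    refine h6.trans (mul_le_mul_of_nonneg_left ?_ (by positivity))
    linarith
  have h12 : Df φ g Θ L R c K u u ≤ C2 * C3 * Real.exp (40 * L) * K := by
    unfold Df
    calc ∑ m ∈ fam c K, φ (m / K) * Dg g Θ L R m u u
        ≤ ∑ m ∈ fam c K, C2 * Real.exp (16 * L) * E1 m ^ 3 := by
          apply Finset.sum_le_sum
          intro m hm
          have hm0 : 0 < m := by
            unfold fam at hm
            rw [Finset.mem_filter, Finset.mem_range] at hm
            unfold OC at hc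
            omega
          have h13 := (h2 L R m u u hL hm0).1
          have h14 := hφ.nonneg (m / K)
          have h15 := hφ.le (m / K)
          calc φ (m / K) * Dg g Θ L R m u u ≤ φ (m / K) * |Dg g Θ L R m u u| :=
                mul_le_mul_of_nonneg_left (le_abs_self _) h14
            _ ≤ 1 * |Dg g Θ L R m u u| := mul_le_mul_of_nonneg_right h15 (abs_nonneg _)
            _ = |Dg g Θ L R m u u| := one_mul _
            _ ≤ _ := h13
      _ = C2 * Real.exp (16 * L) * ∑ m ∈ fam c K, E1 m ^ 3 := by rw [Finset.mul_sum]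
      _ ≤ C2 * Real.exp (16 * L) * (C3 * K) :=
          mul_le_mul_of_nonneg_left (h3 c K hc hK0) (by positivity)
      _ ≤ C2 * Real.exp (40 * L) * (C3 * K) := by
          apply mul_le_mul_of_nonneg_right _ (by positivity)
          apply mul_le_mul_of_nonneg_left _ hC2.le
          exact Real.exp_le_exp.2 (by linarith)
      _ = _ := by ring
  calc ∑ m ∈ blk8 c K, fo g Θ L R j m u ^ 2
      ≤ C2 * C3 * Real.exp (40 * L) * K + C1 * Real.exp (40 * L) * (2 * K) := by linarith
    _ = _ := by ring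

end Pool.Agent.RSE

namespace Pool.Agent.RSE

alias m3_bound := m3_bound_pr

alias cr_bound := cr_bound_pr

end Pool.Agent.RSE
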