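import Pool.Agent.Lib_helper39.RSE.Defs
import Pool.Agent.Lib_helper39.RSA.DefsB
import Pool.Agent.Lib_helper24.ABS.Endgame
import Pool.Agent.Lib_helper92.SQA.ALPHA
import Pool.Agent.Lib_helper39.RSA.DOD
import Pool.Agent.Lib_helper39.RSA.EM
import Pool.Agent.Lib_helper39.RSA.KG1
import Pool.Agent.Lib_helper39.RSA.SUMG
/-!
# RSE, block M4B
-/

namespace Pool.Agent.RSE

open Complex MeasureTheory Filter Topology
open Pool.Agent.RC (cc psi rv f0 IsRC Good gm pr DD)
open scoped ContDiff

theorem rse_m4b_psi_abs (j : Fin 4) (n : ℕ) : |psi j n| ≤ 1 := by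
  fin_cases j
  · change |(1 : ℤ)| ≤ 1
    norm_num
  · change |ZMod.χ₄ (n : ZMod 4)| ≤ 1
    generalize (n : ZMod 4) = x
    revert x; decide
  · change |ZMod.χ₈ (n : ZMod 8)| ≤ 1
    generalize (n : ZMod 8) = x
    revert x; decide
  · change |ZMod.χ₈' (n : ZMod 8)| ≤ 1
    generalize (n : ZMod 8) = x
    revert x; decide

theorem rse_m4b_psi_per (j : Fin 4) (n : ℕ) : psi j (n + 8) = psi j n := by
  have h4 : ((8 : ℕ) : ZMod 4) = 0 := by decide
  have h8 : ((8 : ℕ) : ZMod 8) = 0 := by decide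
  fin_cases j
  · rfl
  · change ZMod.χ₄ ((n + 8 : ℕ) : ZMod 4) = ZMod.χ₄ (n : ZMod 4)
    rw [Nat.cast_add, h4, add_zero]
  · change ZMod.χ₈ ((n + 8 : ℕ) : ZMod 8) = ZMod.χ₈ (n : ZMod 8)
    rw [Nat.cast_add, h8, add_zero]
  · change ZMod.χ₈' ((n + 8 : ℕ) : ZMod 8) = ZMod.χ₈' (n : ZMod 8)
    rw [Nat.cast_add, h8, add_zero]

theorem rse_m4b_rv_abs (j : Fin 4) (m n : ℕ) : |(rv j m n : ℝ)| ≤ 1 := by
  have h1 := rse_m4b_psi_abs j n
  have h2 : |jacobiSym n m| ≤ 1 := by
    rcases jacobiSym.trichotomy n m with h | h | h <;> rw [h] <;> norm_num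
  have h3 : |rv j m n| ≤ 1 := by
    unfold rv
    rw [abs_mul]
    calc |psi j n| * |jacobiSym n m| ≤ 1 * 1 := mul_le_mul h1 h2 (abs_nonneg _) (by norm_num)
      _ = 1 := by norm_num
  exact_mod_cast h3

/-- The density of `Λ(s, ψ_j)` to the left. -/
theorem rse_m4b_df {g : ℝ → ℝ} (hg : Kern g) : ∃ C : ℝ, 0 < C ∧ ∀ (j : Fin 4) (v : ℝ),
    |DF g j 1 v| ≤ C * Real.exp (v / 2) := by
  have hg' : Kern (deriv g) := kern_deriv hg
  have hF0 : Fast g := by simpa using hg.fast 0
  have hF1 : Fast (deriv g) := by simpa using hg'.fast 0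
  have hc0 : Continuous g := hg.smooth.continuous
  have hc1 : Continuous (deriv g) := hg'.smooth.continuous
  have hd : Differentiable ℝ g := hg.smooth.differentiable (by simp)
  have i0 := fast_int hF0 hc0 (a := -(1 / 2)) (by norm_num)
  have i1 := fast_int hF1 hc1 (a := -(1 / 2)) (by norm_num)
  have i0' := fast_int hF0 hc0 (a := (1 / 2)) (by norm_num)
  have i1' := fast_int hF1 hc1 (a := (1 / 2)) (by norm_num)
  set J : ℝ := ∫ z : ℝ, Real.exp (-(1 / 2) * z) * (3 / 2 * |g z| + |deriv g z|) with hJ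
  have hJint : Integrable (fun z : ℝ => Real.exp (-(1 / 2) * z) * (3 / 2 * |g z| + |deriv g z|)) := by
    have := (i0.const_mul (3 / 2)).add i1
    refine this.congr (Eventually.of_forall fun z => ?_)
    simp only [Pi.add_apply]
    ring
  have hJ0 : 0 ≤ J := integral_nonneg fun z => by positivity
  refine ⟨16 * J + 1, by positivity, fun j v => ?_⟩
  set F : ℝ → ℂ := fun y => ((Real.exp (y / 2) * g (y + v) : ℝ) : ℂ) with hF
  have hder : ∀ y, HasDerivAt F
      ((Real.exp (y / 2) * (1 / 2 * g (y + v) + deriv g (y + v)) : ℝ) : ℂ) y := by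
    intro y
    have e1 : HasDerivAt (fun y : ℝ => Real.exp (y / 2)) (Real.exp (y / 2) * (1 / 2)) y :=
      ((hasDerivAt_id y).div_const 2).exp
    have e2 : HasDerivAt (fun y : ℝ => g (y + v)) (deriv g (y + v)) y := by
      have := (hd (y + v)).hasDerivAt.comp_add_const y v
      exact this
    have e3 : HasDerivAt F ((Real.exp (y / 2) * (1 / 2) * g (y + v) +
        Real.exp (y / 2) * deriv g (y + v) : ℝ) : ℂ) y := (e1.mul e2).ofReal_comp
    have e4 : Real.exp (y / 2) * (1 / 2 * g (y + v) + deriv g (y + v)) =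
        Real.exp (y / 2) * (1 / 2) * g (y + v) + Real.exp (y / 2) * deriv g (y + v) := by ring
    rw [e4]
    exact e3
  have hdF : deriv F = fun y =>
      ((Real.exp (y / 2) * (1 / 2 * g (y + v) + deriv g (y + v)) : ℝ) : ℂ) := by
    funext y; exact (hder y).deriv
  have hFc : ContDiff ℝ 1 F := by
    have : ContDiff ℝ ∞ F := by
      have h1 : ContDiff ℝ ∞ (fun y : ℝ => Real.exp (y / 2) * g (y + v)) := by
        refine ContDiff.mul ?_ ?_
        · fun_prop
        · exact hg.smooth.comp (contDiff_id.add contDiff_const)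
      exact Complex.ofRealCLM.contDiff.comp h1
    exact this.of_le (by exact_mod_cast le_top)
  have hint1 : Integrable F := by
    have h1 : Integrable (fun y : ℝ => Real.exp ((1 / 2) * (y + v)) * |g (y + v)|) :=
      i0'.comp_add_right v
    have h2 : Integrable (fun y : ℝ => Real.exp (-v / 2) *
        (Real.exp ((1 / 2) * (y + v)) * |g (y + v)|)) := h1.const_mul _
    refine h2.mono' hFc.continuous.aestronglyMeasurable (Eventually.of_forall fun y => ?_)
    rw [hF]
    simp only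
    rw [Complex.norm_real, Real.norm_eq_abs, abs_mul, abs_of_pos (Real.exp_pos _), ← mul_assoc,
      ← Real.exp_add]
    apply le_of_eq
    congr 2
    ring
  have hint2 : Integrable (deriv F) := by
    have h1 : Integrable (fun y : ℝ => Real.exp ((1 / 2) * (y + v)) * |g (y + v)|) :=
      i0'.comp_add_right v
    have h3 : Integrable (fun y : ℝ => Real.exp ((1 / 2) * (y + v)) * |deriv g (y + v)|) :=
      i1'.comp_add_right v
    have h2 : Integrable (fun y : ℝ => Real.exp (-v / 2) *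
        (Real.exp ((1 / 2) * (y + v)) * |g (y + v)| +
          Real.exp ((1 / 2) * (y + v)) * |deriv g (y + v)|)) := (h1.add h3).const_mul _
    refine h2.mono' (hFc.continuous_deriv (le_refl 1)).aestronglyMeasurable
      (Eventually.of_forall fun y => ?_)
    rw [hdF]
    simp only
    rw [Complex.norm_real, Real.norm_eq_abs, abs_mul, abs_of_pos (Real.exp_pos _), ← mul_add,
      ← mul_assoc, ← Real.exp_add]
    have e1 : -v / 2 + 1 / 2 * (y + v) = y / 2 := by ring
    rw [e1]
    refine mul_le_mul_of_nonneg_left ?_ (Real.exp_pos _).le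
    have e2 := abs_add_le (1 / 2 * g (y + v)) (deriv g (y + v))
    have e3 : |1 / 2 * g (y + v)| = 1 / 2 * |g (y + v)| := by
      rw [abs_mul, abs_of_pos (by norm_num : (0 : ℝ) < 1 / 2)]
    have e4 := abs_nonneg (g (y + v))
    linarith
  have hzero : ∫ y : ℝ, F y = 0 := by
    have h1 : ∀ y : ℝ, F y = ((Real.exp (-v / 2) * (Real.exp ((y + v) / 2) * g (y + v)) : ℝ) : ℂ) := by
      intro y
      rw [hF]
      simp only
      rw [← mul_assoc, ← Real.exp_add]
      congr 3
      ring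
    simp_rw [h1]
    rw [integral_complex_ofReal, integral_const_mul]
    have h2 := integral_add_right_eq_self (μ := volume) (fun y : ℝ => Real.exp (y / 2) * g y) v
    rw [h2, hg.int1]
    simp
  obtain ⟨hs, hb⟩ := em_sum 8 (by norm_num) (fun n => (psi j n : ℝ))
    (fun n => by rw [rse_m4b_psi_per]) (fun n => by
      have := rse_m4b_psi_abs j n
      exact_mod_cast this) F hFc hint1 hint2
  rw [hzero, mul_zero, sub_zero] at hb
  have hD : ((DF g j 1 v : ℝ) : ℂ) =
      ∑' n : ℕ, if 0 < n then (((psi j n : ℤ) : ℝ) : ℂ) / n * F (Real.log n) else 0 := by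
    unfold DF
    rw [Complex.ofReal_tsum]
    refine tsum_congr fun n => ?_
    split_ifs with hn
    · have hnR : (0 : ℝ) < n := Nat.cast_pos.mpr hn
      have e1 : Real.exp (Real.log n / 2) = √(n : ℝ) := by
        rw [Real.sqrt_eq_rpow, Real.rpow_def_of_pos hnR]
        congr 1
        ring
      have e2 : rv j 1 n = psi j n := by
        unfold rv
        rw [jacobiSym.one_right, mul_one]
      rw [hF]
      simp only
      rw [e1, e2]
      have e3 : √(n : ℝ) * √(n : ℝ) = n := Real.mul_self_sqrt hnR.le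
      have e4 : √(n : ℝ) ≠ 0 := (Real.sqrt_pos.mpr hnR).ne'
      have e5 : ((psi j n : ℤ) : ℝ) / √(n : ℝ) * g (Real.log n + v) =
          ((psi j n : ℤ) : ℝ) / n * (√(n : ℝ) * g (Real.log n + v)) := by
        calc ((psi j n : ℤ) : ℝ) / √(n : ℝ) * g (Real.log n + v)
            = ((psi j n : ℤ) : ℝ) / (√(n : ℝ) * √(n : ℝ)) *
                (√(n : ℝ) * g (Real.log n + v)) := by
              field_simp
          _ = _ := by rw [e3]
      rw [e5]
      push_cast
      ring
    · simp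
  have hbound : |DF g j 1 v| ≤ 2 * 8 * ∫ y : ℝ, min 1 (Real.exp (-y)) * (‖F y‖ + ‖deriv F y‖) := by
    rw [← Real.norm_eq_abs, ← Complex.norm_real, hD]
    exact_mod_cast hb
  have hle : ∫ y : ℝ, min 1 (Real.exp (-y)) * (‖F y‖ + ‖deriv F y‖) ≤
      Real.exp (v / 2) * J := by
    have h1 : Integrable (fun y : ℝ => Real.exp (v / 2) *
        (Real.exp (-(1 / 2) * (y + v)) * (3 / 2 * |g (y + v)| + |deriv g (y + v)|))) :=
      (hJint.comp_add_right v).const_mul _
    have h2 : ∫ y : ℝ, Real.exp (v / 2) *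
        (Real.exp (-(1 / 2) * (y + v)) * (3 / 2 * |g (y + v)| + |deriv g (y + v)|)) =
        Real.exp (v / 2) * J := by
      rw [integral_const_mul]
      congr 1
      exact integral_add_right_eq_self (μ := volume)
        (fun z : ℝ => Real.exp (-(1 / 2) * z) * (3 / 2 * |g z| + |deriv g z|)) v
    rw [← h2]
    refine integral_mono_of_nonneg (Eventually.of_forall fun y => ?_) h1
      (Eventually.of_forall fun y => ?_)
    · simp only [Pi.zero_apply]
      have : 0 ≤ min 1 (Real.exp (-y)) := le_min zero_le_one (Real.exp_pos _).le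
      positivity
    · simp only
      have e0 : min 1 (Real.exp (-y)) ≤ Real.exp (-y) := min_le_right _ _
      have e1 : ‖F y‖ = Real.exp (y / 2) * |g (y + v)| := by
        rw [hF]
        simp only
        rw [Complex.norm_real, Real.norm_eq_abs, abs_mul, abs_of_pos (Real.exp_pos _)]
      have e2 : ‖deriv F y‖ ≤ Real.exp (y / 2) * (1 / 2 * |g (y + v)| + |deriv g (y + v)|) := by
        rw [hdF]
        simp only
        rw [Complex.norm_real, Real.norm_eq_abs, abs_mul, abs_of_pos (Real.exp_pos _)]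
        refine mul_le_mul_of_nonneg_left ?_ (Real.exp_pos _).le
        have e2 := abs_add_le (1 / 2 * g (y + v)) (deriv g (y + v))
        have e3 : |1 / 2 * g (y + v)| = 1 / 2 * |g (y + v)| := by
          rw [abs_mul, abs_of_pos (by norm_num : (0 : ℝ) < 1 / 2)]
        linarith
      calc min 1 (Real.exp (-y)) * (‖F y‖ + ‖deriv F y‖)
          ≤ Real.exp (-y) * (Real.exp (y / 2) * |g (y + v)| +
              Real.exp (y / 2) * (1 / 2 * |g (y + v)| + |deriv g (y + v)|)) := by
            refine mul_le_mul e0 ?_ (by positivity) (Real.exp_pos _).le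
            rw [e1]
            linarith
        _ = (Real.exp (-y) * Real.exp (y / 2)) * (3 / 2 * |g (y + v)| + |deriv g (y + v)|) := by
            ring
        _ = (Real.exp (v / 2) * Real.exp (-(1 / 2) * (y + v))) *
              (3 / 2 * |g (y + v)| + |deriv g (y + v)|) := by
            rw [← Real.exp_add, ← Real.exp_add]
            congr 2
            ring
        _ = _ := by ring
  calc |DF g j 1 v| ≤ 2 * 8 * (Real.exp (v / 2) * J) :=
        hbound.trans (mul_le_mul_of_nonneg_left hle (by norm_num))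
    _ = 16 * J * Real.exp (v / 2) := by ring
    _ ≤ (16 * J + 1) * Real.exp (v / 2) := by
        have := Real.exp_pos (v / 2)
        nlinarith

theorem rse_m4b_be {Θ : ℝ → ℝ} (hΘ : Cut Θ) {L : ℝ} (hL : 0 < L) (R k : ℕ) :
    |be Θ L R k| ≤ 1 := by
  unfold be
  split_ifs with h
  · rw [abs_mul]
    have h1 : |Pool.Agent.SQ.al k| ≤ 1 := Pool.Agent.SQ.al_abs k
    have h2 : |Θ (Real.log k / L)| ≤ 1 := by
      apply hΘ.bd
      have : 0 ≤ Real.log k := Real.log_natCast_nonneg k
      positivity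
    calc |Pool.Agent.SQ.al k| * |Θ (Real.log k / L)| ≤ 1 * 1 :=
          mul_le_mul h1 h2 (abs_nonneg _) (by norm_num)
      _ = 1 := by norm_num
  · simp

/-- The bound for `ff` with `m = 1`. -/
theorem rse_m4b_ff {g Θ : ℝ → ℝ} (hg : Kern g) (hΘ : Cut Θ) : ∃ C : ℝ, 0 < C ∧
    ∀ (j : Fin 4) (R : ℕ) (L v : ℝ), 1 ≤ L →
    |ff g Θ L R j 1 v| ≤ C * Real.exp (2 * L) * Real.exp (v / 2) := by
  obtain ⟨C, hC, hb⟩ := rse_m4b_df hg
  refine ⟨C, hC, fun j R L v hL => ?_⟩
  unfold ff
  have hcard : ((KL L).card : ℝ) ≤ Real.exp L := by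
    unfold KL
    rw [Nat.card_Icc, Nat.add_sub_cancel]
    exact Nat.floor_le (Real.exp_pos L).le
  have hterm : ∀ k ∈ KL L, ∀ l ∈ KL L,
      |be Θ L R k * be Θ L R l * (rv j 1 (k * l) : ℝ) / √((k : ℝ) * l) *
        DF g j 1 (v + Real.log k - Real.log l)| ≤ C * Real.exp (v / 2) := by
    intro k hk l hl
    have hk1 : 1 ≤ k := (Finset.mem_Icc.mp hk).1
    have hl1 : 1 ≤ l := (Finset.mem_Icc.mp hl).1
    have hkR : (1 : ℝ) ≤ k := by exact_mod_cast hk1
    have hlR : (1 : ℝ) ≤ l := by exact_mod_cast hl1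
    have hL0 : 0 < L := by linarith
    have b1 := rse_m4b_be hΘ hL0 R k
    have b2 := rse_m4b_be hΘ hL0 R l
    have b3 := rse_m4b_rv_abs j 1 (k * l)
    have b4 := hb j (v + Real.log k - Real.log l)
    have e1 : Real.exp ((v + Real.log k - Real.log l) / 2) =
        Real.exp (v / 2) * (√(k : ℝ) / √(l : ℝ)) := by
      have hk0 : (0 : ℝ) < k := by linarith
      have hl0 : (0 : ℝ) < l := by linarith
      rw [Real.sqrt_eq_rpow, Real.sqrt_eq_rpow, Real.rpow_def_of_pos hk0, Real.rpow_def_of_pos hl0,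
        ← Real.exp_sub, ← Real.exp_add]
      congr 1
      ring
    rw [e1] at b4
    have hs : 0 < √((k : ℝ) * l) := Real.sqrt_pos.mpr (by positivity)
    rw [abs_mul, abs_div, abs_of_pos hs]
    have c1 : |be Θ L R k * be Θ L R l * (rv j 1 (k * l) : ℝ)| ≤ 1 := by
      rw [abs_mul, abs_mul]
      calc |be Θ L R k| * |be Θ L R l| * |(rv j 1 (k * l) : ℝ)| ≤ 1 * 1 * 1 := by
            gcongr
        _ = 1 := by norm_num
    calc |be Θ L R k * be Θ L R l * (rv j 1 (k * l) : ℝ)| / √((k : ℝ) * l) *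
          |DF g j 1 (v + Real.log k - Real.log l)|
        ≤ 1 / √((k : ℝ) * l) * (C * (Real.exp (v / 2) * (√(k : ℝ) / √(l : ℝ)))) := by
          gcongr
      _ = C * Real.exp (v / 2) * (√(k : ℝ) / √(l : ℝ) / √((k : ℝ) * l)) := by ring
      _ ≤ C * Real.exp (v / 2) * 1 := by
          refine mul_le_mul_of_nonneg_left ?_ (by positivity)
          rw [Real.sqrt_mul (by positivity) (l : ℝ), div_div]
          have hk0 : 0 < √(k : ℝ) := Real.sqrt_pos.mpr (by linarith)
          have hl0 : 0 < √(l : ℝ) := Real.sqrt_pos.mpr (by linarith)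
          rw [div_le_one (by positivity)]
          have hl2 : √(l : ℝ) * √(l : ℝ) = l := Real.mul_self_sqrt (by positivity)
          have : √(l : ℝ) * (√(k : ℝ) * √(l : ℝ)) = √(k : ℝ) * l := by
            calc √(l : ℝ) * (√(k : ℝ) * √(l : ℝ)) = √(k : ℝ) * (√(l : ℝ) * √(l : ℝ)) := by ring
              _ = _ := by rw [hl2]
          rw [this]
          nlinarith
      _ = C * Real.exp (v / 2) := by ring
  calc |∑ k ∈ KL L, ∑ l ∈ KL L, be Θ L R k * be Θ L R l * (rv j 1 (k * l) : ℝ) /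
        √((k : ℝ) * l) * DF g j 1 (v + Real.log k - Real.log l)|
      ≤ ∑ k ∈ KL L, ∑ l ∈ KL L, C * Real.exp (v / 2) := by
        refine (Finset.abs_sum_le_sum_abs _ _).trans (Finset.sum_le_sum fun k hk => ?_)
        exact (Finset.abs_sum_le_sum_abs _ _).trans
          (Finset.sum_le_sum fun l hl => hterm k hk l hl)
    _ = ((KL L).card : ℝ) * ((KL L).card : ℝ) * (C * Real.exp (v / 2)) := by
        simp only [Finset.sum_const, nsmul_eq_mul]
        ring
    _ ≤ Real.exp L * Real.exp L * (C * Real.exp (v / 2)) := by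
        gcongr
    _ = C * Real.exp (2 * L) * Real.exp (v / 2) := by
        rw [← Real.exp_add, show L + L = 2 * L by ring]
        ring

/-- M4B (cites EM; also SUMG, KG1, DOD). -/
theorem m4b_bound_pr {g Θ : ℝ → ℝ} (hg : Kern g) (hΘ : Cut Θ) : ∃ C : ℝ, 0 < C ∧
    ∀ (j : Fin 4) (m2 : ℕ) (L u : ℝ), Odd m2 → 1 ≤ L →
    |fo g Θ L 1 j (m2 ^ 2) u| ≤
      C * Real.exp (3 * L) * ((sd (2 * m2)).card : ℝ) * Real.exp (u / 2) := by
  obtain ⟨C, hC, hb⟩ := rse_m4b_ff hg hΘ
  refine ⟨C, hC, fun j m2 L u hm2 hL => ?_⟩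
  have h1 := fo_dec hg Θ L j (m1 := 1) (m2 := m2) odd_one hm2 u
  rw [one_mul] at h1
  rw [h1]
  have hterm : ∀ d ∈ sd (2 * m2),
      |((ArithmeticFunction.moebius d : ℤ) : ℝ) * (rv j 1 d : ℝ) / √(d : ℝ) *
        ff g Θ L m2 j 1 (u + Real.log d)| ≤ C * Real.exp (2 * L) * Real.exp (u / 2) := by
    intro d hd
    have hd0 : 0 < d := Nat.pos_of_mem_divisors (Finset.mem_filter.mp hd).1
    have hdR : (0 : ℝ) < d := Nat.cast_pos.mpr hd0
    have hs : 0 < √(d : ℝ) := Real.sqrt_pos.mpr hdR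
    have b1 := hb j m2 L (u + Real.log d) hL
    have e1 : Real.exp ((u + Real.log d) / 2) = Real.exp (u / 2) * √(d : ℝ) := by
      rw [Real.sqrt_eq_rpow, Real.rpow_def_of_pos hdR, ← Real.exp_add]
      congr 1
      ring
    rw [e1] at b1
    have a1 : |((ArithmeticFunction.moebius d : ℤ) : ℝ) * (rv j 1 d : ℝ)| ≤ 1 := by
      rw [abs_mul]
      have : |ArithmeticFunction.moebius d| ≤ 1 := ArithmeticFunction.abs_moebius_le_one
      have h' : |((ArithmeticFunction.moebius d : ℤ) : ℝ)| ≤ 1 := by exact_mod_cast this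
      calc _ ≤ (1 : ℝ) * 1 := mul_le_mul h' (rse_m4b_rv_abs j 1 d) (abs_nonneg _) (by norm_num)
        _ = 1 := by norm_num
    rw [abs_mul, abs_div, abs_of_pos hs]
    calc |((ArithmeticFunction.moebius d : ℤ) : ℝ) * (rv j 1 d : ℝ)| / √(d : ℝ) *
          |ff g Θ L m2 j 1 (u + Real.log d)|
        ≤ 1 / √(d : ℝ) * (C * Real.exp (2 * L) * (Real.exp (u / 2) * √(d : ℝ))) := by
          gcongr
      _ = C * Real.exp (2 * L) * Real.exp (u / 2) := by
          field_simp
  calc |∑ d ∈ sd (2 * m2), ((ArithmeticFunction.moebius d : ℤ) : ℝ) * (rv j 1 d : ℝ) /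
        √(d : ℝ) * ff g Θ L m2 j 1 (u + Real.log d)|
      ≤ ∑ d ∈ sd (2 * m2), C * Real.exp (2 * L) * Real.exp (u / 2) :=
        (Finset.abs_sum_le_sum_abs _ _).trans (Finset.sum_le_sum hterm)
    _ = C * Real.exp (2 * L) * ((sd (2 * m2)).card : ℝ) * Real.exp (u / 2) := by
        rw [Finset.sum_const, nsmul_eq_mul]
        ring
    _ ≤ C * Real.exp (3 * L) * ((sd (2 * m2)).card : ℝ) * Real.exp (u / 2) := by
        have : Real.exp (2 * L) ≤ Real.exp (3 * L) := Real.exp_le_exp.mpr (by linarith)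
        gcongr

end Pool.Agent.RSE

namespace Pool.Agent.RSE

alias m4b_bound := m4b_bound_pr

end Pool.Agent.RSE
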