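import Pool.Agent.Lib_helper39.RSE.Defs
import Pool.Agent.Lib_helper39.RSA.DefsB
/-!
# RSE, block PRM: the real characters `ψ_j (·/m)`
-/

namespace Pool.Agent.RSE

open Complex MeasureTheory Filter Topology
open Pool.Agent.RC (cc psi rv f0 IsRC Good gm pr DD)
open scoped ContDiff

theorem par_mod_pr (κ : ℕ) (j : Fin 4) (m : ℕ) : Par κ j (m % 8) ↔ Par κ j m := by
  have h : (((m % 8 : ℕ) : ZMod 4)) = (m : ZMod 4) := by
    rw [ZMod.natCast_eq_natCast_iff]
    exact (Nat.mod_modEq m 8).of_dvd (by norm_num)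
  simp only [Par, h]

theorem rse_prm_cc (j : Fin 4) : cc j = 1 ∨ cc j = 4 ∨ cc j = 8 := by
  fin_cases j <;> simp [cc]

theorem rse_prm_cc_dvd (j : Fin 4) : cc j ∣ 8 := by
  rcases rse_prm_cc j with h | h | h <;> rw [h] <;> norm_num

theorem rse_prm_psi_congr (j : Fin 4) {a b : ℕ} (h : a ≡ b [MOD cc j]) : psi j a = psi j b := by
  fin_cases j
  · rfl
  · have h' : (a : ZMod 4) = (b : ZMod 4) := (ZMod.natCast_eq_natCast_iff a b 4).mpr h
    change ZMod.χ₄ (a : ZMod 4) = ZMod.χ₄ (b : ZMod 4)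
    rw [h']
  · have h' : (a : ZMod 8) = (b : ZMod 8) := (ZMod.natCast_eq_natCast_iff a b 8).mpr h
    change ZMod.χ₈ (a : ZMod 8) = ZMod.χ₈ (b : ZMod 8)
    rw [h']
  · have h' : (a : ZMod 8) = (b : ZMod 8) := (ZMod.natCast_eq_natCast_iff a b 8).mpr h
    change ZMod.χ₈' (a : ZMod 8) = ZMod.χ₈' (b : ZMod 8)
    rw [h']

theorem rse_prm_jac_congr {m a b : ℕ} (h : a ≡ b [MOD m]) :
    jacobiSym (a : ℤ) m = jacobiSym (b : ℤ) m := by
  rw [jacobiSym.mod_left (a : ℤ), jacobiSym.mod_left (b : ℤ)]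
  have : (a : ℤ) % m = (b : ℤ) % m := by exact_mod_cast h
  rw [this]

theorem rse_prm_rv_congr (j : Fin 4) {m a b : ℕ} (h : a ≡ b [MOD cc j * m]) :
    rv j m a = rv j m b := by
  unfold rv
  rw [rse_prm_psi_congr j (h.of_mul_right m), rse_prm_jac_congr (h.of_mul_left (cc j))]

theorem rse_prm_psi_mul (j : Fin 4) (a b : ℕ) : psi j (a * b) = psi j a * psi j b := by
  fin_cases j
  · change (1 : ℤ) = 1 * 1
    norm_num
  · change ZMod.χ₄ ((a * b : ℕ) : ZMod 4) = ZMod.χ₄ (a : ZMod 4) * ZMod.χ₄ (b : ZMod 4)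
    rw [Nat.cast_mul, map_mul]
  · change ZMod.χ₈ ((a * b : ℕ) : ZMod 8) = ZMod.χ₈ (a : ZMod 8) * ZMod.χ₈ (b : ZMod 8)
    rw [Nat.cast_mul, map_mul]
  · change ZMod.χ₈' ((a * b : ℕ) : ZMod 8) = ZMod.χ₈' (a : ZMod 8) * ZMod.χ₈' (b : ZMod 8)
    rw [Nat.cast_mul, map_mul]

theorem rse_prm_rv_mul (j : Fin 4) (m a b : ℕ) : rv j m (a * b) = rv j m a * rv j m b := by
  unfold rv
  rw [rse_prm_psi_mul, Nat.cast_mul, jacobiSym.mul_left]
  ring

theorem rse_prm_rv_one (j : Fin 4) (m : ℕ) : rv j m 1 = 1 := by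
  unfold rv
  fin_cases j <;> simp [psi]

theorem rse_prm_psi_zero (j : Fin 4) {a : ℕ} (h : ¬ a.Coprime (cc j)) : psi j a = 0 := by
  fin_cases j
  · exfalso
    apply h
    change a.Coprime 1
    exact Nat.coprime_one_right a
  · have h' : ¬ a.Coprime 4 := h
    have h2 : ¬ IsUnit (a : ZMod 4) := by rwa [ZMod.isUnit_iff_coprime]
    change ZMod.χ₄ (a : ZMod 4) = 0
    exact MulChar.map_nonunit _ h2
  · have h' : ¬ a.Coprime 8 := h
    have h2 : ¬ IsUnit (a : ZMod 8) := by rwa [ZMod.isUnit_iff_coprime]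
    change ZMod.χ₈ (a : ZMod 8) = 0
    exact MulChar.map_nonunit _ h2
  · have h' : ¬ a.Coprime 8 := h
    have h2 : ¬ IsUnit (a : ZMod 8) := by rwa [ZMod.isUnit_iff_coprime]
    change ZMod.χ₈' (a : ZMod 8) = 0
    exact MulChar.map_nonunit _ h2

theorem rse_prm_rv_zero (j : Fin 4) {m a : ℕ} [NeZero m] (h : ¬ a.Coprime (cc j * m)) :
    rv j m a = 0 := by
  unfold rv
  by_cases h1 : a.Coprime (cc j)
  · have h2 : ¬ a.Coprime m := fun h2 => h (h1.mul_right h2)
    have : jacobiSym (a : ℤ) m = 0 := by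
      rw [jacobiSym.eq_zero_iff_not_coprime, Int.gcd_natCast_natCast]
      exact h2
    rw [this, mul_zero]
  · rw [rse_prm_psi_zero j h1, zero_mul]

/-- The character `n ↦ ψ_j(n) (n/m)`. -/
noncomputable def rse_prm_chi (j : Fin 4) (m : ℕ) [NeZero m] [NeZero (cc j * m)] :
    DirichletCharacter ℂ (cc j * m) where
  toFun a := ((rv j m a.val : ℤ) : ℂ)
  map_one' := by
    have h1 : (1 : ZMod (cc j * m)).val ≡ 1 [MOD cc j * m] := by
      rw [← ZMod.natCast_eq_natCast_iff, ZMod.natCast_zmod_val, Nat.cast_one]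
    rw [rse_prm_rv_congr j h1, rse_prm_rv_one]
    simp
  map_mul' a b := by
    have h1 : (a * b).val ≡ a.val * b.val [MOD cc j * m] := by
      rw [← ZMod.natCast_eq_natCast_iff, ZMod.natCast_zmod_val, Nat.cast_mul,
        ZMod.natCast_zmod_val, ZMod.natCast_zmod_val]
    rw [rse_prm_rv_congr j h1, rse_prm_rv_mul]
    push_cast
    rfl
  map_nonunit' a ha := by
    have h1 : ¬ a.val.Coprime (cc j * m) := by
      intro h2
      apply ha
      rw [← ZMod.natCast_zmod_val a]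
      exact (ZMod.isUnit_iff_coprime _ _).mpr h2
    rw [rse_prm_rv_zero j h1]
    simp

theorem rse_prm_chi_nat (j : Fin 4) (m : ℕ) [NeZero m] [NeZero (cc j * m)] (n : ℕ) :
    rse_prm_chi j m (n : ZMod (cc j * m)) = ((rv j m n : ℤ) : ℂ) := by
  change ((rv j m ((n : ZMod (cc j * m))).val : ℤ) : ℂ) = _
  have h1 : ((n : ZMod (cc j * m))).val ≡ n [MOD cc j * m] := by
    rw [← ZMod.natCast_eq_natCast_iff, ZMod.natCast_zmod_val]
  rw [rse_prm_rv_congr j h1]

/-- A residue class which distinguishes the modulus from its proper divisors. -/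
theorem rse_prm_wit (j : Fin 4) {m : ℕ} (hm : Odd m) (hs : Squarefree m) {p : ℕ}
    (hp : p.Prime) {e : ℕ} (he : cc j * m = p * e) :
    ∃ a : ℕ, a ≡ 1 [MOD e] ∧ rv j m a = -1 := by
  have hm0 : m ≠ 0 := by rintro rfl; exact absurd hm (by decide)
  have hc8 : (cc j).Coprime m := by
    have h8 : Nat.Coprime 8 m := by
      rw [show (8 : ℕ) = 2 ^ 3 by norm_num]
      exact Nat.Coprime.pow_left 3 (Nat.coprime_two_left.mpr hm)
    exact h8.coprime_dvd_left (rse_prm_cc_dvd j)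
  by_cases hpm : p ∣ m
  · -- odd prime
    obtain ⟨r, hr⟩ := hpm
    have : Fact p.Prime := ⟨hp⟩
    have hp2 : p ≠ 2 := by
      rintro rfl
      rw [hr] at hm
      exact absurd hm (by rw [Nat.not_odd_iff_even]; exact even_two_mul _)
    have hpr : p.Coprime r := by
      rw [hr] at hs
      exact (Nat.squarefree_mul_iff.mp hs).1
    have hr0 : r ≠ 0 := by rintro rfl; simp at hr; exact hm0 hr
    have hpc : p.Coprime (cc j) := by
      rw [hr] at hc8
      exact (hc8.coprime_mul_right_right).symm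
    have hee : e = cc j * r := by
      have h1 : p * e = p * (cc j * r) := by rw [← he, hr]; ring
      exact Nat.eq_of_mul_eq_mul_left hp.pos h1
    have hcop : p.Coprime e := by rw [hee]; exact hpc.mul_right hpr
    obtain ⟨x, hx⟩ : ∃ x : ZMod p, ¬ IsSquare x := by
      apply FiniteField.exists_nonsquare
      rw [ZMod.ringChar_zmod_n]
      exact hp2
    obtain ⟨a, ha1, ha2⟩ := Nat.chineseRemainder hcop x.val 1
    refine ⟨a, ha2, ?_⟩
    have hJ1 : jacobiSym (a : ℤ) p = -1 := by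
      rw [← jacobiSym.legendreSym.to_jacobiSym]
      rw [legendreSym.eq_neg_one_iff]
      have : (((a : ℕ) : ℤ) : ZMod p) = x := by
        rw [Int.cast_natCast, (ZMod.natCast_eq_natCast_iff a x.val p).mpr ha1,
          ZMod.natCast_zmod_val]
      rw [this]
      exact hx
    rw [hee] at ha2
    have hJ2 : jacobiSym (a : ℤ) r = 1 := by
      rw [rse_prm_jac_congr (ha2.of_mul_left (cc j))]
      simp
    have hP : psi j a = 1 := by
      rw [rse_prm_psi_congr j (ha2.of_mul_right r)]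
      fin_cases j <;> simp [psi]
    unfold rv
    rw [hP, hr, jacobiSym.mul_right' (a : ℤ) hp.ne_zero hr0, hJ1, hJ2]
    norm_num
  · -- `p = 2`
    have hpc : p ∣ cc j := by
      have h1 : p ∣ cc j * m := ⟨e, he⟩
      rcases (Nat.Prime.dvd_mul hp).mp h1 with h | h
      · exact h
      · exact absurd h hpm
    have hp2 : p = 2 := by
      have h1 : p ∣ 2 ^ 3 := hpc.trans (rse_prm_cc_dvd j)
      exact (Nat.prime_dvd_prime_iff_eq hp Nat.prime_two).mp (hp.dvd_of_dvd_pow h1)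
    subst hp2
    obtain ⟨c', hc'⟩ := hpc
    have hee : e = c' * m := by
      have h1 : 2 * e = 2 * (c' * m) := by rw [← he, hc']; ring
      exact Nat.eq_of_mul_eq_mul_left (by norm_num) h1
    -- a class mod `cc j`
    obtain ⟨x, hx1, hx2⟩ : ∃ x : ℕ, x ≡ 1 [MOD c'] ∧ psi j x = -1 := by
      fin_cases j
      · exfalso
        change 1 = 2 * c' at hc'
        omega
      · have : c' = 2 := by
          change 4 = 2 * c' at hc'
          omega
        subst this
        exact ⟨3, by decide, by decide⟩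
      · have : c' = 4 := by
          change 8 = 2 * c' at hc'
          omega
        subst this
        exact ⟨5, by decide, by decide⟩
      · have : c' = 4 := by
          change 8 = 2 * c' at hc'
          omega
        subst this
        exact ⟨5, by decide, by decide⟩
    obtain ⟨a, ha1, ha2⟩ := Nat.chineseRemainder hc8 x 1
    refine ⟨a, ?_, ?_⟩
    · rw [hee]
      have hcm : c'.Coprime m := by
        rw [hc'] at hc8
        exact hc8.coprime_mul_left
      rw [← Nat.modEq_and_modEq_iff_modEq_mul hcm]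
      refine ⟨?_, ha2⟩
      rw [hc'] at ha1
      exact (ha1.of_mul_left 2).trans hx1
    · unfold rv
      rw [rse_prm_psi_congr j ha1, hx2, rse_prm_jac_congr ha2]
      simp

theorem rse_prm_prim (j : Fin 4) (m : ℕ) [NeZero m] [NeZero (cc j * m)] (hm : Odd m)
    (hs : Squarefree m) : (rse_prm_chi j m).IsPrimitive := by
  rw [DirichletCharacter.isPrimitive_def]
  by_contra hne
  set d := (rse_prm_chi j m).conductor with hd
  have hdm : d ∣ cc j * m := DirichletCharacter.conductor_dvd_level _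
  obtain ⟨t, ht⟩ := hdm
  have ht1 : t ≠ 1 := by
    rintro rfl
    apply hne
    rw [mul_one] at ht
    exact ht.symm
  obtain ⟨p, hp, hpt⟩ := Nat.exists_prime_and_dvd ht1
  obtain ⟨r, hr⟩ := hpt
  have hmp : cc j * m = p * (d * r) := by rw [ht, hr]; ring
  obtain ⟨a, ha1, ha2⟩ := rse_prm_wit j hm hs hp hmp
  have hcopa : a.Coprime (cc j * m) := by
    by_contra hc
    rw [rse_prm_rv_zero j hc] at ha2
    norm_num at ha2
  have hfac := DirichletCharacter.factorsThrough_conductor (rse_prm_chi j m)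
  rw [← hd] at hfac
  rw [DirichletCharacter.factorsThrough_iff_ker_unitsMap ⟨t, ht⟩] at hfac
  have hu : ZMod.unitOfCoprime a hcopa ∈
      (ZMod.unitsMap (⟨t, ht⟩ : d ∣ cc j * m)).ker := by
    rw [MonoidHom.mem_ker]
    ext
    rw [ZMod.unitsMap_val, ZMod.coe_unitOfCoprime, ZMod.cast_natCast ⟨t, ht⟩]
    rw [Units.val_one]
    have h1 : a ≡ 1 [MOD d] := ha1.of_mul_right r
    have h2 := (ZMod.natCast_eq_natCast_iff a 1 d).mpr h1
    rw [h2]
    simp
  have h3 := hfac hu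
  rw [MonoidHom.mem_ker] at h3
  have h4 : rse_prm_chi j m (a : ZMod (cc j * m)) = 1 := by
    have h5 := congrArg (fun u : ℂˣ => (u : ℂ)) h3
    simp only [MulChar.coe_toUnitHom, ZMod.coe_unitOfCoprime, Units.val_one] at h5
    exact h5
  rw [rse_prm_chi_nat, ha2] at h4
  norm_num at h4

theorem rse_prm_neg_one (j : Fin 4) {m : ℕ} (hm : Odd m) {χ : DirichletCharacter ℂ (cc j * m)}
    (h : ∀ n : ℕ, χ n = (rv j m n : ℂ)) :
    χ (-1) = ((psi j 7 * ZMod.χ₄ (m : ZMod 4) : ℤ) : ℂ) := by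
  have hm0 : m ≠ 0 := by rintro rfl; exact absurd hm (by decide)
  have hN : 1 ≤ cc j * m := by
    have : 1 ≤ cc j := by rcases rse_prm_cc j with h | h | h <;> rw [h] <;> norm_num
    exact Nat.one_le_iff_ne_zero.mpr (Nat.mul_ne_zero (by omega) hm0)
  have h1 : (((cc j * m - 1 : ℕ)) : ZMod (cc j * m)) = -1 := by
    rw [Nat.cast_sub hN, ZMod.natCast_self]
    simp
  rw [← h1, h]
  have h2 : psi j (cc j * m - 1) = psi j 7 := by
    apply rse_prm_psi_congr
    rw [← ZMod.natCast_eq_natCast_iff, Nat.cast_sub hN]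
    have h3 : ((8 : ℕ) : ZMod (cc j)) = 0 := by
      rw [ZMod.natCast_eq_zero_iff]
      exact rse_prm_cc_dvd j
    have h4 : ((7 : ℕ) : ZMod (cc j)) = ((8 : ℕ) : ZMod (cc j)) - 1 := by
      push_cast
      norm_num
    rw [h4, h3]
    simp
  have h5 : jacobiSym ((cc j * m - 1 : ℕ) : ℤ) m = ZMod.χ₄ (m : ZMod 4) := by
    rw [← jacobiSym.at_neg_one hm]
    rw [jacobiSym.mod_left ((cc j * m - 1 : ℕ) : ℤ), jacobiSym.mod_left (-1)]
    congr 1
    rw [Nat.cast_sub hN]
    push_cast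
    rw [show (cc j : ℤ) * m - 1 = -1 + m * cc j by ring, Int.add_mul_emod_self_left]
  unfold rv
  rw [h2, h5]

theorem exists_isRC_pr {κ : ℕ} {j : Fin 4} {m : ℕ} (h : Par κ j m) (hm : Odd m)
    (hs : Squarefree m) : ∃ χ : DirichletCharacter ℂ (cc j * m), IsRC κ j m χ := by
  have hm0 : m ≠ 0 := by rintro rfl; exact absurd hm (by decide)
  have hc0 : cc j ≠ 0 := by rcases rse_prm_cc j with h | h | h <;> rw [h] <;> norm_num
  have : NeZero m := ⟨hm0⟩
  have : NeZero (cc j * m) := ⟨Nat.mul_ne_zero hc0 hm0⟩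
  refine ⟨rse_prm_chi j m, rse_prm_prim j m hm hs, rse_prm_chi_nat j m, ?_⟩
  have h1 := rse_prm_neg_one j hm (rse_prm_chi_nat j m)
  obtain ⟨hκ, hp⟩ := h
  rw [hp] at h1
  rcases Nat.le_one_iff_eq_zero_or_eq_one.mp hκ with hk | hk
  · left
    refine ⟨hk, ?_⟩
    rw [hk] at h1
    change rse_prm_chi j m (-1) = 1
    simpa using h1
  · right
    refine ⟨hk, ?_⟩
    rw [hk] at h1
    change rse_prm_chi j m (-1) = -1
    simpa using h1

theorem par_of_isRC_pr {κ : ℕ} {j : Fin 4} {m : ℕ} (hm : Odd m)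
    {χ : DirichletCharacter ℂ (cc j * m)} (h : IsRC κ j m χ) : Par κ j m := by
  obtain ⟨-, h2, h3⟩ := h
  have h1 := rse_prm_neg_one j hm h2
  rcases h3 with ⟨hk, he⟩ | ⟨hk, ho⟩
  · refine ⟨by omega, ?_⟩
    have he' : χ (-1) = 1 := he
    rw [he'] at h1
    rw [hk, pow_zero]
    exact_mod_cast h1.symm
  · refine ⟨by omega, ?_⟩
    have ho' : χ (-1) = -1 := ho
    rw [ho'] at h1
    rw [hk, pow_one]
    exact_mod_cast h1.symm

end Pool.Agent.RSE

namespace Pool.Agent.RSE

alias par_mod := par_mod_pr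

alias exists_isRC := exists_isRC_pr

alias par_of_isRC := par_of_isRC_pr

end Pool.Agent.RSE
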