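import Pool.Agent.Lib_helper39.RSE.Defs
import Pool.Agent.Lib_helper39.RSA.DefsB
import Pool.Agent.Lib_helper24.ABS.Endgame
import Pool.Agent.Lib_helper39.RSA.DFO
import Pool.Agent.Lib_helper39.RSA.DOD
import Pool.Agent.Lib_helper39.RSA.FEF
import Pool.Agent.Lib_helper39.RSA.KG2
import Pool.Agent.Lib_helper39.RSA.PRM
/-!
# RSE, block M4A
-/

namespace Pool.Agent.RSE

open Complex MeasureTheory Filter Topology
open Pool.Agent.RC (cc psi rv f0 IsRC Good gm pr DD)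
open scoped ContDiff

theorem rse_m4a_rv_abs (j : Fin 4) (m n : ℕ) : |(rv j m n : ℝ)| ≤ 1 := by
  have h1 : |psi j n| ≤ 1 := by
    fin_cases j
    · change |(1 : ℤ)| ≤ 1
      norm_num
    · change |ZMod.χ₄ (n : ZMod 4)| ≤ 1
      generalize (n : ZMod 4) = x
      revert x; decide
    · change |ZMod.χ₈ (n : ZMod 8)| ≤ 1
      generalize (n : ZMod 8) = x
      revert x; decide
    · change |ZMod.χ₈' (n : ZMod 8)| ≤ 1
      generalize (n : ZMod 8) = x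
      revert x; decide
  have h2 : |jacobiSym n m| ≤ 1 := by
    rcases jacobiSym.trichotomy n m with h | h | h <;> rw [h] <;> norm_num
  have h3 : |rv j m n| ≤ 1 := by
    unfold rv
    rw [abs_mul]
    calc |psi j n| * |jacobiSym n m| ≤ 1 * 1 := mul_le_mul h1 h2 (abs_nonneg _) (by norm_num)
      _ = 1 := by norm_num
  exact_mod_cast h3

/-- M4A (cites PRM, FEF, DOD, DFO). -/
theorem m4a_bound_pr {κ : ℕ} {j : Fin 4} {m1 m2 : ℕ} (hp : Par κ j m1) (h1 : Odd m1)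
    (hs : Squarefree m1) (h3 : 3 ≤ m1) (h2 : Odd m2) (i : ℕ) (Θ : ℝ → ℝ) (L u : ℝ) :
    fo (gk κ i) Θ L 1 j (m1 * m2 ^ 2) u ^ 2 ≤ 4 * ((sd (2 * m2)).card : ℝ) *
      ∑ d ∈ sd (2 * m2), 1 / (d : ℝ) * ∑' a : ℕ, (2 : ℝ) ^ (-(a : ℝ) / 2) *
        fo (gk κ i) Θ L m2 j m1
          (-Real.log ((cc j * m1 : ℕ) : ℝ) - u - Real.log d + a * Real.log 2) ^ 2 := by
  have hg : Kern (gk κ i) := kern_gk hp.1 i
  obtain ⟨χ, hχ⟩ := exists_isRC hp h1 hs
  rw [fo_dec hg Θ L j h1 h2 u]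
  refine (sq_sum_le_card_mul_sum_sq (s := sd (2 * m2))).trans ?_
  rw [mul_comm (4 : ℝ), mul_assoc]
  refine mul_le_mul_of_nonneg_left ?_ (by positivity : (0 : ℝ) ≤ ((sd (2 * m2)).card : ℝ))
  rw [Finset.mul_sum]
  refine Finset.sum_le_sum fun d hd => ?_
  have hd0 : 0 < d := by
    have hd' := (Finset.mem_filter.mp hd).1
    exact Nat.pos_of_mem_divisors hd'
  have hdR : (0 : ℝ) < d := Nat.cast_pos.mpr hd0
  have e1 := fef_eq (by omega : 2 ≤ m1) hχ i Θ L m2 (u + Real.log d)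
  have e2 : ff (gk κ i) Θ L m2 j m1 (u + Real.log d) ^ 2 =
      ff (gk κ i) Θ L m2 j m1
        (-Real.log ((cc j * m1 : ℕ) : ℝ) - (u + Real.log d)) ^ 2 := by
    rw [← sq_abs, ← e1, sq_abs]
  have e3 := (ff_le (Θ := Θ) hg L m2 j m1
    (-Real.log ((cc j * m1 : ℕ) : ℝ) - (u + Real.log d))).2
  rw [← e2] at e3
  have e4 : (((ArithmeticFunction.moebius d : ℤ) : ℝ) * (rv j m1 d : ℝ) / √(d : ℝ)) ^ 2 ≤
      1 / (d : ℝ) := by
    rw [div_pow, Real.sq_sqrt hdR.le]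
    refine div_le_div_of_nonneg_right ?_ hdR.le
    rw [mul_pow]
    have a1 : (((ArithmeticFunction.moebius d : ℤ) : ℝ)) ^ 2 ≤ 1 := by
      have : |ArithmeticFunction.moebius d| ≤ 1 := ArithmeticFunction.abs_moebius_le_one
      have h' : |((ArithmeticFunction.moebius d : ℤ) : ℝ)| ≤ 1 := by exact_mod_cast this
      rw [← sq_abs]
      exact pow_le_one₀ (abs_nonneg _) h'
    have a2 : ((rv j m1 d : ℝ)) ^ 2 ≤ 1 := by
      rw [← sq_abs]
      exact pow_le_one₀ (abs_nonneg _) (rse_m4a_rv_abs j m1 d)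
    calc (((ArithmeticFunction.moebius d : ℤ) : ℝ)) ^ 2 * ((rv j m1 d : ℝ)) ^ 2 ≤ 1 * 1 :=
          mul_le_mul a1 a2 (sq_nonneg _) (by norm_num)
      _ = 1 := by norm_num
  rw [mul_pow]
  have e5 : -Real.log ((cc j * m1 : ℕ) : ℝ) - (u + Real.log d) =
      -Real.log ((cc j * m1 : ℕ) : ℝ) - u - Real.log d := by ring
  rw [e5] at e3
  calc (((ArithmeticFunction.moebius d : ℤ) : ℝ) * (rv j m1 d : ℝ) / √(d : ℝ)) ^ 2 *
        ff (gk κ i) Θ L m2 j m1 (u + Real.log d) ^ 2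
      ≤ 1 / (d : ℝ) * ff (gk κ i) Θ L m2 j m1 (u + Real.log d) ^ 2 :=
        mul_le_mul_of_nonneg_right e4 (sq_nonneg _)
    _ ≤ 1 / (d : ℝ) * (4 * ∑' a : ℕ, (2 : ℝ) ^ (-(a : ℝ) / 2) *
        fo (gk κ i) Θ L m2 j m1
          (-Real.log ((cc j * m1 : ℕ) : ℝ) - u - Real.log d + a * Real.log 2) ^ 2) :=
        mul_le_mul_of_nonneg_left e3 (by positivity)
    _ = _ := by ring

end Pool.Agent.RSE

namespace Pool.Agent.RSE

alias m4a_bound := m4a_bound_pr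

end Pool.Agent.RSE
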