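import Pool.Agent.Lib_helper39.RSE.Defs
import Pool.Agent.Lib_helper39.RSA.DefsB
import Pool.Agent.Lib_helper39.RSA.SMO1
import Pool.Agent.Lib_helper92.SQA.ALPHA
/-!
# Block SMO2: smoothness of the mollified densities, crude bounds
-/

namespace Pool.Agent.RSE

open Complex MeasureTheory Filter Topology
open Pool.Agent.RC (cc psi rv f0 IsRC Good gm pr DD)
open scoped ContDiff

theorem fo_deriv_pr {g : ℝ → ℝ} (hg : Kern g) (Θ : ℝ → ℝ) (L : ℝ) (R : ℕ) (j : Fin 4) (m : ℕ)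
    (u : ℝ) : HasDerivAt (fo g Θ L R j m) (fo (deriv g) Θ L R j m u) u := by
  have e : fo g Θ L R j m = fun u => ∑ k ∈ KL L, ∑ l ∈ KL L,
      be Θ L R k * be Θ L R l * (rv j m (k * l) : ℝ) / √((k : ℝ) * l) *
        DO g j m (u + Real.log k - Real.log l) := rfl
  rw [e]
  unfold fo
  refine HasDerivAt.fun_sum fun k _ => HasDerivAt.fun_sum fun l _ => ?_
  refine HasDerivAt.const_mul _ ?_
  have h2 : HasDerivAt (fun x : ℝ => x + Real.log k - Real.log l) 1 u :=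
    ((hasDerivAt_id u).add_const (Real.log k)).sub_const (Real.log l)
  have h3 := (do_deriv_pr hg j m (u + Real.log k - Real.log l)).comp u h2
  rw [mul_one] at h3
  exact h3

theorem ff_deriv_pr {g : ℝ → ℝ} (hg : Kern g) (Θ : ℝ → ℝ) (L : ℝ) (R : ℕ) (j : Fin 4) (m : ℕ)
    (u : ℝ) : HasDerivAt (ff g Θ L R j m) (ff (deriv g) Θ L R j m u) u := by
  have e : ff g Θ L R j m = fun u => ∑ k ∈ KL L, ∑ l ∈ KL L,
      be Θ L R k * be Θ L R l * (rv j m (k * l) : ℝ) / √((k : ℝ) * l) *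
        DF g j m (u + Real.log k - Real.log l) := rfl
  rw [e]
  unfold ff
  refine HasDerivAt.fun_sum fun k _ => HasDerivAt.fun_sum fun l _ => ?_
  refine HasDerivAt.const_mul _ ?_
  have h2 : HasDerivAt (fun x : ℝ => x + Real.log k - Real.log l) 1 u :=
    ((hasDerivAt_id u).add_const (Real.log k)).sub_const (Real.log l)
  have h3 := (df_deriv_pr hg j m (u + Real.log k - Real.log l)).comp u h2
  rw [mul_one] at h3
  exact h3

/-- Crude bound for the sums. -/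
theorem rse_smo2_tsum {g : ℝ → ℝ} {C : ℝ} (hC : ∀ z : ℝ, |g z| ≤ C * Real.exp (-1 * z))
    (w : ℕ → ℝ) (hw : ∀ n : ℕ, |w n| ≤ 1 / √(n : ℝ)) (hw0 : w 0 = 0) (u : ℝ) :
    |∑' n : ℕ, w n * g (Real.log n + u)| ≤
      |C| * (∑' n : ℕ, 1 / (n : ℝ) ^ (3 / 2 : ℝ)) * Real.exp (-u) := by
  have hs : Summable (fun n : ℕ => 1 / (n : ℝ) ^ (3 / 2 : ℝ)) :=
    Real.summable_one_div_nat_rpow.mpr (by norm_num)
  have ht : ∀ n : ℕ, ‖w n * g (Real.log n + u)‖ ≤
      |C| * Real.exp (-u) * (1 / (n : ℝ) ^ (3 / 2 : ℝ)) := by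
    intro n
    rcases Nat.eq_zero_or_pos n with rfl | hn
    · rw [hw0, zero_mul, norm_zero]
      positivity
    · have hn' : (0 : ℝ) < n := Nat.cast_pos.mpr hn
      rw [norm_mul, Real.norm_eq_abs, Real.norm_eq_abs]
      have h1 : |g (Real.log n + u)| ≤ |C| * (Real.exp (-u) * (1 / (n : ℝ))) := by
        calc |g (Real.log n + u)| ≤ C * Real.exp (-1 * (Real.log n + u)) := hC _
          _ ≤ |C| * Real.exp (-1 * (Real.log n + u)) :=
              mul_le_mul_of_nonneg_right (le_abs_self C) (Real.exp_pos _).le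
          _ = |C| * (Real.exp (-u) * (1 / (n : ℝ))) := by
              rw [show -1 * (Real.log n + u) = -u + -Real.log n by ring, Real.exp_add,
                Real.exp_neg (Real.log n), Real.exp_log hn', one_div]
      have h2 : 1 / (n : ℝ) ^ (3 / 2 : ℝ) = 1 / √(n : ℝ) * (1 / (n : ℝ)) := by
        rw [Real.sqrt_eq_rpow, show (3 / 2 : ℝ) = 1 / 2 + 1 by norm_num, Real.rpow_add hn',
          Real.rpow_one]
        field_simp
      calc |w n| * |g (Real.log n + u)|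
          ≤ 1 / √(n : ℝ) * (|C| * (Real.exp (-u) * (1 / (n : ℝ)))) :=
            mul_le_mul (hw n) h1 (abs_nonneg _) (by positivity)
        _ = _ := by rw [h2]; ring
  have h3 := tsum_of_norm_bounded (hs.mul_left (|C| * Real.exp (-u))).hasSum ht
  rw [Real.norm_eq_abs] at h3
  calc _ ≤ _ := h3
    _ = _ := by rw [tsum_mul_left]; ring

theorem rse_smo2_wo_le (j : Fin 4) (m n : ℕ) : |rse_smo1_wo j m n| ≤ 1 / √(n : ℝ) := by
  unfold rse_smo1_wo
  split_ifs with h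
  · rw [abs_div, abs_of_nonneg (Real.sqrt_nonneg _)]
    exact div_le_div_of_nonneg_right (rse_smo1_rv_le j m n) (Real.sqrt_nonneg _)
  · rw [abs_zero]; positivity

theorem rse_smo2_wf_le (j : Fin 4) (m n : ℕ) : |rse_smo1_wf j m n| ≤ 1 / √(n : ℝ) := by
  unfold rse_smo1_wf
  split_ifs with h
  · rw [abs_div, abs_of_nonneg (Real.sqrt_nonneg _)]
    exact div_le_div_of_nonneg_right (rse_smo1_rv_le j m n) (Real.sqrt_nonneg _)
  · rw [abs_zero]; positivity

theorem rse_smo2_be_le {Θ : ℝ → ℝ} (hΘ : Cut Θ) {L : ℝ} (hL : 1 ≤ L) (R k : ℕ) (hk : 1 ≤ k) :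
    |be Θ L R k| ≤ 1 := by
  unfold be
  split_ifs with h
  · rw [abs_mul]
    have h1 : |Pool.Agent.SQ.al k| ≤ 1 := Pool.Agent.SQ.al_abs k
    have h2 : |Θ (Real.log k / L)| ≤ 1 := by
      apply hΘ.bd
      apply div_nonneg (Real.log_nonneg (by exact_mod_cast hk)) (by linarith)
    calc _ ≤ (1 : ℝ) * 1 := mul_le_mul h1 h2 (abs_nonneg _) zero_le_one
      _ = 1 := one_mul 1
  · simp

theorem rse_smo2_KL_card {L : ℝ} : ((KL L).card : ℝ) ≤ Real.exp L := by
  unfold KL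
  rw [Nat.card_Icc, Nat.add_sub_cancel]
  exact Nat.floor_le (Real.exp_pos L).le

theorem rse_smo2_KL_le {L : ℝ} {k : ℕ} (hk : k ∈ KL L) : 1 ≤ k ∧ (k : ℝ) ≤ Real.exp L := by
  unfold KL at hk
  rw [Finset.mem_Icc] at hk
  refine ⟨hk.1, ?_⟩
  calc (k : ℝ) ≤ (⌊Real.exp L⌋₊ : ℝ) := by exact_mod_cast hk.2
    _ ≤ Real.exp L := Nat.floor_le (Real.exp_pos L).le

/-- Bound for the finite double sum. -/
theorem rse_smo2_sum {Θ : ℝ → ℝ} (hΘ : Cut Θ) {L : ℝ} (hL : 1 ≤ L) (R : ℕ) (j : Fin 4) (m : ℕ)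
    (u : ℝ) {B : ℝ} (hB : 0 ≤ B) (D : ℝ → ℝ) (hD : ∀ u, |D u| ≤ B * Real.exp (-u)) :
    |∑ k ∈ KL L, ∑ l ∈ KL L, be Θ L R k * be Θ L R l * (rv j m (k * l) : ℝ) / √((k : ℝ) * l) *
      D (u + Real.log k - Real.log l)| ≤ B * Real.exp (4 * L - u) := by
  have ht : ∀ k ∈ KL L, ∀ l ∈ KL L,
      |be Θ L R k * be Θ L R l * (rv j m (k * l) : ℝ) / √((k : ℝ) * l) *
        D (u + Real.log k - Real.log l)| ≤ B * Real.exp (L - u) := by
    intro k hk l hl
    obtain ⟨hk1, hk2⟩ := rse_smo2_KL_le hk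
    obtain ⟨hl1, hl2⟩ := rse_smo2_KL_le hl
    have hk' : (1 : ℝ) ≤ k := by exact_mod_cast hk1
    have hl' : (1 : ℝ) ≤ l := by exact_mod_cast hl1
    have hk0 : (0 : ℝ) < k := by linarith
    have hl0 : (0 : ℝ) < l := by linarith
    rw [abs_mul, abs_div, abs_mul, abs_mul, abs_of_nonneg (Real.sqrt_nonneg _)]
    have h1 : |be Θ L R k| * |be Θ L R l| * |((rv j m (k * l) : ℤ) : ℝ)| ≤ 1 := by
      have a1 := rse_smo2_be_le hΘ hL R k hk1
      have a2 := rse_smo2_be_le hΘ hL R l hl1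
      have a3 := rse_smo1_rv_le j m (k * l)
      calc _ ≤ (1 : ℝ) * 1 * 1 := by
            apply mul_le_mul _ a3 (abs_nonneg _) (by norm_num)
            exact mul_le_mul a1 a2 (abs_nonneg _) (by norm_num)
        _ = 1 := by norm_num
    have h2 : |be Θ L R k| * |be Θ L R l| * |((rv j m (k * l) : ℤ) : ℝ)| / √((k : ℝ) * l) ≤ 1 := by
      have h3 : 1 ≤ √((k : ℝ) * l) := by
        rw [Real.one_le_sqrt]
        nlinarith
      rw [div_le_one (by linarith)]
      linarith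
    have h4 : |D (u + Real.log k - Real.log l)| ≤ B * Real.exp (L - u) := by
      refine le_trans (hD _) ?_
      apply mul_le_mul_of_nonneg_left _ hB
      apply Real.exp_le_exp.mpr
      have h5 : 0 ≤ Real.log k := Real.log_nonneg hk'
      have h6 : Real.log l ≤ L := by
        rw [← Real.log_exp L]
        exact Real.log_le_log hl0 hl2
      linarith
    have h7 : 0 ≤ B * Real.exp (L - u) := by positivity
    calc _ ≤ 1 * (B * Real.exp (L - u)) := mul_le_mul h2 h4 (abs_nonneg _) (by norm_num)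
      _ = _ := one_mul _
  have hc := rse_smo2_KL_card (L := L)
  have h7 : 0 ≤ B * Real.exp (L - u) := by positivity
  have hE : 0 < Real.exp L := Real.exp_pos L
  calc _ ≤ ∑ k ∈ KL L, |∑ l ∈ KL L, be Θ L R k * be Θ L R l * (rv j m (k * l) : ℝ) /
        √((k : ℝ) * l) * D (u + Real.log k - Real.log l)| := Finset.abs_sum_le_sum_abs _ _
    _ ≤ ∑ k ∈ KL L, Real.exp L * (B * Real.exp (L - u)) := by
        apply Finset.sum_le_sum
        intro k hk
        calc _ ≤ ∑ l ∈ KL L, |be Θ L R k * be Θ L R l * (rv j m (k * l) : ℝ) /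
              √((k : ℝ) * l) * D (u + Real.log k - Real.log l)| := Finset.abs_sum_le_sum_abs _ _
          _ ≤ ∑ l ∈ KL L, B * Real.exp (L - u) := Finset.sum_le_sum (fun l hl => ht k hk l hl)
          _ = (KL L).card * (B * Real.exp (L - u)) := by rw [Finset.sum_const, nsmul_eq_mul]
          _ ≤ _ := mul_le_mul_of_nonneg_right hc h7
    _ = (KL L).card * (Real.exp L * (B * Real.exp (L - u))) := by
        rw [Finset.sum_const, nsmul_eq_mul]
    _ ≤ Real.exp L * (Real.exp L * (B * Real.exp (L - u))) :=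
        mul_le_mul_of_nonneg_right hc (by positivity)
    _ = B * Real.exp (L + L + (L - u)) := by rw [Real.exp_add, Real.exp_add]; ring
    _ ≤ B * Real.exp (4 * L - u) := by
        apply mul_le_mul_of_nonneg_left _ hB
        apply Real.exp_le_exp.mpr
        linarith

/-- Crude bounds for positive `u`. -/
theorem fo_pos_pr {g : ℝ → ℝ} (hg : Kern g) {Θ : ℝ → ℝ} (hΘ : Cut Θ) : ∃ C : ℝ, 0 < C ∧
    ∀ (L : ℝ) (R : ℕ) (j : Fin 4) (m : ℕ) (u : ℝ), 1 ≤ L →
    |fo g Θ L R j m u| ≤ C * Real.exp (4 * L - u) ∧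
    |ff g Θ L R j m u| ≤ C * Real.exp (4 * L - u) := by
  obtain ⟨C, hC⟩ := rse_smo1_fast0 hg 1 (by norm_num)
  have hZ : 0 ≤ ∑' n : ℕ, 1 / (n : ℝ) ^ (3 / 2 : ℝ) := tsum_nonneg fun n => by positivity
  refine ⟨|C| * (∑' n : ℕ, 1 / (n : ℝ) ^ (3 / 2 : ℝ)) + 1, by positivity, ?_⟩
  intro L R j m u hL
  have hB : 0 ≤ |C| * (∑' n : ℕ, 1 / (n : ℝ) ^ (3 / 2 : ℝ)) + 1 := by positivity
  have key : ∀ w : ℕ → ℝ, (∀ n : ℕ, |w n| ≤ 1 / √(n : ℝ)) → w 0 = 0 → ∀ u : ℝ,
      |∑' n : ℕ, w n * g (1 * Real.log n + u)| ≤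
        (|C| * (∑' n : ℕ, 1 / (n : ℝ) ^ (3 / 2 : ℝ)) + 1) * Real.exp (-u) := by
    intro w hw hw0 u
    have h1 := rse_smo2_tsum hC w hw hw0 u
    simp only [one_mul]
    have h2 := Real.exp_pos (-u)
    nlinarith
  constructor
  · unfold fo
    apply rse_smo2_sum hΘ hL R j m u hB
    intro v
    rw [rse_smo1_do_eq g]
    exact key _ (rse_smo2_wo_le j m) (rse_smo1_wo_zero j m) v
  · unfold ff
    apply rse_smo2_sum hΘ hL R j m u hB
    intro v
    rw [rse_smo1_df_eq g]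
    exact key _ (rse_smo2_wf_le j m) (rse_smo1_wf_zero j m) v

end Pool.Agent.RSE

namespace Pool.Agent.RSE

alias fo_deriv := fo_deriv_pr

alias ff_deriv := ff_deriv_pr

alias fo_pos := fo_pos_pr

end Pool.Agent.RSE
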