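import Pool.Agent.Lib_helper39.RSE.Defs
import Pool.Agent.Lib_helper39.RSA.DefsB
import Mathlib
/-!
# SOB: local Sobolev inequality
-/

namespace Pool.Agent.RSE

open MeasureTheory

theorem sob_le_pr {f f' : ℝ → ℝ} (h : ∀ x, HasDerivAt f (f' x) x) (hc : Continuous f')
    (a l x : ℝ) (hl : 0 < l) (h1 : a ≤ x) (h2 : x ≤ a + l) :
    f x ^ 2 ≤ (1 / l + 1) * ∫ y in a..(a + l), (f y ^ 2 + f' y ^ 2) := by
  have hf : Continuous f := by
    rw [continuous_iff_continuousAt]
    exact fun x => (h x).continuousAt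
  have hal : a ≤ a + l := by linarith
  have hint : ∀ p q : ℝ, IntervalIntegrable (fun y => f y ^ 2 + f' y ^ 2) volume p q := fun p q =>
    (by fun_prop : Continuous (fun y => f y ^ 2 + f' y ^ 2)).intervalIntegrable p q
  have hint2 : ∀ p q : ℝ, IntervalIntegrable (fun y => ‖2 * f y * f' y‖) volume p q :=
    fun p q => (by fun_prop : Continuous (fun y => ‖2 * f y * f' y‖)).intervalIntegrable p q
  -- comparison with the value at `y`
  have key : ∀ y ∈ Set.Icc a (a + l), f x ^ 2 ≤ f y ^ 2 + ∫ z in a..(a + l),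
      (f z ^ 2 + f' z ^ 2) := by
    intro y hy
    have e : ∫ z in y..x, 2 * f z * f' z = f x ^ 2 - f y ^ 2 := by
      have hd : ∀ z ∈ Set.uIcc y x, HasDerivAt (fun z => f z ^ 2) (2 * f z * f' z) z := by
        intro z _
        have := (h z).fun_pow 2
        simpa using this
      rw [intervalIntegral.integral_eq_sub_of_hasDerivAt hd
        ((by fun_prop : Continuous (fun z => 2 * f z * f' z)).intervalIntegrable _ _)]
    have e2 : ‖∫ z in y..x, 2 * f z * f' z‖ ≤ |∫ z in y..x, ‖2 * f z * f' z‖| :=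
      intervalIntegral.norm_integral_le_abs_integral_norm
    have e3 : |∫ z in y..x, ‖2 * f z * f' z‖| ≤ |∫ z in a..(a + l), ‖2 * f z * f' z‖| := by
      apply intervalIntegral.abs_integral_mono_interval
      · rw [Set.uIoc_of_le hal]
        rcases le_total y x with hyx | hyx
        · rw [Set.uIoc_of_le hyx]
          exact Set.Ioc_subset_Ioc hy.1 h2
        · rw [Set.uIoc_of_ge hyx]
          exact Set.Ioc_subset_Ioc h1 hy.2
      · exact Filter.Eventually.of_forall fun z => norm_nonneg _
      · exact hint2 _ _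
    have e4 : |∫ z in a..(a + l), ‖2 * f z * f' z‖| ≤ ∫ z in a..(a + l), (f z ^ 2 + f' z ^ 2) := by
      rw [abs_of_nonneg (intervalIntegral.integral_nonneg hal fun z _ => norm_nonneg _)]
      apply intervalIntegral.integral_mono_on hal (hint2 _ _) (hint _ _)
      intro z _
      rw [Real.norm_eq_abs, abs_le]
      constructor <;> nlinarith [sq_nonneg (f z + f' z), sq_nonneg (f z - f' z)]
    have e5 := le_trans (le_trans e2 e3) e4
    rw [e, Real.norm_eq_abs] at e5
    have := le_abs_self (f x ^ 2 - f y ^ 2)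
    linarith
  -- average
  have hI : ∫ y in a..(a + l), f x ^ 2 ≤ ∫ y in a..(a + l), (f y ^ 2 + ∫ z in a..(a + l),
      (f z ^ 2 + f' z ^ 2)) := by
    apply intervalIntegral.integral_mono_on hal
    · exact intervalIntegrable_const
    · exact (by fun_prop : Continuous (fun y => f y ^ 2 + ∫ z in a..(a + l),
        (f z ^ 2 + f' z ^ 2))).intervalIntegrable _ _
    · exact key
  rw [intervalIntegral.integral_const, intervalIntegral.integral_add
    ((by fun_prop : Continuous (fun y => f y ^ 2)).intervalIntegrable _ _)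
    intervalIntegrable_const, intervalIntegral.integral_const] at hI
  have h3 : ∫ y in a..(a + l), f y ^ 2 ≤ ∫ y in a..(a + l), (f y ^ 2 + f' y ^ 2) := by
    apply intervalIntegral.integral_mono_on hal
      ((by fun_prop : Continuous (fun y => f y ^ 2)).intervalIntegrable _ _) (hint _ _)
    intro z _
    nlinarith [sq_nonneg (f' z)]
  simp only [add_sub_cancel_left, smul_eq_mul] at hI
  have h4 : l * f x ^ 2 ≤ (1 + l) * ∫ y in a..(a + l), (f y ^ 2 + f' y ^ 2) := by linarith
  have h5 : (1 / l + 1) * (∫ y in a..(a + l), (f y ^ 2 + f' y ^ 2)) =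
      ((1 + l) * ∫ y in a..(a + l), (f y ^ 2 + f' y ^ 2)) / l := by
    field_simp
  rw [h5, le_div_iff₀ hl]
  linarith

end Pool.Agent.RSE

namespace Pool.Agent.RSE

alias sob_le := sob_le_pr

end Pool.Agent.RSE
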