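import Pool.Agent.Lib_helper39.RSE.Defs
import Pool.Agent.Lib_helper39.RSA.DefsB
import Pool.Agent.Lib_helper24.ABS.Endgame
import Pool.Agent.Lib_helper39.RSA.DFO
import Pool.Agent.Lib_helper39.RSA.KG2
import Pool.Agent.Lib_helper39.RSA.M3
import Pool.Agent.Lib_helper39.RSA.M4A
import Pool.Agent.Lib_helper39.RSA.PRM
import Pool.Agent.Lib_helper39.RSA.RB
import Pool.Agent.Lib_helper39.RSA.SMO2
import Pool.Agent.Lib_helper39.RSA.SOB
/-!
# RSE, block M4C1
-/

namespace Pool.Agent.RSE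

open Complex MeasureTheory Filter Topology
open Pool.Agent.RC (cc psi rv f0 IsRC Good gm pr DD)
open scoped ContDiff

/-- Sobolev over the block. -/
theorem rse_m4c1_sob {g Θ : ℝ → ℝ} (hg : Kern g) (hg' : Kern (deriv g)) (L : ℝ) (R : ℕ)
    (j : Fin 4) (c : ℕ) {K1 : ℝ} (hK1 : 1 ≤ K1) (v0 T : ℝ)
    (h : ∀ w, v0 - Real.log 2 ≤ w → w ≤ v0 →
      ∑ m ∈ blk8 c K1, (fo g Θ L R j m w ^ 2 + fo (deriv g) Θ L R j m w ^ 2) ≤ T)
    (F : Finset ℕ) (hF : F ⊆ blk8 c K1) :
    ∑ m ∈ F, fo g Θ L R j m (v0 - Real.log (m / K1)) ^ 2 ≤ 2 * T := by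
  have hl : 0 < Real.log 2 := Real.log_pos (by norm_num)
  have hl1 : Real.log 2 ≤ 1 := by have := Real.log_two_lt_d9; linarith
  have hT : 0 ≤ T :=
    le_trans (Finset.sum_nonneg fun m _ => by positivity) (h v0 (by linarith) le_rfl)
  have hder : ∀ (m : ℕ) x, HasDerivAt (fo g Θ L R j m) (fo (deriv g) Θ L R j m x) x :=
    fun m x => fo_deriv hg Θ L R j m x
  have hc : ∀ m : ℕ, Continuous (fo (deriv g) Θ L R j m) := fun m =>
    continuous_iff_continuousAt.2 fun x => (fo_deriv hg' Θ L R j m x).continuousAt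
  have hc0 : ∀ m : ℕ, Continuous (fo g Θ L R j m) := fun m =>
    continuous_iff_continuousAt.2 fun x => (hder m x).continuousAt
  have hint : ∀ m ∈ blk8 c K1, IntervalIntegrable
      (fun y => fo g Θ L R j m y ^ 2 + fo (deriv g) Θ L R j m y ^ 2) volume
      (v0 - Real.log 2) v0 := fun m _ =>
    (((hc0 m).pow 2).add ((hc m).pow 2)).intervalIntegrable _ _
  calc ∑ m ∈ F, fo g Θ L R j m (v0 - Real.log (m / K1)) ^ 2
      ≤ ∑ m ∈ F, (1 / Real.log 2 + 1) * ∫ y in (v0 - Real.log 2)..v0,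
          (fo g Θ L R j m y ^ 2 + fo (deriv g) Θ L R j m y ^ 2) := by
        refine Finset.sum_le_sum fun m hm => ?_
        have hm' := hF hm
        simp only [blk8, Finset.mem_filter] at hm'
        have m1 : (1 : ℝ) ≤ m / K1 := (one_le_div (by linarith)).2 hm'.2.1
        have m2 : (m : ℝ) / K1 ≤ 2 := (div_le_iff₀ (by linarith)).2 hm'.2.2.1.le
        have l1 : 0 ≤ Real.log (m / K1) := Real.log_nonneg m1
        have l2 : Real.log (m / K1) ≤ Real.log 2 := Real.log_le_log (by linarith) m2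
        have := sob_le (hder m) (hc m) (v0 - Real.log 2) (Real.log 2)
          (v0 - Real.log (m / K1)) hl (by linarith) (by linarith)
        rwa [sub_add_cancel] at this
    _ ≤ ∑ m ∈ blk8 c K1, (1 / Real.log 2 + 1) * ∫ y in (v0 - Real.log 2)..v0,
          (fo g Θ L R j m y ^ 2 + fo (deriv g) Θ L R j m y ^ 2) := by
        refine Finset.sum_le_sum_of_subset_of_nonneg hF fun m _ _ => ?_
        have : 0 ≤ ∫ y in (v0 - Real.log 2)..v0,
          (fo g Θ L R j m y ^ 2 + fo (deriv g) Θ L R j m y ^ 2) :=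
          intervalIntegral.integral_nonneg (by linarith) fun _ _ => by positivity
        positivity
    _ = (1 / Real.log 2 + 1) * ∫ y in (v0 - Real.log 2)..v0, ∑ m ∈ blk8 c K1,
          (fo g Θ L R j m y ^ 2 + fo (deriv g) Θ L R j m y ^ 2) := by
        rw [← Finset.mul_sum, intervalIntegral.integral_finsetSum hint]
    _ ≤ (1 / Real.log 2 + 1) * ∫ y in (v0 - Real.log 2)..v0, T := by
        refine mul_le_mul_of_nonneg_left ?_ (by positivity)
        refine intervalIntegral.integral_mono_on (by linarith) ?_ (by simp) fun y hy => h y hy.1 hy.2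
        refine Continuous.intervalIntegrable ?_ _ _
        exact continuous_finsetSum _ fun m _ => ((hc0 m).pow 2).add ((hc m).pow 2)
    _ = (1 + Real.log 2) * T := by
        rw [intervalIntegral.integral_const]
        simp only [smul_eq_mul]
        field_simp
        ring
    _ ≤ 2 * T := by nlinarith

theorem rse_m4c1_geo (a : ℕ) : (2 : ℝ) ^ (-(a : ℝ) / 4) = ((2 : ℝ) ^ (-(1 / 4) : ℝ)) ^ a := by
  rw [← Real.rpow_natCast, ← Real.rpow_mul (by norm_num)]
  congr 1
  ring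

theorem rse_m4c1_geo_sum : Summable (fun a : ℕ => (2 : ℝ) ^ (-(a : ℝ) / 4)) ∧
    ∑' a : ℕ, (2 : ℝ) ^ (-(a : ℝ) / 4) ≤ 7 := by
  set r : ℝ := (2 : ℝ) ^ (-(1 / 4) : ℝ) with hr
  have hr0 : 0 < r := by positivity
  have hr4 : r ^ 4 = 1 / 2 := by
    rw [hr, ← Real.rpow_natCast, ← Real.rpow_mul (by norm_num)]
    norm_num
  have hr1 : r ≤ 6 / 7 := by
    by_contra hcon
    push Not at hcon
    have : (6 / 7 : ℝ) ^ 4 < r ^ 4 := by gcongr
    rw [hr4] at this
    norm_num at this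
  have hs : Summable (fun a : ℕ => r ^ a) := summable_geometric_of_lt_one hr0.le (by linarith)
  have e : (fun a : ℕ => (2 : ℝ) ^ (-(a : ℝ) / 4)) = fun a => r ^ a := by
    funext a
    exact rse_m4c1_geo a
  rw [e]
  refine ⟨hs, ?_⟩
  rw [tsum_geometric_of_lt_one hr0.le (by linarith)]
  rw [inv_le_comm₀ (by linarith) (by norm_num)]
  linarith

/-- The sum over `d` and `a`. -/
theorem rse_m4c1_main {κ : ℕ} (hκ : κ ≤ 1) (i : ℕ) (Θ : ℝ → ℝ) (L : ℝ) {j : Fin 4} {c m2 : ℕ}
    (hc : OC c) (hp : Par κ j c) (h2 : Odd m2) (K1 u M : ℝ) (hM : 0 ≤ M)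
    (h : ∀ d ∈ sd (2 * m2), ∀ a : ℕ, (2 : ℝ) ^ (-(a : ℝ) / 2) *
      ∑ m1 ∈ (blk8 c K1).filter (fun m1 => Squarefree m1 ∧ 3 ≤ m1),
        fo (gk κ i) Θ L m2 j m1
          (-Real.log ((cc j * m1 : ℕ) : ℝ) - u - Real.log d + a * Real.log 2) ^ 2 ≤
        (2 : ℝ) ^ (-(a : ℝ) / 4) * M) :
    ∑ m1 ∈ (blk8 c K1).filter (fun m1 => Squarefree m1 ∧ 3 ≤ m1),
      fo (gk κ i) Θ L 1 j (m1 * m2 ^ 2) u ^ 2 ≤ 28 * ((sd (2 * m2)).card : ℝ) ^ 2 * M := by
  have hg : Kern (gk κ i) := kern_gk hκ i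
  set F := (blk8 c K1).filter (fun m1 => Squarefree m1 ∧ 3 ≤ m1) with hF
  set N : ℝ := ((sd (2 * m2)).card : ℝ) with hN
  have hN0 : 0 ≤ N := by positivity
  have hsum : ∀ (m1 d : ℕ), Summable (fun a : ℕ => (2 : ℝ) ^ (-(a : ℝ) / 2) *
      fo (gk κ i) Θ L m2 j m1
        (-Real.log ((cc j * m1 : ℕ) : ℝ) - u - Real.log d + a * Real.log 2) ^ 2) :=
    fun m1 d => (ff_le (Θ := Θ) hg L m2 j m1 (-Real.log ((cc j * m1 : ℕ) : ℝ) - u - Real.log d)).1
  calc ∑ m1 ∈ F, fo (gk κ i) Θ L 1 j (m1 * m2 ^ 2) u ^ 2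
      ≤ ∑ m1 ∈ F, 4 * N * ∑ d ∈ sd (2 * m2), 1 / (d : ℝ) * ∑' a : ℕ,
          (2 : ℝ) ^ (-(a : ℝ) / 2) * fo (gk κ i) Θ L m2 j m1
          (-Real.log ((cc j * m1 : ℕ) : ℝ) - u - Real.log d + a * Real.log 2) ^ 2 := by
        refine Finset.sum_le_sum fun m1 hm1 => ?_
        rw [hF, Finset.mem_filter] at hm1
        obtain ⟨hb, hsq, h3⟩ := hm1
        simp only [blk8, Finset.mem_filter] at hb
        have hmod : m1 % 8 = c := hb.2.2.2
        have hodd : Odd m1 := by
          rw [Nat.odd_iff]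
          rcases hc with h | h | h | h <;> omega
        have hpar : Par κ j m1 := by
          rw [← par_mod, hmod]
          exact hp
        exact m4a_bound hpar hodd hsq h3 h2 i Θ L u
    _ = 4 * N * ∑ d ∈ sd (2 * m2), 1 / (d : ℝ) * ∑' a : ℕ,
          (2 : ℝ) ^ (-(a : ℝ) / 2) * ∑ m1 ∈ F, fo (gk κ i) Θ L m2 j m1
          (-Real.log ((cc j * m1 : ℕ) : ℝ) - u - Real.log d + a * Real.log 2) ^ 2 := by
        rw [← Finset.mul_sum, Finset.sum_comm]
        congr 1
        refine Finset.sum_congr rfl fun d _ => ?_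
        rw [← Finset.mul_sum]
        congr 1
        rw [← Summable.tsum_finsetSum fun m1 _ => hsum m1 d]
        refine tsum_congr fun a => ?_
        rw [Finset.mul_sum]
    _ ≤ 4 * N * ∑ d ∈ sd (2 * m2), (7 * M) := by
        refine mul_le_mul_of_nonneg_left ?_ (by positivity)
        refine Finset.sum_le_sum fun d hd => ?_
        have hd1 : 1 ≤ d := by
          have hd' := (Finset.mem_filter.mp hd).1
          exact Nat.pos_of_mem_divisors hd'
        have hd1' : (1 : ℝ) ≤ d := by exact_mod_cast hd1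
        have hsA : Summable (fun a : ℕ => (2 : ℝ) ^ (-(a : ℝ) / 2) *
            ∑ m1 ∈ F, fo (gk κ i) Θ L m2 j m1
          (-Real.log ((cc j * m1 : ℕ) : ℝ) - u - Real.log d + a * Real.log 2) ^ 2) := by
          have := summable_sum (s := F) fun m1 _ => hsum m1 d
          refine this.congr fun a => ?_
          rw [Finset.mul_sum]
        have t1 : ∑' a : ℕ, (2 : ℝ) ^ (-(a : ℝ) / 2) * ∑ m1 ∈ F, fo (gk κ i) Θ L m2 j m1
          (-Real.log ((cc j * m1 : ℕ) : ℝ) - u - Real.log d + a * Real.log 2) ^ 2 ≤ 7 * M := by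
          calc _ ≤ ∑' a : ℕ, (2 : ℝ) ^ (-(a : ℝ) / 4) * M :=
                Summable.tsum_le_tsum (h d hd) hsA (rse_m4c1_geo_sum.1.mul_right M)
            _ = (∑' a : ℕ, (2 : ℝ) ^ (-(a : ℝ) / 4)) * M := tsum_mul_right
            _ ≤ 7 * M := mul_le_mul_of_nonneg_right rse_m4c1_geo_sum.2 hM
        have t0 : 0 ≤ ∑' a : ℕ, (2 : ℝ) ^ (-(a : ℝ) / 2) * ∑ m1 ∈ F, fo (gk κ i) Θ L m2 j m1
          (-Real.log ((cc j * m1 : ℕ) : ℝ) - u - Real.log d + a * Real.log 2) ^ 2 :=
          tsum_nonneg fun a => mul_nonneg (by positivity) (Finset.sum_nonneg fun _ _ => sq_nonneg _)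
        calc 1 / (d : ℝ) * _ ≤ 1 * _ :=
              mul_le_mul_of_nonneg_right ((div_le_one (by linarith)).2 hd1') t0
          _ ≤ 7 * M := by rw [one_mul]; exact t1
    _ = 28 * N ^ 2 * M := by
        rw [Finset.sum_const, nsmul_eq_mul]
        ring

theorem rse_m4c1_cc (j : Fin 4) : 1 ≤ cc j ∧ cc j ≤ 8 := by
  fin_cases j <;> decide

/-- M4C1: the contribution of one `m2` (cites SOB, M4A, M3, CR). -/
theorem m4c1_bound_pr {Θ : ℝ → ℝ} (hΘ : Cut Θ) {κ : ℕ} (hκ : κ ≤ 1) (i : ℕ) : ∃ C : ℝ, 0 < C ∧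
    ∀ (j : Fin 4) (c m2 : ℕ) (L K y : ℝ), OC c → Par κ j c → Odd m2 → 4 ≤ L →
    1900 * L ≤ Real.log K → 6 * L ≤ y → y ≤ 14 * L → (m2 : ℝ) ^ 2 ≤ K →
    (∑ m1 ∈ (blk8 c (K / m2 ^ 2)).filter (fun m1 => Squarefree m1 ∧ 3 ≤ m1),
      fo (gk κ i) Θ L 1 j (m1 * m2 ^ 2) (ce K - y) ^ 2 ≤
        C * Real.exp (40 * L) * ((sd (2 * m2)).card : ℝ) ^ 2 * (K / m2 ^ 2)) ∧
    ((m2 : ℝ) ≤ K ^ (1 / 16 : ℝ) →
      ∑ m1 ∈ (blk8 c (K / m2 ^ 2)).filter (fun m1 => Squarefree m1 ∧ 3 ≤ m1),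
        fo (gk κ i) Θ L 1 j (m1 * m2 ^ 2) (ce K - y) ^ 2 ≤
          C * E1 m2 ^ 3 * ((sd (2 * m2)).card : ℝ) ^ 2 * (K / m2 ^ 2) / L) := by
  have hg : Kern (gk κ i) := kern_gk hκ i
  have hg' : Kern (deriv (gk κ i)) := by
    rw [gk_deriv hκ i]
    exact kern_gk hκ (i + 1)
  obtain ⟨A1, hA1, hcr1⟩ := cr_bound hg hΘ
  obtain ⟨A2, hA2, hcr2⟩ := cr_bound hg' hΘ
  obtain ⟨B1, hB1, hm1⟩ := m3_bound hg hΘ
  obtain ⟨B2, hB2, hm2⟩ := m3_bound hg' hΘ
  refine ⟨56 * (A1 + A2 + (B1 + B2)), by positivity, ?_⟩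
  intro j c m2 L K y hc hp h2 hL hKL hy1 hy2 hmK
  have hm2p : 0 < m2 := h2.pos
  have hm2R : (1 : ℝ) ≤ m2 := by exact_mod_cast hm2p
  have hm2R0 : (0 : ℝ) < m2 := by linarith
  have hK0 : 0 < K := lt_of_lt_of_le (by positivity) hmK
  set K1 : ℝ := K / m2 ^ 2 with hK1d
  have hK1 : 1 ≤ K1 := (one_le_div (by positivity)).2 hmK
  have hK10 : 0 < K1 := by linarith
  have hlK1 : Real.log K1 = Real.log K - 2 * Real.log m2 := by
    rw [hK1d, Real.log_div hK0.ne' (by positivity), Real.log_pow]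
    norm_num
  have hl2 : 0 < Real.log 2 := Real.log_pos (by norm_num)
  have hl2' : Real.log 2 < 0.6931471808 := Real.log_two_lt_d9
  have hE1 : 1 ≤ E1 m2 := E1_pos m2
  have hlm2 : 0 ≤ Real.log m2 := Real.log_nonneg hm2R
  obtain ⟨hcc1, hcc8⟩ := rse_m4c1_cc j
  have hccR : (1 : ℝ) ≤ cc j := by exact_mod_cast hcc1
  have hccR8 : (cc j : ℝ) ≤ 8 := by exact_mod_cast hcc8
  have hlcc0 : 0 ≤ Real.log (cc j) := Real.log_nonneg hccR
  have hlcc : Real.log (cc j) ≤ 3 * Real.log 2 := by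
    calc Real.log (cc j) ≤ Real.log 8 := Real.log_le_log (by linarith) hccR8
      _ = Real.log (2 ^ 3) := by norm_num
      _ = 3 * Real.log 2 := by rw [Real.log_pow]; norm_num
  -- the centre
  set v0 : ℕ → ℕ → ℝ := fun d a => ce K1 + Real.log m2 + y - Real.log d + a * Real.log 2 -
    Real.log (cc j) with hv0
  have hdlog : ∀ d ∈ sd (2 * m2), 0 ≤ Real.log d ∧ Real.log d ≤ Real.log 2 + Real.log m2 := by
    intro d hd
    have hd' := (Finset.mem_filter.mp hd).1
    have hd1 : 1 ≤ d := Nat.pos_of_mem_divisors hd'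
    have hd2 : d ≤ 2 * m2 := Nat.le_of_dvd (by omega) (Nat.dvd_of_mem_divisors hd')
    have hd1' : (1 : ℝ) ≤ d := by exact_mod_cast hd1
    have hd2' : (d : ℝ) ≤ 2 * m2 := by exact_mod_cast hd2
    refine ⟨Real.log_nonneg hd1', ?_⟩
    rw [← Real.log_mul (by norm_num) hm2R0.ne']
    exact Real.log_le_log (by linarith) hd2'
  have hv0low : ∀ d ∈ sd (2 * m2), ∀ a : ℕ, ce K1 + 5 * L ≤ v0 d a - Real.log 2 := by
    intro d hd a
    have h1 := (hdlog d hd).2
    have h2 : 0 ≤ (a : ℝ) * Real.log 2 := by positivity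
    simp only [hv0]
    linarith
  -- the shape of the point
  have hpt : ∀ d ∈ sd (2 * m2), ∀ a : ℕ, ∀ m1 ∈ (blk8 c K1).filter
      (fun m1 => Squarefree m1 ∧ 3 ≤ m1),
      -Real.log ((cc j * m1 : ℕ) : ℝ) - (ce K - y) - Real.log d + a * Real.log 2 =
        v0 d a - Real.log (m1 / K1) := by
    intro d hd a m1 hm1
    have h3 : 3 ≤ m1 := (Finset.mem_filter.mp hm1).2.2
    have h3' : (0 : ℝ) < m1 := by
      have : 0 < m1 := by omega
      exact_mod_cast this
    rw [Nat.cast_mul, Real.log_mul (by linarith) h3'.ne', Real.log_div h3'.ne' hK10.ne']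
    simp only [hv0, ce]
    rw [hlK1]
    ring
  have hS : ∀ d ∈ sd (2 * m2), ∀ a : ℕ, ∀ T : ℝ,
      (∀ w, v0 d a - Real.log 2 ≤ w → w ≤ v0 d a →
        ∑ m ∈ blk8 c K1, (fo (gk κ i) Θ L m2 j m w ^ 2 +
          fo (deriv (gk κ i)) Θ L m2 j m w ^ 2) ≤ T) →
      ∑ m1 ∈ (blk8 c K1).filter (fun m1 => Squarefree m1 ∧ 3 ≤ m1),
        fo (gk κ i) Θ L m2 j m1
          (-Real.log ((cc j * m1 : ℕ) : ℝ) - (ce K - y) - Real.log d + a * Real.log 2) ^ 2 ≤
        2 * T := by
    intro d hd a T hT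
    rw [Finset.sum_congr rfl fun m1 hm1 => by rw [hpt d hd a m1 hm1]]
    exact rse_m4c1_sob hg hg' L m2 j c hK1 (v0 d a) T hT _ (Finset.filter_subset _ _)
  -- CR
  have hCR : ∀ d ∈ sd (2 * m2), ∀ a : ℕ,
      ∑ m1 ∈ (blk8 c K1).filter (fun m1 => Squarefree m1 ∧ 3 ≤ m1),
        fo (gk κ i) Θ L m2 j m1
          (-Real.log ((cc j * m1 : ℕ) : ℝ) - (ce K - y) - Real.log d + a * Real.log 2) ^ 2 ≤
        2 * ((A1 + A2) * Real.exp (40 * L) * K1) := by
    intro d hd a
    refine hS d hd a _ fun w hw1 hw2 => ?_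
    have hlow := hv0low d hd a
    have e1 := hcr1 j c m2 L K1 w hc (by linarith) hK1 (by linarith)
    have e2 := hcr2 j c m2 L K1 w hc (by linarith) hK1 (by linarith)
    rw [Finset.sum_add_distrib]
    calc _ ≤ A1 * Real.exp (40 * L) * K1 + A2 * Real.exp (40 * L) * K1 := add_le_add e1 e2
      _ = _ := by ring
  have hN0 : (0 : ℝ) ≤ ((sd (2 * m2)).card : ℝ) := by positivity
  constructor
  · have hmain := rse_m4c1_main hκ i Θ L hc hp h2 K1 (ce K - y)
      (2 * ((A1 + A2) * Real.exp (40 * L) * K1)) (by positivity) (by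
        intro d hd a
        refine mul_le_mul ?_ (hCR d hd a) (Finset.sum_nonneg fun _ _ => sq_nonneg _)
          (by positivity)
        refine Real.rpow_le_rpow_of_exponent_le (by norm_num) ?_
        have : (0 : ℝ) ≤ a := by positivity
        linarith)
    refine hmain.trans ?_
    calc 28 * ((sd (2 * m2)).card : ℝ) ^ 2 * (2 * ((A1 + A2) * Real.exp (40 * L) * K1))
        = 56 * (A1 + A2) * Real.exp (40 * L) * ((sd (2 * m2)).card : ℝ) ^ 2 * K1 := by ring
      _ ≤ 56 * (A1 + A2 + (B1 + B2)) * Real.exp (40 * L) * ((sd (2 * m2)).card : ℝ) ^ 2 * K1 := by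
        have hAB : 56 * (A1 + A2) ≤ 56 * (A1 + A2 + (B1 + B2)) := by linarith
        gcongr
  · intro hmk
    have hlm : Real.log m2 ≤ 1 / 16 * Real.log K := by
      rw [← Real.log_rpow hK0]
      exact Real.log_le_log hm2R0 hmk
    have hL0 : 0 < L := by linarith
    have hE3 : 1 ≤ E1 m2 ^ 3 := one_le_pow₀ hE1
    have hmain := rse_m4c1_main hκ i Θ L hc hp h2 K1 (ce K - y)
      (2 * ((A1 + A2 + (B1 + B2)) * (E1 m2 ^ 3 * K1 / L))) (by positivity) (by
        intro d hd a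
        by_cases ha : (a : ℝ) * Real.log 2 ≤ Real.log K / 4
        · refine mul_le_mul ?_ ?_ (Finset.sum_nonneg fun _ _ => sq_nonneg _)
            (by positivity)
          · refine Real.rpow_le_rpow_of_exponent_le (by norm_num) ?_
            have : (0 : ℝ) ≤ a := by positivity
            linarith
          · refine hS d hd a _ fun w hw1 hw2 => ?_
            have hlow := hv0low d hd a
            have hup : v0 d a ≤ -(200 * L) := by
              have h1 := (hdlog d hd).1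
              simp only [hv0, ce]
              rw [hlK1]
              linarith
            have e1 := hm1 j c m2 L K1 w hc hm2p (by linarith) hK1 (by linarith) (by linarith)
            have e2 := hm2 j c m2 L K1 w hc hm2p (by linarith) hK1 (by linarith) (by linarith)
            rw [Finset.sum_add_distrib]
            calc _ ≤ B1 * E1 m2 ^ 3 * K1 / L + B2 * E1 m2 ^ 3 * K1 / L := add_le_add e1 e2
              _ = (B1 + B2) * (E1 m2 ^ 3 * K1 / L) := by ring
              _ ≤ (A1 + A2 + (B1 + B2)) * (E1 m2 ^ 3 * K1 / L) := by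
                refine mul_le_mul_of_nonneg_right ?_ (by positivity)
                linarith
        · push Not at ha
          have hexp : (2 : ℝ) ^ (-(a : ℝ) / 4) ≤ Real.exp (-(118 * L)) := by
            rw [Real.rpow_def_of_pos (by norm_num)]
            refine Real.exp_le_exp.2 ?_
            nlinarith
          have hsplit : (2 : ℝ) ^ (-(a : ℝ) / 2) =
              (2 : ℝ) ^ (-(a : ℝ) / 4) * (2 : ℝ) ^ (-(a : ℝ) / 4) := by
            rw [← Real.rpow_add (by norm_num)]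
            congr 1
            ring
          rw [hsplit, mul_assoc]
          refine mul_le_mul_of_nonneg_left ?_ (by positivity)
          have hL1 : Real.exp (-(118 * L)) * Real.exp (40 * L) ≤ 1 / L := by
            rw [← Real.exp_add, le_div_iff₀ hL0]
            have h1 : L ≤ Real.exp L := by
              have := Real.add_one_le_exp L
              linarith
            calc Real.exp (-(118 * L) + 40 * L) * L
                ≤ Real.exp (-(118 * L) + 40 * L) * Real.exp L :=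
                  mul_le_mul_of_nonneg_left h1 (by positivity)
              _ = Real.exp (-(118 * L) + 40 * L + L) := by rw [← Real.exp_add]
              _ ≤ Real.exp 0 := Real.exp_le_exp.2 (by linarith)
              _ = 1 := Real.exp_zero
          calc _ ≤ Real.exp (-(118 * L)) * (2 * ((A1 + A2) * Real.exp (40 * L) * K1)) :=
                mul_le_mul hexp (hCR d hd a) (Finset.sum_nonneg fun _ _ => sq_nonneg _)
                  (by positivity)
            _ = 2 * ((A1 + A2) * K1) * (Real.exp (-(118 * L)) * Real.exp (40 * L)) := by ring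
            _ ≤ 2 * ((A1 + A2) * K1) * (1 / L) :=
                mul_le_mul_of_nonneg_left hL1 (by positivity)
            _ = 2 * ((A1 + A2) * (1 * K1 / L)) := by ring
            _ ≤ 2 * ((A1 + A2 + (B1 + B2)) * (E1 m2 ^ 3 * K1 / L)) := by
                refine mul_le_mul_of_nonneg_left ?_ (by norm_num)
                refine mul_le_mul (by linarith) ?_ (by positivity) (by positivity)
                refine div_le_div_of_nonneg_right ?_ hL0.le
                exact mul_le_mul_of_nonneg_right hE3 hK10.le)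
    refine hmain.trans (le_of_eq ?_)
    ring

end Pool.Agent.RSE

namespace Pool.Agent.RSE

alias m4c1_bound := m4c1_bound_pr

end Pool.Agent.RSE
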