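import Pool.Agent.Lib_helper39.RSE.Defs
import Pool.Agent.Lib_helper39.RSA.DefsB
import Pool.Agent.Lib_helper24.ABS.Endgame
import Pool.Agent.Lib_helper39.RSA.CUT1
import Pool.Agent.Lib_helper39.RSA.DU
import Pool.Agent.Lib_helper39.RSA.KG2
import Pool.Agent.Lib_helper39.RSA.M3
import Pool.Agent.Lib_helper39.RSA.M4C
import Pool.Agent.Lib_helper39.RSA.PFM
import Pool.Agent.Lib_helper39.RSA.RKM
/-!
# M5: the mean square near the centre
-/

namespace Pool.Agent.RSE

open Complex MeasureTheory Filter Topology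
open Pool.Agent.RC (cc psi rv f0 IsRC Good gm pr DD)
open scoped ContDiff

theorem rse_m5_exp_le {L : ℝ} (hL : 4 ≤ L) {a : ℝ} (ha : 1 ≤ a) :
    Real.exp (-(a * L)) ≤ 1 / L := by
  have h1 : L ≤ Real.exp (a * L) := by
    have := Real.add_one_le_exp (a * L)
    nlinarith
  rw [Real.exp_neg, one_div]
  exact inv_anti₀ (by linarith) h1

theorem rse_m5_E1_one : E1 1 = 1 := by simp [E1]

theorem rse_m5_OC_odd {c m : ℕ} (hc : OC c) (hm : m % 8 = c) : 0 < m := by
  rcases Nat.eq_zero_or_pos m with h | h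
  · subst h
    rcases hc with h | h | h | h <;> omega
  · exact h

theorem rse_m5_mem_fam {c : ℕ} {K : ℝ} (hK : 0 ≤ K) {m : ℕ} :
    m ∈ fam c K ↔ (m : ℝ) ≤ 4 * K ∧ m % 8 = c := by
  simp only [fam, Finset.mem_filter, Finset.mem_range, Nat.lt_succ_iff]
  rw [Nat.le_floor_iff (by positivity)]

theorem rse_m5_mem_blk {c : ℕ} {K : ℝ} {m : ℕ} :
    m ∈ blk8 c K ↔ K ≤ (m : ℝ) ∧ (m : ℝ) < 2 * K ∧ m % 8 = c := by
  simp only [blk8, Finset.mem_filter, Finset.mem_range]
  constructor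
  · rintro ⟨-, h⟩
    exact h
  · rintro ⟨h1, h2, h3⟩
    exact ⟨Nat.lt_ceil.2 h2, h1, h2, h3⟩

theorem rse_m5_phi_four {φ : ℝ → ℝ} (hφ : Bump φ) : φ 4 = 0 := by
  have hc : Continuous φ := hφ.smooth.continuous
  have h1 : Tendsto φ (𝓝[>] 4) (𝓝 (φ 4)) := hc.continuousAt.mono_left nhdsWithin_le_nhds
  have h2 : Tendsto φ (𝓝[>] 4) (𝓝 0) := by
    refine tendsto_const_nhds.congr' ?_
    filter_upwards [self_mem_nhdsWithin] with x hx
    exact (hφ.supp x (Or.inr hx)).symm
  exact tendsto_nhds_unique h1 h2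

/-- The weighted sum is bounded by the sum over three dyadic blocks. -/
theorem rse_m5_fam_le {φ : ℝ → ℝ} (hφ : Bump φ) {c : ℕ} {K : ℝ} (hK : 0 < K) (f : ℕ → ℝ)
    (hf : ∀ m, 0 ≤ f m) : ∑ m ∈ fam c K, φ (m / K) * f m ≤
      ∑ m ∈ blk8 c (K / 2), f m + ∑ m ∈ blk8 c K, f m + ∑ m ∈ blk8 c (2 * K), f m := by
  classical
  have h1 : ∀ m ∈ fam c K, φ (m / K) * f m ≤
      (if m ∈ blk8 c (K / 2) then f m else 0) + (if m ∈ blk8 c K then f m else 0) +
        (if m ∈ blk8 c (2 * K) then f m else 0) := by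
    intro m hm
    rw [rse_m5_mem_fam hK.le] at hm
    have h2 : φ (m / K) * f m ≤ f m := by
      have := hφ.le (m / K)
      nlinarith [hf m]
    have hf1 := hf m
    have g1 : 0 ≤ (if m ∈ blk8 c (K / 2) then f m else 0) := by split_ifs <;> simp [hf1]
    have g2 : 0 ≤ (if m ∈ blk8 c K then f m else 0) := by split_ifs <;> simp [hf1]
    have g3 : 0 ≤ (if m ∈ blk8 c (2 * K) then f m else 0) := by split_ifs <;> simp [hf1]
    by_cases c1 : (m : ℝ) < K / 2
    · have : φ (m / K) = 0 := by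
        apply hφ.supp
        left
        rw [div_lt_iff₀ hK]
        linarith
      rw [this]
      linarith
    push Not at c1
    by_cases c2 : (m : ℝ) < K
    · have : m ∈ blk8 c (K / 2) := rse_m5_mem_blk.2 ⟨c1, by linarith, hm.2⟩
      rw [if_pos this]
      linarith
    push Not at c2
    by_cases c3 : (m : ℝ) < 2 * K
    · have : m ∈ blk8 c K := rse_m5_mem_blk.2 ⟨c2, c3, hm.2⟩
      rw [if_pos this]
      linarith
    push Not at c3
    by_cases c4 : (m : ℝ) < 4 * K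
    · have : m ∈ blk8 c (2 * K) := rse_m5_mem_blk.2 ⟨c3, by linarith, hm.2⟩
      rw [if_pos this]
      linarith
    · have : φ (m / K) = 0 := by
        have e : (m : ℝ) / K = 4 := by
          rw [div_eq_iff hK.ne']
          linarith [hm.1]
        rw [e]
        exact rse_m5_phi_four hφ
      rw [this]
      linarith
  refine (Finset.sum_le_sum h1).trans ?_
  rw [Finset.sum_add_distrib, Finset.sum_add_distrib]
  have h3 : ∀ K' : ℝ, K' ≤ 2 * K → 0 < K' → ∑ m ∈ fam c K, (if m ∈ blk8 c K' then f m else 0) ≤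
      ∑ m ∈ blk8 c K', f m := by
    intro K' hK' h0
    rw [← Finset.sum_filter]
    apply Finset.sum_le_sum_of_subset_of_nonneg
    · intro m hm
      exact (Finset.mem_filter.1 hm).2
    · intro m _ _
      exact hf m
  linarith [h3 (K / 2) (by linarith) (by linarith), h3 K (by linarith) hK,
    h3 (2 * K) le_rfl (by linarith)]

theorem rse_m5_Ef_nonneg_le {φ : ℝ → ℝ} (hφ : Bump φ) (g Θ : ℝ → ℝ) (L : ℝ) (R : ℕ) (j : Fin 4)
    {c : ℕ} {K : ℝ} (hK : 0 < K) (u : ℝ) :
    ∑ m ∈ blk8 c K, fo g Θ L R j m u ^ 2 ≤ Ef φ g Θ L R j c K u u := by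
  have h1 : ∑ m ∈ blk8 c K, fo g Θ L R j m u ^ 2 =
      ∑ m ∈ blk8 c K, φ (m / K) * (fo g Θ L R j m u * fo g Θ L R j m u) := by
    apply Finset.sum_congr rfl
    intro m hm
    rw [rse_m5_mem_blk] at hm
    rw [hφ.one (m / K) (by rw [le_div_iff₀ hK]; linarith [hm.1])
      (by rw [div_le_iff₀ hK]; linarith [hm.2.1])]
    ring
  rw [h1]
  unfold Ef
  apply Finset.sum_le_sum_of_subset_of_nonneg
  · intro m hm
    rw [rse_m5_mem_blk] at hm
    rw [rse_m5_mem_fam hK.le]
    exact ⟨by linarith [hm.2.1], hm.2.2⟩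
  · intro m _ _
    exact mul_nonneg (hφ.nonneg _) (mul_self_nonneg _)

theorem rse_m5_Ef_cs {φ : ℝ → ℝ} (hφ : Bump φ) (g Θ : ℝ → ℝ) (L : ℝ) (R : ℕ) (j : Fin 4)
    (c : ℕ) (K : ℝ) (u v : ℝ) :
    Ef φ g Θ L R j c K u v ≤ (Ef φ g Θ L R j c K u u + Ef φ g Θ L R j c K v v) / 2 := by
  unfold Ef
  rw [← Finset.sum_add_distrib, Finset.sum_div]
  apply Finset.sum_le_sum
  intro m _
  have h1 := hφ.nonneg (m / K)
  have h2 := two_mul_le_add_sq (fo g Θ L R j m u) (fo g Θ L R j m v)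
  have h3 := mul_le_mul_of_nonneg_left h2 h1
  nlinarith

theorem rse_m5_Df_cs {φ : ℝ → ℝ} (hφ : Bump φ) {g : ℝ → ℝ} (hg : Kern g) (Θ : ℝ → ℝ) (L : ℝ) (R : ℕ)
    {c : ℕ} (hc : OC c) {K : ℝ} (hK : 0 < K) (u v : ℝ) :
    -Df φ g Θ L R c K u v ≤ (Df φ g Θ L R c K u u + Df φ g Θ L R c K v v) / 2 := by
  unfold Df
  rw [← Finset.sum_add_distrib, Finset.sum_div, ← Finset.sum_neg_distrib]
  apply Finset.sum_le_sum
  intro m hm
  rw [rse_m5_mem_fam hK.le] at hm
  have h0 := rse_m5_OC_odd hc hm.2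
  have h1 := hφ.nonneg (m / K)
  have h2 := (neg_le_abs _).trans (dg_cs (Θ := Θ) hg L R m h0 u v)
  have h3 := mul_le_mul_of_nonneg_left h2 h1
  nlinarith

/-- M5. -/
theorem m5_bound_pr {Θ : ℝ → ℝ} (hΘ : Cut Θ) {κ : ℕ} (hκ : κ ≤ 1) (i : ℕ) : ∃ C : ℝ, 0 < C ∧
    ∀ (j : Fin 4) (c : ℕ) (L K u : ℝ), OC c → Par κ j c → 4 ≤ L → 1 ≤ K →
    2000 * L ≤ Real.log K → ce K - 3 ≤ u → u ≤ ce K + 5 * L + 1 →
    ∑ m ∈ blk8 c K, fo (gk κ i) Θ L 1 j m u ^ 2 ≤ C * K / L := by
  obtain ⟨φ, hφ⟩ := exists_bump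
  have hg := kern_gk hκ i
  obtain ⟨C1, hC1, H1⟩ := pfm_bound hφ hg hΘ
  obtain ⟨C2, hC2, H2⟩ := du_bound hφ hg hΘ
  obtain ⟨C3, hC3, H3⟩ := m3_bound hg hΘ
  obtain ⟨C4, hC4, H4⟩ := m4c_bound hΘ hκ i
  refine ⟨C1 * (Real.exp 31 * 2 + Real.exp 2) + 2 * C2 + (7 / 4) * (C3 + C4), by positivity, ?_⟩
  intro j c L K u hc hp hL hK hLK hu1 hu2
  have hK0 : 0 < K := by linarith
  have hL0 : 0 < L := by linarith
  have hce : ce K = -(1 / 2) * Real.log K := rfl
  have hA := rse_m5_Ef_nonneg_le hφ (gk κ i) Θ L 1 j (c := c) hK0 u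
  have hB : Ef φ (gk κ i) Θ L 1 j c K u u = Df φ (gk κ i) Θ L 1 c K u u +
      Pf φ (gk κ i) Θ L 1 j c K u u := by
    unfold Pf
    ring
  -- the diagonal
  have hD : ∀ w : ℝ, w ≤ -(200 * L) → Df φ (gk κ i) Θ L 1 c K w w ≤ C2 * K / L := by
    intro w hw
    have := H2 c 1 L K w hc one_pos (by linarith) hK0 hw
    rwa [rse_m5_E1_one, one_pow, mul_one] at this
  have hD1 := hD u (by rw [hce] at hu2; linarith)
  have hD2 := hD (u + 12 * L) (by rw [hce] at hu2; linarith)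
  have hD3 := hD (u - 12 * L) (by rw [hce] at hu2; linarith)
  have hD4 := rse_m5_Df_cs hφ hg Θ L 1 hc hK0 (u + 12 * L) (u - 12 * L)
  -- the mean squares
  have hlog2 : 0 ≤ Real.log 2 := Real.log_nonneg (by norm_num)
  have hlog2' : Real.log 2 ≤ 0.7 := by linarith [Real.log_two_lt_d9]
  have hck : ∀ K' : ℝ, (K' = K / 2 ∨ K' = K ∨ K' = 2 * K) →
      ∑ m ∈ blk8 c K', fo (gk κ i) Θ L 1 j m (u + 12 * L) ^ 2 ≤ C3 * K' / L ∧
      ∑ m ∈ blk8 c K', fo (gk κ i) Θ L 1 j m (u - 12 * L) ^ 2 ≤ C4 * K' / L := by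
    intro K' hK'
    have hlK : Real.log K' ≤ Real.log K + 0.7 ∧ Real.log K - 0.7 ≤ Real.log K' ∧ 1 ≤ K' := by
      have hKbig : 2 ≤ K := by
        by_contra hcon
        push Not at hcon
        have := Real.log_le_sub_one_of_pos hK0
        linarith
      rcases hK' with h | h | h
      · rw [h, Real.log_div hK0.ne' two_ne_zero]
        exact ⟨by linarith, by linarith, by linarith⟩
      · rw [h]
        exact ⟨by linarith, by linarith, hK⟩
      · rw [h, Real.log_mul two_ne_zero hK0.ne']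
        exact ⟨by linarith, by linarith, by linarith⟩
    obtain ⟨l1, l2, l3⟩ := hlK
    have hce' : ce K' = -(1 / 2) * Real.log K' := rfl
    constructor
    · have := H3 j c 1 L K' (u + 12 * L) hc one_pos (by linarith) l3
        (by rw [hce']; rw [hce] at hu1; linarith) (by rw [hce] at hu2; linarith)
      rwa [rse_m5_E1_one, one_pow, mul_one] at this
    · have := H4 j c L K' (ce K' - u + 12 * L) hc hp hL l3 (by linarith)
        (by rw [hce']; rw [hce] at hu2; linarith) (by rw [hce']; rw [hce] at hu1; linarith)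
      have e : ce K' - (ce K' - u + 12 * L) = u - 12 * L := by ring
      rwa [e] at this
  obtain ⟨a1, b1⟩ := hck (K / 2) (Or.inl rfl)
  obtain ⟨a2, b2⟩ := hck K (Or.inr (Or.inl rfl))
  obtain ⟨a3, b3⟩ := hck (2 * K) (Or.inr (Or.inr rfl))
  have hE : ∀ (w B : ℝ), ∑ m ∈ blk8 c (K / 2), fo (gk κ i) Θ L 1 j m w ^ 2 ≤ B * (K / 2) / L →
      ∑ m ∈ blk8 c K, fo (gk κ i) Θ L 1 j m w ^ 2 ≤ B * K / L →
      ∑ m ∈ blk8 c (2 * K), fo (gk κ i) Θ L 1 j m w ^ 2 ≤ B * (2 * K) / L →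
      Ef φ (gk κ i) Θ L 1 j c K w w ≤ (7 / 2) * (B * K / L) := by
    intro w B q1 q2 q3
    have h := rse_m5_fam_le hφ (c := c) hK0 (fun m => fo (gk κ i) Θ L 1 j m w ^ 2)
      (fun m => sq_nonneg _)
    have e : Ef φ (gk κ i) Θ L 1 j c K w w = ∑ m ∈ fam c K, φ (m / K) *
        (fun m => fo (gk κ i) Θ L 1 j m w ^ 2) m := by
      unfold Ef
      apply Finset.sum_congr rfl
      intro m _
      ring
    rw [e]
    refine h.trans ?_
    have e2 : (7 / 2) * (B * K / L) = B * (K / 2) / L + B * K / L + B * (2 * K) / L := by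
      field_simp
      ring
    rw [e2]
    linarith
  have hE1 := hE (u + 12 * L) C3 a1 a2 a3
  have hE2 := hE (u - 12 * L) C4 b1 b2 b3
  have hE3 := rse_m5_Ef_cs hφ (gk κ i) Θ L 1 j c K (u + 12 * L) (u - 12 * L)
  -- the off-diagonal
  have hP1 := (H1 j c 1 L K u u hc (by linarith) hK0).2 (12 * L)
  have hP2 := (abs_le.1 hP1).1
  have hP3 : Pf φ (gk κ i) Θ L 1 j c K (u + 12 * L) (u - 12 * L) =
      Ef φ (gk κ i) Θ L 1 j c K (u + 12 * L) (u - 12 * L) -
        Df φ (gk κ i) Θ L 1 c K (u + 12 * L) (u - 12 * L) := rfl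
  have hT : C1 * Real.exp (40 * L) *
      (K * (Real.exp (-(u + u)) / K) ^ 5 * (Real.exp (|12 * L| / 2) *
          (Real.exp (u / 4 - u / 16) + Real.exp (u / 4 - u / 16))) +
        Real.exp (-(u + u) / 4)) ≤ C1 * (Real.exp 31 * 2 + Real.exp 2) * K / L := by
    have t1 : (Real.exp (-(u + u)) / K) ^ 5 ≤ Real.exp 30 := by
      have : Real.exp (-(u + u)) / K ≤ Real.exp 6 := by
        rw [div_le_iff₀ hK0]
        have h9 : Real.exp (-(u + u)) ≤ Real.exp 6 * Real.exp (Real.log K) := by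
          rw [← Real.exp_add]
          apply Real.exp_le_exp.2
          rw [hce] at hu1
          linarith
        rwa [Real.exp_log hK0] at h9
      calc (Real.exp (-(u + u)) / K) ^ 5 ≤ (Real.exp 6) ^ 5 := by
            apply pow_le_pow_left₀ (by positivity) this
        _ = Real.exp 30 := by rw [← Real.exp_nat_mul]; norm_num
    have t2 : |12 * L| / 2 = 6 * L := by
      rw [abs_of_nonneg (by linarith)]
      ring
    have t3 : Real.exp (u / 4 - u / 16) ≤ Real.exp (1 - 180 * L) := by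
      apply Real.exp_le_exp.2
      rw [hce] at hu2
      linarith
    have t4 : Real.exp (-(u + u) / 4) ≤ K * Real.exp (2 - 1400 * L) := by
      have h9 : Real.exp (-(u + u) / 4) ≤ Real.exp (Real.log K) * Real.exp (2 - 1400 * L) := by
        rw [← Real.exp_add]
        apply Real.exp_le_exp.2
        rw [hce] at hu1
        linarith
      rwa [Real.exp_log hK0] at h9
    have t5 : K * (Real.exp (-(u + u)) / K) ^ 5 * (Real.exp (|12 * L| / 2) *
          (Real.exp (u / 4 - u / 16) + Real.exp (u / 4 - u / 16))) ≤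
        K * Real.exp 30 * (Real.exp (6 * L) * (2 * Real.exp (1 - 180 * L))) := by
      rw [t2]
      apply mul_le_mul
      · exact mul_le_mul_of_nonneg_left t1 hK0.le
      · apply mul_le_mul_of_nonneg_left _ (Real.exp_pos _).le
        linarith
      · positivity
      · positivity
    have t6 : C1 * Real.exp (40 * L) *
      (K * (Real.exp (-(u + u)) / K) ^ 5 * (Real.exp (|12 * L| / 2) *
          (Real.exp (u / 4 - u / 16) + Real.exp (u / 4 - u / 16))) +
        Real.exp (-(u + u) / 4)) ≤ C1 * Real.exp (40 * L) *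
        (K * Real.exp 30 * (Real.exp (6 * L) * (2 * Real.exp (1 - 180 * L))) +
          K * Real.exp (2 - 1400 * L)) := by
      apply mul_le_mul_of_nonneg_left _ (by positivity)
      linarith
    refine t6.trans ?_
    have e1 : Real.exp (40 * L) * (Real.exp 30 * (Real.exp (6 * L) * (2 * Real.exp (1 - 180 * L)))) =
        2 * Real.exp 31 * Real.exp (-(134 * L)) := by
      have : Real.exp (40 * L) * (Real.exp 30 * (Real.exp (6 * L) * (2 * Real.exp (1 - 180 * L)))) =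
        2 * (Real.exp (40 * L) * (Real.exp 30 * (Real.exp (6 * L) * Real.exp (1 - 180 * L)))) := by
        ring
      rw [this, mul_assoc 2]
      congr 1
      rw [← Real.exp_add, ← Real.exp_add, ← Real.exp_add, ← Real.exp_add]
      congr 1
      ring
    have e2 : Real.exp (40 * L) * Real.exp (2 - 1400 * L) =
        Real.exp 2 * Real.exp (-(1360 * L)) := by
      rw [← Real.exp_add, ← Real.exp_add]
      congr 1
      ring
    have e3 : C1 * Real.exp (40 * L) *
        (K * Real.exp 30 * (Real.exp (6 * L) * (2 * Real.exp (1 - 180 * L))) +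
          K * Real.exp (2 - 1400 * L)) = C1 * K *
        (Real.exp (40 * L) * (Real.exp 30 * (Real.exp (6 * L) * (2 * Real.exp (1 - 180 * L)))) +
          Real.exp (40 * L) * Real.exp (2 - 1400 * L)) := by ring
    rw [e3, e1, e2]
    have x1 := rse_m5_exp_le hL (a := 134) (by norm_num)
    have x2 := rse_m5_exp_le hL (a := 1360) (by norm_num)
    calc C1 * K * (2 * Real.exp 31 * Real.exp (-(134 * L)) + Real.exp 2 * Real.exp (-(1360 * L)))
        ≤ C1 * K * (2 * Real.exp 31 * (1 / L) + Real.exp 2 * (1 / L)) := by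
          apply mul_le_mul_of_nonneg_left _ (by positivity)
          apply add_le_add
          · exact mul_le_mul_of_nonneg_left x1 (by positivity)
          · exact mul_le_mul_of_nonneg_left x2 (by positivity)
      _ = C1 * (Real.exp 31 * 2 + Real.exp 2) * K / L := by ring
  have hfin : (C1 * (Real.exp 31 * 2 + Real.exp 2) + 2 * C2 + (7 / 4) * (C3 + C4)) * K / L =
      C1 * (Real.exp 31 * 2 + Real.exp 2) * K / L + 2 * (C2 * K / L) +
        (7 / 4) * (C3 * K / L) + (7 / 4) * (C4 * K / L) := by ring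
  rw [hfin]
  rw [hP3] at hP2
  linarith

end Pool.Agent.RSE

namespace Pool.Agent.RSE

alias m5_bound := m5_bound_pr

end Pool.Agent.RSE
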