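import Pool.Agent.Lib_helper39.RSE.Defs
import Pool.Agent.Lib_helper39.RSA.DefsB
import Pool.Agent.Lib_helper24.ABS.Endgame
import Pool.Agent.Lib_helper39.RSA.DFO
import Pool.Agent.Lib_helper39.RSA.KG2
import Pool.Agent.Lib_helper39.RSA.M3
import Pool.Agent.Lib_helper39.RSA.M5
/-!
# FU1
-/

namespace Pool.Agent.RSE

open Complex MeasureTheory Filter Topology
open Pool.Agent.RC (cc psi rv f0 IsRC Good gm pr DD)
open scoped ContDiff

/-- FU1 (cites DFO, M3, M5, CR). -/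
theorem fu1_bound_pr {Θ : ℝ → ℝ} (hΘ : Cut Θ) {κ : ℕ} (hκ : κ ≤ 1) (i : ℕ) : ∃ C : ℝ, 0 < C ∧
    ∀ (j : Fin 4) (c : ℕ) (L K u : ℝ), OC c → Par κ j c → 4 ≤ L → 1 ≤ K →
    2000 * L ≤ Real.log K → ce K - 3 ≤ u → u ≤ ce K / 2 →
    ∑ m ∈ blk8 c K, ff (gk κ i) Θ L 1 j m u ^ 2 ≤ C * K / L := by
  have hg := kern_gk hκ i
  obtain ⟨C3, hC3, H3⟩ := m3_bound hg hΘ
  obtain ⟨C5, hC5, H5⟩ := m5_bound hΘ hκ i
  obtain ⟨C6, hC6, H6⟩ := cr_bound hg hΘ
  set q : ℝ := (2 : ℝ) ^ (-(1 / 4) : ℝ) with hq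
  have hq0 : 0 < q := by positivity
  have hq1 : q < 1 := by
    rw [hq]
    apply Real.rpow_lt_one_of_one_lt_of_neg <;> norm_num
  have hgeo : Summable (fun a : ℕ => q ^ a) := summable_geometric_of_lt_one hq0.le hq1
  have hqa : ∀ a : ℕ, (2 : ℝ) ^ (-(a : ℝ) / 2) = q ^ a * q ^ a := by
    intro a
    rw [hq, ← Real.rpow_natCast, ← Real.rpow_mul (by norm_num), ← Real.rpow_add (by norm_num)]
    congr 1
    ring
  have hqe : ∀ a : ℕ, q ^ a = Real.exp (-(a * Real.log 2) / 4) := by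
    intro a
    rw [hq, ← Real.rpow_natCast, ← Real.rpow_mul (by norm_num), Real.rpow_def_of_pos (by norm_num)]
    congr 1
    ring
  have hE1 : E1 1 = 1 := by simp [E1]
  refine ⟨4 * ((C3 + C5 + C6) * (1 - q)⁻¹), by
    have : 0 < (1 - q)⁻¹ := inv_pos.2 (by linarith)
    positivity, ?_⟩
  intro j c L K u hc hp hL hK hLK hu1 hu2
  have hK0 : 0 < K := by linarith
  have hL0 : 0 < L := by linarith
  have hce : ce K = -(1 / 2) * Real.log K := rfl
  -- the sums for each `a`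
  have hS : ∀ a : ℕ, (2 : ℝ) ^ (-(a : ℝ) / 2) *
      ∑ m ∈ blk8 c K, fo (gk κ i) Θ L 1 j m (u + a * Real.log 2) ^ 2 ≤
        q ^ a * ((C3 + C5 + C6) * K / L) := by
    intro a
    have ha0 : 0 ≤ (a : ℝ) * Real.log 2 := by
      have := Real.log_nonneg (show (1 : ℝ) ≤ 2 by norm_num)
      positivity
    have hqa1 : q ^ a ≤ 1 := pow_le_one₀ hq0.le hq1.le
    have hqa0 : 0 < q ^ a := pow_pos hq0 a
    have hsplit : (C3 + C5 + C6) * K / L = C3 * K / L + C5 * K / L + C6 * K / L := by ring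
    have hp3 : 0 < C3 * K / L := by positivity
    have hp5 : 0 < C5 * K / L := by positivity
    have hp6 : 0 < C6 * K / L := by positivity
    have hsimple : ∑ m ∈ blk8 c K, fo (gk κ i) Θ L 1 j m (u + a * Real.log 2) ^ 2 ≤
        (C3 + C5 + C6) * K / L → (2 : ℝ) ^ (-(a : ℝ) / 2) *
      ∑ m ∈ blk8 c K, fo (gk κ i) Θ L 1 j m (u + a * Real.log 2) ^ 2 ≤
        q ^ a * ((C3 + C5 + C6) * K / L) := by
      intro h
      rw [hqa]
      have h0 : 0 ≤ ∑ m ∈ blk8 c K, fo (gk κ i) Θ L 1 j m (u + a * Real.log 2) ^ 2 :=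
        Finset.sum_nonneg fun m _ => sq_nonneg _
      calc q ^ a * q ^ a * ∑ m ∈ blk8 c K, fo (gk κ i) Θ L 1 j m (u + a * Real.log 2) ^ 2
          ≤ q ^ a * 1 * ∑ m ∈ blk8 c K, fo (gk κ i) Θ L 1 j m (u + a * Real.log 2) ^ 2 := by
            apply mul_le_mul_of_nonneg_right _ h0
            exact mul_le_mul_of_nonneg_left hqa1 hqa0.le
        _ ≤ q ^ a * ((C3 + C5 + C6) * K / L) := by
            rw [mul_one]
            exact mul_le_mul_of_nonneg_left h hqa0.le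
    by_cases c1 : u + a * Real.log 2 ≤ ce K + 5 * L + 1
    · apply hsimple
      have := H5 j c L K (u + a * Real.log 2) hc hp hL hK hLK (by linarith) c1
      rw [hsplit]
      linarith
    push Not at c1
    by_cases c2 : u + a * Real.log 2 ≤ -(200 * L)
    · apply hsimple
      have := H3 j c 1 L K (u + a * Real.log 2) hc one_pos (by linarith) hK (by linarith) c2
      rw [hE1, one_pow, mul_one] at this
      rw [hsplit]
      linarith
    push Not at c2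
    have h6 := H6 j c 1 L K (u + a * Real.log 2) hc (by linarith) hK (by linarith)
    have h7 : q ^ a * (C6 * Real.exp (40 * L) * K) ≤ C6 * K / L := by
      rw [hqe]
      have h8 : Real.exp (-(a * Real.log 2) / 4) * Real.exp (40 * L) ≤ 1 / L := by
        rw [← Real.exp_add]
        have h9 : -(a * Real.log 2) / 4 + 40 * L ≤ -L := by
          rw [hce] at hu2
          linarith
        refine (Real.exp_le_exp.2 h9).trans ?_
        rw [Real.exp_neg, one_div]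
        apply inv_anti₀ hL0
        linarith [Real.add_one_le_exp L]
      calc Real.exp (-(a * Real.log 2) / 4) * (C6 * Real.exp (40 * L) * K)
          = C6 * K * (Real.exp (-(a * Real.log 2) / 4) * Real.exp (40 * L)) := by ring
        _ ≤ C6 * K * (1 / L) := mul_le_mul_of_nonneg_left h8 (by positivity)
        _ = C6 * K / L := by ring
    rw [hqa, mul_assoc]
    apply mul_le_mul_of_nonneg_left _ hqa0.le
    rw [hsplit]
    have := mul_le_mul_of_nonneg_left h6 hqa0.le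
    linarith
  -- sum over `m`
  have hsum : ∀ m ∈ blk8 c K, Summable (fun a : ℕ => (2 : ℝ) ^ (-(a : ℝ) / 2) *
      fo (gk κ i) Θ L 1 j m (u + a * Real.log 2) ^ 2) := fun m _ =>
    (ff_le (Θ := Θ) hg L 1 j m u).1
  have h1 : ∑ m ∈ blk8 c K, ff (gk κ i) Θ L 1 j m u ^ 2 ≤
      ∑ m ∈ blk8 c K, 4 * ∑' a : ℕ, (2 : ℝ) ^ (-(a : ℝ) / 2) *
        fo (gk κ i) Θ L 1 j m (u + a * Real.log 2) ^ 2 :=
    Finset.sum_le_sum fun m _ => (ff_le (Θ := Θ) hg L 1 j m u).2
  rw [← Finset.mul_sum, ← Summable.tsum_finsetSum hsum] at h1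
  refine h1.trans ?_
  have hexch : (fun a : ℕ => ∑ m ∈ blk8 c K, (2 : ℝ) ^ (-(a : ℝ) / 2) *
      fo (gk κ i) Θ L 1 j m (u + a * Real.log 2) ^ 2) = fun a : ℕ => (2 : ℝ) ^ (-(a : ℝ) / 2) *
      ∑ m ∈ blk8 c K, fo (gk κ i) Θ L 1 j m (u + a * Real.log 2) ^ 2 := by
    funext a
    rw [Finset.mul_sum]
  rw [hexch]
  have hs2 : Summable (fun a : ℕ => q ^ a * ((C3 + C5 + C6) * K / L)) := hgeo.mul_right _
  have hs1 : Summable (fun a : ℕ => (2 : ℝ) ^ (-(a : ℝ) / 2) *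
      ∑ m ∈ blk8 c K, fo (gk κ i) Θ L 1 j m (u + a * Real.log 2) ^ 2) := by
    rw [← hexch]
    exact summable_sum hsum
  have h2 := Summable.tsum_le_tsum hS hs1 hs2
  rw [tsum_mul_right, tsum_geometric_of_lt_one hq0.le hq1] at h2
  calc 4 * ∑' a : ℕ, (2 : ℝ) ^ (-(a : ℝ) / 2) *
      ∑ m ∈ blk8 c K, fo (gk κ i) Θ L 1 j m (u + a * Real.log 2) ^ 2
      ≤ 4 * ((1 - q)⁻¹ * ((C3 + C5 + C6) * K / L)) := by linarith
    _ = 4 * ((C3 + C5 + C6) * (1 - q)⁻¹) * K / L := by ring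

end Pool.Agent.RSE

namespace Pool.Agent.RSE

alias fu1_bound := fu1_bound_pr

end Pool.Agent.RSE
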