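import Pool.Agent.Lib_helper39.RSE.Defs
import Pool.Agent.Lib_helper39.RSA.DefsB
import Pool.Agent.Lib_helper24.ABS.Endgame
import Pool.Agent.Lib_helper39.RSA.CUT1
import Pool.Agent.Lib_helper39.RSA.DFO
import Pool.Agent.Lib_helper39.RSA.FUI
import Pool.Agent.Lib_helper39.RSA.PFM
import Pool.Agent.Lib_helper39.RSA.RKM
import Pool.Agent.Lib_helper39.RSA.SMO2
/-!
# RSE, block FU2: the second moment of `ff` on `u > ce K / 2`
-/

namespace Pool.Agent.RSE

open Complex MeasureTheory Filter Topology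
open Pool.Agent.RC (cc psi rv f0 IsRC Good gm pr DD)
open scoped ContDiff

theorem rse_fu2_geo : Summable (fun a : ℕ => (2 : ℝ) ^ (-(a : ℝ) / 2)) := by
  have e : (fun a : ℕ => (2 : ℝ) ^ (-(a : ℝ) / 2)) = fun a : ℕ => ((2 : ℝ) ^ (-(1 / 2) : ℝ)) ^ a := by
    funext a
    rw [← Real.rpow_natCast, ← Real.rpow_mul (by norm_num)]
    congr 1
    ring
  rw [e]
  refine summable_geometric_of_lt_one (by positivity) ?_
  exact Real.rpow_lt_one_of_one_lt_of_neg (by norm_num) (by norm_num)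

theorem rse_fu2_cont {g : ℝ → ℝ} (hg : Kern g) (Θ : ℝ → ℝ) (L : ℝ) (R : ℕ) (j : Fin 4) (m : ℕ) :
    Continuous (fo g Θ L R j m) :=
  continuous_iff_continuousAt.mpr fun u => (fo_deriv hg Θ L R j m u).continuousAt

theorem rse_fu2_shift (F : ℝ → ENNReal) (A s : ℝ) (hs : 0 ≤ s) :
    ∫⁻ u in Set.Ioi A, F (u + s) ≤ ∫⁻ u in Set.Ioi A, F u := by
  calc ∫⁻ u in Set.Ioi A, F (u + s)
      = ∫⁻ u, (Set.Ioi A).indicator (fun u => F (u + s)) u :=
        (lintegral_indicator measurableSet_Ioi _).symm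
    _ ≤ ∫⁻ u, (Set.Ioi A).indicator F (u + s) := by
        refine lintegral_mono fun u => ?_
        by_cases h : A < u
        · rw [Set.indicator_of_mem (show u ∈ Set.Ioi A from h),
            Set.indicator_of_mem (show u + s ∈ Set.Ioi A from lt_of_lt_of_le h (by linarith))]
        · rw [Set.indicator_of_notMem (show u ∉ Set.Ioi A from h)]
          exact bot_le
    _ = ∫⁻ u, (Set.Ioi A).indicator F u := lintegral_add_right_eq_self _ s
    _ = ∫⁻ u in Set.Ioi A, F u := lintegral_indicator measurableSet_Ioi _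

theorem rse_fu2_ff {g Θ : ℝ → ℝ} (hg : Kern g) (hΘ : Cut Θ) (L : ℝ) (hL : 1 ≤ L) (R : ℕ)
    (j : Fin 4) (m : ℕ) (A : ℝ) :
    ∫ u in Set.Ioi A, ff g Θ L R j m u ^ 2 ≤
      4 * (∑' a : ℕ, (2 : ℝ) ^ (-(a : ℝ) / 2)) * ∫ u in Set.Ioi A, fo g Θ L R j m u ^ 2 := by
  have hI := (fui_int hg hΘ L hL R j m A).1
  have hJ := (fui_int hg hΘ L hL R j m A).2
  have hS : 0 ≤ ∑' a : ℕ, (2 : ℝ) ^ (-(a : ℝ) / 2) := tsum_nonneg fun a => by positivity
  have hI0 : 0 ≤ ∫ u in Set.Ioi A, fo g Θ L R j m u ^ 2 :=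
    integral_nonneg fun u => sq_nonneg _
  rw [integral_eq_lintegral_of_nonneg_ae (ae_of_all _ fun u => sq_nonneg _)
    hJ.aestronglyMeasurable]
  refine ENNReal.toReal_le_of_le_ofReal (by positivity) ?_
  have hc := rse_fu2_cont hg Θ L R j m
  calc ∫⁻ u in Set.Ioi A, ENNReal.ofReal (ff g Θ L R j m u ^ 2)
      ≤ ∫⁻ u in Set.Ioi A, ENNReal.ofReal 4 * ∑' a : ℕ, ENNReal.ofReal ((2 : ℝ) ^ (-(a : ℝ) / 2)) *
          ENNReal.ofReal (fo g Θ L R j m (u + a * Real.log 2) ^ 2) := by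
        refine lintegral_mono fun u => ?_
        obtain ⟨h1, h2⟩ := ff_le (Θ := Θ) hg L R j m u
        refine (ENNReal.ofReal_le_ofReal h2).trans (le_of_eq ?_)
        rw [ENNReal.ofReal_mul (by norm_num), ENNReal.ofReal_tsum_of_nonneg
          (fun a => by positivity) h1]
        congr 1
        refine tsum_congr fun a => ?_
        rw [ENNReal.ofReal_mul (by positivity)]
    _ = ENNReal.ofReal 4 * ∑' a : ℕ, ENNReal.ofReal ((2 : ℝ) ^ (-(a : ℝ) / 2)) *
          ∫⁻ u in Set.Ioi A, ENNReal.ofReal (fo g Θ L R j m (u + a * Real.log 2) ^ 2) := by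
        have hm : ∀ a : ℕ, Measurable fun u : ℝ =>
            ENNReal.ofReal (fo g Θ L R j m (u + a * Real.log 2) ^ 2) := fun a =>
          (((hc.comp (continuous_id.add continuous_const)).pow 2).measurable).ennreal_ofReal
        rw [lintegral_const_mul' _ _ ENNReal.ofReal_ne_top, lintegral_tsum
          fun a => ((hm a).const_mul _).aemeasurable]
        congr 1
        refine tsum_congr fun a => ?_
        rw [lintegral_const_mul _ (hm a)]
    _ ≤ ENNReal.ofReal 4 * ∑' a : ℕ, ENNReal.ofReal ((2 : ℝ) ^ (-(a : ℝ) / 2)) *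
          ∫⁻ u in Set.Ioi A, ENNReal.ofReal (fo g Θ L R j m u ^ 2) := by
        refine mul_le_mul' le_rfl (ENNReal.tsum_le_tsum fun a => mul_le_mul' le_rfl ?_)
        exact rse_fu2_shift (fun u => ENNReal.ofReal (fo g Θ L R j m u ^ 2)) A _
          (mul_nonneg (Nat.cast_nonneg a) (Real.log_nonneg (by norm_num : (1 : ℝ) ≤ 2)))
    _ = ENNReal.ofReal (4 * (∑' a : ℕ, (2 : ℝ) ^ (-(a : ℝ) / 2)) *
          ∫ u in Set.Ioi A, fo g Θ L R j m u ^ 2) := by
        rw [ENNReal.tsum_mul_right, ← ENNReal.ofReal_tsum_of_nonneg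
          (fun a => by positivity) rse_fu2_geo, ← ofReal_integral_eq_lintegral_ofReal hI
          (ae_of_all _ fun u => sq_nonneg _), ← mul_assoc, ← ENNReal.ofReal_mul (by norm_num),
          ← ENNReal.ofReal_mul (by positivity)]

theorem rse_fu2_E1 : E1 1 = 1 := by
  unfold E1
  simp

theorem rse_fu2_fam (c : ℕ) (K : ℝ) (hK : 1 ≤ K) : ((fam c K).card : ℝ) ≤ 5 * K := by
  unfold fam
  have h1 : ((Finset.range (⌊4 * K⌋₊ + 1)).filter fun m => m % 8 = c).card ≤ ⌊4 * K⌋₊ + 1 := by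
    refine (Finset.card_filter_le _ _).trans ?_
    rw [Finset.card_range]
  have h2 : ((⌊4 * K⌋₊ + 1 : ℕ) : ℝ) ≤ 4 * K + 1 := by
    push_cast
    have := Nat.floor_le (show 0 ≤ 4 * K by linarith)
    linarith
  calc (((Finset.range (⌊4 * K⌋₊ + 1)).filter fun m => m % 8 = c).card : ℝ)
      ≤ ((⌊4 * K⌋₊ + 1 : ℕ) : ℝ) := by exact_mod_cast h1
    _ ≤ 4 * K + 1 := h2
    _ ≤ 5 * K := by linarith

theorem rse_fu2_pos {c : ℕ} (hc : OC c) {K : ℝ} {m : ℕ} (hm : m ∈ fam c K) : 0 < m := by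
  unfold fam at hm
  rw [Finset.mem_filter] at hm
  have h := hm.2
  rcases Nat.eq_zero_or_pos m with h0 | h0
  · subst h0
    rcases hc with h1 | h1 | h1 | h1 <;> omega
  · exact h0

theorem rse_fu2_sub (c : ℕ) (K : ℝ) (hK : 1 ≤ K) : blk8 c K ⊆ fam c K := by
  intro m hm
  unfold blk8 at hm
  rw [Finset.mem_filter] at hm
  obtain ⟨-, -, h2, h3⟩ := hm
  unfold fam
  rw [Finset.mem_filter, Finset.mem_range]
  refine ⟨?_, h3⟩
  have : m ≤ ⌊4 * K⌋₊ := Nat.le_floor (by linarith)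
  omega

theorem rse_fu2_blk {φ : ℝ → ℝ} (hφ : Bump φ) (F : ℕ → ℝ) (c : ℕ) (K : ℝ) (hK : 1 ≤ K) :
    ∑ m ∈ blk8 c K, F m ^ 2 ≤ ∑ m ∈ fam c K, φ (m / K) * (F m * F m) := by
  calc ∑ m ∈ blk8 c K, F m ^ 2 = ∑ m ∈ blk8 c K, φ (m / K) * (F m * F m) := by
        refine Finset.sum_congr rfl fun m hm => ?_
        unfold blk8 at hm
        rw [Finset.mem_filter] at hm
        obtain ⟨-, h1, h2, -⟩ := hm
        have hK0 : 0 < K := by linarith
        rw [hφ.one (m / K) (by rw [le_div_iff₀ hK0]; linarith) (by rw [div_le_iff₀ hK0]; linarith)]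
        ring
    _ ≤ ∑ m ∈ fam c K, φ (m / K) * (F m * F m) :=
        Finset.sum_le_sum_of_subset_of_nonneg (rse_fu2_sub c K hK) fun m _ _ =>
          mul_nonneg (hφ.nonneg _) (mul_self_nonneg _)

/-- The integral of the bound for `Pf`. -/
theorem rse_fu2_int (C K a b : ℝ) (hC : 0 ≤ C) (hK : 0 < K) :
    ∫ w in a..b, C * (K * (Real.exp (-(w + w)) / K) ^ 5 + Real.exp (-(w + w) / 4)) ≤
      C * (Real.exp (-10 * a) / K ^ 4 + 2 * Real.exp (-a / 2)) := by
  have hd : ∀ w ∈ Set.uIcc a b, HasDerivAt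
      (fun w => C * (-(Real.exp (-10 * w) / (10 * K ^ 4)) - 2 * Real.exp (-w / 2)))
      (C * (K * (Real.exp (-(w + w)) / K) ^ 5 + Real.exp (-(w + w) / 4))) w := by
    intro w _
    have h1 : HasDerivAt (fun w : ℝ => Real.exp (-10 * w)) (Real.exp (-10 * w) * (-10 * 1)) w :=
      ((hasDerivAt_id w).const_mul (-10)).exp
    have h2 : HasDerivAt (fun w : ℝ => Real.exp (-w / 2)) (Real.exp (-w / 2) * (-1 / 2)) w :=
      ((hasDerivAt_id w).neg.div_const 2).exp
    have h3 := (((h1.div_const (10 * K ^ 4)).neg).sub (h2.const_mul 2)).const_mul C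
    refine h3.congr_deriv ?_
    have e1 : (Real.exp (-(w + w)) / K) ^ 5 = Real.exp (-10 * w) / K ^ 5 := by
      rw [div_pow, ← Real.exp_nat_mul]
      congr 2
      push_cast; ring
    have e2 : Real.exp (-(w + w) / 4) = Real.exp (-w / 2) := by
      congr 1; ring
    rw [e1, e2]
    field_simp
    ring
  rw [intervalIntegral.integral_eq_sub_of_hasDerivAt hd ?_]
  · have p1 : 0 ≤ Real.exp (-10 * b) / (10 * K ^ 4) := by positivity
    have p2 : 0 ≤ Real.exp (-b / 2) := by positivity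
    have p3 : Real.exp (-10 * a) / (10 * K ^ 4) ≤ Real.exp (-10 * a) / K ^ 4 := by
      refine div_le_div_of_nonneg_left (by positivity) (by positivity) ?_
      have : 0 < K ^ 4 := by positivity
      linarith
    rw [← mul_sub]
    refine mul_le_mul_of_nonneg_left ?_ hC
    linarith
  · refine Continuous.intervalIntegrable ?_ _ _
    fun_prop

theorem rse_fu2_num {L K : ℝ} (hL : 4 ≤ L) (hK : 1 ≤ K) (h1 : 2000 * L ≤ Real.log K) :
    Real.exp (40 * L) * (Real.exp (-10 * (ce K / 2)) / K ^ 4 + 2 * Real.exp (-(ce K / 2) / 2)) ≤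
      3 * K := by
  have hK0 : 0 < K := by linarith
  have hl : 0 ≤ Real.log K := Real.log_nonneg hK
  have e1 : Real.exp (-10 * (ce K / 2)) / K ^ 4 = Real.exp (-(3 / 2) * Real.log K) := by
    rw [show K ^ 4 = Real.exp (4 * Real.log K) by
      rw [show (4 : ℝ) * Real.log K = Real.log (K ^ 4) by rw [Real.log_pow]; push_cast; ring,
        Real.exp_log (by positivity)], ← Real.exp_sub]
    congr 1
    unfold ce
    ring
  have e2 : Real.exp (-(ce K / 2) / 2) = Real.exp ((1 / 8) * Real.log K) := by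
    congr 1
    unfold ce
    ring
  rw [e1, e2, mul_add]
  have b1 : Real.exp (40 * L) * Real.exp (-(3 / 2) * Real.log K) ≤ K := by
    rw [← Real.exp_add]
    nth_rw 2 [← Real.exp_log hK0]
    refine Real.exp_le_exp.mpr ?_
    linarith
  have b2 : Real.exp (40 * L) * Real.exp ((1 / 8) * Real.log K) ≤ K := by
    rw [← Real.exp_add]
    nth_rw 2 [← Real.exp_log hK0]
    refine Real.exp_le_exp.mpr ?_
    linarith
  linarith

theorem fu2_bound_pr {g Θ : ℝ → ℝ} (hg : Kern g) (hΘ : Cut Θ) : ∃ C : ℝ, 0 < C ∧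
    ∀ (j : Fin 4) (c : ℕ) (L K : ℝ), OC c → 4 ≤ L → 1 ≤ K → 2000 * L ≤ Real.log K →
    Real.log K ≤ 4000 * L →
    ∑ m ∈ blk8 c K, ∫ u in Set.Ioi (ce K / 2), ff g Θ L 1 j m u ^ 2 ≤ C * K := by
  obtain ⟨φ, hφ⟩ := exists_bump
  obtain ⟨C1, hC1, h1⟩ := rkm_bound hg hΘ
  obtain ⟨C2, hC2, h2⟩ := pfm_bound hφ hg hΘ
  set S : ℝ := ∑' a : ℕ, (2 : ℝ) ^ (-(a : ℝ) / 2) with hSdef
  have hS : 0 ≤ S := tsum_nonneg fun a => by positivity
  refine ⟨4 * S * (5 * C1 * Real.exp 1000 + 3 * C2) + 1, by positivity,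
    fun j c L K hc hL hK hKL hKL' => ?_⟩
  have hK0 : 0 < K := by linarith
  have hL1 : 1 ≤ L := by linarith
  set A : ℝ := ce K / 2 with hA
  have hAL : -A / L ≤ 1000 := by
    rw [div_le_iff₀ (by linarith), hA]
    unfold ce
    linarith
  -- the integral of the sum of squares of `fo`
  have hfin : ∀ B : ℝ, A ≤ B → ∫ w in A..B, ∑ m ∈ blk8 c K, fo g Θ L 1 j m w ^ 2 ≤
      (5 * C1 * Real.exp 1000 + 3 * C2) * K := by
    intro B hAB
    have hcont : ∀ m : ℕ, Continuous (fo g Θ L 1 j m) := fun m => rse_fu2_cont hg Θ L 1 j m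
    have hpt : ∀ w : ℝ, ∑ m ∈ blk8 c K, fo g Θ L 1 j m w ^ 2 ≤
        (∑ m ∈ fam c K, φ (m / K) * Dg g Θ L 1 m w w) +
          C2 * Real.exp (40 * L) *
            (K * (Real.exp (-(w + w)) / K) ^ 5 + Real.exp (-(w + w) / 4)) := by
      intro w
      have a1 := rse_fu2_blk hφ (fun m => fo g Θ L 1 j m w) c K hK
      have a2 := (h2 j c 1 L K w w hc hL1 hK0).1
      have a3 := (le_abs_self _).trans a2
      unfold Pf Ef Df at a3
      linarith
    calc ∫ w in A..B, ∑ m ∈ blk8 c K, fo g Θ L 1 j m w ^ 2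
        ≤ ∫ w in A..B, ((∑ m ∈ fam c K, φ (m / K) * Dg g Θ L 1 m w w) +
          C2 * Real.exp (40 * L) *
            (K * (Real.exp (-(w + w)) / K) ^ 5 + Real.exp (-(w + w) / 4))) := by
          refine intervalIntegral.integral_mono_on hAB ?_ ?_ fun w _ => hpt w
          · exact (continuous_finsetSum _ fun m _ => (hcont m).pow 2).intervalIntegrable _ _
          · refine Continuous.intervalIntegrable ?_ _ _
            refine (continuous_finsetSum _ fun m _ => continuous_const.mul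
              (dg_cont hg L 1 m)).add ?_
            fun_prop
      _ = (∑ m ∈ fam c K, φ (m / K) * ∫ w in A..B, Dg g Θ L 1 m w w) +
          ∫ w in A..B, C2 * Real.exp (40 * L) *
            (K * (Real.exp (-(w + w)) / K) ^ 5 + Real.exp (-(w + w) / 4)) := by
          rw [intervalIntegral.integral_add, intervalIntegral.integral_finsetSum]
          · congr 1
            refine Finset.sum_congr rfl fun m _ => ?_
            rw [intervalIntegral.integral_const_mul]
          · exact fun m _ => (continuous_const.mul (dg_cont hg L 1 m)).intervalIntegrable _ _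
          · exact (continuous_finsetSum _ fun m _ => continuous_const.mul
              (dg_cont hg L 1 m)).intervalIntegrable _ _
          · refine Continuous.intervalIntegrable ?_ _ _
            fun_prop
      _ ≤ (∑ m ∈ fam c K, C1 * Real.exp 1000) +
          C2 * Real.exp (40 * L) * (Real.exp (-10 * A) / K ^ 4 + 2 * Real.exp (-A / 2)) := by
          refine add_le_add ?_ (rse_fu2_int _ K A B (by positivity) hK0)
          refine Finset.sum_le_sum fun m hm => ?_
          have hm0 := rse_fu2_pos hc hm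
          have b1 := h1 1 m L A B one_pos hm0 hL1 hAB
          rw [rse_fu2_E1, one_pow, mul_one] at b1
          have b2 : 0 ≤ ∫ w in A..B, Dg g Θ L 1 m w w :=
            intervalIntegral.integral_nonneg hAB fun w _ => dg_nonneg hg L 1 m hm0 w
          calc φ (m / K) * ∫ w in A..B, Dg g Θ L 1 m w w
              ≤ 1 * ∫ w in A..B, Dg g Θ L 1 m w w :=
                mul_le_mul_of_nonneg_right (hφ.le _) b2
            _ ≤ C1 * Real.exp (-A / L) := by rw [one_mul]; exact b1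
            _ ≤ C1 * Real.exp 1000 :=
                mul_le_mul_of_nonneg_left (Real.exp_le_exp.mpr hAL) hC1.le
      _ ≤ (5 * C1 * Real.exp 1000 + 3 * C2) * K := by
          rw [Finset.sum_const, nsmul_eq_mul, mul_assoc C2]
          have b3 := rse_fu2_fam c K hK
          have b4 := rse_fu2_num hL hK hKL
          rw [← hA] at b4
          have b5 : ((fam c K).card : ℝ) * (C1 * Real.exp 1000) ≤
              5 * K * (C1 * Real.exp 1000) := mul_le_mul_of_nonneg_right b3 (by positivity)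
          have b6 := mul_le_mul_of_nonneg_left b4 hC2.le
          nlinarith
  have hint : ∀ m : ℕ, IntegrableOn (fun u => fo g Θ L 1 j m u ^ 2) (Set.Ioi A) :=
    fun m => (fui_int hg hΘ L hL1 1 j m A).1
  have hfo : ∑ m ∈ blk8 c K, ∫ u in Set.Ioi A, fo g Θ L 1 j m u ^ 2 ≤
      (5 * C1 * Real.exp 1000 + 3 * C2) * K := by
    rw [← integral_finsetSum _ fun m _ => hint m]
    have hsum : IntegrableOn (fun u => ∑ m ∈ blk8 c K, fo g Θ L 1 j m u ^ 2) (Set.Ioi A) :=
      integrable_finsetSum _ fun m _ => hint m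
    refine le_of_tendsto (intervalIntegral_tendsto_integral_Ioi A hsum tendsto_id) ?_
    filter_upwards [eventually_ge_atTop A] with B hB
    exact hfin B hB
  calc ∑ m ∈ blk8 c K, ∫ u in Set.Ioi A, ff g Θ L 1 j m u ^ 2
      ≤ ∑ m ∈ blk8 c K, 4 * S * ∫ u in Set.Ioi A, fo g Θ L 1 j m u ^ 2 :=
        Finset.sum_le_sum fun m _ => rse_fu2_ff hg hΘ L hL1 1 j m A
    _ = 4 * S * ∑ m ∈ blk8 c K, ∫ u in Set.Ioi A, fo g Θ L 1 j m u ^ 2 := by
        rw [Finset.mul_sum]
    _ ≤ 4 * S * ((5 * C1 * Real.exp 1000 + 3 * C2) * K) :=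
        mul_le_mul_of_nonneg_left hfo (by positivity)
    _ ≤ (4 * S * (5 * C1 * Real.exp 1000 + 3 * C2) + 1) * K := by nlinarith

end Pool.Agent.RSE

namespace Pool.Agent.RSE

alias fu2_bound := fu2_bound_pr

end Pool.Agent.RSE
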