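import Pool.Agent.Lib_helper39.RSE.Defs
import Pool.Agent.Lib_helper39.RSA.DefsB
import Pool.Agent.Lib_helper24.ABS.Endgame
import Pool.Agent.Lib_helper39.RSA.FU1
import Pool.Agent.Lib_helper39.RSA.FU2
import Pool.Agent.Lib_helper39.RSA.FUI
import Pool.Agent.Lib_helper39.RSA.KG2
import Pool.Agent.Lib_helper39.RSA.SMO2
import Pool.Agent.Lib_helper39.RSA.SOB
/-!
# FU3
-/

namespace Pool.Agent.RSE

open Complex MeasureTheory Filter Topology
open Pool.Agent.RC (cc psi rv f0 IsRC Good gm pr DD)
open scoped ContDiff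

theorem rse_fu3_cc (j : Fin 4) : 0 < cc j ∧ cc j ≤ 8 := by
  fin_cases j <;> simp [cc]

theorem rse_fu3_mem_blk {c : ℕ} {K : ℝ} {m : ℕ} (hm : m ∈ blk8 c K) :
    K ≤ (m : ℝ) ∧ (m : ℝ) < 2 * K := by
  simp only [blk8, Finset.mem_filter, Finset.mem_range] at hm
  exact ⟨hm.2.1, hm.2.2.1⟩

/-- FU3 (cites SOB, FU1, FUI, FU2). -/
theorem fu3_bound_pr {Θ : ℝ → ℝ} (hΘ : Cut Θ) {κ : ℕ} (hκ : κ ≤ 1) (i : ℕ) : ∃ C : ℝ, 0 < C ∧
    ∀ (j : Fin 4) (c : ℕ) (L K : ℝ), OC c → Par κ j c → 4 ≤ L → 1 ≤ K →
    2000 * L ≤ Real.log K → Real.log K ≤ 4000 * L →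
    (∀ v : ℝ, 0 ≤ v → v ≤ L → ∑ m ∈ blk8 c K,
      ff (gk κ i) Θ L 1 j m (v - Real.log ((cc j * m : ℕ) : ℝ) / 2) ^ 2 ≤ C * K / L) ∧
    ∑ m ∈ blk8 c K, ∫ v in Set.Ioi (0 : ℝ),
      ff (gk κ i) Θ L 1 j m (v - Real.log ((cc j * m : ℕ) : ℝ) / 2) ^ 2 ≤ C * K := by
  have hg := kern_gk hκ i
  have hg' := kern_gk hκ (i + 1)
  obtain ⟨C1, hC1, H1⟩ := fu1_bound hΘ hκ i
  obtain ⟨C1', hC1', H1'⟩ := fu1_bound hΘ hκ (i + 1)
  obtain ⟨C2, hC2, H2⟩ := fu2_bound hg hΘ
  have hder : ∀ (L : ℝ) (j : Fin 4) (m : ℕ) (x : ℝ), HasDerivAt (ff (gk κ i) Θ L 1 j m)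
      (ff (gk κ (i + 1)) Θ L 1 j m x) x := by
    intro L j m x
    have := ff_deriv hg Θ L 1 j m x
    rwa [gk_deriv hκ i] at this
  have hcont : ∀ (L : ℝ) (j : Fin 4) (m : ℕ), Continuous (ff (gk κ i) Θ L 1 j m) := by
    intro L j m
    rw [continuous_iff_continuousAt]
    exact fun x => (ff_deriv hg Θ L 1 j m x).continuousAt
  have hcont' : ∀ (L : ℝ) (j : Fin 4) (m : ℕ), Continuous (ff (gk κ (i + 1)) Θ L 1 j m) := by
    intro L j m
    rw [continuous_iff_continuousAt]
    exact fun x => (ff_deriv hg' Θ L 1 j m x).continuousAt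
  refine ⟨2 * (C1 + C1') + 1001 * C1 + C2, by positivity, ?_⟩
  intro j c L K hc hp hL hK hLK hLK2
  have hK0 : 0 < K := by linarith
  have hL0 : 0 < L := by linarith
  have hce : ce K = -(1 / 2) * Real.log K := rfl
  obtain ⟨hcc1, hcc2⟩ := rse_fu3_cc j
  have hl0 : 0 < Real.log 2 := Real.log_pos (by norm_num)
  have hl1 : Real.log 2 ≤ 0.7 := by linarith [Real.log_two_lt_d9]
  have hccl : Real.log (cc j : ℝ) ≤ 3 * Real.log 2 := by
    have h8 : Real.log (8 : ℝ) = 3 * Real.log 2 := by
      rw [show (8 : ℝ) = 2 ^ 3 by norm_num, Real.log_pow]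
      norm_num
    rw [← h8]
    apply Real.log_le_log (by exact_mod_cast hcc1)
    exact_mod_cast hcc2
  have hccl0 : 0 ≤ Real.log (cc j : ℝ) := Real.log_nonneg (by exact_mod_cast hcc1)
  have hlogm : ∀ m ∈ blk8 c K, Real.log ((cc j * m : ℕ) : ℝ) = Real.log (cc j : ℝ) + Real.log m ∧
      Real.log K ≤ Real.log m ∧ Real.log m ≤ Real.log 2 + Real.log K := by
    intro m hm
    obtain ⟨h1, h2⟩ := rse_fu3_mem_blk hm
    have hm0 : (0 : ℝ) < m := by linarith
    refine ⟨?_, Real.log_le_log hK0 h1, ?_⟩
    · push_cast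
      rw [Real.log_mul (by exact_mod_cast hcc1.ne') hm0.ne']
    · rw [← Real.log_mul two_ne_zero hK0.ne']
      exact Real.log_le_log hm0 h2.le
  constructor
  · intro v hv0 hvL
    set a : ℝ := v + ce K - Real.log (cc j : ℝ) / 2 - Real.log 2 / 2 with ha
    set l : ℝ := Real.log 2 / 2 with hl
    have hlpos : 0 < l := by positivity
    have hbd : ∀ m ∈ blk8 c K, ff (gk κ i) Θ L 1 j m (v - Real.log ((cc j * m : ℕ) : ℝ) / 2) ^ 2 ≤
        (1 / l + 1) * ∫ y in a..(a + l), (ff (gk κ i) Θ L 1 j m y ^ 2 +
          ff (gk κ (i + 1)) Θ L 1 j m y ^ 2) := by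
      intro m hm
      obtain ⟨e1, e2, e3⟩ := hlogm m hm
      apply sob_le (hder L j m) (hcont' L j m) a l _ hlpos
      · rw [e1, ha, hce, hl]
        linarith
      · rw [e1, ha, hce, hl]
        linarith
    refine (Finset.sum_le_sum hbd).trans ?_
    rw [← Finset.mul_sum, ← intervalIntegral.integral_finsetSum]
    · have hint : ∫ y in a..(a + l), ∑ m ∈ blk8 c K, (ff (gk κ i) Θ L 1 j m y ^ 2 +
          ff (gk κ (i + 1)) Θ L 1 j m y ^ 2) ≤ ∫ y in a..(a + l), ((C1 + C1') * K / L) := by
        apply intervalIntegral.integral_mono_on (by linarith)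
        · apply Continuous.intervalIntegrable
          apply continuous_finsetSum
          intro m _
          have h1 := hcont L j m
          have h2 := hcont' L j m
          fun_prop
        · exact intervalIntegrable_const
        · intro y hy
          rw [Finset.sum_add_distrib]
          have hy1 : ce K - 3 ≤ y := by
            have := hy.1
            rw [ha] at this
            linarith
          have hy2 : y ≤ ce K / 2 := by
            have := hy.2
            rw [ha, hl, hce] at this
            rw [hce]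
            linarith
          have h1 := H1 j c L K y hc hp hL hK hLK hy1 hy2
          have h2 := H1' j c L K y hc hp hL hK hLK hy1 hy2
          have e : (C1 + C1') * K / L = C1 * K / L + C1' * K / L := by ring
          rw [e]
          exact add_le_add h1 h2
      rw [intervalIntegral.integral_const] at hint
      have e2 : (a + l - a) • ((C1 + C1') * K / L) = l * ((C1 + C1') * K / L) := by
        rw [smul_eq_mul]
        ring
      rw [e2] at hint
      calc (1 / l + 1) * ∫ y in a..(a + l), ∑ m ∈ blk8 c K, (ff (gk κ i) Θ L 1 j m y ^ 2 +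
            ff (gk κ (i + 1)) Θ L 1 j m y ^ 2)
          ≤ (1 / l + 1) * (l * ((C1 + C1') * K / L)) :=
            mul_le_mul_of_nonneg_left hint (by positivity)
        _ = (1 + l) * ((C1 + C1') * K / L) := by
            field_simp
        _ ≤ 2 * ((C1 + C1') * K / L) := by
            apply mul_le_mul_of_nonneg_right _ (by positivity)
            rw [hl]
            linarith
        _ = 2 * (C1 + C1') * K / L := by ring
        _ ≤ (2 * (C1 + C1') + 1001 * C1 + C2) * K / L := by
            apply div_le_div_of_nonneg_right _ hL0.le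
            apply mul_le_mul_of_nonneg_right _ hK0.le
            linarith
    · intro m _
      apply Continuous.intervalIntegrable
      have h1 := hcont L j m
      have h2 := hcont' L j m
      fun_prop
  · have hlen : ce K - 3 ≤ ce K / 2 := by
      rw [hce]
      linarith
    have hone : ∀ m ∈ blk8 c K, ∫ v in Set.Ioi (0 : ℝ),
        ff (gk κ i) Θ L 1 j m (v - Real.log ((cc j * m : ℕ) : ℝ) / 2) ^ 2 ≤
        (∫ u in (ce K - 3)..(ce K / 2), ff (gk κ i) Θ L 1 j m u ^ 2) +
          ∫ u in Set.Ioi (ce K / 2), ff (gk κ i) Θ L 1 j m u ^ 2 := by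
      intro m hm
      obtain ⟨e1, e2, e3⟩ := hlogm m hm
      set d : ℝ := Real.log ((cc j * m : ℕ) : ℝ) / 2 with hd
      have hshift : ∫ v in Set.Ioi (0 : ℝ), ff (gk κ i) Θ L 1 j m (v - d) ^ 2 =
          ∫ u in Set.Ioi (-d), ff (gk κ i) Θ L 1 j m u ^ 2 := by
        rw [← integral_indicator measurableSet_Ioi, ← integral_indicator measurableSet_Ioi,
          ← integral_sub_right_eq_self
            ((Set.Ioi (-d)).indicator (fun u => ff (gk κ i) Θ L 1 j m u ^ 2)) d]
        congr 1
        funext v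
        by_cases hv : 0 < v
        · rw [Set.indicator_of_mem (show v ∈ Set.Ioi 0 from hv),
            Set.indicator_of_mem (show v - d ∈ Set.Ioi (-d) by
              rw [Set.mem_Ioi]
              linarith)]
        · rw [Set.indicator_of_notMem (show v ∉ Set.Ioi 0 from hv),
            Set.indicator_of_notMem (show v - d ∉ Set.Ioi (-d) by
              rw [Set.mem_Ioi]
              push Not at hv ⊢
              linarith)]
      rw [hshift]
      have hint := (fui_int hg hΘ L (by linarith) 1 j m (ce K - 3)).2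
      have h1 : ∫ u in Set.Ioi (-d), ff (gk κ i) Θ L 1 j m u ^ 2 ≤
          ∫ u in Set.Ioi (ce K - 3), ff (gk κ i) Θ L 1 j m u ^ 2 := by
        apply setIntegral_mono_set hint
        · exact Filter.Eventually.of_forall fun u => sq_nonneg _
        · apply LE.le.eventuallyLE
          apply Set.Ioi_subset_Ioi
          rw [hd, e1, hce]
          linarith
      refine h1.trans (le_of_eq ?_)
      rw [intervalIntegral.integral_of_le hlen, ← setIntegral_union]
      · rw [Set.Ioc_union_Ioi_eq_Ioi hlen]
      · rw [Set.disjoint_left]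
        intro x hx hx2
        exact absurd hx.2 (not_le.2 hx2)
      · exact measurableSet_Ioi
      · exact hint.mono_set Set.Ioc_subset_Ioi_self
      · exact hint.mono_set (Set.Ioi_subset_Ioi hlen)
    refine (Finset.sum_le_sum hone).trans ?_
    rw [Finset.sum_add_distrib]
    have h2 := H2 j c L K hc hL hK hLK hLK2
    have h1 : ∑ m ∈ blk8 c K, ∫ u in (ce K - 3)..(ce K / 2), ff (gk κ i) Θ L 1 j m u ^ 2 ≤
        1001 * C1 * K := by
      rw [← intervalIntegral.integral_finsetSum]
      · have hint : ∫ u in (ce K - 3)..(ce K / 2), ∑ m ∈ blk8 c K,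
            ff (gk κ i) Θ L 1 j m u ^ 2 ≤ ∫ u in (ce K - 3)..(ce K / 2), (C1 * K / L) := by
          apply intervalIntegral.integral_mono_on hlen
          · apply Continuous.intervalIntegrable
            apply continuous_finsetSum
            intro m _
            have h1 := hcont L j m
            fun_prop
          · exact intervalIntegrable_const
          · intro y hy
            exact H1 j c L K y hc hp hL hK hLK hy.1 hy.2
        rw [intervalIntegral.integral_const, smul_eq_mul] at hint
        refine hint.trans ?_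
        have e : 1001 * C1 * K = (1001 * L) * (C1 * K / L) := by
          field_simp
        rw [e]
        apply mul_le_mul_of_nonneg_right _ (by positivity)
        rw [hce]
        linarith
      · intro m _
        apply Continuous.intervalIntegrable
        have h1 := hcont L j m
        fun_prop
    have e3 : (2 * (C1 + C1') + 1001 * C1 + C2) * K = 2 * (C1 + C1') * K + 1001 * C1 * K + C2 * K := by
      ring
    rw [e3]
    have : 0 ≤ 2 * (C1 + C1') * K := by positivity
    linarith

end Pool.Agent.RSE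

namespace Pool.Agent.RSE

alias fu3_bound := fu3_bound_pr

end Pool.Agent.RSE
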