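import Pool.Agent.Lib_helper39.RSE.Defs
import Pool.Agent.Lib_helper39.RSA.DefsB
import Pool.Agent.Lib_helper39.RSA.KG2
import Pool.Agent.Lib_helper39.RCA.GK
import Pool.Agent.Lib_helper24.SQ.PL
/-!
# RSE, block K0T: the transform of the kernel
-/

namespace Pool.Agent.RSE

open Complex MeasureTheory Filter Topology
open Pool.Agent.RC (cc psi rv f0 IsRC Good gm pr DD)
open Pool.Agent.SQS (hat)
open scoped ContDiff

theorem rse_K0T_int (κ n : ℕ) : Integrable (iteratedDeriv n (k0 κ)) := by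
  have hc : (0 : ℝ) < 1 / 2 + κ := by positivity
  rw [rse_kg2_k0, rse_kg2_iter]
  simpa using rse_kg2_int hc le_rfl ((rse_kg2_T (1 / 2 + κ))^[n] 2)

theorem rse_K0T_deriv (κ n : ℕ) (z : ℝ) :
    HasDerivAt (iteratedDeriv n (k0 κ)) (iteratedDeriv (n + 1) (k0 κ) z) z := by
  rw [iteratedDeriv_succ]
  apply DifferentiableAt.hasDerivAt
  rw [rse_kg2_k0, rse_kg2_iter]
  exact (rse_kg2_smooth _ _).differentiable (by simp) _

theorem rse_K0T_norm (t z : ℝ) : ‖cexp (t * z * I)‖ = 1 := by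
  have := Complex.norm_exp_ofReal_mul_I (t * z)
  simpa using this

theorem rse_K0T_step (κ n : ℕ) (t : ℝ) :
    hat (fun z => ((iteratedDeriv (n + 1) (k0 κ) z : ℝ) : ℂ)) t =
      -I * t * hat (fun z => ((iteratedDeriv n (k0 κ) z : ℝ) : ℂ)) t := by
  have hcont : Continuous fun z : ℝ => cexp (t * z * I) := by fun_prop
  have hd : ∀ z : ℝ, HasDerivAt (fun z : ℝ => ((iteratedDeriv n (k0 κ) z : ℝ) : ℂ))
      ((iteratedDeriv (n + 1) (k0 κ) z : ℝ) : ℂ) z := fun z => (rse_K0T_deriv κ n z).ofReal_comp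
  have he : ∀ z : ℝ, HasDerivAt (fun z : ℝ => cexp (t * z * I)) (cexp (t * z * I) * (t * I)) z := by
    intro z
    have h := ((((hasDerivAt_id z).ofReal_comp).const_mul (t : ℂ)).mul_const I).cexp
    simpa using h
  have j0 : Integrable (fun z : ℝ => ((iteratedDeriv n (k0 κ) z : ℝ) : ℂ)) :=
    (rse_K0T_int κ n).ofReal
  have j1 : Integrable (fun z : ℝ => ((iteratedDeriv (n + 1) (k0 κ) z : ℝ) : ℂ)) :=
    (rse_K0T_int κ (n + 1)).ofReal
  have i1 : Integrable ((fun z : ℝ => cexp (t * z * I)) *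
      fun z : ℝ => ((iteratedDeriv (n + 1) (k0 κ) z : ℝ) : ℂ)) :=
    j1.bdd_mul hcont.aestronglyMeasurable
      (Filter.Eventually.of_forall fun z => (rse_K0T_norm t z).le)
  have i2 : Integrable ((fun z : ℝ => cexp (t * z * I) * (t * I)) *
      fun z : ℝ => ((iteratedDeriv n (k0 κ) z : ℝ) : ℂ)) := by
    refine j0.bdd_mul (c := ‖(t : ℂ) * I‖)
      (Continuous.aestronglyMeasurable (by fun_prop))
      (Filter.Eventually.of_forall fun z => ?_)
    rw [norm_mul, rse_K0T_norm, one_mul]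
  have i3 : Integrable ((fun z : ℝ => cexp (t * z * I)) *
      fun z : ℝ => ((iteratedDeriv n (k0 κ) z : ℝ) : ℂ)) :=
    j0.bdd_mul hcont.aestronglyMeasurable
      (Filter.Eventually.of_forall fun z => (rse_K0T_norm t z).le)
  have hp := MeasureTheory.integral_mul_deriv_eq_deriv_mul_of_integrable
    (fun z _ => he z) (fun z _ => hd z) i1 i2 i3
  unfold hat
  have e1 : ∫ v : ℝ, ((iteratedDeriv (n + 1) (k0 κ) v : ℝ) : ℂ) * cexp (t * v * I) =
      ∫ v : ℝ, cexp (t * v * I) * ((iteratedDeriv (n + 1) (k0 κ) v : ℝ) : ℂ) :=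
    integral_congr_ae (Filter.Eventually.of_forall fun v => mul_comm _ _)
  rw [e1, hp, ← integral_const_mul, ← integral_neg]
  refine integral_congr_ae (Filter.Eventually.of_forall fun v => ?_)
  simp only
  ring

theorem rse_K0T_one {κ : ℕ} (hκ : κ ≤ 1) (t : ℝ) :
    hat (fun z => ((iteratedDeriv 1 (k0 κ) z : ℝ) : ℂ)) t = -I * t * gm κ t := by
  rw [← Pool.Agent.RC.rc_gk_transform hκ t]
  unfold hat
  refine integral_congr_ae (Filter.Eventually.of_forall fun v => ?_)
  have h : iteratedDeriv 1 (k0 κ) v = Pool.Agent.RC.k1 κ v := by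
    rw [iteratedDeriv_one]
    exact (Pool.Agent.RC.rc_gk_deriv κ v).deriv
  simp only [h]

/-- K0T: the transform of the kernel. -/
theorem k0_hat_pr {κ : ℕ} (hκ : κ ≤ 1) : (∀ i : ℕ, Integrable (fun z => (gk κ i z : ℂ))) ∧
    ∀ t : ℝ, hat (fun z => (gk κ 0 z : ℂ)) t = I * t * (t ^ 2 + 1 / 4) * gm κ t := by
  constructor
  · intro i
    exact ((rse_K0T_int κ (i + 3)).sub ((rse_K0T_int κ (i + 1)).const_mul (1 / 4))).ofReal
  · intro t
    have hcont : Continuous fun z : ℝ => cexp (t * z * I) := by fun_prop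
    have hI : ∀ n, Integrable (fun z : ℝ =>
        ((iteratedDeriv n (k0 κ) z : ℝ) : ℂ) * cexp (t * z * I)) := by
      intro n
      have := ((rse_K0T_int κ n).ofReal (𝕜 := ℂ)).bdd_mul hcont.aestronglyMeasurable
        (Filter.Eventually.of_forall fun z => (rse_K0T_norm t z).le)
      refine this.congr (Filter.Eventually.of_forall fun z => ?_)
      simp only [RCLike.ofReal_eq_complex_ofReal]
      exact mul_comm _ _
    have h1 : hat (fun z => (gk κ 0 z : ℂ)) t =
        hat (fun z => ((iteratedDeriv 3 (k0 κ) z : ℝ) : ℂ)) t -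
          1 / 4 * hat (fun z => ((iteratedDeriv 1 (k0 κ) z : ℝ) : ℂ)) t := by
      unfold hat
      rw [← integral_const_mul, ← integral_sub (hI 3) ((hI 1).const_mul _)]
      refine integral_congr_ae (Filter.Eventually.of_forall fun z => ?_)
      simp only [gk]
      push_cast
      ring
    rw [h1, rse_K0T_step, rse_K0T_step, rse_K0T_one hκ]
    linear_combination (I * t * (t ^ 2) * gm κ t) * (-1 : ℂ) * Complex.I_sq
end Pool.Agent.RSE

namespace Pool.Agent.RSE

alias k0_hat := k0_hat_pr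

end Pool.Agent.RSE
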