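import Pool.Agent.Lib_helper39.RSE.Defs
import Pool.Agent.Lib_helper39.RSA.DefsB
import Pool.Agent.Lib_helper24.ABS.Endgame
import Pool.Agent.Lib_helper39.RSA.K0T
import Pool.Agent.Lib_helper39.RSA.KG2
/-!
# RSE, block GLO: the density of the main term
-/

namespace Pool.Agent.RSE

open Complex MeasureTheory Filter Topology
open Pool.Agent.RC (cc psi rv f0 IsRC Good gm pr DD)
open Pool.Agent.ABS (Nice LData Piece oddZ)
open Pool.Agent.SQS (hat)
open scoped ContDiff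

theorem rse_glo_expint : Integrable (fun u : ℝ => Real.exp (-|u| / 4)) := by
  have h1 : IntegrableOn (fun u : ℝ => Real.exp (-|u| / 4)) (Set.Iic 0) := by
    refine (integrableOn_exp_mul_Iic (a := 1 / 4) (by norm_num) 0).congr_fun ?_ measurableSet_Iic
    intro u hu
    have hu' : u ≤ 0 := hu
    show Real.exp (1 / 4 * u) = Real.exp (-|u| / 4)
    rw [abs_of_nonpos hu']
    congr 1
    ring
  have h2 : IntegrableOn (fun u : ℝ => Real.exp (-|u| / 4)) (Set.Ioi 0) := by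
    refine (integrableOn_exp_mul_Ioi (a := -(1 / 4)) (by norm_num) 0).congr_fun ?_ measurableSet_Ioi
    intro u hu
    have hu' : 0 < u := hu
    show Real.exp (-(1 / 4) * u) = Real.exp (-|u| / 4)
    rw [abs_of_pos hu']
    congr 1
    ring
  rw [← integrableOn_univ, ← Set.Iic_union_Ioi (a := (0 : ℝ))]
  exact h1.union h2

theorem rse_glo_g {g : ℝ → ℝ} (hg : Kern g) : ∃ C : ℝ, 0 ≤ C ∧
    ∀ z : ℝ, |g z| ≤ C * Real.exp (-|z|) := by
  obtain ⟨C1, h1⟩ := hg.fast 0 2 (by norm_num)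
  obtain ⟨C2, h2⟩ := hg.fast 0 (-1) (by norm_num)
  simp only [iteratedDeriv_zero] at h1 h2
  have p1 : 0 ≤ C1 := by
    have := h1 0
    simp only [mul_zero, Real.exp_zero, mul_one] at this
    exact (abs_nonneg _).trans this
  have p2 : 0 ≤ C2 := by
    have := h2 0
    simp only [mul_zero, Real.exp_zero, mul_one] at this
    exact (abs_nonneg _).trans this
  refine ⟨C1 + C2, by linarith, fun z => ?_⟩
  have e0 := Real.exp_pos (-|z|)
  rcases le_total 0 z with hz | hz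
  · rw [abs_of_nonneg hz] at e0 ⊢
    have e1 : Real.exp (-2 * z) ≤ Real.exp (-z) := Real.exp_le_exp.mpr (by linarith)
    calc |g z| ≤ C1 * Real.exp (-2 * z) := h1 z
      _ ≤ C1 * Real.exp (-z) := mul_le_mul_of_nonneg_left e1 p1
      _ ≤ (C1 + C2) * Real.exp (-z) := by nlinarith
  · rw [abs_of_nonpos hz] at e0 ⊢
    rw [neg_neg] at e0 ⊢
    calc |g z| ≤ C2 * Real.exp (-(-1) * z) := h2 z
      _ = C2 * Real.exp z := by rw [neg_neg, one_mul]
      _ ≤ (C1 + C2) * Real.exp z := by nlinarith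

/-- `∑_a e^a 2^{-a/2} g(u + a log 2)` -/
noncomputable def rse_glo_ga (g : ℝ → ℝ) (e : ℤ) (u : ℝ) : ℝ :=
  ∑' a : ℕ, (e : ℝ) ^ a * (2 : ℝ) ^ (-(a : ℝ) / 2) * g (u + a * Real.log 2)

theorem rse_glo_two (a : ℕ) : (2 : ℝ) ^ (-(a : ℝ) / 2) = Real.exp (-(Real.log 2 / 2)) ^ a := by
  rw [← Real.exp_nat_mul, Real.rpow_def_of_pos (by norm_num)]
  congr 1
  ring

theorem rse_glo_term {g : ℝ → ℝ} {C : ℝ} (hC : 0 ≤ C) (hg : ∀ z : ℝ, |g z| ≤ C * Real.exp (-|z|))
    {e : ℤ} (he : |(e : ℝ)| ≤ 1) (u : ℝ) (a : ℕ) :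
    |(e : ℝ) ^ a * (2 : ℝ) ^ (-(a : ℝ) / 2) * g (u + a * Real.log 2)| ≤
      C * Real.exp (-|u| / 4) * Real.exp (-(Real.log 2 / 4)) ^ a := by
  have hl : 0 ≤ Real.log 2 := Real.log_nonneg (by norm_num)
  rw [abs_mul, abs_mul, abs_pow, rse_glo_two, abs_of_pos (pow_pos (Real.exp_pos _) a)]
  have h1 : |(e : ℝ)| ^ a ≤ 1 := pow_le_one₀ (abs_nonneg _) he
  have h2 := hg (u + a * Real.log 2)
  have h3 : |u| ≤ |u + a * Real.log 2| + a * Real.log 2 := by
    have h4 := abs_sub_abs_le_abs_sub u (-(a * Real.log 2))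
    rw [abs_neg, sub_neg_eq_add, abs_of_nonneg (by positivity : (0 : ℝ) ≤ a * Real.log 2)] at h4
    linarith
  calc |(e : ℝ)| ^ a * Real.exp (-(Real.log 2 / 2)) ^ a * |g (u + a * Real.log 2)|
      ≤ 1 * Real.exp (-(Real.log 2 / 2)) ^ a * (C * Real.exp (-|u + a * Real.log 2|)) := by
        gcongr
    _ = C * Real.exp (a * (-(Real.log 2 / 2)) + -|u + a * Real.log 2|) := by
        rw [Real.exp_add, Real.exp_nat_mul]
        ring
    _ ≤ C * Real.exp (-|u| / 4 + a * (-(Real.log 2 / 4))) := by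
        refine mul_le_mul_of_nonneg_left (Real.exp_le_exp.mpr ?_) hC
        have h5 : (0 : ℝ) ≤ a * Real.log 2 := by positivity
        have h6 := abs_nonneg (u + a * Real.log 2)
        linarith
    _ = C * Real.exp (-|u| / 4) * Real.exp (-(Real.log 2 / 4)) ^ a := by
        rw [Real.exp_add, Real.exp_nat_mul]
        ring

theorem rse_glo_r : Real.exp (-(Real.log 2 / 4)) < 1 := by
  rw [Real.exp_lt_one_iff]
  have := Real.log_pos (show (1 : ℝ) < 2 by norm_num)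
  linarith

theorem rse_glo_r2 : Real.exp (-(Real.log 2 / 2)) < 1 := by
  rw [Real.exp_lt_one_iff]
  have := Real.log_pos (show (1 : ℝ) < 2 by norm_num)
  linarith

theorem rse_glo_cont {g : ℝ → ℝ} (hg : Kern g) {e : ℤ} (he : |(e : ℝ)| ≤ 1) :
    Continuous (rse_glo_ga g e) := by
  obtain ⟨C, hC, hb⟩ := rse_glo_g hg
  have hgc : Continuous g := hg.smooth.continuous
  unfold rse_glo_ga
  refine continuous_tsum (u := fun a => C * Real.exp (-(Real.log 2 / 4)) ^ a) ?_ ?_ ?_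
  · intro a
    exact continuous_const.mul (hgc.comp (by fun_prop))
  · exact (summable_geometric_of_lt_one (Real.exp_pos _).le rse_glo_r).mul_left C
  · intro a u
    rw [Real.norm_eq_abs]
    refine (rse_glo_term hC hb he u a).trans ?_
    refine mul_le_mul_of_nonneg_right ?_ (pow_nonneg (Real.exp_pos _).le a)
    have : Real.exp (-|u| / 4) ≤ 1 := by
      rw [Real.exp_le_one_iff]
      have := abs_nonneg u
      linarith
    nlinarith

theorem rse_glo_bd {g : ℝ → ℝ} (hg : Kern g) : ∃ D : ℝ, 0 ≤ D ∧ ∀ (e : ℤ), |(e : ℝ)| ≤ 1 →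
    ∀ u : ℝ, |rse_glo_ga g e u| ≤ D * Real.exp (-|u| / 4) := by
  obtain ⟨C, hC, hb⟩ := rse_glo_g hg
  have hr := rse_glo_r
  refine ⟨C * (1 - Real.exp (-(Real.log 2 / 4)))⁻¹, by
    have : 0 < 1 - Real.exp (-(Real.log 2 / 4)) := by linarith
    positivity, fun e he u => ?_⟩
  have hs : HasSum (fun a : ℕ => C * Real.exp (-|u| / 4) * Real.exp (-(Real.log 2 / 4)) ^ a)
      (C * Real.exp (-|u| / 4) * (1 - Real.exp (-(Real.log 2 / 4)))⁻¹) :=
    (hasSum_geometric_of_lt_one (Real.exp_pos _).le hr).mul_left _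
  have h := tsum_of_norm_bounded hs (f := fun a : ℕ => (e : ℝ) ^ a * (2 : ℝ) ^ (-(a : ℝ) / 2) *
    g (u + a * Real.log 2)) fun a => by
      rw [Real.norm_eq_abs]
      exact rse_glo_term hC hb he u a
  unfold rse_glo_ga
  rw [Real.norm_eq_abs] at h
  refine h.trans (le_of_eq ?_)
  ring

theorem rse_glo_nice {g : ℝ → ℝ} (hg : Kern g) {e : ℤ} (he : |(e : ℝ)| ≤ 1) :
    Nice (fun u => (rse_glo_ga g e u : ℂ)) := by
  obtain ⟨D, hD, hb⟩ := rse_glo_bd hg
  have hc : Continuous (fun u => (rse_glo_ga g e u : ℂ)) :=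
    Complex.continuous_ofReal.comp (rse_glo_cont hg he)
  have hn : ∀ u : ℝ, ‖(rse_glo_ga g e u : ℂ)‖ ≤ D * Real.exp (-|u| / 4) := by
    intro u
    rw [Complex.norm_real, Real.norm_eq_abs]
    exact hb e he u
  refine ⟨hc.measurable, ?_, D, fun u => ?_⟩
  · exact (rse_glo_expint.const_mul D).mono' hc.aestronglyMeasurable (ae_of_all _ hn)
  · refine (hn u).trans ?_
    have : Real.exp (-|u| / 4) ≤ 1 := by
      rw [Real.exp_le_one_iff]
      have := abs_nonneg u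
      linarith
    nlinarith

theorem rse_glo_rv2 (j : Fin 4) (m : ℕ) : rv j m 2 = 0 ∨ rv j m 2 = 1 ∨ rv j m 2 = -1 := by
  unfold Pool.Agent.RC.rv
  have h1 : psi j 2 = 0 ∨ psi j 2 = 1 := by
    fin_cases j
    · right; rfl
    · left; decide
    · left; decide
    · left; decide
  have h2 := jacobiSym.trichotomy ((2 : ℕ) : ℤ) m
  rcases h1 with h1 | h1 <;> rcases h2 with h2 | h2 | h2 <;> rw [h1, h2] <;> simp

theorem rse_glo_abs (j : Fin 4) (m : ℕ) : |((rv j m 2 : ℤ) : ℝ)| ≤ 1 := by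
  rcases rse_glo_rv2 j m with h | h | h <;> rw [h] <;> simp

theorem rse_glo_pow (j : Fin 4) (m a : ℕ) : rv j m (2 ^ a) = rv j m 2 ^ a := by
  unfold Pool.Agent.RC.rv
  have h1 : psi j (2 ^ a) = psi j 2 ^ a := by
    fin_cases j <;> simp [Pool.Agent.RC.psi, map_pow]
  rw [h1, mul_pow, Nat.cast_pow, jacobiSym.pow_left]

theorem rse_glo_eq (g : ℝ → ℝ) (j : Fin 4) (m : ℕ) : gA g j m = rse_glo_ga g (rv j m 2) := by
  funext u
  unfold gA rse_glo_ga
  refine tsum_congr fun a => ?_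
  rw [rse_glo_pow]
  push_cast
  rfl

theorem ga_nice_pr {g : ℝ → ℝ} (hg : Kern g) (j : Fin 4) (m : ℕ) :
    Nice (fun u => (gA g j m u : ℂ)) := by
  rw [rse_glo_eq]
  exact rse_glo_nice hg (rse_glo_abs j m)

theorem rse_glo_hat {g : ℝ → ℝ} (hg : Kern g) {e : ℤ} (he : |(e : ℝ)| ≤ 1) (t : ℝ)
    (h0 : hat (fun z => (g z : ℂ)) t ≠ 0) :
    hat (fun u => (rse_glo_ga g e u : ℂ)) t ≠ 0 := by
  obtain ⟨C, hC, hb⟩ := rse_glo_g hg
  have hgc : Continuous g := hg.smooth.continuous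
  have hgi : Integrable (fun z => (g z : ℂ)) := by
    refine (rse_glo_expint.const_mul C).mono'
      (Complex.continuous_ofReal.comp hgc).aestronglyMeasurable (ae_of_all _ fun z => ?_)
    rw [Complex.norm_real, Real.norm_eq_abs]
    refine (hb z).trans (mul_le_mul_of_nonneg_left (Real.exp_le_exp.mpr ?_) hC)
    have := abs_nonneg z
    linarith
  set w : ℂ := ((e : ℝ) : ℂ) * ((Real.exp (-(Real.log 2 / 2)) : ℝ) : ℂ) *
    cexp (-(t * Real.log 2 * I)) with hw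
  have hwn : ‖w‖ < 1 := by
    rw [hw, norm_mul, norm_mul, Complex.norm_real, Complex.norm_real, Real.norm_eq_abs,
      Real.norm_eq_abs, abs_of_pos (Real.exp_pos _),
      show (-(t * Real.log 2 * I) : ℂ) = ((-(t * Real.log 2) : ℝ) : ℂ) * I by push_cast; ring,
      Complex.norm_exp_ofReal_mul_I, mul_one]
    calc |(e : ℝ)| * Real.exp (-(Real.log 2 / 2)) ≤ 1 * Real.exp (-(Real.log 2 / 2)) :=
          mul_le_mul_of_nonneg_right he (Real.exp_pos _).le
      _ < 1 := by rw [one_mul]; exact rse_glo_r2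
  set F : ℕ → ℝ → ℂ := fun a u => (((e : ℝ) ^ a * (2 : ℝ) ^ (-(a : ℝ) / 2) : ℝ) : ℂ) *
    ((g (u + a * Real.log 2) : ℂ) * cexp (t * u * I)) with hF
  have hshift : ∀ a : ℕ, Integrable (fun u : ℝ => (g (u + a * Real.log 2) : ℂ)) := fun a =>
    hgi.comp_add_right (a * Real.log 2)
  have hFi : ∀ a, Integrable (F a) := fun a =>
    (Pool.Agent.ABS.hat_integrable (hshift a) t).const_mul _
  have hFv : ∀ a, ∫ u, F a u = w ^ a * hat (fun z => (g z : ℂ)) t := by
    intro a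
    rw [hF]
    beta_reduce
    rw [integral_const_mul]
    have h1 := Pool.Agent.ABS.hat_shift (fun z => (g z : ℂ)) (a * Real.log 2) t
    have h2 : ∫ u : ℝ, (g (u + a * Real.log 2) : ℂ) * cexp (t * u * I) =
      hat (fun u => (g (u + a * Real.log 2) : ℂ)) t := rfl
    rw [h2, h1, rse_glo_two, hw, mul_pow, mul_pow, ← Complex.exp_nat_mul]
    push_cast
    rw [show (-((t : ℂ) * (a * (Real.log 2 : ℂ)) * I) : ℂ) = a * (-(t * (Real.log 2 : ℂ) * I)) by ring]
    ring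
  have hFn : ∀ a, ∫ u, ‖F a u‖ ≤ Real.exp (-(Real.log 2 / 2)) ^ a * ∫ u, ‖(g u : ℂ)‖ := by
    intro a
    have e1 : ∀ u, ‖F a u‖ = |(e : ℝ) ^ a * (2 : ℝ) ^ (-(a : ℝ) / 2)| *
        ‖(g (u + a * Real.log 2) : ℂ)‖ := by
      intro u
      rw [hF]
      beta_reduce
      rw [norm_mul, norm_mul, Pool.Agent.ABS.expI_norm, mul_one, Complex.norm_real,
        Real.norm_eq_abs]
    rw [show (fun u => ‖F a u‖) = fun u => |(e : ℝ) ^ a * (2 : ℝ) ^ (-(a : ℝ) / 2)| *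
        ‖(g (u + a * Real.log 2) : ℂ)‖ from funext e1, integral_const_mul,
      integral_add_right_eq_self (fun u => ‖(g u : ℂ)‖) (a * Real.log 2)]
    refine mul_le_mul_of_nonneg_right ?_ (integral_nonneg fun u => norm_nonneg _)
    rw [abs_mul, abs_pow, rse_glo_two, abs_of_pos (pow_pos (Real.exp_pos _) a)]
    have h1 : |(e : ℝ)| ^ a ≤ 1 := pow_le_one₀ (abs_nonneg _) he
    have h2 : 0 < Real.exp (-(Real.log 2 / 2)) ^ a := pow_pos (Real.exp_pos _) a
    nlinarith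
  have hsum : Summable fun a => ∫ u, ‖F a u‖ := by
    refine Summable.of_nonneg_of_le (fun a => integral_nonneg fun u => norm_nonneg _) hFn ?_
    exact (summable_geometric_of_lt_one (Real.exp_pos _).le rse_glo_r2).mul_right _
  have key := hasSum_integral_of_summable_integral_norm hFi hsum
  have e2 : (∫ u, ∑' a, F a u) = hat (fun u => (rse_glo_ga g e u : ℂ)) t := by
    unfold Pool.Agent.SQS.hat
    refine integral_congr_ae (ae_of_all _ fun u => ?_)
    beta_reduce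
    unfold rse_glo_ga
    rw [Complex.ofReal_tsum, ← tsum_mul_right]
    refine tsum_congr fun a => ?_
    rw [hF]
    push_cast
    ring
  have e3 : HasSum (fun a => ∫ u, F a u) ((1 - w)⁻¹ * hat (fun z => (g z : ℂ)) t) := by
    have := (hasSum_geometric_of_norm_lt_one hwn).mul_right (hat (fun z => (g z : ℂ)) t)
    exact this.congr_fun fun a => (hFv a)
  rw [← e2, ← key.tsum_eq, e3.tsum_eq]
  refine mul_ne_zero (inv_ne_zero ?_) h0
  intro h1
  have h2 : w = 1 := (sub_eq_zero.mp h1).symm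
  rw [h2, norm_one] at hwn
  exact lt_irrefl _ hwn

theorem rse_glo_low {F : ℝ → ℂ} (hF : Continuous F) {a b : ℝ}
    (h : ∀ t, a ≤ t → t ≤ b → F t ≠ 0) : ∃ c H : ℝ, 0 < c ∧ 0 < H ∧ ∀ t H' : ℝ, a ≤ t → t ≤ b →
      0 ≤ H' → H' ≤ H → c * H' ≤ ‖∫ s in t..(t + H'), F s‖ := by
  by_cases hab : a ≤ b
  · obtain ⟨t0, ht0, hmin⟩ := (isCompact_Icc (a := a) (b := b)).exists_isMinOn
      (Set.nonempty_Icc.mpr hab) hF.norm.continuousOn
    set m : ℝ := ‖F t0‖ with hm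
    have hmpos : 0 < m := norm_pos_iff.mpr (h t0 ht0.1 ht0.2)
    have huc := (isCompact_Icc (a := a) (b := b + 1)).uniformContinuousOn_of_continuous
      hF.continuousOn
    rw [Metric.uniformContinuousOn_iff] at huc
    obtain ⟨δ, hδ, hd⟩ := huc (m / 2) (by linarith)
    refine ⟨m / 2, min (δ / 2) 1, by linarith, by positivity, fun t H' h1 h2 h3 h4 => ?_⟩
    have h5 : H' ≤ δ / 2 := h4.trans (min_le_left _ _)
    have h6 : H' ≤ 1 := h4.trans (min_le_right _ _)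
    have hle : t ≤ t + H' := by linarith
    have hmt : m ≤ ‖F t‖ := hmin ⟨h1, h2⟩
    have e1 : ∫ s in t..(t + H'), F s = (∫ s in t..(t + H'), (F s - F t)) + (H' : ℂ) * F t := by
      rw [intervalIntegral.integral_sub (hF.intervalIntegrable _ _)
        (continuous_const.intervalIntegrable _ _), intervalIntegral.integral_const]
      have : (t + H' - t) = H' := by ring
      rw [this, Complex.real_smul]
      ring
    have e2 : ‖∫ s in t..(t + H'), (F s - F t)‖ ≤ m / 2 * |t + H' - t| := by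
      refine intervalIntegral.norm_integral_le_of_norm_le_const fun s hs => ?_
      rw [Set.uIoc_of_le hle] at hs
      have := hd s ⟨by linarith [hs.1], by linarith [hs.2]⟩ t ⟨h1, by linarith⟩ (by
        rw [Real.dist_eq, abs_of_nonneg (by linarith [hs.1])]
        linarith [hs.2])
      rw [dist_eq_norm] at this
      exact this.le
    rw [show t + H' - t = H' by ring, abs_of_nonneg h3] at e2
    have e3 : ‖(H' : ℂ) * F t‖ = H' * ‖F t‖ := by
      rw [norm_mul, Complex.norm_real, Real.norm_eq_abs, abs_of_nonneg h3]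
    have e4 : ‖(H' : ℂ) * F t‖ ≤ ‖∫ s in t..(t + H'), F s‖ +
        ‖∫ s in t..(t + H'), (F s - F t)‖ := by
      have : (H' : ℂ) * F t = (∫ s in t..(t + H'), F s) - ∫ s in t..(t + H'), (F s - F t) := by
        rw [e1]; ring
      rw [this]
      exact norm_sub_le _ _
    rw [e3] at e4
    have e5 : H' * m ≤ H' * ‖F t‖ := mul_le_mul_of_nonneg_left hmt h3
    linarith
  · refine ⟨1, 1, one_pos, one_pos, fun t H' h1 h2 => ?_⟩
    exact absurd (h1.trans h2) hab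

theorem rse_glo_gk {κ : ℕ} (hκ : κ ≤ 1) {t : ℝ} (ht : t ≠ 0) :
    hat (fun z => (gk κ 0 z : ℂ)) t ≠ 0 := by
  rw [(k0_hat hκ).2 t]
  have h1 : (t : ℂ) ≠ 0 := Complex.ofReal_ne_zero.mpr ht
  have h2 : ((t : ℂ) ^ 2 + 1 / 4) ≠ 0 := by
    have : ((t : ℂ) ^ 2 + 1 / 4) = ((t ^ 2 + 1 / 4 : ℝ) : ℂ) := by push_cast; ring
    rw [this]
    exact Complex.ofReal_ne_zero.mpr (by positivity)
  have h3 : gm κ t ≠ 0 := by
    unfold Pool.Agent.RC.gm
    refine Complex.Gammaℝ_ne_zero_of_re_pos ?_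
    have : (1 / 2 + (κ : ℂ) + t * I) = ((1 / 2 + κ : ℝ) : ℂ) + (t : ℂ) * I := by push_cast; ring
    rw [this, Complex.add_re, Complex.ofReal_re, Complex.re_ofReal_mul, Complex.I_re, mul_zero,
      add_zero]
    positivity
  exact mul_ne_zero (mul_ne_zero (mul_ne_zero I_ne_zero h1) h2) h3

theorem glow_bound_pr {κ : ℕ} (hκ : κ ≤ 1) {a b : ℝ} (h0 : 0 < a ∨ b < 0) : ∃ c₀ H₀ E : ℝ,
    0 < c₀ ∧ 0 < H₀ ∧ 0 ≤ E ∧ ∀ (j : Fin 4) (m : ℕ),
    (∀ t H : ℝ, a ≤ t → t ≤ b → 0 ≤ H → H ≤ H₀ →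
      c₀ * H ≤ ‖∫ s in t..(t + H), hat (fun u => (gA (gk κ 0) j m u : ℂ)) s‖) ∧
    ∫ u : ℝ, ‖(gA (gk κ 0) j m u : ℂ)‖ ^ 2 ≤ E := by
  have hg := kern_gk hκ 0
  have key : ∀ e : ℤ, |(e : ℝ)| ≤ 1 → ∃ c H : ℝ, 0 < c ∧ 0 < H ∧ ∀ t H' : ℝ, a ≤ t → t ≤ b →
      0 ≤ H' → H' ≤ H →
      c * H' ≤ ‖∫ s in t..(t + H'), hat (fun u => (rse_glo_ga (gk κ 0) e u : ℂ)) s‖ := by
    intro e he
    refine rse_glo_low (Pool.Agent.ABS.continuous_hat (rse_glo_nice hg he).int) fun t h1 h2 => ?_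
    refine rse_glo_hat hg he t (rse_glo_gk hκ ?_)
    rcases h0 with h0 | h0
    · exact (lt_of_lt_of_le h0 h1).ne'
    · exact (lt_of_le_of_lt h2 h0).ne
  obtain ⟨c1, H1, hc1, hH1, k1⟩ := key 0 (by simp)
  obtain ⟨c2, H2, hc2, hH2, k2⟩ := key 1 (by simp)
  obtain ⟨c3, H3, hc3, hH3, k3⟩ := key (-1) (by simp)
  set I2 : ℤ → ℝ := fun e => ∫ u : ℝ, ‖(rse_glo_ga (gk κ 0) e u : ℂ)‖ ^ 2 with hI2
  have hI0 : ∀ e, 0 ≤ I2 e := fun e => integral_nonneg fun u => by positivity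
  refine ⟨min c1 (min c2 c3), min H1 (min H2 H3), I2 0 + I2 1 + I2 (-1), by positivity,
    by positivity, by linarith [hI0 0, hI0 1, hI0 (-1)], fun j m => ?_⟩
  have m1 : min c1 (min c2 c3) ≤ c1 := min_le_left _ _
  have m2 : min c1 (min c2 c3) ≤ c2 := (min_le_right _ _).trans (min_le_left _ _)
  have m3 : min c1 (min c2 c3) ≤ c3 := (min_le_right _ _).trans (min_le_right _ _)
  have n1 : min H1 (min H2 H3) ≤ H1 := min_le_left _ _
  have n2 : min H1 (min H2 H3) ≤ H2 := (min_le_right _ _).trans (min_le_left _ _)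
  have n3 : min H1 (min H2 H3) ≤ H3 := (min_le_right _ _).trans (min_le_right _ _)
  rw [rse_glo_eq]
  rcases rse_glo_rv2 j m with h | h | h
  · rw [h]
    refine ⟨fun t H ht1 ht2 hH hH' => ?_, ?_⟩
    · exact (mul_le_mul_of_nonneg_right m1 hH).trans (k1 t H ht1 ht2 hH (hH'.trans n1))
    · show I2 0 ≤ _
      linarith [hI0 0, hI0 1, hI0 (-1)]
  · rw [h]
    refine ⟨fun t H ht1 ht2 hH hH' => ?_, ?_⟩
    · exact (mul_le_mul_of_nonneg_right m2 hH).trans (k2 t H ht1 ht2 hH (hH'.trans n2))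
    · show I2 1 ≤ _
      linarith [hI0 0, hI0 1, hI0 (-1)]
  · rw [h]
    refine ⟨fun t H ht1 ht2 hH hH' => ?_, ?_⟩
    · exact (mul_le_mul_of_nonneg_right m3 hH).trans (k3 t H ht1 ht2 hH (hH'.trans n3))
    · show I2 (-1) ≤ _
      linarith [hI0 0, hI0 1, hI0 (-1)]

end Pool.Agent.RSE

namespace Pool.Agent.RSE

alias ga_nice := ga_nice_pr

alias glow_bound := glow_bound_pr

end Pool.Agent.RSE
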