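import Pool.Agent.Lib_helper39.RSE.Defs
import Pool.Agent.Lib_helper39.RSA.DefsB
import Pool.Agent.Lib_helper24.ABS.Endgame
import Pool.Agent.Lib_helper39.RSA.FEK
/-!
# Block REPK of RSE (helper50)
-/

namespace Pool.Agent.RSE

open Complex MeasureTheory Filter Topology
open Pool.Agent.RC (cc psi rv f0 IsRC Good gm pr DD)
open Pool.Agent.ABS (Nice LData Piece oddZ)
open Pool.Agent.SQS (hat)
open scoped ContDiff

theorem rse_repk_bd {κ : ℕ} (hκ : κ ≤ 1) (n : ℕ) :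
    ∃ C : ℝ, ∀ z : ℝ, |iteratedDeriv n (k0 κ) z| ≤ C * Real.exp (-(2 * z)) := by
  rw [rse_fek_iter]
  obtain ⟨C, -, hC⟩ := rse_fek_K_bd hκ ((rse_fek_T κ)^[n] (Polynomial.C 2))
  exact ⟨C, hC⟩

theorem rse_repk_d (κ n : ℕ) (z : ℝ) : HasDerivAt (iteratedDeriv n (k0 κ))
    (iteratedDeriv (n + 1) (k0 κ) z) z := by
  rw [rse_fek_iter, rse_fek_iter, Function.iterate_succ_apply']
  exact rse_fek_K_deriv κ _ z

theorem rse_repk_D {κ : ℕ} (hκ : κ ≤ 1) (j : Fin 4) (m n : ℕ) (u : ℝ) :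
    HasDerivAt (DF (iteratedDeriv n (k0 κ)) j m)
      (DF (iteratedDeriv (n + 1) (k0 κ)) j m u) u := by
  obtain ⟨C, hC⟩ := rse_repk_bd hκ n
  obtain ⟨C', hC'⟩ := rse_repk_bd hκ (n + 1)
  exact rse_fek_df_deriv (rse_repk_d κ n) hC hC' j m u

theorem rse_repk_fe {κ : ℕ} {j : Fin 4} {m : ℕ} (hm : 2 ≤ m)
    {χ : DirichletCharacter ℂ (cc j * m)} (h : IsRC κ j m χ) :
    ∃ w : ℝ, |w| = 1 ∧ ∀ (n : ℕ) (u : ℝ),
      DF (iteratedDeriv n (k0 κ)) j m (-Real.log ((cc j * m : ℕ) : ℝ) - u) =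
        (-1) ^ n * w * DF (iteratedDeriv n (k0 κ)) j m u := by
  have hκ : κ ≤ 1 := by
    rcases h.2.2 with ⟨h, -⟩ | ⟨h, -⟩ <;> omega
  have hcm : cc j * m ≠ 0 := by
    have hc : 1 ≤ cc j := by fin_cases j <;> simp [cc]
    have : 1 * 2 ≤ cc j * m := Nat.mul_le_mul hc hm
    omega
  have : NeZero (cc j * m) := ⟨hcm⟩
  obtain ⟨w, hw, hfe⟩ := rse_fek_fe0 hm χ h
  set L : ℝ := Real.log ((cc j * m : ℕ) : ℝ) with hL
  have hfe' : ∀ u : ℝ, DF (k0 κ) j m (-L - u) = w * DF (k0 κ) j m u := by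
    intro u
    rw [rse_fek_DD j hm, rse_fek_DD j hm]
    exact hfe u
  have hD : ∀ (n : ℕ) (u : ℝ), HasDerivAt (DF (iteratedDeriv n (k0 κ)) j m)
      (DF (iteratedDeriv (n + 1) (k0 κ)) j m u) u := rse_repk_D hκ j m
  refine ⟨w, hw, fun n => ?_⟩
  induction n with
  | zero =>
    intro u
    rw [iteratedDeriv_zero, pow_zero, one_mul]
    exact hfe' u
  | succ n ih =>
    intro u
    have h1 : HasDerivAt (fun u => DF (iteratedDeriv n (k0 κ)) j m (-L - u))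
        (-DF (iteratedDeriv (n + 1) (k0 κ)) j m (-L - u)) u := by
      have h2 : HasDerivAt (fun u : ℝ => -L - u) (-1) u := by
        simpa using (hasDerivAt_id u).const_sub (-L)
      have h3 := (hD n (-L - u)).comp u h2
      simpa [Function.comp_def] using h3
    have h2 : HasDerivAt (fun u => (-1) ^ n * w * DF (iteratedDeriv n (k0 κ)) j m u)
        ((-1) ^ n * w * DF (iteratedDeriv (n + 1) (k0 κ)) j m u) u := (hD n u).const_mul _
    have h3 : (fun u => DF (iteratedDeriv n (k0 κ)) j m (-L - u)) =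
        fun u => (-1) ^ n * w * DF (iteratedDeriv n (k0 κ)) j m u := funext ih
    rw [h3] at h1
    have h4 := h1.unique h2
    rw [pow_succ]
    linarith

theorem rse_repk_sum {κ : ℕ} (hκ : κ ≤ 1) (j : Fin 4) (m i : ℕ) (u : ℝ) :
    DF (gk κ i) j m u = DF (iteratedDeriv (i + 3) (k0 κ)) j m u -
      1 / 4 * DF (iteratedDeriv (i + 1) (k0 κ)) j m u := by
  obtain ⟨C, hC⟩ := rse_repk_bd hκ (i + 3)
  obtain ⟨C', hC'⟩ := rse_repk_bd hκ (i + 1)
  have s1 := rse_fek_t_sum hC j m u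
  have s2 := rse_fek_t_sum hC' j m u
  rw [rse_fek_DF, rse_fek_DF, rse_fek_DF]
  simp only
  rw [← tsum_mul_left, ← s1.tsum_sub (s2.mul_left _)]
  refine tsum_congr fun n => ?_
  unfold rse_fek_t
  split_ifs
  · unfold gk
    ring
  · ring

/-- decay on the right -/
theorem rse_repk_right {κ : ℕ} (hκ : κ ≤ 1) (j : Fin 4) (m n : ℕ) :
    ∃ C : ℝ, 0 ≤ C ∧ ∀ u : ℝ, |DF (iteratedDeriv n (k0 κ)) j m u| ≤ C * Real.exp (-(2 * u)) := by
  obtain ⟨C, hC⟩ := rse_repk_bd hκ n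
  have hC0 : 0 ≤ C := by
    have := (abs_nonneg _).trans (hC 0)
    simpa using this
  have hz : Summable (fun n : ℕ => 1 / (n : ℝ) ^ 2) :=
    Real.summable_one_div_nat_pow.2 (by norm_num : 1 < 2)
  refine ⟨C * ∑' n : ℕ, 1 / (n : ℝ) ^ 2, by positivity, fun u => ?_⟩
  rw [rse_fek_DF]
  simp only
  have h1 : Summable (fun n : ℕ => C * Real.exp (-(2 * u)) * (1 / (n : ℝ) ^ 2)) := hz.mul_left _
  have h2 : Summable (fun i => ‖rse_fek_t (iteratedDeriv n (k0 κ)) j m i u‖) :=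
    Summable.of_nonneg_of_le (fun _ => norm_nonneg _)
      (fun i => by rw [Real.norm_eq_abs]; exact rse_fek_t_bd hC j m i u) h1
  calc |∑' i, rse_fek_t (iteratedDeriv n (k0 κ)) j m i u|
      ≤ ∑' i, ‖rse_fek_t (iteratedDeriv n (k0 κ)) j m i u‖ := by
        rw [← Real.norm_eq_abs]; exact norm_tsum_le_tsum_norm h2
    _ ≤ ∑' i : ℕ, C * Real.exp (-(2 * u)) * (1 / (i : ℝ) ^ 2) :=
        h2.tsum_le_tsum (fun i => by rw [Real.norm_eq_abs]; exact rse_fek_t_bd hC j m i u) h1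
    _ = C * (∑' i : ℕ, 1 / (i : ℝ) ^ 2) * Real.exp (-(2 * u)) := by
        rw [tsum_mul_left]; ring

/-- two sided decay -/
theorem rse_repk_decay {κ : ℕ} {j : Fin 4} {m : ℕ} (hm : 2 ≤ m)
    {χ : DirichletCharacter ℂ (cc j * m)} (h : IsRC κ j m χ) (n : ℕ) :
    ∃ C : ℝ, 0 ≤ C ∧ ∀ u : ℝ, |DF (iteratedDeriv n (k0 κ)) j m u| ≤ C * (1 + u ^ 2)⁻¹ := by
  have hκ : κ ≤ 1 := by
    rcases h.2.2 with ⟨h, -⟩ | ⟨h, -⟩ <;> omega
  obtain ⟨C, hC0, hC⟩ := rse_repk_right hκ j m n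
  obtain ⟨w, hw, hfe⟩ := rse_repk_fe hm h
  set L : ℝ := Real.log ((cc j * m : ℕ) : ℝ) with hL
  have hexp : ∀ x : ℝ, 0 ≤ x → Real.exp (-(2 * x)) ≤ (1 + x ^ 2)⁻¹ := by
    intro x hx
    rw [Real.exp_neg]
    apply inv_anti₀ (by positivity)
    have := Real.quadratic_le_exp_of_nonneg (by positivity : 0 ≤ 2 * x)
    nlinarith
  refine ⟨C * Real.exp (2 * |L|), by positivity, fun u => ?_⟩
  rcases le_or_gt 0 u with hu | hu
  · calc |DF (iteratedDeriv n (k0 κ)) j m u| ≤ C * Real.exp (-(2 * u)) := hC u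
      _ ≤ C * (1 + u ^ 2)⁻¹ := mul_le_mul_of_nonneg_left (hexp u hu) hC0
      _ ≤ C * Real.exp (2 * |L|) * (1 + u ^ 2)⁻¹ := by
          have h1 : (1 : ℝ) ≤ Real.exp (2 * |L|) := Real.one_le_exp (by positivity)
          have h2 : 0 ≤ C * (1 + u ^ 2)⁻¹ := by positivity
          nlinarith
  · have h1 := hfe n (-L - u)
    have h2 : -L - (-L - u) = u := by ring
    rw [h2] at h1
    rw [h1, abs_mul, abs_mul, hw, abs_pow, abs_neg, abs_one, one_pow, one_mul, one_mul]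
    calc |DF (iteratedDeriv n (k0 κ)) j m (-L - u)| ≤ C * Real.exp (-(2 * (-L - u))) := hC _
      _ = C * (Real.exp (2 * L) * Real.exp (-(2 * (-u)))) := by
          rw [← Real.exp_add]; congr 2; ring
      _ ≤ C * (Real.exp (2 * |L|) * (1 + (-u) ^ 2)⁻¹) := by
          gcongr
          · exact le_abs_self L
          · exact hexp (-u) (by linarith)
      _ = C * Real.exp (2 * |L|) * (1 + u ^ 2)⁻¹ := by ring

theorem rse_repk_int {κ : ℕ} {j : Fin 4} {m : ℕ} (hm : 2 ≤ m)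
    {χ : DirichletCharacter ℂ (cc j * m)} (h : IsRC κ j m χ) (n : ℕ) :
    Continuous (fun u => (DF (iteratedDeriv n (k0 κ)) j m u : ℂ)) ∧
    Integrable (fun u => (DF (iteratedDeriv n (k0 κ)) j m u : ℂ)) ∧
    ∃ B : ℝ, ∀ u, ‖(DF (iteratedDeriv n (k0 κ)) j m u : ℂ)‖ ≤ B := by
  have hκ : κ ≤ 1 := by
    rcases h.2.2 with ⟨h, -⟩ | ⟨h, -⟩ <;> omega
  obtain ⟨C, hC0, hC⟩ := rse_repk_decay hm h n
  have hc : Continuous (DF (iteratedDeriv n (k0 κ)) j m) :=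
    continuous_iff_continuousAt.mpr fun u => (rse_repk_D hκ j m n u).continuousAt
  have hcc : Continuous (fun u => (DF (iteratedDeriv n (k0 κ)) j m u : ℂ)) :=
    Complex.continuous_ofReal.comp hc
  refine ⟨hcc, ?_, C, fun u => ?_⟩
  · refine Integrable.mono' (integrable_inv_one_add_sq.const_mul C) hcc.aestronglyMeasurable
      (Filter.Eventually.of_forall fun u => ?_)
    rw [Complex.norm_real, Real.norm_eq_abs]
    exact hC u
  · rw [Complex.norm_real, Real.norm_eq_abs]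
    refine (hC u).trans ?_
    apply mul_le_of_le_one_right hC0
    apply inv_le_one_of_one_le₀
    nlinarith [sq_nonneg u]

theorem df_nice_pr {κ : ℕ} {j : Fin 4} {m : ℕ} (hm : 2 ≤ m)
    {χ : DirichletCharacter ℂ (cc j * m)} (h : IsRC κ j m χ) (i : ℕ) :
    Nice (fun u => (DF (gk κ i) j m u : ℂ)) := by
  have hκ : κ ≤ 1 := by
    rcases h.2.2 with ⟨h, -⟩ | ⟨h, -⟩ <;> omega
  obtain ⟨c1, i1, B1, b1⟩ := rse_repk_int hm h (i + 3)
  obtain ⟨c2, i2, B2, b2⟩ := rse_repk_int hm h (i + 1)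
  have e : (fun u => (DF (gk κ i) j m u : ℂ)) = fun u =>
      (DF (iteratedDeriv (i + 3) (k0 κ)) j m u : ℂ) -
        1 / 4 * (DF (iteratedDeriv (i + 1) (k0 κ)) j m u : ℂ) := by
    funext u
    rw [rse_repk_sum hκ]
    push_cast
    ring
  rw [e]
  refine ⟨?_, ?_, B1 + 1 / 4 * B2, fun u => ?_⟩
  · exact (c1.sub (continuous_const.mul c2)).measurable
  · exact i1.sub (i2.const_mul _)
  · refine (norm_sub_le _ _).trans ?_
    rw [norm_mul]
    have h1 : ‖(1 / 4 : ℂ)‖ = 1 / 4 := by norm_num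
    rw [h1]
    have := b1 u
    have := b2 u
    linarith

theorem rse_repk_mul {g : ℝ → ℂ} (hg : Integrable g) (t : ℝ) :
    Integrable fun u : ℝ => g u * cexp (t * u * I) := by
  have h1 : Integrable fun u : ℝ => cexp (t * u * I) * g u := by
    refine hg.bdd_mul (c := 1) (by fun_prop) ?_
    refine Filter.Eventually.of_forall fun u => ?_
    rw [show (t : ℂ) * u * I = ((t * u : ℝ) : ℂ) * I by push_cast; ring]
    exact (Complex.norm_exp_ofReal_mul_I _).le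
  refine h1.congr (Filter.Eventually.of_forall fun u => ?_)
  simp only
  ring

/-- integration by parts -/
theorem rse_repk_parts {κ : ℕ} {j : Fin 4} {m : ℕ} (hm : 2 ≤ m)
    {χ : DirichletCharacter ℂ (cc j * m)} (h : IsRC κ j m χ) (n : ℕ) (t : ℝ) :
    ∫ u : ℝ, (DF (iteratedDeriv (n + 1) (k0 κ)) j m u : ℂ) * cexp (t * u * I) =
      -(I * t) * ∫ u : ℝ, (DF (iteratedDeriv n (k0 κ)) j m u : ℂ) * cexp (t * u * I) := by
  have hκ : κ ≤ 1 := by
    rcases h.2.2 with ⟨h, -⟩ | ⟨h, -⟩ <;> omega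
  obtain ⟨-, i1, -⟩ := rse_repk_int hm h (n + 1)
  obtain ⟨-, i2, -⟩ := rse_repk_int hm h n
  have I1 := rse_repk_mul i1 t
  have I2 := rse_repk_mul i2 t
  have hd : ∀ u : ℝ, HasDerivAt (fun u : ℝ => (DF (iteratedDeriv n (k0 κ)) j m u : ℂ) *
      cexp (t * u * I)) ((DF (iteratedDeriv (n + 1) (k0 κ)) j m u : ℂ) * cexp (t * u * I) +
        (I * t) * ((DF (iteratedDeriv n (k0 κ)) j m u : ℂ) * cexp (t * u * I))) u := by
    intro u
    have h1 : HasDerivAt (fun u : ℝ => (DF (iteratedDeriv n (k0 κ)) j m u : ℂ))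
        (DF (iteratedDeriv (n + 1) (k0 κ)) j m u : ℂ) u := (rse_repk_D hκ j m n u).ofReal_comp
    have h2 : HasDerivAt (fun u : ℝ => cexp (t * u * I)) (cexp (t * u * I) * (t * I)) u := by
      have h3 : HasDerivAt (fun u : ℝ => (t : ℂ) * u * I) (t * I) u := by
        have := ((Complex.ofRealCLM.hasDerivAt (x := u)).const_mul (t : ℂ)).mul_const I
        simpa using this
      exact h3.cexp
    refine (h1.mul h2).congr_deriv ?_
    ring
  have h0 := integral_eq_zero_of_hasDerivAt_of_integrable hd (I1.add (I2.const_mul (I * t))) I2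
  rw [integral_add I1 (I2.const_mul (I * t)), integral_const_mul] at h0
  linear_combination h0

theorem df_rep_pr {κ : ℕ} {j : Fin 4} {m : ℕ} (hm : 2 ≤ m) [NeZero (cc j * m)]
    {χ : DirichletCharacter ℂ (cc j * m)} (h : IsRC κ j m χ) (t : ℝ) :
    hat (fun u => (DF (gk κ 0) j m u : ℂ)) t = I * t * (t ^ 2 + 1 / 4) *
      DirichletCharacter.completedLFunction χ (1 / 2 + t * I) := by
  have hκ : κ ≤ 1 := by
    rcases h.2.2 with ⟨h, -⟩ | ⟨h, -⟩ <;> omega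
  rw [Pool.Agent.RC.rc_fe_rep hm χ h t]
  have h0 : ∫ u : ℝ, (DD (f0 κ) 1 j m u : ℂ) * cexp (t * u * I) =
      ∫ u : ℝ, (DF (iteratedDeriv 0 (k0 κ)) j m u : ℂ) * cexp (t * u * I) := by
    refine integral_congr_ae (Filter.Eventually.of_forall fun u => ?_)
    simp only [iteratedDeriv_zero, rse_fek_DD j hm]
  rw [h0]
  have h1 := rse_repk_parts hm h 0 t
  have h2 := rse_repk_parts hm h 1 t
  have h3 := rse_repk_parts hm h 2 t
  simp only [zero_add] at h1 h2 h3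
  obtain ⟨-, i1, -⟩ := rse_repk_int hm h 1
  obtain ⟨-, i3, -⟩ := rse_repk_int hm h 3
  have I1 := rse_repk_mul i1 t
  have I3 := rse_repk_mul i3 t
  unfold Pool.Agent.SQS.hat
  have h4 : ∫ u : ℝ, (DF (gk κ 0) j m u : ℂ) * cexp (t * u * I) =
      (∫ u : ℝ, (DF (iteratedDeriv 3 (k0 κ)) j m u : ℂ) * cexp (t * u * I)) -
        1 / 4 * ∫ u : ℝ, (DF (iteratedDeriv 1 (k0 κ)) j m u : ℂ) * cexp (t * u * I) := by
    rw [← integral_const_mul, ← integral_sub I3 (I1.const_mul _)]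
    refine integral_congr_ae (Filter.Eventually.of_forall fun u => ?_)
    simp only
    rw [rse_repk_sum hκ]
    push_cast
    ring
  rw [h4]
  have e3 : (2 : ℕ) + 1 = 3 := rfl
  have e2 : (1 : ℕ) + 1 = 2 := rfl
  rw [e3] at h3
  rw [e2] at h2
  rw [h3, h2, h1]
  linear_combination (I * (t : ℂ) ^ 3 * (∫ u : ℝ, (DF (iteratedDeriv 0 (k0 κ)) j m u : ℂ) *
    cexp (t * u * I))) * (-1) * Complex.I_sq
end Pool.Agent.RSE

namespace Pool.Agent.RSE

alias df_nice := df_nice_pr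

alias df_rep := df_rep_pr

end Pool.Agent.RSE
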