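import Pool.Agent.Lib_helper39.RSE.Defs
import Pool.Agent.Lib_helper39.RSA.DefsB
import Pool.Agent.Lib_helper24.ABS.Endgame
import Pool.Agent.Lib_helper39.RSA.FEK
import Pool.Agent.Lib_helper39.RSA.GLO
import Pool.Agent.Lib_helper39.RSA.KG2
import Pool.Agent.Lib_helper39.RSA.REPK
/-!
# Block PIE: the piece of a real character
-/

namespace Pool.Agent.RSE

open Complex MeasureTheory Filter Topology
open Pool.Agent.RC (cc psi rv f0 IsRC Good gm pr DD)
open Pool.Agent.ABS (Nice LData Piece oddZ)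
open Pool.Agent.SQS (hat)
open scoped ContDiff

theorem rse_pie_ord {f g : ℂ → ℂ} {z : ℂ} (hf : AnalyticAt ℂ f z) (hg : AnalyticAt ℂ g z)
    (hz : f z ≠ 0) : analyticOrderNatAt (fun s => f s * g s) z = analyticOrderNatAt g z := by
  unfold analyticOrderNatAt
  have h1 : analyticOrderAt (f * g) z = analyticOrderAt f z + analyticOrderAt g z :=
    analyticOrderAt_mul hf hg
  rw [hf.analyticOrderAt_eq_zero.2 hz, zero_add] at h1
  exact congrArg ENat.toNat h1

/-- PIE (cites FEK, REPK, GLO): the piece of a real character. -/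
theorem exists_piece_pr (Θ : ℝ → ℝ) (L : ℝ) {κ : ℕ} {j : Fin 4} {m : ℕ} (hm : 2 ≤ m)
    [NeZero (cc j * m)] {χ : DirichletCharacter ℂ (cc j * m)} (h : IsRC κ j m χ) :
    ∃ P : Piece, (∀ t : ℝ, t ≠ 0 → (t ∈ oddZ P.Λ ↔
      Odd (analyticOrderNatAt (DirichletCharacter.completedLFunction χ) (1 / 2 + t * I)))) ∧
    (∀ v : ℝ, P.f v =
      (ff (gk κ 0) Θ L 1 j m (v - Real.log ((cc j * m : ℕ) : ℝ) / 2) : ℂ)) ∧
    (∀ u : ℝ, P.D u = (DM (gk κ 0) Θ L j m u : ℂ)) ∧
    ∀ u : ℝ, P.g u = (gA (gk κ 0) j m u : ℂ) := by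
  have hκ : κ ≤ 1 := by
    rcases h.2.2 with h1 | h1
    · omega
    · omega
  have hcc : 1 ≤ cc j := by
    fin_cases j <;> simp [cc]
  have hN : 2 ≤ cc j * m := by nlinarith
  have hχ : χ ≠ 1 := by
    intro h1
    have h2 := h.1
    rw [h1] at h2
    have h3 : (1 : DirichletCharacter ℂ (cc j * m)).conductor = cc j * m := h2
    rw [DirichletCharacter.conductor_one] at h3
    omega
  set A : ℝ := Real.log ((cc j * m : ℕ) : ℝ) with hA
  set dens : ℝ → ℂ := fun u => (DF (gk κ 0) j m u : ℂ) with hdens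
  set Λ : ℂ → ℂ := fun s => ((s - 1 / 2) * s * (1 - s)) *
    DirichletCharacter.completedLFunction χ s with hΛ
  have hcd : Differentiable ℂ (DirichletCharacter.completedLFunction χ) :=
    DirichletCharacter.differentiable_completedLFunction hχ
  have hrep : ∀ t : ℝ, hat dens t = Λ (1 / 2 + t * I) := by
    intro t
    rw [hdens, df_rep hm h t, hΛ]
    dsimp only
    have hI : I ^ 2 = -1 := Complex.I_sq
    have h1 : (1 / 2 + (t : ℂ) * I - 1 / 2) * (1 / 2 + t * I) * (1 - (1 / 2 + t * I)) =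
        I * t * (t ^ 2 + 1 / 4) := by
      linear_combination (-(t : ℂ) ^ 3 * I) * hI
    rw [h1]
  obtain ⟨w, hw, hfek⟩ := fek_eq hm h 0
  let X : LData :=
    { Λ := Λ
      A := A
      dens := dens
      diff := by
        rw [hΛ]
        fun_prop
      nice := df_nice hm h 0
      rep := hrep
      fe := by
        refine ⟨(w : ℂ), by rw [Complex.norm_real, Real.norm_eq_abs, hw], fun t => ?_⟩
        refine Pool.Agent.ABS.fe_of_dens hrep (by rw [Complex.norm_real, Real.norm_eq_abs, hw])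
          (fun u => ?_) t
        rw [hdens]
        dsimp only
        rw [Complex.conj_ofReal, hfek u, ← Complex.ofReal_mul]
        congr 1
        have hww : w * w = 1 := by
          rw [← abs_mul_abs_self, hw, one_mul]
        rw [← mul_assoc, hww, one_mul] }
  set b : ℕ → ℂ := fun k => ((be Θ L 1 k * (rv j m k : ℝ) / √(k : ℝ) : ℝ) : ℂ) with hb
  have hbc : ∀ k, starRingEnd ℂ (b k) = b k := fun k => Complex.conj_ofReal _
  have hrv : ∀ k l : ℕ, (rv j m (k * l) : ℝ) = (rv j m k : ℝ) * (rv j m l : ℝ) := by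
    intro k l
    have h1 : (rv j m (k * l) : ℂ) = (rv j m k : ℂ) * (rv j m l : ℂ) := by
      rw [← h.2.1, ← h.2.1, ← h.2.1, Nat.cast_mul, map_mul]
    exact_mod_cast h1
  have hbb : ∀ k l : ℕ, b k * b l = ((be Θ L 1 k * be Θ L 1 l * (rv j m (k * l) : ℝ) /
      √((k : ℝ) * l) : ℝ) : ℂ) := by
    intro k l
    rw [hb]
    dsimp only
    rw [← Complex.ofReal_mul, hrv, Real.sqrt_mul (Nat.cast_nonneg k)]
    congr 1
    rw [div_mul_div_comm]
    congr 1
    ring
  refine ⟨X.piece (KL L) b (fun k : ℕ => Real.log k) (fun u => (gA (gk κ 0) j m u : ℂ))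
    (ga_nice (kern_gk hκ 0) j m), fun t ht => ?_, fun v => ?_, fun u => ?_, fun u => rfl⟩
  · show Odd (analyticOrderNatAt Λ (1 / 2 + t * I)) ↔ _
    rw [hΛ, rse_pie_ord (f := fun s : ℂ => (s - 1 / 2) * s * (1 - s)) (by fun_prop)
      (hcd.analyticAt _)]
    have htI : (t : ℂ) * I ≠ 0 := mul_ne_zero (Complex.ofReal_ne_zero.2 ht) Complex.I_ne_zero
    have h1 : (1 / 2 + (t : ℂ) * I) ≠ 0 := by
      intro h0
      have := congrArg Complex.re h0
      simp at this
    have h2 : (1 : ℂ) - (1 / 2 + (t : ℂ) * I) ≠ 0 := by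
      intro h0
      have := congrArg Complex.re h0
      simp at this
      norm_num at this
    refine mul_ne_zero (mul_ne_zero ?_ h1) h2
    rw [add_sub_cancel_left]
    exact htI
  · show X.fd (KL L) b (fun k : ℕ => Real.log k) v = _
    unfold LData.fd ff
    rw [Complex.ofReal_sum]
    refine Finset.sum_congr rfl fun k _ => ?_
    rw [Complex.ofReal_sum]
    refine Finset.sum_congr rfl fun l _ => ?_
    rw [hbc, hbb, Complex.ofReal_mul]
    congr 1
    show ((DF (gk κ 0) j m (v + (Real.log k - Real.log l - A / 2)) : ℝ) : ℂ) = _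
    congr 2
    ring
  · show X.Dd (KL L) b (fun k : ℕ => Real.log k) u = _
    unfold LData.Dd DM
    rw [Complex.ofReal_sum]
    refine Finset.sum_congr rfl fun k _ => ?_
    rw [Complex.ofReal_sum]
    refine Finset.sum_congr rfl fun l _ => ?_
    rw [hbb, Complex.ofReal_mul]
    congr 1
    show ((DF (gk κ 0) j m (u + (Real.log k + Real.log l)) : ℝ) : ℂ) = _
    congr 2
    ring

end Pool.Agent.RSE

namespace Pool.Agent.RSE

alias exists_piece := exists_piece_pr

end Pool.Agent.RSE
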