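import Pool.Agent.Lib_helper39.RSE.Defs
import Pool.Agent.Lib_helper39.RSA.DefsB
import Pool.Agent.Lib_helper24.ABS.Endgame
/-!
# Block TRA: translation of a piece
-/

namespace Pool.Agent.RSE

open Complex MeasureTheory Filter Topology
open Pool.Agent.RC (cc psi rv f0 IsRC Good gm pr DD)
open Pool.Agent.ABS (Nice LData Piece oddZ)
open Pool.Agent.SQS (hat)
open scoped ContDiff

/-- multiplication by `e^{i t₀ u}` -/
noncomputable def rse_tra_m (h : ℝ → ℂ) (t₀ : ℝ) (u : ℝ) : ℂ := h u * cexp (t₀ * u * I)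

theorem rse_tra_norm (h : ℝ → ℂ) (t₀ u : ℝ) : ‖rse_tra_m h t₀ u‖ = ‖h u‖ := by
  unfold rse_tra_m
  have h1 : (t₀ * u * I : ℂ) = ((t₀ * u : ℝ) : ℂ) * I := by push_cast; ring
  rw [norm_mul, h1, Complex.norm_exp_ofReal_mul_I, mul_one]

theorem rse_tra_nice {h : ℝ → ℂ} (H : Nice h) (t₀ : ℝ) : Nice (rse_tra_m h t₀) := by
  refine ⟨?_, Pool.Agent.ABS.hat_integrable H.int t₀, ?_⟩
  · unfold rse_tra_m
    exact H.meas.mul (Continuous.measurable (by fun_prop))
  · obtain ⟨B, hB⟩ := H.bdd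
    exact ⟨B, fun u => by rw [rse_tra_norm]; exact hB u⟩

theorem rse_tra_hat (h : ℝ → ℂ) (t₀ t : ℝ) : hat (rse_tra_m h t₀) t = hat h (t + t₀) := by
  unfold Pool.Agent.SQS.hat rse_tra_m
  congr 1
  funext u
  rw [mul_assoc, ← Complex.exp_add]
  congr 2
  push_cast
  ring

theorem rse_tra_ph (A s t : ℝ) : Pool.Agent.ABS.ph A (s + t) =
    Pool.Agent.ABS.ph A s * Pool.Agent.ABS.ph A t := by
  unfold Pool.Agent.ABS.ph
  rw [← Complex.exp_add]
  congr 1
  push_cast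
  ring

theorem rse_tra_phc (A t : ℝ) :
    starRingEnd ℂ (Pool.Agent.ABS.ph A t) * Pool.Agent.ABS.ph A t = 1 := by
  rw [mul_comm, Complex.mul_conj, Complex.normSq_eq_norm_sq, Pool.Agent.ABS.ph_norm]
  norm_num

theorem rse_tra_pt (t t₀ : ℝ) : (1 / 2 + (t : ℂ) * I) + t₀ * I =
    1 / 2 + ((t + t₀ : ℝ) : ℂ) * I := by
  push_cast
  ring

theorem rse_tra_ord {Λ : ℂ → ℂ} (h : Differentiable ℂ Λ) (c z : ℂ) :
    analyticOrderNatAt (fun s => Λ (s + c)) z = analyticOrderNatAt Λ (z + c) := by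
  unfold analyticOrderNatAt
  congr 1
  have h1 : AnalyticAt ℂ (fun s : ℂ => s + c) z := by fun_prop
  have h2 : deriv (fun s : ℂ => s + c) z ≠ 0 := by
    rw [deriv_add_const, deriv_id'']
    exact one_ne_zero
  exact analyticOrderAt_comp_of_deriv_ne_zero (f := Λ) h1 h2

/-- TRA: translation of a piece. -/
theorem piece_shift_pr (P : Piece) (t₀ : ℝ) : ∃ P' : Piece,
    (∀ t : ℝ, t ∈ oddZ P'.Λ ↔ t + t₀ ∈ oddZ P.Λ) ∧ (∀ v, ‖P'.f v‖ = ‖P.f v‖) ∧
    (∀ u, ‖P'.D u - P'.g u‖ = ‖P.D u - P.g u‖) ∧ (∀ u, ‖P'.g u‖ = ‖P.g u‖) ∧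
    ∀ t : ℝ, hat P'.g t = hat P.g (t + t₀) := by
  set w : ℂ := starRingEnd ℂ (Pool.Agent.ABS.ph P.A t₀) with hw
  have hwn : ‖w‖ = 1 := by rw [hw, RCLike.norm_conj, Pool.Agent.ABS.ph_norm]
  have hwph : ∀ t, Pool.Agent.ABS.ph P.A t = w * Pool.Agent.ABS.ph P.A (t + t₀) := by
    intro t
    rw [rse_tra_ph, hw]
    calc Pool.Agent.ABS.ph P.A t = (starRingEnd ℂ (Pool.Agent.ABS.ph P.A t₀) *
          Pool.Agent.ABS.ph P.A t₀) * Pool.Agent.ABS.ph P.A t := by rw [rse_tra_phc, one_mul]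
      _ = _ := by ring
  let X : LData :=
    { Λ := fun s => P.Λ (s + t₀ * I)
      A := P.A
      dens := rse_tra_m P.dens t₀
      diff := P.diff.comp (by fun_prop)
      nice := rse_tra_nice P.nice t₀
      rep := fun t => by
        rw [rse_tra_hat, P.rep, rse_tra_pt]
      fe := by
        obtain ⟨W, hW, hfe⟩ := P.fe
        refine ⟨W * w * w, by rw [norm_mul, norm_mul, hW, hwn]; norm_num, fun t => ?_⟩
        have h1 := hfe (t + t₀)
        rw [rse_tra_pt, hwph t]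
        calc w * Pool.Agent.ABS.ph P.A (t + t₀) * P.Λ (1 / 2 + ((t + t₀ : ℝ) : ℂ) * I)
            = w * (W * starRingEnd ℂ (Pool.Agent.ABS.ph P.A (t + t₀) *
                P.Λ (1 / 2 + ((t + t₀ : ℝ) : ℂ) * I))) := by rw [← h1]; ring
          _ = (W * w * w) * starRingEnd ℂ (w * Pool.Agent.ABS.ph P.A (t + t₀) *
                P.Λ (1 / 2 + ((t + t₀ : ℝ) : ℂ) * I)) := by
              have h2 : w * starRingEnd ℂ w = 1 := by
                rw [Complex.mul_conj, Complex.normSq_eq_norm_sq, hwn]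
                norm_num
              rw [map_mul, map_mul, map_mul]
              linear_combination (-(w * W * starRingEnd ℂ (Pool.Agent.ABS.ph P.A (t + t₀)) *
                starRingEnd ℂ (P.Λ (1 / 2 + ((t + t₀ : ℝ) : ℂ) * I)))) * h2 }
  let P' : Piece :=
    { toLData := X
      M := fun t => P.M (t + t₀)
      f := fun v => w * rse_tra_m P.f t₀ v
      D := rse_tra_m P.D t₀
      g := rse_tra_m P.g t₀
      Mc := P.Mc.comp (by fun_prop)
      nf := (rse_tra_nice P.nf t₀).const_mul w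
      nD := rse_tra_nice P.nD t₀
      ng := rse_tra_nice P.ng t₀
      hf := fun t => by
        rw [Pool.Agent.ABS.hat_const_mul, rse_tra_hat, P.hf]
        show _ = Pool.Agent.ABS.ph P.A t * P.Λ ((1 / 2 + (t : ℂ) * I) + t₀ * I) * _
        rw [rse_tra_pt, hwph t]
        ring
      hD := fun t => by
        rw [rse_tra_hat, P.hD]
        show _ = P.Λ ((1 / 2 + (t : ℂ) * I) + t₀ * I) * _
        rw [rse_tra_pt] }
  refine ⟨P', fun t => ?_, fun v => ?_, fun u => ?_, fun u => ?_, fun t => ?_⟩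
  · show Odd (analyticOrderNatAt (fun s => P.Λ (s + t₀ * I)) (1 / 2 + t * I)) ↔
      Odd (analyticOrderNatAt P.Λ (1 / 2 + ((t + t₀ : ℝ) : ℂ) * I))
    rw [rse_tra_ord P.diff, rse_tra_pt]
  · show ‖w * rse_tra_m P.f t₀ v‖ = ‖P.f v‖
    rw [norm_mul, hwn, one_mul, rse_tra_norm]
  · show ‖rse_tra_m P.D t₀ u - rse_tra_m P.g t₀ u‖ = ‖P.D u - P.g u‖
    have h1 : rse_tra_m P.D t₀ u - rse_tra_m P.g t₀ u =
        rse_tra_m (fun u => P.D u - P.g u) t₀ u := by
      unfold rse_tra_m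
      ring
    rw [h1, rse_tra_norm]
  · exact rse_tra_norm _ _ _
  · exact rse_tra_hat _ _ _

end Pool.Agent.RSE

namespace Pool.Agent.RSE

alias piece_shift := piece_shift_pr

end Pool.Agent.RSE
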