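import Pool.Agent.Lib_helper39.RSE.Defs
import Pool.Agent.Lib_helper39.RSA.DefsB
import Pool.Agent.Lib_helper24.ABS.Endgame
import Pool.Agent.Lib_helper39.RSA.CUT1
import Pool.Agent.Lib_helper39.RSA.DDF
import Pool.Agent.Lib_helper39.RSA.FU3
import Pool.Agent.Lib_helper39.RSA.GLO
import Pool.Agent.Lib_helper39.RSA.KG2
import Pool.Agent.Lib_helper39.RSA.PIE
import Pool.Agent.Lib_helper39.RSA.TRA
/-!
# Selberg's theorem for real characters: one dyadic block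
-/

namespace Pool.Agent.RSE

open Complex MeasureTheory Filter Topology
open Pool.Agent.RC (cc psi rv f0 IsRC Good gm pr DD)
open Pool.Agent.ABS (Nice LData Piece oddZ)
open Pool.Agent.SQS (hat)
open scoped ContDiff

/-- The odd order zeros of `Λ(s, χ)` on the critical line. -/
def oddS {q : ℕ} [NeZero q] (χ : DirichletCharacter ℂ q) : Set ℝ :=
  {t : ℝ | Odd (analyticOrderNatAt (DirichletCharacter.completedLFunction χ) (1 / 2 + t * I))}

/-- Some interval of length `h` in `[a, b]` contains at most `N` odd zeros. -/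
def BadI (a b h : ℝ) (N : ℕ) {q : ℕ} [NeZero q] (χ : DirichletCharacter ℂ q) : Prop :=
  ∃ x : ℝ, a ≤ x ∧ x + h ≤ b ∧ (oddS χ ∩ Set.Ioo x (x + h)).encard ≤ N

/-- The real character attached to `(j, m)` has parity `κ` and is bad on `[a, b]`. -/
def BadM (κ : ℕ) (j : Fin 4) (a b h : ℝ) (N : ℕ) (m : ℕ) : Prop :=
  2 ≤ m ∧ Odd m ∧ ∃ (_ : NeZero (cc j * m)) (χ : DirichletCharacter ℂ (cc j * m)),
    IsRC κ j m χ ∧ BadI a b h N χ

theorem card_blk8 (c : ℕ) {K : ℝ} (hK : 2 ≤ K) : ((blk8 c K).card : ℝ) ≤ 4 * K := by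
  have h1 : (blk8 c K).card ≤ ⌈2 * K⌉₊ := by
    have := Finset.card_filter_le (Finset.range ⌈2 * K⌉₊)
      (fun m : ℕ => K ≤ (m : ℝ) ∧ (m : ℝ) < 2 * K ∧ m % 8 = c)
    rw [Finset.card_range] at this
    exact this
  have h2 : ((⌈2 * K⌉₊ : ℕ) : ℝ) < 2 * K + 1 := Nat.ceil_lt_add_one (by linarith)
  have h3 : ((blk8 c K).card : ℝ) ≤ (⌈2 * K⌉₊ : ℕ) := by exact_mod_cast h1
  linarith

/-- the piece of a bad `m`, translated -/
theorem bad_piece (Θ : ℝ → ℝ) (L : ℝ) {κ : ℕ} {j : Fin 4} {a b h : ℝ} {N m : ℕ}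
    (h0 : 0 < a ∨ b < 0) (hbad : BadM κ j a b h N m) : ∃ P : Piece,
    (∃ x : ℝ, -((b - a) / 2) ≤ x ∧ x + h ≤ (b - a) / 2 ∧
      (oddZ P.Λ ∩ Set.Ioo x (x + h)).encard ≤ N) ∧
    (∀ v : ℝ, ‖P.f v‖ ^ 2 =
      ff (gk κ 0) Θ L 1 j m (v - Real.log ((cc j * m : ℕ) : ℝ) / 2) ^ 2) ∧
    (∀ u : ℝ, ‖P.D u - P.g u‖ ^ 2 = (DM (gk κ 0) Θ L j m u - gA (gk κ 0) j m u) ^ 2) ∧
    (∀ u : ℝ, ‖P.g u‖ = ‖(gA (gk κ 0) j m u : ℂ)‖) ∧
    ∀ t : ℝ, hat P.g t = hat (fun u => (gA (gk κ 0) j m u : ℂ)) (t + (a + b) / 2) := by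
  obtain ⟨hm, hodd, hne, χ, hχ, x, hx1, hx2, hx3⟩ := hbad
  obtain ⟨P, hP1, hP2, hP3, hP4⟩ := exists_piece Θ L hm hχ
  obtain ⟨P', h1, h2, h3, h4, h5⟩ := piece_shift P ((a + b) / 2)
  refine ⟨P', ⟨x - (a + b) / 2, by linarith, by linarith, le_trans ?_ hx3⟩, ?_, ?_, ?_, ?_⟩
  · have hsub : oddZ P'.Λ ∩ Set.Ioo (x - (a + b) / 2) (x - (a + b) / 2 + h) ⊆
        (fun t : ℝ => t - (a + b) / 2) '' (oddS χ ∩ Set.Ioo x (x + h)) := by
      rintro t ⟨ht1, ht2, ht3⟩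
      have h6 := (h1 t).1 ht1
      have hne0 : t + (a + b) / 2 ≠ 0 := by
        intro h7
        rcases h0 with h8 | h8
        · linarith
        · linarith
      refine ⟨t + (a + b) / 2, ⟨(hP1 _ hne0).1 h6, by linarith, by linarith⟩, by ring⟩
    refine (Set.encard_le_encard hsub).trans ?_
    exact Set.encard_image_le _ _
  · intro v
    rw [h2 v, hP2 v, Complex.norm_real, Real.norm_eq_abs, sq_abs]
  · intro u
    rw [h3 u, hP3 u, hP4 u, ← Complex.ofReal_sub, Complex.norm_real, Real.norm_eq_abs, sq_abs]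
  · intro u
    rw [h4 u, hP4 u]
  · intro t
    rw [h5 t]
    congr 1
    funext u
    exact hP4 u

open Classical in
/-- One block. -/
theorem block_one {κ : ℕ} (hκ : κ ≤ 1) {a b : ℝ} (h0 : 0 < a ∨ b < 0) : ∃ C K0 : ℝ,
    0 < C ∧ 2 ≤ K0 ∧ ∀ (j : Fin 4) (c : ℕ) (K h H : ℝ), OC c → Par κ j c → K0 ≤ K →
    0 < H → H ≤ h →
    (((blk8 c K).filter (BadM κ j a b h ⌊h / H⌋₊)).card : ℝ) ≤
      C * K / (h * H * Real.log K) := by
  obtain ⟨Θ, hΘ⟩ := exists_cut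
  obtain ⟨C1, hC1, hS1⟩ := fu3_bound hΘ hκ 0
  obtain ⟨C3, hC3, hS3⟩ := ddf_bound (kern_gk hκ 0) hΘ
  obtain ⟨c₀, H₀, E, hc₀, hH₀, hE, hlow⟩ := glow_bound hκ h0
  obtain ⟨C', hC', hend⟩ := ABS.endgame (C := C1 + C3) (c := 1 / 8) (T := (b - a) / 2)
    (c₀ := c₀) (H₀ := H₀) (E := E) (by positivity) (by norm_num) hc₀ hH₀ hE
  refine ⟨8000 * C', Real.exp 8000, by positivity, ?_, ?_⟩
  · have := Real.add_one_le_exp (8000 : ℝ)
    linarith
  intro j c K h H hc hpar hK hH hHh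
  have hK0 : 0 < K := (Real.exp_pos _).trans_le hK
  have hK2 : 2 ≤ K := by
    have := Real.add_one_le_exp (8000 : ℝ)
    linarith
  have hlog : 8000 ≤ Real.log K := by
    have := Real.log_le_log (Real.exp_pos _) hK
    rwa [Real.log_exp] at this
  set L : ℝ := Real.log K / 2000 with hL
  have hL4 : 4 ≤ L := by rw [hL]; linarith
  have hL0 : 0 < L := by linarith
  have hLK : 2000 * L = Real.log K := by rw [hL]; ring
  have hh : 0 < h := hH.trans_le hHh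
  set S := (blk8 c K).filter (BadM κ j a b h ⌊h / H⌋₊) with hS
  rcases S.eq_empty_or_nonempty with he | hne
  · rw [he, Finset.card_empty, Nat.cast_zero]
    positivity
  have hSsub : S ⊆ blk8 c K := Finset.filter_subset _ _
  have hex : ∀ m ∈ S, ∃ P : Piece,
    (∃ x : ℝ, -((b - a) / 2) ≤ x ∧ x + h ≤ (b - a) / 2 ∧
      (oddZ P.Λ ∩ Set.Ioo x (x + h)).encard ≤ ⌊h / H⌋₊) ∧
    (∀ v : ℝ, ‖P.f v‖ ^ 2 =
      ff (gk κ 0) Θ L 1 j m (v - Real.log ((cc j * m : ℕ) : ℝ) / 2) ^ 2) ∧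
    (∀ u : ℝ, ‖P.D u - P.g u‖ ^ 2 = (DM (gk κ 0) Θ L j m u - gA (gk κ 0) j m u) ^ 2) ∧
    (∀ u : ℝ, ‖P.g u‖ = ‖(gA (gk κ 0) j m u : ℂ)‖) ∧
    ∀ t : ℝ, hat P.g t = hat (fun u => (gA (gk κ 0) j m u : ℂ)) (t + (a + b) / 2) := by
    intro m hm
    exact bad_piece Θ L h0 (Finset.mem_filter.1 hm).2
  have : Nonempty Piece := by
    obtain ⟨m, hm⟩ := hne
    obtain ⟨P, _⟩ := hex m hm
    exact ⟨P⟩
  choose! P hPw hPf hPD hPg hPh using hex
  obtain ⟨hf1, hf2⟩ := hS1 j c L K hc hpar hL4 (by linarith) hLK.le (by linarith)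
  have hd := hS3 j c L K
  have hcard : (S.card : ℝ) ≤ 4 * K := by
    refine le_trans ?_ (card_blk8 c hK2)
    exact_mod_cast Finset.card_le_card hSsub
  have hfin := hend ℕ S P L (4 * K) hL0 hcard ?_ ?_ ?_ ?_ ?_ h H hH hHh hPw
  · refine hfin.trans (le_of_eq ?_)
    rw [hL]
    field_simp
    ring
  · intro m hm t ht1 ht2 H' hH'0 hH'
    have hl := (hlow j m).1 (t + (a + b) / 2) H' (by linarith) (by linarith) hH'0 hH'
    refine hl.trans (le_of_eq ?_)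
    congr 1
    have e1 : ∀ s, hat (P m).g s = hat (fun u => (gA (gk κ 0) j m u : ℂ)) (s + (a + b) / 2) :=
      hPh m hm
    simp only [e1]
    rw [intervalIntegral.integral_comp_add_right
      (fun s => hat (fun u => (gA (gk κ 0) j m u : ℂ)) s) ((a + b) / 2)]
    congr 1
    ring
  · intro m hm
    simp only [hPg m hm]
    exact (hlow j m).2
  · intro v hv0 hv
    calc ∑ m ∈ S, ‖(P m).f v‖ ^ 2
        = ∑ m ∈ S, ff (gk κ 0) Θ L 1 j m (v - Real.log ((cc j * m : ℕ) : ℝ) / 2) ^ 2 :=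
          Finset.sum_congr rfl fun m hm => hPf m hm v
      _ ≤ ∑ m ∈ blk8 c K,
          ff (gk κ 0) Θ L 1 j m (v - Real.log ((cc j * m : ℕ) : ℝ) / 2) ^ 2 :=
          Finset.sum_le_sum_of_subset_of_nonneg hSsub fun _ _ _ => sq_nonneg _
      _ ≤ C1 * K / L := hf1 v hv0 (by linarith)
      _ ≤ (C1 + C3) * (4 * K) / L := by
          apply div_le_div_of_nonneg_right _ hL0.le
          nlinarith
  · calc ∑ m ∈ S, ∫ v in Set.Ioi 0, ‖(P m).f v‖ ^ 2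
        = ∑ m ∈ S, ∫ v in Set.Ioi (0 : ℝ),
            ff (gk κ 0) Θ L 1 j m (v - Real.log ((cc j * m : ℕ) : ℝ) / 2) ^ 2 := by
          refine Finset.sum_congr rfl fun m hm => ?_
          simp only [hPf m hm]
      _ ≤ ∑ m ∈ blk8 c K, ∫ v in Set.Ioi (0 : ℝ),
            ff (gk κ 0) Θ L 1 j m (v - Real.log ((cc j * m : ℕ) : ℝ) / 2) ^ 2 :=
          Finset.sum_le_sum_of_subset_of_nonneg hSsub
            fun _ _ _ => integral_nonneg fun _ => sq_nonneg _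
      _ ≤ C1 * K := hf2
      _ ≤ (C1 + C3) * (4 * K) := by nlinarith
  · intro u hu
    calc ∑ m ∈ S, ‖(P m).D u - (P m).g u‖ ^ 2
        = ∑ m ∈ S, (DM (gk κ 0) Θ L j m u - gA (gk κ 0) j m u) ^ 2 :=
          Finset.sum_congr rfl fun m hm => hPD m hm u
      _ ≤ ∑ m ∈ blk8 c K, (DM (gk κ 0) Θ L j m u - gA (gk κ 0) j m u) ^ 2 :=
          Finset.sum_le_sum_of_subset_of_nonneg hSsub fun _ _ _ => sq_nonneg _
      _ ≤ C3 * K / L := hS3 j c L K u hc (by linarith) (by linarith) (by linarith)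
          (by linarith)
      _ ≤ (C1 + C3) * (4 * K) / L := by
          apply div_le_div_of_nonneg_right _ hL0.le
          nlinarith

end Pool.Agent.RSE
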