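import Pool.Agent.Lib_helper39.RSE.Defs
import Pool.Agent.Lib_helper39.RSA.DefsB
import Pool.Agent.Lib_helper39.RSA.FINA
import Pool.Agent.Lib_helper39.RCA.CLS
import Pool.Agent.Lib_helper39.RSA.PRM
/-!
# Selberg's theorem for real characters: counting
-/

namespace Pool.Agent.RSE

open Complex MeasureTheory Filter Topology
open Pool.Agent.RC (cc psi rv f0 IsRC Good gm pr DD classify)
open scoped ContDiff

theorem cc_pos' (j : Fin 4) : 0 < cc j := by
  fin_cases j <;> simp [cc]

/-- From dyadic blocks to all `m < X`, with the gain of a logarithm. -/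
theorem dyadic_log (B : ℕ → Prop) [DecidablePred B] (A D X1 : ℝ) (hA : 0 ≤ A) (hX1 : 2000 ≤ X1)
    (hD1 : 3 / 2 * A ≤ D) (hD2 : Real.log X1 ≤ D)
    (h : ∀ K : ℕ, X1 / 3 ≤ K →
      (((Finset.Ico K (2 * K)).filter B).card : ℝ) ≤ A * K / Real.log K) :
    ∀ X : ℕ, 2 ≤ X → (((Finset.range X).filter B).card : ℝ) ≤ D * X / Real.log X := by
  intro X
  induction X using Nat.strong_induction_on with
  | _ X ih =>
    intro hX2
    have hXR : (2 : ℝ) ≤ X := by exact_mod_cast hX2
    have hlogX : 0 < Real.log X := Real.log_pos (by linarith)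
    have hD0 : 0 ≤ D := le_trans (Real.log_nonneg (by linarith)) hD2
    rcases lt_or_ge (X : ℝ) X1 with hX | hX
    · have h1 : (((Finset.range X).filter B).card : ℝ) ≤ X := by
        have := Finset.card_filter_le (Finset.range X) B
        rw [Finset.card_range] at this
        exact_mod_cast this
      have h2 : Real.log X ≤ D := (Real.log_le_log (by linarith) hX.le).trans hD2
      refine h1.trans ?_
      rw [le_div_iff₀ hlogX]
      nlinarith
    · set K : ℕ := (X + 1) / 2 with hK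
      have hXn : 2000 ≤ X := by
        have : (2000 : ℝ) ≤ X := hX1.trans hX
        exact_mod_cast this
      have hKX : K < X := by omega
      have hXK : X ≤ 2 * K := by omega
      have hK2 : 2 ≤ K := by omega
      have hKup : 2 * K ≤ X + 1 := by omega
      have hKupR : 2 * (K : ℝ) ≤ X + 1 := by exact_mod_cast hKup
      have hXKR : (X : ℝ) ≤ 2 * K := by exact_mod_cast hXK
      have hK3 : X1 / 3 ≤ K := by linarith
      have h1 := ih K hKX hK2
      have h2 := h K hK3
      have hsub : (Finset.range X).filter B ⊆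
          (Finset.range K).filter B ∪ (Finset.Ico K (2 * K)).filter B := by
        intro m hm
        obtain ⟨hm1, hm2⟩ := Finset.mem_filter.mp hm
        rw [Finset.mem_range] at hm1
        rw [Finset.mem_union, Finset.mem_filter, Finset.mem_filter, Finset.mem_range,
          Finset.mem_Ico]
        rcases lt_or_ge m K with h3 | h3
        · exact Or.inl ⟨h3, hm2⟩
        · exact Or.inr ⟨⟨h3, by omega⟩, hm2⟩
      have h3 : (((Finset.range X).filter B).card : ℝ) ≤
          (((Finset.range K).filter B).card : ℝ) +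
            (((Finset.Ico K (2 * K)).filter B).card : ℝ) := by
        have := (Finset.card_le_card hsub).trans (Finset.card_union_le _ _)
        exact_mod_cast this
      have hKpos : (0 : ℝ) < K := by linarith
      have hlogK : Real.log X - Real.log 2 ≤ Real.log K := by
        rw [← Real.log_div (by positivity) (by norm_num)]
        exact Real.log_le_log (by positivity) (by linarith)
      have hlog2 : Real.log 2 < 0.6931471808 := Real.log_two_lt_d9
      have hlog7 : 7 ≤ Real.log X := by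
        have e1 : Real.exp 7 ≤ 2000 := by
          have h4 : Real.exp 1 < 2.7182818286 := Real.exp_one_lt_d9
          have h5 : Real.exp 7 = Real.exp 1 ^ 7 := by
            rw [← Real.exp_nat_mul]; norm_num
          rw [h5]
          have h6 : Real.exp 1 ^ 7 ≤ 2.7182818286 ^ 7 :=
            pow_le_pow_left₀ (Real.exp_pos _).le h4.le 7
          refine h6.trans (by norm_num)
        have e2 : Real.exp 7 ≤ X := e1.trans (hX1.trans hX)
        have := Real.log_le_log (Real.exp_pos _) e2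
        rwa [Real.log_exp] at this
      have hlogK0 : 0 < Real.log K := by linarith
      have hratio : (K : ℝ) / Real.log K ≤ 3 / 5 * (X / Real.log X) := by
        rw [div_le_iff₀ hlogK0]
        have e1 : 3 / 5 * (X / Real.log X) * Real.log K =
          3 / 5 * X * (Real.log K / Real.log X) := by ring
        have e2 : (9 : ℝ) / 10 ≤ Real.log K / Real.log X := by
          rw [le_div_iff₀ hlogX]
          linarith
        have e3 : (0 : ℝ) ≤ 3 / 5 * X := by positivity
        rw [e1]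
        have e4 := mul_le_mul_of_nonneg_left e2 e3
        have hX2000 : (2000 : ℝ) ≤ X := hX1.trans hX
        linarith
      have e5 : 0 ≤ X / Real.log X := by positivity
      calc (((Finset.range X).filter B).card : ℝ)
          ≤ D * K / Real.log K + A * K / Real.log K := h3.trans (add_le_add h1 h2)
        _ = (D + A) * (K / Real.log K) := by ring
        _ ≤ (D + A) * (3 / 5 * (X / Real.log X)) :=
            mul_le_mul_of_nonneg_left hratio (by linarith)
        _ ≤ D * (X / Real.log X) := by nlinarith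
        _ = D * X / Real.log X := by ring

open Classical in
/-- All `m < X`, one `κ`, one `j`, one range of ordinates. -/
theorem count_one {κ : ℕ} (hκ : κ ≤ 1) {a b : ℝ} (h0 : 0 < a ∨ b < 0) : ∃ C : ℝ, 0 < C ∧
    ∀ (j : Fin 4) (X : ℕ) (h H : ℝ), 2 ≤ X → 0 < H → H ≤ h → h ≤ b - a →
    (((Finset.range X).filter (BadM κ j a b h ⌊h / H⌋₊)).card : ℝ) ≤
      C * X / (h * H * Real.log X) := by
  obtain ⟨C, K0, hC, hK0, hblock⟩ := block_one hκ h0
  set X1 : ℝ := 3 * K0 + 2000 with hX1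
  refine ⟨6 * C + (b - a) ^ 2 * Real.log X1 + 1, ?_, ?_⟩
  · have : 0 ≤ Real.log X1 := Real.log_nonneg (by linarith)
    positivity
  intro j X h H hX hH hHh hhb
  have hh : 0 < h := hH.trans_le hHh
  have hhH : 0 < h * H := by positivity
  have hlogX1 : 0 ≤ Real.log X1 := Real.log_nonneg (by linarith)
  have hhH2 : h * H ≤ (b - a) ^ 2 := by nlinarith
  have key := dyadic_log (BadM κ j a b h ⌊h / H⌋₊) (4 * C / (h * H))
    ((6 * C + (b - a) ^ 2 * Real.log X1 + 1) / (h * H)) X1 (by positivity) (by linarith)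
    (by
      rw [mul_div_assoc', div_le_div_iff_of_pos_right hhH]
      have : 0 ≤ (b - a) ^ 2 * Real.log X1 := by positivity
      linarith)
    (by
      rw [le_div_iff₀ hhH]
      have := mul_le_mul_of_nonneg_left hhH2 hlogX1
      linarith)
    ?_ X hX
  · refine key.trans (le_of_eq ?_)
    have : 0 < Real.log X := Real.log_pos (by exact_mod_cast hX)
    field_simp
  · intro K hK
    have hKK : K0 ≤ K := by linarith
    have hK2 : (2 : ℝ) ≤ K := hK0.trans hKK
    have hlogK : 0 < Real.log K := Real.log_pos (by linarith)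
    have hsub : (Finset.Ico K (2 * K)).filter (BadM κ j a b h ⌊h / H⌋₊) ⊆
        ({1, 3, 5, 7} : Finset ℕ).biUnion fun c =>
          (blk8 c (K : ℝ)).filter (BadM κ j a b h ⌊h / H⌋₊) := by
      intro m hm
      obtain ⟨hm1, hm2⟩ := Finset.mem_filter.mp hm
      rw [Finset.mem_Ico] at hm1
      have hodd : Odd m := hm2.2.1
      refine Finset.mem_biUnion.mpr ⟨m % 8, ?_, Finset.mem_filter.mpr ⟨?_, hm2⟩⟩
      · have h1 : m % 2 = 1 := Nat.odd_iff.mp hodd
        have h2 : m % 8 = 1 ∨ m % 8 = 3 ∨ m % 8 = 5 ∨ m % 8 = 7 := by omega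
        simp only [Finset.mem_insert, Finset.mem_singleton]
        exact h2
      · refine Finset.mem_filter.mpr ⟨?_, ?_, ?_, rfl⟩
        · rw [Finset.mem_range]
          have : ((2 * K : ℕ) : ℝ) ≤ (⌈2 * (K : ℝ)⌉₊ : ℕ) := by
            push_cast
            exact Nat.le_ceil _
          have h3 : 2 * K ≤ ⌈2 * (K : ℝ)⌉₊ := by exact_mod_cast this
          omega
        · exact_mod_cast hm1.1
        · exact_mod_cast hm1.2
    have hcase : ∀ c ∈ ({1, 3, 5, 7} : Finset ℕ),
        (((blk8 c (K : ℝ)).filter (BadM κ j a b h ⌊h / H⌋₊)).card : ℝ) ≤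
          C * K / (h * H * Real.log K) := by
      intro c hc
      have hoc : OC c := by
        simp only [Finset.mem_insert, Finset.mem_singleton] at hc
        exact hc
      by_cases hpar : Par κ j c
      · exact hblock j c K h H hoc hpar hKK hH hHh
      · have hempty : (blk8 c (K : ℝ)).filter (BadM κ j a b h ⌊h / H⌋₊) = ∅ := by
          rw [Finset.filter_eq_empty_iff]
          rintro m hm ⟨_, hodd, _, χ, hχ, _⟩
          have h1 := par_of_isRC hodd hχ
          have h2 : m % 8 = c := (Finset.mem_filter.mp hm).2.2.2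
          rw [← par_mod, h2] at h1
          exact hpar h1
        rw [hempty, Finset.card_empty, Nat.cast_zero]
        positivity
    calc (((Finset.Ico K (2 * K)).filter (BadM κ j a b h ⌊h / H⌋₊)).card : ℝ)
        ≤ ((({1, 3, 5, 7} : Finset ℕ).biUnion fun c =>
          (blk8 c (K : ℝ)).filter (BadM κ j a b h ⌊h / H⌋₊)).card : ℝ) := by
          exact_mod_cast Finset.card_le_card hsub
      _ ≤ ∑ c ∈ ({1, 3, 5, 7} : Finset ℕ),
          (((blk8 c (K : ℝ)).filter (BadM κ j a b h ⌊h / H⌋₊)).card : ℝ) := by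
          exact_mod_cast Finset.card_biUnion_le
      _ ≤ ∑ _c ∈ ({1, 3, 5, 7} : Finset ℕ), C * K / (h * H * Real.log K) :=
          Finset.sum_le_sum hcase
      _ = 4 * C / (h * H) * K / Real.log K := by
          rw [Finset.sum_const]
          simp only [Finset.mem_insert, Finset.mem_singleton, OfNat.one_ne_ofNat, or_self,
            not_false_eq_true, Finset.card_insert_of_notMem, Nat.reduceEqDiff,
            Finset.card_singleton, Nat.reduceAdd, nsmul_eq_mul, Nat.cast_ofNat]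
          field_simp

/-- Some admissible interval of length `h` in `[-T, T]` contains at most `N` odd zeros. -/
def BadT (T δ h : ℝ) (N : ℕ) {q : ℕ} [NeZero q] (χ : DirichletCharacter ℂ q) : Prop :=
  ∃ x : ℝ, -T ≤ x ∧ x + h ≤ T ∧ (δ ≤ x ∨ x + h ≤ -δ) ∧
    (oddS χ ∩ Set.Ioo x (x + h)).encard ≤ N

/-- A bad character gives a bad `(j, m)`. -/
theorem badT_to (T δ h : ℝ) (N : ℕ) {q : ℕ} [NeZero q] (χ : DirichletCharacter ℂ q)
    (hp : χ.IsPrimitive) (h2 : MulChar.IsQuadratic χ) (hb : BadT T δ h N χ) :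
    ∃ (j : Fin 4) (m : ℕ), q = cc j * m ∧ (∀ n : ℕ, χ (n : ZMod q) = (rv j m n : ℂ)) ∧
      (m ≤ 1 ∨ ∃ κ ∈ Finset.range 2, BadM κ j δ T h N m ∨ BadM κ j (-T) (-δ) h N m) := by
  obtain ⟨j, m, hodd, hq, hv⟩ := Pool.Agent.RC.classify q χ hp h2
  subst hq
  refine ⟨j, m, rfl, hv, ?_⟩
  rcases le_or_gt m 1 with hm | hm
  · exact Or.inl hm
  right
  obtain ⟨x, hx1, hx2, hx3, hx4⟩ := hb
  have hI : BadI δ T h N χ ∨ BadI (-T) (-δ) h N χ := by
    rcases hx3 with h3 | h3
    · exact Or.inl ⟨x, h3, hx2, hx4⟩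
    · exact Or.inr ⟨x, hx1, h3, hx4⟩
  rcases χ.even_or_odd with he | ho
  · refine ⟨0, by simp, ?_⟩
    rcases hI with hI | hI
    · exact Or.inl ⟨hm, hodd, inferInstance, χ, ⟨hp, hv, Or.inl ⟨rfl, he⟩⟩, hI⟩
    · exact Or.inr ⟨hm, hodd, inferInstance, χ, ⟨hp, hv, Or.inl ⟨rfl, he⟩⟩, hI⟩
  · refine ⟨1, by simp, ?_⟩
    rcases hI with hI | hI
    · exact Or.inl ⟨hm, hodd, inferInstance, χ, ⟨hp, hv, Or.inr ⟨rfl, ho⟩⟩, hI⟩
    · exact Or.inr ⟨hm, hodd, inferInstance, χ, ⟨hp, hv, Or.inr ⟨rfl, ho⟩⟩, hI⟩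

/-- The final arithmetic. -/
theorem count_arith {T h H X l l1 Cs s t Y : ℝ} (hh : 0 < h) (hH : 0 < H) (hHh : H ≤ h)
    (hT : h ≤ T) (hX : 2 ≤ X) (hl : 0 < l) (hl1 : l ≤ l1) (hlX : l ≤ X) (hCs : 0 ≤ Cs)
    (h1 : s ≤ t) (h2 : t ≤ 8 + 8 * (Cs * Y)) (hY : Y = (X + 1) / (h * H * l1)) :
    s ≤ (16 * T ^ 2 + 16 * Cs) * X / (h * H * l) := by
  have hhH : 0 < h * H := by positivity
  have hYle : Y ≤ 2 * (X / (h * H * l)) := by
    rw [hY, mul_div_assoc']
    exact div_le_div₀ (by linarith) (by linarith) (by positivity)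
      (mul_le_mul_of_nonneg_left hl1 hhH.le)
  have e2 : h * H ≤ T ^ 2 := by nlinarith
  have e3 : 1 ≤ T ^ 2 * (X / (h * H * l)) := by
    rw [mul_div_assoc', le_div_iff₀ (by positivity)]
    have := mul_le_mul e2 hlX hl.le (sq_nonneg T)
    linarith
  have e4 : Cs * Y ≤ Cs * (2 * (X / (h * H * l))) := mul_le_mul_of_nonneg_left hYle hCs
  have e5 : (16 * T ^ 2 + 16 * Cs) * X / (h * H * l) =
      16 * (T ^ 2 * (X / (h * H * l))) + 8 * (Cs * (2 * (X / (h * H * l)))) := by ring
  rw [e5]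
  linarith

open Classical in
/-- The main theorem. -/
theorem count_all (T δ : ℝ) (hδ : 0 < δ) : ∃ C : ℝ, 0 < C ∧ ∀ (X : ℕ) (h H : ℝ), 2 ≤ X →
    0 < H → H ≤ h →
    ∑ q ∈ Finset.range X, (Nat.card {χ : DirichletCharacter ℂ (q + 1) //
      χ.IsPrimitive ∧ MulChar.IsQuadratic χ ∧ BadT T δ h ⌊h / H⌋₊ χ} : ℝ) ≤
      C * X / (h * H * Real.log X) := by
  have hneg : 0 < -T ∨ -δ < 0 := Or.inr (by linarith)
  obtain ⟨C0, hC0, hc0⟩ := count_one (κ := 0) (by norm_num) (a := δ) (b := T) (Or.inl hδ)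
  obtain ⟨C1, hC1, hc1⟩ := count_one (κ := 1) le_rfl (a := δ) (b := T) (Or.inl hδ)
  obtain ⟨C2, hC2, hc2⟩ := count_one (κ := 0) (by norm_num) (a := -T) (b := -δ) hneg
  obtain ⟨C3, hC3, hc3⟩ := count_one (κ := 1) le_rfl (a := -T) (b := -δ) hneg
  refine ⟨16 * T ^ 2 + 16 * (C0 + C1 + C2 + C3), by positivity, fun X h H hX hH hHh => ?_⟩
  have hh : 0 < h := hH.trans_le hHh
  have hhH : 0 < h * H := by positivity
  have hXR : (2 : ℝ) ≤ X := by exact_mod_cast hX
  have hlogX : 0 < Real.log X := Real.log_pos (by linarith)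
  -- rewrite the count
  set B : (q : ℕ) → Finset (DirichletCharacter ℂ (q + 1)) := fun q =>
    Finset.univ.filter fun χ => χ.IsPrimitive ∧ MulChar.IsQuadratic χ ∧
      BadT T δ h ⌊h / H⌋₊ χ with hB
  have hcard : ∀ q : ℕ, (Nat.card {χ : DirichletCharacter ℂ (q + 1) //
      χ.IsPrimitive ∧ MulChar.IsQuadratic χ ∧ BadT T δ h ⌊h / H⌋₊ χ}) = (B q).card := by
    intro q
    rw [Nat.card_eq_fintype_card, Fintype.card_subtype]
  simp only [hcard]
  set S : Finset (Σ q : ℕ, DirichletCharacter ℂ (q + 1)) := (Finset.range X).sigma B with hS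
  have hScard : ((∑ q ∈ Finset.range X, (B q).card : ℕ) : ℝ) = (S.card : ℝ) := by
    rw [hS, Finset.card_sigma]
  have hScard' : ∑ q ∈ Finset.range X, ((B q).card : ℝ) = (S.card : ℝ) := by
    rw [← hScard]; push_cast; rfl
  rw [hScard']
  by_cases hwin : h ≤ T - δ
  swap
  · -- no admissible interval
    have hSe : S = ∅ := by
      rw [Finset.eq_empty_iff_forall_notMem]
      intro x hx
      obtain ⟨_, hx2⟩ := Finset.mem_sigma.mp hx
      obtain ⟨_, _, _, y, hy1, hy2, hy3, _⟩ := Finset.mem_filter.mp hx2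
      apply hwin
      rcases hy3 with h3 | h3 <;> linarith
    rw [hSe, Finset.card_empty, Nat.cast_zero]
    positivity
  have hex : ∀ x ∈ S, ∃ y : Fin 4 × ℕ, x.1 + 1 = cc y.1 * y.2 ∧
      (∀ n : ℕ, x.2 (n : ZMod (x.1 + 1)) = (rv y.1 y.2 n : ℂ)) ∧
      (y.2 ≤ 1 ∨ ∃ κ ∈ Finset.range 2, BadM κ y.1 δ T h ⌊h / H⌋₊ y.2 ∨
        BadM κ y.1 (-T) (-δ) h ⌊h / H⌋₊ y.2) := by
    intro x hx
    obtain ⟨_, hx2⟩ := Finset.mem_sigma.mp hx
    obtain ⟨_, hx3, hx4, hx5⟩ := Finset.mem_filter.mp hx2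
    obtain ⟨j, m, h1, h2, h3⟩ := badT_to T δ h ⌊h / H⌋₊ x.2 hx3 hx4 hx5
    exact ⟨(j, m), h1, h2, h3⟩
  choose! Φ hΦ1 hΦ2 hΦ3 using hex
  have hinj : Set.InjOn Φ S := by
    intro x hx y hy hxy
    have h1 := hΦ1 x hx
    have h2 := hΦ1 y hy
    rw [hxy] at h1
    have h3 : x.1 = y.1 := by omega
    obtain ⟨q, χ⟩ := x
    obtain ⟨q', χ'⟩ := y
    simp only at h3
    subst h3
    congr 1
    have h4 := hΦ2 _ hx
    have h5 := hΦ2 _ hy
    rw [hxy] at h4
    simp only at h4 h5
    ext a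
    obtain ⟨n, hn⟩ := ZMod.natCast_zmod_surjective (a : ZMod (q + 1))
    rw [← hn, h4, h5]
  set Tx : Finset (Fin 4 × ℕ) := (Finset.univ ×ˢ Finset.range 2) ∪
    (Finset.range 2).biUnion fun κ => (Finset.univ : Finset (Fin 4)).biUnion fun j =>
      (((Finset.range (X + 1)).filter (BadM κ j δ T h ⌊h / H⌋₊)).image (fun m => (j, m)) ∪
        ((Finset.range (X + 1)).filter (BadM κ j (-T) (-δ) h ⌊h / H⌋₊)).image
          (fun m => (j, m))) with hTx
  have hmap : ∀ x ∈ S, Φ x ∈ Tx := by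
    intro x hx
    rw [hTx, Finset.mem_union]
    have h4 := hΦ1 x hx
    have h5 : x.1 < X := Finset.mem_range.mp (Finset.mem_sigma.mp hx).1
    have h6 : (Φ x).2 ≤ cc (Φ x).1 * (Φ x).2 := Nat.le_mul_of_pos_left _ (cc_pos' _)
    rcases hΦ3 x hx with h3 | ⟨κ, hκ, h3⟩
    · left
      rw [Finset.mem_product]
      exact ⟨Finset.mem_univ _, Finset.mem_range.mpr (by omega)⟩
    · right
      refine Finset.mem_biUnion.mpr ⟨κ, hκ, Finset.mem_biUnion.mpr
        ⟨(Φ x).1, Finset.mem_univ _, ?_⟩⟩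
      rw [Finset.mem_union]
      rcases h3 with h3 | h3
      · left
        refine Finset.mem_image.mpr ⟨(Φ x).2, Finset.mem_filter.mpr ⟨?_, h3⟩, rfl⟩
        rw [Finset.mem_range]
        omega
      · right
        refine Finset.mem_image.mpr ⟨(Φ x).2, Finset.mem_filter.mpr ⟨?_, h3⟩, rfl⟩
        rw [Finset.mem_range]
        omega
  have h1 : S.card ≤ Tx.card := Finset.card_le_card_of_injOn Φ hmap hinj
  set Y : ℝ := (X + 1 : ℕ) / (h * H * Real.log (X + 1 : ℕ)) with hY
  have hX1R : (2 : ℝ) ≤ ((X + 1 : ℕ) : ℝ) := by push_cast; linarith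
  have hlogX1 : Real.log X ≤ Real.log ((X + 1 : ℕ) : ℝ) :=
    Real.log_le_log (by linarith) (by push_cast; linarith)
  have hY0 : 0 ≤ Y := by
    rw [hY]
    have : 0 < Real.log ((X + 1 : ℕ) : ℝ) := hlogX.trans_le hlogX1
    positivity
  have hone : ∀ κ ∈ Finset.range 2, ∀ j : Fin 4,
      (((Finset.range (X + 1)).filter (BadM κ j δ T h ⌊h / H⌋₊)).card : ℝ) +
        (((Finset.range (X + 1)).filter (BadM κ j (-T) (-δ) h ⌊h / H⌋₊)).card : ℝ) ≤
        (C0 + C1 + C2 + C3) * Y := by
    intro κ hκ j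
    have hκ' : κ = 0 ∨ κ = 1 := by have := Finset.mem_range.mp hκ; omega
    have hn0 := mul_nonneg hC0.le hY0
    have hn1 := mul_nonneg hC1.le hY0
    have hn2 := mul_nonneg hC2.le hY0
    have hn3 := mul_nonneg hC3.le hY0
    have hsplit : (C0 + C1 + C2 + C3) * Y = C0 * Y + C1 * Y + C2 * Y + C3 * Y := by ring
    rw [hsplit]
    rcases hκ' with rfl | rfl
    · have e1 : (((Finset.range (X + 1)).filter (BadM 0 j δ T h ⌊h / H⌋₊)).card : ℝ) ≤
          C0 * Y := by
        rw [hY, mul_div_assoc']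
        exact hc0 j (X + 1) h H (by omega) hH hHh (by linarith)
      have e2 : (((Finset.range (X + 1)).filter (BadM 0 j (-T) (-δ) h ⌊h / H⌋₊)).card : ℝ) ≤
          C2 * Y := by
        rw [hY, mul_div_assoc']
        exact hc2 j (X + 1) h H (by omega) hH hHh (by linarith)
      clear_value Y
      linarith only [e1, e2, hn0, hn1, hn2, hn3]
    · have e1 : (((Finset.range (X + 1)).filter (BadM 1 j δ T h ⌊h / H⌋₊)).card : ℝ) ≤
          C1 * Y := by
        rw [hY, mul_div_assoc']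
        exact hc1 j (X + 1) h H (by omega) hH hHh (by linarith)
      have e2 : (((Finset.range (X + 1)).filter (BadM 1 j (-T) (-δ) h ⌊h / H⌋₊)).card : ℝ) ≤
          C3 * Y := by
        rw [hY, mul_div_assoc']
        exact hc3 j (X + 1) h H (by omega) hH hHh (by linarith)
      clear_value Y
      linarith only [e1, e2, hn0, hn1, hn2, hn3]
  have h2 : (Tx.card : ℝ) ≤ 8 + 8 * ((C0 + C1 + C2 + C3) * Y) := by
    have e1 : Tx.card ≤ 8 + ∑ κ ∈ Finset.range 2, ∑ j : Fin 4,
        (((Finset.range (X + 1)).filter (BadM κ j δ T h ⌊h / H⌋₊)).card +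
          ((Finset.range (X + 1)).filter (BadM κ j (-T) (-δ) h ⌊h / H⌋₊)).card) := by
      rw [hTx]
      refine (Finset.card_union_le _ _).trans ?_
      refine Nat.add_le_add ?_ ?_
      · rw [Finset.card_product]; simp
      · refine Finset.card_biUnion_le.trans (Finset.sum_le_sum fun κ _ => ?_)
        refine Finset.card_biUnion_le.trans (Finset.sum_le_sum fun j _ => ?_)
        refine (Finset.card_union_le _ _).trans ?_
        exact Nat.add_le_add Finset.card_image_le Finset.card_image_le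
    have e2 : (Tx.card : ℝ) ≤ 8 + ∑ κ ∈ Finset.range 2, ∑ j : Fin 4,
        ((((Finset.range (X + 1)).filter (BadM κ j δ T h ⌊h / H⌋₊)).card : ℝ) +
          (((Finset.range (X + 1)).filter (BadM κ j (-T) (-δ) h ⌊h / H⌋₊)).card : ℝ)) := by
      exact_mod_cast e1
    refine e2.trans ?_
    have e3 : ∑ κ ∈ Finset.range 2, ∑ j : Fin 4,
        ((((Finset.range (X + 1)).filter (BadM κ j δ T h ⌊h / H⌋₊)).card : ℝ) +
          (((Finset.range (X + 1)).filter (BadM κ j (-T) (-δ) h ⌊h / H⌋₊)).card : ℝ)) ≤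
        ∑ κ ∈ Finset.range 2, ∑ j : Fin 4, (C0 + C1 + C2 + C3) * Y :=
      Finset.sum_le_sum fun κ hκ => Finset.sum_le_sum fun j _ => hone κ hκ j
    refine (add_le_add_right e3 8).trans (le_of_eq ?_)
    simp only [Finset.sum_const, Finset.card_range, Finset.card_univ, Fintype.card_fin,
      nsmul_eq_mul]
    push_cast
    ring
  have hlX : Real.log X ≤ X := (Real.log_le_sub_one_of_pos (by linarith)).trans (by linarith)
  have hhT : h ≤ T := by linarith
  have hCs : 0 ≤ C0 + C1 + C2 + C3 := by positivity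
  have h1' : (S.card : ℝ) ≤ (Tx.card : ℝ) := by exact_mod_cast h1
  have hYe : Y = ((X : ℝ) + 1) / (h * H * Real.log ((X + 1 : ℕ) : ℝ)) := by
    rw [hY]
    push_cast
    ring
  exact count_arith hh hH hHh hhT hXR hlogX hlogX1 hlX hCs h1' h2 hYe

end Pool.Agent.RSE
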